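import Pool.Agent.MV5.StB

/-!
# MV5, AB: Abel summation against a periodic function
-/

set_option autoImplicit false

namespace Pool.Agent.MV5

open Finset Filter
open Pool.Agent.GBQ (ee lam nd Admissible)
open Pool.Agent.MVX (Chr tent Bm Um prm Win GP)
open Pool.Agent.LIN (PP pz Dens)
open Pool.Agent.MT (IsWt)
open Pool.Agent.MVII (TT QQ HH H0 cp cs gp GQ ar PL PM NB BI Bc Md fj rr Per mn wq Sum4 Blk Wc)

/-- summation by parts -/
private theorem ab_parts (G W : ℕ → ℂ) (h0 : W 0 = 0) (N : ℕ) :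
    ∑ y ∈ range N, G y * (W (y + 1) - W y) =
      G N * W N - ∑ y ∈ range N, (G (y + 1) - G y) * W (y + 1) := by
  induction N with
  | zero => simp [h0]
  | succ N ih =>
    rw [sum_range_succ, sum_range_succ, ih]
    ring

theorem thm_Ab : St_Ab := by
  intro l N P G B hl hP hB
  have hB0 : 0 ≤ B := (norm_nonneg _).trans (hB 0)
  have hl0 : (l : ℂ) ≠ 0 := by
    exact_mod_cast (by omega : l ≠ 0)
  have hlr : (0 : ℝ) < l := by exact_mod_cast hl
  -- the sum over a period
  have hper : ∀ t : ℕ, ∑ y ∈ range l, P ((t : ℤ) + (y : ℤ)) = ∑ y ∈ range l, P (y : ℤ) := by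
    intro t
    induction t with
    | zero =>
      refine sum_congr rfl fun y _ => ?_
      rw [Nat.cast_zero, zero_add]
    | succ t ih =>
      rw [← ih]
      have h1 : ∑ y ∈ range l, P (((t + 1 : ℕ) : ℤ) + (y : ℤ)) =
          ∑ y ∈ range l, P ((t : ℤ) + ((y + 1 : ℕ) : ℤ)) := by
        refine sum_congr rfl fun y _ => ?_
        congr 1
        push_cast
        ring
      have h2 := sum_range_succ' (fun y : ℕ => P ((t : ℤ) + (y : ℤ))) l
      have h3 := sum_range_succ (fun y : ℕ => P ((t : ℤ) + (y : ℤ))) l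
      have h4 : P ((t : ℤ) + (l : ℤ)) = P ((t : ℤ) + ((0 : ℕ) : ℤ)) := by
        rw [Nat.cast_zero, add_zero]
        exact hP t
      rw [h1]
      have h5 := h2.symm.trans h3
      rw [h4] at h5
      exact add_right_cancel h5
  have hmn : ‖mn l P‖ ≤ B := by
    unfold mn
    rw [norm_div, Complex.norm_natCast, div_le_iff₀ hlr]
    refine (norm_sum_le _ _).trans ?_
    calc ∑ y ∈ range l, ‖P (y : ℤ)‖ ≤ ∑ _y ∈ range l, B := sum_le_sum fun y _ => hB _
      _ = B * l := by rw [sum_const, card_range, nsmul_eq_mul, mul_comm]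
  obtain ⟨W, hW⟩ : ∃ W : ℕ → ℂ, ∀ t, W t = ∑ y ∈ range t, (P (y : ℤ) - mn l P) :=
    ⟨_, fun _ => rfl⟩
  have hW0 : W 0 = 0 := by rw [hW, range_zero, sum_empty]
  have hWs : ∀ t, W (t + 1) - W t = P (t : ℤ) - mn l P := by
    intro t
    rw [hW, hW, sum_range_succ]
    ring
  have hWl : ∀ t, W (t + l) = W t := by
    intro t
    rw [hW, sum_range_add, ← hW]
    have h1 : ∑ x ∈ range l, (P ((t + x : ℕ) : ℤ) - mn l P) = 0 := by
      rw [sum_sub_distrib, sum_const, card_range, nsmul_eq_mul]
      have h2 : ∑ x ∈ range l, P ((t + x : ℕ) : ℤ) = ∑ y ∈ range l, P (y : ℤ) := by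
        rw [← hper t]
        refine sum_congr rfl fun y _ => ?_
        rw [Nat.cast_add]
      rw [h2]
      unfold mn
      rw [mul_div_cancel₀ _ hl0, sub_self]
    rw [h1, add_zero]
  have hWb : ∀ t, ‖W t‖ ≤ 2 * l * B := by
    intro t
    induction t using Nat.strong_induction_on with
    | _ t ih =>
      rcases Nat.lt_or_ge t l with h | h
      · rw [hW]
        refine (norm_sum_le _ _).trans ?_
        calc ∑ y ∈ range t, ‖P (y : ℤ) - mn l P‖ ≤ ∑ _y ∈ range t, (2 * B) := by
              refine sum_le_sum fun y _ => (norm_sub_le _ _).trans ?_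
              linarith [hB y]
          _ = t * (2 * B) := by rw [sum_const, card_range, nsmul_eq_mul]
          _ ≤ l * (2 * B) := by
              refine mul_le_mul_of_nonneg_right ?_ (by linarith)
              exact_mod_cast h.le
          _ = 2 * l * B := by ring
      · have h1 := hWl (t - l)
        rw [Nat.sub_add_cancel h] at h1
        rw [h1]
        exact ih (t - l) (by omega)
  have h1 : ∑ y ∈ range N, G y * P (y : ℤ) - mn l P * ∑ y ∈ range N, G y =
      G N * W N - ∑ y ∈ range N, (G (y + 1) - G y) * W (y + 1) := by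
    rw [← ab_parts G W hW0 N, mul_sum, ← sum_sub_distrib]
    refine sum_congr rfl fun y _ => ?_
    rw [hWs]
    ring
  rw [h1]
  refine (norm_sub_le _ _).trans ?_
  have h2 : ‖G N * W N‖ ≤ 2 * l * B * ‖G N‖ := by
    rw [norm_mul, mul_comm]
    exact mul_le_mul_of_nonneg_right (hWb N) (norm_nonneg _)
  have h3 : ‖∑ y ∈ range N, (G (y + 1) - G y) * W (y + 1)‖ ≤
      2 * l * B * ∑ y ∈ range N, ‖G (y + 1) - G y‖ := by
    rw [mul_sum]
    refine (norm_sum_le _ _).trans (sum_le_sum fun y _ => ?_)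
    rw [norm_mul, mul_comm]
    exact mul_le_mul_of_nonneg_right (hWb (y + 1)) (norm_nonneg _)
  rw [mul_add]
  exact add_le_add h2 h3

end Pool.Agent.MV5
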