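import Pool.Agent.MV5.StB
import Pool.Agent.MVII.Ep
import Pool.Agent.GBQ.Basic

set_option autoImplicit false

/-!
# MV5, module Al: the side of the von Mangoldt function with the sieve weight

helper65.
-/

namespace Pool.Agent.MV5

open Finset Filter
open Pool.Agent.GBQ (ee lam nd Admissible)
open Pool.Agent.MVX (Chr tent Bm Um prm Win GP)
open Pool.Agent.LIN (PP pz Dens)
open Pool.Agent.MT (IsWt)
open Pool.Agent.MVII (TT QQ HH H0 cp cs gp GQ ar PL PM NB BI Bc Md fj rr Per mn wq Sum4 Blk)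

/-- one term of the sum -/
noncomputable def al_F (η : ℝ → ℝ) (K q : ℕ) (b : ℤ) (β : ℝ) (d ν n : ℕ) : ℂ :=
  ((lam n : ℝ) : ℂ) * (Pd d ν q b (n : ℤ) * (((η ((n : ℝ) / K) : ℝ) : ℂ) * ee (β * n)))

theorem al_term (η : ℝ → ℝ) (K q : ℕ) (b : ℤ) (β : ℝ) (c : ℕ → ℝ) (d ν y : ℕ) :
    ((lam y * η ((y : ℝ) / K) : ℝ) : ℂ) *
        (((if (d : ℤ) ∣ (y : ℤ) - (ν : ℤ) then c d else 0 : ℝ)) : ℂ) *
        ee (((b : ℝ) / q + β) * y) =
      ((c d : ℝ) : ℂ) * al_F η K q b β d ν y := by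
  have h1 : ((b : ℝ) / q + β) * y = (b : ℝ) * ((y : ℤ) : ℝ) / q + β * y := by
    rw [Int.cast_natCast]
    ring
  rw [h1, GBQ.ee_add]
  unfold al_F Pd
  split_ifs
  · push_cast
    ring
  · push_cast
    ring

theorem al_expand (hRt : St_Rt) (η : ℝ → ℝ) (K h D q : ℕ) (b : ℤ) (β : ℝ) (c : ℕ → ℝ)
    (hη : IsWt η) (hh : 1 ≤ h) :
    ∑ y ∈ range (K + h), ((lam y * η ((y : ℝ) / K) : ℝ) : ℂ) * ((SD D c (y : ℤ) : ℝ) : ℂ) *
        ee (((b : ℝ) / q + β) * y) =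
      ∑ d ∈ Icc 1 D, ((c d : ℝ) : ℂ) * ∑ ν ∈ RT d, ∑ n ∈ Icc 1 K, al_F η K q b β d ν n := by
  have h1 : ∀ d ν : ℕ, ∑ n ∈ Icc 1 K, al_F η K q b β d ν n =
      ∑ n ∈ range (K + h), al_F η K q b β d ν n := by
    intro d ν
    refine sum_subset (fun n hn => ?_) fun n _ hn => ?_
    · rw [mem_Icc] at hn
      rw [mem_range]
      omega
    · rw [mem_Icc, not_and_or, not_le, not_le] at hn
      unfold al_F
      rcases hn with hn | hn
      · have h2 : n = 0 := by omega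
        subst h2
        have h3 : lam 0 = 0 := by
          unfold lam
          exact ArithmeticFunction.map_zero
        rw [h3, Complex.ofReal_zero, zero_mul]
      · have h3 : η ((n : ℝ) / K) = 0 := by
          by_contra h4
          obtain ⟨h5, h6⟩ := hη.supp _ h4
          have hK : (0 : ℝ) < K := by
            rcases Nat.eq_zero_or_pos K with h7 | h7
            · rw [h7, Nat.cast_zero, div_zero] at h5
              norm_num at h5
            · exact_mod_cast h7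
          rw [div_lt_iff₀ hK] at h6
          have h7 : (K : ℝ) < n := by exact_mod_cast hn
          nlinarith
        rw [h3, Complex.ofReal_zero, zero_mul, mul_zero, mul_zero]
  have h2 : ∀ y : ℕ, ((lam y * η ((y : ℝ) / K) : ℝ) : ℂ) * ((SD D c (y : ℤ) : ℝ) : ℂ) *
        ee (((b : ℝ) / q + β) * y) =
      ∑ d ∈ Icc 1 D, ((c d : ℝ) : ℂ) * ∑ ν ∈ RT d, al_F η K q b β d ν y := by
    intro y
    rw [hRt.2, Complex.ofReal_sum, mul_sum, sum_mul]
    refine sum_congr rfl fun d _ => ?_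
    rw [Complex.ofReal_sum, mul_sum, sum_mul, mul_sum]
    exact sum_congr rfl fun ν _ => al_term η K q b β c d ν y
  simp only [h1, h2]
  rw [sum_comm]
  refine sum_congr rfl fun d _ => ?_
  rw [← mul_sum, sum_comm]

theorem al_pow (a : ℝ) (X : ℕ) (h0 : 0 ≤ a) (h1 : 1 ≤ (X : ℝ)) : (1 : ℝ) ≤ (X : ℝ) ^ a :=
  Real.one_le_rpow h1 h0

theorem al_ev (C a : ℝ) (ha : 0 < a) : ∀ᶠ X : ℕ in atTop, C ≤ (X : ℝ) ^ a :=
  ((tendsto_rpow_atTop ha).comp tendsto_natCast_atTop_atTop).eventually_ge_atTop C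

/-- **AL.** -/
theorem thm_Al (h1 : St_Rt) (h2 : St_Ap) : St_Al := by
  intro η hη C δ hδ hδ1
  filter_upwards [MVII.thm_Ep (1 / 1000) (by norm_num) 1, eventually_ge_atTop 3,
    al_ev (2 * |C|) (1 / 10) (by norm_num), al_ev 8 (1 / 2) (by norm_num)] with X hEp hX3 hbC hb8
    m q b β c hm hmX hq hqQ hbq hc
  obtain ⟨hE1, hE2, hE3, -, -⟩ := hEp
  have hX1 : (1 : ℝ) ≤ X := by exact_mod_cast (by omega : 1 ≤ X)
  have hX0 : (0 : ℝ) < X := by linarith
  have hmono : ∀ a b : ℝ, a ≤ b → (X : ℝ) ^ a ≤ (X : ℝ) ^ b := fun a b h =>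
    Real.rpow_le_rpow_of_exponent_le hX1 h
  have hpos : ∀ a : ℝ, 0 < (X : ℝ) ^ a := fun a => Real.rpow_pos_of_pos hX0 a
  have hadd : ∀ a b : ℝ, (X : ℝ) ^ a * (X : ℝ) ^ b = (X : ℝ) ^ (a + b) := fun a b =>
    (Real.rpow_add hX0 a b).symm
  -- the length
  have h8m : 8 * m ≤ X := by
    have h3 : (8 : ℝ) * m ≤ X := by
      calc (8 : ℝ) * m ≤ (X : ℝ) ^ (1 / 2 : ℝ) * (X : ℝ) ^ (1 / 2 : ℝ) := by
            refine mul_le_mul hb8 (hmX.trans (hmono _ _ ?_)) (Nat.cast_nonneg _) (hpos _).le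
            have : δ / 1000 ≤ 1 / 10 ^ 6 := by
              have h4 : (1 : ℝ) / 10 ^ 6 ≤ 1 := by norm_num
              linarith
            norm_num at this ⊢
            linarith
        _ = X := by
            rw [hadd]
            norm_num
    exact_mod_cast h3
  have hK1 : 1 ≤ KK m X := by
    unfold KK
    rw [Nat.one_le_div_iff (by omega)]
    exact h8m
  have hKX : KK m X ≤ X := Nat.div_le_self _ _
  have hh : 1 ≤ HH δ X := by
    unfold HH
    rw [Nat.one_le_ceil_iff]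
    exact hpos _
  have hDX : (DD X : ℝ) ≤ (X : ℝ) ^ (491 / 1000 : ℝ) := Nat.floor_le (hpos _).le
  have hDX' : DD X ≤ X := by
    have h3 : (DD X : ℝ) ≤ X := by
      refine hDX.trans ((hmono _ 1 (by norm_num)).trans (le_of_eq (Real.rpow_one _)))
    exact_mod_cast h3
  have hQX : (QQ δ X : ℝ) ≤ (X : ℝ) ^ (30 * δ) := Nat.floor_le (hpos _).le
  have hqr : (q : ℝ) ≤ (X : ℝ) ^ (30 * δ) := by
    have h3 : (q : ℝ) ≤ QQ δ X := by exact_mod_cast hqQ
    exact h3.trans hQX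
  have hδ2 : 30 * δ ≤ 1 / 1000 := by
    have h3 : (1 : ℝ) / 10 ^ 6 = 1 / 1000000 := by norm_num
    rw [h3] at hδ1
    linarith
  have hqX : q ≤ X := by
    have h3 : (q : ℝ) ≤ X := by
      refine hqr.trans ((hmono _ 1 (by linarith)).trans (le_of_eq (Real.rpow_one _)))
    exact_mod_cast h3
  have hlogK : Real.log (KK m X) ≤ (X : ℝ) ^ (1 / 1000 : ℝ) := by
    rw [pow_one] at hE2
    have h3 : Real.log (KK m X) ≤ Real.log (2 * X) := by
      refine Real.log_le_log (by exact_mod_cast hK1) ?_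
      have h4 : ((KK m X : ℕ) : ℝ) ≤ X := by exact_mod_cast hKX
      linarith
    linarith
  have hlogK0 : 0 ≤ Real.log (KK m X) := Real.log_nonneg (by exact_mod_cast hK1)
  rw [al_expand h1 η (KK m X) (HH δ X) (DD X) q b β c hη hh, ← sum_sub_distrib]
  -- one modulus
  obtain ⟨E, hE⟩ : ∃ E : ℝ, E = |C| * (X : ℝ) ^ (2 / 1000 : ℝ) *
    (2 * (X : ℝ) ^ (30 * δ) * (X : ℝ) ^ (1 / 1000 : ℝ) * (X : ℝ) ^ (1 / 1000 : ℝ)) := ⟨_, rfl⟩
  have hE0 : 0 ≤ E := by
    rw [hE]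
    positivity
  have hd : ∀ d ∈ Icc 1 (DD X), ‖((c d : ℝ) : ℂ) * ∑ ν ∈ RT d, ∑ n ∈ Icc 1 (KK m X),
      al_F η (KK m X) q b β d ν n - ((c d : ℝ) : ℂ) * ∑ ν ∈ RT d,
        ∑ r ∈ (Nat.lcm d q).divisors, ∑ χ ∈ prm r,
          fh d ν q b ⟨r, χ⟩ * Tx η (KK m X) β ⟨r, χ⟩‖ ≤ E := by
    intro d hd
    rw [mem_Icc] at hd
    rw [← mul_sub, norm_mul, Complex.norm_real, Real.norm_eq_abs]
    by_cases hcd : c d = 0
    · rw [hcd, abs_zero, zero_mul]
      exact hE0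
    obtain ⟨hsq, h2d, hdD⟩ := hc.supp d hcd
    have hdX : d ≤ X := hdD.trans hDX'
    rw [← sum_sub_distrib]
    have hν : ∀ ν ∈ RT d, ‖∑ n ∈ Icc 1 (KK m X), al_F η (KK m X) q b β d ν n -
        ∑ r ∈ (Nat.lcm d q).divisors, ∑ χ ∈ prm r,
          fh d ν q b ⟨r, χ⟩ * Tx η (KK m X) β ⟨r, χ⟩‖ ≤
        2 * (X : ℝ) ^ (30 * δ) * (X : ℝ) ^ (1 / 1000 : ℝ) * (X : ℝ) ^ (1 / 1000 : ℝ) := by
      intro ν _
      refine (h2 η (KK m X) d q ν b β hη hK1 hd.1 hq hbq).trans ?_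
      have hl0 : 1 ≤ Nat.lcm d q := Nat.lcm_pos hd.1 hq
      have hl : Nat.lcm d q ≤ X ^ 4 := by
        have h3 : Nat.lcm d q ≤ d * q := Nat.le_of_dvd (Nat.mul_pos hd.1 hq)
          (Nat.lcm_dvd_mul d q)
        have h4 : d * q ≤ X * X := Nat.mul_le_mul hdX hqX
        have h5 : X * X ≤ X ^ 4 := by
          rw [← pow_two]
          exact Nat.pow_le_pow_right (by omega) (by norm_num)
        omega
      have hω : ((Nat.lcm d q).primeFactors.card : ℝ) ≤ (X : ℝ) ^ (1 / 1000 : ℝ) := by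
        refine le_trans ?_ (hE1 _ hl0 hl)
        have h3 : (Nat.lcm d q).primeFactors.card ≤ (Nat.lcm d q).divisors.card := by
          refine card_le_card fun p hp => ?_
          rw [Nat.mem_divisors]
          exact ⟨Nat.dvd_of_mem_primeFactors hp, by omega⟩
        exact_mod_cast h3
      have h3 : 2 * (q : ℝ) * ((Nat.lcm d q).primeFactors.card : ℝ) ≤
          2 * (X : ℝ) ^ (30 * δ) * (X : ℝ) ^ (1 / 1000 : ℝ) :=
        mul_le_mul (mul_le_mul_of_nonneg_left hqr (by norm_num)) hω (Nat.cast_nonneg _)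
          (by positivity)
      exact mul_le_mul h3 hlogK hlogK0 (by positivity)
    have hsum := (norm_sum_le (RT d) _).trans (sum_le_sum hν)
    rw [sum_const, nsmul_eq_mul] at hsum
    have hRTd : ((RT d).card : ℝ) ≤ 2 ^ d.primeFactors.card := by exact_mod_cast h1.1 d hsq
    have hcC : |c d| ≤ |C| * 8 ^ d.primeFactors.card :=
      (hc.bound d).trans (mul_le_mul_of_nonneg_right (le_abs_self C) (by positivity))
    have h4 := (hE3 d hd.1 hdX).2
    have h16 : |c d| * ((RT d).card : ℝ) ≤ |C| * (X : ℝ) ^ (2 / 1000 : ℝ) := by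
      calc |c d| * ((RT d).card : ℝ) ≤ (|C| * 8 ^ d.primeFactors.card) *
            2 ^ d.primeFactors.card := mul_le_mul hcC hRTd (Nat.cast_nonneg _) (by positivity)
        _ = |C| * (4 ^ d.primeFactors.card * 4 ^ d.primeFactors.card) := by
            rw [mul_assoc, ← mul_pow, ← mul_pow]
            norm_num
        _ ≤ |C| * ((X : ℝ) ^ (1 / 1000 : ℝ) * (X : ℝ) ^ (1 / 1000 : ℝ)) := by
            refine mul_le_mul_of_nonneg_left ?_ (abs_nonneg _)
            exact mul_le_mul h4 h4 (by positivity) (hpos _).le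
        _ = |C| * (X : ℝ) ^ (2 / 1000 : ℝ) := by
            rw [hadd]
            norm_num
    calc |c d| * ‖∑ ν ∈ RT d, (∑ n ∈ Icc 1 (KK m X), al_F η (KK m X) q b β d ν n -
          ∑ r ∈ (Nat.lcm d q).divisors, ∑ χ ∈ prm r,
            fh d ν q b ⟨r, χ⟩ * Tx η (KK m X) β ⟨r, χ⟩)‖ ≤
          |c d| * (((RT d).card : ℝ) * (2 * (X : ℝ) ^ (30 * δ) * (X : ℝ) ^ (1 / 1000 : ℝ) *
            (X : ℝ) ^ (1 / 1000 : ℝ))) := mul_le_mul_of_nonneg_left hsum (abs_nonneg _)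
      _ = (|c d| * ((RT d).card : ℝ)) * (2 * (X : ℝ) ^ (30 * δ) * (X : ℝ) ^ (1 / 1000 : ℝ) *
            (X : ℝ) ^ (1 / 1000 : ℝ)) := by ring
      _ ≤ E := by
          rw [hE]
          exact mul_le_mul_of_nonneg_right h16 (by positivity)
  refine ((norm_sum_le _ _).trans (sum_le_sum hd)).trans ?_
  rw [sum_const, nsmul_eq_mul, Nat.card_Icc, Nat.add_sub_cancel]
  calc ((DD X : ℕ) : ℝ) * E ≤ (X : ℝ) ^ (491 / 1000 : ℝ) * E :=
        mul_le_mul_of_nonneg_right hDX hE0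
    _ = (2 * |C|) * ((X : ℝ) ^ (491 / 1000 : ℝ) * (X : ℝ) ^ (2 / 1000 : ℝ) *
          (X : ℝ) ^ (30 * δ) * (X : ℝ) ^ (1 / 1000 : ℝ) * (X : ℝ) ^ (1 / 1000 : ℝ)) := by
        rw [hE]
        ring
    _ = (2 * |C|) * (X : ℝ) ^ (495 / 1000 + 30 * δ) := by
        rw [hadd, hadd, hadd, hadd]
        congr 2
        ring
    _ ≤ (X : ℝ) ^ (1 / 10 : ℝ) * (X : ℝ) ^ (495 / 1000 + 30 * δ) :=
        mul_le_mul_of_nonneg_right hbC (hpos _).le
    _ = (X : ℝ) ^ (595 / 1000 + 30 * δ) := by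
        rw [hadd]
        congr 1
        ring
    _ ≤ (X : ℝ) ^ (6 / 10 : ℝ) := hmono _ _ (by linarith)

end Pool.Agent.MV5
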