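import Pool.Agent.MV5.StB
import Pool.Agent.MVII.Ep
import Pool.Agent.GBQ.Basic

set_option autoImplicit false

/-!
# MV5 [Am]: the side of the model
-/

namespace Pool.Agent.MV5

open Finset Filter
open Pool.Agent.GBQ (ee lam nd Admissible ee_norm ee_add)
open Pool.Agent.MVX (Chr tent Bm Um prm Win GP)
open Pool.Agent.LIN (PP pz Dens)
open Pool.Agent.MT (IsWt)
open Pool.Agent.MVII (TT QQ HH H0 cp cs gp GQ ar PL PM NB BI Bc Md fj rr Per mn wq Sum4 Blk Wc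
  ep_large ep_omega ep_div ep_log)

theorem am_prm (r : ℕ) (hr : 1 ≤ r) : ((prm r).card : ℝ) ≤ r := by
  have : NeZero r := ⟨by omega⟩
  have h : (prm r).card ≤ r := by
    calc (prm r).card ≤ Fintype.card (DirichletCharacter ℂ r) := card_le_univ _
      _ = Nat.card (DirichletCharacter ℂ r) := (Nat.card_eq_fintype_card).symm
      _ = r.totient := DirichletCharacter.card_eq_totient_of_hasEnoughRootsOfUnity ℂ r
      _ ≤ r := Nat.totient_le r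
  exact_mod_cast h

/-- the terms of the product -/
theorem am_point (hR : ∀ (D : ℕ) (c : ℕ → ℝ) (y : ℤ), SD D c y =
    ∑ d ∈ Icc 1 D, ∑ ν ∈ RT d, if (d : ℤ) ∣ y - (ν : ℤ) then c d else 0)
    (η : ℝ → ℝ) (T Q h K D q : ℕ) (b : ℤ) (β : ℝ) (c : ℕ → ℝ) (y : ℕ) :
    MY η T Q h K y * ((SD D c (y : ℤ) : ℝ) : ℂ) * ee (((b : ℝ) / q + β) * y) =
      ∑ d ∈ Icc 1 D, ((c d : ℝ) : ℂ) * ∑ ν ∈ RT d, ∑ r ∈ Icc 1 T, ∑ χ ∈ prm r,
        (BY η h K y ⟨r, χ⟩ * ee (β * y)) *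
          ((starRingEnd ℂ) (χ (y : ZMod r)) * ((ar Q r (y : ℤ) : ℝ) : ℂ)) *
          Pd d ν q b (y : ℤ) := by
  have h1 : ee (((b : ℝ) / q + β) * y) = ee ((b : ℝ) * ((y : ℤ) : ℝ) / q) * ee (β * y) := by
    rw [← ee_add]
    congr 1
    push_cast
    ring
  have h2 : ∀ d ν : ℕ, ∑ r ∈ Icc 1 T, ∑ χ ∈ prm r, (BY η h K y ⟨r, χ⟩ * ee (β * y)) *
          ((starRingEnd ℂ) (χ (y : ZMod r)) * ((ar Q r (y : ℤ) : ℝ) : ℂ)) *
          Pd d ν q b (y : ℤ) = MY η T Q h K y * (ee (β * y) * Pd d ν q b (y : ℤ)) := by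
    intro d ν
    unfold MY PM
    rw [Finset.sum_mul]
    refine sum_congr rfl fun r _ => ?_
    rw [Finset.sum_mul]
    refine sum_congr rfl fun χ _ => ?_
    rw [Int.cast_natCast]
    ring
  simp_rw [h2]
  rw [hR, h1]
  push_cast
  rw [Finset.mul_sum, Finset.sum_mul]
  refine sum_congr rfl fun d _ => ?_
  rw [Finset.mul_sum, Finset.sum_mul, Finset.mul_sum]
  refine sum_congr rfl fun ν _ => ?_
  unfold Pd
  split_ifs with h3
  · push_cast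
    ring
  · push_cast
    ring

theorem am_core (hR : ∀ (D : ℕ) (c : ℕ → ℝ) (y : ℤ), SD D c y =
    ∑ d ∈ Icc 1 D, ∑ ν ∈ RT d, if (d : ℤ) ∣ y - (ν : ℤ) then c d else 0)
    (η : ℝ → ℝ) (T Q h K D N q : ℕ) (b : ℤ) (β : ℝ) (c : ℕ → ℝ) (hq : 1 ≤ q)
    (E : ℕ → ℕ → ℝ) (W : Chr → ℂ)
    (hE : ∀ d ∈ Icc 1 D, c d ≠ 0 → ∀ ν ∈ RT d, ∀ r ∈ Icc 1 T, ∀ χ ∈ prm r,
      ‖∑ y ∈ range N, (BY η h K y ⟨r, χ⟩ * ee (β * y)) *
          ((starRingEnd ℂ) (χ (y : ZMod r)) * ((ar Q r (y : ℤ) : ℝ) : ℂ)) * Pd d ν q b (y : ℤ) -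
        (if r ∣ Nat.lcm d q then fh d ν q b ⟨r, χ⟩ else 0) * W ⟨r, χ⟩‖ ≤ E d r) :
    ‖∑ y ∈ range N, MY η T Q h K y * ((SD D c (y : ℤ) : ℝ) : ℂ) * ee (((b : ℝ) / q + β) * y) -
      ∑ d ∈ Icc 1 D, ((c d : ℝ) : ℂ) * ∑ ν ∈ RT d,
        ∑ r ∈ (Nat.lcm d q).divisors.filter (fun r => r ≤ T), ∑ χ ∈ prm r,
          fh d ν q b ⟨r, χ⟩ * W ⟨r, χ⟩‖ ≤
    ∑ d ∈ Icc 1 D, |c d| * ∑ _ν ∈ RT d, ∑ r ∈ Icc 1 T, ∑ _χ ∈ prm r, E d r := by
  have h1 : ∑ y ∈ range N, MY η T Q h K y * ((SD D c (y : ℤ) : ℝ) : ℂ) *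
      ee (((b : ℝ) / q + β) * y) =
      ∑ d ∈ Icc 1 D, ((c d : ℝ) : ℂ) * ∑ ν ∈ RT d, ∑ r ∈ Icc 1 T, ∑ χ ∈ prm r,
        ∑ y ∈ range N, (BY η h K y ⟨r, χ⟩ * ee (β * y)) *
          ((starRingEnd ℂ) (χ (y : ZMod r)) * ((ar Q r (y : ℤ) : ℝ) : ℂ)) *
          Pd d ν q b (y : ℤ) := by
    rw [sum_congr rfl fun y _ => am_point hR η T Q h K D q b β c y, sum_comm]
    refine sum_congr rfl fun d _ => ?_
    rw [← Finset.mul_sum, sum_comm]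
    congr 1
    refine sum_congr rfl fun ν _ => ?_
    rw [sum_comm]
    refine sum_congr rfl fun r _ => ?_
    rw [sum_comm]
  have h2 : ∀ d ∈ Icc 1 D, ∀ ν : ℕ,
      ∑ r ∈ (Nat.lcm d q).divisors.filter (fun r => r ≤ T), ∑ χ ∈ prm r,
        fh d ν q b ⟨r, χ⟩ * W ⟨r, χ⟩ =
      ∑ r ∈ Icc 1 T, ∑ χ ∈ prm r, (if r ∣ Nat.lcm d q then fh d ν q b ⟨r, χ⟩ else 0) *
        W ⟨r, χ⟩ := by
    intro d hd ν
    have hd1 := (mem_Icc.1 hd).1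
    have hl : Nat.lcm d q ≠ 0 := Nat.lcm_ne_zero (by omega) (by omega)
    have h3 : (Nat.lcm d q).divisors.filter (fun r => r ≤ T) =
        (Icc 1 T).filter (fun r => r ∣ Nat.lcm d q) := by
      ext r
      simp only [mem_filter, Nat.mem_divisors, mem_Icc]
      constructor
      · rintro ⟨⟨h4, h5⟩, h6⟩
        exact ⟨⟨Nat.pos_of_dvd_of_pos h4 (Nat.pos_of_ne_zero hl), h6⟩, h4⟩
      · rintro ⟨⟨h4, h5⟩, h6⟩
        exact ⟨⟨h6, hl⟩, h5⟩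
    rw [h3, sum_filter]
    refine sum_congr rfl fun r _ => ?_
    split_ifs with h4
    · rfl
    · simp
  have h3 : ∑ d ∈ Icc 1 D, ((c d : ℝ) : ℂ) * ∑ ν ∈ RT d,
        ∑ r ∈ (Nat.lcm d q).divisors.filter (fun r => r ≤ T), ∑ χ ∈ prm r,
          fh d ν q b ⟨r, χ⟩ * W ⟨r, χ⟩ =
      ∑ d ∈ Icc 1 D, ((c d : ℝ) : ℂ) * ∑ ν ∈ RT d,
      ∑ r ∈ Icc 1 T, ∑ χ ∈ prm r, (if r ∣ Nat.lcm d q then fh d ν q b ⟨r, χ⟩ else 0) *
        W ⟨r, χ⟩ := by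
    refine sum_congr rfl fun d hd => ?_
    congr 1
    exact sum_congr rfl fun ν _ => h2 d hd ν
  rw [h1, h3, ← sum_sub_distrib]
  refine (norm_sum_le _ _).trans (sum_le_sum fun d hd => ?_)
  rw [← mul_sub, norm_mul, Complex.norm_real, Real.norm_eq_abs]
  rcases eq_or_ne (c d) 0 with h4 | h4
  · rw [h4, abs_zero, zero_mul, zero_mul]
  refine mul_le_mul_of_nonneg_left ?_ (abs_nonneg _)
  rw [← sum_sub_distrib]
  refine (norm_sum_le _ _).trans (sum_le_sum fun ν hν => ?_)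
  rw [← sum_sub_distrib]
  refine (norm_sum_le _ _).trans (sum_le_sum fun r hr => ?_)
  rw [← sum_sub_distrib]
  refine (norm_sum_le _ _).trans (sum_le_sum fun χ hχ => ?_)
  exact hE d hd h4 ν hν r hr χ hχ

theorem am_ee (x : ℝ) : ‖ee x - 1‖ ≤ 2 * Real.pi * |x| := by
  have h := Real.norm_exp_I_mul_ofReal_sub_one_le (x := 2 * Real.pi * x)
  unfold ee
  rw [mul_comm (((2 * Real.pi * x : ℝ)) : ℂ) Complex.I]
  refine h.trans (le_of_eq ?_)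
  rw [Real.norm_eq_abs, abs_mul, abs_of_pos Real.two_pi_pos]

theorem am_V (h4 : St_Bs) (η : ℝ → ℝ) (hη : IsWt η) (h K : ℕ) (hh : 1 ≤ h) (hK : 1 ≤ K) (β : ℝ)
    (c : Chr) :
    ‖BY η h K (K + h) c * ee (β * ((K + h : ℕ) : ℝ))‖ +
      ∑ y ∈ range (K + h), ‖BY η h K (y + 1) c * ee (β * ((y + 1 : ℕ) : ℝ)) -
        BY η h K y c * ee (β * y)‖ ≤
      ((K + h : ℕ) : ℝ) * (4 * Real.log K / h + 2 * Real.pi * |β| * Real.log K) := by
  obtain ⟨b1, b2, -, b4, -⟩ := h4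
  rw [b2 η h K (K + h) c hη le_rfl, zero_mul, norm_zero, zero_add]
  have h1 : ∀ y ∈ range (K + h), ‖BY η h K (y + 1) c * ee (β * ((y + 1 : ℕ) : ℝ)) -
        BY η h K y c * ee (β * y)‖ ≤ 4 * Real.log K / h + 2 * Real.pi * |β| * Real.log K := by
    intro y _
    have e1 : BY η h K (y + 1) c * ee (β * ((y + 1 : ℕ) : ℝ)) - BY η h K y c * ee (β * y) =
        (BY η h K (y + 1) c - BY η h K y c) * ee (β * ((y + 1 : ℕ) : ℝ)) +
          BY η h K y c * ((ee β - 1) * ee (β * y)) := by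
      have e2 : ee (β * ((y + 1 : ℕ) : ℝ)) = ee β * ee (β * y) := by
        rw [← ee_add]
        congr 1
        push_cast
        ring
      rw [e2]
      ring
    rw [e1]
    refine (norm_add_le _ _).trans (add_le_add ?_ ?_)
    · rw [norm_mul, ee_norm, mul_one]
      exact b4 η h K y c hη hh hK
    · rw [norm_mul, norm_mul, ee_norm, mul_one]
      calc ‖BY η h K y c‖ * ‖ee β - 1‖ ≤ Real.log K * (2 * Real.pi * |β|) :=
            mul_le_mul (b1 η h K y c hη hh hK) (am_ee β) (norm_nonneg _)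
              ((norm_nonneg _).trans (b1 η h K y c hη hh hK))
        _ = _ := by ring
  refine (sum_le_sum h1).trans (le_of_eq ?_)
  rw [sum_const, card_range, nsmul_eq_mul]

theorem am_A (h4 : St_Bs) (η : ℝ → ℝ) (hη : IsWt η) (h K : ℕ) (hh : 1 ≤ h) (hK : 1 ≤ K) (β : ℝ)
    (c : Chr) :
    ∑ y ∈ range (K + h), ‖BY η h K y c * ee (β * y)‖ ≤ ((K + h : ℕ) : ℝ) * Real.log K := by
  obtain ⟨b1, -, -, -, -⟩ := h4
  calc ∑ y ∈ range (K + h), ‖BY η h K y c * ee (β * y)‖ ≤ ∑ y ∈ range (K + h), Real.log K := by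
        refine sum_le_sum fun y _ => ?_
        rw [norm_mul, ee_norm, mul_one]
        exact b1 η h K y c hη hh hK
    _ = _ := by rw [sum_const, card_range, nsmul_eq_mul]

/-- the sum of the errors -/
theorem am_err (C Z V A : ℝ) (D T Q q : ℕ) (c : ℕ → ℝ) (hR : ∀ d : ℕ, Squarefree d →
    (RT d).card ≤ 2 ^ d.primeFactors.card) (hc : IsC D C c) (hQ : 1 ≤ Q) (hq : 1 ≤ q)
    (hZ : 0 ≤ Z) (hV : 0 ≤ V) (hA : 0 ≤ A)
    (hdiv : ∀ d ∈ Icc 1 D, ((d.divisors).card : ℝ) ≤ Z ∧ (((Nat.lcm d q).divisors).card : ℝ) ≤ Z) :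
    ∑ d ∈ Icc 1 D, |c d| * ∑ _ν ∈ RT d, ∑ r ∈ Icc 1 T, ∑ _χ ∈ prm r,
      (2 * d * (Q : ℝ) ^ 3 * V +
        (r : ℝ) ^ 2 * 5 ^ (Nat.lcm d q).primeFactors.card / (Q * d) * A) ≤
    (D : ℝ) * (|C| * Z ^ 4 * (T : ℝ) ^ 2 * (2 * D * (Q : ℝ) ^ 3 * V)) +
      |C| * Z ^ 7 * (T : ℝ) ^ 4 * A / Q * (1 + Real.log D) := by
  have hQ0 : (0 : ℝ) < Q := by exact_mod_cast hQ
  have key : ∀ d ∈ Icc 1 D, |c d| * ∑ ν ∈ RT d, ∑ r ∈ Icc 1 T, ∑ χ ∈ prm r,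
      (2 * d * (Q : ℝ) ^ 3 * V +
        (r : ℝ) ^ 2 * 5 ^ (Nat.lcm d q).primeFactors.card / (Q * d) * A) ≤
      |C| * Z ^ 4 * (T : ℝ) ^ 2 * (2 * D * (Q : ℝ) ^ 3 * V) +
        |C| * Z ^ 7 * (T : ℝ) ^ 4 * A / Q * (d : ℝ)⁻¹ := by
    intro d hd
    have hd' := mem_Icc.1 hd
    have hd0 : (0 : ℝ) < d := by exact_mod_cast hd'.1
    have hdD : (d : ℝ) ≤ D := by exact_mod_cast hd'.2
    rcases eq_or_ne (c d) 0 with h0 | h0
    · rw [h0, abs_zero, zero_mul]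
      positivity
    have hs := hc.supp d h0
    set P : ℝ := 2 * d * (Q : ℝ) ^ 3 * V +
        (T : ℝ) ^ 2 * Z ^ 3 / (Q * d) * A with hP
    have hP0 : 0 ≤ P := by positivity
    have hl : 1 ≤ Nat.lcm d q := Nat.pos_of_ne_zero (Nat.lcm_ne_zero (by omega) (by omega))
    have h5 : (5 : ℝ) ^ (Nat.lcm d q).primeFactors.card ≤ Z ^ 3 := by
      have h6 := (ep_omega _ hl).trans (hdiv d hd).2
      calc (5 : ℝ) ^ (Nat.lcm d q).primeFactors.card ≤ 8 ^ (Nat.lcm d q).primeFactors.card :=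
            pow_le_pow_left₀ (by norm_num) (by norm_num) _
        _ = ((2 : ℝ) ^ (Nat.lcm d q).primeFactors.card) ^ 3 := by
            rw [← pow_mul, mul_comm, pow_mul]
            norm_num
        _ ≤ Z ^ 3 := pow_le_pow_left₀ (by positivity) h6 3
    have h16 : |c d| * ((RT d).card : ℝ) ≤ |C| * Z ^ 4 := by
      have h6 := (ep_omega d hd'.1).trans (hdiv d hd).1
      have h7 : ((RT d).card : ℝ) ≤ 2 ^ d.primeFactors.card := by exact_mod_cast hR d hs.1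
      calc |c d| * ((RT d).card : ℝ) ≤ (|C| * 8 ^ d.primeFactors.card) *
            2 ^ d.primeFactors.card := by
            refine mul_le_mul ?_ h7 (by positivity) (by positivity)
            exact (hc.bound d).trans (mul_le_mul_of_nonneg_right (le_abs_self C) (by positivity))
        _ = |C| * ((2 : ℝ) ^ d.primeFactors.card) ^ 4 := by
            rw [mul_assoc, ← mul_pow, ← pow_mul, mul_comm d.primeFactors.card 4, pow_mul]
            norm_num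
        _ ≤ |C| * Z ^ 4 := mul_le_mul_of_nonneg_left
            (pow_le_pow_left₀ (by positivity) h6 4) (abs_nonneg C)
    have h8 : ∑ ν ∈ RT d, ∑ r ∈ Icc 1 T, ∑ χ ∈ prm r,
      (2 * d * (Q : ℝ) ^ 3 * V +
        (r : ℝ) ^ 2 * 5 ^ (Nat.lcm d q).primeFactors.card / (Q * d) * A) ≤
        ((RT d).card : ℝ) * ((T : ℝ) ^ 2 * P) := by
      have h9 : ∀ ν ∈ RT d, ∑ r ∈ Icc 1 T, ∑ χ ∈ prm r,
          (2 * d * (Q : ℝ) ^ 3 * V +
            (r : ℝ) ^ 2 * 5 ^ (Nat.lcm d q).primeFactors.card / (Q * d) * A) ≤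
          (T : ℝ) ^ 2 * P := by
        intro ν _
        have h10 : ∀ r ∈ Icc 1 T, ∑ χ ∈ prm r,
          (2 * d * (Q : ℝ) ^ 3 * V +
            (r : ℝ) ^ 2 * 5 ^ (Nat.lcm d q).primeFactors.card / (Q * d) * A) ≤ (T : ℝ) * P := by
          intro r hr
          have hr' := mem_Icc.1 hr
          have hrT : (r : ℝ) ≤ T := by exact_mod_cast hr'.2
          rw [sum_const, nsmul_eq_mul]
          refine mul_le_mul ((am_prm r hr'.1).trans hrT) ?_ (by positivity) (by positivity)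
          rw [hP]
          gcongr
        calc _ ≤ ∑ r ∈ Icc 1 T, (T : ℝ) * P := sum_le_sum h10
          _ = (T : ℝ) ^ 2 * P := by
            rw [sum_const, Nat.card_Icc, nsmul_eq_mul]
            push_cast [Nat.add_sub_cancel]
            ring
      calc _ ≤ ∑ ν ∈ RT d, (T : ℝ) ^ 2 * P := sum_le_sum h9
        _ = _ := by rw [sum_const, nsmul_eq_mul]
    calc |c d| * ∑ ν ∈ RT d, ∑ r ∈ Icc 1 T, ∑ χ ∈ prm r,
      (2 * d * (Q : ℝ) ^ 3 * V +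
        (r : ℝ) ^ 2 * 5 ^ (Nat.lcm d q).primeFactors.card / (Q * d) * A)
        ≤ |c d| * (((RT d).card : ℝ) * ((T : ℝ) ^ 2 * P)) :=
          mul_le_mul_of_nonneg_left h8 (abs_nonneg _)
      _ = (|c d| * ((RT d).card : ℝ)) * ((T : ℝ) ^ 2 * P) := by ring
      _ ≤ (|C| * Z ^ 4) * ((T : ℝ) ^ 2 * P) := mul_le_mul_of_nonneg_right h16 (by positivity)
      _ = |C| * Z ^ 4 * (T : ℝ) ^ 2 * (2 * d * (Q : ℝ) ^ 3 * V) +
        |C| * Z ^ 7 * (T : ℝ) ^ 4 * A / Q * (d : ℝ)⁻¹ := by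
          rw [hP]
          field_simp
      _ ≤ _ := by gcongr
  calc _ ≤ ∑ d ∈ Icc 1 D, (|C| * Z ^ 4 * (T : ℝ) ^ 2 * (2 * D * (Q : ℝ) ^ 3 * V) +
        |C| * Z ^ 7 * (T : ℝ) ^ 4 * A / Q * (d : ℝ)⁻¹) := sum_le_sum key
    _ = (D : ℝ) * (|C| * Z ^ 4 * (T : ℝ) ^ 2 * (2 * D * (Q : ℝ) ^ 3 * V)) +
        |C| * Z ^ 7 * (T : ℝ) ^ 4 * A / Q * ∑ d ∈ Icc 1 D, (d : ℝ)⁻¹ := by
        rw [sum_add_distrib, sum_const, Nat.card_Icc, nsmul_eq_mul, Nat.add_sub_cancel,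
          Finset.mul_sum]
    _ ≤ _ := by
        have h11 := harmonic_le_one_add_log D
        rw [harmonic_eq_sum_Icc] at h11
        push_cast at h11
        gcongr

/-- sizes of the parameters -/
theorem am_par (C δ : ℝ) (hδ : 0 < δ) (hδ1 : δ ≤ 1 / 10 ^ 6) : ∀ᶠ X : ℕ in atTop,
    (1 : ℝ) ≤ X ∧ 64 * (|C| + 1) ≤ (X : ℝ) ^ (δ / 100) ∧
    (∀ n : ℕ, 1 ≤ n → n ≤ X ^ 4 → (n.divisors.card : ℝ) ≤ (X : ℝ) ^ (δ / 100)) ∧
    1 + Real.log (2 * X) ≤ (X : ℝ) ^ (δ / 100) ∧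
    (∀ m : ℕ, 1 ≤ m → (m : ℝ) ≤ (X : ℝ) ^ (δ / 1000) → 1 ≤ HH δ X ∧ 8 * HH δ X ≤ KK m X ∧
      1 ≤ KK m X ∧ KK m X + HH δ X ≤ 2 * X ∧ KK m X ≤ X) ∧
    (X : ℝ) ^ (1 - 10 * δ) ≤ HH δ X ∧
    (TT δ X : ℝ) ≤ (X : ℝ) ^ δ ∧ (QQ δ X : ℝ) ≤ (X : ℝ) ^ (30 * δ) ∧ TT δ X ≤ QQ δ X ∧
    1 ≤ QQ δ X ∧ (X : ℝ) ^ (30 * δ) ≤ 2 * QQ δ X ∧ QQ δ X ≤ X ∧
    (DD X : ℝ) ≤ (X : ℝ) ^ (491 / 1000 : ℝ) ∧ DD X ≤ X := by
  filter_upwards [eventually_ge_atTop 1, ep_large (64 * (|C| + 1)) (δ / 100) (by positivity),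
    ep_div (δ / 100) (by positivity), ep_log (δ / 100) (by positivity) 1,
    ep_large 128 δ hδ] with X h1 h2 h3 h4 h5
  have hX1 : (1 : ℝ) ≤ X := by exact_mod_cast h1
  have hX0 : (0 : ℝ) < X := by linarith
  have mono : ∀ {a b : ℝ}, a ≤ b → (X : ℝ) ^ a ≤ (X : ℝ) ^ b := fun hab =>
    Real.rpow_le_rpow_of_exponent_le hX1 hab
  have hT : (TT δ X : ℝ) ≤ (X : ℝ) ^ δ := Nat.floor_le (Real.rpow_nonneg hX0.le _)
  have hQ : (QQ δ X : ℝ) ≤ (X : ℝ) ^ (30 * δ) := Nat.floor_le (Real.rpow_nonneg hX0.le _)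
  have hD : (DD X : ℝ) ≤ (X : ℝ) ^ (491 / 1000 : ℝ) := Nat.floor_le (Real.rpow_nonneg hX0.le _)
  have hQ30 : (128 : ℝ) ≤ (X : ℝ) ^ (30 * δ) := h5.trans (mono (by linarith))
  have hQl : (X : ℝ) ^ (30 * δ) - 1 < QQ δ X := Nat.sub_one_lt_floor _
  have hle : ∀ {a : ℝ} {n : ℕ}, (n : ℝ) ≤ (X : ℝ) ^ a → a ≤ 1 → n ≤ X := by
    intro a n h6 h7
    have h8 : (n : ℝ) ≤ (X : ℝ) := by
      calc (n : ℝ) ≤ (X : ℝ) ^ a := h6
        _ ≤ (X : ℝ) ^ (1 : ℝ) := mono h7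
        _ = X := Real.rpow_one _
    exact_mod_cast h8
  refine ⟨hX1, h2, h3, by simpa using h4, ?_, Nat.le_ceil _, hT, hQ, ?_, ?_, ?_,
    hle hQ (by linarith), hD, hle hD (by norm_num)⟩
  · intro m hm hmX
    have hh1 : 1 ≤ HH δ X := Nat.one_le_ceil_iff.2 (Real.rpow_pos_of_pos hX0 _)
    have hm0 : (0 : ℝ) < m := by exact_mod_cast hm
    have hhu : (HH δ X : ℝ) ≤ 2 * (X : ℝ) ^ (1 - 10 * δ) := by
      have h6 : (HH δ X : ℝ) < (X : ℝ) ^ (1 - 10 * δ) + 1 :=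
        Nat.ceil_lt_add_one (Real.rpow_nonneg hX0.le _)
      have h7 : (1 : ℝ) ≤ (X : ℝ) ^ (1 - 10 * δ) := Real.one_le_rpow hX1 (by linarith)
      linarith
    have h6 : 8 * HH δ X * (8 * m) ≤ X := by
      have h7 : ((8 * HH δ X * (8 * m) : ℕ) : ℝ) ≤ (X : ℝ) := by
        push_cast
        calc 8 * (HH δ X : ℝ) * (8 * m) ≤ 8 * (2 * (X : ℝ) ^ (1 - 10 * δ)) *
              (8 * (X : ℝ) ^ (δ / 1000)) := by gcongr
          _ = 128 * ((X : ℝ) ^ (1 - 10 * δ) * (X : ℝ) ^ (δ / 1000)) := by ring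
          _ ≤ (X : ℝ) ^ δ * ((X : ℝ) ^ (1 - 10 * δ) * (X : ℝ) ^ (δ / 1000)) :=
            mul_le_mul_of_nonneg_right h5 (by positivity)
          _ = (X : ℝ) ^ (δ + ((1 - 10 * δ) + δ / 1000)) := by
            rw [Real.rpow_add hX0, Real.rpow_add hX0]
          _ ≤ (X : ℝ) ^ (1 : ℝ) := mono (by linarith)
          _ = X := Real.rpow_one _
      exact_mod_cast h7
    have h7 : 8 * HH δ X ≤ KK m X := by
      unfold KK
      exact (Nat.le_div_iff_mul_le (by omega)).2 h6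
    have h8 : KK m X ≤ X := Nat.div_le_self _ _
    exact ⟨hh1, h7, by omega, by omega, h8⟩
  · exact Nat.floor_mono (mono (by linarith))
  · have h6 : (0 : ℝ) < QQ δ X := by linarith
    have h7 : 0 < QQ δ X := by exact_mod_cast h6
    omega
  · linarith

theorem thm_Am (h1 : St_Rt) (h2 : St_Bp) (h3 : St_Fe) (h4 : St_Bs) : St_Am := by
  intro η hη C δ hδ hδ1
  filter_upwards [am_par C δ hδ hδ1] with X hX
  obtain ⟨hX1, hC, hdiv, hlog, hK, hHl, hT, hQ, hTQ, hQ1, hQl, hQX, hD, hDX⟩ := hX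
  intro m q b β c hm hmX hq hqQ hbq hβ hc
  obtain ⟨hh1, h8, hK1, hKH, hKX⟩ := hK m hm hmX
  have hX0 : (0 : ℝ) < X := by linarith
  have mono : ∀ {a b : ℝ}, a ≤ b → (X : ℝ) ^ a ≤ (X : ℝ) ^ b := fun hab =>
    Real.rpow_le_rpow_of_exponent_le hX1 hab
  set h := HH δ X with hh
  set K := KK m X with hKdef
  set T := TT δ X with hTdef
  set Q := QQ δ X with hQdef
  set D := DD X with hDdef
  set Z : ℝ := (X : ℝ) ^ (δ / 100) with hZ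
  have hZ0 : 0 < Z := Real.rpow_pos_of_pos hX0 _
  have hQ0 : (0 : ℝ) < Q := by exact_mod_cast hQ1
  have hh0 : (0 : ℝ) < h := by exact_mod_cast hh1
  have hK0 : (0 : ℝ) < K := by exact_mod_cast hK1
  have hKXr : (K : ℝ) ≤ X := by exact_mod_cast hKX
  have hKHr : ((K + h : ℕ) : ℝ) ≤ 2 * X := by exact_mod_cast hKH
  have hZ22 : 22 ≤ Z := by
    have := abs_nonneg C
    linarith
  have hlogK : Real.log K ≤ Z := by
    have h5 : Real.log K ≤ Real.log (2 * X) := Real.log_le_log hK0 (by linarith)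
    linarith
  have hlogK0 : 0 ≤ Real.log K := Real.log_nonneg (by exact_mod_cast hK1)
  -- the variation
  have hV : ∀ χ : Chr, ‖BY η h K (K + h) χ * ee (β * ((K + h : ℕ) : ℝ))‖ +
      ∑ y ∈ range (K + h), ‖BY η h K (y + 1) χ * ee (β * ((y + 1 : ℕ) : ℝ)) -
        BY η h K y χ * ee (β * y)‖ ≤ (X : ℝ) ^ (14 * δ) := by
    intro χ
    refine (am_V h4 η hη h K hh1 hK1 β χ).trans ?_
    have e1 : 4 * Real.log K / h ≤ 4 * Z * (X : ℝ) ^ (-1 + 13 * δ) := by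
      rw [div_le_iff₀ hh0]
      have e2 : 1 ≤ (X : ℝ) ^ (-1 + 13 * δ) * h := by
        calc (1 : ℝ) ≤ (X : ℝ) ^ (3 * δ) := Real.one_le_rpow hX1 (by linarith)
          _ = (X : ℝ) ^ (-1 + 13 * δ) * (X : ℝ) ^ (1 - 10 * δ) := by
            rw [← Real.rpow_add hX0]
            congr 1
            ring
          _ ≤ (X : ℝ) ^ (-1 + 13 * δ) * h := mul_le_mul_of_nonneg_left hHl (by positivity)
      calc 4 * Real.log K ≤ 4 * Z * 1 := by linarith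
        _ ≤ 4 * Z * ((X : ℝ) ^ (-1 + 13 * δ) * h) := mul_le_mul_of_nonneg_left e2 (by positivity)
        _ = _ := by ring
    have e3 : 2 * Real.pi * |β| * Real.log K ≤ 7 * (X : ℝ) ^ (-1 + 13 * δ) * Z := by
      have e4 : 2 * Real.pi ≤ 7 := by linarith [Real.pi_lt_d2]
      gcongr
    calc ((K + h : ℕ) : ℝ) * (4 * Real.log K / h + 2 * Real.pi * |β| * Real.log K)
        ≤ (2 * X) * (4 * Z * (X : ℝ) ^ (-1 + 13 * δ) + 7 * (X : ℝ) ^ (-1 + 13 * δ) * Z) := by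
          refine mul_le_mul hKHr (add_le_add e1 e3) (by positivity) (by positivity)
      _ = 22 * Z * ((X : ℝ) ^ (1 : ℝ) * (X : ℝ) ^ (-1 + 13 * δ)) := by
          rw [Real.rpow_one]
          ring
      _ ≤ Z * Z * ((X : ℝ) ^ (1 : ℝ) * (X : ℝ) ^ (-1 + 13 * δ)) := by gcongr
      _ = (X : ℝ) ^ ((δ / 100 + δ / 100) + (1 + (-1 + 13 * δ))) := by
          rw [hZ, Real.rpow_add hX0 (δ / 100 + δ / 100) (1 + (-1 + 13 * δ)),
            Real.rpow_add hX0 (δ / 100) (δ / 100), Real.rpow_add hX0 1 (-1 + 13 * δ)]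
      _ ≤ (X : ℝ) ^ (14 * δ) := mono (by linarith)
  have hA : ∀ χ : Chr, ∑ y ∈ range (K + h), ‖BY η h K y χ * ee (β * y)‖ ≤
      (X : ℝ) ^ (1 + δ) := by
    intro χ
    refine (am_A h4 η hη h K hh1 hK1 β χ).trans ?_
    calc ((K + h : ℕ) : ℝ) * Real.log K ≤ (2 * X) * Z :=
          mul_le_mul hKHr hlogK hlogK0 (by positivity)
      _ ≤ (Z * X) * Z := by
          have : 2 ≤ Z := by linarith
          gcongr
      _ = (X : ℝ) ^ ((δ / 100 + 1) + δ / 100) := by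
          rw [hZ, Real.rpow_add hX0, Real.rpow_add hX0, Real.rpow_one]
      _ ≤ (X : ℝ) ^ (1 + δ) := mono (by linarith)
  -- the main step
  have hE : ∀ d ∈ Icc 1 D, c d ≠ 0 → ∀ ν ∈ RT d, ∀ r ∈ Icc 1 T, ∀ χ ∈ prm r,
      ‖∑ y ∈ range (K + h), (BY η h K y ⟨r, χ⟩ * ee (β * y)) *
          ((starRingEnd ℂ) (χ (y : ZMod r)) * ((ar Q r (y : ℤ) : ℝ) : ℂ)) * Pd d ν q b (y : ℤ) -
        (if r ∣ Nat.lcm d q then fh d ν q b ⟨r, χ⟩ else 0) *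
          (((fj h β : ℝ) : ℂ) * Tx η K β ⟨r, χ⟩)‖ ≤
      2 * d * (Q : ℝ) ^ 3 * (X : ℝ) ^ (14 * δ) +
        (r : ℝ) ^ 2 * 5 ^ (Nat.lcm d q).primeFactors.card / (Q * d) * (X : ℝ) ^ (1 + δ) := by
    intro d hd hd0 ν hν r hr χ hχ
    have hr' := mem_Icc.1 hr
    obtain ⟨s1, s2, s3⟩ := hc.supp d hd0
    have hν' : (d : ℤ) ∣ (ν : ℤ) ^ 2 - 2 := by
      unfold RT at hν
      exact (mem_filter.1 hν).2
    have e1 := h2 Q d q r (K + h) ν b (fun y => BY η h K y ⟨r, χ⟩ * ee (β * y))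
      ((X : ℝ) ^ (14 * δ)) ((X : ℝ) ^ (1 + δ)) s1 s2 hν' hq hqQ hr'.1 (hr'.2.trans hTQ)
      (hV ⟨r, χ⟩) (hA ⟨r, χ⟩) χ hχ
    have e2 := h3 η h K ⟨r, χ⟩ β hη hh1 h8
    rw [← e2]
    exact e1
  refine (am_core h1.2 η T Q h K D (K + h) q b β c hq _
    (fun χ => ((fj h β : ℝ) : ℂ) * Tx η K β χ) hE).trans ?_
  refine (am_err C Z ((X : ℝ) ^ (14 * δ)) ((X : ℝ) ^ (1 + δ)) D T Q q c h1.1 hc hQ1 hq hZ0.le
    (by positivity) (by positivity) ?_).trans ?_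
  · intro d hd
    have hd' := mem_Icc.1 hd
    have hdX : d ≤ X := hd'.2.trans hDX
    have hqX : q ≤ X := hqQ.trans hQX
    have hX1n : 1 ≤ X := by exact_mod_cast hX1
    refine ⟨hdiv d hd'.1 (hdX.trans (Nat.le_self_pow (by norm_num) X)), hdiv _
      (Nat.pos_of_ne_zero (Nat.lcm_ne_zero (by omega) (by omega))) ?_⟩
    calc Nat.lcm d q ≤ d * q := Nat.le_of_dvd (Nat.mul_pos (by omega) (by omega))
          (Nat.lcm_dvd_mul d q)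
      _ ≤ X * X := Nat.mul_le_mul hdX hqX
      _ = X ^ 2 := by ring
      _ ≤ X ^ 4 := Nat.pow_le_pow_right hX1n (by norm_num)
  · have hC4 : |C| ≤ Z / 4 := by
      have := abs_nonneg C
      linarith
    have hlogD : 1 + Real.log D ≤ Z := by
      rcases Nat.eq_zero_or_pos D with h0 | h0
      · rw [h0]
        simp only [Nat.cast_zero, Real.log_zero, add_zero]
        linarith
      · have e1 : (0 : ℝ) < D := by exact_mod_cast h0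
        have e2 : (D : ℝ) ≤ X := by exact_mod_cast hDX
        have h5 : Real.log D ≤ Real.log (2 * X) := Real.log_le_log e1 (by linarith)
        linarith
    have hQinv : ∀ a : ℝ, 0 ≤ a → a / Q ≤ 2 * a * (X : ℝ) ^ (-(30 * δ)) := by
      intro a ha
      rw [div_le_iff₀ hQ0, Real.rpow_neg hX0.le]
      have e1 : 0 < (X : ℝ) ^ (30 * δ) := Real.rpow_pos_of_pos hX0 _
      have e2 : 1 ≤ 2 * ((X : ℝ) ^ (30 * δ))⁻¹ * Q := by
        have e3 : 2 * ((X : ℝ) ^ (30 * δ))⁻¹ * Q = (2 * Q) / (X : ℝ) ^ (30 * δ) := by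
          field_simp
        rw [e3, le_div_iff₀ e1]
        linarith
      calc a = a * 1 := by ring
        _ ≤ a * (2 * ((X : ℝ) ^ (30 * δ))⁻¹ * Q) := mul_le_mul_of_nonneg_left e2 ha
        _ = _ := by ring
    have t1 : (D : ℝ) * (|C| * Z ^ 4 * (T : ℝ) ^ 2 * (2 * D * (Q : ℝ) ^ 3 *
        (X : ℝ) ^ (14 * δ))) ≤ (X : ℝ) ^ (1 - δ) / 2 := by
      calc (D : ℝ) * (|C| * Z ^ 4 * (T : ℝ) ^ 2 * (2 * D * (Q : ℝ) ^ 3 * (X : ℝ) ^ (14 * δ)))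
          ≤ (X : ℝ) ^ (491 / 1000 : ℝ) * ((Z / 4) * Z ^ 4 * ((X : ℝ) ^ δ) ^ 2 *
            (2 * (X : ℝ) ^ (491 / 1000 : ℝ) * ((X : ℝ) ^ (30 * δ)) ^ 3 *
              (X : ℝ) ^ (14 * δ))) := by gcongr
        _ = ((X : ℝ) ^ (491 / 1000 : ℝ) * (X : ℝ) ^ (491 / 1000 : ℝ) * Z ^ 5 *
            ((X : ℝ) ^ δ) ^ 2 * ((X : ℝ) ^ (30 * δ)) ^ 3 * (X : ℝ) ^ (14 * δ)) / 2 := by ring
        _ = (X : ℝ) ^ ((491 / 1000 : ℝ) + 491 / 1000 + (δ / 100) * (5 : ℕ) + δ * (2 : ℕ) +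
            (30 * δ) * (3 : ℕ) + 14 * δ) / 2 := by
          rw [hZ, Real.rpow_add hX0, Real.rpow_add hX0, Real.rpow_add hX0, Real.rpow_add hX0,
            Real.rpow_add hX0, Real.rpow_mul_natCast hX0.le, Real.rpow_mul_natCast hX0.le,
            Real.rpow_mul_natCast hX0.le]
        _ ≤ (X : ℝ) ^ (1 - δ) / 2 := by
          refine div_le_div_of_nonneg_right (mono ?_) (by norm_num)
          push_cast
          linarith
    have t2 : |C| * Z ^ 7 * (T : ℝ) ^ 4 * (X : ℝ) ^ (1 + δ) / Q * (1 + Real.log D) ≤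
        (X : ℝ) ^ (1 - δ) / 2 := by
      calc |C| * Z ^ 7 * (T : ℝ) ^ 4 * (X : ℝ) ^ (1 + δ) / Q * (1 + Real.log D)
          ≤ |C| * Z ^ 7 * (T : ℝ) ^ 4 * (X : ℝ) ^ (1 + δ) / Q * Z :=
            mul_le_mul_of_nonneg_left hlogD (by positivity)
        _ ≤ (2 * (|C| * Z ^ 7 * (T : ℝ) ^ 4 * (X : ℝ) ^ (1 + δ)) * (X : ℝ) ^ (-(30 * δ))) * Z :=
            mul_le_mul_of_nonneg_right (hQinv _ (by positivity)) hZ0.le
        _ ≤ (2 * ((Z / 4) * Z ^ 7 * ((X : ℝ) ^ δ) ^ 4 * (X : ℝ) ^ (1 + δ)) *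
              (X : ℝ) ^ (-(30 * δ))) * Z := by gcongr
        _ = (Z ^ 9 * ((X : ℝ) ^ δ) ^ 4 * (X : ℝ) ^ (1 + δ) * (X : ℝ) ^ (-(30 * δ))) / 2 := by
            ring
        _ = (X : ℝ) ^ ((δ / 100) * (9 : ℕ) + δ * (4 : ℕ) + (1 + δ) + -(30 * δ)) / 2 := by
          rw [hZ, Real.rpow_add hX0 (δ / 100 * (9 : ℕ) + δ * (4 : ℕ) + (1 + δ)) (-(30 * δ)),
            Real.rpow_add hX0 (δ / 100 * (9 : ℕ) + δ * (4 : ℕ)) (1 + δ),
            Real.rpow_add hX0 (δ / 100 * (9 : ℕ)) (δ * (4 : ℕ)),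
            Real.rpow_mul_natCast hX0.le, Real.rpow_mul_natCast hX0.le]
        _ ≤ (X : ℝ) ^ (1 - δ) / 2 := by
          refine div_le_div_of_nonneg_right (mono ?_) (by norm_num)
          push_cast
          linarith
    linarith

end Pool.Agent.MV5
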