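import Pool.Agent.MV5.StB
import Pool.Agent.MVII.Wc
import Pool.Agent.MVII.Kt

set_option autoImplicit false

/-!
# MV5, module Ap: expansion on the side of `Λ`
-/

namespace Pool.Agent.MV5

open Finset Filter
open Pool.Agent.GBQ (ee lam nd Admissible)
open Pool.Agent.MVX (Chr tent Bm Um prm Win GP)
open Pool.Agent.MT (IsWt)
open Pool.Agent.MVII (rr wc_ee_norm wc_lam_nonneg kt_ee_int)

/-- the numbers which are not coprime to `l` -/
theorem ap_noncop (K l : ℕ) (hl : 1 ≤ l) (hK : 1 ≤ K) :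
    ∑ n ∈ (Icc 1 K).filter (fun n => ¬ n.Coprime l), lam n ≤
      (l.primeFactors.card : ℝ) * Real.log K := by
  classical
  obtain ⟨S, hS⟩ : ∃ S : Finset ℕ, S = ((Icc 1 K).filter (fun n => ¬ n.Coprime l)).filter
    (fun n => IsPrimePow n) := ⟨_, rfl⟩
  have e1 : ∑ n ∈ (Icc 1 K).filter (fun n => ¬ n.Coprime l), lam n = ∑ n ∈ S, lam n := by
    rw [hS, Finset.sum_filter (fun n => IsPrimePow n)]
    refine Finset.sum_congr rfl fun n _ => ?_
    split_ifs with h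
    · rfl
    · unfold lam
      exact (ArithmeticFunction.vonMangoldt_eq_zero_iff).mpr h
  rw [e1]
  have hmaps : ∀ n ∈ S, n.minFac ∈ l.primeFactors := by
    intro n hn
    rw [hS, Finset.mem_filter, Finset.mem_filter] at hn
    obtain ⟨⟨-, h1⟩, h2⟩ := hn
    obtain ⟨p, hp, hpn, hpq⟩ := Nat.Prime.not_coprime_iff_dvd.mp h1
    have h3 : n.minFac = p := by
      obtain ⟨p', k, hp', hk, rfl⟩ := h2
      have hp'' : p'.Prime := hp'.nat_prime
      rw [hp''.pow_minFac hk.ne']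
      exact ((Nat.prime_dvd_prime_iff_eq hp hp'').mp (hp.dvd_of_dvd_pow hpn)).symm
    rw [h3]
    exact Nat.mem_primeFactors.mpr ⟨hp, hpq, by omega⟩
  rw [← Finset.sum_fiberwise_of_maps_to hmaps]
  have e2 : ∀ p ∈ l.primeFactors, ∑ n ∈ S with n.minFac = p, lam n ≤ Real.log K := by
    intro p hp
    have hpp := Nat.prime_of_mem_primeFactors hp
    have hlp : 0 ≤ Real.log p := Real.log_nonneg (by exact_mod_cast hpp.one_lt.le)
    have h1 : ∑ n ∈ S with n.minFac = p, lam n = ∑ n ∈ S with n.minFac = p, Real.log p := by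
      refine Finset.sum_congr rfl fun n hn => ?_
      rw [Finset.mem_filter, hS, Finset.mem_filter] at hn
      unfold lam
      rw [ArithmeticFunction.vonMangoldt_apply, if_pos hn.1.2, hn.2]
    have h2 : (S.filter (fun n => n.minFac = p)).card ≤ Nat.log p K := by
      have h3 : S.filter (fun n => n.minFac = p) ⊆ (Icc 1 (Nat.log p K)).image
          (fun j => p ^ j) := by
        intro n hn
        rw [Finset.mem_filter, hS, Finset.mem_filter, Finset.mem_filter, Finset.mem_Icc] at hn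
        obtain ⟨⟨⟨⟨-, hnv⟩, -⟩, hpw⟩, hmin⟩ := hn
        obtain ⟨p', k, hp', hk, rfl⟩ := hpw
        have hp'' : p'.Prime := hp'.nat_prime
        rw [hp''.pow_minFac hk.ne'] at hmin
        subst hmin
        refine Finset.mem_image.mpr ⟨k, Finset.mem_Icc.mpr ⟨hk, ?_⟩, rfl⟩
        exact Nat.le_log_of_pow_le hpp.one_lt hnv
      refine (Finset.card_le_card h3).trans (Finset.card_image_le.trans ?_)
      rw [Nat.card_Icc, Nat.add_sub_cancel]
    rw [h1, Finset.sum_const, nsmul_eq_mul]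
    calc ((S.filter (fun n => n.minFac = p)).card : ℝ) * Real.log p
        ≤ (Nat.log p K : ℝ) * Real.log p := by
          refine mul_le_mul_of_nonneg_right ?_ hlp
          exact_mod_cast h2
      _ = Real.log ((p : ℝ) ^ Nat.log p K) := by rw [Real.log_pow]
      _ ≤ Real.log K := by
          refine Real.log_le_log (by have := hpp.pos; positivity) ?_
          exact_mod_cast Nat.pow_log_le_self p (by omega)
  calc ∑ p ∈ l.primeFactors, ∑ n ∈ S with n.minFac = p, lam n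
      ≤ ∑ p ∈ l.primeFactors, Real.log K := Finset.sum_le_sum e2
    _ = (l.primeFactors.card : ℝ) * Real.log K := by rw [Finset.sum_const, nsmul_eq_mul]

theorem ap_norm (d q : ℕ) (ν b y : ℤ) : ‖Pd d ν q b y‖ ≤ 1 := by
  unfold Pd
  split_ifs
  · rw [wc_ee_norm]
  · rw [norm_zero]
    exact zero_le_one

theorem ap_per (d q : ℕ) (ν b y k : ℤ) (hq : 1 ≤ q) :
    Pd d ν q b (y + (Nat.lcm d q : ℕ) * k) = Pd d ν q b y := by
  have hdl : (d : ℤ) ∣ ((Nat.lcm d q : ℕ) : ℤ) * k :=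
    Dvd.dvd.mul_right (Int.natCast_dvd_natCast.2 (Nat.dvd_lcm_left d q)) k
  obtain ⟨m, hm⟩ := Nat.dvd_lcm_right d q
  have hq0 : (q : ℝ) ≠ 0 := by
    have : 0 < q := hq
    positivity
  have h1 : (d : ℤ) ∣ y + ((Nat.lcm d q : ℕ) : ℤ) * k - ν ↔ (d : ℤ) ∣ y - ν := by
    rw [show y + ((Nat.lcm d q : ℕ) : ℤ) * k - ν = (y - ν) + ((Nat.lcm d q : ℕ) : ℤ) * k by ring]
    exact dvd_add_left hdl
  have h2 : ee ((b : ℝ) * ((y + ((Nat.lcm d q : ℕ) : ℤ) * k : ℤ) : ℝ) / q) =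
      ee ((b : ℝ) * (y : ℝ) / q) := by
    have h3 : (b : ℝ) * ((y + ((Nat.lcm d q : ℕ) : ℤ) * k : ℤ) : ℝ) / q =
        (b : ℝ) * (y : ℝ) / q + ((b * m * k : ℤ) : ℝ) := by
      rw [hm]
      push_cast
      field_simp
    rw [h3, kt_ee_int]
  unfold Pd
  by_cases h : (d : ℤ) ∣ y - ν
  · rw [if_pos h, if_pos (h1.2 h), h2]
  · rw [if_neg h, if_neg (fun h' => h (h1.1 h'))]

theorem ap_eq (h1 : St_Oc) (d q : ℕ) (ν b : ℤ) (hd : 1 ≤ d) (hq : 1 ≤ q) (n : ℕ)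
    (hn : n.Coprime (Nat.lcm d q)) :
    ∑ r ∈ (Nat.lcm d q).divisors, ∑ χ ∈ prm r, fh d ν q b ⟨r, χ⟩ * χ (n : ZMod r) =
      Pd d ν q b (n : ℤ) := by
  classical
  obtain ⟨l, hl⟩ : ∃ l, l = Nat.lcm d q := ⟨_, rfl⟩
  have hl1 : 1 ≤ l := by
    rw [hl]
    exact Nat.lcm_pos hd hq
  rw [← hl] at hn ⊢
  have hφ : (l.totient : ℂ) ≠ 0 := by
    have := Nat.totient_pos.mpr hl1
    exact_mod_cast this.ne'
  have e1 : ∀ r ∈ l.divisors, ∀ χ ∈ prm r, fh d ν q b ⟨r, χ⟩ * χ (n : ZMod r) =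
      ∑ y ∈ rr l, ((l.totient : ℂ)⁻¹ * Pd d ν q b (y : ℤ)) *
        ((starRingEnd ℂ) (χ (y : ZMod r)) * χ (n : ZMod r)) := by
    intro r _ χ _
    show (((Nat.lcm d q).totient : ℂ)⁻¹ * ∑ y ∈ rr (Nat.lcm d q),
      Pd d ν q b (y : ℤ) * (starRingEnd ℂ) (χ (y : ZMod r))) * χ (n : ZMod r) = _
    rw [← hl, mul_sum, sum_mul]
    refine sum_congr rfl fun y _ => ?_
    ring
  rw [sum_congr rfl fun r hr => sum_congr rfl fun χ hχ => e1 r hr χ hχ]
  rw [sum_congr rfl fun r _ => sum_comm, sum_comm]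
  have e2 : ∀ y ∈ rr l, ∑ r ∈ l.divisors, ∑ χ ∈ prm r,
      ((l.totient : ℂ)⁻¹ * Pd d ν q b (y : ℤ)) *
        ((starRingEnd ℂ) (χ (y : ZMod r)) * χ (n : ZMod r)) =
      if y = n % l then Pd d ν q b (y : ℤ) else 0 := by
    intro y hy
    unfold rr at hy
    obtain ⟨hy1, hy2⟩ := mem_filter.mp hy
    rw [mem_range] at hy1
    simp_rw [← mul_sum]
    rw [(h1 l hl1).2 y n hy2 hn]
    have h3 : ((y : ZMod l) = (n : ZMod l)) ↔ y = n % l := by
      rw [ZMod.natCast_eq_natCast_iff]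
      unfold Nat.ModEq
      rw [Nat.mod_eq_of_lt hy1]
    by_cases h : y = n % l
    · rw [if_pos h, if_pos (h3.2 h)]
      field_simp
    · rw [if_neg h, if_neg (fun h' => h (h3.1 h')), mul_zero]
  rw [sum_congr rfl e2, sum_ite_eq' (rr l) (n % l) (fun y => Pd d ν q b (y : ℤ)), if_pos]
  · have h4 : (n : ℤ) = ((n % l : ℕ) : ℤ) + ((l : ℕ) : ℤ) * ((n / l : ℕ) : ℤ) := by
      have := Nat.mod_add_div n l
      exact_mod_cast this.symm
    rw [h4, hl, ap_per d q ν b _ _ hq]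
  · unfold rr
    rw [mem_filter, mem_range]
    refine ⟨Nat.mod_lt _ hl1, ?_⟩
    unfold Nat.Coprime at hn ⊢
    rw [← Nat.gcd_rec l n, Nat.gcd_comm, hn]

theorem ap_bd (h1 : St_Oc) (h2 : St_Fb) (d q : ℕ) (ν b : ℤ) (hd : 1 ≤ d) (hq : 1 ≤ q)
    (hb : IsCoprime b (q : ℤ)) (n : ℕ) :
    ‖∑ r ∈ (Nat.lcm d q).divisors, ∑ χ ∈ prm r, fh d ν q b ⟨r, χ⟩ * χ (n : ZMod r)‖ ≤
      Real.sqrt q := by
  have hl1 : 1 ≤ Nat.lcm d q := Nat.lcm_pos hd hq
  have hφ : (0 : ℝ) < ((Nat.lcm d q).totient : ℝ) := by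
    exact_mod_cast Nat.totient_pos.mpr hl1
  calc _ ≤ ∑ r ∈ (Nat.lcm d q).divisors, ∑ χ ∈ prm r,
        Real.sqrt q / ((Nat.lcm d q).totient : ℝ) := by
        refine (norm_sum_le _ _).trans (sum_le_sum fun r hr => ?_)
        refine (norm_sum_le _ _).trans (sum_le_sum fun χ _ => ?_)
        rw [norm_mul]
        have h3 := h2 d q ν b r χ hd hq hb (Nat.dvd_of_mem_divisors hr)
        have h4 : ‖χ (n : ZMod r)‖ ≤ 1 := DirichletCharacter.norm_le_one χ _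
        calc _ ≤ Real.sqrt q / ((Nat.lcm d q).totient : ℝ) * 1 :=
              mul_le_mul h3 h4 (norm_nonneg _) (by positivity)
          _ = _ := mul_one _
    _ = (((∑ r ∈ (Nat.lcm d q).divisors, (prm r).card : ℕ)) : ℝ) *
          (Real.sqrt q / ((Nat.lcm d q).totient : ℝ)) := by
        rw [Nat.cast_sum, sum_mul]
        refine sum_congr rfl fun r _ => ?_
        rw [sum_const, nsmul_eq_mul]
    _ = Real.sqrt q := by
        rw [(h1 _ hl1).1]
        field_simp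

theorem thm_Ap (h1 : St_Oc) (h2 : St_Fb) : St_Ap := by
  intro η K d q ν b β hη hK hd hq hb
  classical
  obtain ⟨l, hl⟩ : ∃ l, l = Nat.lcm d q := ⟨_, rfl⟩
  have hl1 : 1 ≤ l := by
    rw [hl]
    exact Nat.lcm_pos hd hq
  have hq1 : (1 : ℝ) ≤ q := by exact_mod_cast hq
  obtain ⟨F, hF⟩ : ∃ F : ℕ → ℂ, ∀ n, F n = ∑ r ∈ l.divisors, ∑ χ ∈ prm r,
    fh d ν q b ⟨r, χ⟩ * χ (n : ZMod r) := ⟨_, fun _ => rfl⟩
  obtain ⟨w, hw⟩ : ∃ w : ℕ → ℂ, ∀ n : ℕ, w n = ((η ((n : ℝ) / K) : ℝ) : ℂ) * ee (β * n) :=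
    ⟨_, fun _ => rfl⟩
  have hw1 : ∀ n, ‖w n‖ ≤ 1 := by
    intro n
    rw [hw, norm_mul, wc_ee_norm, mul_one, Complex.norm_real, Real.norm_of_nonneg (hη.nonneg _)]
    exact hη.le_one _
  have hF1 : ∀ n, n.Coprime l → F n = Pd d ν q b (n : ℤ) := by
    intro n hn
    rw [hF, hl]
    exact ap_eq h1 d q ν b hd hq n (by rw [← hl]; exact hn)
  have hF2 : ∀ n, ‖F n‖ ≤ Real.sqrt q := by
    intro n
    rw [hF, hl]
    exact ap_bd h1 h2 d q ν b hd hq hb n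
  have e1 : ∑ r ∈ l.divisors, ∑ χ ∈ prm r, fh d ν q b ⟨r, χ⟩ * Tx η K β ⟨r, χ⟩ =
      ∑ n ∈ Icc 1 K, ((lam n : ℝ) : ℂ) * (F n * w n) := by
    have e2 : ∀ r ∈ l.divisors, ∀ χ ∈ prm r, fh d ν q b ⟨r, χ⟩ * Tx η K β ⟨r, χ⟩ =
        ∑ n ∈ Icc 1 K, ((lam n : ℝ) : ℂ) * ((fh d ν q b ⟨r, χ⟩ * χ (n : ZMod r)) * w n) := by
      intro r _ χ _
      show fh d ν q b ⟨r, χ⟩ * ∑ n ∈ Icc 1 K, ((lam n : ℝ) : ℂ) *
        (χ (n : ZMod r) * (((η ((n : ℝ) / K) : ℝ) : ℂ) * ee (β * n))) = _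
      rw [mul_sum]
      refine sum_congr rfl fun n _ => ?_
      rw [hw]
      ring
    rw [sum_congr rfl fun r hr => sum_congr rfl fun χ hχ => e2 r hr χ hχ,
      sum_congr rfl fun r _ => sum_comm, sum_comm]
    refine sum_congr rfl fun n _ => ?_
    rw [hF, sum_mul, mul_sum]
    refine sum_congr rfl fun r _ => ?_
    rw [sum_mul, mul_sum]
  rw [← hl, e1, ← sum_sub_distrib]
  have e3 : ∀ n ∈ Icc 1 K, ‖((lam n : ℝ) : ℂ) * (Pd d ν q b (n : ℤ) *
        (((η ((n : ℝ) / K) : ℝ) : ℂ) * ee (β * n))) - ((lam n : ℝ) : ℂ) * (F n * w n)‖ ≤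
      if ¬ n.Coprime l then lam n * (2 * q) else 0 := by
    intro n _
    rw [← hw n, ← mul_sub, ← sub_mul, norm_mul, norm_mul, Complex.norm_real,
      Real.norm_of_nonneg (wc_lam_nonneg n)]
    by_cases hn : n.Coprime l
    · rw [if_neg (not_not.mpr hn), hF1 n hn, sub_self, norm_zero, zero_mul, mul_zero]
    · rw [if_pos hn]
      refine mul_le_mul_of_nonneg_left ?_ (wc_lam_nonneg n)
      have h3 : ‖Pd d ν q b (n : ℤ) - F n‖ ≤ 2 * q := by
        refine (norm_sub_le _ _).trans ?_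
        have h4 : Real.sqrt q ≤ q := by
          rw [Real.sqrt_le_left (by linarith)]
          nlinarith
        have h5 := ap_norm d q ν b n
        have h6 := hF2 n
        linarith
      calc _ ≤ 2 * (q : ℝ) * 1 := mul_le_mul h3 (hw1 n) (norm_nonneg _) (by positivity)
        _ = _ := mul_one _
  refine (norm_sum_le _ _).trans ((sum_le_sum e3).trans ?_)
  rw [← sum_filter, ← sum_mul]
  have h7 := mul_le_mul_of_nonneg_right (ap_noncop K l hl1 hK)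
    (by positivity : (0 : ℝ) ≤ 2 * q)
  linarith

end Pool.Agent.MV5
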