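import Pool.Agent.MV5.StB
import Pool.Agent.MVII.Ep

set_option autoImplicit false

/-!
# MV5, module Ar: the difference on the arcs
-/

namespace Pool.Agent.MV5

open Finset Filter
open Pool.Agent.GBQ (ee lam nd Admissible)
open Pool.Agent.MVX (Chr tent Bm Um prm Win GP)
open Pool.Agent.LIN (PP pz Dens)
open Pool.Agent.MT (IsWt)
open Pool.Agent.MVII (TT QQ HH H0 cp cs gp GQ ar PL PM NB BI Bc Md fj rr Per mn wq Sum4 Blk Wc)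

/-- the weight of a character in LS -/
private noncomputable def ar_w (η : ℝ → ℝ) (K h T : ℕ) (β : ℝ) (r : ℕ)
    (χ : DirichletCharacter ℂ r) : ℝ :=
  ‖Tx η K β ⟨r, χ⟩‖ * |1 - (if r ≤ T then fj h β else 0)|

private theorem ar_w_nonneg (η : ℝ → ℝ) (K h T : ℕ) (β : ℝ) (r : ℕ)
    (χ : DirichletCharacter ℂ r) : 0 ≤ ar_w η K h T β r χ :=
  mul_nonneg (norm_nonneg _) (abs_nonneg _)

/-- one pair `d`, `ν` -/
private theorem ar_one (h3 : St_Fb) (η : ℝ → ℝ) (K h T d q : ℕ) (ν b : ℤ) (β : ℝ) (hd : 1 ≤ d)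
    (hq : 1 ≤ q) (hb : IsCoprime b (q : ℤ)) :
    ‖∑ r ∈ (Nat.lcm d q).divisors, ∑ χ ∈ prm r, fh d ν q b ⟨r, χ⟩ * Tx η K β ⟨r, χ⟩ -
      ∑ r ∈ (Nat.lcm d q).divisors.filter (fun r => r ≤ T), ∑ χ ∈ prm r,
          fh d ν q b ⟨r, χ⟩ * (((fj h β : ℝ) : ℂ) * Tx η K β ⟨r, χ⟩)‖ ≤
      ∑ r ∈ (Nat.lcm d q).divisors, Real.sqrt q / (Nat.lcm d q).totient *
        ∑ χ ∈ prm r, ar_w η K h T β r χ := by
  rw [Finset.sum_filter, ← Finset.sum_sub_distrib]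
  refine (norm_sum_le _ _).trans (Finset.sum_le_sum fun r hr => ?_)
  have hrd : r ∣ Nat.lcm d q := Nat.dvd_of_mem_divisors hr
  have e : (∑ χ ∈ prm r, fh d ν q b ⟨r, χ⟩ * Tx η K β ⟨r, χ⟩ -
      if r ≤ T then ∑ χ ∈ prm r, fh d ν q b ⟨r, χ⟩ * (((fj h β : ℝ) : ℂ) * Tx η K β ⟨r, χ⟩)
        else 0) =
      ∑ χ ∈ prm r, fh d ν q b ⟨r, χ⟩ * (Tx η K β ⟨r, χ⟩ *
        (((1 - (if r ≤ T then fj h β else 0) : ℝ)) : ℂ)) := by
    split_ifs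
    · rw [← Finset.sum_sub_distrib]
      refine Finset.sum_congr rfl fun χ _ => ?_
      push_cast
      ring
    · rw [sub_zero]
      refine Finset.sum_congr rfl fun χ _ => ?_
      simp
  rw [e, Finset.mul_sum]
  refine (norm_sum_le _ _).trans (Finset.sum_le_sum fun χ _ => ?_)
  rw [norm_mul, norm_mul, Complex.norm_real, Real.norm_eq_abs]
  exact mul_le_mul_of_nonneg_right (h3 d q ν b r χ hd hq hb hrd) (ar_w_nonneg η K h T β r χ)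

private theorem ar_div (d q D R : ℕ) (hd : d ∈ Icc 1 D) (hq : 1 ≤ q) (hR : D * q ≤ R)
    (F : ℕ → ℝ) :
    ∑ r ∈ (Nat.lcm d q).divisors, F r = ∑ r ∈ Icc 1 R, if r ∣ Nat.lcm d q then F r else 0 := by
  obtain ⟨hd1, hdD⟩ := Finset.mem_Icc.1 hd
  have hl : 0 < Nat.lcm d q := Nat.lcm_pos (by omega) (by omega)
  have hlR : Nat.lcm d q ≤ R := by
    have h1 : Nat.lcm d q ≤ d * q := Nat.le_of_dvd (by positivity) (Nat.lcm_dvd_mul d q)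
    exact (h1.trans (Nat.mul_le_mul_right q hdD)).trans hR
  rw [← Finset.sum_filter]
  refine Finset.sum_congr ?_ fun _ _ => rfl
  ext r
  rw [Nat.mem_divisors, Finset.mem_filter, Finset.mem_Icc]
  constructor
  · rintro ⟨h1, _⟩
    exact ⟨⟨Nat.pos_of_dvd_of_pos h1 hl, (Nat.le_of_dvd hl h1).trans hlR⟩, h1⟩
  · rintro ⟨_, h1⟩
    exact ⟨h1, hl.ne'⟩

/-- all pairs -/
private theorem ar_all (h3 : St_Fb) (η : ℝ → ℝ) (K h T D q R : ℕ) (b : ℤ) (β : ℝ) (c : ℕ → ℝ)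
    (hq : 1 ≤ q) (hb : IsCoprime b (q : ℤ)) (hR : D * q ≤ R) :
    ‖∑ d ∈ Icc 1 D, ((c d : ℝ) : ℂ) * ∑ ν ∈ RT d, ∑ r ∈ (Nat.lcm d q).divisors,
        ∑ χ ∈ prm r, fh d ν q b ⟨r, χ⟩ * Tx η K β ⟨r, χ⟩ -
      ∑ d ∈ Icc 1 D, ((c d : ℝ) : ℂ) * ∑ ν ∈ RT d,
        ∑ r ∈ (Nat.lcm d q).divisors.filter (fun r => r ≤ T), ∑ χ ∈ prm r,
          fh d ν q b ⟨r, χ⟩ * (((fj h β : ℝ) : ℂ) * Tx η K β ⟨r, χ⟩)‖ ≤
      ∑ r ∈ Icc 1 R, (∑ χ ∈ prm r, ar_w η K h T β r χ) *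
        ∑ d ∈ Icc 1 D, |c d| * ((RT d).card : ℝ) *
          (if r ∣ Nat.lcm d q then Real.sqrt q / (Nat.lcm d q).totient else 0) := by
  rw [← Finset.sum_sub_distrib]
  have hterm : ∀ d ∈ Icc 1 D,
      ‖((c d : ℝ) : ℂ) * ∑ ν ∈ RT d, ∑ r ∈ (Nat.lcm d q).divisors,
        ∑ χ ∈ prm r, fh d ν q b ⟨r, χ⟩ * Tx η K β ⟨r, χ⟩ -
      ((c d : ℝ) : ℂ) * ∑ ν ∈ RT d,
        ∑ r ∈ (Nat.lcm d q).divisors.filter (fun r => r ≤ T), ∑ χ ∈ prm r,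
          fh d ν q b ⟨r, χ⟩ * (((fj h β : ℝ) : ℂ) * Tx η K β ⟨r, χ⟩)‖ ≤
      ∑ r ∈ Icc 1 R, (∑ χ ∈ prm r, ar_w η K h T β r χ) * (|c d| * ((RT d).card : ℝ) *
          (if r ∣ Nat.lcm d q then Real.sqrt q / (Nat.lcm d q).totient else 0)) := by
    intro d hd
    rw [← mul_sub, ← Finset.sum_sub_distrib, norm_mul, Complex.norm_real, Real.norm_eq_abs]
    have h5 : ‖∑ ν ∈ RT d, (∑ r ∈ (Nat.lcm d q).divisors,
        ∑ χ ∈ prm r, fh d ν q b ⟨r, χ⟩ * Tx η K β ⟨r, χ⟩ -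
        ∑ r ∈ (Nat.lcm d q).divisors.filter (fun r => r ≤ T), ∑ χ ∈ prm r,
          fh d ν q b ⟨r, χ⟩ * (((fj h β : ℝ) : ℂ) * Tx η K β ⟨r, χ⟩))‖ ≤
        ((RT d).card : ℝ) * ∑ r ∈ (Nat.lcm d q).divisors,
          Real.sqrt q / (Nat.lcm d q).totient * ∑ χ ∈ prm r, ar_w η K h T β r χ := by
      refine (norm_sum_le _ _).trans ?_
      refine (Finset.sum_le_card_nsmul (RT d) _ _ fun ν _ =>
        ar_one h3 η K h T d q ((ν : ℕ) : ℤ) b β (Finset.mem_Icc.1 hd).1 hq hb).trans ?_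
      rw [nsmul_eq_mul]
    refine (mul_le_mul_of_nonneg_left h5 (abs_nonneg _)).trans (le_of_eq ?_)
    rw [ar_div d q D R hd hq hR, ← mul_assoc, Finset.mul_sum]
    refine Finset.sum_congr rfl fun r _ => ?_
    split_ifs
    · ring
    · ring
  refine (norm_sum_le _ _).trans ((Finset.sum_le_sum hterm).trans (le_of_eq ?_))
  rw [Finset.sum_comm]
  refine Finset.sum_congr rfl fun r _ => ?_
  rw [Finset.mul_sum]

theorem thm_Ar (h1 : St_Al) (h2 : St_Am) (h3 : St_Fb) (h4 : St_Wt) : St_Ar := by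
  intro η hη C δ hδ hδ1 hLs
  have hε : (0 : ℝ) < δ / 10 ^ 4 := by positivity
  filter_upwards [h1 η hη C δ hδ hδ1, h2 η hη C δ hδ hδ1, h4 C (δ / 10 ^ 4) hε, hLs,
    MVII.ep_large 3 (δ / 300) (by positivity), eventually_ge_atTop 1] with X a1 a2 a4 aL a5 hX1
  intro m q b β c hm hmX hq hqQ hb hβ hc
  have hX1' : (1 : ℝ) ≤ X := by exact_mod_cast hX1
  have hX0 : (0 : ℝ) < X := by linarith
  have b1 := a1 m q b β c hm hmX hq hqQ hb hc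
  have b2 := a2 m q b β c hm hmX hq hqQ hb hβ hc
  have hQX : ((QQ δ X : ℕ) : ℝ) ≤ (X : ℝ) ^ (30 * δ) := Nat.floor_le (by positivity)
  have hDX : ((DD X : ℕ) : ℝ) ≤ (X : ℝ) ^ (491 / 1000 : ℝ) := Nat.floor_le (by positivity)
  have hqX : q ≤ X := by
    have h5 : (q : ℝ) ≤ X := by
      have h6 : (q : ℝ) ≤ QQ δ X := by exact_mod_cast hqQ
      have h7 : (X : ℝ) ^ (30 * δ) ≤ (X : ℝ) ^ (1 : ℝ) :=
        Real.rpow_le_rpow_of_exponent_le hX1' (by linarith)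
      rw [Real.rpow_one] at h7
      linarith
    exact_mod_cast h5
  have hDX' : DD X ≤ X := by
    have h5 : ((DD X : ℕ) : ℝ) ≤ X := by
      have h7 : (X : ℝ) ^ (491 / 1000 : ℝ) ≤ (X : ℝ) ^ (1 : ℝ) :=
        Real.rpow_le_rpow_of_exponent_le hX1' (by norm_num)
      rw [Real.rpow_one] at h7
      linarith
    exact_mod_cast h5
  have hR : ((DD X * QQ δ X : ℕ) : ℝ) ≤ (X : ℝ) ^ (496 / 1000 : ℝ) := by
    push_cast
    calc ((DD X : ℕ) : ℝ) * ((QQ δ X : ℕ) : ℝ)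
        ≤ (X : ℝ) ^ (491 / 1000 : ℝ) * (X : ℝ) ^ (30 * δ) :=
          mul_le_mul hDX hQX (Nat.cast_nonneg _) (by positivity)
      _ = (X : ℝ) ^ (491 / 1000 + 30 * δ) := by rw [← Real.rpow_add hX0]
      _ ≤ (X : ℝ) ^ (496 / 1000 : ℝ) :=
          Real.rpow_le_rpow_of_exponent_le hX1' (by linarith)
  have b3 := ar_all h3 η (KK m X) (HH δ X) (TT δ X) (DD X) q (DD X * QQ δ X) b β c hq hb
    (Nat.mul_le_mul_left _ hqQ)
  have b4 := aL m q (DD X * QQ δ X) β hm hmX hq hqQ hR hβ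
  have b5 : ∑ r ∈ Icc 1 (DD X * QQ δ X),
      (∑ χ ∈ prm r, ar_w η (KK m X) (HH δ X) (TT δ X) β r χ) *
        ∑ d ∈ Icc 1 (DD X), |c d| * ((RT d).card : ℝ) *
          (if r ∣ Nat.lcm d q then Real.sqrt q / (Nat.lcm d q).totient else 0) ≤
      (X : ℝ) ^ (δ / 10 ^ 4) * (X : ℝ) ^ (1 - δ / 35) := by
    have g0 : ∀ r ∈ Icc 1 (DD X * QQ δ X),
        (∑ χ ∈ prm r, ar_w η (KK m X) (HH δ X) (TT δ X) β r χ) *
        ∑ d ∈ Icc 1 (DD X), |c d| * ((RT d).card : ℝ) *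
          (if r ∣ Nat.lcm d q then Real.sqrt q / (Nat.lcm d q).totient else 0) ≤
        (∑ χ ∈ prm r, ar_w η (KK m X) (HH δ X) (TT δ X) β r χ) *
        ((X : ℝ) ^ (δ / 10 ^ 4) * ((Nat.gcd r q : ℝ) / (r * Real.sqrt q))) := by
      intro r hr
      exact mul_le_mul_of_nonneg_left (a4 c (DD X) q r hc hDX' hq hqX (Finset.mem_Icc.1 hr).1)
        (Finset.sum_nonneg fun χ _ => ar_w_nonneg _ _ _ _ _ _ _)
    refine (Finset.sum_le_sum g0).trans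
      (le_trans (le_of_eq ?_) (mul_le_mul_of_nonneg_left b4 (by positivity)))
    rw [Finset.mul_sum]
    refine Finset.sum_congr rfl fun r _ => ?_
    rw [Finset.sum_mul, Finset.mul_sum]
    refine Finset.sum_congr rfl fun χ _ => ?_
    unfold ar_w
    ring
  have e : ∑ y ∈ range (KK m X + HH δ X), (((lam y * η ((y : ℝ) / KK m X) : ℝ) : ℂ) -
        MY η (TT δ X) (QQ δ X) (HH δ X) (KK m X) y) *
        ((SD (DD X) c (y : ℤ) : ℝ) : ℂ) * ee (((b : ℝ) / q + β) * y) =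
      ∑ y ∈ range (KK m X + HH δ X), ((lam y * η ((y : ℝ) / KK m X) : ℝ) : ℂ) *
        ((SD (DD X) c (y : ℤ) : ℝ) : ℂ) * ee (((b : ℝ) / q + β) * y) -
      ∑ y ∈ range (KK m X + HH δ X), MY η (TT δ X) (QQ δ X) (HH δ X) (KK m X) y *
        ((SD (DD X) c (y : ℤ) : ℝ) : ℂ) * ee (((b : ℝ) / q + β) * y) := by
    rw [← Finset.sum_sub_distrib]
    exact Finset.sum_congr rfl fun y _ => by ring
  rw [e]
  have b6 := b3.trans b5
  have hmx1 : (X : ℝ) ^ (6 / 10 : ℝ) ≤ (X : ℝ) ^ (1 - δ / 35 + δ / 10 ^ 4) :=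
    Real.rpow_le_rpow_of_exponent_le hX1' (by linarith)
  have hmx2 : (X : ℝ) ^ (1 - δ) ≤ (X : ℝ) ^ (1 - δ / 35 + δ / 10 ^ 4) :=
    Real.rpow_le_rpow_of_exponent_le hX1' (by linarith)
  have hmx3 : (X : ℝ) ^ (δ / 10 ^ 4) * (X : ℝ) ^ (1 - δ / 35) =
      (X : ℝ) ^ (1 - δ / 35 + δ / 10 ^ 4) := by
    rw [← Real.rpow_add hX0]
    congr 1
    ring
  rw [hmx3] at b6
  have hfin : 3 * (X : ℝ) ^ (1 - δ / 35 + δ / 10 ^ 4) ≤ (X : ℝ) ^ (1 - δ / 40) := by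
    calc 3 * (X : ℝ) ^ (1 - δ / 35 + δ / 10 ^ 4)
        ≤ (X : ℝ) ^ (δ / 300) * (X : ℝ) ^ (1 - δ / 35 + δ / 10 ^ 4) :=
          mul_le_mul_of_nonneg_right a5 (by positivity)
      _ = (X : ℝ) ^ (δ / 300 + (1 - δ / 35 + δ / 10 ^ 4)) := by rw [← Real.rpow_add hX0]
      _ ≤ (X : ℝ) ^ (1 - δ / 40) := Real.rpow_le_rpow_of_exponent_le hX1' (by linarith)
  set SL := ∑ y ∈ range (KK m X + HH δ X), ((lam y * η ((y : ℝ) / KK m X) : ℝ) : ℂ) *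
        ((SD (DD X) c (y : ℤ) : ℝ) : ℂ) * ee (((b : ℝ) / q + β) * y)
  set SM := ∑ y ∈ range (KK m X + HH δ X), MY η (TT δ X) (QQ δ X) (HH δ X) (KK m X) y *
        ((SD (DD X) c (y : ℤ) : ℝ) : ℂ) * ee (((b : ℝ) / q + β) * y)
  have b7 : ∀ P P' : ℂ, ‖SL - SM‖ ≤ ‖SL - P‖ + ‖SM - P'‖ + ‖P - P'‖ := by
    intro P P'
    have h5 : SL - SM = (SL - P) - (SM - P') + (P - P') := by ring
    rw [h5]
    exact (norm_add_le _ _).trans (add_le_add (norm_sub_le _ _) le_rfl)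
  refine (b7 _ _).trans ((add_le_add (add_le_add b1 b2) b6).trans ?_)
  linarith

end Pool.Agent.MV5
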