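import Mathlib
import Pool.Agent.MT.Defs
import Pool.Agent.LIN.Stmts
import Pool.Agent.MVII.Defs

set_option autoImplicit false

/-!
# MV5: the exceptional set with five prime factors (problem MP_4011c3_nt)

As MVII, but the sieve has level `X ^ (491/1000)` and detects `Ω(y ^ 2 - 2) ≤ 5`.
`K = KK m X`, `T = TT δ X = X^δ`, `Q = QQ δ X = X^(30 δ)`, `h = HH δ X = X^(1 - 10 δ)`,
`L = H0 δ X = X^(1 - 20 δ)`, `D = DD X`; always `δ ≤ 10^(-6)`, `m ≤ X^(δ/1000)`.  Definitions.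
-/

namespace Pool.Agent.MV5

open Finset Filter
open Pool.Agent.GBQ (ee lam nd Admissible)
open Pool.Agent.MVX (Chr tent Bm Um prm Win GP)
open Pool.Agent.LIN (PP pz Dens)
open Pool.Agent.MT (IsWt)
open Pool.Agent.MVII (TT QQ HH H0 cp cs gp GQ ar PL PM NB BI Bc Md fj rr Per mn wq Sum4 Blk)

/-- the length of the sum over `y` -/
def KK (m X : ℕ) : ℕ := X / (8 * m)

/-- the level of the sieve -/
noncomputable def DD (X : ℕ) : ℕ := ⌊(X : ℝ) ^ (491 / 1000 : ℝ)⌋₊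

/-! ### the sieve weight -/

/-- `∑_{d ≤ D, d ∣ y^2 - 2} c_d` -/
noncomputable def SD (D : ℕ) (c : ℕ → ℝ) (y : ℤ) : ℝ :=
  ∑ d ∈ Icc 1 D, if (d : ℤ) ∣ y ^ 2 - 2 then c d else 0

/-- coefficients on odd squarefree `d ≤ D` -/
structure IsC (D : ℕ) (C : ℝ) (c : ℕ → ℝ) : Prop where
  supp : ∀ d, c d ≠ 0 → Squarefree d ∧ ¬ 2 ∣ d ∧ d ≤ D
  bound : ∀ d, |c d| ≤ C * 8 ^ d.primeFactors.card

/-- the roots of `y^2 = 2` modulo `d` -/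
def RT (d : ℕ) : Finset ℕ := (range d).filter (fun ν : ℕ => (d : ℤ) ∣ (ν : ℤ) ^ 2 - 2)

/-- exact sieve for the odd primes dividing `q₁`, weights `c` for the others -/
noncomputable def ct (q₁ : ℕ) (c : ℕ → ℝ) (d : ℕ) : ℝ :=
  if Squarefree d ∧ ¬ 2 ∣ d then
    (-1) ^ (d.primeFactors.filter (fun p => p ∣ q₁)).card *
      c (∏ p ∈ d.primeFactors.filter (fun p => ¬ p ∣ q₁), p)
  else 0

/-- no odd prime divisor of `q₁` divides `y^2 - 2` -/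
noncomputable def exq (q₁ : ℕ) (y : ℤ) : ℝ :=
  if ∀ p ∈ q₁.primeFactors, p ≠ 2 → ¬ (p : ℤ) ∣ y ^ 2 - 2 then 1 else 0

/-- the part of the sieve prime to `2 q₁` -/
noncomputable def S1 (D q₁ : ℕ) (c : ℕ → ℝ) (y : ℤ) : ℝ :=
  ∑ d ∈ Icc 1 D, if (d : ℤ) ∣ y ^ 2 - 2 ∧ d.Coprime (2 * q₁) then c d else 0

/-- sieve limit -/
noncomputable def zs (K : ℕ) : ℕ := ⌊(K : ℝ) ^ (12 / 100 : ℝ)⌋₊

/-- limit of the weights -/
noncomputable def ys (K : ℕ) : ℕ := ⌊(K : ℝ) ^ (432 / 1000 : ℝ)⌋₊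

/-- the weighted sieve with five prime factors: lower weights `c`, majorant `cu` -/
structure IsSv (K : ℕ) (c₀ δ₀ η₀ C : ℝ) (c cu : ℕ → ℝ) : Prop where
  supp : ∀ d, c d ≠ 0 ∨ cu d ≠ 0 → Squarefree d ∧ (d : ℝ) ≤ (K : ℝ) ^ (49 / 100 : ℝ)
  bound : ∀ d, |c d| ≤ C * 8 ^ d.primeFactors.card ∧ |cu d| ≤ C * 8 ^ d.primeFactors.card
  abs_le : ∀ n : ℕ, 1 ≤ n → |∑ d ∈ n.divisors, c d| ≤ ∑ d ∈ n.divisors, cu d
  det : ∀ n : ℕ, 1 ≤ n → n ≤ K ^ 2 →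
    (∀ p : ℕ, p.Prime → zs K < p → p ≤ ys K → ¬ p ^ 2 ∣ n) →
    0 < ∑ d ∈ n.divisors, c d → Nat.IsAtMostAlmostPrime 5 n
  main : ∀ g : ℕ → ℝ, Dens g ⌊(K : ℝ) ^ δ₀⌋₊ (ys K) η₀ →
    c₀ * ∏ p ∈ pz (zs K), (1 - g p) ≤ ∑ d ∈ Icc 1 K, c d * ∏ p ∈ d.primeFactors, g p ∧
    ∑ d ∈ Icc 1 K, cu d * ∏ p ∈ d.primeFactors, g p ≤ C * ∏ p ∈ pz (zs K), (1 - g p)

/-! ### characters -/

/-- `∑ Λ(n) χ(n) η(n/K) e(β n)` -/
noncomputable def Tx (η : ℝ → ℝ) (K : ℕ) (β : ℝ) (c : Chr) : ℂ :=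
  ∑ n ∈ Icc 1 K, ((lam n : ℝ) : ℂ) *
    (c.2 (n : ZMod c.1) * (((η ((n : ℝ) / K) : ℝ) : ℂ) * ee (β * n)))

/-- the local mean at `x` of `Λ χ η(·/K)` -/
noncomputable def BY (η : ℝ → ℝ) (h K x : ℕ) (c : Chr) : ℂ :=
  ((h : ℂ) ^ 2)⁻¹ * ∑ n ∈ Icc 1 K, ((lam n : ℝ) : ℂ) *
    (c.2 (n : ZMod c.1) * ((η ((n : ℝ) / K) : ℝ) : ℂ)) * ((tent h x n : ℝ) : ℂ)

/-- the model of `Λ η(·/K)` -/
noncomputable def MY (η : ℝ → ℝ) (T Q h K x : ℕ) : ℂ := PM (BY η h K x) T Q (x : ℤ)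

/-- `1_{y = ν mod d} e(b y/q)` -/
noncomputable def Pd (d : ℕ) (ν : ℤ) (q : ℕ) (b : ℤ) (y : ℤ) : ℂ :=
  if (d : ℤ) ∣ y - ν then ee ((b : ℝ) * y / q) else 0

/-- the coefficient of `χ` in `Pd` on the units modulo `lcm (d, q)` -/
noncomputable def fh (d : ℕ) (ν : ℤ) (q : ℕ) (b : ℤ) (c : Chr) : ℂ :=
  ((Nat.lcm d q).totient : ℂ)⁻¹ * ∑ y ∈ rr (Nat.lcm d q),
    Pd d ν q b (y : ℤ) * (starRingEnd ℂ) (c.2 (y : ZMod c.1))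

/-! ### the three sums -/

/-- `∑ Λ(y) η(y/K) S(y) Λ(n - m y)` -/
noncomputable def R0 (η : ℝ → ℝ) (m K D : ℕ) (c : ℕ → ℝ) (n : ℕ) : ℝ :=
  ∑ y ∈ Icc 1 K, lam y * η ((y : ℝ) / K) * SD D c y * lam (n - m * y)

/-- one function replaced by its model -/
noncomputable def R1 (η : ℝ → ℝ) (δ : ℝ) (X m K D : ℕ) (c : ℕ → ℝ) (n : ℕ) : ℝ :=
  ∑ y ∈ Icc 1 K, lam y * η ((y : ℝ) / K) * SD D c y *
    (Md (TT δ X) (QQ δ X) (HH δ X) (X / 8) X (n - m * y)).re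

/-- both functions replaced by their models -/
noncomputable def R2 (η : ℝ → ℝ) (δ : ℝ) (X m K D : ℕ) (c : ℕ → ℝ) (n : ℕ) : ℝ :=
  ∑ y ∈ range (K + HH δ X), (MY η (TT δ X) (QQ δ X) (HH δ X) K y).re * SD D c y *
    (Md (TT δ X) (QQ δ X) (HH δ X) (X / 8) X (n - m * y)).re

/-! ### local functions -/

/-- the common period -/
def MF (Q D : ℕ) : ℕ := (Q + D).factorial

/-- `u`: the condition `p ∣ y^2 - 2`; `v`, `w`: the normalised Ramanujan sums at `n - m y`, at `y` -/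
noncomputable def lf (m n p : ℕ) (u v w : Bool) (y : ℤ) : ℝ :=
  (if u = true → (p : ℤ) ∣ y ^ 2 - 2 then 1 else 0) *
    (if v = true then cp p ((n : ℤ) - m * y) / ((p : ℝ) - 1) else 1) *
    (if w = true then cp p y / ((p : ℝ) - 1) else 1)

/-- upper bound for the mean of `lf` -/
noncomputable def la (m n p : ℕ) : Bool → Bool → Bool → ℝ
  | false, false, false => 1
  | false, true, false => 0
  | false, false, true => 0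
  | false, true, true => if p ∣ n then 1 / ((p : ℝ) - 1) else 1 / ((p : ℝ) - 1) ^ 2
  | true, false, false => 2 / p
  | true, true, false => 2 / p * (if (p : ℤ) ∣ (n : ℤ) ^ 2 - 2 * (m : ℤ) ^ 2 then 1
      else 1 / ((p : ℝ) - 1))
  | true, _, true => 2 / (p * ((p : ℝ) - 1))

/-- admissible residues modulo `p` -/
noncomputable def nA (m n p : ℕ) : ℕ :=
  ((range p).filter (fun y : ℕ => ¬ (p : ℤ) ∣ (y : ℤ) ∧ ¬ (p : ℤ) ∣ (n : ℤ) - m * y)).card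

/-- admissible residues modulo `p` with `p ∣ y^2 - 2` -/
noncomputable def nB (m n p : ℕ) : ℕ :=
  ((range p).filter (fun y : ℕ => ¬ (p : ℤ) ∣ (y : ℤ) ∧ ¬ (p : ℤ) ∣ (n : ℤ) - m * y ∧
    (p : ℤ) ∣ (y : ℤ) ^ 2 - 2)).card

/-- the density of `p ∣ y^2 - 2` -/
noncomputable def gl (Q q₁ m n p : ℕ) : ℝ :=
  if p ∣ 2 * q₁ then 0 else if p ≤ Q then (nB m n p : ℝ) / nA m n p else ((RT p).card : ℝ) / p

/-- what is used of the interface, at `X` -/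
structure Dat5 (κ δ : ℝ) (X q₁ : ℕ) (χ₁ : DirichletCharacter ℂ q₁) (U : ℕ → ℝ) (l : ℝ) :
    Prop where
  cond : 1 ≤ q₁ ∧ q₁ ≤ TT δ X
  real : ∀ a : ZMod q₁, (χ₁ a).im = 0
  low : (X : ℝ) ^ (-(κ * δ)) ≤ l
  one : l ≤ 1
  U_bd : ∀ x : ℕ, HH δ X ≤ x → x ≤ X → 0 ≤ U x ∧ U x ≤ 1 - l / 4
  sum : Sum4 δ X
  main : ∀ x : ℕ, HH δ X ≤ x → x ≤ X → ∀ a : ℤ,
    ‖PL (Bc (HH δ X) x) (TT δ X) a - (1 - χ₁ (a : ZMod q₁) * ((U x : ℝ) : ℂ))‖ ≤ κ * l ^ 3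

end Pool.Agent.MV5
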