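import Mathlib
import Pool.Agent.AAN.Stmts
import Pool.Agent.MVII.St4
import Pool.Agent.MV5.Defs

set_option autoImplicit false

/-!
# MV5: statements, fourth part (assembly)
-/

namespace Pool.Agent.MV5

open Finset Filter
open Pool.Agent.GBQ (ee lam nd Admissible)
open Pool.Agent.MVX (Chr tent Bm Um prm Win GP)
open Pool.Agent.LIN (PP pz Dens)
open Pool.Agent.MT (IsWt)
open Pool.Agent.MVII (TT QQ HH H0 cp cs gp GQ ar PL PM NB BI Bc Md fj rr Per mn wq Sum4 Blk loc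
  SolY SolN)

/-- GD.  From the interface to what is used.

Proof.  Copy `MVII.thm_GdC` (MVII/GdC.lean): `GP κ a` with `a = 10^5 + ⌈1/ε⌉₊`: `(a + 1) δ ≤ 1/10`. -/
def St_Gd : Prop := GP → ∀ κ ε : ℝ, 0 < κ → κ ≤ 1 → 0 < ε → ∃ δ : ℝ, 0 < δ ∧ δ ≤ 1 / 10 ^ 6 ∧
  δ ≤ ε ∧ ∀ᶠ X : ℕ in atTop,
  ∃ (q₁ : ℕ) (χ₁ : DirichletCharacter ℂ q₁) (U : ℕ → ℝ) (l : ℝ), Dat5 κ δ X q₁ χ₁ U l

/-- W0.  In a short interval the local means can be taken constant.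

Proof.  `T = TT δ X`, `Q = QQ δ X`, `h = HH δ X`, `L = H0 δ X`, `K = KK m X`, `ε = δ/2000`; `K ≥ X^{1-δ/1000}/9`, `h ≤ K/16 ≤ t`.  For
`y ∈ (t, t + L]`: `Md .. (n - m y) = PM (Bc h (n - m y)) T Q (n - m y)` (`MVII.thm_Bl` (2), `X/4 ≤ n - m y ≤ 3X/4`), both models are real
(RM, `MVII.thm_Re`), so the product of the real parts is the real part of the product.  `BS` (5) with `x = y`, `x' = t`: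
`‖BY y - η(t/K) Bc h t‖ ≤ C ((h + L)/K + L/h) log(2X) ≤ X^{-9.9 δ}` (`y + h ≤ K + 1`), and `MVII.thm_Bl` (4):
`‖Bc h (n - m y) - Bc h (n - m t)‖ ≤ 4 m L log(2X)/h ≤ X^{-9.9δ}`.  `‖PM b₁ x - PM b₂ x‖ ≤ ∑ ‖b₁ - b₂‖ sup|ar| ≤ T^2 X^{-9.9δ+ε}`,
`‖PM‖ ≤ NB sup|ar| ≤ 5 X^ε` (`Sum4`), `|SD| ≤ X^ε` (SB): the total error is `≤ L X^{(2-9.9)δ+5ε} ≤ L X^{-6δ}`. -/
def St_W0 : Prop := ∀ η : ℝ → ℝ, IsWt η → ∀ C δ : ℝ, 0 < δ → δ ≤ 1 / 10 ^ 6 → ∀ᶠ X : ℕ in atTop,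
  Sum4 δ X → ∀ (m : ℕ) (c : ℕ → ℝ), 1 ≤ m → (m : ℝ) ≤ (X : ℝ) ^ (δ / 1000) → IsC (DD X) C c →
  ∀ n : ℕ, Blk X m n → ∀ t : ℕ, KK m X / 16 ≤ t → t + H0 δ X + HH δ X ≤ KK m X →
  |∑ y ∈ Ioc t (t + H0 δ X),
      (MY η (TT δ X) (QQ δ X) (HH δ X) (KK m X) y).re * SD (DD X) c y *
        (Md (TT δ X) (QQ δ X) (HH δ X) (X / 8) X (n - m * y)).re -
    η ((t : ℝ) / KK m X) * (∑ y ∈ Ioc t (t + H0 δ X),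
      PM (Bc (HH δ X) (n - m * t)) (TT δ X) (QQ δ X) ((n : ℤ) - m * (y : ℤ)) *
      PM (Bc (HH δ X) t) (TT δ X) (QQ δ X) (y : ℤ) * ((SD (DD X) c (y : ℤ) : ℝ) : ℂ)).re| ≤
    (H0 δ X : ℝ) * (X : ℝ) ^ (-(6 * δ))

/-- W1.  The sum over one short interval.

Proof.  `b = Bc h (n - m t)`, `b' = Bc h t`, `D = DD X`; `NB b T ≤ 4`, `NB b' T ≤ 4` (`Dat5.sum`; `h ≤ t`, `h ≤ n - m t ≤ X`);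
`q₁ K^{49/100} ≤ X^{δ + 49/100} ≤ D`.  SW: `IsC D C (ct q₁ c)`.
(1) W0: error `≤ L X^{-6δ}`.
(2) WI with `B = log(2X)` (`‖Bc h x c‖ ≤ log(2X)`): error `≤ X^{δ + (6 + 120) δ} D^2 ≤ X^{0.985} ≤ L X^{-2δ}` (`∑ |c_d| ≤ D X^{δ/10}`).
(3) CP: error `≤ X^{-13δ}` in the mean.
(4) PO (`Dens` by DN: `K ≥ X^{1/2}`) with `v = U (n - m t)`, `v' = U t`: the mean is `≥ (c₀/2) (l/4)^2 (c/log X)^{16} ≥ X^{-2κδ - δ/1000} ≥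
X^{-δ/250}` (`GBQ.thm_RhoLow`, `pz z = GBQ.pr z`; `κ ≤ 1/1000`).
Sum: `≥ η(t/K) L (X^{-δ/250} - X^{-13δ} - X^{-2δ}) - L X^{-6δ} ≥ L (η(t/K) X^{-δ/200} - X^{-δ})`. -/
def St_W1 : Prop := ∀ η : ℝ → ℝ, IsWt η → ∀ c₀ δ₀ η₀ C κ δ : ℝ, 0 < c₀ → 0 < δ₀ →
  δ₀ ≤ 1 / 20 → 0 < η₀ → 0 < C → 0 < κ → κ ≤ 1 / 1000 → 18 * C * κ ≤ c₀ → 0 < δ →
  δ ≤ 1 / 10 ^ 6 → ∀ᶠ X : ℕ in atTop,
  ∀ (q₁ : ℕ) (χ₁ : DirichletCharacter ℂ q₁) (U : ℕ → ℝ) (l : ℝ), Dat5 κ δ X q₁ χ₁ U l →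
  ∀ (m : ℕ) (c cu : ℕ → ℝ), 1 ≤ m → (m : ℝ) ≤ (X : ℝ) ^ (δ / 1000) →
  IsSv (KK m X) c₀ δ₀ η₀ C c cu → ∀ n : ℕ, Blk X m n → n.Coprime m → (n + m) % 2 = 1 →
  ∀ t : ℕ, KK m X / 16 ≤ t → t + H0 δ X + HH δ X ≤ KK m X →
  (H0 δ X : ℝ) * (η ((t : ℝ) / KK m X) * (X : ℝ) ^ (-(δ / 200)) - (X : ℝ) ^ (-δ)) ≤
    ∑ y ∈ Ioc t (t + H0 δ X),
      (MY η (TT δ X) (QQ δ X) (HH δ X) (KK m X) y).re * SD (DD X) (ct q₁ c) y *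
        (Md (TT δ X) (QQ δ X) (HH δ X) (X / 8) X (n - m * y)).re

/-- MN.  The main term from below.

Proof.  `K = KK m X`, `h = HH`, `L = H0`.  `a = K/16`, `J = (K - h - a)/L` (natural division), the windows `(a + i L, a + (i+1) L]`,
`i < J`, are disjoint, inside `(a, K - h]`; outside of them the terms vanish: for `y ≤ a`, `8 (y + h) ≤ K`, and for `y > a + J L > K - h - L`
all `n ≤ K` in the tent have `n > K - 2 h - L ≥ 7K/8` (`BS` (3), `η = 0`).  W1 for every window: at least `K/(3 L)` of the `i` have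
`a + i L ∈ [K/4, 3K/4]`, where `η = 1`; the sum is `≥ (K/3) X^{-δ/200} - 2 K X^{-δ} ≥ (K/4) X^{-δ/200} ≥ X^{1 - δ/150}`
(`K ≥ X^{1-δ/1000}/9`). -/
def St_Mn : Prop := ∀ η : ℝ → ℝ, IsWt η → ∀ c₀ δ₀ η₀ C κ δ : ℝ, 0 < c₀ → 0 < δ₀ →
  δ₀ ≤ 1 / 20 → 0 < η₀ → 0 < C → 0 < κ → κ ≤ 1 / 1000 → 18 * C * κ ≤ c₀ → 0 < δ →
  δ ≤ 1 / 10 ^ 6 → ∀ᶠ X : ℕ in atTop,
  ∀ (q₁ : ℕ) (χ₁ : DirichletCharacter ℂ q₁) (U : ℕ → ℝ) (l : ℝ), Dat5 κ δ X q₁ χ₁ U l →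
  ∀ (m : ℕ) (c cu : ℕ → ℝ), 1 ≤ m → (m : ℝ) ≤ (X : ℝ) ^ (δ / 1000) →
  IsSv (KK m X) c₀ δ₀ η₀ C c cu → ∀ n : ℕ, Blk X m n → n.Coprime m → (n + m) % 2 = 1 →
  (X : ℝ) ^ (1 - δ / 150) ≤ R2 η δ X m (KK m X) (DD X) (ct q₁ c) n

/-- UP.  The sum is bounded by the number of solutions.

Proof.  `K = KK m X ≥ X^{0.9}/9`.  Terms of `R0(n) = ∑_{y ≤ K} Λ(y) η(y/K) SD(y) Λ(n - m y)`: only `K/8 < y` matter.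
(1) `y` or `n - m y` a proper prime power: `≤ C √X log X` values of `y` (see `MVII.thm_UpC`).
(2) `y` with `p^2 ∣ y^2 - 2` for a prime `zs K < p ≤ ys K`: at most `∑_p 2 (K/p^2 + 1) ≤ 4 K/zs K + 2 ys K ≤ X^{0.895}` (two roots modulo
`p^2`, `p` odd, by the lemma of Hensel).
(3) the others with a positive term: `y` is an odd prime, `n - m y` a prime, `SD(y) > 0`; SW: `exq = 1`, `S1 > 0`; `y^2 - 2` is odd and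
prime to the odd primes dividing `q₁`, so `S1 = ∑_{d ∣ y^2 - 2} c d > 0`, `IsSv.det` (`y^2 - 2 ≤ K^2`): `Ω(y^2 - 2) ≤ 5`
(`Nat.IsAtMostAlmostPrime`), `y ∈ SolY 5 m n`.
Every term is `≤ (log X)^2 X^{ε/2} ≤ X^ε` (SB); for (1), (2) use SB with `1/1000`. -/
def St_Up : Prop := ∀ η : ℝ → ℝ, IsWt η → ∀ c₀ δ₀ η₀ C ε : ℝ, 0 < C → 0 < ε → ∀ᶠ X : ℕ in atTop,
  ∀ (m q₁ : ℕ) (c cu : ℕ → ℝ), 1 ≤ m → (m : ℝ) ≤ (X : ℝ) ^ (1 / 10 : ℝ) → 1 ≤ q₁ →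
  (q₁ : ℝ) * (KK m X : ℝ) ^ (49 / 100 : ℝ) ≤ DD X → IsSv (KK m X) c₀ δ₀ η₀ C c cu →
  ∀ n : ℕ, Blk X m n → R0 η m (KK m X) (DD X) (ct q₁ c) n ≤
    (X : ℝ) ^ (9 / 10 : ℝ) + (SolY 5 m n).card * (X : ℝ) ^ ε

/-- few exceptions in a block -/
def BlockC (δ ε : ℝ) : Prop := ∀ᶠ X : ℕ in atTop, ∀ m : ℕ, 1 ≤ m →
  (m : ℝ) ≤ (X : ℝ) ^ (δ / 1000) → ∀ F : Finset ℕ,
  (∀ n ∈ F, Blk X m n ∧ n.Coprime m ∧ (n + m) % 2 = 1 ∧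
    ((SolY 5 m n).card : ℝ) ≤ (X : ℝ) ^ (1 - ε)) →
  (F.card : ℝ) ≤ (X : ℝ) ^ (1 - δ / 30)

/-- first error (StB, E1) and second error (StB, E2) -/
def ErH (η : ℝ → ℝ) (C δ : ℝ) : Prop := ∀ᶠ X : ℕ in atTop,
  Sum4 δ X → ∀ (m : ℕ) (c : ℕ → ℝ), 1 ≤ m → (m : ℝ) ≤ (X : ℝ) ^ (δ / 1000) → IsC (DD X) C c →
  ∀ F : Finset ℕ, (∀ n ∈ F, Blk X m n) →
  ∑ n ∈ F, (R0 η m (KK m X) (DD X) c n - R1 η δ X m (KK m X) (DD X) c n) ^ 2 ≤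
    (X : ℝ) ^ (3 - 97 / 100 * δ) ∧
  ∑ n ∈ F, (R1 η δ X m (KK m X) (DD X) c n - R2 η δ X m (KK m X) (DD X) c n) ^ 2 ≤
    (X : ℝ) ^ (3 - δ / 21)

/-- BK.  The block estimate.

Proof.  For `n ∈ F`: `R0(n) ≤ X^{9/10} + X^{1-ε} X^{ε/2} ≤ X^{1 - δ/150}/2` (UP with `ε/2`; `δ ≤ ε`) and `R2(n) ≥ X^{1-δ/150}` (MN, `Dat5` exists,
weights `c`, `cu` for `K = KK m X` exist by `SG`'s conclusion), so `(R0 - R2)^2 ≥ X^{2-δ/75}/4`, `(R0-R2)^2 ≤ 2 (R0-R1)^2 + 2 (R1-R2)^2`,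
`ErH` for `ct q₁ c` (SW): `#F ≤ 16 X^{3 - δ/21 - 2 + δ/75} ≤ X^{1 - δ/30}` (`1/21 - 1/75 > 1/30`). -/
def St_Bk : Prop := ∀ η : ℝ → ℝ, IsWt η → ∀ c₀ δ₀ η₀ C κ δ ε : ℝ, 0 < c₀ → 0 < δ₀ →
  δ₀ ≤ 1 / 20 → 0 < η₀ → 0 < C → 0 < κ → κ ≤ 1 / 1000 → 18 * C * κ ≤ c₀ → 0 < δ →
  δ ≤ 1 / 10 ^ 6 → δ ≤ ε → (∀ᶠ K : ℕ in atTop, ∃ c cu : ℕ → ℝ, IsSv K c₀ δ₀ η₀ C c cu) →
  (∀ᶠ X : ℕ in atTop,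
    ∃ (q₁ : ℕ) (χ₁ : DirichletCharacter ℂ q₁) (U : ℕ → ℝ) (l : ℝ), Dat5 κ δ X q₁ χ₁ U l) →
  ErH η C δ → BlockC δ ε

/-- FI.  The theorem.

Proof.  As `MVII.thm_FiC` (MVII/FiC.lean) with `R = 5` and `δ' = δ/5000`: (I) `FinH c 3 Phi` gives `m #F ≤ N (log N)^C` (the same
argument, `R = 5` is enough because `EVN.Phi` has five prime factors).  (II) `m > N^{δ/2500}`: (I).  (III) `m ≤ N^{δ/2500}`: blocks with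
`X ≥ √N`, `m ≤ X^{δ/1250} ≤ X^{δ/1000}`, each with at most `m X^{1-δ/30} ≤ X^{1-δ/32}` exceptions. -/
def St_Fi : Prop := (∀ ε : ℝ, 0 < ε → ∃ δ : ℝ, 0 < δ ∧ δ ≤ 1 / 10 ^ 6 ∧ BlockC δ ε) →
  (∃ c : ℝ, 0 < c ∧ AAN.FinH c 3 EVN.Phi) →
  ∃ C : ℕ, ∀ ε : ℝ, 0 < ε → ∃ (δ : ℝ) (N₀ : ℕ), 0 < δ ∧ ∀ N ≥ N₀, ∀ m : ℕ, ∀ F : Finset ℕ,
    (∀ n ∈ F, n ≤ N ∧ Admissible m n ∧
      (SolN 5 m n = ∅ ∨ (12 * m ≤ n ∧ ((SolN 5 m n).card : ℝ) < (n : ℝ) ^ (1 - ε)))) →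
    (F.card : ℝ) ≤ (N : ℝ) ^ (1 - δ) ∧ (m : ℝ) * F.card ≤ N * Real.log N ^ C

end Pool.Agent.MV5
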