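import Pool.Agent.MV5.StC
import Pool.Agent.MV5.StD

set_option autoImplicit false

/-!
# MV5, module Bk: the block estimate (helper77)
-/

namespace Pool.Agent.MV5

open Finset Filter
open Pool.Agent.GBQ (ee lam nd Admissible)
open Pool.Agent.MVX (Chr tent Bm Um prm Win GP)
open Pool.Agent.LIN (PP pz Dens)
open Pool.Agent.MT (IsWt)
open Pool.Agent.MVII (TT QQ HH H0 cp cs gp GQ ar PL PM NB BI Bc Md fj rr Per mn wq Sum4 Blk loc
  SolY SolN)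

/-- powers of `X` get large -/
theorem bk_large {e : ℝ} (he : 0 < e) (B : ℝ) : ∀ᶠ X : ℕ in atTop, B ≤ (X : ℝ) ^ e :=
  ((tendsto_rpow_atTop he).comp tendsto_natCast_atTop_atTop).eventually_ge_atTop B

/-- the numerical part -/
theorem bk_num {δ x c : ℝ} (hx : 1 ≤ x) (h16 : 16 ≤ x ^ (δ / 1100)) (hδ : 0 < δ)
    (h : c * ((x ^ (1 - δ / 150) / 2) ^ 2) ≤
      2 * x ^ (3 - 97 / 100 * δ) + 2 * x ^ (3 - δ / 21)) :
    c ≤ x ^ (1 - δ / 30) := by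
  have hx0 : 0 < x := by linarith
  have h1 : x ^ (3 - 97 / 100 * δ) ≤ x ^ (3 - δ / 21) :=
    Real.rpow_le_rpow_of_exponent_le hx (by linarith)
  have h2 : (x ^ (1 - δ / 150)) ^ 2 = x ^ (2 - δ / 75) := by
    rw [← Real.rpow_natCast, ← Real.rpow_mul hx0.le]
    congr 1
    push_cast
    ring
  have h3 : x ^ (3 - δ / 21) = x ^ (2 - δ / 75) * x ^ (1 - 6 / 175 * δ) := by
    rw [← Real.rpow_add hx0]
    congr 1
    ring
  have h4 : 0 < x ^ (2 - δ / 75) := Real.rpow_pos_of_pos hx0 _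
  have h5 : 0 < x ^ (1 - 6 / 175 * δ) := Real.rpow_pos_of_pos hx0 _
  have h6 : c ≤ 16 * x ^ (1 - 6 / 175 * δ) := by
    have e : (x ^ (1 - δ / 150) / 2) ^ 2 = x ^ (2 - δ / 75) / 4 := by
      rw [div_pow, h2]
      norm_num
    rw [e] at h
    have h7 : c * x ^ (2 - δ / 75) ≤ 16 * x ^ (1 - 6 / 175 * δ) * x ^ (2 - δ / 75) := by
      have : c * (x ^ (2 - δ / 75) / 4) ≤ 4 * (x ^ (2 - δ / 75) * x ^ (1 - 6 / 175 * δ)) := by
        rw [← h3]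
        linarith
      linarith
    exact le_of_mul_le_mul_right h7 h4
  have h8 : x ^ (1 - δ / 30) = x ^ (1 / 1050 * δ) * x ^ (1 - 6 / 175 * δ) := by
    rw [← Real.rpow_add hx0]
    congr 1
    ring
  have h9 : x ^ (δ / 1100) ≤ x ^ (1 / 1050 * δ) :=
    Real.rpow_le_rpow_of_exponent_le hx (by linarith)
  rw [h8]
  refine h6.trans ?_
  exact mul_le_mul_of_nonneg_right (h16.trans h9) h5.le

/-- the level of the sieve -/
theorem bk_level {δ : ℝ} {X m q₁ : ℕ} (hX : (1 : ℝ) ≤ X) (hδ0 : 0 < δ) (hq : q₁ ≤ TT δ X)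
    (g : (2 : ℝ) ≤ (X : ℝ) ^ (1 / 1000 - δ)) :
    (q₁ : ℝ) * (KK m X : ℝ) ^ (49 / 100 : ℝ) ≤ DD X := by
  have hX0 : (0 : ℝ) < X := by linarith
  have h1 : (q₁ : ℝ) ≤ (X : ℝ) ^ δ := by
    have h2 : (q₁ : ℝ) ≤ (TT δ X : ℕ) := by exact_mod_cast hq
    exact h2.trans (Nat.floor_le (by positivity))
  have h2 : (KK m X : ℝ) ≤ X := by
    have : KK m X ≤ X := Nat.div_le_self _ _
    exact_mod_cast this
  have h3 : (KK m X : ℝ) ^ (49 / 100 : ℝ) ≤ (X : ℝ) ^ (49 / 100 : ℝ) :=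
    Real.rpow_le_rpow (Nat.cast_nonneg _) h2 (by norm_num)
  have h4 : (q₁ : ℝ) * (KK m X : ℝ) ^ (49 / 100 : ℝ) ≤ (X : ℝ) ^ (δ + 49 / 100) := by
    rw [Real.rpow_add hX0]
    exact mul_le_mul h1 h3 (by positivity) (by positivity)
  have h5 : (X : ℝ) ^ (491 / 1000 : ℝ) = (X : ℝ) ^ (1 / 1000 - δ) * (X : ℝ) ^ (δ + 49 / 100) := by
    rw [← Real.rpow_add hX0]
    congr 1
    ring
  have h6 : (1 : ℝ) ≤ (X : ℝ) ^ (δ + 49 / 100) := Real.one_le_rpow hX (by linarith)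
  have h7 := Nat.sub_one_lt_floor ((X : ℝ) ^ (491 / 1000 : ℝ))
  have h8 : 2 * (X : ℝ) ^ (δ + 49 / 100) ≤ (X : ℝ) ^ (1 / 1000 - δ) * (X : ℝ) ^ (δ + 49 / 100) :=
    mul_le_mul_of_nonneg_right g (by linarith)
  unfold DD
  rw [← h5] at h8
  linarith

/-- **Bk** -/
theorem thm_Bk (h1 : St_Mn) (h2 : St_Up) (h3 : St_Sw) : St_Bk := by
  intro η hη c₀ δ₀ η₀ C κ δ ε hc₀ hδ₀ hδ₀' hη₀ hC hκ hκ' hCκ hδ hδ' hδε hsv hdat herr
  obtain ⟨K₀, hK₀⟩ := eventually_atTop.1 hsv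
  have hε : 0 < ε / 2 := by linarith
  filter_upwards [hdat, herr, h1 η hη c₀ δ₀ η₀ C κ δ hc₀ hδ₀ hδ₀' hη₀ hC hκ hκ' hCκ hδ hδ',
    h2 η hη c₀ δ₀ η₀ C (ε / 2) hC hε,
    eventually_ge_atTop 1,
    bk_large (show (0 : ℝ) < 1 / 1000 - δ by linarith) 2,
    bk_large (show (0 : ℝ) < 1 - δ / 1000 by linarith) (8 * (max K₀ 1 : ℕ)),
    bk_large (show (0 : ℝ) < 1 / 10 - δ / 150 by linarith) 4,
    bk_large (show (0 : ℝ) < 37 / 75 * δ by linarith) 4,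
    bk_large (show (0 : ℝ) < δ / 1100 by linarith) 16]
    with X hdat hE hMn hUp hX1 g1 g2 g3 g4 g5
  intro m hm hmX F hF
  obtain ⟨q₁, χ₁, U, l, hD⟩ := hdat
  have hX : (1 : ℝ) ≤ X := by exact_mod_cast hX1
  have hX0 : (0 : ℝ) < X := by linarith
  -- the length
  have hK : max K₀ 1 ≤ KK m X := by
    unfold KK
    rw [Nat.le_div_iff_mul_le (by omega)]
    have h5 : ((max K₀ 1 : ℕ) : ℝ) * (8 * m) ≤ X := by
      calc ((max K₀ 1 : ℕ) : ℝ) * (8 * m) = (8 * (max K₀ 1 : ℕ)) * (m : ℝ) := by ring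
        _ ≤ (X : ℝ) ^ (1 - δ / 1000) * (X : ℝ) ^ (δ / 1000) :=
            mul_le_mul g2 hmX (Nat.cast_nonneg _) (by positivity)
        _ = X := by
            rw [← Real.rpow_add hX0]
            have : 1 - δ / 1000 + δ / 1000 = 1 := by ring
            rw [this, Real.rpow_one]
    exact_mod_cast h5
  obtain ⟨c, cu, hcu⟩ := hK₀ (KK m X) ((le_max_left _ _).trans hK)
  have hlev := bk_level (m := m) hX hδ hD.cond.2 g1
  obtain ⟨s1, -, -⟩ := h3 (KK m X) (DD X) q₁ c₀ δ₀ η₀ C c cu hD.cond.1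
    ((le_max_right _ _).trans hK) hC.le hcu hlev
  have hblk : ∀ n ∈ F, Blk X m n := fun n hn => (hF n hn).1
  obtain ⟨i1, i2⟩ := hE hD.sum m (ct q₁ c) hm hmX s1 F hblk
  have hm10 : (m : ℝ) ≤ (X : ℝ) ^ (1 / 10 : ℝ) :=
    hmX.trans (Real.rpow_le_rpow_of_exponent_le hX (by linarith))
  have hlow : ∀ n ∈ F, ((X : ℝ) ^ (1 - δ / 150) / 2) ^ 2 ≤
      2 * (R0 η m (KK m X) (DD X) (ct q₁ c) n - R1 η δ X m (KK m X) (DD X) (ct q₁ c) n) ^ 2 +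
        2 * (R1 η δ X m (KK m X) (DD X) (ct q₁ c) n -
          R2 η δ X m (KK m X) (DD X) (ct q₁ c) n) ^ 2 := by
    intro n hn
    obtain ⟨b1, b2, b3, b4⟩ := hF n hn
    have j1 := hUp m q₁ c cu hm hm10 hD.cond.1 hlev hcu n b1
    have j2 := hMn q₁ χ₁ U l hD m c cu hm hmX hcu n b1 b2 b3
    set r0 := R0 η m (KK m X) (DD X) (ct q₁ c) n
    set r1 := R1 η δ X m (KK m X) (DD X) (ct q₁ c) n
    set r2 := R2 η δ X m (KK m X) (DD X) (ct q₁ c) n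
    have j9 : ((SolY 5 m n).card : ℝ) * (X : ℝ) ^ (ε / 2) ≤ (X : ℝ) ^ (1 - δ / 150) / 4 := by
      have j10 : ((SolY 5 m n).card : ℝ) * (X : ℝ) ^ (ε / 2) ≤ (X : ℝ) ^ (1 - ε / 2) := by
        refine (mul_le_mul_of_nonneg_right b4 (Real.rpow_nonneg hX0.le _)).trans (le_of_eq ?_)
        rw [← Real.rpow_add hX0]
        congr 1
        ring
      have j11 : (X : ℝ) ^ (1 - ε / 2) ≤ (X : ℝ) ^ (1 - δ / 2) :=
        Real.rpow_le_rpow_of_exponent_le hX (by linarith)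
      have j12 : (X : ℝ) ^ (1 - δ / 150) =
          (X : ℝ) ^ (37 / 75 * δ) * (X : ℝ) ^ (1 - δ / 2) := by
        rw [← Real.rpow_add hX0]
        congr 1
        ring
      have j13 : (0 : ℝ) < (X : ℝ) ^ (1 - δ / 2) := Real.rpow_pos_of_pos hX0 _
      rw [j12]
      nlinarith
    have j3 : (X : ℝ) ^ (9 / 10 : ℝ) ≤ (X : ℝ) ^ (1 - δ / 150) / 4 := by
      have j4 : (X : ℝ) ^ (1 - δ / 150) =
          (X : ℝ) ^ (1 / 10 - δ / 150) * (X : ℝ) ^ (9 / 10 : ℝ) := by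
        rw [← Real.rpow_add hX0]
        congr 1
        ring
      have j5 : (0 : ℝ) < (X : ℝ) ^ (9 / 10 : ℝ) := Real.rpow_pos_of_pos hX0 _
      rw [j4]
      nlinarith
    have j6 : (0 : ℝ) < (X : ℝ) ^ (1 - δ / 150) := Real.rpow_pos_of_pos hX0 _
    have j7 : (X : ℝ) ^ (1 - δ / 150) / 2 ≤ r2 - r0 := by linarith
    have j8 := pow_le_pow_left₀ (by positivity) j7 2
    nlinarith [sq_nonneg ((r0 - r1) - (r1 - r2))]
  have hsum : (F.card : ℝ) * (((X : ℝ) ^ (1 - δ / 150) / 2) ^ 2) ≤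
      2 * (X : ℝ) ^ (3 - 97 / 100 * δ) + 2 * (X : ℝ) ^ (3 - δ / 21) := by
    have k1 := Finset.sum_le_sum hlow
    rw [Finset.sum_const, nsmul_eq_mul, Finset.sum_add_distrib, ← Finset.mul_sum,
      ← Finset.mul_sum] at k1
    linarith
  exact bk_num hX g5 hδ hsum

end Pool.Agent.MV5
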