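import Pool.Agent.MV5.StB
import Pool.Agent.MVII.Mt
import Pool.Agent.MVII.Wi
import Pool.Agent.GBQ.Basic

set_option autoImplicit false

/-!
# MV5 [Bp]: the model in a progression (helper28)
-/

namespace Pool.Agent.MV5

open Finset Filter
open Pool.Agent.GBQ (ee lam nd Admissible)
open Pool.Agent.MVX (Chr tent Bm Um prm Win GP)
open Pool.Agent.MVII (cp cs ar Per mn wi_cs_le wi_cs_per)

/-- one component -/
noncomputable def bp_F (d : ℕ) (ν : ℤ) (q : ℕ) (b : ℤ) {r : ℕ} (χ : DirichletCharacter ℂ r)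
    (k : ℕ) (y : ℤ) : ℂ :=
  (starRingEnd ℂ) (χ (y : ZMod r)) * ((cs k y : ℝ) : ℂ) * Pd d ν q b y

/-- the coefficient of a component -/
noncomputable def bp_a (r k : ℕ) : ℂ :=
  ((r : ℂ) / (r.totient : ℂ)) * (((ArithmeticFunction.moebius k : ℤ) : ℂ) / (k.totient : ℂ))

theorem bp_Pd_norm (d : ℕ) (ν : ℤ) (q : ℕ) (b y : ℤ) : ‖Pd d ν q b y‖ ≤ 1 := by
  unfold Pd
  split_ifs
  · exact (Pool.Agent.GBQ.ee_norm _).le
  · rw [norm_zero]
    exact zero_le_one

theorem bp_Pd_per (d : ℕ) (ν : ℤ) (q : ℕ) (b : ℤ) (hq : 1 ≤ q) (M : ℕ) (h1 : d ∣ M)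
    (h2 : q ∣ M) (y : ℤ) : Pd d ν q b (y + M) = Pd d ν q b y := by
  have e1 : ((d : ℤ) ∣ y + M - ν) ↔ (d : ℤ) ∣ y - ν := by
    rw [show y + (M : ℤ) - ν = (y - ν) + M by ring]
    exact dvd_add_left (Int.natCast_dvd_natCast.2 h1)
  obtain ⟨e, rfl⟩ := h2
  have hq0 : (q : ℝ) ≠ 0 := by
    have : q ≠ 0 := by omega
    exact_mod_cast this
  have e2 : ee ((b : ℝ) * ((y + ((q * e : ℕ) : ℤ) : ℤ) : ℝ) / q) = ee ((b : ℝ) * (y : ℝ) / q) := by
    rw [← Pool.Agent.GBQ.ee_add_int ((b : ℝ) * (y : ℝ) / q) (b * e)]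
    congr 1
    push_cast
    field_simp
  unfold Pd
  simp only [e1, e2]

theorem bp_F_norm (d : ℕ) (ν : ℤ) (q : ℕ) (b : ℤ) {r : ℕ} (χ : DirichletCharacter ℂ r)
    {k : ℕ} (hk : 1 ≤ k) (y : ℤ) : ‖bp_F d ν q b χ k y‖ ≤ k.totient := by
  unfold bp_F
  rw [norm_mul, norm_mul, RCLike.norm_conj, Complex.norm_real, Real.norm_eq_abs]
  calc ‖χ (y : ZMod r)‖ * |cs k y| * ‖Pd d ν q b y‖ ≤ 1 * (k.totient : ℝ) * 1 := by
        refine mul_le_mul (mul_le_mul (χ.norm_le_one _) (wi_cs_le hk y) (abs_nonneg _)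
          zero_le_one) (bp_Pd_norm d ν q b y) (norm_nonneg _) (by positivity)
    _ = k.totient := by ring

theorem bp_F_per (d : ℕ) (ν : ℤ) (q : ℕ) (b : ℤ) {r : ℕ} (χ : DirichletCharacter ℂ r) (k : ℕ)
    (hq : 1 ≤ q) (M : ℕ) (h1 : d ∣ M) (h2 : q ∣ M) (h3 : r ∣ M) (h4 : k ∣ M) :
    Per M (bp_F d ν q b χ k) := by
  intro y
  unfold bp_F
  rw [bp_Pd_per d ν q b hq M h1 h2]
  have e1 : ((y + (M : ℤ) : ℤ) : ZMod r) = (y : ZMod r) := by
    have : (M : ZMod r) = 0 := (ZMod.natCast_eq_zero_iff _ _).2 h3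
    push_cast
    rw [this, add_zero]
  have e2 : cs k (y + M) = cs k y := by
    obtain ⟨e, rfl⟩ := h4
    have := wi_cs_per (k := k) y e
    rw [← this]
    congr 1
  rw [e1, e2]

theorem bp_tot {k : ℕ} (hk : Squarefree k) : (k : ℝ) ≤ 2 ^ k.primeFactors.card * k.totient := by
  have h1 := Nat.totient_mul_prod_primeFactors k
  rw [Nat.prod_primeFactors_of_squarefree hk, mul_comm] at h1
  have h2 : k.totient = ∏ p ∈ k.primeFactors, (p - 1) :=
    Nat.eq_of_mul_eq_mul_left (Nat.pos_of_ne_zero hk.ne_zero) h1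
  have h3 : k ≤ 2 ^ k.primeFactors.card * k.totient := by
    calc k = ∏ p ∈ k.primeFactors, p := (Nat.prod_primeFactors_of_squarefree hk).symm
      _ ≤ ∏ p ∈ k.primeFactors, (2 * (p - 1)) := by
          refine prod_le_prod' fun p hp => ?_
          have := (Nat.prime_of_mem_primeFactors hp).two_le
          omega
      _ = 2 ^ k.primeFactors.card * k.totient := by
          rw [prod_mul_distrib, prod_const, h2]
  exact_mod_cast h3

theorem bp_sum4 (l : ℕ) (S : Finset ℕ) (hS : ∀ k ∈ S, k ∣ l ∧ Squarefree k) (hl : l ≠ 0) :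
    ∑ k ∈ S, (4 : ℝ) ^ k.primeFactors.card ≤ 5 ^ l.primeFactors.card := by
  have hinj : Set.InjOn (fun k : ℕ => k.primeFactors) (S : Set ℕ) := by
    intro x hx y hy hxy
    have h1 := Nat.prod_primeFactors_of_squarefree (hS x hx).2
    have h2 := Nat.prod_primeFactors_of_squarefree (hS y hy).2
    have h3 : x.primeFactors = y.primeFactors := hxy
    rw [← h1, ← h2, h3]
  have h4 : ∑ k ∈ S, (4 : ℝ) ^ k.primeFactors.card =
      ∑ T ∈ S.image (fun k : ℕ => k.primeFactors), (4 : ℝ) ^ T.card := (sum_image (f := fun T : Finset ℕ => (4 : ℝ) ^ T.card) hinj).symm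
  rw [h4]
  calc ∑ T ∈ S.image (fun k : ℕ => k.primeFactors), (4 : ℝ) ^ T.card
      ≤ ∑ T ∈ l.primeFactors.powerset, (4 : ℝ) ^ T.card := by
        refine sum_le_sum_of_subset_of_nonneg ?_ fun T _ _ => by positivity
        intro T hT
        rw [mem_image] at hT
        obtain ⟨k, hk, rfl⟩ := hT
        rw [mem_powerset]
        exact Nat.primeFactors_mono (hS k hk).1 hl
    _ = ∑ T ∈ l.primeFactors.powerset, (4 : ℝ) ^ T.card * 1 ^ (l.primeFactors.card - T.card) := by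
        simp
    _ = (4 + 1) ^ l.primeFactors.card := Finset.sum_pow_mul_eq_add_pow 4 1 _
    _ = 5 ^ l.primeFactors.card := by norm_num

theorem bp_ar (Q r : ℕ) (y : ℤ) : ((ar Q r y : ℝ) : ℂ) =
    ∑ k ∈ (Icc 1 (Q / r)).filter (fun k => r.Coprime k ∧ Squarefree k),
      bp_a r k * ((cs k y : ℝ) : ℂ) := by
  have h1 : ((ar Q r y : ℝ) : ℂ) = ∑ k ∈ (Icc 1 (Q / r)).filter (fun k => r.Coprime k),
      bp_a r k * ((cs k y : ℝ) : ℂ) := by
    unfold ar bp_a
    push_cast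
    rw [mul_sum]
    exact sum_congr rfl fun k _ => by ring
  rw [h1]
  symm
  refine sum_subset ?_ ?_
  · intro k hk
    rw [mem_filter] at hk ⊢
    exact ⟨hk.1, hk.2.1⟩
  · intro k hk hk2
    rw [mem_filter] at hk hk2
    have h2 : ¬ Squarefree k := fun h => hk2 ⟨hk.1, hk.2, h⟩
    unfold bp_a
    rw [ArithmeticFunction.moebius_eq_zero_of_not_squarefree h2]
    simp

theorem bp_a_norm {r k : ℕ} (hr : 1 ≤ r) : ‖bp_a r k‖ ≤ r / k.totient := by
  have h1 : (1 : ℝ) ≤ r.totient := by exact_mod_cast Nat.totient_pos.mpr hr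
  have h4 : |((ArithmeticFunction.moebius k : ℤ) : ℝ)| ≤ 1 := by
    exact_mod_cast ArithmeticFunction.abs_moebius_le_one
  unfold bp_a
  rw [norm_mul, norm_div, norm_div, Complex.norm_natCast, Complex.norm_natCast,
    Complex.norm_natCast, Complex.norm_intCast]
  calc (r : ℝ) / r.totient * (|((ArithmeticFunction.moebius k : ℤ) : ℝ)| / k.totient)
      ≤ r * (1 / k.totient) := by
        refine mul_le_mul (div_le_self (by positivity) h1) ?_ (by positivity) (by positivity)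
        exact div_le_div_of_nonneg_right h4 (by positivity)
    _ = r / k.totient := by ring

/-- BP. -/
theorem thm_Bp (h1 : St_Ab) (h2 : St_Mk) (h3 : St_Om) : St_Bp := by
  classical
  intro Q d q r N ν b G V A hdsq hd2 hdν hq1 hqQ hr1 hrQ hV hA χ hχ
  have hd1 : 1 ≤ d := Nat.pos_of_ne_zero hdsq.ne_zero
  have hQ1 : 1 ≤ Q := hq1.trans hqQ
  have hV0 : 0 ≤ V := le_trans (add_nonneg (norm_nonneg _) (sum_nonneg fun _ _ => norm_nonneg _)) hV
  obtain ⟨K, hK⟩ : ∃ K : Finset ℕ,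
      K = (Icc 1 (Q / r)).filter (fun k => r.Coprime k ∧ Squarefree k) := ⟨_, rfl⟩
  obtain ⟨l, hl⟩ : ∃ l : ℕ, l = Nat.lcm d q := ⟨_, rfl⟩
  have hl0 : l ≠ 0 := by
    rw [hl]
    exact Nat.lcm_ne_zero (by omega) (by omega)
  obtain ⟨S, hS⟩ : ∃ S : ℂ, S = ∑ y ∈ range N, G y := ⟨_, rfl⟩
  obtain ⟨M, hM⟩ : ∃ M : ℕ, M = d * q * r * Q.factorial := ⟨_, rfl⟩
  have hM1 : 1 ≤ M := by
    rw [hM]
    exact Nat.mul_pos (Nat.mul_pos (Nat.mul_pos hd1 hq1) hr1) (Nat.factorial_pos Q)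
  have hdM : d ∣ M := by
    rw [hM]
    exact ((Dvd.intro _ rfl).mul_right _).mul_right _
  have hqM : q ∣ M := by
    rw [hM]
    exact ((Dvd.intro_left _ rfl).mul_right _).mul_right _
  have hrM : r ∣ M := by
    rw [hM]
    exact (Dvd.intro_left _ rfl).mul_right _
  have hkM : ∀ k ∈ K, k ∣ M := by
    intro k hk
    rw [hK, mem_filter, mem_Icc] at hk
    rw [hM]
    exact (Nat.dvd_factorial (by omega) (hk.1.2.trans (Nat.div_le_self _ _))).mul_left _
  have hlM : l ∣ M := by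
    rw [hl]
    exact Nat.lcm_dvd hdM hqM
  -- the sum as a sum over the components
  have hexp : ∑ y ∈ range N, G y * ((starRingEnd ℂ) (χ (y : ZMod r)) *
      ((ar Q r (y : ℤ) : ℝ) : ℂ)) * Pd d ν q b (y : ℤ) =
      ∑ k ∈ K, bp_a r k * ∑ y ∈ range N, G y * bp_F d ν q b χ k (y : ℤ) := by
    have e1 : ∀ y ∈ range N, G y * ((starRingEnd ℂ) (χ (y : ZMod r)) *
        ((ar Q r (y : ℤ) : ℝ) : ℂ)) * Pd d ν q b (y : ℤ) =
        ∑ k ∈ K, bp_a r k * (G y * bp_F d ν q b χ k (y : ℤ)) := by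
      intro y _
      rw [bp_ar, ← hK, mul_sum, mul_sum, sum_mul]
      refine sum_congr rfl fun k _ => ?_
      unfold bp_F
      rw [Int.cast_natCast]
      ring
    rw [sum_congr rfl e1, sum_comm]
    exact sum_congr rfl fun k _ => (mul_sum _ _ _).symm
  -- Abel summation
  have hab : ∀ k ∈ K, ‖∑ y ∈ range N, G y * bp_F d ν q b χ k (y : ℤ) -
      mn M (bp_F d ν q b χ k) * S‖ ≤ 2 * ((d * q * r * k : ℕ) : ℝ) * k.totient * V := by
    intro k hk
    have hk' := hk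
    rw [hK, mem_filter, mem_Icc] at hk'
    have hk1 : 1 ≤ k := hk'.1.1
    have hm1 : 1 ≤ d * q * r * k := Nat.mul_pos (Nat.mul_pos (Nat.mul_pos hd1 hq1) hr1) hk1
    have p1 : Per (d * q * r * k) (bp_F d ν q b χ k) :=
      bp_F_per d ν q b χ k hq1 _ (((Dvd.intro _ rfl).mul_right _).mul_right _)
        (((Dvd.intro_left _ rfl).mul_right _).mul_right _)
        ((Dvd.intro_left _ rfl).mul_right _) (Dvd.intro_left _ rfl)
    have p2 : Per M (bp_F d ν q b χ k) := bp_F_per d ν q b χ k hq1 M hdM hqM hrM (hkM k hk)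
    have e1 : mn M (bp_F d ν q b χ k) = mn (d * q * r * k) (bp_F d ν q b χ k) :=
      Pool.Agent.MVII.thm_Mt.1 _ _ _ hM1 hm1 p2 p1
    rw [e1, hS]
    refine (h1 (d * q * r * k) N (bp_F d ν q b χ k) G k.totient hm1 p1
      (bp_F_norm d ν q b χ hk1)).trans ?_
    exact mul_le_mul_of_nonneg_left hV (by positivity)
  -- the means
  have hzero : ∀ k ∈ K, ¬ k ∣ l → mn M (bp_F d ν q b χ k) = 0 := by
    intro k hk hkl
    have hk' := hk
    rw [hK, mem_filter, mem_Icc] at hk'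
    refine (h2 M d q k r ν b χ hM1 hdM hqM (hkM k hk) hrM hdsq hd2 hdν hq1 hk'.2.2
      hk'.2.1.symm).1 ?_
    by_contra hno
    refine hkl ?_
    rw [← Nat.prod_primeFactors_of_squarefree hk'.2.2]
    refine Finset.prod_primes_dvd _ (fun p hp => (Nat.prime_of_mem_primeFactors hp).prime)
      fun p hp => ?_
    by_contra hpl
    exact hno ⟨p, Nat.prime_of_mem_primeFactors hp, Nat.dvd_of_mem_primeFactors hp, by
      rw [← hl]
      exact hpl⟩
  obtain ⟨L, hL⟩ : ∃ L : Finset ℕ,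
      L = l.divisors.filter (fun k => Squarefree k ∧ r.Coprime k) := ⟨_, rfl⟩
  have hE : ∑ k ∈ L, bp_a r k * mn M (bp_F d ν q b χ k) =
      if r ∣ Nat.lcm d q then fh d ν q b ⟨r, χ⟩ else 0 := by
    rw [← h3 M d q r ν b hM1 hdM hqM hrM hd1 hq1 hr1 χ hχ, hL, hl]
    rfl
  have hsplit : ∑ k ∈ K, bp_a r k * mn M (bp_F d ν q b χ k) =
      ∑ k ∈ L.filter (fun k => k ≤ Q / r), bp_a r k * mn M (bp_F d ν q b χ k) := by
    symm
    refine sum_subset ?_ ?_
    · intro k hk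
      rw [hL, mem_filter, mem_filter, Nat.mem_divisors] at hk
      rw [hK, mem_filter, mem_Icc]
      exact ⟨⟨Nat.pos_of_dvd_of_pos hk.1.1.1 (Nat.pos_of_ne_zero hl0), hk.2⟩, hk.1.2.2, hk.1.2.1⟩
    · intro k hk hk2
      have hk' := hk
      rw [hK, mem_filter, mem_Icc] at hk'
      have h5 : ¬ k ∣ l := by
        intro h6
        refine hk2 ?_
        rw [hL, mem_filter, mem_filter, Nat.mem_divisors]
        exact ⟨⟨⟨h6, hl0⟩, hk'.2.2, hk'.2.1⟩, hk'.1.2⟩
      rw [hzero k hk h5, mul_zero]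
  have hdiff : (if r ∣ Nat.lcm d q then fh d ν q b ⟨r, χ⟩ else 0) =
      ∑ k ∈ K, bp_a r k * mn M (bp_F d ν q b χ k) +
      ∑ k ∈ L.filter (fun k => ¬ k ≤ Q / r), bp_a r k * mn M (bp_F d ν q b χ k) := by
    rw [← hE, hsplit]
    exact (sum_filter_add_sum_filter_not L (fun k => k ≤ Q / r) _).symm
  have hd0 : (0 : ℝ) < d := by exact_mod_cast hd1
  have hQ0 : (0 : ℝ) < Q := by exact_mod_cast hQ1
  have hr0 : (0 : ℝ) < r := by exact_mod_cast hr1
  have htail : ‖∑ k ∈ L.filter (fun k => ¬ k ≤ Q / r), bp_a r k * mn M (bp_F d ν q b χ k)‖ ≤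
      (r : ℝ) ^ 2 * 5 ^ l.primeFactors.card / (Q * d) := by
    calc ‖∑ k ∈ L.filter (fun k => ¬ k ≤ Q / r), bp_a r k * mn M (bp_F d ν q b χ k)‖
        ≤ ∑ k ∈ L.filter (fun k => ¬ k ≤ Q / r), ‖bp_a r k * mn M (bp_F d ν q b χ k)‖ :=
          norm_sum_le _ _
      _ ≤ ∑ k ∈ L.filter (fun k => ¬ k ≤ Q / r),
          (r : ℝ) ^ 2 / (Q * d) * 4 ^ k.primeFactors.card := by
          refine sum_le_sum fun k hk => ?_
          rw [hL, mem_filter, mem_filter, Nat.mem_divisors, not_le] at hk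
          obtain ⟨⟨⟨hkl, -⟩, hksq, hkr⟩, hkQ⟩ := hk
          have hk1 : 1 ≤ k := Nat.pos_of_dvd_of_pos hkl (Nat.pos_of_ne_zero hl0)
          have hk0 : (0 : ℝ) < k := by exact_mod_cast hk1
          have ht0 : (0 : ℝ) < k.totient := by exact_mod_cast Nat.totient_pos.mpr hk1
          have m1 := (h2 M d q k r ν b χ hM1 hdM hqM (hkl.trans hlM) hrM hdsq hd2 hdν hq1 hksq
            hkr.symm).2
          have m2 : ‖mn M (bp_F d ν q b χ k)‖ ≤ 2 ^ k.primeFactors.card / d := m1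
          have m3 := bp_tot hksq
          have m4 : (Q : ℝ) ≤ r * k := by
            have h7 : Q < k * r := (Nat.div_lt_iff_lt_mul (by omega)).1 hkQ
            have h8 : Q ≤ r * k := by
              rw [mul_comm]
              exact h7.le
            exact_mod_cast h8
          have m5 : (r : ℝ) / k.totient ≤ r ^ 2 / Q * 2 ^ k.primeFactors.card := by
            rw [div_mul_eq_mul_div, div_le_div_iff₀ ht0 hQ0]
            calc (r : ℝ) * Q ≤ r * (r * k) := mul_le_mul_of_nonneg_left m4 hr0.le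
              _ ≤ r * (r * (2 ^ k.primeFactors.card * k.totient)) := by gcongr
              _ = r ^ 2 * 2 ^ k.primeFactors.card * k.totient := by ring
          rw [norm_mul]
          calc ‖bp_a r k‖ * ‖mn M (bp_F d ν q b χ k)‖
              ≤ (r ^ 2 / Q * 2 ^ k.primeFactors.card) * (2 ^ k.primeFactors.card / d) :=
                mul_le_mul ((bp_a_norm hr1).trans m5) m2 (norm_nonneg _) (by positivity)
            _ = (r : ℝ) ^ 2 / (Q * d) * 4 ^ k.primeFactors.card := by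
                have h9 : (4 : ℝ) ^ k.primeFactors.card =
                    2 ^ k.primeFactors.card * 2 ^ k.primeFactors.card := by
                  rw [← mul_pow]
                  norm_num
                rw [h9]
                field_simp
      _ = (r : ℝ) ^ 2 / (Q * d) * ∑ k ∈ L.filter (fun k => ¬ k ≤ Q / r),
          (4 : ℝ) ^ k.primeFactors.card := (mul_sum _ _ _).symm
      _ ≤ (r : ℝ) ^ 2 / (Q * d) * 5 ^ l.primeFactors.card := by
          refine mul_le_mul_of_nonneg_left (bp_sum4 l _ ?_ hl0) (by positivity)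
          intro k hk
          rw [hL, mem_filter, mem_filter, Nat.mem_divisors] at hk
          exact ⟨hk.1.1.1, hk.1.2.1⟩
      _ = (r : ℝ) ^ 2 * 5 ^ l.primeFactors.card / (Q * d) := by ring
  -- the first error
  have hfirst : ‖∑ k ∈ K, bp_a r k * (∑ y ∈ range N, G y * bp_F d ν q b χ k (y : ℤ) -
      mn M (bp_F d ν q b χ k) * S)‖ ≤ 2 * d * (Q : ℝ) ^ 3 * V := by
    calc ‖∑ k ∈ K, bp_a r k * (∑ y ∈ range N, G y * bp_F d ν q b χ k (y : ℤ) -
        mn M (bp_F d ν q b χ k) * S)‖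
        ≤ ∑ k ∈ K, ‖bp_a r k * (∑ y ∈ range N, G y * bp_F d ν q b χ k (y : ℤ) -
          mn M (bp_F d ν q b χ k) * S)‖ := norm_sum_le _ _
      _ ≤ ∑ k ∈ K, 2 * d * (Q : ℝ) ^ 2 * r * V := by
          refine sum_le_sum fun k hk => ?_
          have hk' := hk
          rw [hK, mem_filter, mem_Icc] at hk'
          have ht0 : (0 : ℝ) < k.totient := by exact_mod_cast Nat.totient_pos.mpr hk'.1.1
          have m1 : (k : ℝ) * r ≤ Q := by
            have h7 : k * r ≤ Q := (Nat.le_div_iff_mul_le (by omega)).1 hk'.1.2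
            exact_mod_cast h7
          have m2 : (q : ℝ) ≤ Q := by exact_mod_cast hqQ
          rw [norm_mul]
          calc ‖bp_a r k‖ * ‖∑ y ∈ range N, G y * bp_F d ν q b χ k (y : ℤ) -
              mn M (bp_F d ν q b χ k) * S‖
              ≤ (r / k.totient) * (2 * ((d * q * r * k : ℕ) : ℝ) * k.totient * V) :=
                mul_le_mul (bp_a_norm hr1) (hab k hk) (norm_nonneg _) (by positivity)
            _ = 2 * d * q * r * (k * r) * V := by
                push_cast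
                field_simp
            _ ≤ 2 * d * Q * r * Q * V := by gcongr
            _ = 2 * d * (Q : ℝ) ^ 2 * r * V := by ring
      _ = (K.card : ℝ) * (2 * d * (Q : ℝ) ^ 2 * r * V) := by rw [sum_const, nsmul_eq_mul]
      _ ≤ ((Q / r : ℕ) : ℝ) * (2 * d * (Q : ℝ) ^ 2 * r * V) := by
          refine mul_le_mul_of_nonneg_right ?_ (by positivity)
          have h8 : K.card ≤ Q / r := by
            rw [hK]
            refine (card_filter_le _ _).trans ?_
            rw [Nat.card_Icc, Nat.add_sub_cancel]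
          exact_mod_cast h8
      _ = (((Q / r : ℕ) : ℝ) * r) * (2 * d * (Q : ℝ) ^ 2 * V) := by ring
      _ ≤ Q * (2 * d * (Q : ℝ) ^ 2 * V) := by
          refine mul_le_mul_of_nonneg_right ?_ (by positivity)
          have h9 : Q / r * r ≤ Q := Nat.div_mul_le_self Q r
          exact_mod_cast h9
      _ = 2 * d * (Q : ℝ) ^ 3 * V := by ring
  have hSn : ‖S‖ ≤ A := by
    rw [hS]
    exact (norm_sum_le _ _).trans hA
  rw [hexp, ← hS, hdiff]
  have hfin : ∑ k ∈ K, bp_a r k * ∑ y ∈ range N, G y * bp_F d ν q b χ k (y : ℤ) -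
      (∑ k ∈ K, bp_a r k * mn M (bp_F d ν q b χ k) +
        ∑ k ∈ L.filter (fun k => ¬ k ≤ Q / r), bp_a r k * mn M (bp_F d ν q b χ k)) * S =
      ∑ k ∈ K, bp_a r k * (∑ y ∈ range N, G y * bp_F d ν q b χ k (y : ℤ) -
        mn M (bp_F d ν q b χ k) * S) -
      (∑ k ∈ L.filter (fun k => ¬ k ≤ Q / r), bp_a r k * mn M (bp_F d ν q b χ k)) * S := by
    have h10 : ∑ k ∈ K, bp_a r k * (∑ y ∈ range N, G y * bp_F d ν q b χ k (y : ℤ) -
        mn M (bp_F d ν q b χ k) * S) =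
        ∑ k ∈ K, bp_a r k * ∑ y ∈ range N, G y * bp_F d ν q b χ k (y : ℤ) -
        (∑ k ∈ K, bp_a r k * mn M (bp_F d ν q b χ k)) * S := by
      rw [sum_mul, ← sum_sub_distrib]
      exact sum_congr rfl fun k _ => by ring
    rw [h10]
    ring
  rw [hfin]
  refine (norm_sub_le _ _).trans (add_le_add hfirst ?_)
  rw [norm_mul, ← hl]
  exact mul_le_mul htail hSn (norm_nonneg _) (by positivity)

end Pool.Agent.MV5
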