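import Pool.Agent.MV5.StB
import Pool.Agent.MVII.Bl
import Pool.Agent.MT.Wt

set_option autoImplicit false

/-!
# MV5, module Bs: sizes of the local means
-/

namespace Pool.Agent.MV5

open Finset Filter
open Pool.Agent.GBQ (ee lam nd Admissible)
open Pool.Agent.MVX (Chr tent Bm Um prm Win GP)
open Pool.Agent.MT (IsWt)
open Pool.Agent.MVII (Bc bl_tent_nonneg bl_tent_zero bl_tent_lip bl_mass bl_coef bl_lam_le bl_four)

theorem bs_coef (η : ℝ → ℝ) (hη : IsWt η) (c : Chr) (n : ℕ) (t : ℝ) :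
    ‖((lam n : ℝ) : ℂ) * (c.2 (n : ZMod c.1) * ((η t : ℝ) : ℂ))‖ ≤ lam n := by
  rw [← mul_assoc, norm_mul, Complex.norm_real, Real.norm_eq_abs, abs_of_nonneg (hη.nonneg _)]
  have h0 : 0 ≤ lam n := ArithmeticFunction.vonMangoldt_nonneg
  calc _ ≤ lam n * 1 := mul_le_mul (bl_coef c n) (hη.le_one _) (hη.nonneg _) h0
    _ = lam n := mul_one _

theorem bs_one (η : ℝ → ℝ) (h K x : ℕ) (c : Chr) (hη : IsWt η) (hh : 1 ≤ h) (_ : 1 ≤ K) :
    ‖BY η h K x c‖ ≤ Real.log K := by
  have hh' : (0 : ℝ) < h := by exact_mod_cast hh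
  have hlog : 0 ≤ Real.log K := Real.log_natCast_nonneg K
  unfold BY
  rw [norm_mul, norm_inv, norm_pow, Complex.norm_natCast]
  have h1 : ‖∑ n ∈ Icc 1 K, ((lam n : ℝ) : ℂ) *
      (c.2 (n : ZMod c.1) * ((η ((n : ℝ) / K) : ℝ) : ℂ)) * ((tent h x n : ℝ) : ℂ)‖ ≤
      Real.log K * (h : ℝ) ^ 2 := by
    calc _ ≤ ∑ n ∈ Icc 1 K, ‖((lam n : ℝ) : ℂ) *
          (c.2 (n : ZMod c.1) * ((η ((n : ℝ) / K) : ℝ) : ℂ)) * ((tent h x n : ℝ) : ℂ)‖ :=
          norm_sum_le _ _
      _ ≤ ∑ n ∈ Icc 1 K, Real.log K * tent h x n := by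
          apply sum_le_sum
          intro n hn
          rw [mem_Icc] at hn
          rw [norm_mul, Complex.norm_real, Real.norm_eq_abs, abs_of_nonneg (bl_tent_nonneg _ _ _)]
          refine mul_le_mul_of_nonneg_right ?_ (bl_tent_nonneg _ _ _)
          refine (bs_coef η hη c n _).trans (bl_lam_le hn.1 ?_)
          exact_mod_cast hn.2
      _ = Real.log K * ∑ n ∈ Icc 1 K, tent h x n := (mul_sum _ _ _).symm
      _ ≤ _ := mul_le_mul_of_nonneg_left (bl_mass h x _) hlog
  calc ((h : ℝ) ^ 2)⁻¹ * _ ≤ ((h : ℝ) ^ 2)⁻¹ * (Real.log K * (h : ℝ) ^ 2) :=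
        mul_le_mul_of_nonneg_left h1 (by positivity)
    _ = Real.log K := by field_simp

theorem bs_two (η : ℝ → ℝ) (h K x : ℕ) (c : Chr) (_ : IsWt η) (hx : K + h ≤ x) :
    BY η h K x c = 0 := by
  unfold BY
  rw [sum_eq_zero, mul_zero]
  intro n hn
  rw [mem_Icc] at hn
  rw [bl_tent_zero (by omega), Complex.ofReal_zero, mul_zero]

theorem bs_three (η : ℝ → ℝ) (h K x : ℕ) (c : Chr) (hη : IsWt η) (hK : 1 ≤ K)
    (hx : 8 * (x + h) ≤ K) : BY η h K x c = 0 := by
  unfold BY
  rw [sum_eq_zero, mul_zero]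
  intro n hn
  rw [mem_Icc] at hn
  by_cases h1 : η ((n : ℝ) / K) = 0
  · rw [h1, Complex.ofReal_zero, mul_zero, mul_zero, zero_mul]
  · have h2 := (hη.supp _ h1).1
    have hK' : (0 : ℝ) < K := by exact_mod_cast hK
    rw [lt_div_iff₀ hK'] at h2
    have h3 : (K : ℝ) < 8 * n := by linarith
    have h4 : K < 8 * n := by exact_mod_cast h3
    rw [bl_tent_zero (by omega), Complex.ofReal_zero, mul_zero]

theorem bs_four (η : ℝ → ℝ) (h K x : ℕ) (c : Chr) (hη : IsWt η) (hh : 1 ≤ h) (_ : 1 ≤ K) :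
    ‖BY η h K (x + 1) c - BY η h K x c‖ ≤ 4 * Real.log K / h := by
  have hh' : (0 : ℝ) < h := by exact_mod_cast hh
  have hlog : 0 ≤ Real.log K := Real.log_natCast_nonneg K
  unfold BY
  rw [← mul_sub, ← sum_sub_distrib, norm_mul, norm_inv, norm_pow, Complex.norm_natCast]
  have h1 : ‖∑ n ∈ Icc 1 K, (((lam n : ℝ) : ℂ) *
      (c.2 (n : ZMod c.1) * ((η ((n : ℝ) / K) : ℝ) : ℂ)) * ((tent h (x + 1) n : ℝ) : ℂ) -
      ((lam n : ℝ) : ℂ) * (c.2 (n : ZMod c.1) * ((η ((n : ℝ) / K) : ℝ) : ℂ)) *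
      ((tent h x n : ℝ) : ℂ))‖ ≤ (4 * h) * Real.log K := by
    calc _ ≤ ∑ n ∈ Icc 1 K, ‖((lam n : ℝ) : ℂ) *
          (c.2 (n : ZMod c.1) * ((η ((n : ℝ) / K) : ℝ) : ℂ)) * ((tent h (x + 1) n : ℝ) : ℂ) -
          ((lam n : ℝ) : ℂ) * (c.2 (n : ZMod c.1) * ((η ((n : ℝ) / K) : ℝ) : ℂ)) *
          ((tent h x n : ℝ) : ℂ)‖ := norm_sum_le _ _
      _ ≤ ∑ n ∈ Icc 1 K, (if n ∈ Ioo (x + 1 - h) (x + 1 + h) ∪ Ioo (x - h) (x + h) then
            Real.log K else 0) := by
          apply sum_le_sum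
          intro n hn
          rw [mem_Icc] at hn
          split_ifs with hc
          · rw [← mul_sub, norm_mul, ← Complex.ofReal_sub, Complex.norm_real, Real.norm_eq_abs]
            have h2 := bl_tent_lip h (x + 1) x n
            have h3 : |((x + 1 : ℕ) : ℝ) - x| = 1 := by
              push_cast
              rw [add_sub_cancel_left, abs_one]
            rw [h3] at h2
            calc _ ≤ Real.log K * 1 := by
                  refine mul_le_mul ((bs_coef η hη c n _).trans (bl_lam_le hn.1 ?_)) h2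
                    (abs_nonneg _) hlog
                  exact_mod_cast hn.2
              _ = Real.log K := mul_one _
          · rw [mem_union, mem_Ioo, mem_Ioo, not_or] at hc
            rw [bl_tent_zero (H := h) (x := x + 1) (n := n) (by omega),
              bl_tent_zero (H := h) (x := x) (n := n) (by omega)]
            simp
      _ = ∑ n ∈ (Icc 1 K).filter
            (fun n => n ∈ Ioo (x + 1 - h) (x + 1 + h) ∪ Ioo (x - h) (x + h)),
            Real.log K := by rw [sum_filter]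
      _ = (((Icc 1 K).filter
            (fun n => n ∈ Ioo (x + 1 - h) (x + 1 + h) ∪ Ioo (x - h) (x + h))).card : ℝ) *
            Real.log K := by rw [sum_const, nsmul_eq_mul]
      _ ≤ _ := by
          refine mul_le_mul_of_nonneg_right ?_ hlog
          have h2 : ((Icc 1 K).filter
              (fun n => n ∈ Ioo (x + 1 - h) (x + 1 + h) ∪ Ioo (x - h) (x + h))).card ≤ 4 * h := by
            calc _ ≤ (Ioo (x + 1 - h) (x + 1 + h) ∪ Ioo (x - h) (x + h)).card := by
                  apply card_le_card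
                  intro n hn
                  exact (mem_filter.1 hn).2
              _ ≤ (Ioo (x + 1 - h) (x + 1 + h)).card + (Ioo (x - h) (x + h)).card :=
                  card_union_le _ _
              _ ≤ 4 * h := by
                  rw [Nat.card_Ioo, Nat.card_Ioo]
                  omega
          exact_mod_cast h2
  calc ((h : ℝ) ^ 2)⁻¹ * _ ≤ ((h : ℝ) ^ 2)⁻¹ * ((4 * h) * Real.log K) :=
        mul_le_mul_of_nonneg_left h1 (by positivity)
    _ = 4 * Real.log K / h := by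
        field_simp

theorem bs_five (η : ℝ → ℝ) (hη : IsWt η) : ∃ C : ℝ, 0 < C ∧
    ∀ (X h K x x' : ℕ) (c : Chr), 1 ≤ h → h ≤ K → K ≤ X →
    x + h ≤ K + 1 → x' ≤ K → ‖BY η h K x c - ((η ((x' : ℝ) / K) : ℝ) : ℂ) * Bc h x' c‖ ≤
      C * (((h : ℝ) + |(x : ℝ) - x'|) / K + |(x : ℝ) - x'| / h) * Real.log (2 * X) := by
  obtain ⟨L, hL, hLip⟩ := Pool.Agent.MT.wt_lipschitz η hη
  refine ⟨L + 4, by linarith, fun X h K x x' c hh hhK hKX hx hx' => ?_⟩
  have hh' : (0 : ℝ) < h := by exact_mod_cast hh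
  have hK' : (0 : ℝ) < K := by exact_mod_cast (by omega : 0 < K)
  have hX' : (1 : ℝ) ≤ X := by exact_mod_cast (by omega : 1 ≤ X)
  have hlog : 0 ≤ Real.log (2 * X) := Real.log_nonneg (by linarith)
  obtain ⟨d, hd⟩ : ∃ d : ℝ, d = |(x : ℝ) - x'| := ⟨_, rfl⟩
  have hd0 : 0 ≤ d := by rw [hd]; exact abs_nonneg _
  obtain ⟨t, ht⟩ : ∃ t : ℝ, t = η ((x' : ℝ) / K) := ⟨_, rfl⟩
  -- the two sums over the same numbers
  have e1 : BY η h K x c = ((h : ℂ) ^ 2)⁻¹ * ∑ n ∈ Icc 1 (K + 1), ((lam n : ℝ) : ℂ) *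
      (c.2 (n : ZMod c.1) * ((η ((n : ℝ) / K) : ℝ) : ℂ)) * ((tent h x n : ℝ) : ℂ) := by
    unfold BY
    congr 1
    apply sum_subset
    · intro n hn
      rw [mem_Icc] at hn ⊢
      omega
    · intro n hn hn'
      rw [mem_Icc] at hn
      rw [mem_Icc] at hn'
      rw [bl_tent_zero (by omega), Complex.ofReal_zero, mul_zero]
  have e2 : Bc h x c = ((h : ℂ) ^ 2)⁻¹ * ∑ n ∈ Icc 1 (K + 1),
      (((lam n : ℝ) : ℂ) * c.2 (n : ZMod c.1)) * ((tent h x n : ℝ) : ℂ) := by
    unfold Bc Bm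
    congr 1
    apply sum_subset
    · intro n hn
      rw [mem_Icc] at hn ⊢
      omega
    · intro n hn hn'
      rw [mem_Icc] at hn
      rw [mem_Icc] at hn'
      rw [bl_tent_zero (by omega), Complex.ofReal_zero, mul_zero]
  have h1 : ‖BY η h K x c - (t : ℂ) * Bc h x c‖ ≤ L * ((h + d) / K) * Real.log (2 * X) := by
    have e3 : BY η h K x c - (t : ℂ) * Bc h x c = ((h : ℂ) ^ 2)⁻¹ * ∑ n ∈ Icc 1 (K + 1),
        (((lam n : ℝ) : ℂ) * c.2 (n : ZMod c.1)) *
          (((η ((n : ℝ) / K) - t : ℝ) : ℂ) * ((tent h x n : ℝ) : ℂ)) := by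
      rw [e1, e2, ← mul_assoc (t : ℂ), mul_comm (t : ℂ), mul_assoc, ← mul_sub, mul_sum,
        ← sum_sub_distrib]
      congr 1
      refine sum_congr rfl fun n _ => ?_
      push_cast
      ring
    rw [e3, norm_mul, norm_inv, norm_pow, Complex.norm_natCast]
    have h2 : ‖∑ n ∈ Icc 1 (K + 1), (((lam n : ℝ) : ℂ) * c.2 (n : ZMod c.1)) *
          (((η ((n : ℝ) / K) - t : ℝ) : ℂ) * ((tent h x n : ℝ) : ℂ))‖ ≤
        (Real.log (2 * X) * (L * ((h + d) / K))) * (h : ℝ) ^ 2 := by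
      calc _ ≤ ∑ n ∈ Icc 1 (K + 1), ‖(((lam n : ℝ) : ℂ) * c.2 (n : ZMod c.1)) *
            (((η ((n : ℝ) / K) - t : ℝ) : ℂ) * ((tent h x n : ℝ) : ℂ))‖ := norm_sum_le _ _
        _ ≤ ∑ n ∈ Icc 1 (K + 1), (Real.log (2 * X) * (L * ((h + d) / K))) * tent h x n := by
            apply sum_le_sum
            intro n hn
            rw [mem_Icc] at hn
            by_cases hc : n + h ≤ x ∨ x + h ≤ n
            · rw [bl_tent_zero hc]
              simp
            · rw [not_or] at hc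
              rw [norm_mul, norm_mul (((η ((n : ℝ) / K) - t : ℝ) : ℂ)), Complex.norm_real,
                Complex.norm_real, Real.norm_eq_abs, Real.norm_eq_abs,
                abs_of_nonneg (bl_tent_nonneg _ _ _), ← mul_assoc]
              refine mul_le_mul_of_nonneg_right ?_ (bl_tent_nonneg _ _ _)
              refine mul_le_mul ((bl_coef c n).trans (bl_lam_le hn.1 ?_)) ?_ (abs_nonneg _) hlog
              · have : n ≤ 2 * X := by omega
                exact_mod_cast this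
              · rw [ht]
                refine (hLip _ _).trans (mul_le_mul_of_nonneg_left ?_ hL.le)
                rw [← sub_div, abs_div, abs_of_pos hK']
                refine div_le_div_of_nonneg_right ?_ hK'.le
                have h3 : |(n : ℝ) - x| ≤ h := by
                  rw [abs_le]
                  have h4 : (x : ℝ) < n + h := by exact_mod_cast (by omega : x < n + h)
                  have h5 : (n : ℝ) < x + h := by exact_mod_cast (by omega : n < x + h)
                  constructor <;> linarith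
                calc |(n : ℝ) - x'| = |((n : ℝ) - x) + (x - x')| := by
                      congr 1
                      ring
                  _ ≤ |(n : ℝ) - x| + |(x : ℝ) - x'| := abs_add_le _ _
                  _ ≤ h + d := by rw [hd]; linarith
        _ = (Real.log (2 * X) * (L * ((h + d) / K))) * ∑ n ∈ Icc 1 (K + 1), tent h x n :=
            (mul_sum _ _ _).symm
        _ ≤ _ := mul_le_mul_of_nonneg_left (bl_mass h x _) (by positivity)
    calc ((h : ℝ) ^ 2)⁻¹ * _ ≤ ((h : ℝ) ^ 2)⁻¹ *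
          ((Real.log (2 * X) * (L * ((h + d) / K))) * (h : ℝ) ^ 2) :=
          mul_le_mul_of_nonneg_left h2 (by positivity)
      _ = L * ((h + d) / K) * Real.log (2 * X) := by field_simp
  have h2 : ‖(t : ℂ) * Bc h x c - (t : ℂ) * Bc h x' c‖ ≤ 4 * d * Real.log (2 * X) / h := by
    rw [← mul_sub, norm_mul, Complex.norm_real, Real.norm_eq_abs, ht,
      abs_of_nonneg (hη.nonneg _)]
    have h3 := bl_four X h x x' c hh (by omega) (by omega) (by omega)
    rw [← hd] at h3
    calc _ ≤ 1 * (4 * d * Real.log (2 * X) / h) :=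
          mul_le_mul (hη.le_one _) h3 (norm_nonneg _) zero_le_one
      _ = _ := one_mul _
  have h3 : BY η h K x c - (t : ℂ) * Bc h x' c = (BY η h K x c - (t : ℂ) * Bc h x c) +
      ((t : ℂ) * Bc h x c - (t : ℂ) * Bc h x' c) := by ring
  rw [← ht, h3, ← hd]
  refine (norm_add_le _ _).trans ((add_le_add h1 h2).trans ?_)
  have h4 : 4 * d * Real.log (2 * X) / h = 4 * (d / h) * Real.log (2 * X) := by ring
  rw [h4, ← add_mul]
  refine mul_le_mul_of_nonneg_right ?_ hlog
  have h5 : 0 ≤ (h + d) / K := by positivity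
  have h6 : 0 ≤ d / h := by positivity
  nlinarith

theorem thm_Bs : St_Bs :=
  ⟨bs_one, bs_two, bs_three, bs_four, bs_five⟩

end Pool.Agent.MV5
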