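import Mathlib
import Pool.Agent.MV5.Defs

set_option autoImplicit false

/-!
# MV5: statements, third part (sieve and local model)
-/

namespace Pool.Agent.MV5

open Finset Filter
open Pool.Agent.GBQ (ee lam nd Admissible)
open Pool.Agent.MVX (Chr tent Bm Um prm Win GP)
open Pool.Agent.LIN (PP pz Dens)
open Pool.Agent.MT (IsWt)
open Pool.Agent.MVII (TT QQ HH H0 cp cs gp GQ ar PL PM NB BI Bc Md fj rr Per mn wq Sum4 Blk loc)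

/-! ### the sieve -/

/-- SG.  The weighted sieve with five prime factors, for general densities, with a majorant.

Proof.  Follow `thm_Sv5` (LIN/Sv5.lean), which uses `LIN.St_SVe` (proved: `LIN.sve`), `LIN.thm_Cv2`, `LIN.thm_Det`; its lemmas
`sv5_*` can be used.  `ε = min (A₀/200) (1/100)`, `δ₀ = min _ (1/20)`, `η₀ = min η (1/1000)`, `w = ⌊K^δ₀⌋₊`, `z = zs K`,
`y = ys K`, `D = z^4`, `N = D K^ε ≤ K^{49/100}`; `cm`: lower weights for `D`, `cp p`: upper weights for `D/p` (`p ∈ P`, the primes in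
`(z, y]`), and in addition `u`: upper weights for `z^3` (`≤ N`).  `b p = (25/34) (1 - log p/log y) ∈ [0, 1]`,
`c d = sv5_c cm cp P b d = cm d - ∑_{p ∈ P, p ∣ d} b p cp p (d/p)` and
`cu d = 2 u d - cm d + ∑_{p ∈ P, p ∣ d} b p cp p (d/p)`.
`supp`, `bound` as `sv5_supp`, `sv5_bound` (`C ≥ 12`).
`abs_le`: with `S = {p ≤ z, p ∣ n}`, `A⁻ = ∑_{T ⊆ S} cm ≤ 1_{S=∅}`, `A⁺ = ∑_{T ⊆ S} u ≥ 1_{S=∅}`, `A_p = ∑_{T ⊆ S} cp p ≥ 0`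
(`sv5_div`): `|A⁻ - ∑_{p ∣ n} b p A_p| ≤ |A⁻| + ∑ b p A_p ≤ 2 A⁺ - A⁻ + ∑ b p A_p` (`|A⁻| ≤ 2 A⁺ - A⁻` as `A⁻ ≤ A⁺`, `A⁺ ≥ 0`).
`det`: as in `thm_Sv5` (if the sum is positive then `S = ∅`, so no prime `≤ z` divides `n`).
`main`: for `g` with `Dens g w y η₀` (so also `Dens g w z η`): `sv5_mainT`, `sv5_ineq` (with `S = ∑_{p ∈ P} g p ≤ log (log y/log z) + 1/1000 ≤
log 3 + 203/1000`: `mert` and the computation in `sv5_num`) give the lower bound with `c₀ = A₀/100`; upper bound: `2 mainT u ≤ 2 V (A₀/3 + ε)`,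
`- mainT cm ≤ 0` (`log 3/4 > 1/200`), `∑ b p g p mainT (cp p) ≤ V (A₀ + 1) · 3`. -/
def St_Sg : Prop := ∃ c₀ δ₀ η₀ C : ℝ, 0 < c₀ ∧ 0 < δ₀ ∧ δ₀ ≤ 1 / 20 ∧ 0 < η₀ ∧ 0 < C ∧
  ∀ᶠ K : ℕ in atTop, ∃ c cu : ℕ → ℝ, IsSv K c₀ δ₀ η₀ C c cu

/-- SW.  The sieve weight with the exceptional modulus.

Proof.  (1) if `ct q₁ c d ≠ 0` then `d` is squarefree and odd, `d = d₁ d₂`, `d₁ = ∏_{p ∣ d, p ∣ q₁} p ∣ q₁`, `c d₂ ≠ 0`, `d₂ ≤ K^{49/100}`.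
(2) `(d₁, d₂) ↦ d₁ d₂`: `SD = ∑_{d₁} μ(d₁) 1_{d₁ ∣ y^2-2} ∑_{d₂, (d₂, 2 q₁) = 1} c d₂ 1_{d₂ ∣ y^2 - 2}` over the `d₁` composed of odd
primes dividing `q₁`; the first sum is `exq q₁ y` (inclusion-exclusion over the odd primes dividing `q₁` and `y^2 - 2`), all
`d₁ d₂ ≤ D`.
(3) with `n' = ∏ p` over the primes `p ∣ |y^2 - 2|`, `p ∤ 2 q₁`: `S1 D q₁ c y = ∑_{d ∣ n'} c d` (`c` lives on squarefree `d ≤ D`), the same for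
`cu`; `IsSv.abs_le`. -/
def St_Sw : Prop := ∀ (K D q₁ : ℕ) (c₀ δ₀ η₀ C : ℝ) (c cu : ℕ → ℝ), 1 ≤ q₁ → 1 ≤ K → 0 ≤ C →
  IsSv K c₀ δ₀ η₀ C c cu → (q₁ : ℝ) * (K : ℝ) ^ (49 / 100 : ℝ) ≤ D →
  IsC D C (ct q₁ c) ∧ (∀ y : ℤ, SD D (ct q₁ c) y = exq q₁ y * S1 D q₁ c y) ∧
    ∀ y : ℤ, |S1 D q₁ c y| ≤ S1 D q₁ cu y

/-! ### completion -/

/-- OR.  Independence.

Proof.  Let `A` be the set of the `p ∈ S` with `p ∤ E`.  `Φ ∏_{p ∈ S∖A} f_p` has period `E` and norm `≤ 1`, `∏_{p ∈ A} f_p` has period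
`∏_{p ∈ A} p`, prime to `E`; `MVII.thm_Mt` (1), (2), (3). -/
def St_Or : Prop := ∀ (M E : ℕ) (S : Finset ℕ) (f : ℕ → ℤ → ℂ) (Φ : ℤ → ℂ), 1 ≤ M → 1 ≤ E →
  E ∣ M → (∀ p ∈ S, p.Prime ∧ p ∣ M) → Per E Φ → (∀ y, ‖Φ y‖ ≤ 1) → (∀ p ∈ S, Per p (f p)) →
  (∀ p ∈ S, ∀ y, ‖f p y‖ ≤ 1) →
  ‖mn M (fun y => Φ y * ∏ p ∈ S, f p y)‖ ≤ ∏ p ∈ S.filter (fun p => ¬ p ∣ E), ‖mn p (f p)‖

/-- LA.  Local means.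

Proof.  `|cp p x| ≤ p - 1`.  The cases without the condition: `MVII.thm_Lo`.  With the condition: at most two classes `y = ν`,
`ν^2 = 2 mod p`; `p` is odd, so `p ∤ ν` and `|cp p ν| = 1`; if `p ∤ n^2 - 2 m^2` then `p ∤ n - m ν` (otherwise `n^2 = m^2 ν^2 = 2 m^2`). -/
def St_La : Prop := ∀ (m n p : ℕ) (u v w : Bool), p.Prime →
  Per p (fun y => ((lf m n p u v w y : ℝ) : ℂ)) ∧ (∀ y, |lf m n p u v w y| ≤ 1) ∧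
  0 ≤ la m n p u v w ∧
  (¬ p ∣ m → (u = true → p ≠ 2) →
    ‖mn p (fun y => ((lf m n p u v w y : ℝ) : ℂ))‖ ≤ la m n p u v w)

/-- TR.  Sums over triples of subsets are products.  Proof.  Induction on `P`. -/
def St_Tr : Prop := ∀ (P : Finset ℕ) (F : ℕ → Bool → Bool → Bool → ℝ),
  ∑ U ∈ P.powerset, ∑ V ∈ P.powerset, ∑ W ∈ P.powerset,
    ∏ p ∈ P, F p (decide (p ∈ U)) (decide (p ∈ V)) (decide (p ∈ W)) =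
  ∏ p ∈ P, ∑ u : Bool, ∑ v : Bool, ∑ w : Bool, F p u v w

/-- the local sum with the weights of Rankin, `a p v w` -/
noncomputable def ls (m n E p : ℕ) (a : Bool → Bool → ℝ) : ℝ :=
  ∑ u : Bool, ∑ v : Bool, ∑ w : Bool,
    (if u = true then 8 else 1) * (if p ∣ E then 1 else la m n p u v w) * a v w

/-- PR.  The Euler product.

Proof.  `a` is `√p` if `v` (first) or `w` (second) is true, else `1`.  For `p ∣ E`: `ls = 18 (1 + √p) ≤ 36 √p`, in total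
`≤ 36^{ω(E)} √E`.  For `p ∤ E n (n^2 - 2 m^2)`: `ls ≤ 1 + 16/p + √p/(p-1)^2 + 16 √p/(p (p-1)) + 16 (1 + √p)/(p (p-1)) ≤
1 + 16/p + 200/p^{3/2} ≤ (1 + 1/p)^{16} (1 + 200/p^{3/2})`, in total `≤ C (1 + log Z)^{16}` (`∏_{p ≤ Z} (1 + 1/p) ≤
∏ (1 - 1/p)^{-1} = rho(Z)^{-1}`, `GBQ.thm_RhoLow`; `∑_p p^{-3/2}` is bounded).
For the other `p`: `ls ≤ 64`, in total `≤ 64^{ω(n) + ω(|n^2 - 2 m^2|)} ≤ (τ τ)^6` (`n^2 ≠ 2 m^2`); divisor bound `MVII.thm_Ep` (1). -/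
def St_Pr : Prop := ∀ ε : ℝ, 0 < ε → ∀ᶠ X : ℕ in atTop, ∀ (m n E Z : ℕ), 1 ≤ m → m ≤ X → 1 ≤ n →
  n ≤ X → 1 ≤ E → E ≤ X → Z ≤ X →
  ∏ p ∈ pz Z, ls m n E p (fun v _ => if v = true then Real.sqrt p else 1) ≤
    (X : ℝ) ^ ε * Real.sqrt E ∧
  ∏ p ∈ pz Z, ls m n E p (fun _ w => if w = true then Real.sqrt p else 1) ≤
    (X : ℝ) ^ ε * Real.sqrt E

/-- CQ.  The missing pairs of sets of primes.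

Proof.  Let `c d ≠ 0` (so `d` is squarefree and odd), `U = d.primeFactors`, `P = pz (Q + D)`, `E = r r' m` (`≤ Q`, so `E ∣ MF Q D`, as
all numbers `≤ Q + D`).  Up to sign the function is `Φ(y) ∏_{p ∈ P} lf m n p (p ∈ U) (p ∈ V) (p ∈ W) y` (`d ∣ y^2 - 2` iff all
`p ∈ U` divide it).  OR and LA (`p ∤ E` implies `p ∤ m`; `2 ∉ U`): the mean is
`≤ ∏_{p ∈ P} (if p ∣ E then 1 else la m n p (p ∈ U) (p ∈ V) (p ∈ W))`.  `|c_d| ≤ C ∏_{p ∈ P} (if p ∈ U then 8 else 1)`, and for a missing pair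
`1 ≤ √(r ∏ V/Q) + √(r' ∏ W/Q)`.  Extend the sum to all `U, V, W ⊆ P` (`d ↦ d.primeFactors` is injective on squarefree `d`, all terms are
`≥ 0`), TR and PR with `ε/2`, `C ≤ X^{ε/2}`. -/
def St_Cq : Prop := ∀ C ε : ℝ, 0 < ε → ∀ᶠ X : ℕ in atTop, ∀ (Q D m n r r' : ℕ) (c : ℕ → ℝ)
  (Φ : ℤ → ℂ) (A : Finset (Finset ℕ × Finset ℕ)), 1 ≤ Q → Q + D ≤ X → 1 ≤ m → 1 ≤ n → n ≤ X →
  1 ≤ r → 1 ≤ r' → r * r' * m ≤ Q → IsC D C c → Per (r * r') Φ → (∀ y, ‖Φ y‖ ≤ 1) →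
  (∀ v ∈ A, v.1 ⊆ pz Q ∧ v.2 ⊆ pz Q ∧ (Q < r * ∏ p ∈ v.1, p ∨ Q < r' * ∏ p ∈ v.2, p)) →
  ∑ d ∈ Icc 1 D, |c d| * ∑ v ∈ A, ‖mn (MF Q D) (fun y => Φ y *
      (if (d : ℤ) ∣ y ^ 2 - 2 then (1 : ℂ) else 0) *
      ((∏ p ∈ v.1, (-(cp p ((n : ℤ) - m * y) / ((p : ℝ) - 1))) : ℝ) : ℂ) *
      ((∏ p ∈ v.2, (-(cp p y / ((p : ℝ) - 1))) : ℝ) : ℂ))‖ ≤
    (X : ℝ) ^ ε * Real.sqrt (r * r' * m) * (Real.sqrt (r / Q) + Real.sqrt (r' / Q))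

/-- CP.  Completion: in the mean the truncation of the singular series costs little.

Proof.  `T = TT δ X`, `Q = QQ δ X`, `D = DD X`, `ε = δ/1000`.  By `MVII.thm_Br` both means are sums over `(r, χ)`, `(r', χ')`, `d`, and pairs
`(V, W)` of subsets of `pz Q` (`p ∤ r` for `p ∈ V`, `p ∤ r'` for `p ∈ W`), the first with the conditions `r ∏ V ≤ Q`, `r' ∏ W ≤ Q`.
The difference: CQ with `Φ(y) = conj χ(n - m y) conj χ'(y)` (period `r r'`) for every `(r, χ), (r', χ')` (`T^2 m ≤ Q`, `Q + D ≤ X`);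
`(r/φ(r)) (r'/φ(r')) ≤ X^{2ε}`, `∑ |b| ∑ |b'| ≤ 16`, `√(r r' m) ≤ X^{δ + δ/2000}`, `√(r/Q) ≤ 2 X^{-14.5 δ}`: total `≤ X^{-13.4 δ}`. -/
def St_Cp : Prop := ∀ C δ : ℝ, 0 < δ → δ ≤ 1 / 10 ^ 6 → ∀ᶠ X : ℕ in atTop,
  ∀ (m n : ℕ) (c : ℕ → ℝ) (b b' : Chr → ℂ), 1 ≤ m → (m : ℝ) ≤ (X : ℝ) ^ (δ / 1000) → 1 ≤ n →
  n ≤ X → IsC (DD X) C c → NB b (TT δ X) ≤ 4 → NB b' (TT δ X) ≤ 4 →
  ‖mn (MF (QQ δ X) (DD X)) (fun y => PM b (TT δ X) (QQ δ X) ((n : ℤ) - m * y) *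
        PM b' (TT δ X) (QQ δ X) y * ((SD (DD X) c y : ℝ) : ℂ)) -
    mn (MF (QQ δ X) (DD X)) (fun y => PL b (TT δ X) ((n : ℤ) - m * y) * PL b' (TT δ X) y *
      ((wq (QQ δ X) m n y * SD (DD X) c y : ℝ) : ℂ))‖ ≤ (X : ℝ) ^ (-(13 * δ))

/-- WI.  Sums over short intervals.

Proof.  As `MVII.thm_Wi`: expand in `(r, χ), (r', χ')`, `k ≤ Q/r`, `k' ≤ Q/r'`, `d`; the function
`conj χ(n - m y) cs k (n - m y) conj χ'(y) cs k' y 1_{d ∣ y^2 - 2}` has the period `lcm (r, k, r', k', d)`, which divides `MF Q D` and is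
`≤ Q^2 D`; coefficient times function is `≤ B^2 T^2 |c_d|`.  `MVII.thm_Mt` (1), (4): error `≤ 2 Q^2 D B^2 T^2 |c_d|`; number of
`(r, χ, r', χ', k, k')`: `≤ T^4 Q^2`. -/
def St_Wi : Prop := ∀ (T Q D m n t L : ℕ) (B : ℝ) (c : ℕ → ℝ) (b b' : Chr → ℂ), 1 ≤ T → T ≤ Q →
  0 ≤ B → (∀ x, ‖b x‖ ≤ B) → (∀ x, ‖b' x‖ ≤ B) →
  ‖∑ y ∈ Ioc t (t + L), PM b T Q ((n : ℤ) - m * (y : ℤ)) * PM b' T Q (y : ℤ) *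
        ((SD D c (y : ℤ) : ℝ) : ℂ) -
      (L : ℂ) * mn (MF Q D) (fun y => PM b T Q ((n : ℤ) - m * y) * PM b' T Q y *
        ((SD D c y : ℝ) : ℂ))‖ ≤
    2 * B ^ 2 * (T : ℝ) ^ 6 * (Q : ℝ) ^ 4 * D * ∑ d ∈ Icc 1 D, |c d|

/-! ### densities and positivity -/

/-- GL.  The densities.

Proof.  `p ≤ Q`, `p ∤ 2 q₁`: `MVII.thm_Lc` (3).  `p > Q`, `p` odd: `#RT p ≤ 2`, and `RT 3 = ∅`.  Last: `p = 2` divides `2 q₁`; `2` is not a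
square modulo `3` and `5`, so `gl = 0`; for `p ≥ 7`: `gl ≤ 4/p`, `(1-x)^8 ≤ 1 - 8x + 28x^2 ≤ 1 - 4x` for `x ≤ 1/7`. -/
def St_Gl : Prop := ∀ (Q q₁ m n : ℕ), n.Coprime m → (n + m) % 2 = 1 → ∀ p : ℕ, p.Prime →
  0 ≤ gl Q q₁ m n p ∧ gl Q q₁ m n p ≤ 3 / 4 ∧ gl Q q₁ m n p ≤ 4 / p ∧
    (1 - 1 / (p : ℝ)) ^ 8 ≤ 1 - gl Q q₁ m n p

/-- DN.  The densities satisfy the theorem of Mertens.

Proof.  `GL` for the first three properties.  `mert`: `LIN.thm_Mt8`: `|∑_{u < p ≤ v} g8 p - log (log v/log u)| ≤ C/log u`, small since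
`u ≥ ⌊K^δ₀⌋₊ =: w`.  If `p > w` does not divide `2 n m q₁ (n^2 - 2 m^2)`: `gl = ρ/(p-2)` (`p ≤ Q`: the two roots are different from `0` and
from `n/m`) or `ρ/p`, with `ρ = #RT p`, which is `2` if `p = 1, 7 mod 8` and `0` otherwise: `|gl - g8| ≤ 8/p^2`, and `∑_{p > w} 8/p^2 ≤ 16/w`.
At most `log (2 X^5)/log w ≤ 20/δ₀` primes `p > w` divide `2 n m q₁ |n^2 - 2 m^2| ≠ 0`, each with `|gl - g8| ≤ 4/p ≤ 4/w`. -/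
def St_Dn : Prop := ∀ δ₀ η₀ : ℝ, 0 < δ₀ → δ₀ ≤ 1 / 20 → 0 < η₀ → ∀ᶠ X : ℕ in atTop,
  ∀ (K Q q₁ m n : ℕ), (X : ℝ) ^ (1 / 2 : ℝ) ≤ K → 1 ≤ m → m ≤ X → 1 ≤ n → n ≤ X →
  1 ≤ q₁ → q₁ ≤ X → n.Coprime m → (n + m) % 2 = 1 →
  Dens (gl Q q₁ m n) ⌊(K : ℝ) ^ δ₀⌋₊ (ys K) η₀

/-- PF.  The mean with the sieve is a product.

Proof.  `wq = ∏_{p ≤ Q} f_p`, `f_p(y) = gp p (n - m y) gp p y`; every prime dividing `q₁` is `≤ Q`.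
`F₁ = ℓ exq ∏_{p ∣ q₁} f_p` has period `q₁`.  For `d` squarefree, coprime to `2 q₁`, `d ≤ D`:
`∏_{p ≤ Q, p ∤ q₁} f_p 1_{d ∣ y^2 - 2}` is a product over the primes `p ≤ Q` or `p ∣ d`, `p ∤ q₁`, of functions of period `p`; the local means:
`loc 0 m n p` if `p ∤ d`, `loc 0 m n p · nB/nA` if `p ∣ d`, `p ≤ Q` (`nA > 0` by `MVII.thm_Lc` (3); `loc 0 m n p = (p/(p-1))^2 nA/p`), and
`#RT p/p` if `p ∣ d`, `p > Q`.  `MVII.thm_Mt` (1), (2), (3), `MF Q D` is a multiple of all periods.  If `d` is not coprime to `2 q₁` then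
`∏_{p ∣ d} gl = 0`. -/
def St_Pf : Prop := ∀ (Q D m n q₁ : ℕ) (c : ℕ → ℝ) (ℓ : ℤ → ℝ), n.Coprime m → (n + m) % 2 = 1 →
  1 ≤ q₁ → q₁ ≤ Q → (∀ d, c d ≠ 0 → Squarefree d) → (∀ y : ℤ, ℓ (y + q₁) = ℓ y) →
  mn (MF Q D) (fun y => ((ℓ y * wq Q m n y * (exq q₁ y * S1 D q₁ c y) : ℝ) : ℂ)) =
    mn q₁ (fun y => ((ℓ y * exq q₁ y *
        ∏ p ∈ q₁.primeFactors, (gp p ((n : ℤ) - m * y) * gp p y) : ℝ) : ℂ)) *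
      (((∏ p ∈ (pz Q).filter (fun p => ¬ p ∣ q₁), loc 0 m n p) *
        ∑ d ∈ Icc 1 D, c d * ∏ p ∈ d.primeFactors, gl Q q₁ m n p : ℝ) : ℂ)

/-- PE.  The part of the exceptional modulus.

Proof.  `ℓ ≥ a` and the other factors are `≥ 0`; `exq ∏_{p ∣ q₁} f_p = ∏_{p ∣ q₁} f_p 1_{p ≠ 2 → p ∤ y^2 - 2}` has the mean
`∏_{p ∣ q₁} loc (p + 1) m n p` (`MVII.thm_Mt`; for `p = 2`, `f_2(y) ≠ 0` only for odd `y`, then `2 ∤ y^2 - 2`), and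
`loc ≥ (1 - 1/p)^8` by `MVII.thm_Lc` (1). -/
def St_Pe : Prop := ∀ (m n q₁ : ℕ) (a : ℝ) (ℓ : ℤ → ℝ), n.Coprime m → (n + m) % 2 = 1 → 1 ≤ q₁ →
  0 ≤ a → (∀ y, a ≤ ℓ y) → a * ∏ p ∈ q₁.primeFactors, (1 - 1 / (p : ℝ)) ^ 8 ≤
    (mn q₁ (fun y => ((ℓ y * exq q₁ y *
        ∏ p ∈ q₁.primeFactors, (gp p ((n : ℤ) - m * y) * gp p y) : ℝ) : ℂ))).re

/-- PO.  Positivity of the completed mean.

Proof.  `ℓ₁(x) = 1 - Re χ₁(x) v`, `ℓ₂(x) = 1 - Re χ₁(x) v'`, both `≥ l/4`, `ℓ(y) = ℓ₁(n - m y) ℓ₂(y)` of period `q₁`, `≥ (l/4)^2`.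
`‖PL - ℓ_i‖ ≤ κ l^3 ≤ 4 κ ℓ_i`, so `|Re(PL PL') - ℓ| ≤ (8 κ + 16 κ^2) ℓ ≤ 9 κ ℓ`.  By SW `SD = exq S1`, `|S1 c| ≤ S1 cu`, `exq ≥ 0`, `wq ≥ 0`:
`Re(PL PL') wq SD ≥ ℓ wq exq S1(c) - 9 κ ℓ wq exq S1(cu)`.  PF for `c` and `cu`:
the mean is `≥ A G (∑ c d ∏ gl - 9 κ ∑ cu d ∏ gl)` with `A = mn q₁ (..) ≥ (l/4)^2 ∏_{p ∣ q₁} (1 - 1/p)^8` (PE) and
`G = ∏_{p ≤ Q, p ∤ q₁} loc 0 m n p ≥ ∏ (1 - 1/p)^8` (`MVII.thm_Lc` (1)).  `IsSv.main` (the sums over `d ≤ D` and `d ≤ K` are equal: both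
contain the support, `K^{49/100} ≤ D`, `≤ K`): `≥ A G V (c₀ - 9 κ C) ≥ A G V c₀/2`, `V = ∏_{p ≤ zs K} (1 - gl p) ≥ ∏ (1 - 1/p)^8` (GL). -/
def St_Po : Prop := ∀ (c₀ δ₀ η₀ C κ : ℝ), 0 < c₀ → 0 < C → 0 < κ → κ ≤ 1 / 1000 →
  18 * C * κ ≤ c₀ → ∀ (T Q D K m n q₁ : ℕ) (l v v' : ℝ) (c cu : ℕ → ℝ) (b b' : Chr → ℂ)
  (χ₁ : DirichletCharacter ℂ q₁), IsSv K c₀ δ₀ η₀ C c cu →
  Dens (gl Q q₁ m n) ⌊(K : ℝ) ^ δ₀⌋₊ (ys K) η₀ → n.Coprime m → (n + m) % 2 = 1 → 1 ≤ q₁ →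
  q₁ ≤ Q → 1 ≤ K → (q₁ : ℝ) * (K : ℝ) ^ (49 / 100 : ℝ) ≤ D → (∀ a : ZMod q₁, (χ₁ a).im = 0) →
  0 < l → l ≤ 1 → 0 ≤ v → v ≤ 1 - l / 4 → 0 ≤ v' → v' ≤ 1 - l / 4 →
  (∀ a : ℤ, ‖PL b T a - (1 - χ₁ (a : ZMod q₁) * ((v : ℝ) : ℂ))‖ ≤ κ * l ^ 3) →
  (∀ a : ℤ, ‖PL b' T a - (1 - χ₁ (a : ZMod q₁) * ((v' : ℝ) : ℂ))‖ ≤ κ * l ^ 3) →
  c₀ / 2 * (l / 4) ^ 2 * ((∏ p ∈ pz Q, (1 - 1 / (p : ℝ))) ^ 8 *
      (∏ p ∈ pz (zs K), (1 - 1 / (p : ℝ))) ^ 8) ≤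
    (mn (MF Q D) (fun y => PL b T ((n : ℤ) - m * y) * PL b' T y *
      ((wq Q m n y * SD D (ct q₁ c) y : ℝ) : ℂ))).re

end Pool.Agent.MV5
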