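import Mathlib
import Pool.Agent.MV5.StC
import Pool.Agent.MVII.Br
import Pool.Agent.MVII.Ep
import Pool.Agent.MVII.Mn
import Pool.Agent.MVII.W0

/-!
# MV5, module Cp: completion of the truncated singular series in the mean
-/

set_option autoImplicit false

namespace Pool.Agent.MV5

open Finset Filter
open Pool.Agent.MVX (Chr prm)
open Pool.Agent.LIN (PP pz)
open Pool.Agent.MVII (TT QQ HH H0 cp cs gp GQ ar PL PM NB Per mn wq St_Br thm_Br)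

/-- the characters -/
private noncomputable def cp_S (T : ℕ) : Finset Chr := (Icc 1 T).sigma fun r => prm r

private noncomputable def cp_v (V : Finset ℕ) (x : ℤ) : ℂ :=
  ((∏ p ∈ V, (-(cp p x / ((p : ℝ) - 1))) : ℝ) : ℂ)

private noncomputable def cp_A (Q r : ℕ) : Finset (Finset ℕ) :=
  (pz Q).powerset.filter (fun V => r * ∏ p ∈ V, p ≤ Q ∧ ∀ p ∈ V, ¬ p ∣ r)

private noncomputable def cp_B (Q r : ℕ) : Finset (Finset ℕ) :=
  (pz Q).powerset.filter (fun V => ∀ p ∈ V, ¬ p ∣ r)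

private noncomputable def cp_k (r : ℕ) : ℂ := (((r : ℝ) / r.totient : ℝ) : ℂ)

private theorem cp_mem_S {T : ℕ} {c : Chr} (hc : c ∈ cp_S T) : 1 ≤ c.1 ∧ c.1 ≤ T := by
  rw [cp_S, Finset.mem_sigma, Finset.mem_Icc] at hc
  exact hc.1

private theorem cp_PM (h2 : St_Br) (b : Chr → ℂ) (T Q : ℕ) (hTQ : T ≤ Q) (x : ℤ) :
    PM b T Q x = ∑ c ∈ cp_S T, b c * cp_k c.1 * (starRingEnd ℂ) (c.2 (x : ZMod c.1)) *
      ∑ V ∈ cp_A Q c.1, cp_v V x := by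
  rw [cp_S, Finset.sum_sigma, PM]
  refine Finset.sum_congr rfl fun r hr => Finset.sum_congr rfl fun χ _ => ?_
  rw [Finset.mem_Icc] at hr
  rw [h2.1 Q r x hr.1 (hr.2.trans hTQ)]
  show b ⟨r, χ⟩ * (starRingEnd ℂ) (χ (x : ZMod r)) * _ =
    b ⟨r, χ⟩ * cp_k r * (starRingEnd ℂ) (χ (x : ZMod r)) * ∑ V ∈ cp_A Q r, cp_v V x
  rw [Complex.ofReal_mul, Complex.ofReal_sum]
  show b ⟨r, χ⟩ * (starRingEnd ℂ) (χ (x : ZMod r)) * (cp_k r * ∑ V ∈ cp_A Q r, cp_v V x) = _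
  ring

private theorem cp_PL (h2 : St_Br) (b : Chr → ℂ) (T Q : ℕ) (hTQ : T ≤ Q) (x : ℤ) :
    PL b T x * ((GQ Q x : ℝ) : ℂ) = ∑ c ∈ cp_S T, b c * cp_k c.1 *
      (starRingEnd ℂ) (c.2 (x : ZMod c.1)) * ∑ V ∈ cp_B Q c.1, cp_v V x := by
  rw [cp_S, Finset.sum_sigma, PL, Finset.sum_mul]
  refine Finset.sum_congr rfl fun r hr => ?_
  rw [Finset.sum_mul]
  refine Finset.sum_congr rfl fun χ _ => ?_
  rw [Finset.mem_Icc] at hr
  rw [mul_assoc, ← h2.2 Q r χ x hr.1 (hr.2.trans hTQ)]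
  show b ⟨r, χ⟩ * ((starRingEnd ℂ) (χ (x : ZMod r)) * _) =
    b ⟨r, χ⟩ * cp_k r * (starRingEnd ℂ) (χ (x : ZMod r)) * ∑ V ∈ cp_B Q r, cp_v V x
  rw [Complex.ofReal_mul, Complex.ofReal_sum]
  show b ⟨r, χ⟩ * ((starRingEnd ℂ) (χ (x : ZMod r)) * (cp_k r * ∑ V ∈ cp_B Q r, cp_v V x)) = _
  ring

private theorem cp_NB (b : Chr → ℂ) (T : ℕ) : NB b T = ∑ c ∈ cp_S T, ‖b c‖ := by
  rw [cp_S, Finset.sum_sigma, NB]

private noncomputable def cp_i (d : ℕ) (y : ℤ) : ℂ := if (d : ℤ) ∣ y ^ 2 - 2 then (1 : ℂ) else 0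

private theorem cp_SD (D : ℕ) (c : ℕ → ℝ) (y : ℤ) : ((SD D c y : ℝ) : ℂ) =
    ∑ d ∈ Icc 1 D, ((c d : ℝ) : ℂ) * cp_i d y := by
  rw [SD, Complex.ofReal_sum]
  refine Finset.sum_congr rfl fun d _ => ?_
  unfold cp_i
  split_ifs <;> simp

private noncomputable def cp_Phi (m n : ℕ) (c c' : Chr) (y : ℤ) : ℂ :=
  (starRingEnd ℂ) (c.2 (((n : ℤ) - m * y : ℤ) : ZMod c.1)) *
    (starRingEnd ℂ) (c'.2 (y : ZMod c'.1))

private theorem cp_Phi_norm (m n : ℕ) (c c' : Chr) (y : ℤ) : ‖cp_Phi m n c c' y‖ ≤ 1 := by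
  unfold cp_Phi
  rw [norm_mul, RCLike.norm_conj, RCLike.norm_conj]
  have h1 := DirichletCharacter.norm_le_one c.2 (((n : ℤ) - m * y : ℤ) : ZMod c.1)
  have h2 := DirichletCharacter.norm_le_one c'.2 (y : ZMod c'.1)
  exact mul_le_one₀ h1 (norm_nonneg _) h2

private theorem cp_Phi_per (m n : ℕ) (c c' : Chr) : Per (c.1 * c'.1) (cp_Phi m n c c') := by
  intro y
  unfold cp_Phi
  have e1 : (((n : ℤ) - m * (y + (c.1 * c'.1 : ℕ)) : ℤ) : ZMod c.1) =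
      (((n : ℤ) - m * y : ℤ) : ZMod c.1) := by
    have : ((c.1 * c'.1 : ℕ) : ZMod c.1) = 0 :=
      (ZMod.natCast_eq_zero_iff _ _).2 (Dvd.intro _ rfl)
    have h2 : (((c.1 * c'.1 : ℕ) : ℤ) : ZMod c.1) = 0 := by
      rw [Int.cast_natCast]
      exact this
    rw [Int.cast_sub, Int.cast_sub, Int.cast_mul, Int.cast_mul, Int.cast_add, h2, add_zero]
  have e2 : ((y + (c.1 * c'.1 : ℕ) : ℤ) : ZMod c'.1) = (y : ZMod c'.1) := by
    have h2 : (((c.1 * c'.1 : ℕ) : ℤ) : ZMod c'.1) = 0 := by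
      rw [Int.cast_natCast]
      exact (ZMod.natCast_eq_zero_iff _ _).2 (Dvd.intro_left _ rfl)
    rw [Int.cast_add, h2, add_zero]
  rw [e1, e2]

private theorem cp_mn_sum {ι : Type} (M : ℕ) (s : Finset ι) (f : ι → ℤ → ℂ) :
    mn M (fun y => ∑ i ∈ s, f i y) = ∑ i ∈ s, mn M (f i) := by
  unfold mn
  rw [Finset.sum_comm, Finset.sum_div]

private theorem cp_mn_mul (M : ℕ) (a : ℂ) (f : ℤ → ℂ) :
    mn M (fun y => a * f y) = a * mn M f := by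
  unfold mn
  rw [← Finset.mul_sum, mul_div_assoc]

private theorem cp_mn_sub (M : ℕ) (f g : ℤ → ℂ) :
    mn M f - mn M g = mn M (fun y => f y - g y) := by
  unfold mn
  rw [Finset.sum_sub_distrib, sub_div]

private theorem cp_diff {ι : Type} [DecidableEq ι] (A B A' B' : Finset ι) (hA : A ⊆ B)
    (hA' : A' ⊆ B') (f g : ι → ℂ) :
    (∑ V ∈ A, f V) * (∑ W ∈ A', g W) - (∑ V ∈ B, f V) * (∑ W ∈ B', g W) =
      -∑ v ∈ (B ×ˢ B') \ (A ×ˢ A'), f v.1 * g v.2 := by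
  rw [Finset.sum_mul_sum, Finset.sum_mul_sum, ← Finset.sum_product', ← Finset.sum_product',
    ← Finset.sum_sdiff (Finset.product_subset_product hA hA')]
  ring

/-- the numbers -/
private theorem cp_num (δ : ℝ) (X : ℕ) (r r' T m Q : ℝ) (hδ : 0 < δ) (hX : 1 ≤ X) (hr : 0 ≤ r)
    (hr' : 0 ≤ r') (hrT : r ≤ T) (hrT' : r' ≤ T) (hT : T ≤ (X : ℝ) ^ δ) (hm0 : 0 ≤ m)
    (hm : m ≤ (X : ℝ) ^ (δ / 1000)) (hQ : (X : ℝ) ^ (30 * δ) ≤ 2 * Q) :
    Real.sqrt (r * r' * m) * (Real.sqrt (r / Q) + Real.sqrt (r' / Q)) ≤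
      4 * (X : ℝ) ^ (-(1349 / 100 * δ)) := by
  have hX1 : (1 : ℝ) ≤ X := by exact_mod_cast hX
  have hX0 : (0 : ℝ) < X := by linarith
  have hT0 : 0 ≤ T := hr.trans hrT
  have hp30 : 0 < (X : ℝ) ^ (30 * δ) := Real.rpow_pos_of_pos hX0 _
  have hQ0 : 0 < Q := by linarith
  have h1 : Real.sqrt (r * r' * m) ≤ (X : ℝ) ^ (δ + δ / 2000) := by
    refine Real.sqrt_le_iff.2 ⟨Real.rpow_nonneg hX0.le _, ?_⟩
    have e1 : ((X : ℝ) ^ (δ + δ / 2000)) ^ 2 = (X : ℝ) ^ δ * (X : ℝ) ^ δ * (X : ℝ) ^ (δ / 1000) := by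
      rw [← Real.rpow_natCast, ← Real.rpow_mul hX0.le, ← Real.rpow_add hX0, ← Real.rpow_add hX0]
      congr 1
      push_cast
      ring
    rw [e1]
    have hp : 0 ≤ (X : ℝ) ^ δ := Real.rpow_nonneg hX0.le _
    exact mul_le_mul (mul_le_mul (hrT.trans hT) (hrT'.trans hT) hr' hp) hm hm0
      (mul_nonneg hp hp)
  have h2 : ∀ s : ℝ, 0 ≤ s → s ≤ T → Real.sqrt (s / Q) ≤ 2 * (X : ℝ) ^ (-(145 / 10 * δ)) := by
    intro s hs hsT
    refine Real.sqrt_le_iff.2 ⟨by positivity, ?_⟩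
    have e1 : ((X : ℝ) ^ (-(145 / 10 * δ))) ^ 2 = (X : ℝ) ^ (-(29 * δ)) := by
      rw [← Real.rpow_natCast, ← Real.rpow_mul hX0.le]
      congr 1
      push_cast
      ring
    rw [mul_pow, e1, div_le_iff₀ hQ0]
    have e2 : (X : ℝ) ^ (-(29 * δ)) * (X : ℝ) ^ (30 * δ) = (X : ℝ) ^ δ := by
      rw [← Real.rpow_add hX0]
      congr 1
      ring
    have e3 : 0 ≤ (X : ℝ) ^ (-(29 * δ)) := Real.rpow_nonneg hX0.le _
    have e4 := mul_le_mul_of_nonneg_left hQ e3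
    have e5 : 0 ≤ (X : ℝ) ^ (-(29 * δ)) * Q := mul_nonneg e3 hQ0.le
    nlinarith
  have h3 := h2 r hr hrT
  have h4 := h2 r' hr' hrT'
  have hp1 : 0 ≤ (X : ℝ) ^ (δ + δ / 2000) := Real.rpow_nonneg hX0.le _
  calc Real.sqrt (r * r' * m) * (Real.sqrt (r / Q) + Real.sqrt (r' / Q))
      ≤ (X : ℝ) ^ (δ + δ / 2000) * (4 * (X : ℝ) ^ (-(145 / 10 * δ))) :=
        mul_le_mul h1 (by linarith) (by positivity) hp1
    _ = 4 * (X : ℝ) ^ (δ + δ / 2000 + -(145 / 10 * δ)) := by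
        rw [Real.rpow_add hX0 (δ + δ / 2000)]
        ring
    _ ≤ _ := by
        refine mul_le_mul_of_nonneg_left ?_ (by norm_num)
        exact Real.rpow_le_rpow_of_exponent_le hX1 (by linarith)

theorem thm_Cp (h1 : St_Cq) : St_Cp := by
  intro C δ hδ hδ1
  have hδ1' : δ ≤ 1 / 1000000 := by
    refine hδ1.trans_eq ?_
    norm_num
  have h2 : St_Br := thm_Br
  filter_upwards [h1 C (δ / 1000) (by positivity),
    Pool.Agent.MVII.thm_Ep (δ / 1000) (by positivity) 1,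
    Pool.Agent.MVII.w0_ev δ hδ (by linarith), eventually_ge_atTop 2,
    Pool.Agent.MVII.mn_ev (-(1348 / 100 * δ)) (-(13 * δ)) 64 (by linarith),
    Pool.Agent.MVII.mn_ev (491 / 1000) 1 2 (by norm_num),
    Pool.Agent.MVII.mn_ev (30 * δ) 1 2 (by linarith)]
    with X hCq hEp hX hX2 hbig hD1 hQ1'
  obtain ⟨-, -, hphi, -, -⟩ := hEp
  obtain ⟨hX32, hh1, hhX, hTX, hQX, hmX⟩ := hX
  intro m n c b b' hm hmle hn hnX hc hb hb'
  classical
  have hXr : (2 : ℝ) ≤ X := by exact_mod_cast hX2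
  have hX0 : (0 : ℝ) < X := by linarith
  have hX1 : (1 : ℝ) ≤ X := by linarith
  rw [Real.rpow_one] at hD1 hQ1'
  -- parameters
  obtain ⟨T, hT⟩ : ∃ T, T = TT δ X := ⟨_, rfl⟩
  obtain ⟨Q, hQ⟩ : ∃ Q, Q = QQ δ X := ⟨_, rfl⟩
  obtain ⟨D, hD⟩ : ∃ D, D = DD X := ⟨_, rfl⟩
  rw [← hT] at hb hb' hTX
  rw [← hQ] at hQX
  rw [← hD] at hc
  rw [← hT, ← hQ, ← hD]
  have hTle : (T : ℝ) ≤ (X : ℝ) ^ δ := by
    rw [hT]
    exact Nat.floor_le (Real.rpow_nonneg hX0.le _)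
  have hT1 : 1 ≤ T := by
    rw [hT]
    refine Nat.le_floor ?_
    rw [Nat.cast_one]
    exact Real.one_le_rpow hX1 hδ.le
  have hp30 : (1 : ℝ) ≤ (X : ℝ) ^ (30 * δ) := Real.one_le_rpow hX1 (by linarith)
  have hQle : (Q : ℝ) ≤ (X : ℝ) ^ (30 * δ) := by
    rw [hQ]
    exact Nat.floor_le (Real.rpow_nonneg hX0.le _)
  have hQ1 : 1 ≤ Q := by
    rw [hQ]
    refine Nat.le_floor ?_
    rw [Nat.cast_one]
    exact hp30
  have hQ2 : (X : ℝ) ^ (30 * δ) ≤ 2 * Q := by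
    have h4 : (X : ℝ) ^ (30 * δ) < Q + 1 := by
      rw [hQ]
      exact Nat.lt_floor_add_one _
    have h5 : (1 : ℝ) ≤ Q := by exact_mod_cast hQ1
    linarith
  have hTQ : T ≤ Q := by
    rw [hT, hQ]
    refine Nat.floor_le_floor ?_
    exact Real.rpow_le_rpow_of_exponent_le hX1 (by linarith)
  have hDle : (D : ℝ) ≤ (X : ℝ) ^ (491 / 1000 : ℝ) := by
    rw [hD]
    exact Nat.floor_le (Real.rpow_nonneg hX0.le _)
  have hQD : Q + D ≤ X := by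
    have h4 : (Q : ℝ) + D ≤ X := by linarith
    exact_mod_cast h4
  have hTm : ∀ r r' : ℕ, r ≤ T → r' ≤ T → r * r' * m ≤ Q := by
    intro r r' hr hr'
    have i1 : (r : ℝ) ≤ (X : ℝ) ^ δ := (by exact_mod_cast hr : (r : ℝ) ≤ T).trans hTle
    have i2 : (r' : ℝ) ≤ (X : ℝ) ^ δ := (by exact_mod_cast hr' : (r' : ℝ) ≤ T).trans hTle
    have hp : 0 ≤ (X : ℝ) ^ δ := Real.rpow_nonneg hX0.le _
    have i3 : ((r * r' * m : ℕ) : ℝ) ≤ (X : ℝ) ^ (30 * δ) := by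
      push_cast
      calc (r : ℝ) * r' * m ≤ (X : ℝ) ^ δ * (X : ℝ) ^ δ * (X : ℝ) ^ (δ / 1000) :=
            mul_le_mul (mul_le_mul i1 i2 (Nat.cast_nonneg _) hp) hmle (Nat.cast_nonneg _)
              (mul_nonneg hp hp)
        _ = (X : ℝ) ^ (δ + δ + δ / 1000) := by
            rw [← Real.rpow_add hX0, ← Real.rpow_add hX0]
        _ ≤ _ := Real.rpow_le_rpow_of_exponent_le hX1 (by linarith)
    rw [hQ]
    exact Nat.le_floor i3
  -- the missing pairs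
  set MM : Chr → Chr → Finset (Finset ℕ × Finset ℕ) := fun ch ch' =>
    (cp_B Q ch.1 ×ˢ cp_B Q ch'.1) \ (cp_A Q ch.1 ×ˢ cp_A Q ch'.1) with hMM
  set co : Chr → Chr → ℕ → ℂ := fun ch ch' d =>
    -(b ch * cp_k ch.1 * (b' ch' * cp_k ch'.1) * ((c d : ℝ) : ℂ)) with hco
  have hAB : ∀ r, cp_A Q r ⊆ cp_B Q r := by
    intro r V hV
    rw [cp_A, Finset.mem_filter] at hV
    rw [cp_B, Finset.mem_filter]
    exact ⟨hV.1, hV.2.2⟩
  -- the pointwise identity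
  have hpt : ∀ y : ℤ, PM b T Q ((n : ℤ) - m * y) * PM b' T Q y * ((SD D c y : ℝ) : ℂ) -
      PL b T ((n : ℤ) - m * y) * PL b' T y * ((wq Q m n y * SD D c y : ℝ) : ℂ) =
      ∑ ch ∈ cp_S T, ∑ ch' ∈ cp_S T, ∑ d ∈ Icc 1 D, ∑ v ∈ MM ch ch',
        co ch ch' d * (cp_Phi m n ch ch' y * cp_i d y * cp_v v.1 ((n : ℤ) - m * y) *
          cp_v v.2 y) := by
    intro y
    have e1 : PL b T ((n : ℤ) - m * y) * PL b' T y * ((wq Q m n y * SD D c y : ℝ) : ℂ) =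
        (PL b T ((n : ℤ) - m * y) * ((GQ Q ((n : ℤ) - m * y) : ℝ) : ℂ)) *
          (PL b' T y * ((GQ Q y : ℝ) : ℂ)) * ((SD D c y : ℝ) : ℂ) := by
      rw [wq]
      push_cast
      ring
    rw [e1, cp_PL h2 b T Q hTQ, cp_PL h2 b' T Q hTQ, cp_PM h2 b T Q hTQ, cp_PM h2 b' T Q hTQ,
      ← sub_mul, cp_SD, Finset.sum_mul_sum, Finset.sum_mul_sum, ← Finset.sum_sub_distrib,
      Finset.sum_mul]
    refine Finset.sum_congr rfl fun ch _ => ?_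
    rw [← Finset.sum_sub_distrib, Finset.sum_mul]
    refine Finset.sum_congr rfl fun ch' _ => ?_
    rw [Finset.mul_sum]
    refine Finset.sum_congr rfl fun d _ => ?_
    have e2 := cp_diff (cp_A Q ch.1) (cp_B Q ch.1) (cp_A Q ch'.1) (cp_B Q ch'.1) (hAB _) (hAB _)
      (fun V => cp_v V ((n : ℤ) - m * y)) (fun W => cp_v W y)
    have e3 : ∑ v ∈ MM ch ch', co ch ch' d *
        (cp_Phi m n ch ch' y * cp_i d y * cp_v v.1 ((n : ℤ) - m * y) * cp_v v.2 y) =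
        co ch ch' d * (cp_Phi m n ch ch' y * cp_i d y) *
          ∑ v ∈ MM ch ch', cp_v v.1 ((n : ℤ) - m * y) * cp_v v.2 y := by
      rw [Finset.mul_sum]
      refine Finset.sum_congr rfl fun v _ => ?_
      ring
    rw [e3]
    have e4 : ∑ v ∈ MM ch ch', cp_v v.1 ((n : ℤ) - m * y) * cp_v v.2 y =
        -((∑ V ∈ cp_A Q ch.1, cp_v V ((n : ℤ) - m * y)) * (∑ W ∈ cp_A Q ch'.1, cp_v W y) -
          (∑ V ∈ cp_B Q ch.1, cp_v V ((n : ℤ) - m * y)) * (∑ W ∈ cp_B Q ch'.1, cp_v W y)) := by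
      rw [e2, neg_neg]
    rw [e4, hco, cp_Phi]
    ring
  -- the mean
  rw [cp_mn_sub]
  have hmn : mn (MF Q D) (fun y => PM b T Q ((n : ℤ) - m * y) * PM b' T Q y *
      ((SD D c y : ℝ) : ℂ) - PL b T ((n : ℤ) - m * y) * PL b' T y *
      ((wq Q m n y * SD D c y : ℝ) : ℂ)) =
      ∑ ch ∈ cp_S T, ∑ ch' ∈ cp_S T, ∑ d ∈ Icc 1 D, ∑ v ∈ MM ch ch',
        co ch ch' d * mn (MF Q D) (fun y => cp_Phi m n ch ch' y * cp_i d y *
          cp_v v.1 ((n : ℤ) - m * y) * cp_v v.2 y) := by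
    simp only [hpt]
    rw [cp_mn_sum]
    refine Finset.sum_congr rfl fun ch _ => ?_
    rw [cp_mn_sum]
    refine Finset.sum_congr rfl fun ch' _ => ?_
    rw [cp_mn_sum]
    refine Finset.sum_congr rfl fun d _ => ?_
    rw [cp_mn_sum]
    refine Finset.sum_congr rfl fun v _ => ?_
    rw [cp_mn_mul]
  rw [hmn]
  set E : ℝ := (X : ℝ) ^ (δ / 1000) with hE
  have hE0 : 0 ≤ E := Real.rpow_nonneg hX0.le _
  set R : ℝ := E * (4 * (X : ℝ) ^ (-(1349 / 100 * δ))) with hR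
  have hR0 : 0 ≤ R := by positivity
  have hone : ∀ ch ∈ cp_S T, ∀ ch' ∈ cp_S T,
      ∑ d ∈ Icc 1 D, |c d| * ∑ v ∈ MM ch ch', ‖mn (MF Q D) (fun y =>
        cp_Phi m n ch ch' y * cp_i d y * cp_v v.1 ((n : ℤ) - m * y) * cp_v v.2 y)‖ ≤ R := by
    intro ch hch ch' hch'
    obtain ⟨hc1, hc2⟩ := cp_mem_S hch
    obtain ⟨hc1', hc2'⟩ := cp_mem_S hch'
    have hb1 := hCq Q D m n ch.1 ch'.1 c (cp_Phi m n ch ch') (MM ch ch') hQ1 hQD hm hn hnX hc1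
      hc1' (hTm _ _ hc2 hc2') hc (cp_Phi_per m n ch ch') (cp_Phi_norm m n ch ch')
      (by
        intro v hv
        rw [hMM] at hv
        simp only [Finset.mem_sdiff, Finset.mem_product, cp_A, cp_B, Finset.mem_filter,
          Finset.mem_powerset] at hv
        obtain ⟨⟨⟨v1, v2⟩, v3, v4⟩, v5⟩ := hv
        refine ⟨v1, v3, ?_⟩
        by_contra hcon
        push Not at hcon
        exact v5 ⟨⟨v1, hcon.1, v2⟩, v3, hcon.2, v4⟩)
    refine le_trans hb1 ?_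
    rw [hR, mul_assoc]
    refine mul_le_mul_of_nonneg_left ?_ hE0
    exact cp_num δ X ch.1 ch'.1 T m Q hδ (by omega) (Nat.cast_nonneg _) (Nat.cast_nonneg _)
      (by exact_mod_cast hc2) (by exact_mod_cast hc2') hTle (Nat.cast_nonneg _) hmle hQ2
  -- summation
  have hk : ∀ r : ℕ, 1 ≤ r → r ≤ T → ‖cp_k r‖ ≤ E := by
    intro r hr1 hr2
    have h3 : 0 < r.totient := Nat.totient_pos.2 hr1
    have h4 : (0 : ℝ) < r.totient := by exact_mod_cast h3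
    rw [cp_k, Complex.norm_real, Real.norm_of_nonneg (by positivity), div_le_iff₀ h4, mul_comm]
    exact (hphi r hr1 (hr2.trans hTX)).1
  have hcc : ∀ ch ∈ cp_S T, ∀ ch' ∈ cp_S T, ‖∑ d ∈ Icc 1 D, ∑ v ∈ MM ch ch',
      co ch ch' d * mn (MF Q D) (fun y =>
        cp_Phi m n ch ch' y * cp_i d y * cp_v v.1 ((n : ℤ) - m * y) * cp_v v.2 y)‖ ≤
      ‖b ch‖ * ‖b' ch'‖ * (E * E * R) := by
    intro ch hch ch' hch'
    obtain ⟨hc1, hc2⟩ := cp_mem_S hch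
    obtain ⟨hc1', hc2'⟩ := cp_mem_S hch'
    have k1 := hk _ hc1 hc2
    have k2 := hk _ hc1' hc2'
    have k3 : ‖b ch‖ * ‖cp_k ch.1‖ * (‖b' ch'‖ * ‖cp_k ch'.1‖) ≤ ‖b ch‖ * ‖b' ch'‖ * (E * E) := by
      calc ‖b ch‖ * ‖cp_k ch.1‖ * (‖b' ch'‖ * ‖cp_k ch'.1‖) ≤ ‖b ch‖ * E * (‖b' ch'‖ * E) :=
            mul_le_mul (mul_le_mul_of_nonneg_left k1 (norm_nonneg _))
              (mul_le_mul_of_nonneg_left k2 (norm_nonneg _)) (by positivity) (by positivity)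
        _ = _ := by ring
    calc _ ≤ ∑ d ∈ Icc 1 D, (‖b ch‖ * ‖cp_k ch.1‖ * (‖b' ch'‖ * ‖cp_k ch'.1‖)) *
          (|c d| * ∑ v ∈ MM ch ch', ‖mn (MF Q D) (fun y =>
            cp_Phi m n ch ch' y * cp_i d y * cp_v v.1 ((n : ℤ) - m * y) * cp_v v.2 y)‖) := by
          refine (norm_sum_le _ _).trans (Finset.sum_le_sum fun d _ => ?_)
          rw [← Finset.mul_sum, norm_mul, ← mul_assoc]
          have e1 : ‖co ch ch' d‖ = ‖b ch‖ * ‖cp_k ch.1‖ * (‖b' ch'‖ * ‖cp_k ch'.1‖) * |c d| := by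
            rw [hco]
            show ‖-(b ch * cp_k ch.1 * (b' ch' * cp_k ch'.1) * ((c d : ℝ) : ℂ))‖ = _
            rw [norm_neg, norm_mul, norm_mul, norm_mul, norm_mul, Complex.norm_real,
              Real.norm_eq_abs]
          rw [e1]
          exact mul_le_mul_of_nonneg_left (norm_sum_le _ _) (by positivity)
      _ = (‖b ch‖ * ‖cp_k ch.1‖ * (‖b' ch'‖ * ‖cp_k ch'.1‖)) *
          ∑ d ∈ Icc 1 D, (|c d| * ∑ v ∈ MM ch ch', ‖mn (MF Q D) (fun y =>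
            cp_Phi m n ch ch' y * cp_i d y * cp_v v.1 ((n : ℤ) - m * y) * cp_v v.2 y)‖) := by
          rw [Finset.mul_sum]
      _ ≤ ‖b ch‖ * ‖b' ch'‖ * (E * E) * R :=
          mul_le_mul k3 (hone ch hch ch' hch') (Finset.sum_nonneg fun d _ => by positivity)
            (by positivity)
      _ = _ := by ring
  calc _ ≤ ∑ ch ∈ cp_S T, ∑ ch' ∈ cp_S T, ‖b ch‖ * ‖b' ch'‖ * (E * E * R) := by
        refine (norm_sum_le _ _).trans (Finset.sum_le_sum fun ch hch => ?_)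
        exact (norm_sum_le _ _).trans (Finset.sum_le_sum fun ch' hch' => hcc ch hch ch' hch')
    _ = NB b T * NB b' T * (E * E * R) := by
        rw [cp_NB, cp_NB, Finset.sum_mul_sum, Finset.sum_mul]
        refine Finset.sum_congr rfl fun ch _ => ?_
        rw [Finset.sum_mul]
    _ ≤ 4 * 4 * (E * E * R) := by
        have hn0 : 0 ≤ NB b' T := by
          rw [cp_NB]
          positivity
        refine mul_le_mul_of_nonneg_right ?_ (by positivity)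
        exact mul_le_mul hb hb' hn0 (by norm_num)
    _ = 64 * (X : ℝ) ^ (δ / 1000 * 3 + -(1349 / 100 * δ)) := by
        rw [hR, Real.rpow_add hX0]
        have e3 : (X : ℝ) ^ (δ / 1000 * 3) = E ^ 3 := by
          rw [hE, ← Real.rpow_natCast ((X : ℝ) ^ (δ / 1000)), ← Real.rpow_mul hX0.le]
          norm_num
        rw [e3]
        ring
    _ ≤ 64 * (X : ℝ) ^ (-(1348 / 100 * δ)) := by
        refine mul_le_mul_of_nonneg_left ?_ (by norm_num)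
        exact Real.rpow_le_rpow_of_exponent_le hX1 (by linarith)
    _ ≤ _ := hbig

end Pool.Agent.MV5
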