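import Mathlib
import Pool.Agent.MV5.StC

set_option autoImplicit false

/-!
# MV5: CQ (the missing pairs of sets of primes)
-/

namespace Pool.Agent.MV5

open Finset Filter
open Pool.Agent.LIN (PP pz Dens)
open Pool.Agent.MVII (TT QQ HH H0 cp cs gp GQ ar PL PM NB BI Bc Md fj rr Per mn wq Sum4 Blk loc)

private theorem cq_mem_pz {p z : ℕ} : p ∈ pz z ↔ p.Prime ∧ p ≤ z := by
  unfold pz
  rw [mem_filter, mem_range]
  constructor
  · rintro ⟨h1, h2⟩
    exact ⟨h2, by omega⟩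
  · rintro ⟨h1, h2⟩
    exact ⟨by omega, h1⟩

private theorem cq_pz_mono {a b : ℕ} (h : a ≤ b) : pz a ⊆ pz b := by
  intro p hp
  rw [cq_mem_pz] at hp ⊢
  exact ⟨hp.1, hp.2.trans h⟩

/-- a squarefree number divides iff its prime factors do -/
private theorem cq_dvd {d : ℕ} (hd : Squarefree d) (N : ℤ) :
    (d : ℤ) ∣ N ↔ ∀ p ∈ d.primeFactors, (p : ℤ) ∣ N := by
  constructor
  · intro h p hp
    exact (Int.natCast_dvd_natCast.2 (Nat.dvd_of_mem_primeFactors hp)).trans h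
  · intro h
    rw [Int.natCast_dvd]
    rw [← Nat.prod_primeFactors_of_squarefree hd]
    refine Finset.prod_primes_dvd _ (fun p hp => (Nat.prime_of_mem_primeFactors hp).prime)
      fun p hp => ?_
    exact Int.natCast_dvd.1 (h p hp)

/-- the function as a product of local functions -/
private theorem cq_prod {P U V W : Finset ℕ} {d m n : ℕ} (hd : Squarefree d)
    (hU : d.primeFactors = U) (hUP : U ⊆ P) (hVP : V ⊆ P) (hWP : W ⊆ P) (Φ : ℤ → ℂ) (y : ℤ) :
    Φ y * (if (d : ℤ) ∣ y ^ 2 - 2 then (1 : ℂ) else 0) *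
      ((∏ p ∈ V, (-(cp p ((n : ℤ) - m * y) / ((p : ℝ) - 1))) : ℝ) : ℂ) *
      ((∏ p ∈ W, (-(cp p y / ((p : ℝ) - 1))) : ℝ) : ℂ) =
    ((-1) ^ V.card * (-1) ^ W.card * Φ y) *
      ∏ p ∈ P, ((lf m n p (decide (p ∈ U)) (decide (p ∈ V)) (decide (p ∈ W)) y : ℝ) : ℂ) := by
  classical
  have h1 : (if (d : ℤ) ∣ y ^ 2 - 2 then (1 : ℂ) else 0) =
      ((∏ p ∈ P, (if decide (p ∈ U) = true → (p : ℤ) ∣ y ^ 2 - 2 then (1 : ℝ) else 0) : ℝ) :
        ℂ) := by
    have h2 := cq_dvd hd (y ^ 2 - 2)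
    rw [hU] at h2
    by_cases h : (d : ℤ) ∣ y ^ 2 - 2
    · rw [if_pos h, Finset.prod_eq_one]
      · norm_num
      · intro p _
        rw [if_pos]
        intro hp
        exact h2.1 h p (of_decide_eq_true hp)
    · rw [if_neg h]
      have h3 : ∃ p ∈ U, ¬ (p : ℤ) ∣ y ^ 2 - 2 := by
        by_contra hcon
        push Not at hcon
        exact h (h2.2 hcon)
      obtain ⟨p, hp, hpn⟩ := h3
      rw [Finset.prod_eq_zero (hUP hp)]
      · norm_num
      · rw [if_neg]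
        intro hc
        exact hpn (hc (decide_eq_true hp))
  have h4 : ∀ (S : Finset ℕ) (g : ℕ → ℝ), S ⊆ P → ∏ p ∈ S, (-(g p)) =
      (-1) ^ S.card * ∏ p ∈ P, (if decide (p ∈ S) = true then g p else 1) := by
    intro S g hS
    rw [Finset.prod_neg]
    congr 1
    simp only [decide_eq_true_eq]
    rw [Finset.prod_ite_mem, Finset.inter_eq_right.2 hS]
  have h5 : ∏ p ∈ P,
      ((lf m n p (decide (p ∈ U)) (decide (p ∈ V)) (decide (p ∈ W)) y : ℝ) : ℂ) =
      ((∏ p ∈ P, (if decide (p ∈ U) = true → (p : ℤ) ∣ y ^ 2 - 2 then (1 : ℝ) else 0) : ℝ) : ℂ) *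
      ((∏ p ∈ P, (if decide (p ∈ V) = true then cp p ((n : ℤ) - m * y) / ((p : ℝ) - 1)
        else 1) : ℝ) : ℂ) *
      ((∏ p ∈ P, (if decide (p ∈ W) = true then cp p y / ((p : ℝ) - 1) else 1) : ℝ) : ℂ) := by
    rw [← Complex.ofReal_prod, ← Complex.ofReal_mul, ← Complex.ofReal_mul,
      ← Finset.prod_mul_distrib, ← Finset.prod_mul_distrib]
    rfl
  rw [h1, h4 V _ hVP, h4 W _ hWP, h5]
  push_cast
  ring

/-- the product of the local bounds -/
private noncomputable def cq_T (m n E : ℕ) (P U V W : Finset ℕ) : ℝ :=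
  ∏ p ∈ P, ((if decide (p ∈ U) = true then (8 : ℝ) else 1) *
    (if p ∣ E then 1 else la m n p (decide (p ∈ U)) (decide (p ∈ V)) (decide (p ∈ W))))

private theorem cq_T_nonneg (h2 : St_La) {m n E : ℕ} {P U V W : Finset ℕ}
    (hP : ∀ p ∈ P, p.Prime) : 0 ≤ cq_T m n E P U V W := by
  refine Finset.prod_nonneg fun p hp => mul_nonneg ?_ ?_
  · split_ifs <;> norm_num
  · split_ifs
    · norm_num
    · exact (h2 m n p _ _ _ (hP p hp)).2.2.1

private theorem cq_mean (h1 : St_Or) (h2 : St_La) {Q D m n r r' d : ℕ} {Φ : ℤ → ℂ}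
    {V W : Finset ℕ} (hm : 1 ≤ m) (hr : 1 ≤ r) (hr' : 1 ≤ r') (hE : r * r' * m ≤ Q)
    (hd : Squarefree d) (hd2 : ¬ 2 ∣ d) (hdD : d ≤ D) (hΦ : Per (r * r') Φ)
    (hΦ1 : ∀ y, ‖Φ y‖ ≤ 1) (hV : V ⊆ pz Q) (hW : W ⊆ pz Q) :
    8 ^ d.primeFactors.card * ‖mn (MF Q D) (fun y => Φ y *
      (if (d : ℤ) ∣ y ^ 2 - 2 then (1 : ℂ) else 0) *
      ((∏ p ∈ V, (-(cp p ((n : ℤ) - m * y) / ((p : ℝ) - 1))) : ℝ) : ℂ) *
      ((∏ p ∈ W, (-(cp p y / ((p : ℝ) - 1))) : ℝ) : ℂ))‖ ≤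
    cq_T m n (r * r' * m) (pz (Q + D)) d.primeFactors V W := by
  classical
  set P := pz (Q + D) with hP
  set U := d.primeFactors with hU
  have hPp : ∀ p ∈ P, p.Prime := fun p hp => (cq_mem_pz.1 hp).1
  have hUP : U ⊆ P := by
    intro p hp
    have h3 := Nat.prime_of_mem_primeFactors hp
    have h4 : p ≤ d := Nat.le_of_mem_primeFactors hp
    exact cq_mem_pz.2 ⟨h3, by omega⟩
  have hVP : V ⊆ P := hV.trans (cq_pz_mono (by omega))
  have hWP : W ⊆ P := hW.trans (cq_pz_mono (by omega))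
  have hE1 : 1 ≤ r * r' * m := Nat.mul_pos (Nat.mul_pos hr hr') hm
  have hfun := funext fun y : ℤ => cq_prod (m := m) (n := n) hd hU.symm hUP hVP hWP Φ y
  rw [hfun]
  have hperm : Per (r * r' * m) (fun y => (-1) ^ V.card * (-1) ^ W.card * Φ y) := by
    intro y
    have h3 : ∀ k : ℕ, Φ (y + ((r * r' * k : ℕ) : ℤ)) = Φ y := by
      intro k
      induction k with
      | zero => simp
      | succ k ih =>
        have h4 : y + ((r * r' * (k + 1) : ℕ) : ℤ) =
            (y + ((r * r' * k : ℕ) : ℤ)) + ((r * r' : ℕ) : ℤ) := by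
          push_cast
          ring
        rw [h4, hΦ, ih]
    beta_reduce
    rw [h3 m]
  have h3 := h1 (MF Q D) (r * r' * m) P
    (fun p y => ((lf m n p (decide (p ∈ U)) (decide (p ∈ V)) (decide (p ∈ W)) y : ℝ) : ℂ))
    (fun y => (-1) ^ V.card * (-1) ^ W.card * Φ y) (Nat.factorial_pos _) hE1
    (Nat.dvd_factorial hE1 (by omega))
    (fun p hp => ⟨hPp p hp, Nat.dvd_factorial (hPp p hp).pos (cq_mem_pz.1 hp).2⟩) hperm
    (by
      intro y
      rw [norm_mul, norm_mul, norm_pow, norm_pow, norm_neg, norm_one, one_pow, one_pow, one_mul,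
        one_mul]
      exact hΦ1 y)
    (fun p hp => (h2 m n p _ _ _ (hPp p hp)).1)
    (fun p hp y => by
      rw [Complex.norm_real]
      exact (h2 m n p _ _ _ (hPp p hp)).2.1 y)
  have h4 : ∏ p ∈ P.filter (fun p => ¬ p ∣ r * r' * m), ‖mn p (fun y =>
      ((lf m n p (decide (p ∈ U)) (decide (p ∈ V)) (decide (p ∈ W)) y : ℝ) : ℂ))‖ ≤
      ∏ p ∈ P, (if p ∣ r * r' * m then 1 else
        la m n p (decide (p ∈ U)) (decide (p ∈ V)) (decide (p ∈ W))) := by
    have h5 : ∀ g : ℕ → ℝ, ∏ p ∈ P, (if p ∣ r * r' * m then 1 else g p) =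
        ∏ p ∈ P.filter (fun p => ¬ p ∣ r * r' * m), g p := by
      intro g
      rw [Finset.prod_filter]
      refine Finset.prod_congr rfl fun p _ => ?_
      by_cases h : p ∣ r * r' * m
      · rw [if_pos h, if_neg (not_not.2 h)]
      · rw [if_neg h, if_pos h]
    rw [h5]
    refine Finset.prod_le_prod (fun p _ => norm_nonneg _) fun p hp => ?_
    obtain ⟨hp1, hp2⟩ := Finset.mem_filter.1 hp
    refine (h2 m n p _ _ _ (hPp p hp1)).2.2.2 (fun h => hp2 (h.mul_left _)) fun hu h => ?_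
    have hpU : p ∈ U := of_decide_eq_true hu
    rw [h] at hpU
    exact hd2 (Nat.dvd_of_mem_primeFactors hpU)
  have h6 : (8 : ℝ) ^ U.card = ∏ p ∈ P, (if decide (p ∈ U) = true then (8 : ℝ) else 1) := by
    simp only [decide_eq_true_eq]
    rw [Finset.prod_ite_mem, Finset.inter_eq_right.2 hUP, Finset.prod_const]
  unfold cq_T
  rw [Finset.prod_mul_distrib, ← h6]
  exact mul_le_mul_of_nonneg_left (h3.trans h4) (by positivity)

private theorem cq_sqrt {S : Finset ℕ} (a Q : ℝ) :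
    Real.sqrt (a * (∏ p ∈ S, (p : ℝ)) / Q) = Real.sqrt (a / Q) * ∏ p ∈ S, Real.sqrt p := by
  have h1 : Real.sqrt (∏ p ∈ S, (p : ℝ)) = ∏ p ∈ S, Real.sqrt p := by
    classical
    induction S using Finset.induction_on with
    | empty => simp
    | insert p S hp ih =>
      rw [Finset.prod_insert hp, Finset.prod_insert hp, Real.sqrt_mul (Nat.cast_nonneg p), ih]
  rw [← h1, ← Real.sqrt_mul' _ (Finset.prod_nonneg fun p _ => Nat.cast_nonneg p)]
  congr 1
  ring

/-- a missing pair -/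
private theorem cq_missing {Q r r' : ℕ} {V W : Finset ℕ} (hQ : 1 ≤ Q)
    (h : Q < r * ∏ p ∈ V, p ∨ Q < r' * ∏ p ∈ W, p) :
    1 ≤ Real.sqrt (r / Q) * ∏ p ∈ V, Real.sqrt p + Real.sqrt (r' / Q) * ∏ p ∈ W, Real.sqrt p := by
  have key : ∀ (a : ℕ) (S : Finset ℕ), Q < a * ∏ p ∈ S, p →
      1 ≤ Real.sqrt ((a : ℝ) / Q) * ∏ p ∈ S, Real.sqrt p := by
    intro a S h1
    rw [← cq_sqrt (a : ℝ) (Q : ℝ), Real.one_le_sqrt,
      le_div_iff₀ (by exact_mod_cast hQ), one_mul]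
    have h2 : (Q : ℝ) ≤ ((a * ∏ p ∈ S, p : ℕ) : ℝ) := by exact_mod_cast h1.le
    push_cast at h2
    exact h2
  have hn : ∀ (a : ℕ) (S : Finset ℕ), 0 ≤ Real.sqrt ((a : ℝ) / Q) * ∏ p ∈ S, Real.sqrt p :=
    fun a S => mul_nonneg (Real.sqrt_nonneg _) (Finset.prod_nonneg fun p _ => Real.sqrt_nonneg _)
  rcases h with h | h
  · have := key r V h
    have := hn r' W
    linarith
  · have := key r' W h
    have := hn r V
    linarith

/-- CQ. -/
theorem thm_Cq (h1 : St_Or) (h2 : St_La) (h3 : St_Tr) (h4 : St_Pr) : St_Cq := by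
  classical
  intro C ε hε
  have hev : ∀ᶠ X : ℕ in atTop, C ≤ (X : ℝ) ^ (ε / 2) :=
    (tendsto_natCast_atTop_atTop.eventually
      ((tendsto_rpow_atTop (half_pos hε)).eventually_ge_atTop C))
  filter_upwards [h4 (ε / 2) (half_pos hε), hev, eventually_ge_atTop 1] with X hX hCX hX1
  intro Q D m n r r' c Φ A hQ hQD hm hn hnX hr hr' hE hc hΦ hΦ1 hA
  set P := pz (Q + D) with hP
  set E := r * r' * m with hEd
  have hE1 : 1 ≤ E := Nat.mul_pos (Nat.mul_pos hr hr') hm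
  have hPp : ∀ p ∈ P, p.Prime := fun p hp => (cq_mem_pz.1 hp).1
  have hC0 : 0 ≤ C := by
    have h5 := hc.bound 0
    rw [Nat.primeFactors_zero, Finset.card_empty, pow_zero, mul_one] at h5
    exact (abs_nonneg _).trans h5
  have hmX : m ≤ X := by
    have h5 : m ≤ r * r' * m := Nat.le_mul_of_pos_left m (Nat.mul_pos hr hr')
    omega
  have hPr := hX m n E (Q + D) hm hmX hn hnX hE1 (by omega) hQD
  set ρ : ℝ := Real.sqrt (r / Q) with hρ
  set ρ' : ℝ := Real.sqrt (r' / Q) with hρ'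
  have hρ0 : 0 ≤ ρ := Real.sqrt_nonneg _
  have hρ'0 : 0 ≤ ρ' := Real.sqrt_nonneg _
  have hs0 : ∀ S : Finset ℕ, 0 ≤ ∏ p ∈ S, Real.sqrt p := fun S =>
    Finset.prod_nonneg fun p _ => Real.sqrt_nonneg _
  set G : Finset ℕ → Finset ℕ → Finset ℕ → ℝ := fun U V W =>
    C * (cq_T m n E P U V W * (ρ * ∏ p ∈ V, Real.sqrt p + ρ' * ∏ p ∈ W, Real.sqrt p)) with hG
  have hG0 : ∀ U V W, 0 ≤ G U V W := by
    intro U V W
    refine mul_nonneg hC0 (mul_nonneg (cq_T_nonneg h2 hPp) ?_)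
    exact add_nonneg (mul_nonneg hρ0 (hs0 V)) (mul_nonneg hρ'0 (hs0 W))
  set f : ℕ → Finset ℕ × Finset ℕ → ℝ := fun d v => ‖mn (MF Q D) (fun y => Φ y *
      (if (d : ℤ) ∣ y ^ 2 - 2 then (1 : ℂ) else 0) *
      ((∏ p ∈ v.1, (-(cp p ((n : ℤ) - m * y) / ((p : ℝ) - 1))) : ℝ) : ℂ) *
      ((∏ p ∈ v.2, (-(cp p y / ((p : ℝ) - 1))) : ℝ) : ℂ))‖ with hf
  -- one term
  have hterm : ∀ d ∈ (Icc 1 D).filter (fun d => c d ≠ 0), ∀ v ∈ A,
      |c d| * f d v ≤ G d.primeFactors v.1 v.2 := by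
    intro d hd v hv
    obtain ⟨hd1, hd2⟩ := Finset.mem_filter.1 hd
    obtain ⟨hsq, hodd, hdD⟩ := hc.supp d hd2
    obtain ⟨hV, hW, hmiss⟩ := hA v hv
    have h5 := cq_mean (n := n) h1 h2 hm hr hr' hE hsq hodd hdD hΦ hΦ1 hV hW
    have h6 := cq_missing hQ hmiss
    have h7 : 0 ≤ f d v := norm_nonneg _
    calc |c d| * f d v ≤ (C * 8 ^ d.primeFactors.card) * f d v :=
          mul_le_mul_of_nonneg_right (hc.bound d) h7
      _ = C * (8 ^ d.primeFactors.card * f d v) := by ring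
      _ ≤ C * cq_T m n E P d.primeFactors v.1 v.2 := mul_le_mul_of_nonneg_left h5 hC0
      _ = C * (cq_T m n E P d.primeFactors v.1 v.2 * 1) := by rw [mul_one]
      _ ≤ G d.primeFactors v.1 v.2 := by
          refine mul_le_mul_of_nonneg_left ?_ hC0
          exact mul_le_mul_of_nonneg_left h6 (cq_T_nonneg h2 hPp)
  -- the sum over `d`
  have hsum1 : ∑ d ∈ Icc 1 D, |c d| * ∑ v ∈ A, f d v ≤
      ∑ d ∈ (Icc 1 D).filter (fun d => c d ≠ 0), ∑ v ∈ A, G d.primeFactors v.1 v.2 := by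
    rw [Finset.sum_filter]
    refine Finset.sum_le_sum fun d hd => ?_
    by_cases h5 : c d = 0
    · rw [if_neg (not_not.2 h5), h5, abs_zero, zero_mul]
    · rw [if_pos h5, Finset.mul_sum]
      exact Finset.sum_le_sum fun v hv => hterm d (Finset.mem_filter.2 ⟨hd, h5⟩) v hv
  have hinj : Set.InjOn Nat.primeFactors
      (((Icc 1 D).filter (fun d => c d ≠ 0) : Finset ℕ) : Set ℕ) := by
    intro d hd d' hd' hdd
    have h5 := (hc.supp d (Finset.mem_filter.1 hd).2).1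
    have h6 := (hc.supp d' (Finset.mem_filter.1 hd').2).1
    rw [← Nat.prod_primeFactors_of_squarefree h5, ← Nat.prod_primeFactors_of_squarefree h6]
    rw [hdd]
  have hsum2 : ∑ d ∈ (Icc 1 D).filter (fun d => c d ≠ 0), ∑ v ∈ A, G d.primeFactors v.1 v.2 ≤
      ∑ U ∈ P.powerset, ∑ V ∈ P.powerset, ∑ W ∈ P.powerset, G U V W := by
    have h5 : ∀ U, ∑ v ∈ A, G U v.1 v.2 ≤ ∑ V ∈ P.powerset, ∑ W ∈ P.powerset, G U V W := by
      intro U
      rw [← Finset.sum_product']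
      refine Finset.sum_le_sum_of_subset_of_nonneg ?_ fun v _ _ => hG0 U v.1 v.2
      intro v hv
      obtain ⟨hV, hW, -⟩ := hA v hv
      have h6 : pz Q ⊆ P := cq_pz_mono (by omega)
      exact Finset.mem_product.2 ⟨Finset.mem_powerset.2 (hV.trans h6),
        Finset.mem_powerset.2 (hW.trans h6)⟩
    calc ∑ d ∈ (Icc 1 D).filter (fun d => c d ≠ 0), ∑ v ∈ A, G d.primeFactors v.1 v.2
        ≤ ∑ d ∈ (Icc 1 D).filter (fun d => c d ≠ 0),
            ∑ V ∈ P.powerset, ∑ W ∈ P.powerset, G d.primeFactors V W :=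
          Finset.sum_le_sum fun d _ => h5 _
      _ = ∑ U ∈ ((Icc 1 D).filter (fun d => c d ≠ 0)).image Nat.primeFactors,
            ∑ V ∈ P.powerset, ∑ W ∈ P.powerset, G U V W := by
          rw [Finset.sum_image hinj]
      _ ≤ _ := by
          refine Finset.sum_le_sum_of_subset_of_nonneg ?_ fun U _ _ =>
            Finset.sum_nonneg fun V _ => Finset.sum_nonneg fun W _ => hG0 U V W
          intro U hU
          obtain ⟨d, hd, rfl⟩ := Finset.mem_image.1 hU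
          have h6 := (hc.supp d (Finset.mem_filter.1 hd).2).2.2
          refine Finset.mem_powerset.2 fun p hp => cq_mem_pz.2
            ⟨Nat.prime_of_mem_primeFactors hp, ?_⟩
          have h7 : p ≤ d := Nat.le_of_mem_primeFactors hp
          omega
  -- the products
  have hA1 : ∑ U ∈ P.powerset, ∑ V ∈ P.powerset, ∑ W ∈ P.powerset,
      cq_T m n E P U V W * ∏ p ∈ V, Real.sqrt p =
      ∏ p ∈ P, ls m n E p (fun v _ => if v = true then Real.sqrt p else 1) := by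
    have h5 := h3 P (fun p u v w => (if u = true then (8 : ℝ) else 1) *
      (if p ∣ E then 1 else la m n p u v w) * (if v = true then Real.sqrt p else 1))
    unfold ls
    rw [← h5]
    refine Finset.sum_congr rfl fun U _ => Finset.sum_congr rfl fun V hV =>
      Finset.sum_congr rfl fun W _ => ?_
    rw [Finset.prod_mul_distrib]
    congr 1
    simp only [decide_eq_true_eq]
    rw [Finset.prod_ite_mem, Finset.inter_eq_right.2 (Finset.mem_powerset.1 hV)]
  have hA2 : ∑ U ∈ P.powerset, ∑ V ∈ P.powerset, ∑ W ∈ P.powerset,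
      cq_T m n E P U V W * ∏ p ∈ W, Real.sqrt p =
      ∏ p ∈ P, ls m n E p (fun _ w => if w = true then Real.sqrt p else 1) := by
    have h5 := h3 P (fun p u v w => (if u = true then (8 : ℝ) else 1) *
      (if p ∣ E then 1 else la m n p u v w) * (if w = true then Real.sqrt p else 1))
    unfold ls
    rw [← h5]
    refine Finset.sum_congr rfl fun U _ => Finset.sum_congr rfl fun V _ =>
      Finset.sum_congr rfl fun W hW => ?_
    rw [Finset.prod_mul_distrib]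
    congr 1
    simp only [decide_eq_true_eq]
    rw [Finset.prod_ite_mem, Finset.inter_eq_right.2 (Finset.mem_powerset.1 hW)]
  have hsum3 : ∑ U ∈ P.powerset, ∑ V ∈ P.powerset, ∑ W ∈ P.powerset, G U V W =
      C * (ρ * ∏ p ∈ P, ls m n E p (fun v _ => if v = true then Real.sqrt p else 1) +
        ρ' * ∏ p ∈ P, ls m n E p (fun _ w => if w = true then Real.sqrt p else 1)) := by
    rw [← hA1, ← hA2]
    simp only [Finset.mul_sum, ← Finset.sum_add_distrib]
    refine Finset.sum_congr rfl fun U _ => Finset.sum_congr rfl fun V _ =>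
      Finset.sum_congr rfl fun W _ => ?_
    rw [hG]
    ring
  have hXp : 0 ≤ (X : ℝ) ^ (ε / 2) := Real.rpow_nonneg (Nat.cast_nonneg X) _
  have hsE : 0 ≤ Real.sqrt E := Real.sqrt_nonneg _
  have hEc : ((E : ℕ) : ℝ) = (r : ℝ) * r' * m := by
    rw [hEd]
    push_cast
    ring
  have hXX : (X : ℝ) ^ ε = (X : ℝ) ^ (ε / 2) * (X : ℝ) ^ (ε / 2) := by
    rw [← Real.rpow_add (by exact_mod_cast hX1)]
    congr 1
    ring
  calc ∑ d ∈ Icc 1 D, |c d| * ∑ v ∈ A, f d v
      ≤ C * (ρ * ∏ p ∈ P, ls m n E p (fun v _ => if v = true then Real.sqrt p else 1) +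
        ρ' * ∏ p ∈ P, ls m n E p (fun _ w => if w = true then Real.sqrt p else 1)) := by
        rw [← hsum3]
        exact hsum1.trans hsum2
    _ ≤ C * (ρ * ((X : ℝ) ^ (ε / 2) * Real.sqrt E) + ρ' * ((X : ℝ) ^ (ε / 2) * Real.sqrt E)) := by
        refine mul_le_mul_of_nonneg_left (add_le_add ?_ ?_) hC0
        · exact mul_le_mul_of_nonneg_left hPr.1 hρ0
        · exact mul_le_mul_of_nonneg_left hPr.2 hρ'0
    _ ≤ (X : ℝ) ^ (ε / 2) * (ρ * ((X : ℝ) ^ (ε / 2) * Real.sqrt E) +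
          ρ' * ((X : ℝ) ^ (ε / 2) * Real.sqrt E)) := by
        refine mul_le_mul_of_nonneg_right hCX ?_
        positivity
    _ = (X : ℝ) ^ ε * Real.sqrt (r * r' * m) * (ρ + ρ') := by
        rw [hXX, ← hEc]
        ring

end Pool.Agent.MV5
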