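import Pool.Agent.MV5.StC
import Pool.Agent.LIN.Mt8
import Pool.Agent.GBQ.Basic

/-!
# MV5 / Dn: the densities satisfy the theorem of Mertens (helper93)
-/

set_option autoImplicit false

namespace Pool.Agent.MV5

open Finset Filter
open Pool.Agent.GBQ (ee lam nd Admissible g8)
open Pool.Agent.LIN (PP pz Dens)

/-- the number of roots of `y^2 = 2` modulo an odd prime -/
theorem dn_rt (p : ℕ) (hp : p.Prime) (hp2 : p ≠ 2) :
    (RT p).card = if p % 8 = 1 ∨ p % 8 = 7 then 2 else 0 := by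
  have : Fact p.Prime := ⟨hp⟩
  have hdvd : ∀ y : ℕ, (p : ℤ) ∣ (y : ℤ) ^ 2 - 2 ↔ ((y : ZMod p)) ^ 2 = 2 := by
    intro y
    rw [← ZMod.intCast_zmod_eq_zero_iff_dvd]
    push_cast
    exact sub_eq_zero
  split_ifs with h
  · obtain ⟨a, ha⟩ := (ZMod.exists_sq_eq_two_iff hp2).2 h
    have ha2 : a ^ 2 = 2 := by rw [sq]; exact ha.symm
    have hal : a.val < p := ZMod.val_lt a
    have haz : ((a.val : ℕ) : ZMod p) = a := ZMod.natCast_zmod_val a
    have hodd : p % 2 = 1 := hp.eq_two_or_odd.resolve_left hp2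
    have ha0 : a.val ≠ 0 := by
      intro h0
      have h1 : a = 0 := by rw [← haz, h0, Nat.cast_zero]
      have h2 : (2 : ZMod p) = 0 := by rw [← ha2, h1]; ring
      have h3 : ((2 : ℕ) : ZMod p) = 0 := by exact_mod_cast h2
      have h4 := (ZMod.natCast_eq_zero_iff 2 p).1 h3
      have h5 := Nat.le_of_dvd (by norm_num) h4
      have h6 := hp.two_le
      omega
    have hset : RT p = {a.val, p - a.val} := by
      ext y
      unfold RT
      rw [Finset.mem_filter, Finset.mem_range, hdvd, Finset.mem_insert, Finset.mem_singleton]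
      constructor
      · rintro ⟨hy, hy2⟩
        have h1 : ((y : ZMod p) - a) * ((y : ZMod p) + a) = 0 := by
          have e : ((y : ZMod p) - a) * ((y : ZMod p) + a) = (y : ZMod p) ^ 2 - a ^ 2 := by ring
          rw [e, hy2, ha2, sub_self]
        rcases mul_eq_zero.1 h1 with h2 | h2
        · left
          have h3 : (y : ZMod p) = a := sub_eq_zero.1 h2
          rw [← h3, ZMod.val_natCast_of_lt hy]
        · right
          have h3 : ((y + a.val : ℕ) : ZMod p) = 0 := by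
            push_cast
            rw [haz]
            exact h2
          obtain ⟨k, hk⟩ := (ZMod.natCast_eq_zero_iff _ p).1 h3
          have hk1 : k = 1 := by
            have h5 : k ≠ 0 := by
              rintro rfl
              omega
            have h6 : k < 2 := by
              by_contra h7
              have h8 : p * 2 ≤ p * k := Nat.mul_le_mul_left p (by omega)
              omega
            omega
          rw [hk1, mul_one] at hk
          omega
      · rintro (h1 | h1)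
        · rw [h1, haz]
          exact ⟨hal, ha2⟩
        · have h2 : y < p := by omega
          refine ⟨h2, ?_⟩
          have h3 : ((y + a.val : ℕ) : ZMod p) = 0 := by
            have h4 : y + a.val = p := by omega
            rw [h4, ZMod.natCast_self]
          push_cast at h3
          rw [haz] at h3
          have h4 : (y : ZMod p) = -a := eq_neg_of_add_eq_zero_left h3
          rw [h4, neg_sq, ha2]
    rw [hset]
    exact Finset.card_pair (by omega)
  · rw [Finset.card_eq_zero]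
    unfold RT
    rw [Finset.filter_eq_empty_iff]
    intro y _ hy
    rw [hdvd] at hy
    exact h ((ZMod.exists_sq_eq_two_iff hp2).1 ⟨(y : ZMod p), by rw [← hy, sq]⟩)

theorem dn_nA (m n p : ℕ) (hp : p.Prime) (hpm : ¬ p ∣ m) (hpn : ¬ p ∣ n) :
    nA m n p + 2 = p := by
  have : Fact p.Prime := ⟨hp⟩
  have hm : (m : ZMod p) ≠ 0 := fun h => hpm ((ZMod.natCast_eq_zero_iff m p).1 h)
  have hn : (n : ZMod p) ≠ 0 := fun h => hpn ((ZMod.natCast_eq_zero_iff n p).1 h)
  obtain ⟨b, hb⟩ : ∃ b : ZMod p, b = (n : ZMod p) * (m : ZMod p)⁻¹ := ⟨_, rfl⟩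
  have hb0 : b ≠ 0 := by
    rw [hb]
    exact mul_ne_zero hn (inv_ne_zero hm)
  have hbv : b.val ≠ 0 := fun h => hb0 ((ZMod.val_eq_zero b).1 h)
  have hbl : b.val < p := ZMod.val_lt b
  have hset : (range p).filter (fun y : ℕ => ¬ (p : ℤ) ∣ (y : ℤ) ∧ ¬ (p : ℤ) ∣ (n : ℤ) - m * y) =
      range p \ {0, b.val} := by
    ext y
    rw [Finset.mem_filter, Finset.mem_sdiff, Finset.mem_insert, Finset.mem_singleton]
    refine and_congr_right fun hy => ?_
    rw [Finset.mem_range] at hy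
    rw [not_or]
    refine and_congr (not_congr ?_) (not_congr ?_)
    · constructor
      · intro h
        exact Nat.eq_zero_of_dvd_of_lt (Int.natCast_dvd_natCast.1 h) hy
      · intro h
        rw [h]
        exact dvd_zero _
    · rw [← ZMod.intCast_zmod_eq_zero_iff_dvd]
      push_cast
      rw [sub_eq_zero]
      constructor
      · intro h
        have h1 : (y : ZMod p) = b := by
          rw [hb, h]
          field_simp
        rw [← h1, ZMod.val_natCast_of_lt hy]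
      · intro h
        have h1 : (y : ZMod p) = b := by
          rw [h]
          exact ZMod.natCast_zmod_val b
        rw [h1, hb]
        field_simp
  have h2 := hp.two_le
  unfold nA
  rw [hset, Finset.card_sdiff_of_subset, Finset.card_range, Finset.card_pair (Ne.symm hbv)]
  · omega
  · intro y hy
    rw [Finset.mem_insert, Finset.mem_singleton] at hy
    rw [Finset.mem_range]
    rcases hy with rfl | rfl <;> omega

theorem dn_nB (m n p : ℕ) (hp : p.Prime) (hp2 : p ≠ 2)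
    (hd : ¬ (p : ℤ) ∣ (n : ℤ) ^ 2 - 2 * (m : ℤ) ^ 2) : nB m n p = (RT p).card := by
  unfold nB RT
  congr 1
  refine Finset.filter_congr fun y _ => ?_
  constructor
  · exact fun h => h.2.2
  · intro h
    refine ⟨fun h1 => ?_, fun h1 => ?_, h⟩
    · have h3 : (p : ℤ) ∣ 2 := by
        have h4 := dvd_sub (dvd_pow h1 two_ne_zero) h
        rwa [sub_sub_cancel] at h4
      have h4 : p ∣ 2 := by exact_mod_cast h3
      exact hp2 ((Nat.prime_dvd_prime_iff_eq hp Nat.prime_two).1 h4)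
    · apply hd
      have e : (n : ℤ) ^ 2 - 2 * (m : ℤ) ^ 2 = ((n : ℤ) - m * y) * ((n : ℤ) + m * y) +
          (m : ℤ) ^ 2 * ((y : ℤ) ^ 2 - 2) := by ring
      rw [e]
      exact dvd_add (h1.mul_right _) (h.mul_left _)

theorem dn_diff (Q q₁ m n p : ℕ) (hp : p.Prime) (hp2 : p ≠ 2) (hq : ¬ p ∣ q₁) (hpm : ¬ p ∣ m)
    (hpn : ¬ p ∣ n) (hd : ¬ (p : ℤ) ∣ (n : ℤ) ^ 2 - 2 * (m : ℤ) ^ 2) :
    |gl Q q₁ m n p - g8 p| ≤ 8 * ((p : ℝ) ^ 2)⁻¹ := by
  have h2q : ¬ p ∣ 2 * q₁ := by
    intro h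
    rcases (hp.dvd_mul).1 h with h1 | h1
    · exact hp2 ((Nat.prime_dvd_prime_iff_eq hp Nat.prime_two).1 h1)
    · exact hq h1
  have hA := dn_nA m n p hp hpm hpn
  have hB := dn_nB m n p hp hp2 hd
  have hR := dn_rt p hp hp2
  unfold gl g8
  rw [if_neg h2q, hB, hR]
  by_cases h : p % 8 = 1 ∨ p % 8 = 7
  · rw [if_pos h, if_pos h]
    have hp7 : 7 ≤ p := by
      have := hp.two_le
      omega
    have hp7r : (7 : ℝ) ≤ p := by exact_mod_cast hp7
    have hAr : (nA m n p : ℝ) = p - 2 := by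
      have : ((nA m n p + 2 : ℕ) : ℝ) = p := by exact_mod_cast congrArg (Nat.cast (R := ℝ)) hA
      push_cast at this
      linarith
    have h1 : (0 : ℝ) < (p : ℝ) - 1 := by linarith
    have h2 : (0 : ℝ) < (p : ℝ) - 2 := by linarith
    have h0 : (0 : ℝ) < p := by linarith
    split_ifs with hQ
    · rw [hAr]
      push_cast
      have e : (2 : ℝ) / (p - 2) - 2 / (p - 1) = 2 / ((p - 1) * (p - 2)) := by
        field_simp
        ring
      rw [e, abs_of_nonneg (by positivity), ← div_eq_mul_inv, div_le_div_iff₀ (by positivity)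
        (by positivity)]
      nlinarith
    · push_cast
      have e : (2 : ℝ) / p - 2 / (p - 1) = -(2 / (p * (p - 1))) := by
        field_simp
        ring
      rw [e, abs_neg, abs_of_nonneg (by positivity), ← div_eq_mul_inv,
        div_le_div_iff₀ (by positivity) (by positivity)]
      nlinarith
  · rw [if_neg h, if_neg h]
    simp only [Nat.cast_zero, zero_div, ite_self, sub_self, abs_zero]
    positivity

/-- the number of large prime factors -/
theorem dn_count (N w : ℕ) (hN : N ≠ 0) :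
    ((N.primeFactors.filter fun p => w < p).card : ℝ) * Real.log w ≤ Real.log N := by
  have h1 : w ^ (N.primeFactors.filter fun p => w < p).card ≤ N := by
    have h2 : w ^ (N.primeFactors.filter fun p => w < p).card ≤
        ∏ p ∈ N.primeFactors.filter fun p => w < p, p := by
      rw [← Finset.prod_const]
      refine Finset.prod_le_prod (fun p _ => Nat.zero_le _) fun p hp => ?_
      exact (Finset.mem_filter.1 hp).2.le
    have h3 : ∏ p ∈ N.primeFactors.filter fun p => w < p, p ≤ ∏ p ∈ N.primeFactors, p := by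
      refine Finset.prod_le_prod_of_subset_of_one_le' (Finset.filter_subset _ _) fun p hp _ => ?_
      exact (Nat.prime_of_mem_primeFactors hp).one_lt.le
    exact h2.trans (h3.trans (Nat.le_of_dvd (Nat.pos_of_ne_zero hN) (Nat.prod_primeFactors_dvd N)))
  rcases Nat.eq_zero_or_pos w with h0 | h0
  · rw [h0]
    simp only [Nat.cast_zero, Real.log_zero, mul_zero]
    exact Real.log_natCast_nonneg N
  · rw [← Real.log_pow]
    apply Real.log_le_log
    · positivity
    · exact_mod_cast h1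

theorem dn_sum (h : St_Gl) (Q q₁ m n N w u v : ℕ) (hc : n.Coprime m) (hpar : (n + m) % 2 = 1)
    (hN : N ≠ 0) (hw : 1 ≤ w) (hwu : w ≤ u) (huv : u ≤ v)
    (hNd : ∀ p : ℕ, p.Prime → ¬ p ∣ N → p ≠ 2 ∧ ¬ p ∣ q₁ ∧ ¬ p ∣ m ∧ ¬ p ∣ n ∧
      ¬ (p : ℤ) ∣ (n : ℤ) ^ 2 - 2 * (m : ℤ) ^ 2) :
    |∑ p ∈ (Ioc u v).filter Nat.Prime, gl Q q₁ m n p - ∑ p ∈ (Ioc u v).filter Nat.Prime, g8 p| ≤
      8 / w + (N.primeFactors.filter fun p => w < p).card * (4 / w) := by
  have hw0 : (0 : ℝ) < w := by exact_mod_cast hw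
  rw [← Finset.sum_sub_distrib]
  refine (Finset.abs_sum_le_sum_abs _ _).trans ?_
  have h1 : ∀ p ∈ (Ioc u v).filter Nat.Prime, |gl Q q₁ m n p - g8 p| ≤
      8 * ((p : ℝ) ^ 2)⁻¹ + if p ∣ N then 4 / (w : ℝ) else 0 := by
    intro p hp
    rw [Finset.mem_filter, Finset.mem_Ioc] at hp
    have hp0 : (0 : ℝ) < p := by exact_mod_cast hp.2.pos
    by_cases hd : p ∣ N
    · rw [if_pos hd]
      obtain ⟨g1, -, g3, -⟩ := h Q q₁ m n hc hpar p hp.2
      have g4 := Pool.Agent.GBQ.g8_nonneg hp.2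
      have h2r : (2 : ℝ) ≤ p := by exact_mod_cast hp.2.two_le
      have g5 : g8 p ≤ 4 / p := by
        unfold Pool.Agent.GBQ.g8
        split_ifs
        · rw [div_le_div_iff₀ (by linarith) hp0]
          linarith
        · positivity
      have g6 : |gl Q q₁ m n p - g8 p| ≤ 4 / p := by
        rw [abs_le]
        constructor <;> linarith
      have hwp : (w : ℝ) ≤ p := by exact_mod_cast (hwu.trans hp.1.1.le)
      have g7 : (4 : ℝ) / p ≤ 4 / w := div_le_div_of_nonneg_left (by norm_num) hw0 hwp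
      have g8' : (0 : ℝ) ≤ 8 * ((p : ℝ) ^ 2)⁻¹ := by positivity
      linarith
    · rw [if_neg hd, add_zero]
      obtain ⟨k1, k2, k3, k4, k5⟩ := hNd p hp.2 hd
      exact dn_diff Q q₁ m n p hp.2 k1 k2 k3 k4 k5
  refine (Finset.sum_le_sum h1).trans ?_
  rw [Finset.sum_add_distrib]
  refine add_le_add ?_ ?_
  · rw [← Finset.mul_sum]
    have hu0 : u ≠ 0 := by omega
    have h2 : ∑ p ∈ (Ioc u v).filter Nat.Prime, ((p : ℝ) ^ 2)⁻¹ ≤
        ∑ p ∈ Ioc u v, ((p : ℝ) ^ 2)⁻¹ :=
      Finset.sum_le_sum_of_subset_of_nonneg (Finset.filter_subset _ _) fun p _ _ => by positivity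
    have h3 := sum_Ioc_inv_sq_le_sub (α := ℝ) hu0 huv
    have h4 : (0 : ℝ) ≤ (v : ℝ)⁻¹ := by positivity
    have h5 : (u : ℝ)⁻¹ ≤ (w : ℝ)⁻¹ := inv_anti₀ hw0 (by exact_mod_cast hwu)
    rw [div_eq_mul_inv]
    linarith
  · rw [← Finset.sum_filter, Finset.sum_const, nsmul_eq_mul]
    refine mul_le_mul_of_nonneg_right ?_ (by positivity)
    have h2 : ((Ioc u v).filter Nat.Prime).filter (fun p => p ∣ N) ⊆
        N.primeFactors.filter fun p => w < p := by
      intro p hp
      rw [Finset.mem_filter, Finset.mem_filter, Finset.mem_Ioc] at hp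
      rw [Finset.mem_filter, Nat.mem_primeFactors]
      exact ⟨⟨hp.1.2, hp.2, hN⟩, lt_of_le_of_lt hwu hp.1.1.1⟩
    exact_mod_cast Finset.card_le_card h2

theorem thm_Dn (h : St_Gl) : St_Dn := by
  intro δ₀ η₀ hδ0 hδ1 hη0
  obtain ⟨C, hC0, hC⟩ := Pool.Agent.LIN.thm_Mt8
  have hpow : Tendsto (fun X : ℕ => (X : ℝ) ^ (δ₀ / 4)) atTop atTop :=
    (tendsto_rpow_atTop (by positivity)).comp tendsto_natCast_atTop_atTop
  have hlog : Tendsto (fun X : ℕ => Real.log X) atTop atTop :=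
    Real.tendsto_log_atTop.comp tendsto_natCast_atTop_atTop
  filter_upwards [hpow.eventually_ge_atTop 3,
    hpow.eventually_ge_atTop ((8 + 96 / δ₀) / (η₀ / 2)),
    hlog.eventually_ge_atTop (C / (η₀ / 2 * (δ₀ / 4))), eventually_ge_atTop 4] with X e1 e2 e3 e4
  intro K Q q₁ m n hK hm1 hmX hn1 hnX hq1 hqX hc hpar
  have hX0 : (0 : ℝ) < X := by
    have : (4 : ℝ) ≤ X := by exact_mod_cast e4
    linarith
  have hlX : 0 < Real.log X := Real.log_pos (by
    have : (4 : ℝ) ≤ X := by exact_mod_cast e4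
    linarith)
  obtain ⟨w, hw⟩ : ∃ w, w = ⌊(K : ℝ) ^ δ₀⌋₊ := ⟨_, rfl⟩
  rw [← hw]
  have hwX : (X : ℝ) ^ (δ₀ / 4) ≤ w := by
    have h1 : (X : ℝ) ^ (δ₀ / 2) ≤ (K : ℝ) ^ δ₀ := by
      have h2 := Real.rpow_le_rpow (by positivity) hK hδ0.le
      rw [← Real.rpow_mul hX0.le] at h2
      have e : (1 / 2 : ℝ) * δ₀ = δ₀ / 2 := by ring
      rwa [e] at h2
    have h2 : (X : ℝ) ^ (δ₀ / 2) = (X : ℝ) ^ (δ₀ / 4) * (X : ℝ) ^ (δ₀ / 4) := by
      rw [← Real.rpow_add hX0]
      congr 1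
      ring
    have h3 : (K : ℝ) ^ δ₀ < w + 1 := by
      rw [hw]
      exact Nat.lt_floor_add_one _
    nlinarith
  have hw3r : (3 : ℝ) ≤ w := e1.trans hwX
  have hw3 : 3 ≤ w := by exact_mod_cast hw3r
  have hw0 : (0 : ℝ) < w := by linarith
  have hlw : δ₀ / 4 * Real.log X ≤ Real.log w := by
    rw [← Real.log_rpow hX0]
    exact Real.log_le_log (by positivity) hwX
  have hlw0 : 0 < Real.log w := lt_of_lt_of_le (by positivity) hlw
  -- the exceptional primes
  obtain ⟨N, hN⟩ : ∃ N : ℕ, N = 2 * n * m * q₁ * ((n : ℤ) ^ 2 - 2 * (m : ℤ) ^ 2).natAbs :=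
    ⟨_, rfl⟩
  have hne : (n : ℤ) ^ 2 - 2 * (m : ℤ) ^ 2 ≠ 0 := by
    intro h0
    have h1 : n ^ 2 = 2 * m ^ 2 := by
      have : (n : ℤ) ^ 2 = 2 * (m : ℤ) ^ 2 := by linarith
      exact_mod_cast this
    have h2 : n % 2 = 0 := by
      have h3 : 2 ∣ n ^ 2 := ⟨m ^ 2, h1⟩
      have h4 := Nat.prime_two.dvd_of_dvd_pow h3
      omega
    have h3 : m % 2 = 1 := by omega
    obtain ⟨k, hk⟩ : ∃ k, n = 2 * k := ⟨n / 2, by omega⟩
    rw [hk] at h1
    have h4 : m ^ 2 = 2 * k ^ 2 := by nlinarith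
    have h5 : 2 ∣ m ^ 2 := ⟨k ^ 2, h4⟩
    have h6 := Nat.prime_two.dvd_of_dvd_pow h5
    omega
  have hnab : ((n : ℤ) ^ 2 - 2 * (m : ℤ) ^ 2).natAbs ≠ 0 := Int.natAbs_ne_zero.2 hne
  have hN0 : N ≠ 0 := by
    rw [hN]
    have h1 : n ≠ 0 := by omega
    have h2 : m ≠ 0 := by omega
    have h3 : q₁ ≠ 0 := by omega
    positivity
  have hNd : ∀ p : ℕ, p.Prime → ¬ p ∣ N → p ≠ 2 ∧ ¬ p ∣ q₁ ∧ ¬ p ∣ m ∧ ¬ p ∣ n ∧
      ¬ (p : ℤ) ∣ (n : ℤ) ^ 2 - 2 * (m : ℤ) ^ 2 := by
    intro p hp hpN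
    rw [hN] at hpN
    refine ⟨fun h1 => hpN ?_, fun h1 => hpN ?_, fun h1 => hpN ?_, fun h1 => hpN ?_,
      fun h1 => hpN ?_⟩
    · rw [h1]
      exact ⟨n * m * q₁ * ((n : ℤ) ^ 2 - 2 * (m : ℤ) ^ 2).natAbs, by ring⟩
    · exact (h1.mul_left _).mul_right _
    · exact ((h1.mul_left _).mul_right _).mul_right _
    · exact (((h1.mul_left _).mul_right _).mul_right _).mul_right _
    · exact (Int.natCast_dvd.1 h1).mul_left _
  have hNle : Real.log N ≤ 6 * Real.log X := by
    have h1 : ((n : ℤ) ^ 2 - 2 * (m : ℤ) ^ 2).natAbs ≤ 2 * X ^ 2 := by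
      have h2 : (n : ℤ) ^ 2 ≤ (X : ℤ) ^ 2 := by
        have : (n : ℤ) ≤ X := by exact_mod_cast hnX
        exact pow_le_pow_left₀ (by positivity) this 2
      have h3 : (m : ℤ) ^ 2 ≤ (X : ℤ) ^ 2 := by
        have : (m : ℤ) ≤ X := by exact_mod_cast hmX
        exact pow_le_pow_left₀ (by positivity) this 2
      have h4 : 0 ≤ (n : ℤ) ^ 2 := by positivity
      have h5 : 0 ≤ (m : ℤ) ^ 2 := by positivity
      have h6 : (((n : ℤ) ^ 2 - 2 * (m : ℤ) ^ 2).natAbs : ℤ) ≤ 2 * (X : ℤ) ^ 2 := by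
        rw [Int.natCast_natAbs, abs_le]
        constructor <;> linarith
      exact_mod_cast h6
    have h2 : N ≤ X ^ 6 := by
      rw [hN]
      calc 2 * n * m * q₁ * ((n : ℤ) ^ 2 - 2 * (m : ℤ) ^ 2).natAbs
          ≤ 2 * X * X * X * (2 * X ^ 2) := by gcongr
        _ = 4 * X ^ 5 := by ring
        _ ≤ X * X ^ 5 := Nat.mul_le_mul_right _ e4
        _ = X ^ 6 := by ring
    have h3 : (N : ℝ) ≤ (X : ℝ) ^ 6 := by exact_mod_cast h2
    have h4 : (0 : ℝ) < N := by exact_mod_cast Nat.pos_of_ne_zero hN0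
    have h5 := Real.log_le_log h4 h3
    rw [Real.log_pow] at h5
    exact_mod_cast h5
  have hcard : ((N.primeFactors.filter fun p => w < p).card : ℝ) ≤ 24 / δ₀ := by
    have h1 := (dn_count N w hN0).trans hNle
    have h2 : ((N.primeFactors.filter fun p => w < p).card : ℝ) * (δ₀ / 4 * Real.log X) ≤
        6 * Real.log X := (mul_le_mul_of_nonneg_left hlw (Nat.cast_nonneg _)).trans h1
    have h3 : ((N.primeFactors.filter fun p => w < p).card : ℝ) * (δ₀ / 4) ≤ 6 := by
      have h4 : ((N.primeFactors.filter fun p => w < p).card : ℝ) * (δ₀ / 4) * Real.log X ≤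
          6 * Real.log X := by linarith
      exact le_of_mul_le_mul_right h4 hlX
    rw [le_div_iff₀ hδ0]
    linarith
  refine ⟨fun p hp => (h Q q₁ m n hc hpar p hp).1, fun p hp => (h Q q₁ m n hc hpar p hp).2.1,
    fun p hp => (h Q q₁ m n hc hpar p hp).2.2.1, fun u v hwu huv _ => ?_⟩
  have hs := dn_sum h Q q₁ m n N w u v hc hpar hN0 (by omega) hwu huv hNd
  have hM := hC u v (hw3.trans hwu) huv
  have h1 : 8 / (w : ℝ) + (N.primeFactors.filter fun p => w < p).card * (4 / w) ≤ η₀ / 2 := by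
    have h2 : ((N.primeFactors.filter fun p => w < p).card : ℝ) * (4 / w) ≤
        24 / δ₀ * (4 / w) := mul_le_mul_of_nonneg_right hcard (by positivity)
    have h3 : 8 / (w : ℝ) + 24 / δ₀ * (4 / w) = (8 + 96 / δ₀) / w := by
      field_simp
      ring
    have h4 : (8 + 96 / δ₀) / w ≤ η₀ / 2 := by
      rw [div_le_iff₀ hw0]
      have h5 := (div_le_iff₀ (by positivity : (0 : ℝ) < η₀ / 2)).1 (e2.trans hwX)
      linarith
    linarith
  have h2 : C / Real.log u ≤ η₀ / 2 := by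
    have h3 : Real.log w ≤ Real.log u := Real.log_le_log hw0 (by exact_mod_cast hwu)
    have h4 : C / Real.log u ≤ C / Real.log w := div_le_div_of_nonneg_left hC0 hlw0 h3
    have h5 : C / Real.log w ≤ η₀ / 2 := by
      rw [div_le_iff₀ hlw0]
      have h6 := (div_le_iff₀ (by positivity : (0 : ℝ) < η₀ / 2 * (δ₀ / 4))).1 e3
      have h7 : η₀ / 2 * (δ₀ / 4 * Real.log X) ≤ η₀ / 2 * Real.log w :=
        mul_le_mul_of_nonneg_left hlw (by positivity)
      linarith
    exact h4.trans h5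
  have h3 := hM.trans h2
  have h4 := hs.trans h1
  rw [abs_le] at h3 h4 ⊢
  constructor <;> linarith [h3.1, h3.2, h4.1, h4.2]

end Pool.Agent.MV5
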