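import Pool.Agent.MV5.StB
import Pool.Agent.MVII.Asm

/-!
# MV5 [E1]: the mean square of the first error
-/

set_option autoImplicit false

namespace Pool.Agent.MV5

open Finset Filter
open Pool.Agent.GBQ (ee lam nd Admissible)
open Pool.Agent.MVX (Chr tent Bm Um prm Win GP)
open Pool.Agent.LIN (PP pz)
open Pool.Agent.MT (IsWt)
open Pool.Agent.MVII (TT QQ HH H0 cp cs gp GQ ar PL PM NB BI Bc Md fj rr Per mn wq Sum4 Blk Wc)

private lemma e1_ev {a : ℝ} (ha : a < 1) (C : ℝ) : ∀ᶠ X : ℕ in atTop, C * (X : ℝ) ^ a ≤ X := by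
  have h1 : Tendsto (fun X : ℕ => (X : ℝ) ^ (1 - a)) atTop atTop :=
    (tendsto_rpow_atTop (by linarith)).comp tendsto_natCast_atTop_atTop
  filter_upwards [h1.eventually_ge_atTop C, eventually_gt_atTop 0] with X hX hX0
  have h0 : (0 : ℝ) < X := by exact_mod_cast hX0
  have h2 : (X : ℝ) ^ (1 - a) * (X : ℝ) ^ a = X := by
    rw [← Real.rpow_add h0]
    have : 1 - a + a = 1 := by ring
    rw [this, Real.rpow_one]
  calc C * (X : ℝ) ^ a ≤ (X : ℝ) ^ (1 - a) * (X : ℝ) ^ a :=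
        mul_le_mul_of_nonneg_right hX (Real.rpow_nonneg h0.le _)
    _ = X := h2

private lemma e1_ee_conj (x : ℝ) : (starRingEnd ℂ) (ee x) = ee (-x) := by
  unfold ee
  rw [← Complex.exp_conj]
  congr 1
  rw [map_mul, Complex.conj_ofReal, Complex.conj_I]
  push_cast
  ring

/-- the real part of the difference -/
private lemma e1_re (N : ℕ) (g : ℕ → ℂ) (M : ℝ)
    (h : ∀ α : ℝ, ‖∑ x ∈ range N, g x * ee (α * x)‖ ≤ M) (α : ℝ) :
    ‖∑ x ∈ range N, (((g x).re : ℝ) : ℂ) * ee (α * x)‖ ≤ M := by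
  have h1 : ∑ x ∈ range N, (((g x).re : ℝ) : ℂ) * ee (α * x) =
      (1 / 2 : ℂ) * (∑ x ∈ range N, g x * ee (α * x) +
        (starRingEnd ℂ) (∑ x ∈ range N, g x * ee (-α * x))) := by
    rw [map_sum, ← Finset.sum_add_distrib, Finset.mul_sum]
    refine Finset.sum_congr rfl fun x _ => ?_
    have h2 : (((g x).re : ℝ) : ℂ) = (1 / 2 : ℂ) * (g x + (starRingEnd ℂ) (g x)) := by
      rw [Complex.add_conj]
      push_cast
      ring
    have h3 : -(-α * (x : ℝ)) = α * x := by ring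
    rw [map_mul, e1_ee_conj, h3, h2]
    ring
  rw [h1, norm_mul]
  have h4 : ‖(1 / 2 : ℂ)‖ = 1 / 2 := by simp
  rw [h4]
  have h5 := norm_add_le (∑ x ∈ range N, g x * ee (α * x))
    ((starRingEnd ℂ) (∑ x ∈ range N, g x * ee (-α * x)))
  rw [RCLike.norm_conj] at h5
  have h6 := h α
  have h7 := h (-α)
  linarith

/-- [E1] -/
theorem thm_E1 (h3 : St_Sb) : St_E1 := by
  intro η hη C δ hδ hδ2
  have hδ3 : δ ≤ 1 / 310 := hδ2.trans (by norm_num)
  have hε : 0 < δ / 400 := by positivity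
  filter_upwards [Pool.Agent.MVII.asm_Su δ hδ hδ3, Pool.Agent.MVII.thm_Ep (δ / 400) hε 1,
    h3 C (δ / 400) hε, e1_ev (a := 1 - 10 * δ) (by linarith) 16,
    e1_ev (a := δ / 1000) (by linarith) 8, eventually_ge_atTop 16] with X hSu hEp hSb hX1 hX2 hX16
  intro hS4 m c hm hmX hc F hF
  obtain ⟨-, hlog, -, -, -⟩ := hEp
  have hXr : (16 : ℝ) ≤ X := by exact_mod_cast hX16
  have hX0 : (0 : ℝ) < X := by linarith
  obtain ⟨K, hK⟩ : ∃ K, K = KK m X := ⟨_, rfl⟩
  obtain ⟨h, hh⟩ : ∃ h, h = HH δ X := ⟨_, rfl⟩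
  obtain ⟨ε, hεd⟩ : ∃ ε, ε = δ / 400 := ⟨_, rfl⟩
  rw [← hεd] at hlog hSb hε
  have hmK : 8 * (m * K) ≤ X := by
    have h4 := Nat.mul_div_le X (8 * m)
    have h4' : K = X / (8 * m) := hK
    rw [← h4'] at h4
    calc 8 * (m * K) = 8 * m * K := by ring
      _ ≤ X := h4
  have hKX : K + 1 ≤ X := by
    have h5 : K ≤ m * K := Nat.le_mul_of_pos_left K (by omega)
    omega
  have hh1 : 1 ≤ h := by
    rw [hh]
    unfold HH
    rw [Nat.one_le_ceil_iff]
    positivity
  have hhX : h ≤ X / 8 := by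
    rw [Nat.le_div_iff_mul_le (by norm_num)]
    have h5 : (h : ℝ) < (X : ℝ) ^ (1 - 10 * δ) + 1 := by
      rw [hh]
      exact Nat.ceil_lt_add_one (by positivity)
    have h6 : (h : ℝ) * 8 ≤ X := by
      have h7 : (8 : ℝ) * ((X : ℝ) ^ (1 - 10 * δ) + 1) ≤ X := by linarith
      linarith
    exact_mod_cast h6
  have h4m : 8 * m ≤ X := by
    have h5 : (8 : ℝ) * m ≤ X := le_trans (by linarith) hX2
    exact_mod_cast h5
  -- the functions
  obtain ⟨g, hg⟩ : ∃ g : ℕ → ℂ, g = fun x => (((if X / 8 < x ∧ x ≤ X then lam x else 0 : ℝ) : ℂ) -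
      Md (TT δ X) (QQ δ X) (HH δ X) (X / 8) X x) := ⟨_, rfl⟩
  have hsup : ∀ α : ℝ, ‖∑ x ∈ range (X + h), g x * ee (α * x)‖ ≤
      (X : ℝ) ^ (1 - 49 / 100 * δ) := by
    intro α
    rw [hg, hh]
    exact hSu hS4 (X / 8) X (by rw [← hh]; exact hhX) (Nat.div_le_self _ _) le_rfl α
  obtain ⟨w', hw'⟩ : ∃ w' : ℕ → ℝ, w' = fun k =>
    lam k * η ((k : ℝ) / K) * SD (DD X) c (k : ℤ) := ⟨_, rfl⟩
  have hlam0 : lam 0 = 0 := by
    unfold lam
    simp
  have hXh : X + h = (X + h - 1) + 1 := by omega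
  have hL2 := Pool.Agent.GBQ.thm_L2 w' (fun x => (g x).re) K (X + h - 1) m
    ((X : ℝ) ^ (1 - 49 / 100 * δ)) hm (by
    rw [← hXh]
    exact e1_re (X + h) g _ hsup)
  rw [← hXh] at hL2
  -- the sum over `F`
  have hterm : ∀ n ∈ F, R0 η m (KK m X) (DD X) c n - R1 η δ X m (KK m X) (DD X) c n =
      ∑ k ∈ range (K + 1), if m * k ≤ n then w' k * (g (n - m * k)).re else 0 := by
    intro n hn
    obtain ⟨hb1, hb2⟩ := hF n hn
    rw [← hK]
    unfold R0 R1
    rw [← Finset.sum_sub_distrib]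
    have hsub : Icc 1 K ⊆ range (K + 1) := by
      intro y hy
      rw [Finset.mem_Icc] at hy
      rw [Finset.mem_range]
      omega
    rw [← Finset.sum_subset hsub]
    · refine Finset.sum_congr rfl fun y hy => ?_
      rw [Finset.mem_Icc] at hy
      have hmy : m * y ≤ m * K := Nat.mul_le_mul_left m hy.2
      have hle : m * y ≤ n := by omega
      rw [if_pos hle, hw', hg]
      dsimp only
      rw [if_pos (by omega : X / 8 < n - m * y ∧ n - m * y ≤ X), Complex.sub_re,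
        Complex.ofReal_re]
      ring
    · intro y hy hy2
      rw [Finset.mem_range] at hy
      rw [Finset.mem_Icc] at hy2
      have hy3 : y = 0 := by
        by_contra h5
        exact hy2 ⟨by omega, by omega⟩
      rw [hw', hy3]
      dsimp only
      rw [hlam0, zero_mul, zero_mul, zero_mul, ite_self]
  have hFs : F ⊆ range (X + h) := by
    intro n hn
    obtain ⟨hb1, hb2⟩ := hF n hn
    rw [Finset.mem_range]
    omega
  have hsum1 : ∑ n ∈ F, (R0 η m (KK m X) (DD X) c n - R1 η δ X m (KK m X) (DD X) c n) ^ 2 ≤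
      ∑ n ∈ range (X + h), (∑ k ∈ range (K + 1),
        if m * k ≤ n then w' k * (g (n - m * k)).re else 0) ^ 2 := by
    rw [Finset.sum_congr rfl fun n hn => by rw [hterm n hn]]
    exact Finset.sum_le_sum_of_subset_of_nonneg hFs fun n _ _ => sq_nonneg _
  refine hsum1.trans (hL2.trans ?_)
  -- the sum of the squares of the weights
  have hwk : ∀ k ∈ range (K + 1), w' k ^ 2 ≤ (X : ℝ) ^ (4 * ε) := by
    intro k hk
    rw [Finset.mem_range] at hk
    have hXε : 0 ≤ (X : ℝ) ^ ε := Real.rpow_nonneg hX0.le _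
    have h5 : |w' k| ≤ (X : ℝ) ^ ε * (X : ℝ) ^ ε := by
      rw [hw']
      dsimp only
      rw [abs_mul, abs_mul]
      have h7 : |lam k| ≤ (X : ℝ) ^ ε := by
        have h8 : 0 ≤ lam k := ArithmeticFunction.vonMangoldt_nonneg
        rw [abs_of_nonneg h8]
        rcases Nat.eq_zero_or_pos k with hk0 | hk0
        · rw [hk0, hlam0]
          exact hXε
        have h9 : lam k ≤ Real.log k := ArithmeticFunction.vonMangoldt_le_log
        have h10 : Real.log k ≤ Real.log (2 * X) := by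
          apply Real.log_le_log (by exact_mod_cast hk0)
          have : (k : ℝ) ≤ X := by exact_mod_cast (by omega : k ≤ X)
          linarith
        rw [pow_one] at hlog
        linarith
      have h11 : |SD (DD X) c (k : ℤ)| ≤ (X : ℝ) ^ ε := by
        apply hSb c (DD X) (k : ℤ) hc
        rw [abs_of_nonneg (by positivity)]
        omega
      have h12 : |lam k| * |η ((k : ℝ) / K)| ≤ (X : ℝ) ^ ε := by
        have h13 : |η ((k : ℝ) / K)| ≤ 1 := by
          rw [abs_of_nonneg (hη.nonneg _)]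
          exact hη.le_one _
        calc |lam k| * |η ((k : ℝ) / K)| ≤ (X : ℝ) ^ ε * 1 :=
              mul_le_mul h7 h13 (abs_nonneg _) hXε
          _ = (X : ℝ) ^ ε := mul_one _
      exact mul_le_mul h12 h11 (abs_nonneg _) hXε
    have h12 : w' k ^ 2 ≤ ((X : ℝ) ^ ε * (X : ℝ) ^ ε) ^ 2 := by
      rw [← sq_abs]
      exact pow_le_pow_left₀ (abs_nonneg _) h5 2
    refine h12.trans (le_of_eq ?_)
    rw [← Real.rpow_add hX0, ← Real.rpow_natCast, ← Real.rpow_mul hX0.le]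
    congr 1
    push_cast
    ring
  have hwsum : ∑ k ∈ range (K + 1), w' k ^ 2 ≤ (X : ℝ) ^ (1 + 4 * ε) := by
    refine (Finset.sum_le_sum hwk).trans ?_
    rw [Finset.sum_const, Finset.card_range, nsmul_eq_mul, Real.rpow_add hX0, Real.rpow_one]
    apply mul_le_mul_of_nonneg_right _ (Real.rpow_nonneg hX0.le _)
    exact_mod_cast hKX
  have hM0 : 0 ≤ ((X : ℝ) ^ (1 - 49 / 100 * δ)) ^ 2 := sq_nonneg _
  refine (mul_le_mul_of_nonneg_left hwsum hM0).trans ?_
  have h13 : ((X : ℝ) ^ (1 - 49 / 100 * δ)) ^ 2 = (X : ℝ) ^ (2 - 98 / 100 * δ) := by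
    rw [← Real.rpow_natCast, ← Real.rpow_mul hX0.le]
    congr 1
    push_cast
    ring
  rw [h13, ← Real.rpow_add hX0]
  apply Real.rpow_le_rpow_of_exponent_le (by linarith)
  rw [hεd]
  linarith

end Pool.Agent.MV5
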