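import Pool.Agent.MV5.StB
import Pool.Agent.MVII.E2
import Pool.Agent.MVII.Bl
import Pool.Agent.MVII.Ep
import Pool.Agent.MVII.Re
import Pool.Agent.MVII.W0
import Pool.Agent.GBQ.Basic

set_option autoImplicit false
set_option linter.unusedVariables false

/-!
# MV5, module E2: the mean square of the second error
-/

namespace Pool.Agent.MV5

open Finset Filter
open Pool.Agent.GBQ (ee lam nd Admissible)
open Pool.Agent.MVX (Chr tent Bm Um prm Win GP)
open Pool.Agent.LIN (PP pz Dens)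
open Pool.Agent.MT (IsWt)
open Pool.Agent.MVII (TT QQ HH H0 cp cs gp GQ ar PL PM NB BI Bc Md fj rr Per mn wq Sum4 Blk Wc)

theorem e2_red (m a q : ℕ) (hq : 1 ≤ q) : ∃ (q' : ℕ) (b : ℤ), 1 ≤ q' ∧ q' ≤ q ∧
    IsCoprime b (q' : ℤ) ∧ (b : ℝ) / q' = -((m : ℝ) * a / q) := by
  obtain ⟨r, hr⟩ : ∃ r : ℚ, r = ((-((m : ℤ) * a) : ℤ) : ℚ) / ((q : ℤ) : ℚ) := ⟨_, rfl⟩
  have h1 : ((r.den : ℕ) : ℤ) ∣ (q : ℤ) := by
    rw [hr, ← Rat.divInt_eq_div]
    exact Rat.den_dvd _ _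
  refine ⟨r.den, r.num, r.pos, ?_, ?_, ?_⟩
  · exact Nat.le_of_dvd hq (Int.natCast_dvd_natCast.1 h1)
  · rw [Int.isCoprime_iff_gcd_eq_one]
    exact r.reduced
  · have h2 : ((r.num : ℝ) / r.den) = (r : ℝ) := by
      exact_mod_cast congrArg (Rat.cast : ℚ → ℝ) (Rat.num_div_den r)
    rw [h2, hr]
    push_cast
    ring

theorem e2_alt (m q a : ℕ) (α B : ℝ) (hq : 1 ≤ q) (hB : nd (α + a / q) < B) :
    ∃ (q' : ℕ) (b : ℤ) (β : ℝ), 1 ≤ q' ∧ q' ≤ q ∧ IsCoprime b (q' : ℤ) ∧ |β| ≤ m * B ∧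
      ∀ y : ℕ, ee ((m * α) * y) = ee (((b : ℝ) / q' + β) * y) := by
  obtain ⟨q', b, h1, h2, h3, h4⟩ := e2_red m a q hq
  refine ⟨q', b, m * (α + a / q - round (α + a / q)), h1, h2, h3, ?_, ?_⟩
  · rw [abs_mul, Nat.abs_cast]
    exact mul_le_mul_of_nonneg_left hB.le (Nat.cast_nonneg _)
  · intro y
    refine Eq.trans ?_ (GBQ.ee_add_int _ ((m : ℤ) * round (α + a / q) * y))
    rw [h4]
    congr 1
    push_cast
    ring

theorem e2_van (η : ℝ → ℝ) (h K y : ℕ) (c : Chr) (hη : IsWt η) (hh : 1 ≤ h) (hK : 16 * h ≤ K)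
    (hy : K + 2 ≤ y + h) : BY η h K y c = 0 := by
  unfold BY
  rw [Finset.sum_eq_zero, mul_zero]
  intro n hn
  rw [mem_Icc] at hn
  by_cases h0 : η ((n : ℝ) / K) = 0
  · rw [h0, Complex.ofReal_zero, mul_zero, mul_zero, zero_mul]
  · have h1 := (hη.supp _ h0).2
    have hK0 : (0 : ℝ) < K := by exact_mod_cast (by omega : 0 < K)
    rw [div_lt_iff₀ hK0] at h1
    have h2 : 8 * n < 7 * K := by
      have : (8 : ℝ) * n < 7 * K := by linarith
      exact_mod_cast this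
    rw [MVII.bl_tent_zero (Or.inl (by omega)), Complex.ofReal_zero, mul_zero]

theorem e2_nby (η : ℝ → ℝ) (h K X T y : ℕ) (D : ℝ) (hη : IsWt η) (hD : 0 ≤ D)
    (h3 : ∀ (x : ℕ) (c : Chr), 8 * (x + h) ≤ K → BY η h K x c = 0)
    (h5 : ∀ (x : ℕ) (c : Chr), x + h ≤ K + 1 → x ≤ K →
      ‖BY η h K x c - ((η ((x : ℝ) / K) : ℝ) : ℂ) * Bc h x c‖ ≤ D)
    (hh : 1 ≤ h) (hK : 16 * h ≤ K) (hKX : K ≤ X)
    (hS : ∀ x, h ≤ x → x ≤ X → NB (Bc h x) T ≤ 4) (hTD : (T : ℝ) ^ 2 * D ≤ 1) :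
    NB (BY η h K y) T ≤ 5 := by
  have hz : (∀ c, BY η h K y c = 0) → NB (BY η h K y) T ≤ 5 := by
    intro h0
    unfold MVII.NB
    rw [Finset.sum_eq_zero]
    · norm_num
    · intro r _
      exact Finset.sum_eq_zero fun χ _ => by rw [h0, norm_zero]
  by_cases c1 : K + 2 ≤ y + h
  · exact hz fun c => e2_van η h K y c hη hh hK c1
  by_cases c2 : y < h
  · exact hz fun c => h3 y c (by omega)
  have h6 := hS y (by omega) (by omega)
  have h7 := MVII.w0_nb MVII.bl_five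
    (fun c => BY η h K y c - ((η ((y : ℝ) / K) : ℝ) : ℂ) * Bc h y c) T D hD
    (fun c => h5 y c (by omega) (by omega))
  have h8 : NB (BY η h K y) T ≤ NB (Bc h y) T +
      NB (fun c => BY η h K y c - ((η ((y : ℝ) / K) : ℝ) : ℂ) * Bc h y c) T := by
    unfold MVII.NB
    rw [← Finset.sum_add_distrib]
    refine Finset.sum_le_sum fun r _ => ?_
    rw [← Finset.sum_add_distrib]
    refine Finset.sum_le_sum fun χ _ => ?_
    have h9 : ‖((η ((y : ℝ) / K) : ℝ) : ℂ) * Bc h y ⟨r, χ⟩‖ ≤ ‖Bc h y ⟨r, χ⟩‖ := by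
      rw [norm_mul, Complex.norm_real, Real.norm_eq_abs, abs_of_nonneg (hη.nonneg _)]
      calc η ((y : ℝ) / K) * ‖Bc h y ⟨r, χ⟩‖ ≤ 1 * ‖Bc h y ⟨r, χ⟩‖ :=
            mul_le_mul_of_nonneg_right (hη.le_one _) (norm_nonneg _)
        _ = _ := one_mul _
    have h10 := norm_add_le (((η ((y : ℝ) / K) : ℝ) : ℂ) * Bc h y ⟨r, χ⟩)
      (BY η h K y ⟨r, χ⟩ - ((η ((y : ℝ) / K) : ℝ) : ℂ) * Bc h y ⟨r, χ⟩)
    rw [add_sub_cancel] at h10
    exact h10.trans (add_le_add h9 le_rfl)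
  linarith

theorem e2_numA (δ x A L T h N : ℝ) (hδ : 0 < δ) (hx : 1 ≤ x) (hA : A = x ^ (δ / 10 ^ 4))
    (hL0 : 0 ≤ L) (hL : L ^ 2 ≤ x ^ (δ / 10 ^ 4)) (hT0 : 0 ≤ T) (hT : T ≤ x ^ δ) (hh0 : 0 ≤ h)
    (hh : h ≤ 2 * x ^ (1 - 10 * δ)) (hN : N ≤ 2 * x) :
    N * (4 * A) ^ 2 + 4 * h * (T ^ 2 * L * A) ^ 2 ≤ 40 * x ^ (1 + 3 * (δ / 10 ^ 4)) := by
  have hx0 : 0 < x := by linarith
  have hp : ∀ a : ℝ, 0 < x ^ a := fun a => Real.rpow_pos_of_pos hx0 a
  have hsq : ∀ a : ℝ, (x ^ a) ^ 2 = x ^ (2 * a) := by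
    intro a
    rw [← Real.rpow_natCast, ← Real.rpow_mul hx0.le]
    congr 1
    push_cast
    ring
  have hm : ∀ a b : ℝ, a ≤ b → x ^ a ≤ x ^ b := fun a b hab =>
    Real.rpow_le_rpow_of_exponent_le hx hab
  have h3 : N * (4 * A) ^ 2 ≤ 32 * x ^ (1 + 3 * (δ / 10 ^ 4)) := by
    rw [hA, mul_pow, hsq]
    have h4 : x * x ^ (2 * (δ / 10 ^ 4)) ≤ x ^ (1 + 3 * (δ / 10 ^ 4)) := by
      calc x * x ^ (2 * (δ / 10 ^ 4)) = x ^ (1 + 2 * (δ / 10 ^ 4)) := by
            rw [Real.rpow_add hx0, Real.rpow_one]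
        _ ≤ _ := hm _ _ (by linarith)
    have h5 := hp (2 * (δ / 10 ^ 4))
    calc N * (4 ^ 2 * x ^ (2 * (δ / 10 ^ 4))) ≤ 2 * x * (4 ^ 2 * x ^ (2 * (δ / 10 ^ 4))) :=
          mul_le_mul_of_nonneg_right hN (by positivity)
      _ = 32 * (x * x ^ (2 * (δ / 10 ^ 4))) := by ring
      _ ≤ _ := mul_le_mul_of_nonneg_left h4 (by norm_num)
  have h6 : 4 * h * (T ^ 2 * L * A) ^ 2 ≤ 8 * x ^ (1 + 3 * (δ / 10 ^ 4)) := by
    have h7 : T ^ 4 ≤ x ^ (4 * δ) := by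
      calc T ^ 4 ≤ (x ^ δ) ^ 4 := pow_le_pow_left₀ hT0 hT 4
        _ = x ^ (4 * δ) := by
          rw [← Real.rpow_natCast, ← Real.rpow_mul hx0.le]
          congr 1
          push_cast
          ring
    have h8 : (T ^ 2 * L * A) ^ 2 ≤ x ^ (4 * δ) * x ^ (δ / 10 ^ 4) * x ^ (2 * (δ / 10 ^ 4)) := by
      calc (T ^ 2 * L * A) ^ 2 = T ^ 4 * L ^ 2 * A ^ 2 := by ring
        _ ≤ x ^ (4 * δ) * x ^ (δ / 10 ^ 4) * x ^ (2 * (δ / 10 ^ 4)) := by
          refine mul_le_mul (mul_le_mul h7 hL (sq_nonneg _) (hp _).le) ?_ (sq_nonneg _) ?_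
          · rw [hA, hsq]
          · exact (mul_pos (hp _) (hp _)).le
    calc 4 * h * (T ^ 2 * L * A) ^ 2
        ≤ 4 * (2 * x ^ (1 - 10 * δ)) *
          (x ^ (4 * δ) * x ^ (δ / 10 ^ 4) * x ^ (2 * (δ / 10 ^ 4))) := by
          refine mul_le_mul (by linarith) h8 (sq_nonneg _) ?_
          have := hp (1 - 10 * δ)
          positivity
      _ = 8 * x ^ (1 - 6 * δ + 3 * (δ / 10 ^ 4)) := by
          have : x ^ (1 - 6 * δ + 3 * (δ / 10 ^ 4)) = x ^ (1 - 10 * δ) *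
              (x ^ (4 * δ) * x ^ (δ / 10 ^ 4) * x ^ (2 * (δ / 10 ^ 4))) := by
            rw [← Real.rpow_add hx0, ← Real.rpow_add hx0, ← Real.rpow_add hx0]
            congr 1
            ring
          rw [this]
          ring
      _ ≤ 8 * x ^ (1 + 3 * (δ / 10 ^ 4)) := by
          have := hm (1 - 6 * δ + 3 * (δ / 10 ^ 4)) (1 + 3 * (δ / 10 ^ 4)) (by linarith)
          linarith
  linarith

theorem e2_fin (δ x W S : ℝ) (hδ : 0 < δ) (hx : 1 ≤ x) (he : 256 ≤ x ^ (δ / 1000))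
    (hW : W ≤ 2 * x * (6 * (x ^ (δ / 10 ^ 4)) ^ 2) ^ 2) (hS : S ≤ 40 * x ^ (1 + 3 * (δ / 10 ^ 4))) :
    (x ^ (1 - δ)) ^ 2 * W + (x ^ (1 - δ / 40)) ^ 2 * S ≤ x ^ (3 - δ / 21) := by
  have hx0 : 0 < x := by linarith
  have hp : ∀ a : ℝ, 0 < x ^ a := fun a => Real.rpow_pos_of_pos hx0 a
  have hsq : ∀ a : ℝ, (x ^ a) ^ 2 = x ^ (2 * a) := by
    intro a
    rw [← Real.rpow_natCast, ← Real.rpow_mul hx0.le]
    congr 1
    push_cast
    ring
  have hm : ∀ a b : ℝ, a ≤ b → x ^ a ≤ x ^ b := fun a b hab =>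
    Real.rpow_le_rpow_of_exponent_le hx hab
  have h1 : (x ^ (1 - δ)) ^ 2 * W ≤ 1 / 2 * x ^ (3 - δ / 21) := by
    calc (x ^ (1 - δ)) ^ 2 * W ≤ (x ^ (1 - δ)) ^ 2 * (2 * x * (6 * (x ^ (δ / 10 ^ 4)) ^ 2) ^ 2) :=
          mul_le_mul_of_nonneg_left hW (sq_nonneg _)
      _ = 72 * (x ^ (2 * (1 - δ)) * (x ^ (1 : ℝ) * x ^ (2 * (2 * (δ / 10 ^ 4))))) := by
          rw [hsq (1 - δ), hsq (δ / 10 ^ 4), mul_pow, hsq (2 * (δ / 10 ^ 4)), Real.rpow_one]
          ring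
      _ ≤ (1 / 2 * x ^ (δ / 1000)) *
          (x ^ (2 * (1 - δ)) * (x ^ (1 : ℝ) * x ^ (2 * (2 * (δ / 10 ^ 4))))) := by
          refine mul_le_mul_of_nonneg_right (by linarith) ?_
          exact (mul_pos (hp _) (mul_pos (hp _) (hp _))).le
      _ = 1 / 2 * x ^ (δ / 1000 + (2 * (1 - δ) + (1 + 2 * (2 * (δ / 10 ^ 4))))) := by
          rw [Real.rpow_add hx0 (δ / 1000), Real.rpow_add hx0 (2 * (1 - δ)), Real.rpow_add hx0 1]
          ring
      _ ≤ 1 / 2 * x ^ (3 - δ / 21) := by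
          refine mul_le_mul_of_nonneg_left (hm _ _ ?_) (by norm_num)
          linarith
  have h2 : (x ^ (1 - δ / 40)) ^ 2 * S ≤ 1 / 2 * x ^ (3 - δ / 21) := by
    calc (x ^ (1 - δ / 40)) ^ 2 * S ≤ (x ^ (1 - δ / 40)) ^ 2 * (40 * x ^ (1 + 3 * (δ / 10 ^ 4))) :=
          mul_le_mul_of_nonneg_left hS (sq_nonneg _)
      _ = 40 * (x ^ (2 * (1 - δ / 40)) * x ^ (1 + 3 * (δ / 10 ^ 4))) := by
          rw [hsq (1 - δ / 40)]
          ring
      _ ≤ (1 / 2 * x ^ (δ / 1000)) * (x ^ (2 * (1 - δ / 40)) * x ^ (1 + 3 * (δ / 10 ^ 4))) := by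
          refine mul_le_mul_of_nonneg_right (by linarith) ?_
          exact (mul_pos (hp _) (hp _)).le
      _ = 1 / 2 * x ^ (δ / 1000 + (2 * (1 - δ / 40) + (1 + 3 * (δ / 10 ^ 4)))) := by
          rw [Real.rpow_add hx0 (δ / 1000), Real.rpow_add hx0 (2 * (1 - δ / 40))]
          ring
      _ ≤ 1 / 2 * x ^ (3 - δ / 21) := by
          refine mul_le_mul_of_nonneg_left (hm _ _ ?_) (by norm_num)
          linarith
  linarith

/-- the size of the error of the local means -/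
theorem e2_numD (δ x C5 T h K L m : ℝ) (hδ : 0 < δ) (hx : 1 ≤ x) (hC : 0 ≤ C5)
    (he : 32 * C5 ≤ x ^ (δ / 1000)) (hT0 : 0 ≤ T) (hT : T ≤ x ^ δ) (hh0 : 0 ≤ h)
    (hh : h ≤ 2 * x ^ (1 - 10 * δ)) (hL0 : 0 ≤ L) (hL : L ≤ x ^ (δ / 10 ^ 4)) (hm0 : 0 ≤ m)
    (hm : m ≤ x ^ (δ / 1000)) (hK0 : 0 < K) (hK : x ≤ 16 * m * K) :
    T ^ 2 * (C5 * ((h / K) * L)) ≤ 1 := by
  have hx0 : 0 < x := by linarith
  have hp : ∀ a : ℝ, 0 < x ^ a := fun a => Real.rpow_pos_of_pos hx0 a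
  have h1 : h / K ≤ 32 * (x ^ (δ / 1000) * x ^ (-(10 * δ))) := by
    rw [div_le_iff₀ hK0]
    have h2 : x ^ (1 - 10 * δ) = x * x ^ (-(10 * δ)) := by
      rw [sub_eq_add_neg, Real.rpow_add hx0, Real.rpow_one]
    rw [h2] at hh
    have h3 : x * x ^ (-(10 * δ)) ≤ 16 * m * K * x ^ (-(10 * δ)) :=
      mul_le_mul_of_nonneg_right hK (hp _).le
    have h4 : 16 * m * K * x ^ (-(10 * δ)) ≤ 16 * x ^ (δ / 1000) * K * x ^ (-(10 * δ)) := by
      have := hp (-(10 * δ))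
      gcongr
    nlinarith
  have h5 : T ^ 2 ≤ x ^ (2 * δ) := by
    calc T ^ 2 ≤ (x ^ δ) ^ 2 := pow_le_pow_left₀ hT0 hT 2
      _ = x ^ (2 * δ) := by
        rw [← Real.rpow_natCast, ← Real.rpow_mul hx0.le]
        congr 1
        push_cast
        ring
  have h6 : (h / K) * L ≤ 32 * (x ^ (δ / 1000) * x ^ (-(10 * δ))) * x ^ (δ / 10 ^ 4) := by
    refine mul_le_mul h1 hL hL0 ?_
    exact (mul_pos (by norm_num) (mul_pos (hp _) (hp _))).le
  have h7 : 0 ≤ (h / K) * L := mul_nonneg (div_nonneg hh0 hK0.le) hL0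
  calc T ^ 2 * (C5 * ((h / K) * L)) ≤
        x ^ (2 * δ) * (C5 * (32 * (x ^ (δ / 1000) * x ^ (-(10 * δ))) * x ^ (δ / 10 ^ 4))) := by
        refine mul_le_mul h5 (mul_le_mul_of_nonneg_left h6 hC) (mul_nonneg hC h7) (hp _).le
    _ = (32 * C5) * (x ^ (2 * δ) * (x ^ (δ / 1000) * (x ^ (-(10 * δ)) * x ^ (δ / 10 ^ 4)))) := by
        ring
    _ ≤ x ^ (δ / 1000) *
        (x ^ (2 * δ) * (x ^ (δ / 1000) * (x ^ (-(10 * δ)) * x ^ (δ / 10 ^ 4)))) := by
        refine mul_le_mul_of_nonneg_right he ?_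
        exact (mul_pos (hp _) (mul_pos (hp _) (mul_pos (hp _) (hp _)))).le
    _ = x ^ (δ / 1000 + (2 * δ + (δ / 1000 + (-(10 * δ) + δ / 10 ^ 4)))) := by
        rw [Real.rpow_add hx0 (δ / 1000), Real.rpow_add hx0 (2 * δ), Real.rpow_add hx0 (δ / 1000),
          Real.rpow_add hx0 (-(10 * δ))]
    _ ≤ x ^ (0 : ℝ) := Real.rpow_le_rpow_of_exponent_le hx (by linarith)
    _ = 1 := Real.rpow_zero x

theorem thm_E2 (h1 : St_Rm) (h2 : St_Bs) (h3 : St_Sb) (h4 : St_Of) (h5 : St_L2) : St_E2 := by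
  intro η hη C δ hδ hδ1 hAr
  obtain ⟨bs1, bs2, bs3, bs4, bs5⟩ := h2
  obtain ⟨C5, hC5, bs5⟩ := bs5 η hη
  obtain ⟨bl1, bl2, bl3, bl4, bl5⟩ := MVII.thm_Bl
  have hε : 0 < δ / 10 ^ 4 := by positivity
  have e1 := MVII.ep_large (max 256 (32 * C5)) (δ / 1000) (by positivity)
  filter_upwards [hAr, h3 C (δ / 10 ^ 4) hε, h4 δ hδ hδ1, MVII.thm_Ep (δ / 10 ^ 4) hε 2, e1,
    eventually_ge_atTop 1] with X hAr hSb hOf hEp he1 hX1
  intro hS m c hm hmX hc F hF
  obtain ⟨ep1, ep2, ep3, ep4, ep5⟩ := hEp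
  have he256 : (256 : ℝ) ≤ (X : ℝ) ^ (δ / 1000) := (le_max_left _ _).trans he1
  have heC : 32 * C5 ≤ (X : ℝ) ^ (δ / 1000) := (le_max_right _ _).trans he1
  set x : ℝ := (X : ℝ) with hxdef
  have hx1 : (1 : ℝ) ≤ x := by rw [hxdef]; exact_mod_cast hX1
  have hx0 : (0 : ℝ) < x := by linarith
  have hp : ∀ a : ℝ, 0 < x ^ a := fun a => Real.rpow_pos_of_pos hx0 a
  have hmon : ∀ a b : ℝ, a ≤ b → x ^ a ≤ x ^ b := fun a b hab =>
    Real.rpow_le_rpow_of_exponent_le hx1 hab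
  have hδ2 : δ ≤ 1 / 1000 := hδ1.trans (by norm_num)
  -- parameters
  have hTr : ((TT δ X : ℕ) : ℝ) ≤ x ^ δ := Nat.floor_le (hp δ).le
  have hTX : TT δ X ≤ X := by
    have : ((TT δ X : ℕ) : ℝ) ≤ (X : ℝ) := by
      refine hTr.trans ?_
      calc x ^ δ ≤ x ^ (1 : ℝ) := hmon _ _ (by linarith)
        _ = x := Real.rpow_one x
    exact_mod_cast this
  have hQX : QQ δ X ≤ X := by
    have : ((QQ δ X : ℕ) : ℝ) ≤ (X : ℝ) := by
      refine (Nat.floor_le (hp (30 * δ)).le).trans ?_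
      calc x ^ (30 * δ) ≤ x ^ (1 : ℝ) := hmon _ _ (by linarith)
        _ = x := Real.rpow_one x
    exact_mod_cast this
  have hh1 : 1 ≤ HH δ X := Nat.ceil_pos.2 (hp _)
  have hh2 : ((HH δ X : ℕ) : ℝ) ≤ 2 * x ^ (1 - 10 * δ) := by
    have h5 : ((HH δ X : ℕ) : ℝ) < x ^ (1 - 10 * δ) + 1 := Nat.ceil_lt_add_one (hp _).le
    have h6 : 1 ≤ x ^ (1 - 10 * δ) := Real.one_le_rpow hx1 (by linarith)
    linarith
  have hmh : 128 * m * HH δ X ≤ X := by
    have h5 : (128 : ℝ) * m * (HH δ X : ℕ) ≤ x := by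
      calc (128 : ℝ) * m * (HH δ X : ℕ) ≤ 128 * x ^ (δ / 1000) * (2 * x ^ (1 - 10 * δ)) := by
            refine mul_le_mul (by linarith) hh2 (Nat.cast_nonneg _) ?_
            have := hp (δ / 1000)
            positivity
        _ = 256 * (x ^ (δ / 1000) * x ^ (1 - 10 * δ)) := by ring
        _ ≤ x ^ (δ / 1000) * (x ^ (δ / 1000) * x ^ (1 - 10 * δ)) :=
            mul_le_mul_of_nonneg_right he256 (mul_pos (hp _) (hp _)).le
        _ = x ^ (δ / 1000 + (δ / 1000 + (1 - 10 * δ))) := by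
            rw [← Real.rpow_add hx0, ← Real.rpow_add hx0]
        _ ≤ x ^ (1 : ℝ) := hmon _ _ (by linarith)
        _ = x := Real.rpow_one x
    have h6 : ((128 * m * HH δ X : ℕ) : ℝ) ≤ (X : ℝ) := by
      push_cast
      exact h5
    exact Nat.cast_le.1 h6
  generalize hhdef : HH δ X = h at *
  generalize hTdef : TT δ X = T at *
  generalize hQdef : QQ δ X = Q at *
  have hmh' : m ≤ m * h := Nat.le_mul_of_pos_right m hh1
  have hmh'' : h ≤ m * h := Nat.le_mul_of_pos_left h hm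
  have h16 : 128 * (m * h) ≤ X := by rw [← mul_assoc]; exact hmh
  generalize hKdef : KK m X = K at *
  have hKdef' : K = X / (8 * m) := hKdef.symm
  have hKm : 8 * m * K ≤ X := by rw [hKdef']; exact Nat.mul_div_le X (8 * m)
  have hKm' : 8 * (m * K) ≤ X := by rw [← mul_assoc]; exact hKm
  have hK16 : 16 * h ≤ K := by
    rw [hKdef', Nat.le_div_iff_mul_le (by omega)]
    calc 16 * h * (8 * m) = 128 * (m * h) := by ring
      _ ≤ X := h16
  have hKX : K ≤ X := by rw [hKdef']; exact Nat.div_le_self _ _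
  have hK1 : 1 ≤ K := by omega
  have hK8 : 8 * K ≤ X := by
    have h6 : K ≤ m * K := Nat.le_mul_of_pos_left K hm
    omega
  have hXK : X ≤ 16 * m * K := by
    have h6 : X < (8 * m) * (K + 1) := by
      rw [hKdef']
      exact Nat.lt_mul_div_succ X (by omega)
    have h7 : (8 * m) * (K + 1) ≤ (8 * m) * (2 * K) := Nat.mul_le_mul_left _ (by omega)
    have h8 : (8 * m) * (2 * K) = 16 * m * K := by ring
    omega
  have h8 : h ≤ X / 8 := by
    rw [Nat.le_div_iff_mul_le (by norm_num)]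
    omega
  have hhX : 8 * h ≤ X := by omega
  -- logarithms
  have hlog0 : 0 ≤ Real.log x := Real.log_nonneg hx1
  have hlog0' : 0 ≤ Real.log (2 * x) := Real.log_nonneg (by linarith)
  have hlogle : Real.log x ≤ Real.log (2 * x) := Real.log_le_log hx0 (by linarith)
  have hlog2 : Real.log x ^ 2 ≤ x ^ (δ / 10 ^ 4) := by
    refine le_trans ?_ ep2
    exact pow_le_pow_left₀ hlog0 (by linarith) 2
  have hlog1 : Real.log (2 * x) ≤ x ^ (δ / 10 ^ 4) := by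
    refine le_trans ?_ ep2
    nlinarith
  have hlog3 : Real.log x ≤ x ^ (δ / 10 ^ 4) := hlogle.trans hlog1
  have hA1 : 1 ≤ x ^ (δ / 10 ^ 4) := Real.one_le_rpow hx1 hε.le
  -- the local means
  have hKR : (0 : ℝ) < K := by exact_mod_cast hK1
  have hnum := e2_numD δ x C5 T h K (Real.log (2 * x)) m hδ hx1 hC5.le heC (Nat.cast_nonneg _) hTr
    (Nat.cast_nonneg _) hh2 hlog0' hlog1 (Nat.cast_nonneg _) hmX hKR (by
      rw [hxdef]
      exact_mod_cast hXK)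
  have hNB : ∀ y : ℕ, NB (BY η h K y) T ≤ 5 := by
    intro y
    refine e2_nby η h K X T y (C5 * ((h / K) * Real.log (2 * x))) hη ?_
      (fun z c => bs3 η h K z c hη hK1) ?_ hh1 hK16 hKX ?_ hnum
    · positivity
    · intro z c hz1 hz2
      have h9 := bs5 X h K z z c hh1 (by omega) hKX hz1 hz2
      rw [sub_self, abs_zero, add_zero, zero_div, add_zero] at h9
      rw [← mul_assoc]
      exact h9
    · intro z hz1 hz2
      have h6 := hS z
      rw [hhdef, hTdef] at h6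
      exact h6 hz1 hz2
  -- the functions
  obtain ⟨w, hw⟩ : ∃ w : ℕ → ℝ, w = fun y => (lam y * η ((y : ℝ) / K) -
    (MY η T Q h K y).re) * SD (DD X) c (y : ℤ) := ⟨_, rfl⟩
  obtain ⟨f, hf⟩ : ∃ f : ℕ → ℝ, f = fun y => (Md T Q h (X / 8) X y).re := ⟨_, rfl⟩
  have hmy : ∀ y < K + h, 2 * (m * y) + 2 * m ≤ X := by
    intro y hy
    have h5 : m * (y + 1) ≤ m * (K + h) := Nat.mul_le_mul_left m hy
    have h6 : m * (y + 1) = m * y + m := by ring
    have h7 : m * (K + h) = m * K + m * h := by ring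
    omega
  have hη0 : ∀ y : ℕ, K < y → η ((y : ℝ) / K) = 0 := by
    intro y hy
    by_contra h0
    have h6 := (hη.supp _ h0).2
    rw [div_lt_iff₀ hKR] at h6
    have : (K : ℝ) < y := by exact_mod_cast hy
    linarith
  have sE : ∀ n ∈ F, R1 η δ X m K (DD X) c n - R2 η δ X m K (DD X) c n =
      ∑ k ∈ range (K + h), if m * k ≤ n then w k * f (n - m * k) else 0 := by
    intro n hn
    obtain ⟨b1, b2⟩ := hF n hn
    unfold R1 R2
    rw [hhdef, hTdef, hQdef]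
    have h5 : ∑ y ∈ Icc 1 K, lam y * η ((y : ℝ) / K) * SD (DD X) c y *
        (Md T Q h (X / 8) X (n - m * y)).re =
        ∑ y ∈ range (K + h), lam y * η ((y : ℝ) / K) * SD (DD X) c y *
          (Md T Q h (X / 8) X (n - m * y)).re := by
      refine Finset.sum_subset ?_ ?_
      · intro y hy
        rw [mem_Icc] at hy
        rw [mem_range]
        omega
      · intro y hy hy'
        rw [mem_Icc] at hy'
        rw [mem_range] at hy
        by_cases h0 : y = 0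
        · rw [h0]
          have : lam 0 = 0 := by
            unfold Pool.Agent.GBQ.lam
            exact ArithmeticFunction.map_zero
          rw [this, zero_mul, zero_mul, zero_mul]
        · rw [hη0 y (by omega), mul_zero, zero_mul, zero_mul]
    rw [h5, ← Finset.sum_sub_distrib]
    refine Finset.sum_congr rfl fun y hy => ?_
    rw [mem_range] at hy
    have h6 := hmy y hy
    rw [if_pos (by omega), hw, hf]
    simp only
    ring
  -- the alternative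
  have sC : ∀ α : ℝ, ‖∑ k ∈ range (K + h), ((w k : ℝ) : ℂ) * ee ((m * α) * k)‖ ≤
      x ^ (1 - δ / 40) ∨ ‖∑ z ∈ range (X + h), ((f z : ℝ) : ℂ) * ee (α * z)‖ ≤ x ^ (1 - δ) := by
    intro α
    by_cases H : ∀ q a : ℕ, 1 ≤ q → q ≤ Q → a ∈ rr q → x ^ (-1 + 12 * δ) ≤ nd (α + a / q)
    · right
      have h7 := hOf α H
      refine le_trans (le_of_eq ?_) h7
      congr 1
      refine Finset.sum_congr rfl fun z _ => ?_
      congr 1
      rw [hf]
      exact Complex.ext rfl (by rw [Complex.ofReal_im]; exact (MVII.thm_Re _ _ _ _ _ _).symm)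
    · left
      push Not at H
      obtain ⟨q, a, hq1, hq2, ha, hlt⟩ := H
      obtain ⟨q', b, β, i1, i2, i3, i4, i5⟩ := e2_alt m q a α _ hq1 hlt
      have hβ : |β| ≤ x ^ (-1 + 13 * δ) := by
        refine i4.trans ?_
        calc (m : ℝ) * x ^ (-1 + 12 * δ) ≤ x ^ (δ / 1000) * x ^ (-1 + 12 * δ) :=
              mul_le_mul_of_nonneg_right hmX (hp _).le
          _ = x ^ (δ / 1000 + (-1 + 12 * δ)) := (Real.rpow_add hx0 _ _).symm
          _ ≤ x ^ (-1 + 13 * δ) := hmon _ _ (by linarith)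
      have h6 := hAr m q' b β c hm hmX i1
      rw [hKdef] at h6
      have h7 := h6 (i2.trans hq2) i3 hβ hc
      refine le_trans (le_of_eq ?_) h7
      congr 1
      refine Finset.sum_congr rfl fun y _ => ?_
      rw [i5 y, hw]
      simp only
      rw [Complex.ofReal_mul, Complex.ofReal_sub]
      congr 3
      exact Complex.ext rfl (by rw [Complex.ofReal_im]; exact (h1 _ _ _ _ _ _).symm)
  have hKh : K + h - 1 + 1 = K + h := by omega
  have hXh : X + h - 1 + 1 = X + h := by omega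
  have sD : ∑ n ∈ range (X + h), (∑ k ∈ range (K + h), if m * k ≤ n then
      w k * f (n - m * k) else 0) ^ 2 ≤ (x ^ (1 - δ)) ^ 2 * ∑ k ∈ range (K + h), w k ^ 2 +
        (x ^ (1 - δ / 40)) ^ 2 * ∑ z ∈ range (X + h), f z ^ 2 := by
    have L := h5 w f (K + h - 1) (X + h - 1) m (x ^ (1 - δ)) (x ^ (1 - δ / 40)) hm (hp _).le
      (hp _).le (by rw [hKh, hXh]; exact sC)
    rw [hKh, hXh] at L
    exact L
  have sF : ∑ n ∈ F, (R1 η δ X m K (DD X) c n - R2 η δ X m K (DD X) c n) ^ 2 ≤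
      (x ^ (1 - δ)) ^ 2 * ∑ k ∈ range (K + h), w k ^ 2 +
        (x ^ (1 - δ / 40)) ^ 2 * ∑ z ∈ range (X + h), f z ^ 2 := by
    refine le_trans ?_ sD
    rw [Finset.sum_congr rfl fun n hn => by rw [sE n hn]]
    refine Finset.sum_le_sum_of_subset_of_nonneg ?_ fun _ _ _ => sq_nonneg _
    intro n hn
    obtain ⟨b1, b2⟩ := hF n hn
    rw [mem_range]
    omega
  -- the sum of the squares of the model of lam
  have sG := MVII.e2_sum T Q h (X / 8) X (X + h) (x ^ (δ / 10 ^ 4)) (Real.log x) hh1 h8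
    (hp _).le hlog0 (by
      intro k hk hk0 r hr
      rw [mem_Icc] at hr
      refine ep4 Q r k hQX hr.1 (hr.2.trans hTX) (by exact_mod_cast hk0) ?_
      rw [abs_of_nonneg (Int.natCast_nonneg k)]
      omega)
    (fun k c => bl1 h (X / 8) X k c hh1 hX1) (fun k hk c => bl3 h (X / 8) X k c hk) (by
      intro k hk1 hk2
      have h5 : NB (BI h (X / 8) X k) T = NB (Bc h k) T := by
        unfold MVII.NB
        refine Finset.sum_congr rfl fun r _ => Finset.sum_congr rfl fun χ _ => ?_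
        rw [bl2 h (X / 8) X k _ hh1 hk1 hk2]
      rw [h5]
      have h6 := hS k
      rw [hhdef, hTdef] at h6
      exact h6 (by omega) (by omega)) bl5
  have sG' : ∑ z ∈ range (X + h), f z ^ 2 ≤ 40 * x ^ (1 + 3 * (δ / 10 ^ 4)) := by
    rw [hf]
    refine sG.trans ?_
    refine e2_numA δ x _ _ T h _ hδ hx1 rfl hlog0 hlog2 (Nat.cast_nonneg _) hTr
      (Nat.cast_nonneg _) hh2 ?_
    push_cast
    have : (8 : ℝ) * h ≤ x := by rw [hxdef]; exact_mod_cast hhX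
    have h9 : (0 : ℝ) ≤ h := Nat.cast_nonneg _
    linarith
  -- the sum of the squares of w
  have hwb : ∀ y ∈ range (K + h), w y ^ 2 ≤ (6 * (x ^ (δ / 10 ^ 4)) ^ 2) ^ 2 := by
    intro y hy
    rw [mem_range] at hy
    have h6 : |SD (DD X) c (y : ℤ)| ≤ x ^ (δ / 10 ^ 4) := by
      refine hSb c (DD X) y hc ?_
      rw [abs_of_nonneg (Int.natCast_nonneg y)]
      omega
    have h7 : |lam y * η ((y : ℝ) / K)| ≤ x ^ (δ / 10 ^ 4) := by
      by_cases h0 : y = 0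
      · rw [h0]
        have : lam 0 = 0 := by
          unfold Pool.Agent.GBQ.lam
          exact ArithmeticFunction.map_zero
        rw [this, zero_mul, abs_zero]
        exact (hp _).le
      · have h9 : lam y ≤ Real.log x := MVII.bl_lam_le (by omega) (by
          rw [hxdef]
          exact_mod_cast (by omega : y ≤ X))
        rw [abs_mul, abs_of_nonneg (Pool.Agent.GBQ.lam_nonneg y), abs_of_nonneg (hη.nonneg _)]
        calc lam y * η ((y : ℝ) / K) ≤ lam y * 1 :=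
              mul_le_mul_of_nonneg_left (hη.le_one _) (Pool.Agent.GBQ.lam_nonneg y)
          _ ≤ _ := by rw [mul_one]; exact h9.trans hlog3
    have h8 : |(MY η T Q h K y).re| ≤ 5 * x ^ (δ / 10 ^ 4) := by
      refine (Complex.abs_re_le_norm _).trans ?_
      by_cases h0 : y = 0
      · have h9 : MY η T Q h K y = 0 := by
          unfold MY MVII.PM
          refine Finset.sum_eq_zero fun r _ => Finset.sum_eq_zero fun χ _ => ?_
          rw [bs3 η h K y _ hη hK1 (by omega), zero_mul, zero_mul]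
        rw [h9, norm_zero]
        have := hp (δ / 10 ^ 4)
        positivity
      · refine (MVII.w0_pm (BY η h K y) T Q (y : ℤ) (x ^ (δ / 10 ^ 4)) ?_).trans
          (mul_le_mul_of_nonneg_right (hNB y) (hp _).le)
        intro r hr
        rw [mem_Icc] at hr
        refine ep4 Q r y hQX hr.1 (hr.2.trans hTX) (by exact_mod_cast h0) ?_
        rw [abs_of_nonneg (Int.natCast_nonneg y)]
        omega
    have h9 : |w y| ≤ 6 * (x ^ (δ / 10 ^ 4)) ^ 2 := by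
      rw [hw]
      simp only
      rw [abs_mul]
      calc |lam y * η ((y : ℝ) / K) - (MY η T Q h K y).re| * |SD (DD X) c (y : ℤ)|
          ≤ (6 * x ^ (δ / 10 ^ 4)) * x ^ (δ / 10 ^ 4) := by
            refine mul_le_mul ?_ h6 (abs_nonneg _) (by have := hp (δ / 10 ^ 4); positivity)
            refine (abs_sub _ _).trans ?_
            linarith
        _ = _ := by ring
    rw [← sq_abs]
    exact pow_le_pow_left₀ (abs_nonneg _) h9 2
  have sW : ∑ k ∈ range (K + h), w k ^ 2 ≤ 2 * x * (6 * (x ^ (δ / 10 ^ 4)) ^ 2) ^ 2 := by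
    refine (Finset.sum_le_sum hwb).trans ?_
    rw [Finset.sum_const, nsmul_eq_mul, card_range]
    refine mul_le_mul_of_nonneg_right ?_ (sq_nonneg _)
    rw [hxdef]
    exact_mod_cast (by omega : K + h ≤ 2 * X)
  exact sF.trans (e2_fin δ x _ _ hδ hx1 he256 sW sG')

end Pool.Agent.MV5
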