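import Pool.Agent.MV5.StB
import Pool.Agent.GBQ.Basic
import Pool.Agent.GBQ.L2

/-!
# MV5 / Fb: bound for the coefficients (helper93)
-/

set_option autoImplicit false

namespace Pool.Agent.MV5

open Finset Filter
open Pool.Agent.GBQ (ee lam nd Admissible)
open Pool.Agent.MVX (Chr tent Bm Um prm Win GP)
open Pool.Agent.MVII (rr)

section core

variable {R : Type} [CommRing R] [Fintype R]

open Classical in
theorem fb_core (D : Ideal R) (ν : R) (ψ c : R → ℂ) (hadd : ∀ x y, ψ (x + y) = ψ x * ψ y)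
    (hn : ∀ x, ‖ψ x‖ = 1) (hc : ∀ x y, c (x * y) = c x * c y) (hcn : ∀ x, IsUnit x → ‖c x‖ = 1)
    (Y : Finset R) (hmem : ∀ x, x ∈ Y ↔ IsUnit x ∧ x - ν ∈ D) (B : ℝ) (hB0 : 0 ≤ B)
    (hB : ∀ x ∈ Y, ∀ S1 S2 : Finset R, (∀ z ∈ S1, z ∈ D) →
      (∀ z ∈ S2, z ∈ Y ∧ ∀ w ∈ D, ψ (w * (x - z)) = 1) → (S1.card : ℝ) * S2.card ≤ B) :
    ‖∑ x ∈ Y, ψ x * (starRingEnd ℂ) (c x)‖ ^ 2 ≤ B := by
  rcases Y.eq_empty_or_nonempty with h0 | ⟨x₀, hx₀⟩
  · rw [h0]
    simpa using hB0
  have hψ0 : ψ 0 = 1 := by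
    have h1 := hadd 0 0
    rw [add_zero] at h1
    have h2 : ψ 0 ≠ 0 := by
      intro h
      have h3 := hn 0
      rw [h, norm_zero] at h3
      exact zero_ne_one h3
    have h3 : ψ 0 * 1 = ψ 0 * ψ 0 := by rw [mul_one]; exact h1
    exact (mul_left_cancel₀ h2 h3).symm
  have hconj : ∀ x, (starRingEnd ℂ) (ψ x) = ψ (-x) := by
    intro x
    have h1 : ψ x * ψ (-x) = 1 := by rw [← hadd, add_neg_cancel, hψ0]
    have h2 : ψ x * (starRingEnd ℂ) (ψ x) = 1 := by
      rw [Complex.mul_conj, Complex.normSq_eq_norm_sq, hn]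
      simp
    have h3 : ψ x ≠ 0 := by
      intro h
      rw [h, zero_mul] at h1
      exact zero_ne_one h1
    exact mul_left_cancel₀ h3 (h2.trans h1.symm)
  obtain ⟨T, hT⟩ : ∃ T, T = ∑ x ∈ Y, ψ x * (starRingEnd ℂ) (c x) := ⟨_, rfl⟩
  obtain ⟨S, hS⟩ : ∃ S : R → ℂ, ∀ u, S u = ∑ x ∈ Y, ψ (u * x) * (starRingEnd ℂ) (c x) :=
    ⟨_, fun _ => rfl⟩
  obtain ⟨A, hA⟩ : ∃ A : Finset R, A = univ.filter fun u => u - 1 ∈ D := ⟨_, rfl⟩
  have hAm : ∀ u, u ∈ A ↔ u - 1 ∈ D := by
    intro u
    rw [hA, Finset.mem_filter]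
    exact ⟨fun h => h.2, fun h => ⟨Finset.mem_univ _, h⟩⟩
  rw [← hT]
  -- the units
  have hSU : ∀ u ∈ A.filter IsUnit, ‖S u‖ = ‖T‖ := by
    intro u hu
    rw [Finset.mem_filter, hAm] at hu
    obtain ⟨hu1, hu2⟩ := hu
    obtain ⟨v, hv⟩ := hu2.exists_right_inv
    have hvu : v * u = 1 := by rw [mul_comm]; exact hv
    have hv1 : v - 1 ∈ D := by
      have e : v - 1 = -v * (u - 1) := by
        rw [mul_sub, neg_mul, hvu]
        ring
      rw [e]
      exact D.mul_mem_left _ hu1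
    have hvU : IsUnit v := ⟨⟨v, u, hvu, hv⟩, rfl⟩
    have h1 : T = ∑ x ∈ Y, ψ (u * x) * (starRingEnd ℂ) (c (u * x)) := by
      rw [hT]
      symm
      refine Finset.sum_nbij' (fun x => u * x) (fun x => v * x) ?_ ?_ ?_ ?_ ?_
      · intro x hx
        rw [hmem] at hx ⊢
        refine ⟨hu2.mul hx.1, ?_⟩
        have e : u * x - ν = x * (u - 1) + (x - ν) := by ring
        rw [e]
        exact D.add_mem (D.mul_mem_left _ hu1) hx.2
      · intro x hx
        rw [hmem] at hx ⊢
        refine ⟨hvU.mul hx.1, ?_⟩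
        have e : v * x - ν = x * (v - 1) + (x - ν) := by ring
        rw [e]
        exact D.add_mem (D.mul_mem_left _ hv1) hx.2
      · intro x _
        show v * (u * x) = x
        rw [← mul_assoc, hvu, one_mul]
      · intro x _
        show u * (v * x) = x
        rw [← mul_assoc, hv, one_mul]
      · intro x _
        rfl
    have h2 : T = (starRingEnd ℂ) (c u) * S u := by
      rw [h1, hS, Finset.mul_sum]
      refine Finset.sum_congr rfl fun x _ => ?_
      rw [hc, map_mul]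
      ring
    rw [h2, norm_mul, RCLike.norm_conj, hcn u hu2, one_mul]
  have hcard : (Y.card : ℝ) ≤ (A.filter IsUnit).card := by
    obtain ⟨v, hv⟩ := ((hmem x₀).1 hx₀).1.exists_right_inv
    have hvU : IsUnit v := ⟨⟨v, x₀, by rw [mul_comm]; exact hv, hv⟩, rfl⟩
    have h1 : Y.card ≤ (A.filter IsUnit).card := by
      refine Finset.card_le_card_of_injOn (fun x => x * v) ?_ ?_
      · intro x hx
        have hx' := (hmem x).1 (Finset.mem_coe.1 hx)
        rw [Finset.mem_coe, Finset.mem_filter, hAm]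
        refine ⟨?_, hx'.1.mul hvU⟩
        have e : x * v - 1 = v * ((x - ν) - (x₀ - ν)) := by
          have : v * ((x - ν) - (x₀ - ν)) = x * v - x₀ * v := by ring
          rw [this, hv]
        rw [e]
        exact D.mul_mem_left _ (D.sub_mem hx'.2 ((hmem x₀).1 hx₀).2)
      · intro x _ x' _ h
        have h2 : x * v * x₀ = x' * v * x₀ := congrArg (fun z => z * x₀) h
        have h3 : v * x₀ = 1 := by rw [mul_comm]; exact hv
        rwa [mul_assoc, mul_assoc, h3, mul_one, mul_one] at h2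
    exact_mod_cast h1
  have h1 : (Y.card : ℝ) * ‖T‖ ^ 2 ≤ ∑ u ∈ A, ‖S u‖ ^ 2 := by
    have h2 : ∑ u ∈ A.filter IsUnit, ‖S u‖ ^ 2 ≤ ∑ u ∈ A, ‖S u‖ ^ 2 :=
      Finset.sum_le_sum_of_subset_of_nonneg (Finset.filter_subset _ _) fun _ _ _ => by positivity
    have h3 : ∑ u ∈ A.filter IsUnit, ‖S u‖ ^ 2 = (A.filter IsUnit).card * ‖T‖ ^ 2 := by
      rw [Finset.sum_congr rfl fun u hu => by rw [hSU u hu], Finset.sum_const, nsmul_eq_mul]
    have h4 := mul_le_mul_of_nonneg_right hcard (by positivity : (0 : ℝ) ≤ ‖T‖ ^ 2)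
    linarith
  -- expansion
  have hsq : ∀ u, ((‖S u‖ ^ 2 : ℝ) : ℂ) = ∑ x ∈ Y, ∑ x' ∈ Y,
      ((starRingEnd ℂ) (c x) * c x') * ψ (u * (x - x')) := by
    intro u
    have h2 : ((‖S u‖ ^ 2 : ℝ) : ℂ) = S u * (starRingEnd ℂ) (S u) := by
      rw [Complex.mul_conj, Complex.normSq_eq_norm_sq]
    rw [h2, hS, map_sum, Finset.sum_mul_sum]
    refine Finset.sum_congr rfl fun x _ => Finset.sum_congr rfl fun x' _ => ?_
    rw [map_mul, Complex.conj_conj, hconj]
    have h3 : u * (x - x') = u * x + -(u * x') := by ring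
    rw [h3, hadd]
    ring
  have hinner : ∀ z, ‖∑ u ∈ A, ψ (u * z)‖ ≤
      if ∀ w ∈ D, ψ (w * z) = 1 then (A.card : ℝ) else 0 := by
    intro z
    split_ifs with hz
    · refine (norm_sum_le _ _).trans ?_
      simp only [hn, Finset.sum_const, nsmul_eq_mul, mul_one]
      exact le_rfl
    · push Not at hz
      obtain ⟨w, hw, hwz⟩ := hz
      have h2 : ∑ u ∈ A, ψ (u * z) = ψ (w * z) * ∑ u ∈ A, ψ (u * z) := by
        rw [Finset.mul_sum]
        symm
        refine Finset.sum_nbij' (fun u => u + w) (fun u => u - w) ?_ ?_ ?_ ?_ ?_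
        · intro u hu
          rw [hAm] at hu ⊢
          have e : u + w - 1 = (u - 1) + w := by ring
          rw [e]
          exact D.add_mem hu hw
        · intro u hu
          rw [hAm] at hu ⊢
          have e : u - w - 1 = (u - 1) - w := by ring
          rw [e]
          exact D.sub_mem hu hw
        · intro u _
          exact add_sub_cancel_right u w
        · intro u _
          exact sub_add_cancel u w
        · intro u _
          show ψ (w * z) * ψ (u * z) = ψ ((u + w) * z)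
          rw [add_mul, hadd, mul_comm]
      have h3 : (1 - ψ (w * z)) * ∑ u ∈ A, ψ (u * z) = 0 := by
        rw [sub_mul, one_mul, ← h2, sub_self]
      rcases mul_eq_zero.1 h3 with h4 | h4
      · exact absurd (sub_eq_zero.1 h4).symm hwz
      · rw [h4, norm_zero]
  have hAD : (A.card : ℝ) = (univ.filter fun x => x ∈ D : Finset R).card := by
    have h2 : A.card = (univ.filter fun x => x ∈ D : Finset R).card := by
      refine Finset.card_nbij' (fun u => u - 1) (fun u => u + 1) ?_ ?_ ?_ ?_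
      · intro u hu
        have h3 := (hAm u).1 (Finset.mem_coe.1 hu)
        rw [Finset.mem_coe, Finset.mem_filter]
        exact ⟨Finset.mem_univ _, h3⟩
      · intro u hu
        have h3 := Finset.mem_coe.1 hu
        rw [Finset.mem_filter] at h3
        rw [Finset.mem_coe, hAm]
        show u + 1 - 1 ∈ D
        rw [add_sub_cancel_right]
        exact h3.2
      · intro u _
        exact sub_add_cancel u 1
      · intro u _
        exact add_sub_cancel_right u 1
    rw [h2]
  have h2 : ∑ u ∈ A, ‖S u‖ ^ 2 ≤ Y.card * B := by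
    have h3 : ((∑ u ∈ A, ‖S u‖ ^ 2 : ℝ) : ℂ) = ∑ x ∈ Y, ∑ x' ∈ Y,
        ((starRingEnd ℂ) (c x) * c x') * ∑ u ∈ A, ψ (u * (x - x')) := by
      rw [Complex.ofReal_sum]
      rw [Finset.sum_congr rfl fun u _ => hsq u, Finset.sum_comm]
      refine Finset.sum_congr rfl fun x _ => ?_
      rw [Finset.sum_comm]
      refine Finset.sum_congr rfl fun x' _ => ?_
      rw [Finset.mul_sum]
    have h4 : ∑ u ∈ A, ‖S u‖ ^ 2 = ‖((∑ u ∈ A, ‖S u‖ ^ 2 : ℝ) : ℂ)‖ := by
      rw [Complex.norm_real, Real.norm_of_nonneg (Finset.sum_nonneg fun _ _ => by positivity)]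
    rw [h4, h3]
    refine (norm_sum_le _ _).trans ?_
    have h5 : ∀ x ∈ Y, ‖∑ x' ∈ Y, ((starRingEnd ℂ) (c x) * c x') * ∑ u ∈ A, ψ (u * (x - x'))‖ ≤
        B := by
      intro x hx
      refine (norm_sum_le _ _).trans ?_
      have h6 : ∀ x' ∈ Y, ‖((starRingEnd ℂ) (c x) * c x') * ∑ u ∈ A, ψ (u * (x - x'))‖ ≤
          if ∀ w ∈ D, ψ (w * (x - x')) = 1 then (A.card : ℝ) else 0 := by
        intro x' hx'
        rw [norm_mul, norm_mul, RCLike.norm_conj, hcn x ((hmem x).1 hx).1,
          hcn x' ((hmem x').1 hx').1, one_mul, one_mul]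
        exact hinner _
      refine (Finset.sum_le_sum h6).trans ?_
      rw [← Finset.sum_filter, Finset.sum_const, nsmul_eq_mul, mul_comm, hAD]
      exact hB x hx _ _ (fun z hz => (Finset.mem_filter.1 hz).2)
        (fun z hz => Finset.mem_filter.1 hz)
    refine (Finset.sum_le_sum h5).trans ?_
    rw [Finset.sum_const, nsmul_eq_mul]
  have h3 : (0 : ℝ) < Y.card := by exact_mod_cast Finset.card_pos.2 ⟨x₀, hx₀⟩
  exact le_of_mul_le_mul_left (h1.trans h2) h3

end core

/-- the additive character -/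
noncomputable def fb_psi (l q : ℕ) (b : ℤ) (x : ZMod l) : ℂ := ee ((b : ℝ) * x.val / q)

theorem fb_psi_int (l q : ℕ) [NeZero l] (b : ℤ) (hq : 1 ≤ q) (hql : q ∣ l) (n : ℤ) :
    fb_psi l q b (n : ZMod l) = ee ((b : ℝ) * n / q) := by
  have h1 : (((n : ZMod l).val : ℕ) : ℤ) = n % l := ZMod.val_intCast n
  obtain ⟨k, hk⟩ := hql
  have h2 : n = l * (n / l) + n % l := (Int.mul_ediv_add_emod n l).symm
  have hq0 : (q : ℝ) ≠ 0 := by
    have : q ≠ 0 := by omega
    exact_mod_cast this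
  unfold fb_psi
  have h3 : ((n : ZMod l).val : ℝ) = ((n % l : ℤ) : ℝ) := by
    rw [← h1]
    push_cast
    rfl
  rw [h3]
  have h4 : (b : ℝ) * n / q = (b : ℝ) * ((n % l : ℤ) : ℝ) / q + ((b * (k * (n / l)) : ℤ) : ℝ) := by
    have h5 : (n : ℝ) = (q : ℝ) * k * ((n / l : ℤ) : ℝ) + ((n % l : ℤ) : ℝ) := by
      have h6 : (n : ℝ) = ((l * (n / l) + n % l : ℤ) : ℝ) := by rw [← h2]
      rw [h6]
      have h7 : (l : ℝ) = (q : ℝ) * k := by exact_mod_cast congrArg (Nat.cast (R := ℝ)) hk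
      push_cast
      rw [h7]
    rw [h5]
    push_cast
    field_simp
    ring
  rw [h4, Pool.Agent.GBQ.ee_add_int]

theorem fb_psi_add (l q : ℕ) [NeZero l] (b : ℤ) (hq : 1 ≤ q) (hql : q ∣ l) (x y : ZMod l) :
    fb_psi l q b (x + y) = fb_psi l q b x * fb_psi l q b y := by
  have h1 : ((x.val : ℤ) : ZMod l) = x := by
    rw [Int.cast_natCast]
    exact ZMod.natCast_zmod_val x
  have h2 : ((y.val : ℤ) : ZMod l) = y := by
    rw [Int.cast_natCast]
    exact ZMod.natCast_zmod_val y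
  have h3 : x + y = (((x.val : ℤ) + (y.val : ℤ) : ℤ) : ZMod l) := by
    rw [Int.cast_add, h1, h2]
  rw [h3, fb_psi_int l q b hq hql]
  unfold fb_psi
  rw [← Pool.Agent.GBQ.ee_add]
  congr 1
  push_cast
  ring

theorem fb_count (d q l : ℕ) (hd : 1 ≤ d) (hq : 1 ≤ q) (hl : l = Nat.lcm d q) :
    ((range l).filter fun n => d ∣ n).card ≤ q / Nat.gcd d q ∧
    ((range l).filter fun n => d ∣ n ∧ q ∣ d * n).card ≤ Nat.gcd d q := by
  obtain ⟨g, hg⟩ : ∃ g, g = Nat.gcd d q := ⟨_, rfl⟩
  have hg0 : 0 < g := by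
    rw [hg]
    exact Nat.gcd_pos_of_pos_left _ hd
  obtain ⟨d', hd'⟩ : g ∣ d := by rw [hg]; exact Nat.gcd_dvd_left _ _
  obtain ⟨m, hm⟩ : g ∣ q := by rw [hg]; exact Nat.gcd_dvd_right _ _
  have hcop : Nat.Coprime m d' := by
    have h1 := Nat.coprime_div_gcd_div_gcd (m := d) (n := q) (by rw [← hg]; exact hg0)
    rw [← hg, hd', hm, Nat.mul_div_cancel_left _ hg0, Nat.mul_div_cancel_left _ hg0] at h1
    exact h1.symm
  have hld : l = d * m := by
    have h1 : g * l = d * q := by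
      rw [hl, hg]
      exact Nat.gcd_mul_lcm d q
    have h2 : g * l = g * (d * m) := by
      rw [h1, hm]
      ring
    exact Nat.eq_of_mul_eq_mul_left hg0 h2
  have hqm : q / g = m := by rw [hm, Nat.mul_div_cancel_left _ hg0]
  rw [← hg, hqm]
  have hd0 : 0 < d := hd
  refine ⟨?_, ?_⟩
  · have h1 : ((range l).filter fun n => d ∣ n).card ≤ (range m).card := by
      refine Finset.card_le_card_of_injOn (fun n => n / d) ?_ ?_
      · intro n hn
        have h2 := Finset.mem_coe.1 hn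
        rw [Finset.mem_filter, Finset.mem_range, hld] at h2
        rw [Finset.mem_coe, Finset.mem_range]
        exact Nat.div_lt_of_lt_mul h2.1
      · intro n hn n' hn' h
        have h2 := (Finset.mem_filter.1 (Finset.mem_coe.1 hn)).2
        have h3 := (Finset.mem_filter.1 (Finset.mem_coe.1 hn')).2
        have h4 : n / d = n' / d := h
        rw [← Nat.div_mul_cancel h2, ← Nat.div_mul_cancel h3, h4]
    rwa [Finset.card_range] at h1
  · have h1 : ((range l).filter fun n => d ∣ n ∧ q ∣ d * n).card ≤ (range g).card := by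
      have hkey : ∀ n, n < l → d ∣ n → q ∣ d * n → m ∣ g * (n / d) := by
        intro n _ h2 h3
        obtain ⟨k, hk⟩ := h2
        have h4 : n / d = k := by rw [hk, Nat.mul_div_cancel_left _ hd0]
        rw [h4]
        have h5 : g * m ∣ g * (d' * (d' * (g * k))) := by
          have e : g * (d' * (d' * (g * k))) = d * n := by
            rw [hk]
            nth_rewrite 2 [hd']
            nth_rewrite 1 [hd']
            ring
          rw [e, ← hm]
          exact h3
        have h6 : m ∣ d' * (d' * (g * k)) := Nat.dvd_of_mul_dvd_mul_left hg0 h5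
        exact hcop.dvd_of_dvd_mul_left (hcop.dvd_of_dvd_mul_left h6)
      have hm0 : 0 < m := by
        rcases Nat.eq_zero_or_pos m with h | h
        · rw [h, mul_zero] at hm
          omega
        · exact h
      refine Finset.card_le_card_of_injOn (fun n => g * (n / d) / m) ?_ ?_
      · intro n hn
        have h2 := Finset.mem_coe.1 hn
        rw [Finset.mem_filter, Finset.mem_range, hld] at h2
        rw [Finset.mem_coe, Finset.mem_range]
        have h3 : n / d < m := Nat.div_lt_of_lt_mul h2.1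
        refine Nat.div_lt_of_lt_mul ?_
        rw [mul_comm m g]
        exact Nat.mul_lt_mul_of_pos_left h3 hg0
      · intro n hn n' hn' h
        have h2 := Finset.mem_filter.1 (Finset.mem_coe.1 hn)
        have h3 := Finset.mem_filter.1 (Finset.mem_coe.1 hn')
        have h4 : g * (n / d) / m = g * (n' / d) / m := h
        have h5 := hkey n (Finset.mem_range.1 h2.1) h2.2.1 h2.2.2
        have h6 := hkey n' (Finset.mem_range.1 h3.1) h3.2.1 h3.2.2
        have h7 : g * (n / d) = g * (n' / d) := by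
          rw [← Nat.div_mul_cancel h5, ← Nat.div_mul_cancel h6, h4]
        have h8 : n / d = n' / d := Nat.eq_of_mul_eq_mul_left hg0 h7
        rw [← Nat.div_mul_cancel h2.2.1, ← Nat.div_mul_cancel h3.2.1, h8]
    rwa [Finset.card_range] at h1

theorem fb_one (l q d : ℕ) [NeZero l] (b : ℤ) (hq : 1 ≤ q) (hql : q ∣ l)
    (hb : IsCoprime b (q : ℤ)) (z : ZMod l) (h : fb_psi l q b (((d : ℤ) : ZMod l) * z) = 1) :
    q ∣ d * z.val := by
  have h3 : ((z.val : ℕ) : ZMod l) = z := ZMod.natCast_zmod_val _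
  have h5 : ((d : ℤ) : ZMod l) * z = (((d : ℤ) * (z.val : ℤ) : ℤ) : ZMod l) := by
    rw [Int.cast_mul, Int.cast_natCast z.val, h3]
  rw [h5, fb_psi_int l q b hq hql] at h
  obtain ⟨k, hk⟩ := Pool.Agent.GBQ.l2_eq_one h
  have hq0 : (q : ℝ) ≠ 0 := by
    have : q ≠ 0 := by omega
    exact_mod_cast this
  rw [div_eq_iff hq0] at hk
  have h6 : b * ((d : ℤ) * (z.val : ℤ)) = k * q := by exact_mod_cast hk
  have h7 : (q : ℤ) ∣ b * ((d : ℤ) * (z.val : ℤ)) := ⟨k, by rw [h6]; ring⟩
  have h8 : (q : ℤ) ∣ (d : ℤ) * (z.val : ℤ) := hb.symm.dvd_of_dvd_mul_left h7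
  exact_mod_cast h8

theorem thm_Fb : St_Fb := by
  classical
  intro d q ν b r χ hd hq hb hr
  obtain ⟨l, hl⟩ : ∃ l, l = Nat.lcm d q := ⟨_, rfl⟩
  have hl0 : 0 < l := by
    rw [hl]
    exact Nat.lcm_pos hd hq
  have : NeZero l := ⟨hl0.ne'⟩
  have hdl : d ∣ l := by rw [hl]; exact Nat.dvd_lcm_left _ _
  have hql : q ∣ l := by rw [hl]; exact Nat.dvd_lcm_right _ _
  rw [← hl] at hr
  have hr0 : r ≠ 0 := by
    rintro rfl
    exact hl0.ne' (Nat.eq_zero_of_zero_dvd hr)
  have : NeZero r := ⟨hr0⟩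
  obtain ⟨D, hD⟩ : ∃ D : Ideal (ZMod l), D = RingHom.ker (ZMod.castHom hdl (ZMod d)) := ⟨_, rfl⟩
  have hDm : ∀ n : ℤ, (n : ZMod l) ∈ D ↔ (d : ℤ) ∣ n := by
    intro n
    rw [hD, RingHom.mem_ker, map_intCast, ZMod.intCast_zmod_eq_zero_iff_dvd]
  obtain ⟨Y, hY⟩ : ∃ Y : Finset (ZMod l), ∀ x, x ∈ Y ↔ IsUnit x ∧ x - (ν : ZMod l) ∈ D :=
    ⟨univ.filter fun x => IsUnit x ∧ x - (ν : ZMod l) ∈ D, fun x => by
      rw [Finset.mem_filter]
      exact ⟨fun h => h.2, fun h => ⟨Finset.mem_univ _, h⟩⟩⟩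
  have hsum : ∑ y ∈ rr l, Pd d ν q b (y : ℤ) * (starRingEnd ℂ) (χ (y : ZMod r)) =
      ∑ x ∈ Y, fb_psi l q b x * (starRingEnd ℂ) (χ (ZMod.castHom hr (ZMod r) x)) := by
    have h1 : ∑ y ∈ rr l, Pd d ν q b (y : ℤ) * (starRingEnd ℂ) (χ (y : ZMod r)) =
        ∑ y ∈ (rr l).filter (fun y : ℕ => (d : ℤ) ∣ (y : ℤ) - ν),
          ee ((b : ℝ) * ((y : ℤ) : ℝ) / q) * (starRingEnd ℂ) (χ (y : ZMod r)) := by
      rw [Finset.sum_filter]
      refine Finset.sum_congr rfl fun y _ => ?_
      unfold Pd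
      split_ifs
      · rfl
      · rw [zero_mul]
    rw [h1]
    refine Finset.sum_nbij' (fun y : ℕ => (y : ZMod l)) (fun x => x.val) ?_ ?_ ?_ ?_ ?_
    · intro y hy
      rw [Finset.mem_filter] at hy
      unfold rr at hy
      rw [Finset.mem_filter, Finset.mem_range] at hy
      rw [hY]
      refine ⟨(ZMod.isUnit_iff_coprime _ _).2 hy.1.2, ?_⟩
      have h2 := (hDm ((y : ℤ) - ν)).2 hy.2
      rw [Int.cast_sub, Int.cast_natCast] at h2
      exact h2
    · intro x hx
      rw [hY] at hx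
      rw [Finset.mem_filter]
      have hxv : ((x.val : ℕ) : ZMod l) = x := ZMod.natCast_zmod_val x
      refine ⟨?_, ?_⟩
      · unfold rr
        rw [Finset.mem_filter, Finset.mem_range]
        refine ⟨ZMod.val_lt x, (ZMod.isUnit_iff_coprime _ _).1 ?_⟩
        rw [hxv]
        exact hx.1
      · rw [← hDm, Int.cast_sub, Int.cast_natCast, hxv]
        exact hx.2
    · intro y hy
      rw [Finset.mem_filter] at hy
      unfold rr at hy
      rw [Finset.mem_filter, Finset.mem_range] at hy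
      exact ZMod.val_natCast_of_lt hy.1.1
    · intro x _
      exact ZMod.natCast_zmod_val x
    · intro y hy
      show ee ((b : ℝ) * ((y : ℤ) : ℝ) / q) * (starRingEnd ℂ) (χ (y : ZMod r)) =
        fb_psi l q b ((y : ℕ) : ZMod l) *
          (starRingEnd ℂ) (χ (ZMod.castHom hr (ZMod r) ((y : ℕ) : ZMod l)))
      have h0 : ZMod.castHom hr (ZMod r) ((y : ℕ) : ZMod l) = (y : ZMod r) :=
        map_natCast (ZMod.castHom hr (ZMod r)) y
      rw [h0]
      congr 1
      have h2 := fb_psi_int l q b hq hql (y : ℤ)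
      rw [Int.cast_natCast] at h2
      exact h2.symm
  have hcore := fb_core D (ν : ZMod l) (fb_psi l q b) (fun x => χ (ZMod.castHom hr (ZMod r) x))
    (fb_psi_add l q b hq hql) (fun x => Pool.Agent.GBQ.ee_norm _)
    (fun x y => by rw [map_mul, map_mul]) (fun x hx => by
      have h1 : IsUnit (ZMod.castHom hr (ZMod r) x) := hx.map _
      obtain ⟨u, hu⟩ := h1
      rw [← hu]
      exact DirichletCharacter.unit_norm_eq_one χ u) Y hY (q : ℝ) (Nat.cast_nonneg _) (by
      intro x hx S1 S2 hS1 hS2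
      obtain ⟨k1, k2⟩ := fb_count d q l hd hq hl
      have c1 : S1.card ≤ q / Nat.gcd d q := by
        refine le_trans ?_ k1
        refine Finset.card_le_card_of_injOn (fun x => x.val) ?_ ?_
        · intro z hz
          have h2 := hS1 z (Finset.mem_coe.1 hz)
          rw [Finset.mem_coe, Finset.mem_filter, Finset.mem_range]
          refine ⟨ZMod.val_lt z, ?_⟩
          have h3 := (hDm (z.val : ℤ)).1 (by
            rw [Int.cast_natCast, ZMod.natCast_zmod_val]
            exact h2)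
          exact_mod_cast h3
        · intro z _ z' _ h
          exact ZMod.val_injective l h
      have c2 : S2.card ≤ Nat.gcd d q := by
        refine le_trans ?_ k2
        refine Finset.card_le_card_of_injOn (fun x' => (x - x').val) ?_ ?_
        · intro x' hx'
          have h2 := hS2 x' (Finset.mem_coe.1 hx')
          have h3 : (((x - x').val : ℕ) : ZMod l) = x - x' := ZMod.natCast_zmod_val _
          rw [Finset.mem_coe, Finset.mem_filter, Finset.mem_range]
          refine ⟨ZMod.val_lt _, ?_, ?_⟩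
          · have h4 := h2.1
            rw [hY] at h4 hx
            have h5 : x - x' ∈ D := by
              have e : x - x' = (x - (ν : ZMod l)) - (x' - (ν : ZMod l)) := by ring
              rw [e]
              exact D.sub_mem hx.2 h4.2
            have h6 := (hDm ((x - x').val : ℤ)).1 (by
              rw [Int.cast_natCast, h3]
              exact h5)
            exact_mod_cast h6
          · exact fb_one l q d b hq hql hb (x - x') (h2.2 _ ((hDm (d : ℤ)).2 dvd_rfl))
        · intro x' _ x'' _ h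
          have h2 : x - x' = x - x'' := ZMod.val_injective l h
          exact sub_right_injective h2
      have c3 : S1.card * S2.card ≤ q := by
        refine (Nat.mul_le_mul c1 c2).trans ?_
        rw [Nat.div_mul_cancel (Nat.gcd_dvd_right _ _)]
      exact_mod_cast c3)
  unfold fh
  rw [← hl]
  show ‖(l.totient : ℂ)⁻¹ * ∑ y ∈ rr l, Pd d ν q b (y : ℤ) *
    (starRingEnd ℂ) (χ (y : ZMod r))‖ ≤ _
  rw [hsum, norm_mul, norm_inv, Complex.norm_natCast, div_eq_inv_mul]
  refine mul_le_mul_of_nonneg_left ?_ (by positivity)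
  exact Real.le_sqrt_of_sq_le hcore

end Pool.Agent.MV5
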