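import Pool.Agent.MV5.StB
import Pool.Agent.MVII.Bf

set_option autoImplicit false

/-!
# MV5, module Fe: the Fourier transform of the local means (helper75)
-/

namespace Pool.Agent.MV5

open Finset Filter
open Pool.Agent.GBQ (ee lam nd Admissible)
open Pool.Agent.MVX (Chr tent Bm Um prm Win GP)
open Pool.Agent.MT (IsWt)
open Pool.Agent.MVII (fj)

theorem thm_Fe : St_Fe := by
  intro η h K c β hη hh hK
  simp only [BY]
  have h1 : ∀ x ∈ range (K + h), ((h : ℂ) ^ 2)⁻¹ * (∑ n ∈ Icc 1 K, ((lam n : ℝ) : ℂ) *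
      (c.2 (n : ZMod c.1) * ((η ((n : ℝ) / K) : ℝ) : ℂ)) * ((tent h x n : ℝ) : ℂ)) * ee (β * x) =
      ∑ n ∈ Icc 1 K, ((h : ℂ) ^ 2)⁻¹ * (((lam n : ℝ) : ℂ) *
        (c.2 (n : ZMod c.1) * ((η ((n : ℝ) / K) : ℝ) : ℂ))) *
        (((tent h x n : ℝ) : ℂ) * ee (β * x)) := by
    intro x _
    rw [mul_assoc, sum_mul, mul_sum]
    refine sum_congr rfl fun n _ => ?_
    ring
  rw [sum_congr rfl h1, sum_comm, Tx, mul_sum]
  refine sum_congr rfl fun n hn => ?_
  rw [mem_Icc] at hn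
  rw [← mul_sum]
  by_cases hz : η ((n : ℝ) / K) = 0
  · rw [hz, Complex.ofReal_zero]
    ring
  · have hK0 : (0 : ℝ) < K := by
      have : 0 < K := by omega
      exact_mod_cast this
    have h2 := (hη.supp _ hz).1
    rw [lt_div_iff₀ hK0] at h2
    have h3 : (8 : ℝ) * h ≤ K := by exact_mod_cast hK
    have h4 : (h : ℝ) < n := by linarith
    have h5 : h < n := by exact_mod_cast h4
    rw [MVII.bf_tent h h K n β le_rfl h5 hn.2, fj]
    push_cast
    have hh0 : (h : ℂ) ≠ 0 := by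
      have : h ≠ 0 := by omega
      exact_mod_cast this
    field_simp

end Pool.Agent.MV5
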