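import Pool.Agent.MV5.StD
import Pool.Agent.MVII.FiC
import Pool.Agent.AAN.Dya
import Pool.Agent.GBQ.Red

set_option autoImplicit false

/-!
# MV5 [Fi]: assembly of the theorem with five prime factors
-/

namespace Pool.Agent.MV5

open Finset Filter
open Pool.Agent.GBQ (ee lam nd Admissible)
open Pool.Agent.MVX (Chr tent Bm Um prm Win GP)
open Pool.Agent.LIN (PP pz Dens)
open Pool.Agent.MT (IsWt)
open Pool.Agent.MVII (TT QQ HH H0 cp cs gp GQ ar PL PM NB BI Bc Md fj rr Per mn wq Sum4 Blk loc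
  SolY SolN)
open Pool.Agent.MVII (ExcC fiC_block fiC_all fi_ge fi_log)

/-- many `m` -/
theorem fi_large {N m δ : ℝ} {k : ℝ} {C : ℕ} (hN : 0 < N) (hk : 0 ≤ k)
    (hm : N ^ (δ / 2500) < m) (hlog : Real.log N ^ C ≤ N ^ (δ / 5000))
    (h : m * k ≤ N * Real.log N ^ C) : k ≤ N ^ (1 - δ / 5000) := by
  have h1 : 0 < N ^ (δ / 2500) := Real.rpow_pos_of_pos hN _
  have h2 : N ^ (δ / 2500) * k ≤ N * N ^ (δ / 5000) :=
    (mul_le_mul_of_nonneg_right hm.le hk).trans (h.trans (mul_le_mul_of_nonneg_left hlog hN.le))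
  have h3 : N * N ^ (δ / 5000) = N ^ (δ / 2500) * N ^ (1 - δ / 5000) := by
    rw [← Real.rpow_add hN]
    nth_rewrite 1 [← Real.rpow_one N]
    rw [← Real.rpow_add hN]
    congr 1
    ring
  rw [h3] at h2
  exact le_of_mul_le_mul_left h2 h1

/-- few `m` -/
theorem fi_small (hD : AAN.St_Dya) (hRed : GBQ.St_Red) {δ ε : ℝ} (hδ : 0 < δ)
    (hδ1 : δ ≤ 1 / 10 ^ 6) (hε : ε ≤ 1) (hB : BlockC δ ε) :
    ∀ᶠ N : ℕ in atTop, ∀ m : ℕ, 1 ≤ m → (m : ℝ) ≤ (N : ℝ) ^ (δ / 2500) → ∀ F : Finset ℕ,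
    (∀ n ∈ F, n ≤ N ∧ Admissible m n ∧ ExcC 5 m n ε) →
    (F.card : ℝ) ≤ (N : ℝ) ^ (1 - δ / 5000) := by
  obtain ⟨X₁, hX₁⟩ := eventually_atTop.1 hB
  filter_upwards [fi_ge (X₁ + 1 + 1) (show (0 : ℝ) < 1 / 2 by norm_num),
    fi_ge 10 (show (0 : ℝ) < δ / 64 - δ / 5000 by linarith), eventually_ge_atTop 1] with
    N hN1 hN2 hN3 m hm hmN F hF
  have hN1r : (1 : ℝ) ≤ N := by exact_mod_cast hN3
  have hN0 : (0 : ℝ) < N := by linarith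
  obtain ⟨X₀, hX₀⟩ : ∃ X₀ : ℕ, X₀ = ⌈(N : ℝ) ^ (1 / 2 : ℝ)⌉₊ + X₁ := ⟨_, rfl⟩
  have hs0 : 0 ≤ (N : ℝ) ^ (1 / 2 : ℝ) := Real.rpow_nonneg hN0.le _
  have hX₀1 : (N : ℝ) ^ (1 / 2 : ℝ) ≤ X₀ := by
    rw [hX₀]
    push_cast
    have h1 := Nat.le_ceil ((N : ℝ) ^ (1 / 2 : ℝ))
    have h2 : (0 : ℝ) ≤ X₁ := Nat.cast_nonneg _
    linarith
  have hX₀2 : (X₀ : ℝ) ≤ 2 * (N : ℝ) ^ (1 / 2 : ℝ) := by
    rw [hX₀]
    push_cast
    have h1 := (Nat.ceil_lt_add_one hs0).le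
    linarith
  have hX₀3 : 1 ≤ X₀ := by
    have h1 : (1 : ℝ) ≤ X₀ := by
      have h2 : (0 : ℝ) ≤ X₁ := Nat.cast_nonneg _
      linarith
    exact_mod_cast h1
  have h1 := hD (fun n => Admissible m n ∧ ExcC 5 m n ε) X₀ ((N : ℝ) ^ (-(δ / 64))) hX₀3
    (Real.rpow_nonneg hN0.le _) N ?_ F hF
  · refine h1.trans ?_
    have h2 : (X₀ : ℝ) ≤ 2 * (N : ℝ) ^ (1 - δ / 64) := by
      refine hX₀2.trans ?_
      have h3 : (N : ℝ) ^ (1 / 2 : ℝ) ≤ (N : ℝ) ^ (1 - δ / 64) :=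
        Real.rpow_le_rpow_of_exponent_le hN1r (by linarith)
      linarith
    have h3 : 8 * (N : ℝ) ^ (-(δ / 64)) * N = 8 * (N : ℝ) ^ (1 - δ / 64) := by
      have h4 : (N : ℝ) ^ (1 - δ / 64) = (N : ℝ) ^ (-(δ / 64)) * N := by
        nth_rewrite 3 [← Real.rpow_one (N : ℝ)]
        rw [← Real.rpow_add hN0]
        congr 1
        ring
      rw [h4]
      ring
    have h5 : (N : ℝ) ^ (1 - δ / 5000) = (N : ℝ) ^ (δ / 64 - δ / 5000) * (N : ℝ) ^ (1 - δ / 64) := by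
      rw [← Real.rpow_add hN0]
      congr 1
      ring
    rw [h3, h5]
    have h6 : 10 * (N : ℝ) ^ (1 - δ / 64) ≤
        (N : ℝ) ^ (δ / 64 - δ / 5000) * (N : ℝ) ^ (1 - δ / 64) :=
      mul_le_mul_of_nonneg_right hN2 (Real.rpow_nonneg hN0.le _)
    linarith
  · intro X hX hXN F' hF'
    have hXr : (N : ℝ) ^ (1 / 2 : ℝ) ≤ X := hX₀1.trans (by exact_mod_cast hX)
    have hX1 : (1 : ℝ) ≤ X := by exact_mod_cast hX₀3.trans hX
    have hX0 : (0 : ℝ) < X := by linarith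
    have hNX : (N : ℝ) ≤ (X : ℝ) ^ (2 : ℝ) := by
      have h2 := Real.rpow_le_rpow hs0 hXr (show (0 : ℝ) ≤ 2 by norm_num)
      rwa [← Real.rpow_mul hN0.le, show (1 / 2 : ℝ) * 2 = 1 by norm_num, Real.rpow_one] at h2
    have hm1 : (m : ℝ) ≤ (X : ℝ) ^ (δ / 1250) := by
      refine hmN.trans ((Real.rpow_le_rpow hN0.le hNX (by positivity)).trans ?_)
      rw [← Real.rpow_mul hX0.le]
      exact le_of_eq (by congr 1; ring)
    have hm2 : (m : ℝ) ≤ (X : ℝ) ^ (δ / 1000) :=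
      hm1.trans (Real.rpow_le_rpow_of_exponent_le hX1 (by linarith))
    have h2 := fiC_block hRed (le_refl 5) hε (hX₁ X (by omega) m hm hm2) F' hF'
    refine h2.trans ?_
    have h3 : (m : ℝ) * (X : ℝ) ^ (1 - δ / 30) ≤ (X : ℝ) ^ (δ / 1250) * (X : ℝ) ^ (1 - δ / 30) :=
      mul_le_mul_of_nonneg_right hm1 (Real.rpow_nonneg hX0.le _)
    refine h3.trans ?_
    have h4 : (X : ℝ) ^ (δ / 1250) * (X : ℝ) ^ (1 - δ / 30) ≤ (X : ℝ) ^ (-(δ / 32)) * X := by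
      have h5 : (X : ℝ) ^ (-(δ / 32)) * X = (X : ℝ) ^ (1 - δ / 32) := by
        nth_rewrite 2 [← Real.rpow_one (X : ℝ)]
        rw [← Real.rpow_add hX0]
        congr 1
        ring
      rw [h5, ← Real.rpow_add hX0]
      exact Real.rpow_le_rpow_of_exponent_le hX1 (by linarith)
    refine h4.trans (mul_le_mul_of_nonneg_right ?_ hX0.le)
    have h5 : (X : ℝ) ^ (-(δ / 32)) = ((X : ℝ) ^ (2 : ℝ)) ^ (-(δ / 64)) := by
      rw [← Real.rpow_mul hX0.le]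
      congr 1
      ring
    rw [h5]
    exact Real.rpow_le_rpow_of_nonpos hN0 hNX (by linarith)

theorem thm_Fi : St_Fi := by
  rintro hBl ⟨c, hc, C, hC⟩
  refine ⟨C + 1, fun ε' hε' => ?_⟩
  obtain ⟨ε, hεd⟩ : ∃ ε : ℝ, ε = min ε' 1 := ⟨_, rfl⟩
  have hε : 0 < ε := by
    rw [hεd]
    exact lt_min hε' one_pos
  have hε1 : ε ≤ 1 := by
    rw [hεd]
    exact min_le_right _ _
  have hεε : ε ≤ ε' := by
    rw [hεd]
    exact min_le_left _ _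
  obtain ⟨δ, hδ, hδ1, hB⟩ := hBl ε hε
  obtain ⟨N₁, hN₁⟩ := fiC_all (R := 5) hc hε (le_refl 5) hC
  obtain ⟨N₂, hN₂⟩ := eventually_atTop.1
    (fi_small AAN.thm_Dya GBQ.thm_Red hδ hδ1 hε1 hB)
  obtain ⟨N₃, hN₃⟩ := eventually_atTop.1
    (fi_log (C + 1) (show (0 : ℝ) < δ / 5000 by positivity))
  refine ⟨δ / 5000, max N₁ (max N₂ (max N₃ 3)), by positivity, ?_⟩
  intro N hN m F hF0
  have hNN1 : N₁ ≤ N := (le_max_left _ _).trans hN
  have hN' := (le_max_right _ _).trans hN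
  have hNN2 : N₂ ≤ N := (le_max_left _ _).trans hN'
  have hN'' := (le_max_right _ _).trans hN'
  have hNN3 : N₃ ≤ N := (le_max_left _ _).trans hN''
  have hN3 : 3 ≤ N := (le_max_right _ _).trans hN''
  have hN0 : (0 : ℝ) < N := by
    have : 0 < N := by omega
    exact_mod_cast this
  have hF : ∀ n ∈ F, n ≤ N ∧ Admissible m n ∧ ExcC 5 m n ε := by
    intro n hn
    obtain ⟨a1, a2, a3⟩ := hF0 n hn
    refine ⟨a1, a2, ?_⟩
    rcases a3 with a3 | ⟨a3, a4⟩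
    · exact Or.inl a3
    · refine Or.inr ⟨a3, a4.trans_le ?_⟩
      have hm : 1 ≤ m := a2.1
      exact Real.rpow_le_rpow_of_exponent_le (by exact_mod_cast (by omega : 1 ≤ n)) (by linarith)
  have h3 := hN₁ N hNN1 m F hF
  refine ⟨?_, h3⟩
  rcases F.eq_empty_or_nonempty with rfl | ⟨n, hn⟩
  · rw [card_empty, Nat.cast_zero]
    exact Real.rpow_nonneg hN0.le _
  · have hm : 1 ≤ m := (hF n hn).2.1.1
    by_cases hmN : (m : ℝ) ≤ (N : ℝ) ^ (δ / 2500)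
    · exact hN₂ N hNN2 m hm hmN F hF
    · exact fi_large hN0 (Nat.cast_nonneg _) (not_le.mp hmN) (hN₃ N hNN3) h3

end Pool.Agent.MV5
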