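import Pool.Agent.MV5.StD
import Pool.Agent.MVII.Gd

set_option autoImplicit false

/-!
# MV5 [Gd]: from the interface to what is used, with a small exponent
-/

namespace Pool.Agent.MV5

open Finset Filter
open Pool.Agent.MVX (Chr tent Bm Um prm Win GP)
open Pool.Agent.MVII (TT QQ HH H0 PL NB Bc Sum4 gd_single gd_real)

theorem thm_Gd : St_Gd := by
  intro hGP κ ε hκ0 hκ1 hε
  obtain ⟨N, hN⟩ : ∃ N : ℕ, N = 10 ^ 5 + ⌈1 / ε⌉₊ := ⟨_, rfl⟩
  obtain ⟨δ, hδ0, hδ1, hev⟩ := hGP κ hκ0 N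
  have hN1 : (10 ^ 5 : ℝ) ≤ N := by
    rw [hN]
    exact_mod_cast Nat.le_add_right (10 ^ 5) _
  have hN2 : 1 / ε ≤ N := by
    refine (Nat.le_ceil _).trans ?_
    rw [hN]
    exact_mod_cast Nat.le_add_left _ (10 ^ 5)
  have hδ2 : δ ≤ 1 / 10 ^ 6 := by
    have h1 : (10 ^ 5 : ℝ) * δ ≤ (N + 1) * δ := mul_le_mul_of_nonneg_right (by linarith) hδ0.le
    have h2 : (10 ^ 5 : ℝ) * δ ≤ 1 / 10 := h1.trans hδ1
    linarith
  have hδ3 : δ ≤ ε := by
    have h1 : 1 / ε * δ ≤ (N + 1) * δ := mul_le_mul_of_nonneg_right (by linarith) hδ0.le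
    have h2 : 1 / ε * δ ≤ 1 := by linarith
    rw [one_div, inv_mul_le_iff₀ hε, mul_one] at h2
    exact h2
  refine ⟨δ, hδ0, hδ2, hδ3, ?_⟩
  filter_upwards [tendsto_natCast_atTop_atTop.eventually hev, eventually_ge_atTop 1] with X hX hX1
  obtain ⟨q₁, hq0, χ₁, e, b, lam, E, hexc, hlow, hone, hU, hE0, hEsum, hmain⟩ := hX
  have hXr : (1 : ℝ) ≤ X := by exact_mod_cast hX1
  have hlam0 : 0 < lam := lt_of_lt_of_le (Real.rpow_pos_of_pos (by linarith) _) hlow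
  have hwin : ∀ x : ℕ, HH δ X ≤ x → x ≤ X → Win (X : ℝ) δ N (HH δ X) x := by
    intro x hx hxX
    refine ⟨?_, hx, by exact_mod_cast hxX⟩
    calc (X : ℝ) ^ (1 - (N : ℝ) * δ) ≤ (X : ℝ) ^ (1 - 10 * δ) := by
          refine Real.rpow_le_rpow_of_exponent_le hXr ?_
          have h1 : 10 * δ ≤ N * δ := mul_le_mul_of_nonneg_right (by linarith) hδ0.le
          linarith
      _ ≤ (HH δ X : ℕ) := Nat.le_ceil _
  have hq1T : q₁ ≤ TT δ X := Nat.le_floor hexc.cond.2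
  have hq1 : 1 < q₁ := hexc.cond.1
  have hT1 : 1 ≤ TT δ X := by omega
  have hEs : ∑ r ∈ Icc 1 (TT δ X), ∑ χ ∈ prm r, E ⟨r, χ⟩ ≤ κ * lam ^ 3 := hEsum
  -- the main terms
  have hb : ∀ x : ℕ, HH δ X ≤ x → x ≤ X → ∀ r ∈ Icc 1 (TT δ X), ∀ χ ∈ prm r,
      ∃ M : ℂ, M = (open scoped Classical in (if (⟨r, χ⟩ : Chr) = ⟨1, 1⟩ then (1 : ℂ) else 0) -
        (if (⟨r, χ⟩ : Chr) = ⟨q₁, χ₁⟩ then ((e * Um b (HH δ X) x : ℝ) : ℂ) else 0)) ∧
        ‖Bc (HH δ X) x ⟨r, χ⟩ - M‖ ≤ E ⟨r, χ⟩ := by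
    intro x hx hxX r hr χ hχ
    refine ⟨_, rfl, ?_⟩
    obtain ⟨m1, m2, m3⟩ := hmain (HH δ X) x (hwin x hx hxX)
    rw [mem_Icc] at hr
    by_cases h1 : (⟨r, χ⟩ : Chr) = ⟨1, 1⟩
    · have h2 : ¬ (⟨1, 1⟩ : Chr) = ⟨q₁, χ₁⟩ := by
        intro h
        have h3 : (1 : ℕ) = q₁ := congrArg Sigma.fst h
        omega
      rw [h1, if_pos rfl, if_neg h2, sub_zero]
      exact m1
    · rw [if_neg h1, zero_sub, sub_neg_eq_add]
      by_cases h2 : (⟨r, χ⟩ : Chr) = ⟨q₁, χ₁⟩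
      · rw [h2, if_pos rfl]
        exact m2
      · rw [if_neg h2, add_zero]
        have hr1 : 1 < r := by
          rcases Nat.lt_or_ge 1 r with h | h
          · exact h
          · exfalso
            have h4 : r = 1 := le_antisymm h hr.1
            subst h4
            exact h1 (by rw [DirichletCharacter.level_one χ])
        have hrX : (r : ℝ) ≤ (X : ℝ) ^ δ :=
          (Nat.le_floor_iff (Real.rpow_nonneg (by linarith) _)).1 hr.2
        exact m3 r hr1 hrX χ ((Pool.Agent.MVX.mem_prm _).1 hχ) h2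
  have hprim1 : (1 : DirichletCharacter ℂ 1).IsPrimitive :=
    DirichletCharacter.isPrimitive_one_level_one
  refine ⟨q₁, χ₁, fun x => e * Um b (HH δ X) x, lam, ?_⟩
  refine ⟨⟨by omega, hq1T⟩, gd_real q₁ χ₁ hexc.real, hlow, hone, ?_, ?_, ?_⟩
  · intro x hx hxX
    exact hU (HH δ X) x (hwin x hx hxX)
  · intro x hx hxX
    have hU1 := hU (HH δ X) x (hwin x hx hxX)
    have s1 := gd_single (TT δ X) (⟨1, 1⟩ : Chr) le_rfl hT1 hprim1 (fun _ => (1 : ℝ))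
    have s2 := gd_single (TT δ X) (⟨q₁, χ₁⟩ : Chr) (by change 1 ≤ q₁; omega) hq1T hexc.prim
      (fun _ => e * Um b (HH δ X) x)
    have hle : NB (Bc (HH δ X) x) (TT δ X) ≤ κ * lam ^ 3 + 1 + e * Um b (HH δ X) x := by
      unfold NB
      refine le_trans ?_ (add_le_add (add_le_add hEs s1.le) s2.le)
      rw [← sum_add_distrib, ← sum_add_distrib]
      refine sum_le_sum fun r hr => ?_
      rw [← sum_add_distrib, ← sum_add_distrib]
      refine sum_le_sum fun χ hχ => ?_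
      obtain ⟨M, hM, hMle⟩ := hb x hx hxX r hr χ hχ
      have h5 : ‖Bc (HH δ X) x ⟨r, χ⟩‖ ≤ ‖Bc (HH δ X) x ⟨r, χ⟩ - M‖ + ‖M‖ := by
        have h6 : Bc (HH δ X) x ⟨r, χ⟩ = (Bc (HH δ X) x ⟨r, χ⟩ - M) + M := by ring
        conv_lhs => rw [h6]
        exact norm_add_le _ _
      have h7 : ‖M‖ ≤ (open scoped Classical in (if (⟨r, χ⟩ : Chr) = ⟨1, 1⟩ then (1 : ℝ) else 0) +
          (if (⟨r, χ⟩ : Chr) = ⟨q₁, χ₁⟩ then e * Um b (HH δ X) x else 0)) := by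
        rw [hM]
        refine (norm_sub_le _ _).trans (add_le_add ?_ ?_)
        · split_ifs <;> simp
        · split_ifs
          · rw [Complex.norm_real, Real.norm_eq_abs, abs_of_nonneg hU1.1]
          · simp
      linarith
    have h8 : κ * lam ^ 3 ≤ 1 := mul_le_one₀ hκ1 (pow_nonneg hlam0.le 3)
      (pow_le_one₀ hlam0.le hone)
    linarith [hU1.2]
  · intro x hx hxX a
    have s1 := gd_single (TT δ X) (⟨1, 1⟩ : Chr) le_rfl hT1 hprim1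
      (fun c => (1 : ℂ) * (starRingEnd ℂ) (c.2 (a : ZMod c.1)))
    have s2 := gd_single (TT δ X) (⟨q₁, χ₁⟩ : Chr) (by change 1 ≤ q₁; omega) hq1T hexc.prim
      (fun c => ((e * Um b (HH δ X) x : ℝ) : ℂ) * (starRingEnd ℂ) (c.2 (a : ZMod c.1)))
    have e1 : (1 : ℂ) * (starRingEnd ℂ) ((1 : DirichletCharacter ℂ 1) (a : ZMod 1)) = 1 := by
      have : IsUnit (a : ZMod 1) := by
        have h9 : (a : ZMod 1) = 1 := Subsingleton.elim _ _
        rw [h9]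
        exact isUnit_one
      rw [MulChar.one_apply this]
      simp
    have e2 : (starRingEnd ℂ) (χ₁ (a : ZMod q₁)) = χ₁ (a : ZMod q₁) :=
      Complex.conj_eq_iff_im.2 (gd_real q₁ χ₁ hexc.real _)
    have hmainterm : 1 - χ₁ (a : ZMod q₁) * ((e * Um b (HH δ X) x : ℝ) : ℂ) =
        ∑ r ∈ Icc 1 (TT δ X), ∑ χ ∈ prm r, (open scoped Classical in
          (if (⟨r, χ⟩ : Chr) = ⟨1, 1⟩ then (1 : ℂ) * (starRingEnd ℂ) (χ (a : ZMod r)) else 0) -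
          (if (⟨r, χ⟩ : Chr) = ⟨q₁, χ₁⟩ then
            ((e * Um b (HH δ X) x : ℝ) : ℂ) * (starRingEnd ℂ) (χ (a : ZMod r)) else 0)) := by
      simp only [sum_sub_distrib]
      rw [s1, s2]
      change _ = (1 : ℂ) * (starRingEnd ℂ) ((1 : DirichletCharacter ℂ 1) (a : ZMod 1)) -
        ((e * Um b (HH δ X) x : ℝ) : ℂ) * (starRingEnd ℂ) (χ₁ (a : ZMod q₁))
      rw [e1, e2]
      ring
    rw [hmainterm]
    unfold PL
    rw [← sum_sub_distrib]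
    refine le_trans (norm_sum_le _ _) (le_trans (sum_le_sum fun r hr => ?_) hEs)
    rw [← sum_sub_distrib]
    refine le_trans (norm_sum_le _ _) (sum_le_sum fun χ hχ => ?_)
    obtain ⟨M, hM, hMle⟩ := hb x hx hxX r hr χ hχ
    have h10 : Bc (HH δ X) x ⟨r, χ⟩ * (starRingEnd ℂ) (χ (a : ZMod r)) -
        (open scoped Classical in
          (if (⟨r, χ⟩ : Chr) = ⟨1, 1⟩ then (1 : ℂ) * (starRingEnd ℂ) (χ (a : ZMod r)) else 0) -
          (if (⟨r, χ⟩ : Chr) = ⟨q₁, χ₁⟩ then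
            ((e * Um b (HH δ X) x : ℝ) : ℂ) * (starRingEnd ℂ) (χ (a : ZMod r)) else 0)) =
        (Bc (HH δ X) x ⟨r, χ⟩ - M) * (starRingEnd ℂ) (χ (a : ZMod r)) := by
      rw [hM]
      split_ifs <;> ring
    rw [h10, norm_mul, RCLike.norm_conj]
    calc ‖Bc (HH δ X) x ⟨r, χ⟩ - M‖ * ‖χ (a : ZMod r)‖ ≤ E ⟨r, χ⟩ * 1 :=
          mul_le_mul hMle (χ.norm_le_one _) (norm_nonneg _) (hE0 _)
      _ = E ⟨r, χ⟩ := mul_one _

end Pool.Agent.MV5
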