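import Pool.Agent.MV5.StC
import Pool.Agent.MVII.Lc

set_option autoImplicit false

/-!
# MV5 / Gl: the densities
-/

namespace Pool.Agent.MV5

open Finset Filter

private theorem gl_rt (p : ℕ) (hp : p.Prime) : (RT p).card ≤ 2 := by
  rcases (RT p).eq_empty_or_nonempty with h0 | ⟨ν, hν⟩
  · simp [h0]
  · have hs : RT p ⊆ {ν, p - ν} := by
      intro ν' hν'
      rw [RT, Finset.mem_filter, Finset.mem_range] at hν hν'
      have h1 : (p : ℤ) ∣ ((ν' : ℤ) - ν) * ((ν' : ℤ) + ν) := by
        have h2 := dvd_sub hν'.2 hν.2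
        have e : ((ν' : ℤ) ^ 2 - 2) - ((ν : ℤ) ^ 2 - 2) = ((ν' : ℤ) - ν) * ((ν' : ℤ) + ν) := by ring
        rwa [e] at h2
      rw [Finset.mem_insert, Finset.mem_singleton]
      rcases (Nat.prime_iff_prime_int.1 hp).dvd_or_dvd h1 with h3 | h3
      · left
        have h4 : (ν' : ℤ) - ν = 0 := Int.eq_zero_of_abs_lt_dvd h3 (by
          rw [abs_lt]
          constructor <;> omega)
        omega
      · obtain ⟨t, ht⟩ := h3
        have hp0 : (0 : ℤ) < p := by exact_mod_cast hp.pos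
        have ht0 : 0 ≤ t := by
          by_contra h
          have : (p : ℤ) * t < 0 := mul_neg_of_pos_of_neg hp0 (not_le.1 h)
          omega
        have ht2 : t < 2 := by
          by_contra h
          have : (p : ℤ) * 2 ≤ p * t := mul_le_mul_of_nonneg_left (not_lt.1 h) hp0.le
          omega
        rcases (by omega : t = 0 ∨ t = 1) with h | h
        · subst h
          left
          omega
        · subst h
          right
          omega
    exact (Finset.card_le_card hs).trans Finset.card_le_two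

private theorem gl_le_rt (m n p : ℕ) : nB m n p ≤ (RT p).card := by
  refine Finset.card_le_card fun y hy => ?_
  rw [Finset.mem_filter] at hy
  rw [RT, Finset.mem_filter]
  exact ⟨hy.1, hy.2.2.2⟩

private theorem gl_pow (x : ℝ) (h0 : 0 ≤ x) (h1 : x ≤ 1 / 7) : (1 - x) ^ 8 ≤ 1 - 4 * x := by
  have a1 : (1 - x) ^ 2 ≤ 1 - 13 / 7 * x := by nlinarith
  have a2 : ((1 - x) ^ 2) ^ 2 ≤ (1 - 13 / 7 * x) ^ 2 := pow_le_pow_left₀ (by positivity) a1 2
  have a3 : (1 - 13 / 7 * x) ^ 2 ≤ 1 - 3 * x := by nlinarith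
  have a4 : (((1 - x) ^ 2) ^ 2) ^ 2 ≤ (1 - 3 * x) ^ 2 :=
    pow_le_pow_left₀ (by positivity) (a2.trans a3) 2
  have a5 : (1 - 3 * x) ^ 2 ≤ 1 - 4 * x := by nlinarith
  calc (1 - x) ^ 8 = (((1 - x) ^ 2) ^ 2) ^ 2 := by ring
    _ ≤ _ := a4.trans a5

theorem thm_Gl : St_Gl := by
  intro Q q₁ m n hc hodd p hp
  obtain ⟨c, -, hLc⟩ := Pool.Agent.MVII.thm_Lc
  obtain ⟨-, -, L3⟩ := hLc m n hc hodd
  have hp0 : (0 : ℝ) < p := by exact_mod_cast hp.pos
  have hp2 : (2 : ℝ) ≤ p := by exact_mod_cast hp.two_le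
  have hx0 : 0 ≤ 1 - 1 / (p : ℝ) := by
    rw [sub_nonneg, div_le_one hp0]
    linarith
  have hx1 : 1 - 1 / (p : ℝ) ≤ 1 := by
    have : 0 ≤ 1 / (p : ℝ) := by positivity
    linarith
  have hx8 : (1 - 1 / (p : ℝ)) ^ 8 ≤ 1 := pow_le_one₀ hx0 hx1
  -- the main reduction
  have key : ∀ g : ℝ, 0 ≤ g → g ≤ 3 / 4 → g ≤ 4 / p → ((p = 3 ∨ p = 5) → g = 0) → p ≠ 2 →
      0 ≤ g ∧ g ≤ 3 / 4 ∧ g ≤ 4 / p ∧ (1 - 1 / (p : ℝ)) ^ 8 ≤ 1 - g := by
    intro g h1 h2 h3 h4 h5
    refine ⟨h1, h2, h3, ?_⟩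
    by_cases h6 : p = 3 ∨ p = 5
    · rw [h4 h6]
      linarith
    · have h7 : 7 ≤ p := by
        by_contra h7
        have h8 := hp.two_le
        have : p = 4 ∨ p = 6 := by omega
        rcases this with h | h
        · subst h
          exact absurd hp (by norm_num)
        · subst h
          exact absurd hp (by norm_num)
      have h7' : (7 : ℝ) ≤ p := by exact_mod_cast h7
      have h8 : 1 / (p : ℝ) ≤ 1 / 7 := one_div_le_one_div_of_le (by norm_num) h7'
      have h9 := gl_pow (1 / (p : ℝ)) (by positivity) h8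
      have h10 : 4 * (1 / (p : ℝ)) = 4 / p := by ring
      linarith
  have hr : (p = 3 ∨ p = 5) → (RT p).card = 0 := by
    rintro (h | h)
    · subst h
      decide
    · subst h
      decide
  rw [gl]
  split_ifs with h1 h2
  · refine ⟨le_rfl, by norm_num, by positivity, ?_⟩
    simpa using hx8
  · have hne : p ≠ 2 := by
      intro h
      subst h
      exact h1 (Dvd.intro _ rfl)
    have h3 := (L3 p hp).2
    refine key _ (by positivity) (h3.trans (min_le_left _ _)) (h3.trans (min_le_right _ _))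
      (fun h4 => ?_) hne
    have h5 : nB m n p = 0 := Nat.le_zero.1 ((gl_le_rt m n p).trans (hr h4).le)
    rw [h5]
    simp
  · have hne : p ≠ 2 := by
      intro h
      subst h
      exact h1 (Dvd.intro _ rfl)
    have h4 : ((RT p).card : ℝ) ≤ 2 := by exact_mod_cast gl_rt p hp
    have hp3 : (3 : ℝ) ≤ p := by
      have : 3 ≤ p := by
        have := hp.two_le
        omega
      exact_mod_cast this
    refine key _ (by positivity) ?_ ?_ (fun h4 => ?_) hne
    · rw [div_le_iff₀ hp0]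
      nlinarith
    · exact div_le_div_of_nonneg_right (by linarith) hp0.le
    · rw [hr h4]
      simp

end Pool.Agent.MV5
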