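import Pool.Agent.MV5.StA
import Pool.Agent.MT.LargeCond
import Pool.Agent.MVII.Bl

set_option autoImplicit false

/-!
# MV5 [Hb]: small conductors, `β` away from `0`, mean square

helper40.  The identity of Vaughan with `U = V = ⌊K^{1/5}⌋`; the last sum is split into dyadic
blocks, which vanish unless `K / M > U`.
-/

namespace Pool.Agent.MV5

open Finset Filter
open Pool.Agent.GBQ (ee lam nd Admissible)
open Pool.Agent.MVX (Chr tent Bm Um prm Win GP)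
open Pool.Agent.MT (IsWt prim)

/-- the twisted weight -/
noncomputable def hb_F (η : ℝ → ℝ) (K : ℕ) (β : ℝ) {r : ℕ} (χ : DirichletCharacter ℂ r) (n : ℕ) :
    ℂ :=
  χ (n : ZMod r) * (((η ((n : ℝ) / K) : ℝ) : ℂ) * ee (β * n))

/-- a dyadic block -/
noncomputable def hb_B (η : ℝ → ℝ) (K : ℕ) (β : ℝ) (U M : ℕ) {r : ℕ}
    (χ : DirichletCharacter ℂ r) : ℂ :=
  ∑ l ∈ Ioc M (2 * M), ∑ k ∈ Icc 1 (K / l), ((ArithmeticFunction.vonMangoldt l : ℝ) : ℂ) *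
    (MT.cU U k : ℂ) * hb_F η K β χ (l * k)

theorem hb_ee (x : ℝ) : ‖ee x‖ = 1 := by
  unfold ee
  exact Complex.norm_exp_ofReal_mul_I _

theorem hb_F_le {η : ℝ → ℝ} (hη : IsWt η) (K : ℕ) (β : ℝ) {r : ℕ} (χ : DirichletCharacter ℂ r)
    (n : ℕ) : ‖hb_F η K β χ n‖ ≤ 1 := by
  unfold hb_F
  rw [norm_mul, norm_mul, hb_ee, mul_one]
  exact mul_le_one₀ (MT.lc_chi χ _) (norm_nonneg _) (MT.lc_eta hη _)

theorem hb_single {η : ℝ → ℝ} (hη : IsWt η) {K U J r : ℕ} (β : ℝ) (χ : DirichletCharacter ℂ r)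
    (hU : 1 ≤ U) (hUK : U ≤ K) (hJ : K ≤ U * 2 ^ J) {P P' : ℕ → ℝ}
    (h1 : ∀ m, 1 ≤ m → m ≤ U * U → ‖∑ k ∈ Icc 1 (K / m), hb_F η K β χ (m * k)‖ ≤ P m)
    (h2 : ∀ m, 1 ≤ m → m ≤ U →
      ‖∑ k ∈ Icc 1 (K / m), ((Real.log k : ℝ) : ℂ) * hb_F η K β χ (m * k)‖ ≤ P' m) :
    ‖Tx η K β ⟨r, χ⟩‖ ≤ (U * Real.log K + ∑ m ∈ Icc 1 U, P' m +
      ∑ m ∈ Icc 1 U, ∑ l ∈ Icc 1 U, Real.log K * P (m * l)) +
      ∑ i ∈ range J, ‖hb_B η K β U (U * 2 ^ i) χ‖ := by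
  have hL : 0 ≤ Real.log K := Real.log_natCast_nonneg K
  have hTx : Tx η K β ⟨r, χ⟩ = ∑ n ∈ Icc 1 K, ((ArithmeticFunction.vonMangoldt n : ℝ) : ℂ) *
      hb_F η K β χ n := rfl
  rw [hTx, MT.vaughan U U K]
  have t0 : ‖∑ n ∈ (Icc 1 K).filter (fun n => n ≤ U),
      ((ArithmeticFunction.vonMangoldt n : ℝ) : ℂ) * hb_F η K β χ n‖ ≤ U * Real.log K := by
    refine (norm_sum_le _ _).trans ?_
    have h1 : ∀ n ∈ (Icc 1 K).filter (fun n => n ≤ U),
        ‖((ArithmeticFunction.vonMangoldt n : ℝ) : ℂ) * hb_F η K β χ n‖ ≤ Real.log K := by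
      intro n hn
      rw [mem_filter, mem_Icc] at hn
      rw [norm_mul]
      calc _ ≤ Real.log K * 1 := mul_le_mul (MT.lc_Lam hn.1.1 hn.1.2) (hb_F_le hη K β χ n)
            (norm_nonneg _) hL
        _ = Real.log K := mul_one _
    refine (sum_le_card_nsmul _ _ _ h1).trans ?_
    rw [nsmul_eq_mul]
    refine mul_le_mul_of_nonneg_right ?_ hL
    have h2 : ((Icc 1 K).filter (fun n => n ≤ U)).card ≤ (Icc 1 U).card := by
      refine card_le_card fun n hn => ?_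
      rw [mem_filter, mem_Icc] at hn
      rw [mem_Icc]
      omega
    rw [Nat.card_Icc] at h2
    exact_mod_cast h2.trans (by omega)
  have t1 : ‖∑ m ∈ Icc 1 U, (ArithmeticFunction.moebius m : ℂ) *
      ∑ k ∈ Icc 1 (K / m), ((Real.log k : ℝ) : ℂ) * hb_F η K β χ (m * k)‖ ≤
      ∑ m ∈ Icc 1 U, P' m := by
    refine (norm_sum_le _ _).trans (sum_le_sum fun m hm => ?_)
    rw [mem_Icc] at hm
    rw [norm_mul]
    calc _ ≤ 1 * P' m := mul_le_mul (MT.lc_mu m) (h2 m hm.1 hm.2) (norm_nonneg _) (by norm_num)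
      _ = P' m := one_mul _
  have t2 : ‖∑ m ∈ Icc 1 U, ∑ l ∈ Icc 1 U, (ArithmeticFunction.moebius m : ℂ) *
      ((ArithmeticFunction.vonMangoldt l : ℝ) : ℂ) *
      ∑ k ∈ Icc 1 (K / (m * l)), hb_F η K β χ (m * l * k)‖ ≤
      ∑ m ∈ Icc 1 U, ∑ l ∈ Icc 1 U, Real.log K * P (m * l) := by
    refine (norm_sum_le _ _).trans (sum_le_sum fun m hm => ?_)
    rw [mem_Icc] at hm
    refine (norm_sum_le _ _).trans (sum_le_sum fun l hl => ?_)
    rw [mem_Icc] at hl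
    rw [norm_mul, norm_mul]
    have h3 := h1 (m * l) (Nat.mul_pos hm.1 hl.1) (Nat.mul_le_mul hm.2 hl.2)
    refine mul_le_mul ?_ h3 (norm_nonneg _) hL
    calc _ ≤ 1 * Real.log K := mul_le_mul (MT.lc_mu m) (MT.lc_Lam hl.1 (hl.2.trans hUK))
          (norm_nonneg _) (by norm_num)
      _ = Real.log K := one_mul _
  have t3 : ‖∑ l ∈ Ioc U K, ∑ k ∈ Icc 1 (K / l), ((ArithmeticFunction.vonMangoldt l : ℝ) : ℂ) *
      (MT.cU U k : ℂ) * hb_F η K β χ (l * k)‖ ≤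
      ∑ i ∈ range J, ‖hb_B η K β U (U * 2 ^ i) χ‖ := by
    have hsub : Ioc U K ⊆ Ioc U (U * 2 ^ J) := Ioc_subset_Ioc_right hJ
    rw [sum_subset hsub, MT.lc_dyadic]
    · exact norm_sum_le _ _
    · intro l hl hl'
      rw [mem_Ioc] at hl hl'
      have h0 : K / l = 0 := Nat.div_eq_of_lt (by omega)
      rw [h0]
      simp
  calc _ ≤ ‖∑ n ∈ (Icc 1 K).filter (fun n => n ≤ U),
      ((ArithmeticFunction.vonMangoldt n : ℝ) : ℂ) * hb_F η K β χ n‖ +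
      ‖∑ m ∈ Icc 1 U, (ArithmeticFunction.moebius m : ℂ) *
        ∑ k ∈ Icc 1 (K / m), ((Real.log k : ℝ) : ℂ) * hb_F η K β χ (m * k)‖ +
      ‖∑ m ∈ Icc 1 U, ∑ l ∈ Icc 1 U, (ArithmeticFunction.moebius m : ℂ) *
        ((ArithmeticFunction.vonMangoldt l : ℝ) : ℂ) *
        ∑ k ∈ Icc 1 (K / (m * l)), hb_F η K β χ (m * l * k)‖ +
      ‖∑ l ∈ Ioc U K, ∑ k ∈ Icc 1 (K / l), ((ArithmeticFunction.vonMangoldt l : ℝ) : ℂ) *
        (MT.cU U k : ℂ) * hb_F η K β χ (l * k)‖ := by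
        refine (norm_add_le _ _).trans (add_le_add_left ?_ _)
        refine (norm_sub_le _ _).trans (add_le_add_left ?_ _)
        exact norm_add_le _ _
    _ ≤ _ := by
        refine add_le_add (add_le_add (add_le_add t0 t1) t2) t3

theorem hb_block {η : ℝ → ℝ} {C : ℝ} (hC : 0 < C)
    (hH : ∀ (N R M : ℕ) (β : ℝ), 1 ≤ N → 1 ≤ R →
      1 ≤ M → β ≠ 0 → |β| * M ≤ 1 / (2 * (R : ℝ) ^ 2) → ∀ (a b : ℕ → ℂ),
      ∑ q ∈ Icc 1 R, ∑ χ ∈ prm q,
        ‖∑ l ∈ Ioc M (2 * M), ∑ k ∈ Icc 1 (N / l), a l * b k *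
          (χ ((l * k : ℕ) : ZMod q) * (((η (((l * k : ℕ) : ℝ) / N) : ℝ) : ℂ) *
            ee (β * (l * k : ℕ))))‖ ^ 2 ≤
        C * ((N : ℝ) / M + 1 / |β|) * (∑ l ∈ Ioc M (2 * M), ‖a l‖ ^ 2) *
          ∑ k ∈ Icc 1 (N / M), ‖b k‖ ^ 2)
    {K U M R : ℕ} {β : ℝ} (hK : 3 ≤ K) (hR : 1 ≤ R) (hU : 1 ≤ U) (hUM : U ≤ M)
    (hL : 1 ≤ Real.log K) (hβ : β ≠ 0) (hc1 : |β| * ((K : ℝ) / U) ≤ 1 / (2 * (R : ℝ) ^ 2))
    (hc2 : (K : ℝ) / U ≤ 1 / |β|) :
    ∑ q ∈ Icc 1 R, ∑ χ ∈ prm q, ‖hb_B η K β U M χ‖ ^ 2 ≤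
      64 * C * Real.log K ^ 5 * (K / |β|) := by
  have hM : 1 ≤ M := hU.trans hUM
  have hMR : (0 : ℝ) < M := by exact_mod_cast hM
  have hNR : (0 : ℝ) < K := by exact_mod_cast (by omega : 0 < K)
  have hUR : (0 : ℝ) < U := by exact_mod_cast (by omega : 0 < U)
  have hβ0 : 0 < |β| := abs_pos.2 hβ
  set L := Real.log K with hLdef
  rcases Nat.lt_or_ge U (K / M) with hlt | hge
  · have hNM : 1 ≤ K / M := by omega
    have hMN : M ≤ K := by
      by_contra h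
      have : K / M = 0 := Nat.div_eq_of_lt (by omega)
      omega
    have hdiv : ((K / M : ℕ) : ℝ) ≤ (K : ℝ) / M := Nat.cast_div_le
    have hUN' : (U : ℝ) ≤ (K : ℝ) / M := by
      have : (U : ℝ) ≤ ((K / M : ℕ) : ℝ) := by exact_mod_cast hlt.le
      linarith
    have hMU : (M : ℝ) ≤ (K : ℝ) / U := by
      rw [le_div_iff₀ hUR]
      rw [le_div_iff₀ hMR] at hUN'
      linarith
    have hKM : (K : ℝ) / M ≤ (K : ℝ) / U :=
      div_le_div_of_nonneg_left hNR.le hUR (by exact_mod_cast hUM)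
    have h1 := hH K R M β (by omega) hR hM hβ
      ((mul_le_mul_of_nonneg_left hMU hβ0.le).trans hc1)
      (fun l => ((ArithmeticFunction.vonMangoldt l : ℝ) : ℂ)) (fun k => (MT.cU U k : ℂ))
    refine le_trans (le_of_eq ?_) (h1.trans ?_)
    · rfl
    have ha : ∑ l ∈ Ioc M (2 * M), ‖((ArithmeticFunction.vonMangoldt l : ℝ) : ℂ)‖ ^ 2 ≤
        M * (2 * L) ^ 2 := by
      have h2 : ∀ l ∈ Ioc M (2 * M), ‖((ArithmeticFunction.vonMangoldt l : ℝ) : ℂ)‖ ^ 2 ≤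
          (2 * L) ^ 2 := by
        intro l hl
        rw [mem_Ioc] at hl
        refine pow_le_pow_left₀ (norm_nonneg _) ?_ 2
        have h3 := MT.lc_Lam (n := l) (N := K ^ 2) (by omega) (by nlinarith)
        rwa [Nat.cast_pow, Real.log_pow, Nat.cast_ofNat] at h3
      refine (sum_le_card_nsmul _ _ _ h2).trans ?_
      rw [nsmul_eq_mul, Nat.card_Ioc]
      have : 2 * M - M = M := by omega
      rw [this]
    have hb : ∑ k ∈ Icc 1 (K / M), ‖(MT.cU U k : ℂ)‖ ^ 2 ≤ (K : ℝ) / M * (2 * L) ^ 3 := by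
      have h2 : ∑ k ∈ Icc 1 (K / M), ‖(MT.cU U k : ℂ)‖ ^ 2 ≤
          ∑ k ∈ Icc 1 (K / M), (k.divisors.card : ℝ) ^ 2 := by
        refine sum_le_sum fun k _ => ?_
        refine pow_le_pow_left₀ (norm_nonneg _) ?_ 2
        rw [Complex.norm_intCast]
        have := MT.cU_abs_le U k
        exact_mod_cast this
      refine h2.trans ((MT.sum_divisors_sq (K / M) hNM).trans ?_)
      have h3 : Real.log ((K / M : ℕ) : ℝ) ≤ L :=
        Real.log_le_log (by exact_mod_cast hNM) (by exact_mod_cast Nat.div_le_self K M)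
      have h4 : 0 ≤ Real.log ((K / M : ℕ) : ℝ) := Real.log_natCast_nonneg _
      have h5 : (1 + Real.log ((K / M : ℕ) : ℝ)) ^ 3 ≤ (2 * L) ^ 3 :=
        pow_le_pow_left₀ (by linarith) (by linarith) 3
      exact mul_le_mul hdiv h5 (by positivity) (by positivity)
    have hsum : (K : ℝ) / M + 1 / |β| ≤ 2 * (1 / |β|) := by linarith
    have hL0 : 0 ≤ L := by linarith
    calc _ ≤ C * (2 * (1 / |β|)) * (M * (2 * L) ^ 2) * ((K : ℝ) / M * (2 * L) ^ 3) := by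
          refine mul_le_mul (mul_le_mul (mul_le_mul_of_nonneg_left hsum hC.le) ha
            (sum_nonneg fun _ _ => by positivity) (by positivity)) hb
            (sum_nonneg fun _ _ => by positivity) (by positivity)
      _ = 64 * C * L ^ 5 * (K / |β|) := by
          field_simp
          ring
  · have hz : ∀ (q : ℕ) (χ : DirichletCharacter ℂ q), hb_B η K β U M χ = 0 := by
      intro q χ
      unfold hb_B
      refine sum_eq_zero fun l hl => sum_eq_zero fun k hk => ?_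
      rw [mem_Ioc] at hl
      rw [mem_Icc] at hk
      have h1 : K / l ≤ K / M := Nat.div_le_div_left hl.1.le (by omega)
      rw [MT.cU_eq_zero U k (by omega)]
      simp
    have hL0 : 0 ≤ L := by linarith
    refine le_trans (le_of_eq ?_) (by positivity : (0 : ℝ) ≤ 64 * C * L ^ 5 * (K / |β|))
    refine sum_eq_zero fun q _ => sum_eq_zero fun χ _ => ?_
    rw [hz, norm_zero]
    norm_num

theorem hb_harm {U K : ℕ} (hU : 1 ≤ U) (hUK : U ≤ K) (hL : 1 ≤ Real.log K) :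
    ∑ m ∈ Icc 1 U, 1 / (m : ℝ) ≤ 2 * Real.log K := by
  have h1 : ∑ m ∈ Icc 1 U, 1 / (m : ℝ) = ((harmonic U : ℚ) : ℝ) := by
    rw [harmonic_eq_sum_Icc]
    push_cast
    exact sum_congr rfl fun m _ => one_div _
  rw [h1]
  have h2 := harmonic_le_one_add_log U
  have h3 : Real.log U ≤ Real.log K :=
    Real.log_le_log (by exact_mod_cast hU) (by exact_mod_cast hUK)
  linarith

theorem hb_aux1 {H L : ℝ} (h0 : 0 ≤ H) (hL : 1 ≤ L) (h : H ≤ 2 * L) : H + H * H ≤ 6 * L ^ 2 := by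
  have h1 : H * H ≤ (2 * L) * (2 * L) := mul_le_mul h h h0 (by linarith)
  have h2 : L ≤ L ^ 2 := by nlinarith
  nlinarith

theorem hb_aux2 (A B : ℝ) : (A + B) ^ 2 ≤ 2 * A ^ 2 + 2 * B ^ 2 := by
  nlinarith [sq_nonneg (A - B)]

/-- the mean square over all characters -/
theorem hb_sum {η : ℝ → ℝ} (hη : IsWt η) {C1 C0 C2 : ℝ} (hC1 : 0 < C1) (hC0 : 0 < C0)
    (hC2 : 0 < C2)
    (hI : ∀ (N : ℕ) (β : ℝ), 2 ≤ N →
      ∀ (q : ℕ) [NeZero q] (χ : DirichletCharacter ℂ q), χ ≠ 1 → ∀ m : ℕ, 1 ≤ m →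
      ‖∑ k ∈ Icc 1 (N / m), χ ((m * k : ℕ) : ZMod q) * (((η (((m * k : ℕ) : ℝ) / N) : ℝ) : ℂ) *
          ee (β * (m * k : ℕ)))‖ ≤ C1 * q * (1 + |β| * N) ∧
      ‖∑ k ∈ Icc 1 (N / m), ((Real.log k : ℝ) : ℂ) * (χ ((m * k : ℕ) : ZMod q) *
          (((η (((m * k : ℕ) : ℝ) / N) : ℝ) : ℂ) * ee (β * (m * k : ℕ))))‖ ≤
        C1 * q * (1 + |β| * N) * Real.log N)
    (h0 : ∀ (N m : ℕ) (β : ℝ), 2 ≤ N → 1 ≤ m →
      β ≠ 0 → |β| * m ≤ 1 / 2 →
      ‖∑ k ∈ Icc 1 (N / m), ((η (((m * k : ℕ) : ℝ) / N) : ℝ) : ℂ) * ee (β * (m * k : ℕ))‖ ≤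
        C0 / (|β| * m) ∧
      ‖∑ k ∈ Icc 1 (N / m), ((Real.log k : ℝ) : ℂ) * (((η (((m * k : ℕ) : ℝ) / N) : ℝ) : ℂ) *
          ee (β * (m * k : ℕ)))‖ ≤ C0 * Real.log N / (|β| * m))
    (hH : ∀ (N R M : ℕ) (β : ℝ), 1 ≤ N → 1 ≤ R →
      1 ≤ M → β ≠ 0 → |β| * M ≤ 1 / (2 * (R : ℝ) ^ 2) → ∀ (a b : ℕ → ℂ),
      ∑ q ∈ Icc 1 R, ∑ χ ∈ prm q,
        ‖∑ l ∈ Ioc M (2 * M), ∑ k ∈ Icc 1 (N / l), a l * b k *
          (χ ((l * k : ℕ) : ZMod q) * (((η (((l * k : ℕ) : ℝ) / N) : ℝ) : ℂ) *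
            ee (β * (l * k : ℕ))))‖ ^ 2 ≤
        C2 * ((N : ℝ) / M + 1 / |β|) * (∑ l ∈ Ioc M (2 * M), ‖a l‖ ^ 2) *
          ∑ k ∈ Icc 1 (N / M), ‖b k‖ ^ 2)
    {K U R : ℕ} {β : ℝ} (hK : 3 ≤ K) (hR : 1 ≤ R) (hU : 1 ≤ U) (hUK : U ≤ K)
    (hL : 1 ≤ Real.log K) (hβ : β ≠ 0) (_hβ1 : |β| ≤ 1) (hβK : 1 / |β| ≤ K)
    (hc0 : |β| * ((U : ℝ) * U) ≤ 1 / 2)
    (hc1 : |β| * ((K : ℝ) / U) ≤ 1 / (2 * (R : ℝ) ^ 2))
    (hc2 : (K : ℝ) / U ≤ 1 / |β|) (hc3 : (U : ℝ) ≤ 1 / |β|)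
    (hc4 : (R : ℝ) ^ 2 * ((U : ℝ) * U * (1 + R * (1 + |β| * K))) ^ 2 ≤ K / |β|) :
    ∑ r ∈ Icc 1 R, ∑ χ ∈ prm r, ‖Tx η K β ⟨r, χ⟩‖ ^ 2 ≤
      (2 * (1 + 2 * C1) ^ 2 + 2 * (1 + 6 * C0) ^ 2 + 1152 * C2) * Real.log K ^ 7 * (K / |β|) := by
  obtain ⟨J, hJ, hJL⟩ := MT.lc_J K hK hL
  have hJ' : K ≤ U * 2 ^ J := hJ.trans (Nat.le_mul_of_pos_left _ hU)
  have hβ0 : 0 < |β| := abs_pos.2 hβ
  have hKR : (0 : ℝ) < K := by exact_mod_cast (by omega : 0 < K)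
  have hU1 : (1 : ℝ) ≤ U := by exact_mod_cast hU
  have hR1 : (1 : ℝ) ≤ R := by exact_mod_cast hR
  set L := Real.log K with hLdef
  have hL0 : 0 ≤ L := by linarith
  set Z : ℝ := K / |β| with hZ
  have hZ0 : 0 < Z := by positivity
  -- the two bounds
  set a : ℝ := (1 + 2 * C1) * L * ((U : ℝ) * U * (1 + R * (1 + |β| * K))) with ha
  set b : ℝ := (1 + 6 * C0) * L ^ 3 * (1 / |β|) with hb
  have ha0 : 0 ≤ a := by positivity
  have hb0 : 0 ≤ b := by positivity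
  have hone : ∀ r ∈ Icc 1 R, ∀ χ ∈ prm r, ‖Tx η K β ⟨r, χ⟩‖ ^ 2 ≤
      2 * (a ^ 2 + if r = 1 then b ^ 2 else 0) +
        2 * (J * ∑ i ∈ range J, ‖hb_B η K β U (U * 2 ^ i) χ‖ ^ 2) := by
    intro r hr χ hχ
    rw [mem_Icc] at hr
    have hr1 : (1 : ℝ) ≤ r := by exact_mod_cast hr.1
    have hrR : (r : ℝ) ≤ R := by exact_mod_cast hr.2
    have hnz : NeZero r := ⟨by omega⟩
    have hB2 : (∑ i ∈ range J, ‖hb_B η K β U (U * 2 ^ i) χ‖) ^ 2 ≤
        J * ∑ i ∈ range J, ‖hb_B η K β U (U * 2 ^ i) χ‖ ^ 2 := by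
      have := sq_sum_le_card_mul_sum_sq (s := range J)
        (f := fun i => ‖hb_B η K β U (U * 2 ^ i) χ‖)
      rwa [card_range] at this
    have hB0 : 0 ≤ ∑ i ∈ range J, ‖hb_B η K β U (U * 2 ^ i) χ‖ :=
      sum_nonneg fun _ _ => norm_nonneg _
    -- a bound for the other terms
    have hA : ∃ A : ℝ, 0 ≤ A ∧ A ^ 2 ≤ a ^ 2 + (if r = 1 then b ^ 2 else 0) ∧
        ‖Tx η K β ⟨r, χ⟩‖ ≤ A + ∑ i ∈ range J, ‖hb_B η K β U (U * 2 ^ i) χ‖ := by
      by_cases h : r = 1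
      · subst h
        have hχn : ∀ n : ℕ, χ (n : ZMod 1) = 1 := by
          intro n
          have : ((n : ℕ) : ZMod 1) = 1 := Subsingleton.elim _ _
          rw [this, map_one]
        have hF : ∀ n : ℕ, hb_F η K β χ n = ((η ((n : ℝ) / K) : ℝ) : ℂ) * ee (β * n) := by
          intro n
          unfold hb_F
          rw [hχn, one_mul]
        have hm : ∀ m : ℕ, m ≤ U * U → |β| * (m : ℝ) ≤ 1 / 2 := by
          intro m hm
          refine (mul_le_mul_of_nonneg_left ?_ hβ0.le).trans hc0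
          exact_mod_cast hm
        refine ⟨b, hb0, ?_, ?_⟩
        · rw [if_pos rfl]
          linarith [sq_nonneg a]
        have h3 := hb_single hη β χ hU hUK hJ'
          (P := fun m => C0 / (|β| * m)) (P' := fun m => C0 * L / (|β| * m))
          (fun m h1 h2 => by
            have := (h0 K m β (by omega) h1 hβ (hm m h2)).1
            refine le_trans (le_of_eq ?_) this
            congr 1
            exact sum_congr rfl fun k _ => hF _)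
          (fun m h1 h2 => by
            have := (h0 K m β (by omega) h1 hβ (hm m (h2.trans (Nat.le_mul_of_pos_left _ hU)))).2
            refine le_trans (le_of_eq ?_) this
            congr 1
            exact sum_congr rfl fun k _ => by rw [hF])
        refine h3.trans (add_le_add_left ?_ _)
        have hh := hb_harm hU hUK hL
        set H := ∑ m ∈ Icc 1 U, 1 / (m : ℝ) with hHdef
        have hH0 : 0 ≤ H := sum_nonneg fun _ _ => by positivity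
        have e1 : ∑ m ∈ Icc 1 U, C0 * L / (|β| * (m : ℝ)) = C0 * L / |β| * H := by
          rw [hHdef, mul_sum]
          refine sum_congr rfl fun m _ => ?_
          rw [div_mul_div_comm, mul_one]
        have e2 : ∑ m ∈ Icc 1 U, ∑ l ∈ Icc 1 U, L * (C0 / (|β| * ((m * l : ℕ) : ℝ))) =
            C0 * L / |β| * (H * H) := by
          rw [hHdef, sum_mul_sum, mul_sum]
          refine sum_congr rfl fun m hm => ?_
          rw [mul_sum]
          refine sum_congr rfl fun l hl => ?_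
          rw [mem_Icc] at hm hl
          have hm0 : (m : ℝ) ≠ 0 := by exact_mod_cast (by omega : m ≠ 0)
          have hl0 : (l : ℝ) ≠ 0 := by exact_mod_cast (by omega : l ≠ 0)
          push_cast
          field_simp
        rw [e1, e2]
        have hCL : 0 ≤ C0 * L / |β| := by positivity
        have hLL3 : L ≤ L ^ 3 := by
          calc L = L ^ 1 := (pow_one L).symm
            _ ≤ L ^ 3 := pow_le_pow_right₀ hL (by norm_num)
        have e3 : C0 * L / |β| * H + C0 * L / |β| * (H * H) ≤ 6 * C0 * L ^ 3 * (1 / |β|) := by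
          have h4 : H + H * H ≤ 6 * L ^ 2 := hb_aux1 hH0 hL hh
          calc C0 * L / |β| * H + C0 * L / |β| * (H * H) = C0 * L / |β| * (H + H * H) := by ring
            _ ≤ C0 * L / |β| * (6 * L ^ 2) := mul_le_mul_of_nonneg_left h4 hCL
            _ = 6 * C0 * L ^ 3 * (1 / |β|) := by ring
        have e4 : (U : ℝ) * L ≤ L ^ 3 * (1 / |β|) := by
          rw [mul_comm]
          exact mul_le_mul hLL3 hc3 (by positivity) (by positivity)
        rw [hb]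
        linarith
      · have hχ1 : χ ≠ 1 := by
          rintro rfl
          have h1 := (MVX.mem_prm _).1 hχ
          rw [DirichletCharacter.isPrimitive_def, DirichletCharacter.conductor_one] at h1
          exact h h1.symm
        refine ⟨a, ha0, ?_, ?_⟩
        · rw [if_neg h, add_zero]
        set D : ℝ := C1 * R * (1 + |β| * K) with hD
        have hD0 : 0 ≤ D := by positivity
        have hD1 : C1 * r * (1 + |β| * K) ≤ D := by
          rw [hD]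
          gcongr
        have h3 := hb_single hη β χ hU hUK hJ'
          (P := fun _ => D) (P' := fun _ => D * L)
          (fun m h1 _ => ((hI K β (by omega) r χ hχ1 m h1).1).trans hD1)
          (fun m h1 _ => ((hI K β (by omega) r χ hχ1 m h1).2).trans
            (mul_le_mul_of_nonneg_right hD1 hL0))
        refine h3.trans (add_le_add_left ?_ _)
        simp only [sum_const, Nat.card_Icc, Nat.add_sub_cancel, nsmul_eq_mul]
        have hUU : (U : ℝ) ≤ U * U := le_mul_of_one_le_left (by linarith) hU1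
        have e1 : (U : ℝ) * L ≤ (U * U) * L := mul_le_mul_of_nonneg_right hUU hL0
        have e2 : (U : ℝ) * (D * L) ≤ (U * U) * (D * L) :=
          mul_le_mul_of_nonneg_right hUU (by positivity)
        have e3 : a = (1 + 2 * C1) * L * ((U : ℝ) * U) +
            L * ((U : ℝ) * U) * (R * (1 + |β| * K)) + 2 * ((U : ℝ) * U * (D * L)) := by
          rw [ha, hD]
          ring
        have e4 : 0 ≤ L * ((U : ℝ) * U) * (R * (1 + |β| * K)) := by positivity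
        have e5 : 0 ≤ 2 * C1 * L * ((U : ℝ) * U) := by positivity
        have e6 : (U : ℝ) * (U * (L * D)) = (U : ℝ) * U * (D * L) := by ring
        rw [e3, e6]
        linarith
    obtain ⟨A, hA0, hA1, hA2⟩ := hA
    have h5 : ‖Tx η K β ⟨r, χ⟩‖ ^ 2 ≤
        (A + ∑ i ∈ range J, ‖hb_B η K β U (U * 2 ^ i) χ‖) ^ 2 :=
      pow_le_pow_left₀ (norm_nonneg _) hA2 2
    have h6 : (A + ∑ i ∈ range J, ‖hb_B η K β U (U * 2 ^ i) χ‖) ^ 2 ≤
        2 * A ^ 2 + 2 * (∑ i ∈ range J, ‖hb_B η K β U (U * 2 ^ i) χ‖) ^ 2 := hb_aux2 _ _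
    linarith
  have hcard : ∀ r ∈ Icc 1 R, ((prm r).card : ℝ) ≤ R := by
    intro r hr
    rw [mem_Icc] at hr
    exact_mod_cast (MVII.bl_five r hr.1).trans hr.2
  have step1 : ∑ r ∈ Icc 1 R, ∑ χ ∈ prm r, ‖Tx η K β ⟨r, χ⟩‖ ^ 2 ≤
      ∑ r ∈ Icc 1 R, ∑ χ ∈ prm r, (2 * (a ^ 2 + if r = 1 then b ^ 2 else 0) +
        2 * (J * ∑ i ∈ range J, ‖hb_B η K β U (U * 2 ^ i) χ‖ ^ 2)) :=
    sum_le_sum fun r hr => sum_le_sum fun χ hχ => hone r hr χ hχ
  have step2 : ∑ r ∈ Icc 1 R, ∑ χ ∈ prm r, (2 * (a ^ 2 + if r = 1 then b ^ 2 else 0) +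
        2 * (J * ∑ i ∈ range J, ‖hb_B η K β U (U * 2 ^ i) χ‖ ^ 2)) =
      ∑ r ∈ Icc 1 R, ((prm r).card : ℝ) * (2 * (a ^ 2 + if r = 1 then b ^ 2 else 0)) +
        2 * J * ∑ i ∈ range J, ∑ r ∈ Icc 1 R, ∑ χ ∈ prm r,
          ‖hb_B η K β U (U * 2 ^ i) χ‖ ^ 2 := by
    rw [sum_comm (s := range J), mul_sum, ← sum_add_distrib]
    refine sum_congr rfl fun r _ => ?_
    rw [sum_add_distrib, sum_const, nsmul_eq_mul, sum_comm, mul_sum]
    congr 1
    refine sum_congr rfl fun χ _ => ?_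
    ring
  have step3 : ∑ r ∈ Icc 1 R, ((prm r).card : ℝ) * (2 * (a ^ 2 + if r = 1 then b ^ 2 else 0)) ≤
      2 * ((R : ℝ) ^ 2 * a ^ 2) + 2 * b ^ 2 := by
    have h1 : ∀ r ∈ Icc 1 R, ((prm r).card : ℝ) * (2 * (a ^ 2 + if r = 1 then b ^ 2 else 0)) ≤
        2 * (R * a ^ 2) + if r = 1 then 2 * b ^ 2 else 0 := by
      intro r hr
      have h2 := hcard r hr
      have h3 : (R : ℝ) * a ^ 2 ≥ (prm r).card * a ^ 2 :=
        mul_le_mul_of_nonneg_right h2 (sq_nonneg _)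
      by_cases h : r = 1
      · have h4 : ((prm r).card : ℝ) ≤ 1 := by
          rw [h]
          exact_mod_cast MVII.bl_five 1 le_rfl
        rw [if_pos h, if_pos h]
        have h5 : ((prm r).card : ℝ) * b ^ 2 ≤ 1 * b ^ 2 :=
          mul_le_mul_of_nonneg_right h4 (sq_nonneg _)
        linarith
      · rw [if_neg h, if_neg h]
        linarith
    refine (sum_le_sum h1).trans (le_of_eq ?_)
    rw [sum_add_distrib, sum_const, Nat.card_Icc, Nat.add_sub_cancel, nsmul_eq_mul,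
      sum_ite_eq' (Icc 1 R) 1 (fun _ => 2 * b ^ 2), if_pos (mem_Icc.2 ⟨le_rfl, hR⟩)]
    ring
  have step4 : ∑ i ∈ range J, ∑ r ∈ Icc 1 R, ∑ χ ∈ prm r, ‖hb_B η K β U (U * 2 ^ i) χ‖ ^ 2 ≤
      J * (64 * C2 * L ^ 5 * Z) := by
    have h1 : ∀ i ∈ range J, ∑ r ∈ Icc 1 R, ∑ χ ∈ prm r, ‖hb_B η K β U (U * 2 ^ i) χ‖ ^ 2 ≤
        64 * C2 * L ^ 5 * Z := fun i _ =>
      hb_block hC2 hH hK hR hU (Nat.le_mul_of_pos_right _ (by positivity)) hL hβ hc1 hc2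
    refine (sum_le_card_nsmul _ _ _ h1).trans ?_
    rw [nsmul_eq_mul, card_range]
  have hJ0 : (0 : ℝ) ≤ J := Nat.cast_nonneg J
  have step5 : 2 * (J : ℝ) * (J * (64 * C2 * L ^ 5 * Z)) ≤ 1152 * C2 * L ^ 7 * Z := by
    have h1 : (J : ℝ) * J ≤ 9 * L ^ 2 := by
      calc (J : ℝ) * J ≤ (3 * L) * (3 * L) := mul_le_mul hJL hJL hJ0 (by linarith)
        _ = 9 * L ^ 2 := by ring
    calc 2 * (J : ℝ) * (J * (64 * C2 * L ^ 5 * Z)) = (J * J) * (128 * C2 * L ^ 5 * Z) := by ring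
      _ ≤ (9 * L ^ 2) * (128 * C2 * L ^ 5 * Z) := mul_le_mul_of_nonneg_right h1 (by positivity)
      _ = 1152 * C2 * L ^ 7 * Z := by ring
  have step6 : (R : ℝ) ^ 2 * a ^ 2 ≤ (1 + 2 * C1) ^ 2 * L ^ 7 * Z := by
    have h1 : (R : ℝ) ^ 2 * a ^ 2 = ((1 + 2 * C1) ^ 2 * L ^ 2) *
        ((R : ℝ) ^ 2 * ((U : ℝ) * U * (1 + R * (1 + |β| * K))) ^ 2) := by
      rw [ha]
      ring
    rw [h1]
    have h2 : L ^ 2 ≤ L ^ 7 := pow_le_pow_right₀ hL (by norm_num)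
    exact mul_le_mul (mul_le_mul_of_nonneg_left h2 (by positivity)) hc4 (by positivity)
      (by positivity)
  have step7 : b ^ 2 ≤ (1 + 6 * C0) ^ 2 * L ^ 7 * Z := by
    have h1 : b ^ 2 = (1 + 6 * C0) ^ 2 * L ^ 6 * (1 / |β| * (1 / |β|)) := by
      rw [hb]
      ring
    rw [h1]
    have h2 : L ^ 6 ≤ L ^ 7 := pow_le_pow_right₀ hL (by norm_num)
    have h3 : 1 / |β| * (1 / |β|) ≤ Z := by
      have h4 : 1 / |β| * (1 / |β|) ≤ K * (1 / |β|) :=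
        mul_le_mul_of_nonneg_right hβK (by positivity)
      rw [hZ]
      refine h4.trans (le_of_eq ?_)
      ring
    exact mul_le_mul (mul_le_mul_of_nonneg_left h2 (by positivity)) h3 (by positivity)
      (by positivity)
  have step8 : 2 * (J : ℝ) * ∑ i ∈ range J, ∑ r ∈ Icc 1 R, ∑ χ ∈ prm r,
      ‖hb_B η K β U (U * 2 ^ i) χ‖ ^ 2 ≤ 1152 * C2 * L ^ 7 * Z :=
    (mul_le_mul_of_nonneg_left step4 (by positivity)).trans step5
  calc _ ≤ 2 * ((R : ℝ) ^ 2 * a ^ 2) + 2 * b ^ 2 + 1152 * C2 * L ^ 7 * Z := by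
        refine step1.trans ?_
        rw [step2]
        exact add_le_add step3 step8
    _ ≤ 2 * ((1 + 2 * C1) ^ 2 * L ^ 7 * Z) + 2 * ((1 + 6 * C0) ^ 2 * L ^ 7 * Z) +
        1152 * C2 * L ^ 7 * Z := by linarith
    _ = _ := by ring


/-- the numerical conditions -/
theorem hb_num {t x U R b : ℝ} (ht : 2 ≤ t) (hx : x = t ^ 100) (hU1 : 1 ≤ U) (hU2 : U ≤ t ^ 20)
    (hU3 : t ^ 20 / 2 ≤ U) (hR1 : 1 ≤ R) (hR2 : R ≤ t ^ 2) (hb0 : 0 < b) (hb1 : b * t ^ 99 ≤ 1) :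
    b ≤ 1 ∧ b * (U * U) ≤ 1 / 2 ∧ b * (x / U) ≤ 1 / (2 * R ^ 2) ∧ x / U ≤ 1 / b ∧ U ≤ 1 / b ∧
    R ^ 2 * (U * U * (1 + R * (1 + b * x))) ^ 2 ≤ x / b := by
  have ht0 : 0 < t := by linarith
  have ht1 : 1 ≤ t := by linarith
  have p : ∀ n : ℕ, 0 < t ^ n := fun n => pow_pos ht0 n
  have q : ∀ n : ℕ, 1 ≤ n → 2 ≤ t ^ n := fun n hn => by
    calc (2 : ℝ) ≤ t := ht
      _ = t ^ 1 := (pow_one t).symm
      _ ≤ t ^ n := pow_le_pow_right₀ ht1 hn
  have hU0 : 0 < U := by linarith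
  have hR0 : 0 < R := by linarith
  have hUU : U * U ≤ t ^ 40 := by
    calc U * U ≤ t ^ 20 * t ^ 20 := mul_le_mul hU2 hU2 hU0.le (p 20).le
      _ = t ^ 40 := by ring
  have hRR : R ^ 2 ≤ t ^ 4 := by
    calc R ^ 2 ≤ (t ^ 2) ^ 2 := pow_le_pow_left₀ hR0.le hR2 2
      _ = t ^ 4 := by ring
  have hxU : x / U ≤ 2 * t ^ 80 := by
    rw [div_le_iff₀ hU0, hx]
    calc t ^ 100 = 2 * t ^ 80 * (t ^ 20 / 2) := by ring
      _ ≤ 2 * t ^ 80 * U := mul_le_mul_of_nonneg_left hU3 (by positivity)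
  have hbt : ∀ n : ℕ, n ≤ 99 → b * t ^ n ≤ 1 := fun n hn =>
    (mul_le_mul_of_nonneg_left (pow_le_pow_right₀ ht1 hn) hb0.le).trans hb1
  have hbi : t ^ 99 ≤ 1 / b := by
    rw [le_div_iff₀ hb0]
    linarith
  refine ⟨?_, ?_, ?_, ?_, ?_, ?_⟩
  · have := hbt 0 (by norm_num)
    linarith
  · have h1 : b * t ^ 41 ≤ 1 := hbt 41 (by norm_num)
    have h2 : b * (2 * t ^ 40) ≤ b * t ^ 41 := by
      refine mul_le_mul_of_nonneg_left ?_ hb0.le
      calc 2 * t ^ 40 ≤ t * t ^ 40 := mul_le_mul_of_nonneg_right ht (p 40).le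
        _ = t ^ 41 := by ring
    have h3 : b * (U * U) ≤ b * t ^ 40 := mul_le_mul_of_nonneg_left hUU hb0.le
    linarith
  · rw [le_div_iff₀ (by positivity)]
    have h1 : b * (x / U) ≤ b * (2 * t ^ 80) := mul_le_mul_of_nonneg_left hxU hb0.le
    calc b * (x / U) * (2 * R ^ 2) ≤ b * (2 * t ^ 80) * (2 * t ^ 4) :=
          mul_le_mul h1 (by linarith) (by positivity) (by positivity)
      _ = b * ((2 * 2) * t ^ 84) := by ring
      _ ≤ b * ((t * t) * t ^ 84) := by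
          refine mul_le_mul_of_nonneg_left (mul_le_mul_of_nonneg_right ?_ (p 84).le) hb0.le
          exact mul_le_mul ht ht (by norm_num) ht0.le
      _ = b * t ^ 86 := by ring
      _ ≤ 1 := hbt 86 (by norm_num)
  · refine hxU.trans (le_trans ?_ hbi)
    calc 2 * t ^ 80 ≤ t * t ^ 80 := mul_le_mul_of_nonneg_right ht (p 80).le
      _ = t ^ 81 := by ring
      _ ≤ t ^ 99 := pow_le_pow_right₀ ht1 (by norm_num)
  · exact (hU2.trans (pow_le_pow_right₀ ht1 (by norm_num))).trans hbi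
  · have h1 : b * x ≤ t := by
      rw [hx]
      calc b * t ^ 100 = (b * t ^ 99) * t := by ring
        _ ≤ 1 * t := mul_le_mul_of_nonneg_right hb1 ht0.le
        _ = t := one_mul t
    have h2 : 1 + R * (1 + b * x) ≤ t ^ 5 := by
      have h3 : R * (1 + b * x) ≤ t ^ 2 * (t + t) :=
        mul_le_mul hR2 (by linarith) (by have : 0 < b * x := by rw [hx]; positivity
                                         linarith) (p 2).le
      have h4 : t ^ 2 * (t + t) = 2 * t ^ 3 := by ring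
      have h5 : 2 * t ^ 3 ≤ t ^ 4 := by
        calc 2 * t ^ 3 ≤ t * t ^ 3 := mul_le_mul_of_nonneg_right ht (p 3).le
          _ = t ^ 4 := by ring
      have h6 : 2 * t ^ 4 ≤ t ^ 5 := by
        calc 2 * t ^ 4 ≤ t * t ^ 4 := mul_le_mul_of_nonneg_right ht (p 4).le
          _ = t ^ 5 := by ring
      have h7 : 1 ≤ t ^ 4 := one_le_pow₀ ht1
      linarith
    have h3 : 0 ≤ 1 + R * (1 + b * x) := by
      rw [hx]
      positivity
    have h4 : U * U * (1 + R * (1 + b * x)) ≤ t ^ 45 := by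
      calc U * U * (1 + R * (1 + b * x)) ≤ t ^ 40 * t ^ 5 :=
            mul_le_mul hUU h2 h3 (p 40).le
        _ = t ^ 45 := by ring
    have h5 : R ^ 2 * (U * U * (1 + R * (1 + b * x))) ^ 2 ≤ t ^ 4 * (t ^ 45) ^ 2 :=
      mul_le_mul hRR (pow_le_pow_left₀ (by positivity) h4 2) (by positivity) (p 4).le
    refine h5.trans ?_
    rw [le_div_iff₀ hb0, hx]
    calc t ^ 4 * (t ^ 45) ^ 2 * b = b * t ^ 94 := by ring
      _ ≤ 1 := hbt 94 (by norm_num)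
      _ ≤ t ^ 100 := one_le_pow₀ ht1

theorem thm_Hb (h1 : St_Ti) (h2 : St_T0) (h3 : St_Ht) : St_Hb := by
  intro η hη
  obtain ⟨C1, hC1, hI⟩ := h1 η hη
  obtain ⟨C0, hC0, h0⟩ := h2 η hη
  obtain ⟨C2, hC2, hH⟩ := h3 η hη
  obtain ⟨C, hC⟩ := exists_nat_ge (2 * (1 + 2 * C1) ^ 2 + 2 * (1 + 6 * C0) ^ 2 + 1152 * C2)
  refine ⟨C + 7, ?_⟩
  have ht : Tendsto (fun K : ℕ => (K : ℝ) ^ (1 / 100 : ℝ)) atTop atTop :=
    (tendsto_rpow_atTop (by norm_num)).comp tendsto_natCast_atTop_atTop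
  filter_upwards [ht.eventually_ge_atTop 2, eventually_ge_atTop 3] with K ht2 hK3
  intro R β hR hβ1 hβ2
  have hKR : (0 : ℝ) < K := by exact_mod_cast (by omega : 0 < K)
  have hL : 1 ≤ Real.log K := by
    rw [Real.le_log_iff_exp_le hKR]
    have h1 := Real.exp_one_lt_d9
    have h2 : (3 : ℝ) ≤ K := by exact_mod_cast hK3
    linarith
  have hb0 : 0 < |β| := lt_of_lt_of_le (by positivity) hβ1
  have hZ0 : 0 < (K : ℝ) / |β| := by positivity
  have hfac : (2 * (1 + 2 * C1) ^ 2 + 2 * (1 + 6 * C0) ^ 2 + 1152 * C2) * Real.log K ^ 7 *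
      (K / |β|) ≤ ((C + 7 : ℕ) : ℝ) * Real.log K ^ (C + 7) * (K / |β|) := by
    refine mul_le_mul_of_nonneg_right (mul_le_mul ?_ (pow_le_pow_right₀ hL (by omega))
      (by positivity) (by positivity)) hZ0.le
    push_cast
    linarith
  rcases Nat.eq_zero_or_pos R with hR0 | hR0
  · subst hR0
    have : ∑ r ∈ Icc 1 0, ∑ χ ∈ prm r, ‖Tx η K β ⟨r, χ⟩‖ ^ 2 = 0 := by
      rw [Icc_eq_empty (by norm_num), sum_empty]
    rw [this]
    positivity
  · set t : ℝ := (K : ℝ) ^ (1 / 100 : ℝ) with ht_def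
    have hx : (K : ℝ) = t ^ 100 := by
      rw [ht_def, ← Real.rpow_natCast, ← Real.rpow_mul hKR.le]
      norm_num
    have ht0 : 0 < t := by linarith
    have hU5 : t ^ 20 = (K : ℝ) ^ (1 / 5 : ℝ) := by
      rw [ht_def, ← Real.rpow_natCast, ← Real.rpow_mul hKR.le]
      norm_num
    have hR5 : t ^ 2 = (K : ℝ) ^ (1 / 50 : ℝ) := by
      rw [ht_def, ← Real.rpow_natCast, ← Real.rpow_mul hKR.le]
      norm_num
    have ht99 : t ^ 99 = (K : ℝ) ^ (99 / 100 : ℝ) := by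
      rw [ht_def, ← Real.rpow_natCast, ← Real.rpow_mul hKR.le]
      norm_num
    set U : ℕ := ⌊t ^ 20⌋₊ with hUdef
    have ht20 : 2 ≤ t ^ 20 := by
      calc (2 : ℝ) ≤ t := ht2
        _ = t ^ 1 := (pow_one t).symm
        _ ≤ t ^ 20 := pow_le_pow_right₀ (by linarith) (by norm_num)
    have hU2 : (U : ℝ) ≤ t ^ 20 := Nat.floor_le (by positivity)
    have hU3 : t ^ 20 < U + 1 := Nat.lt_floor_add_one _
    have hU3' : t ^ 20 / 2 ≤ U := by linarith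
    have hU1' : (1 : ℝ) ≤ U := by linarith
    have hU1 : 1 ≤ U := by exact_mod_cast hU1'
    have hUK : U ≤ K := by
      have : (U : ℝ) ≤ K := by
        rw [hx]
        exact hU2.trans (pow_le_pow_right₀ (by linarith) (by norm_num))
      exact_mod_cast this
    have hb1 : |β| * t ^ 99 ≤ 1 := by
      rw [ht99]
      calc |β| * (K : ℝ) ^ (99 / 100 : ℝ) ≤ (K : ℝ) ^ (-(99 / 100 : ℝ)) * (K : ℝ) ^ (99 / 100 : ℝ) :=
            mul_le_mul_of_nonneg_right hβ2 (by positivity)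
        _ = 1 := by
            rw [← Real.rpow_add hKR]
            norm_num
    have hbK : 1 / |β| ≤ K := by
      rw [div_le_iff₀ hb0]
      rw [div_le_iff₀ hKR] at hβ1
      linarith
    obtain ⟨c1, c2, c3, c4, c5, c6⟩ := hb_num (R := (R : ℝ)) ht2 hx hU1' hU2 hU3'
      (by exact_mod_cast hR0) (by rw [hR5]; exact hR) hb0 hb1
    exact (hb_sum hη hC1 hC0 hC2 hI h0 hH hK3 hR0 hU1 hUK hL (abs_pos.1 hb0) c1 hbK c2 c3 c4 c5
      c6).trans hfac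

end Pool.Agent.MV5
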