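import Pool.Agent.MV5.StA
import Pool.Agent.BVX.MulLS

set_option autoImplicit false

/-!
# MV5, module Ht: bilinear sums in mean square, with the exponential kept
-/

namespace Pool.Agent.MV5

open Finset MeasureTheory
open Pool.Agent.GBQ (ee lam nd Admissible)
open Pool.Agent.MVX (Chr tent Bm Um prm Win GP mem_prm)
open Pool.Agent.MT (IsWt prim mem_prim)

/-- the additive character -/
private noncomputable def ht_e (ξ y : ℝ) : ℂ :=
  Complex.exp (((2 * Real.pi * (ξ * y) : ℝ) : ℂ) * Complex.I)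

private theorem ht_e_norm (ξ y : ℝ) : ‖ht_e ξ y‖ = 1 := Complex.norm_exp_ofReal_mul_I _

private theorem ht_e_add (ξ x y : ℝ) : ht_e ξ (x + y) = ht_e ξ x * ht_e ξ y := by
  rw [ht_e, ht_e, ht_e, ← Complex.exp_add]
  congr 1
  push_cast
  ring

private theorem ht_e_cont (y : ℝ) : Continuous fun ξ => ht_e ξ y := by
  unfold ht_e
  fun_prop

private theorem ht_int {g : ℝ → ℂ} (hg : Integrable g) (y : ℝ) :
    Integrable fun ξ => ht_e ξ y * g ξ := by
  refine hg.mono ((ht_e_cont y).aestronglyMeasurable.mul hg.1) ?_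
  refine Filter.Eventually.of_forall fun ξ => ?_
  rw [norm_mul, ht_e_norm, one_mul]

private theorem ht_dd_small {x : ℝ} (hx : |x| ≤ 1 / 2) : |x| ≤ BVX.dd x := by
  unfold BVX.dd
  by_cases h : round x = 0
  · rw [h]
    simp
  · have h1 : (1 : ℝ) ≤ |((round x : ℤ) : ℝ)| := by
      rw [← Int.cast_abs]
      exact_mod_cast Int.one_le_abs h
    have h2 : |((round x : ℤ) : ℝ)| - |x| ≤ |((round x : ℤ) : ℝ) - x| := abs_sub_abs_le_abs_sub _ _
    rw [abs_sub_comm] at h2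
    linarith

private theorem ht_dd_add (x y : ℝ) : BVX.dd x - |y| ≤ BVX.dd (x + y) := by
  have h1 := BVX.dd_le x (round (x + y))
  have h2 : |x - (round (x + y) : ℤ)| ≤ |x + y - (round (x + y) : ℤ)| + |y| := by
    have e : x - (round (x + y) : ℤ) = (x + y - (round (x + y) : ℤ)) + (-y) := by ring
    rw [e]
    refine (abs_add_le _ _).trans ?_
    rw [abs_neg]
  have h3 : BVX.dd (x + y) = |x + y - (round (x + y) : ℤ)| := rfl
  linarith

/-- one modulus, all primitive characters -/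
private theorem ht_mod {q : ℕ} (hq : 1 ≤ q) (U : Finset ℕ) (a : ℕ → ℂ) :
    ∑ χ ∈ prm q, ‖∑ n ∈ U, a n * χ (n : ZMod q)‖ ^ 2 ≤
      ∑ b ∈ (range q).filter (fun b => b.Coprime q),
        ‖∑ n ∈ U, a n * BVX.ee (n * ((b : ℝ) / q))‖ ^ 2 := by
  have : NeZero q := ⟨by omega⟩
  rcases Nat.lt_or_ge 1 q with h1 | h1
  · have h2 : prm q = prim q := by
      ext χ
      rw [mem_prm, mem_prim]
      constructor
      · intro h
        refine ⟨h, fun h0 => ?_⟩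
        rw [h0] at h
        have h3 : (1 : DirichletCharacter ℂ q).conductor = 1 :=
          DirichletCharacter.conductor_one
        rw [DirichletCharacter.isPrimitive_def] at h
        omega
      · exact fun h => h.1
    rw [h2]
    exact BVX.one_mod U a
  · obtain rfl : q = 1 := by omega
    have h2 : (prm 1).card ≤ 1 := by
      have h3 : ∀ χ χ' : DirichletCharacter ℂ 1, χ = χ' := by
        intro χ χ'
        ext u
        have h4 : u = 1 := Subsingleton.elim _ _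
        rw [h4]
        simp
      exact Finset.card_le_one.2 fun χ _ χ' _ => h3 χ χ'
    have h5 : ∀ χ ∈ prm 1, ‖∑ n ∈ U, a n * χ (n : ZMod 1)‖ ^ 2 = ‖∑ n ∈ U, a n‖ ^ 2 := by
      intro χ _
      congr 2
      refine sum_congr rfl fun n _ => ?_
      have h6 : (n : ZMod 1) = 1 := Subsingleton.elim _ _
      rw [h6, map_one, mul_one]
    rw [sum_congr rfl h5, sum_const, nsmul_eq_mul]
    have h7 : (range 1).filter (fun b => b.Coprime 1) = {0} := by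
      ext b
      simp
    rw [h7, sum_singleton]
    have h8 : ∑ n ∈ U, a n * BVX.ee (n * (((0 : ℕ) : ℝ) / ((1 : ℕ) : ℝ))) = ∑ n ∈ U, a n := by
      refine sum_congr rfl fun n _ => ?_
      rw [Nat.cast_zero, zero_div, mul_zero, BVX.ee_zero, mul_one]
    rw [h8]
    have h9 : (((prm 1).card : ℕ) : ℝ) ≤ 1 := by exact_mod_cast h2
    nlinarith [sq_nonneg ‖∑ n ∈ U, a n‖]

/-- Cauchy-Schwarz for the weight `‖g‖` -/
private theorem ht_cs {g : ℝ → ℂ} (hg : Integrable g) {S : ℝ → ℝ}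
    (h1 : Integrable fun ξ => ‖g ξ‖ * S ξ) (h2 : Integrable fun ξ => ‖g ξ‖ * S ξ ^ 2) :
    (∫ ξ, ‖g ξ‖ * S ξ) ^ 2 ≤ ((∫ ξ, ‖g ξ‖) + 1) * ∫ ξ, ‖g ξ‖ * S ξ ^ 2 := by
  set A := ∫ ξ, ‖g ξ‖ with hA
  set I := ∫ ξ, ‖g ξ‖ * S ξ with hI
  set B := ∫ ξ, ‖g ξ‖ * S ξ ^ 2 with hB
  have hA0 : 0 ≤ A := integral_nonneg fun _ => norm_nonneg _
  set t := I / (A + 1) with ht
  have h3 : 0 ≤ ∫ ξ, ‖g ξ‖ * (S ξ - t) ^ 2 :=
    integral_nonneg fun _ => mul_nonneg (norm_nonneg _) (sq_nonneg _)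
  have h4 : ∫ ξ, ‖g ξ‖ * (S ξ - t) ^ 2 = B - 2 * t * I + t ^ 2 * A := by
    have e1 : (fun ξ => ‖g ξ‖ * (S ξ - t) ^ 2) =
        fun ξ => ((‖g ξ‖ * S ξ ^ 2 - 2 * t * (‖g ξ‖ * S ξ)) + t ^ 2 * ‖g ξ‖) := by
      funext ξ
      ring
    have i3 : Integrable fun ξ => 2 * t * (‖g ξ‖ * S ξ) := h1.const_mul _
    have i1 : Integrable fun ξ => ‖g ξ‖ * S ξ ^ 2 - 2 * t * (‖g ξ‖ * S ξ) := h2.sub i3
    have i2 : Integrable fun ξ => t ^ 2 * ‖g ξ‖ := hg.norm.const_mul _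
    rw [e1, integral_add i1 i2, integral_sub h2 i3, integral_const_mul, integral_const_mul]
  have h5 : t * (A + 1) = I := by
    rw [ht]
    field_simp
  have h6 : I ^ 2 = (A + 1) * (t * I) := by rw [← h5]; ring
  rw [h6]
  refine mul_le_mul_of_nonneg_left ?_ (by linarith)
  have h7 : t ^ 2 * A ≤ t * I := by
    rw [← h5]
    nlinarith [sq_nonneg t]
  linarith

/-- the sum over the characters for fixed `ξ` -/
private theorem ht_sum {N R M : ℕ} {β : ℝ} (hR : 1 ≤ R) (hM : 1 ≤ M) (hβ : β ≠ 0)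
    (hβM : |β| * M ≤ 1 / (2 * (R : ℝ) ^ 2)) (a b : ℕ → ℂ) :
    ∑ q ∈ Icc 1 R, ∑ χ ∈ prm q, ‖∑ l ∈ Ioc M (2 * M), (a l * χ (l : ZMod q)) *
      ∑ k ∈ Icc 1 (N / M), (b k * BVX.ee (β * (l * k : ℕ))) * χ (k : ZMod q)‖ ^ 2 ≤
    16 * ((N : ℝ) / M + 1 / |β|) * (∑ l ∈ Ioc M (2 * M), ‖a l‖ ^ 2) *
      ∑ k ∈ Icc 1 (N / M), ‖b k‖ ^ 2 := by
  classical
  have hR1 : (1 : ℝ) ≤ R := by exact_mod_cast hR
  have hM1 : (1 : ℝ) ≤ M := by exact_mod_cast hM
  have hβ0 : 0 < |β| := abs_pos.2 hβ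
  have hR2 : (1 : ℝ) ≤ (R : ℝ) ^ 2 := one_le_pow₀ hR1
  have hhalf : 1 / (2 * (R : ℝ) ^ 2) ≤ 1 / 2 := by
    apply one_div_le_one_div_of_le (by norm_num)
    linarith
  have hβle : |β| ≤ |β| * M := le_mul_of_one_le_right hβ0.le hM1
  -- Cauchy-Schwarz over l
  have h1 : ∀ (q : ℕ) (χ : DirichletCharacter ℂ q), ‖∑ l ∈ Ioc M (2 * M), (a l * χ (l : ZMod q)) *
      ∑ k ∈ Icc 1 (N / M), (b k * BVX.ee (β * (l * k : ℕ))) * χ (k : ZMod q)‖ ^ 2 ≤
      (∑ l ∈ Ioc M (2 * M), ‖a l‖ ^ 2) * ∑ l ∈ Ioc M (2 * M),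
        ‖∑ k ∈ Icc 1 (N / M), (b k * BVX.ee (β * (l * k : ℕ))) * χ (k : ZMod q)‖ ^ 2 := by
    intro q χ
    have h2 : ‖∑ l ∈ Ioc M (2 * M), (a l * χ (l : ZMod q)) *
        ∑ k ∈ Icc 1 (N / M), (b k * BVX.ee (β * (l * k : ℕ))) * χ (k : ZMod q)‖ ≤
        ∑ l ∈ Ioc M (2 * M), ‖a l‖ *
          ‖∑ k ∈ Icc 1 (N / M), (b k * BVX.ee (β * (l * k : ℕ))) * χ (k : ZMod q)‖ := by
      refine (norm_sum_le _ _).trans (sum_le_sum fun l _ => ?_)
      rw [norm_mul, norm_mul]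
      refine mul_le_mul_of_nonneg_right ?_ (norm_nonneg _)
      exact mul_le_of_le_one_right (norm_nonneg _) (DirichletCharacter.norm_le_one χ _)
    refine (pow_le_pow_left₀ (norm_nonneg _) h2 2).trans ?_
    exact sum_mul_sq_le_sq_mul_sq _ _ _
  -- the large sieve
  set T : Finset (ℕ × (Σ _ : ℕ, ℕ)) := Ioc M (2 * M) ×ˢ
    (Icc 1 R).sigma (fun q => (range q).filter (fun c => c.Coprime q)) with hT
  have hmem : ∀ x ∈ T, (M < x.1 ∧ x.1 ≤ 2 * M) ∧ 1 ≤ x.2.1 ∧ x.2.1 ≤ R ∧ x.2.2 < x.2.1 ∧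
      x.2.2.Coprime x.2.1 := by
    intro x hx
    rw [hT, mem_product, mem_Ioc, mem_sigma, mem_Icc, mem_filter, mem_range] at hx
    exact ⟨hx.1, hx.2.1.1, hx.2.1.2, hx.2.2.1, hx.2.2.2⟩
  have hls := BVX.add_ls T (fun x => (x.2.2 : ℝ) / x.2.1 + β * x.1) |β| hβ0 (by linarith)
    (fun y hy z hz hyz => by
      obtain ⟨⟨yl1, yl2⟩, y1, y2, y3, y4⟩ := hmem y hy
      obtain ⟨⟨zl1, zl2⟩, z1, z2, z3, z4⟩ := hmem z hz
      have hl : |(y.1 : ℝ) - z.1| ≤ M := by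
        rw [abs_le]
        have e1 : (M : ℝ) < y.1 := by exact_mod_cast yl1
        have e2 : (y.1 : ℝ) ≤ 2 * M := by exact_mod_cast yl2
        have e3 : (M : ℝ) < z.1 := by exact_mod_cast zl1
        have e4 : (z.1 : ℝ) ≤ 2 * M := by exact_mod_cast zl2
        constructor <;> linarith
      have hab : |β * ((y.1 : ℝ) - z.1)| ≤ |β| * M := by
        rw [abs_mul]
        exact mul_le_mul_of_nonneg_left hl hβ0.le
      have e0 : ((y.2.2 : ℝ) / y.2.1 + β * y.1) - ((z.2.2 : ℝ) / z.2.1 + β * z.1) =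
          ((y.2.2 : ℝ) / y.2.1 - (z.2.2 : ℝ) / z.2.1) + β * ((y.1 : ℝ) - z.1) := by ring
      show |β| ≤ BVX.dd (((y.2.2 : ℝ) / y.2.1 + β * y.1) - ((z.2.2 : ℝ) / z.2.1 + β * z.1))
      rw [e0]
      by_cases hne : y.2.1 = z.2.1 ∧ y.2.2 = z.2.2
      · rw [hne.1, hne.2, sub_self, zero_add]
        have h3 : y.1 ≠ z.1 := by
          intro h
          apply hyz
          obtain ⟨y1, y2, y3⟩ := y
          obtain ⟨z1, z2, z3⟩ := z
          simp only at h hne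
          obtain ⟨h4, h5⟩ := hne
          subst h
          subst h4
          subst h5
          rfl
        refine le_trans ?_ (ht_dd_small (hab.trans (hβM.trans hhalf)))
        rw [abs_mul]
        refine le_mul_of_one_le_right hβ0.le ?_
        have h4 : (y.1 : ℤ) - z.1 ≠ 0 := by omega
        have h5 := Int.one_le_abs h4
        have h6 : ((1 : ℤ) : ℝ) ≤ ((|(y.1 : ℤ) - z.1| : ℤ) : ℝ) := by exact_mod_cast h5
        rw [Int.cast_abs] at h6
        push_cast at h6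
        exact h6
      · have h3 := BVX.farey_spacing y1 y2 z1 z2 y3 z3 y4 z4 hne
        have h4 := ht_dd_add ((y.2.2 : ℝ) / y.2.1 - (z.2.2 : ℝ) / z.2.1) (β * ((y.1 : ℝ) - z.1))
        have h5 : 1 / (R : ℝ) ^ 2 = 1 / (2 * (R : ℝ) ^ 2) + 1 / (2 * (R : ℝ) ^ 2) := by
          field_simp
          norm_num
        linarith) 0 (N / M) (Nat.zero_le _) b
  have hIoc : Ioc 0 (N / M) = Icc 1 (N / M) := by
    ext k; simp only [Finset.mem_Ioc, Finset.mem_Icc]; omega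
  rw [hIoc, hT, sum_product] at hls
  simp only [sum_sigma] at hls
  have h2 : ∑ q ∈ Icc 1 R, ∑ χ ∈ prm q, ∑ l ∈ Ioc M (2 * M),
      ‖∑ k ∈ Icc 1 (N / M), (b k * BVX.ee (β * (l * k : ℕ))) * χ (k : ZMod q)‖ ^ 2 ≤
      16 * ((N : ℝ) / M + 1 / |β|) * ∑ k ∈ Icc 1 (N / M), ‖b k‖ ^ 2 := by
    have h3 : ∑ q ∈ Icc 1 R, ∑ χ ∈ prm q, ∑ l ∈ Ioc M (2 * M),
        ‖∑ k ∈ Icc 1 (N / M), (b k * BVX.ee (β * (l * k : ℕ))) * χ (k : ZMod q)‖ ^ 2 =
        ∑ l ∈ Ioc M (2 * M), ∑ q ∈ Icc 1 R, ∑ χ ∈ prm q,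
        ‖∑ k ∈ Icc 1 (N / M), (b k * BVX.ee (β * (l * k : ℕ))) * χ (k : ZMod q)‖ ^ 2 :=
      (sum_congr rfl fun q _ => sum_comm).trans sum_comm
    have h4 : ∀ l ∈ Ioc M (2 * M), ∀ q ∈ Icc 1 R, ∑ χ ∈ prm q,
        ‖∑ k ∈ Icc 1 (N / M), (b k * BVX.ee (β * (l * k : ℕ))) * χ (k : ZMod q)‖ ^ 2 ≤
        ∑ c ∈ (range q).filter (fun c => c.Coprime q),
          ‖∑ k ∈ Icc 1 (N / M), b k * BVX.ee (k * ((c : ℝ) / q + β * l))‖ ^ 2 := by
      intro l _ q hq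
      refine (ht_mod (mem_Icc.1 hq).1 _ _).trans (le_of_eq ?_)
      refine sum_congr rfl fun c _ => ?_
      congr 2
      refine sum_congr rfl fun k _ => ?_
      rw [mul_assoc, ← BVX.ee_add]
      congr 2
      push_cast
      ring
    rw [h3]
    refine (sum_le_sum fun l hl => sum_le_sum fun q hq => h4 l hl q hq).trans
      (hls.trans ?_)
    refine mul_le_mul_of_nonneg_right ?_ (sum_nonneg fun k _ => sq_nonneg _)
    have h5 : ((N / M : ℕ) : ℝ) ≤ (N : ℝ) / M := Nat.cast_div_le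
    push_cast
    linarith
  calc ∑ q ∈ Icc 1 R, ∑ χ ∈ prm q, ‖∑ l ∈ Ioc M (2 * M), (a l * χ (l : ZMod q)) *
      ∑ k ∈ Icc 1 (N / M), (b k * BVX.ee (β * (l * k : ℕ))) * χ (k : ZMod q)‖ ^ 2
      ≤ ∑ q ∈ Icc 1 R, ∑ χ ∈ prm q, (∑ l ∈ Ioc M (2 * M), ‖a l‖ ^ 2) * ∑ l ∈ Ioc M (2 * M),
        ‖∑ k ∈ Icc 1 (N / M), (b k * BVX.ee (β * (l * k : ℕ))) * χ (k : ZMod q)‖ ^ 2 :=
        sum_le_sum fun q _ => sum_le_sum fun χ _ => h1 q χ
    _ = (∑ l ∈ Ioc M (2 * M), ‖a l‖ ^ 2) * ∑ q ∈ Icc 1 R, ∑ χ ∈ prm q, ∑ l ∈ Ioc M (2 * M),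
        ‖∑ k ∈ Icc 1 (N / M), (b k * BVX.ee (β * (l * k : ℕ))) * χ (k : ZMod q)‖ ^ 2 := by
        simp only [mul_sum]
    _ ≤ (∑ l ∈ Ioc M (2 * M), ‖a l‖ ^ 2) *
        (16 * ((N : ℝ) / M + 1 / |β|) * ∑ k ∈ Icc 1 (N / M), ‖b k‖ ^ 2) :=
        mul_le_mul_of_nonneg_left h2 (sum_nonneg fun l _ => sq_nonneg _)
    _ = _ := by ring

theorem thm_Ht (h : St_Se) : St_Ht := by
  intro η hη
  obtain ⟨C0, hC0, hC1⟩ := h η hη
  obtain ⟨g, hg, -, hsep0⟩ := hC1 0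
  have hsep : ∀ x : ℝ, 0 < x → ((η x : ℝ) : ℂ) = ∫ ξ : ℝ, ht_e ξ (Real.log x) * g ξ := by
    intro x hx
    have h1 := hsep0 x hx
    rw [zero_mul, show ee 0 = 1 from BVX.ee_zero, mul_one] at h1
    exact h1
  set A0 := ∫ ξ, ‖g ξ‖ with hA0
  have hA0n : 0 ≤ A0 := integral_nonneg fun _ => norm_nonneg _
  refine ⟨16 * (A0 + 1) ^ 2, by positivity, ?_⟩
  intro N R M β hN hR hM hβ hβM a b
  have hNpos : (0 : ℝ) < N := by exact_mod_cast hN
  have hMpos : (0 : ℝ) < M := by exact_mod_cast hM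
  set S : (q : ℕ) → DirichletCharacter ℂ q → ℝ → ℂ := fun q χ ξ =>
    ∑ l ∈ Ioc M (2 * M), ((a l * ht_e ξ (Real.log l)) * χ (l : ZMod q)) *
      ∑ k ∈ Icc 1 (N / M), ((b k * ht_e ξ (Real.log k)) * BVX.ee (β * (l * k : ℕ))) *
        χ (k : ZMod q) with hS
  set F : (q : ℕ) → DirichletCharacter ℂ q → ℝ → ℂ := fun q χ ξ =>
    ∑ l ∈ Ioc M (2 * M), ∑ k ∈ Icc 1 (N / M),
      (a l * b k * χ ((l * k : ℕ) : ZMod q) * ee (β * (l * k : ℕ))) *
      (ht_e ξ (Real.log (((l * k : ℕ) : ℝ) / N)) * g ξ) with hF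
  have hFi : ∀ q (χ : DirichletCharacter ℂ q), Integrable (F q χ) := by
    intro q χ
    exact integrable_finsetSum _ fun l _ => integrable_finsetSum _ fun k _ =>
      (ht_int hg _).const_mul _
  have hFS : ∀ q (χ : DirichletCharacter ℂ q) ξ, ‖F q χ ξ‖ = ‖g ξ‖ * ‖S q χ ξ‖ := by
    intro q χ ξ
    have e1 : F q χ ξ = (g ξ * ht_e ξ (-Real.log N)) * S q χ ξ := by
      simp only [hF, hS]
      rw [Finset.mul_sum]
      refine Finset.sum_congr rfl fun l hl => ?_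
      rw [Finset.mul_sum, Finset.mul_sum]
      refine Finset.sum_congr rfl fun k hk => ?_
      have hl' : (0 : ℝ) < l := by
        have := (Finset.mem_Ioc.1 hl).1
        exact_mod_cast (by omega : 0 < l)
      have hk' : (0 : ℝ) < k := by
        have := (Finset.mem_Icc.1 hk).1
        exact_mod_cast (by omega : 0 < k)
      have e2 : Real.log (((l * k : ℕ) : ℝ) / N) =
          Real.log l + Real.log k + -Real.log N := by
        rw [Nat.cast_mul, Real.log_div (by positivity) (by positivity),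
          Real.log_mul hl'.ne' hk'.ne', sub_eq_add_neg]
      have e3 : ee (β * (l * k : ℕ)) = BVX.ee (β * (l * k : ℕ)) := rfl
      rw [e2, ht_e_add, ht_e_add, Nat.cast_mul (α := ZMod q), map_mul, e3]
      ring
    rw [e1, norm_mul, norm_mul, ht_e_norm, mul_one]
  have hI : ∀ q (χ : DirichletCharacter ℂ q),
      ∑ l ∈ Ioc M (2 * M), ∑ k ∈ Icc 1 (N / l), a l * b k *
        (χ ((l * k : ℕ) : ZMod q) * (((η (((l * k : ℕ) : ℝ) / N) : ℝ) : ℂ) *
          ee (β * (l * k : ℕ)))) =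
      ∫ ξ, F q χ ξ := by
    intro q χ
    have e1 : ∫ ξ, F q χ ξ = ∑ l ∈ Ioc M (2 * M), ∑ k ∈ Icc 1 (N / M),
        (a l * b k * χ ((l * k : ℕ) : ZMod q) * ee (β * (l * k : ℕ))) *
          ((η (((l * k : ℕ) : ℝ) / N) : ℝ) : ℂ) := by
      simp only [hF]
      rw [integral_finsetSum _ fun l _ => integrable_finsetSum _ fun k _ =>
        (ht_int hg _).const_mul _]
      refine Finset.sum_congr rfl fun l hl => ?_
      rw [integral_finsetSum _ fun k _ => (ht_int hg _).const_mul _]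
      refine Finset.sum_congr rfl fun k hk => ?_
      have hl' : 0 < l := by
        have := (Finset.mem_Ioc.1 hl).1
        omega
      have hk' : 0 < k := by
        have := (Finset.mem_Icc.1 hk).1
        omega
      have hx : (0 : ℝ) < ((l * k : ℕ) : ℝ) / N := by
        have : (0 : ℝ) < ((l * k : ℕ) : ℝ) := by exact_mod_cast Nat.mul_pos hl' hk'
        positivity
      rw [integral_const_mul, hsep _ hx]
    rw [e1]
    refine Finset.sum_congr rfl fun l hl => ?_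
    obtain ⟨hl1, hl2⟩ := Finset.mem_Ioc.1 hl
    have hsub : Icc 1 (N / l) ⊆ Icc 1 (N / M) := by
      refine Finset.Icc_subset_Icc le_rfl ?_
      exact Nat.div_le_div_left hl1.le (by omega)
    have e2 : ∀ k ∈ Icc 1 (N / l), a l * b k *
        (χ ((l * k : ℕ) : ZMod q) * (((η (((l * k : ℕ) : ℝ) / N) : ℝ) : ℂ) *
          ee (β * (l * k : ℕ)))) =
        (a l * b k * χ ((l * k : ℕ) : ZMod q) * ee (β * (l * k : ℕ))) *
          ((η (((l * k : ℕ) : ℝ) / N) : ℝ) : ℂ) :=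
      fun k _ => by ring
    rw [Finset.sum_congr rfl e2]
    refine Finset.sum_subset hsub fun k hk hk' => ?_
    have h1 : N / l < k := by
      by_contra h
      exact hk' (Finset.mem_Icc.2 ⟨(Finset.mem_Icc.1 hk).1, not_lt.1 h⟩)
    have h2 : N < l * k := by
      have := (Nat.div_lt_iff_lt_mul (by omega : 0 < l)).1 h1
      rwa [mul_comm] at this
    have h3 : η (((l * k : ℕ) : ℝ) / N) = 0 := by
      by_contra h
      have h4 := (hη.supp _ h).2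
      rw [div_lt_iff₀ hNpos] at h4
      have h5 : (N : ℝ) < ((l * k : ℕ) : ℝ) := by exact_mod_cast h2
      linarith
    rw [h3]
    simp
  -- `S` is bounded and continuous
  set D : ℝ := ∑ l ∈ Ioc M (2 * M), ‖a l‖ * ∑ k ∈ Icc 1 (N / M), ‖b k‖ with hD
  have hSD : ∀ q (χ : DirichletCharacter ℂ q) ξ, ‖S q χ ξ‖ ≤ D := by
    intro q χ ξ
    simp only [hS, hD]
    refine (norm_sum_le _ _).trans (sum_le_sum fun l _ => ?_)
    rw [norm_mul]
    refine mul_le_mul ?_ ?_ (norm_nonneg _) (norm_nonneg _)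
    · rw [norm_mul, norm_mul, ht_e_norm, mul_one]
      exact mul_le_of_le_one_right (norm_nonneg _) (DirichletCharacter.norm_le_one χ _)
    · refine (norm_sum_le _ _).trans (sum_le_sum fun k _ => ?_)
      rw [norm_mul, norm_mul, norm_mul, ht_e_norm, mul_one, BVX.norm_ee, mul_one]
      exact mul_le_of_le_one_right (norm_nonneg _) (DirichletCharacter.norm_le_one χ _)
  have hSc : ∀ q (χ : DirichletCharacter ℂ q), Continuous (S q χ) := by
    intro q χ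
    simp only [hS]
    refine continuous_finset_sum _ fun l _ => ?_
    refine ((continuous_const.mul (ht_e_cont _)).mul continuous_const).mul ?_
    refine continuous_finset_sum _ fun k _ => ?_
    exact ((continuous_const.mul (ht_e_cont _)).mul continuous_const).mul continuous_const
  have hi1 : ∀ q (χ : DirichletCharacter ℂ q), Integrable fun ξ => ‖g ξ‖ * ‖S q χ ξ‖ := by
    intro q χ
    refine (hg.norm.mul_const D).mono (hg.norm.1.mul (hSc q χ).norm.aestronglyMeasurable) ?_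
    refine Filter.Eventually.of_forall fun ξ => ?_
    have hD0 : 0 ≤ D := (norm_nonneg _).trans (hSD q χ ξ)
    rw [Real.norm_of_nonneg (mul_nonneg (norm_nonneg _) (norm_nonneg _)),
      Real.norm_of_nonneg (mul_nonneg (norm_nonneg _) hD0)]
    exact mul_le_mul_of_nonneg_left (hSD q χ ξ) (norm_nonneg _)
  have hi2 : ∀ q (χ : DirichletCharacter ℂ q), Integrable fun ξ => ‖g ξ‖ * ‖S q χ ξ‖ ^ 2 := by
    intro q χ
    refine (hg.norm.mul_const (D ^ 2)).mono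
      (hg.norm.1.mul ((hSc q χ).norm.pow 2).aestronglyMeasurable) ?_
    refine Filter.Eventually.of_forall fun ξ => ?_
    rw [Real.norm_of_nonneg (mul_nonneg (norm_nonneg _) (sq_nonneg _)),
      Real.norm_of_nonneg (mul_nonneg (norm_nonneg _) (sq_nonneg _))]
    exact mul_le_mul_of_nonneg_left (pow_le_pow_left₀ (norm_nonneg _) (hSD q χ ξ) 2)
      (norm_nonneg _)
  set Z : ℝ := 16 * ((N : ℝ) / M + 1 / |β|) * (∑ l ∈ Ioc M (2 * M), ‖a l‖ ^ 2) *
      ∑ k ∈ Icc 1 (N / M), ‖b k‖ ^ 2 with hZ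
  have hZ0 : 0 ≤ Z := by
    rw [hZ]
    have h1 : 0 ≤ ∑ l ∈ Ioc M (2 * M), ‖a l‖ ^ 2 := sum_nonneg fun _ _ => sq_nonneg _
    have h2 : 0 ≤ ∑ k ∈ Icc 1 (N / M), ‖b k‖ ^ 2 := sum_nonneg fun _ _ => sq_nonneg _
    have h3 : 0 < |β| := abs_pos.2 hβ
    positivity
  have hSZ : ∀ ξ, ∑ q ∈ Icc 1 R, ∑ χ ∈ prm q, ‖S q χ ξ‖ ^ 2 ≤ Z := by
    intro ξ
    have h1 := ht_sum (N := N) hR hM hβ hβM (fun l => a l * ht_e ξ (Real.log l))
      (fun k => b k * ht_e ξ (Real.log k))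
    have e1 : ∀ l : ℕ, ‖a l * ht_e ξ (Real.log l)‖ = ‖a l‖ := by
      intro l
      rw [norm_mul, ht_e_norm, mul_one]
    have e2 : ∀ k : ℕ, ‖b k * ht_e ξ (Real.log k)‖ = ‖b k‖ := by
      intro k
      rw [norm_mul, ht_e_norm, mul_one]
    simp only [e1, e2] at h1
    exact h1
  calc ∑ q ∈ Icc 1 R, ∑ χ ∈ prm q,
      ‖∑ l ∈ Ioc M (2 * M), ∑ k ∈ Icc 1 (N / l), a l * b k *
        (χ ((l * k : ℕ) : ZMod q) * (((η (((l * k : ℕ) : ℝ) / N) : ℝ) : ℂ) *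
          ee (β * (l * k : ℕ))))‖ ^ 2
      = ∑ q ∈ Icc 1 R, ∑ χ ∈ prm q, ‖∫ ξ, F q χ ξ‖ ^ 2 := by
        refine Finset.sum_congr rfl fun q _ => Finset.sum_congr rfl fun χ _ => ?_
        rw [hI]
    _ ≤ ∑ q ∈ Icc 1 R, ∑ χ ∈ prm q, (A0 + 1) * ∫ ξ, ‖g ξ‖ * ‖S q χ ξ‖ ^ 2 := by
        refine Finset.sum_le_sum fun q _ => Finset.sum_le_sum fun χ _ => ?_
        refine (pow_le_pow_left₀ (norm_nonneg _) (norm_integral_le_integral_norm _) 2).trans ?_
        simp only [hFS]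
        exact ht_cs hg (hi1 q χ) (hi2 q χ)
    _ = (A0 + 1) * ∫ ξ, ∑ q ∈ Icc 1 R, ∑ χ ∈ prm q, ‖g ξ‖ * ‖S q χ ξ‖ ^ 2 := by
        rw [integral_finsetSum _ fun q _ => integrable_finsetSum _ fun χ _ => hi2 q χ,
          Finset.mul_sum]
        refine Finset.sum_congr rfl fun q _ => ?_
        rw [integral_finsetSum _ fun χ _ => hi2 q χ, Finset.mul_sum]
    _ ≤ (A0 + 1) * ∫ ξ, ‖g ξ‖ * Z := by
        refine mul_le_mul_of_nonneg_left ?_ (by linarith)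
        refine integral_mono (integrable_finsetSum _ fun q _ => integrable_finsetSum _ fun χ _ =>
          hi2 q χ) (hg.norm.mul_const _) fun ξ => ?_
        simp only [← Finset.mul_sum]
        exact mul_le_mul_of_nonneg_left (hSZ ξ) (norm_nonneg _)
    _ = (A0 + 1) * (A0 * Z) := by rw [integral_mul_const]
    _ ≤ (A0 + 1) * ((A0 + 1) * Z) := by
        refine mul_le_mul_of_nonneg_left ?_ (by linarith)
        exact mul_le_mul_of_nonneg_right (by linarith) hZ0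
    _ = _ := by rw [hZ]; ring

end Pool.Agent.MV5
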