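import Mathlib
import Pool.Agent.MV5.Defs

set_option autoImplicit false

/-!
# MV5: statements, second part (arcs)
-/

namespace Pool.Agent.MV5

open Finset Filter
open Pool.Agent.GBQ (ee lam nd Admissible)
open Pool.Agent.MVX (Chr tent Bm Um prm Win GP)
open Pool.Agent.LIN (PP pz Dens)
open Pool.Agent.MT (IsWt)
open Pool.Agent.MVII (TT QQ HH H0 cp cs gp GQ ar PL PM NB BI Bc Md fj rr Per mn wq Sum4 Blk Wc)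

/-! ### elementary facts -/

/-- RM.  The model of `Λ η` is real.  Proof.  Copy `MVII.thm_Re` (MVII/Re.lean). -/
def St_Rm : Prop := ∀ (η : ℝ → ℝ) (T Q h K x : ℕ), (MY η T Q h K x).im = 0

/-- FE.  The Fourier transform of the local means.

Proof.  As `MVII.thm_Bf`: `η(n/K) ≠ 0` only for `n > K/8 ≥ h`, and for such `n`
`∑_{x < K + h} tent h x n e(β x) = e(β n) ∑_{|d| < h} (h - |d|) e(β d) = e(β n) h^2 fj h β`. -/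
def St_Fe : Prop := ∀ (η : ℝ → ℝ) (h K : ℕ) (c : Chr) (β : ℝ), IsWt η → 1 ≤ h → 8 * h ≤ K →
  ∑ x ∈ range (K + h), BY η h K x c * ee (β * x) = ((fj h β : ℝ) : ℂ) * Tx η K β c

/-- BS.  Sizes of the local means.

Proof.  `h^{-2} ∑_n tent h x n ≤ 1`, `Λ(n) ≤ log K`, `|η| ≤ 1`.  The tent at `x` vanishes for all `n ≤ K` if `x ≥ K + h`, and for all
`n > K/8` if `8 (x + h) ≤ K`.  `|tent h (x+1) n - tent h x n| ≤ 1`, and the difference vanishes except for at most `2 h` values of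
`n`.  (5): if `x + h ≤ K + 1` then `BY(x)` and `Bc(x)` are sums over the same `n` with `|n - x| < h`; `|η(n/K) - η(x'/K)| ≤
L |n - x'|/K ≤ L (h + |x - x'|)/K` (`MT.wt_lipschitz`), and `‖Bc h x - Bc h x'‖ ≤ 4 |x - x'| log(2X)/h` (`MVII.St_Bl`, proved as
`MVII.thm_Bl`), `|η| ≤ 1`. -/
def St_Bs : Prop :=
  (∀ (η : ℝ → ℝ) (h K x : ℕ) (c : Chr), IsWt η → 1 ≤ h → 1 ≤ K → ‖BY η h K x c‖ ≤ Real.log K) ∧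
  (∀ (η : ℝ → ℝ) (h K x : ℕ) (c : Chr), IsWt η → K + h ≤ x → BY η h K x c = 0) ∧
  (∀ (η : ℝ → ℝ) (h K x : ℕ) (c : Chr), IsWt η → 1 ≤ K → 8 * (x + h) ≤ K → BY η h K x c = 0) ∧
  (∀ (η : ℝ → ℝ) (h K x : ℕ) (c : Chr), IsWt η → 1 ≤ h → 1 ≤ K →
    ‖BY η h K (x + 1) c - BY η h K x c‖ ≤ 4 * Real.log K / h) ∧
  (∀ η : ℝ → ℝ, IsWt η → ∃ C : ℝ, 0 < C ∧ ∀ (X h K x x' : ℕ) (c : Chr), 1 ≤ h → h ≤ K → K ≤ X →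
    x + h ≤ K + 1 → x' ≤ K → ‖BY η h K x c - ((η ((x' : ℝ) / K) : ℝ) : ℂ) * Bc h x' c‖ ≤
      C * (((h : ℝ) + |(x : ℝ) - x'|) / K + |(x : ℝ) - x'| / h) * Real.log (2 * X))

/-- AB.  Abel summation against a periodic function.

Proof.  `W(t) = ∑_{y < t} (P(y) - mn l P)`: full periods give `0`, so `‖W(t)‖ ≤ 2 l B`; `W(0) = 0` and
`∑_{y < N} G(y) (W(y+1) - W(y)) = G(N) W(N) - ∑_{y < N} (G(y+1) - G(y)) W(y+1)`. -/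
def St_Ab : Prop := ∀ (l N : ℕ) (P : ℤ → ℂ) (G : ℕ → ℂ) (B : ℝ), 1 ≤ l → Per l P →
  (∀ y, ‖P y‖ ≤ B) → ‖∑ y ∈ range N, G y * P (y : ℤ) - mn l P * ∑ y ∈ range N, G y‖ ≤
    2 * l * B * (‖G N‖ + ∑ y ∈ range N, ‖G (y + 1) - G y‖)

/-- RT.  Roots of `y^2 = 2`.

Proof.  (1) at most two roots modulo a prime, Chinese remainder (induction on the prime factors: `y ↦ (y mod p, y mod d/p)` maps
`RT d` injectively into `RT p × RT (d/p)`).  (2) `d ∣ y^2 - 2` if and only if `y mod d ∈ RT d`, and then exactly one `ν ∈ RT d`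
has `d ∣ y - ν`. -/
def St_Rt : Prop := (∀ d : ℕ, Squarefree d → (RT d).card ≤ 2 ^ d.primeFactors.card) ∧
  (∀ (D : ℕ) (c : ℕ → ℝ) (y : ℤ), SD D c y =
    ∑ d ∈ Icc 1 D, ∑ ν ∈ RT d, if (d : ℤ) ∣ y - (ν : ℤ) then c d else 0)

/-- SB.  The size of the sieve weight.

Proof.  `|SD| ≤ C ∑_{d ∣ |y^2 - 2|, d squarefree} 8^{ω(d)} = C 9^{ω(|y^2-2|)} ≤ C τ(|y^2 - 2|)^4` (`y^2 ≠ 2`), `|y^2 - 2| ≤ X^4`, and the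
divisor bound (`MVII.St_Ep`, proved as `MVII.thm_Ep`). -/
def St_Sb : Prop := ∀ C ε : ℝ, 0 < ε → ∀ᶠ X : ℕ in atTop, ∀ (c : ℕ → ℝ) (D : ℕ) (y : ℤ),
  IsC D C c → |y| ≤ 2 * X → |SD D c y| ≤ (X : ℝ) ^ ε

/-! ### characters -/

/-- OC.  Orthogonality with primitive characters.

Proof.  `(r, χ) ↦` the character modulo `l` induced by `χ` is a bijection of the pairs `r ∣ l`, `χ ∈ prm r`, onto the characters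
modulo `l` (see `MVII.thm_Gi`, MVII/Gi.lean), with the same values at `n` coprime to `l`.  Orthogonality modulo `l`. -/
def St_Oc : Prop := ∀ l : ℕ, 1 ≤ l → (∑ r ∈ l.divisors, (prm r).card = l.totient) ∧
  ∀ y n : ℕ, y.Coprime l → n.Coprime l →
    ∑ r ∈ l.divisors, ∑ χ ∈ prm r, (starRingEnd ℂ) (χ (y : ZMod r)) * χ (n : ZMod r) =
      if (y : ZMod l) = (n : ZMod l) then (l.totient : ℂ) else 0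

/-- FB.  Bound for the coefficients.

Proof.  `l = lcm (d, q)`, `g = (d, q)`, `Y = {y ∈ rr l : y = ν mod d}`, `S(u) = ∑_{y ∈ Y} e(b u y/q) conj χ(y)`, so
`φ(l) fh = S(1)`.  Let `U` be the set of the units `u` modulo `l` with `u = 1 mod d`.  For `u ∈ U` multiplication by `u` permutes `Y`
(modulo `l`), so `|S(u)| = |S(1)|`; if `Y` is not empty, `#U = #Y`.  Hence, with `u` now over ALL residues modulo `l` with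
`u = 1 mod d` (`u = 1 + d j`, `j < l/d = q/g`):
`#Y |S(1)|^2 ≤ ∑_u |S(u)|^2 = ∑_{y, y'} conj χ(y) χ(y') ∑_u e(b u (y - y')/q)`, and the inner sum has modulus `q/g` if `(q/g) ∣ y - y'`
and is `0` otherwise (`e(b d j (y - y')/q)`, `(b d/g, q/g) = 1`).  As `d ∣ y - y'`, for fixed `y` there are at most
`l/lcm(d, q/g) = gcd(d, q/g) ≤ g` values `y'`.  So `#Y |S(1)|^2 ≤ #Y g (q/g)`. -/
def St_Fb : Prop := ∀ (d q : ℕ) (ν b : ℤ) (r : ℕ) (χ : DirichletCharacter ℂ r), 1 ≤ d → 1 ≤ q →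
  IsCoprime b (q : ℤ) → r ∣ Nat.lcm d q →
  ‖fh d ν q b ⟨r, χ⟩‖ ≤ Real.sqrt q / (Nat.lcm d q).totient

/-- AP.  Expansion on the side of `Λ`.

Proof.  `l = lcm (d, q)`.  For `n` coprime to `l`: `Pd(n) = ∑_{r ∣ l} ∑_χ fh(χ) χ(n)` (OC; `Pd` has period `l`).  For the others
`|Pd(n) - ∑ fh(χ) χ(n)| ≤ 1 + ∑_r #prm r √q/φ(l) ≤ 1 + √q ≤ 2 q` (FB, OC), and
`∑_{n ≤ K, (n, l) > 1} Λ(n) ≤ ∑_{p ∣ l} ∑_{p^j ≤ K} log p ≤ ω(l) log K`. -/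
def St_Ap : Prop := ∀ (η : ℝ → ℝ) (K d q : ℕ) (ν b : ℤ) (β : ℝ), IsWt η → 1 ≤ K → 1 ≤ d → 1 ≤ q →
  IsCoprime b (q : ℤ) →
  ‖∑ n ∈ Icc 1 K, ((lam n : ℝ) : ℂ) * (Pd d ν q b (n : ℤ) *
        (((η ((n : ℝ) / K) : ℝ) : ℂ) * ee (β * n))) -
      ∑ r ∈ (Nat.lcm d q).divisors, ∑ χ ∈ prm r, fh d ν q b ⟨r, χ⟩ * Tx η K β ⟨r, χ⟩‖ ≤
    2 * q * (Nat.lcm d q).primeFactors.card * Real.log K

/-- MK.  Means of the terms of the model.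

Proof.  (1) `cp p y` has mean `0` over a period `p`; the other factors have period `r (k/p) lcm(d, q)`, prime to `p`
(`MVII.St_Mt`, proved as `MVII.thm_Mt`, (1) and (2)).
(2) the norm of the function is at most `1_{y = ν mod d} ∏_{p ∣ k} |cp p y|`; for `p ∣ (k, d)` and `y = ν mod d`: `p ∤ y` (`p` odd,
`ν^2 = 2 mod p`), so `|cp p y| = 1`; for `p ∣ k`, `p ∤ d` the mean of `|cp p y|` over a period is `2 (p-1)/p ≤ 2`; independence. -/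
def St_Mk : Prop := ∀ (M d q k r : ℕ) (ν b : ℤ) (χ : DirichletCharacter ℂ r), 1 ≤ M → d ∣ M →
  q ∣ M → k ∣ M → r ∣ M → Squarefree d → ¬ 2 ∣ d → (d : ℤ) ∣ ν ^ 2 - 2 → 1 ≤ q → Squarefree k →
  k.Coprime r →
  ((∃ p : ℕ, p.Prime ∧ p ∣ k ∧ ¬ p ∣ Nat.lcm d q) →
    mn M (fun y => (starRingEnd ℂ) (χ (y : ZMod r)) * ((cs k y : ℝ) : ℂ) * Pd d ν q b y) = 0) ∧
  ‖mn M (fun y => (starRingEnd ℂ) (χ (y : ZMod r)) * ((cs k y : ℝ) : ℂ) * Pd d ν q b y)‖ ≤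
    2 ^ k.primeFactors.card / d

/-- OM.  The complete sum.

Proof.  `l = lcm (d, q)`, `l' = lcm (l, r)`.  `∑_{k ∣ l, squarefree, (k,r)=1} (μ(k)/φ(k)) cs k y = ∏_{p ∣ l, p ∤ r} (1 - cp p y/(p-1))
= ∏_{p ∣ l, p ∤ r} gp p y`, and with `r/φ(r) = ∏_{p ∣ r} p/(p-1)` and `χ(y) = 0` if some `p ∣ r` divides `y`: the function in the mean is
`conj χ(y) (l'/φ(l')) 1_{(y, l') = 1} Pd(y)`, of period `l'`: the mean (`MVII.thm_Mt` (1)) is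
`(1/φ(l')) ∑_{y ∈ rr l'} conj χ(y) Pd(y)`.  If `r ∣ l` this is `fh`.  If `r ∤ l`, there is `u` coprime to `l'`, `u = 1 mod l`, `χ(u) ≠ 1`
(otherwise `χ` would factor through `gcd (l, r) < r`, but `χ` is primitive: `DirichletCharacter.factorsThrough_iff_ker_unitsMap`);
multiplication by `u` shows `S = conj χ(u) S`, `S = 0`. -/
def St_Om : Prop := ∀ (M d q r : ℕ) (ν b : ℤ), 1 ≤ M → d ∣ M → q ∣ M → r ∣ M → 1 ≤ d → 1 ≤ q →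
  1 ≤ r → ∀ χ ∈ prm r,
  ∑ k ∈ (Nat.lcm d q).divisors.filter (fun k => Squarefree k ∧ r.Coprime k),
    ((r : ℂ) / (r.totient : ℂ)) * (((ArithmeticFunction.moebius k : ℤ) : ℂ) / (k.totient : ℂ)) *
      mn M (fun y => (starRingEnd ℂ) (χ (y : ZMod r)) * ((cs k y : ℝ) : ℂ) * Pd d ν q b y) =
    if r ∣ Nat.lcm d q then fh d ν q b ⟨r, χ⟩ else 0

/-- BP.  The model in a progression.

Proof.  `ar Q r y = (r/φ(r)) ∑_{k ≤ Q/r, (k,r)=1} (μ(k)/φ(k)) cs k y`, only squarefree `k`.  For each `k` AB with the period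
`M_k = d q r k ≤ d Q^2`, `B = φ(k)` (`|cs k| ≤ φ(k)`), divided by `φ(k)`; `r/φ(r) ≤ r`, at most `Q/r` values `k`: error `≤ 2 d Q^3 V`.
The means: by MK (1) only `k ∣ l = lcm (d, q)` matter; by OM the sum over all these `k` is the claimed value (the means do not
depend on the period, `MVII.thm_Mt` (1)), and the missing ones, `k ∣ l` squarefree, `k > Q/r`, give by MK (2) and `1/φ(k) ≤ 2^{ω(k)}/k ≤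
2^{ω(k)} r/Q` at most `r (r/Q) ∑_{k ∣ l, squarefree} 4^{ω(k)}/d = r^2 5^{ω(l)}/(Q d)`. -/
def St_Bp : Prop := ∀ (Q d q r N : ℕ) (ν b : ℤ) (G : ℕ → ℂ) (V A : ℝ), Squarefree d → ¬ 2 ∣ d →
  (d : ℤ) ∣ ν ^ 2 - 2 → 1 ≤ q → q ≤ Q → 1 ≤ r → r ≤ Q →
  (‖G N‖ + ∑ y ∈ range N, ‖G (y + 1) - G y‖ ≤ V) → (∑ y ∈ range N, ‖G y‖ ≤ A) → ∀ χ ∈ prm r,
  ‖∑ y ∈ range N, G y * ((starRingEnd ℂ) (χ (y : ZMod r)) * ((ar Q r (y : ℤ) : ℝ) : ℂ)) *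
        Pd d ν q b (y : ℤ) -
      (if r ∣ Nat.lcm d q then fh d ν q b ⟨r, χ⟩ else 0) * ∑ y ∈ range N, G y‖ ≤
    2 * d * (Q : ℝ) ^ 3 * V +
      (r : ℝ) ^ 2 * 5 ^ (Nat.lcm d q).primeFactors.card / (Q * d) * A

/-! ### the arcs -/

/-- AL.  The side of `Λ` with the sieve weight, `K = KK m X`, `D = DD X`.

Proof.  RT (2), `e((b/q + β) y) 1_{d ∣ y - ν} = Pd(y) e(β y)`, AP for every `d`, `ν` (`c d ≠ 0`); `η(y/K) = 0` for `y > K`, `lam 0 = 0`.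
Error: `∑_d |c_d| 2^{ω(d)} 2 q ω(l) log K ≤ D Q X^{δ} ≤ X^{0.6}` (`|c_d| 2^ω ≤ C 16^ω ≤ X^{..}`). -/
def St_Al : Prop := ∀ η : ℝ → ℝ, IsWt η → ∀ C δ : ℝ, 0 < δ → δ ≤ 1 / 10 ^ 6 → ∀ᶠ X : ℕ in atTop,
  ∀ (m q : ℕ) (b : ℤ) (β : ℝ) (c : ℕ → ℝ), 1 ≤ m → (m : ℝ) ≤ (X : ℝ) ^ (δ / 1000) → 1 ≤ q →
  q ≤ QQ δ X → IsCoprime b (q : ℤ) → IsC (DD X) C c →
  ‖∑ y ∈ range (KK m X + HH δ X), ((lam y * η ((y : ℝ) / KK m X) : ℝ) : ℂ) *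
        ((SD (DD X) c (y : ℤ) : ℝ) : ℂ) * ee (((b : ℝ) / q + β) * y) -
      ∑ d ∈ Icc 1 (DD X), ((c d : ℝ) : ℂ) * ∑ ν ∈ RT d, ∑ r ∈ (Nat.lcm d q).divisors,
        ∑ χ ∈ prm r, fh d ν q b ⟨r, χ⟩ * Tx η (KK m X) β ⟨r, χ⟩‖ ≤ (X : ℝ) ^ (6 / 10 : ℝ)

/-- AM.  The side of the model.

Proof.  `h = HH δ X`, `T`, `Q`; RT (2); for every `d`, `ν`, `r ≤ T`, `χ ∈ prm r`: BP with `N = K + h`, `G(y) = BY(y) e(β y)`.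
`G(N) = 0` (BS (2)), `‖G(y+1) - G(y)‖ ≤ 4 log K/h + 2 π |β| log K` (BS (1), (4)): `V ≤ 2 X (4 log X/h + 7 X^{-1+13δ} log X) ≤ X^{14δ}`;
`A = (K + h) log K ≤ X^{1+δ}`.  FE: `∑ G = fj Tx` (`8 h ≤ K`).  Errors: `#prm r ≤ r ≤ T`, with `ε = δ/100`:
`∑_d |c_d| 2^{ω(d)} T^2 2 d Q^3 V ≤ X^ε D^2 T^2 Q^3 X^{14δ} ≤ X^{0.982 + 107 δ}`, and
`∑_d |c_d| 2^{ω(d)} T^2 T^2 5^{ω(l)}/(Q d) A ≤ X^{(4 - 30 + 1) δ + 1 + ε}`. -/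
def St_Am : Prop := ∀ η : ℝ → ℝ, IsWt η → ∀ C δ : ℝ, 0 < δ → δ ≤ 1 / 10 ^ 6 → ∀ᶠ X : ℕ in atTop,
  ∀ (m q : ℕ) (b : ℤ) (β : ℝ) (c : ℕ → ℝ), 1 ≤ m → (m : ℝ) ≤ (X : ℝ) ^ (δ / 1000) → 1 ≤ q →
  q ≤ QQ δ X → IsCoprime b (q : ℤ) → |β| ≤ (X : ℝ) ^ (-1 + 13 * δ) → IsC (DD X) C c →
  ‖∑ y ∈ range (KK m X + HH δ X), MY η (TT δ X) (QQ δ X) (HH δ X) (KK m X) y *
        ((SD (DD X) c (y : ℤ) : ℝ) : ℂ) * ee (((b : ℝ) / q + β) * y) -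
      ∑ d ∈ Icc 1 (DD X), ((c d : ℝ) : ℂ) * ∑ ν ∈ RT d,
        ∑ r ∈ (Nat.lcm d q).divisors.filter (fun r => r ≤ TT δ X), ∑ χ ∈ prm r,
          fh d ν q b ⟨r, χ⟩ * (((fj (HH δ X) β : ℝ) : ℂ) * Tx η (KK m X) β ⟨r, χ⟩)‖ ≤
    (X : ℝ) ^ (1 - δ)

/-- WT.  The weight of a conductor.

Proof.  Let `c d ≠ 0`, `g = (d, q)`, `d = g d'`: `d` is squarefree, so `(d', q) = 1`, `lcm (d, q) = q d'`,
`φ(lcm) = φ(q) φ(d') ≥ q d' X^{-2ε'}` (`MVII.thm_Ep` (3)).  `r ∣ q d'` implies `r/(r,q) ∣ d'`.  `|c_d| #RT d ≤ C 16^{ω(d)} ≤ C X^{ε'}` (RT (1)).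
The sum is `≤ C X^{3ε'} ∑_{g ∣ q} ∑_{d' ≤ D, r/(r,q) ∣ d'} √q/(q d') ≤ C X^{3ε'} τ(q) ((r,q)/(r √q)) (1 + log D)`. -/
def St_Wt : Prop := ∀ C ε : ℝ, 0 < ε → ∀ᶠ X : ℕ in atTop, ∀ (c : ℕ → ℝ) (D q r : ℕ), IsC D C c →
  D ≤ X → 1 ≤ q → q ≤ X → 1 ≤ r →
  ∑ d ∈ Icc 1 D, |c d| * ((RT d).card : ℝ) *
      (if r ∣ Nat.lcm d q then Real.sqrt q / (Nat.lcm d q).totient else 0) ≤
    (X : ℝ) ^ ε * ((Nat.gcd r q : ℝ) / (r * Real.sqrt q))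

/-- the conclusion of LS (StA), repeated: see `St_Ls` -/
def LsH (η : ℝ → ℝ) (δ : ℝ) : Prop := ∀ᶠ X : ℕ in atTop,
  ∀ (m q R : ℕ) (β : ℝ), 1 ≤ m → (m : ℝ) ≤ (X : ℝ) ^ (δ / 1000) → 1 ≤ q → q ≤ QQ δ X →
  (R : ℝ) ≤ (X : ℝ) ^ (496 / 1000 : ℝ) → |β| ≤ (X : ℝ) ^ (-1 + 13 * δ) →
  ∑ r ∈ Icc 1 R, ∑ χ ∈ prm r, ((Nat.gcd r q : ℝ) / (r * Real.sqrt q)) *
    (‖Tx η (KK m X) β ⟨r, χ⟩‖ * |1 - (if r ≤ TT δ X then fj (HH δ X) β else 0)|) ≤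
    (X : ℝ) ^ (1 - δ / 35)

/-- AR.  The transform of the difference with the sieve weight is small on the arcs.

Proof.  AL minus AM: up to `X^{0.6} + X^{1-δ}` the sum is
`∑_d c_d ∑_ν ∑_{r ∣ lcm(d,q)} ∑_χ fh Tx (1 - 1_{r ≤ T} fj)`, in norm (FB) at most
`∑_{r ≤ D Q} ∑_χ ‖Tx‖ |1 - ..| ∑_d |c_d| #RT(d) 1_{r ∣ lcm} √q/φ(lcm)`; WT with `ε = δ/10^4` and LS with `R = D Q ≤ X^{0.496}`. -/
def St_Ar : Prop := ∀ η : ℝ → ℝ, IsWt η → ∀ C δ : ℝ, 0 < δ → δ ≤ 1 / 10 ^ 6 → LsH η δ →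
  ∀ᶠ X : ℕ in atTop,
  ∀ (m q : ℕ) (b : ℤ) (β : ℝ) (c : ℕ → ℝ), 1 ≤ m → (m : ℝ) ≤ (X : ℝ) ^ (δ / 1000) → 1 ≤ q →
  q ≤ QQ δ X → IsCoprime b (q : ℤ) → |β| ≤ (X : ℝ) ^ (-1 + 13 * δ) → IsC (DD X) C c →
  ‖∑ y ∈ range (KK m X + HH δ X), (((lam y * η ((y : ℝ) / KK m X) : ℝ) : ℂ) -
        MY η (TT δ X) (QQ δ X) (HH δ X) (KK m X) y) *
        ((SD (DD X) c (y : ℤ) : ℝ) : ℂ) * ee (((b : ℝ) / q + β) * y)‖ ≤ (X : ℝ) ^ (1 - δ / 40)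

/-- WN.  Another bound for the components of the model of `Λ`.

Proof.  As `MVII.thm_Wc` (2): the sum is `fj h γ ∑_n lam(n) e(γ n) B_T(n)`, `|B_T(n)| ≤ (1/φ(q)) ∑_{r ≤ T} √r r ≤ T^2 √T`
(`#prm r ≤ r`, `‖r/gs‖ = √r`). -/
def St_Wn : Prop := ∀ (T h u v q a : ℕ) (γ : ℝ), 1 ≤ h → h ≤ u → u ≤ v → 1 ≤ q → a ∈ rr q →
  ‖∑ x ∈ range (v + h), Wc T h u v q a x * ee (γ * x)‖ ≤
    fj h γ * ((T : ℝ) ^ 2 * Real.sqrt T * ∑ n ∈ Ioc u v, lam n)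

/-- OF.  Outside the arcs the model is small.

Proof.  `MVII.thm_Ex`: the transform is `∑_{q ≤ Q} ∑_{a ∈ rr q} ∑_x Wc(x) e((α + a/q) x)`.  By `MVII.thm_Sp` at most one pair has
`nd (α + a/q) < 1/(2 Q^2)`: for it `fj ≤ 1/(4 (h X^{-1+12δ})^2) ≤ X^{-4δ}` (`MVII.thm_Fj`, `h ≥ X^{1-10δ}`) and WN: at most
`X^{-4δ} X^{5δ/2} X log X`.  The others: `fj ≤ Q^4/h^2`, at most `Q^2` pairs: `≤ Q^6 h^{-2} T^3 X log X ≤ 1`. -/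
def St_Of : Prop := ∀ δ : ℝ, 0 < δ → δ ≤ 1 / 10 ^ 6 → ∀ᶠ X : ℕ in atTop, ∀ α : ℝ,
  (∀ q a : ℕ, 1 ≤ q → q ≤ QQ δ X → a ∈ rr q → (X : ℝ) ^ (-1 + 12 * δ) ≤ nd (α + a / q)) →
  ‖∑ x ∈ range (X + HH δ X), Md (TT δ X) (QQ δ X) (HH δ X) (X / 8) X x * ee (α * x)‖ ≤
    (X : ℝ) ^ (1 - δ)

/-- L2.  Mean square with an alternative at every frequency.

Proof.  `A(α) = ∑ w_k e(m α k)`, `B(α) = ∑ f_x e(α x)`; `A B = ∑_n r(n) e(α n)`, `r(n) = ∑_{m k + x = n} w_k f_x` and for `n ≤ X` this is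
the inner sum.  `∑_n r(n)^2 = ∫_0^1 |A|^2 |B|^2 ≤ ∫ (M^2 |A|^2 + E^2 |B|^2) = M^2 ∑ w^2 + E^2 ∑ f^2`.  (See `GBQ.thm_L2`.) -/
def St_L2 : Prop := ∀ (w f : ℕ → ℝ) (K X m : ℕ) (M E : ℝ), 1 ≤ m → 0 ≤ M → 0 ≤ E →
  (∀ α : ℝ, ‖∑ k ∈ range (K + 1), ((w k : ℝ) : ℂ) * ee ((m * α) * k)‖ ≤ E ∨
    ‖∑ x ∈ range (X + 1), ((f x : ℝ) : ℂ) * ee (α * x)‖ ≤ M) →
  ∑ n ∈ range (X + 1), (∑ k ∈ range (K + 1), if m * k ≤ n then w k * f (n - m * k) else 0) ^ 2 ≤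
    M ^ 2 * ∑ k ∈ range (K + 1), w k ^ 2 + E ^ 2 * ∑ x ∈ range (X + 1), f x ^ 2

/-- E1.  The first error.

Proof.  Copy `MVII.thm_E1` (`MVII.St_Su` is proved: MVII.Asm.asm_Su): `w(y) = Λ(y) η(y/K) SD(y)`, `|w| ≤ X^{ε}` (SB). -/
def St_E1 : Prop := ∀ η : ℝ → ℝ, IsWt η → ∀ C δ : ℝ, 0 < δ → δ ≤ 1 / 10 ^ 6 → ∀ᶠ X : ℕ in atTop,
  Sum4 δ X → ∀ (m : ℕ) (c : ℕ → ℝ), 1 ≤ m → (m : ℝ) ≤ (X : ℝ) ^ (δ / 1000) → IsC (DD X) C c →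
  ∀ F : Finset ℕ, (∀ n ∈ F, Blk X m n) →
  ∑ n ∈ F, (R0 η m (KK m X) (DD X) c n - R1 η δ X m (KK m X) (DD X) c n) ^ 2 ≤
    (X : ℝ) ^ (3 - 97 / 100 * δ)

/-- the conclusion of AR -/
def ArH (η : ℝ → ℝ) (C δ : ℝ) : Prop := ∀ᶠ X : ℕ in atTop,
  ∀ (m q : ℕ) (b : ℤ) (β : ℝ) (c : ℕ → ℝ), 1 ≤ m → (m : ℝ) ≤ (X : ℝ) ^ (δ / 1000) → 1 ≤ q →
  q ≤ QQ δ X → IsCoprime b (q : ℤ) → |β| ≤ (X : ℝ) ^ (-1 + 13 * δ) → IsC (DD X) C c →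
  ‖∑ y ∈ range (KK m X + HH δ X), (((lam y * η ((y : ℝ) / KK m X) : ℝ) : ℂ) -
        MY η (TT δ X) (QQ δ X) (HH δ X) (KK m X) y) *
        ((SD (DD X) c (y : ℤ) : ℝ) : ℂ) * ee (((b : ℝ) / q + β) * y)‖ ≤ (X : ℝ) ^ (1 - δ / 40)

/-- E2.  The second error.

Proof.  `K = KK m X`, `h = HH δ X`, `ε = δ/10^4`.  `R1 - R2 = ∑_{y < K + h} w(y) f(n - m y)` with
`w(y) = (Λ(y) η(y/K) - Re MY(y)) SD(y)`, `f(x) = Re Md(x)` for `(X/8, X)`; both models are real (RM, `MVII.thm_Re`); `m y ≤ n`.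
L2 with `K + h - 1`, `X + h - 1` in place of `K`, `X`, `M = X^{1-δ}`, `E = X^{1-δ/40}`: let `α` be real.  If
`nd (α + a/q) ≥ X^{-1+12δ}` for all `q ≤ Q`, `a ∈ rr q`: OF.  Otherwise `α = - a/q + z + β₀`, `z` an integer, `|β₀| < X^{-1+12δ}`, so
`e(m α y) = e((- m a/q + m β₀) y)`; `- m a/q = b/q'` in lowest terms, `q' ∣ q`, `|m β₀| ≤ X^{-1+13δ}`: `ArH`.
`∑ w^2 ≤ (K + h) X^{ε}`: `|SD| ≤ X^{ε/8}` (SB) and `|MY(y)| ≤ NB(BY y) sup|ar| ≤ 5 X^{ε/8}`, since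
`‖BY(y) - η(y/K) Bc(y)‖ ≤ X^{-9δ}` for `h ≤ y`, `y + h ≤ K + 1` (BS (5)), so `NB(BY y) ≤ 4 + T^2 X^{-9δ}` (`Sum4`), and
`BY(y) = 0` for `8 (y + h) ≤ K`; for `y` near `K` (`y + h > K + 1`) all `n` in the tent have `n > K - 2h > 7K/8`, so `BY(y) = 0`.
`∑ f^2 ≤ X^{1+ε}` as in `MVII.thm_E2`.  Total `≤ X^{3-2δ+ε} + X^{3-δ/20+ε}`. -/
def St_E2 : Prop := ∀ η : ℝ → ℝ, IsWt η → ∀ C δ : ℝ, 0 < δ → δ ≤ 1 / 10 ^ 6 → ArH η C δ →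
  ∀ᶠ X : ℕ in atTop,
  Sum4 δ X → ∀ (m : ℕ) (c : ℕ → ℝ), 1 ≤ m → (m : ℝ) ≤ (X : ℝ) ^ (δ / 1000) → IsC (DD X) C c →
  ∀ F : Finset ℕ, (∀ n ∈ F, Blk X m n) →
  ∑ n ∈ F, (R1 η δ X m (KK m X) (DD X) c n - R2 η δ X m (KK m X) (DD X) c n) ^ 2 ≤
    (X : ℝ) ^ (3 - δ / 21)

end Pool.Agent.MV5
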