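import Mathlib
import Pool.Agent.MV5.StB
import Pool.Agent.GBQ.L2

set_option autoImplicit false

/-!
# MV5 / L2

Mean square of a linear correlation, with an alternative at every frequency.
As `GBQ.thm_L2`: Parseval modulo `P > X + m K`.
-/

namespace Pool.Agent.MV5

open Finset Filter
open Pool.Agent.GBQ (ee ee_add l2_parseval)

/-- see `St_L2` in `StB.lean` -/
theorem thm_L2 : St_L2 := by
  intro w f K X m M E hm hM0 hE0 hM
  set P : ℕ := X + m * K + 1 with hPdef
  have hP : 0 < P := Nat.succ_pos _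
  have hP0 : (0 : ℝ) < P := by exact_mod_cast hP
  set H : ℕ → ℝ := fun n => ∑ k ∈ range (K + 1),
    if m * k ≤ n ∧ n - m * k ≤ X then w k * f (n - m * k) else 0 with hH
  -- the left side
  have h1 : ∑ n ∈ range (X + 1), (∑ k ∈ range (K + 1),
        if m * k ≤ n then w k * f (n - m * k) else 0) ^ 2 ≤ ∑ n ∈ range P, H n ^ 2 := by
    have h2 : ∀ n ∈ range (X + 1), (∑ k ∈ range (K + 1),
        if m * k ≤ n then w k * f (n - m * k) else 0) ^ 2 = H n ^ 2 := by
      intro n hn
      have hn' := mem_range.1 hn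
      congr 1
      refine sum_congr rfl fun k _ => ?_
      by_cases h : m * k ≤ n
      · rw [if_pos h, if_pos ⟨h, by omega⟩]
      · rw [if_neg h, if_neg fun hh => h hh.1]
    rw [sum_congr rfl h2]
    refine sum_le_sum_of_subset_of_nonneg (range_subset_range.2 ?_) fun _ _ _ => sq_nonneg _
    rw [hPdef]
    have := Nat.zero_le (m * K)
    omega
  refine h1.trans ?_
  -- the Fourier transform of `H`
  have h3 : ∀ ξ : ℕ, ∑ n ∈ range P, ((H n : ℝ) : ℂ) * ee ((ξ : ℝ) / P * n) =
      (∑ k ∈ range (K + 1), ((w k : ℝ) : ℂ) * ee ((ξ : ℝ) / P * ((m * k : ℕ) : ℝ))) *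
        ∑ x ∈ range (X + 1), ((f x : ℝ) : ℂ) * ee ((ξ : ℝ) / P * x) := by
    intro ξ
    have h4 : ∀ n ∈ range P, ((H n : ℝ) : ℂ) * ee ((ξ : ℝ) / P * n) =
        ∑ k ∈ range (K + 1), if m * k ≤ n ∧ n - m * k ≤ X then
          ((w k : ℝ) : ℂ) * ((f (n - m * k) : ℝ) : ℂ) * ee ((ξ : ℝ) / P * n) else 0 := by
      intro n _
      rw [hH]
      push_cast
      rw [sum_mul]
      refine sum_congr rfl fun k _ => ?_
      split_ifs
      · push_cast
        ring
      · push_cast
        ring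
    rw [sum_congr rfl h4, sum_comm, sum_mul]
    refine sum_congr rfl fun k hk => ?_
    have hk' := mem_range.1 hk
    rw [← sum_filter, mul_sum]
    symm
    refine sum_bij (fun x _ => m * k + x) ?_ ?_ ?_ ?_
    · intro x hx
      have hx' := mem_range.1 hx
      rw [mem_filter, mem_range, hPdef]
      have hmk : m * k ≤ m * K := Nat.mul_le_mul_left m (by omega)
      refine ⟨by omega, by omega, by omega⟩
    · intro x _ y _ hxy
      omega
    · intro n hn
      rw [mem_filter] at hn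
      refine ⟨n - m * k, mem_range.2 (by omega), ?_⟩
      omega
    · intro x _
      have h5 : m * k + x - m * k = x := by omega
      rw [h5]
      have h6 : (ξ : ℝ) / P * ((m * k + x : ℕ) : ℝ) =
          (ξ : ℝ) / P * ((m * k : ℕ) : ℝ) + (ξ : ℝ) / P * x := by
        push_cast
        ring
      rw [h6, ee_add]
      ring
  have h7 := l2_parseval hP (range P) (fun n => n) (fun i hi => mem_range.1 hi)
    (fun i _ j _ h => h) (fun n => ((H n : ℝ) : ℂ))
  have h8 := l2_parseval hP (range (K + 1)) (fun k => m * k) (fun k hk => by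
      have hk' := mem_range.1 hk
      have hmk : m * k ≤ m * K := Nat.mul_le_mul_left m (by omega)
      rw [hPdef]
      omega) (fun i _ j _ h => Nat.eq_of_mul_eq_mul_left (by omega) h)
    (fun k => ((w k : ℝ) : ℂ))
  have h8' := l2_parseval hP (range (X + 1)) (fun x => x) (fun k hk => by
      have hk' := mem_range.1 hk
      rw [hPdef]
      omega) (fun i _ j _ h => h) (fun x => ((f x : ℝ) : ℂ))
  have h9 : (P : ℝ) * ∑ n ∈ range P, H n ^ 2 ≤
      P * (M ^ 2 * ∑ k ∈ range (K + 1), w k ^ 2 + E ^ 2 * ∑ x ∈ range (X + 1), f x ^ 2) := by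
    have e1 : ∑ n ∈ range P, H n ^ 2 = ∑ n ∈ range P, ‖((H n : ℝ) : ℂ)‖ ^ 2 := by
      refine sum_congr rfl fun n _ => ?_
      rw [Complex.norm_real, Real.norm_eq_abs, sq_abs]
    have e2 : ∑ k ∈ range (K + 1), w k ^ 2 = ∑ k ∈ range (K + 1), ‖((w k : ℝ) : ℂ)‖ ^ 2 := by
      refine sum_congr rfl fun n _ => ?_
      rw [Complex.norm_real, Real.norm_eq_abs, sq_abs]
    have e3 : ∑ k ∈ range (X + 1), f k ^ 2 = ∑ k ∈ range (X + 1), ‖((f k : ℝ) : ℂ)‖ ^ 2 := by
      refine sum_congr rfl fun n _ => ?_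
      rw [Complex.norm_real, Real.norm_eq_abs, sq_abs]
    rw [e1, ← h7, mul_add, mul_left_comm, e2, ← h8, mul_left_comm (P : ℝ) (E ^ 2), e3, ← h8',
      mul_sum, mul_sum, ← sum_add_distrib]
    refine sum_le_sum fun ξ _ => ?_
    rw [h3 ξ, norm_mul, mul_pow]
    rcases hM ((ξ : ℝ) / P) with h10 | h10
    · have h12 : ‖∑ k ∈ range (K + 1), ((w k : ℝ) : ℂ) *
          ee ((ξ : ℝ) / P * ((m * k : ℕ) : ℝ))‖ ≤ E := by
        have e4 : ∑ k ∈ range (K + 1), ((w k : ℝ) : ℂ) * ee ((ξ : ℝ) / P * ((m * k : ℕ) : ℝ)) =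
            ∑ k ∈ range (K + 1), ((w k : ℝ) : ℂ) * ee ((m * ((ξ : ℝ) / P)) * k) := by
          refine sum_congr rfl fun k _ => ?_
          congr 2
          push_cast
          ring
        rw [e4]
        exact h10
      have h11 := pow_le_pow_left₀ (norm_nonneg _) h12 2
      refine (mul_le_mul_of_nonneg_right h11 (sq_nonneg _)).trans ?_
      exact le_add_of_nonneg_left (mul_nonneg (sq_nonneg _) (sq_nonneg _))
    · have h11 : ‖∑ x ∈ range (X + 1), ((f x : ℝ) : ℂ) * ee ((ξ : ℝ) / P * x)‖ ^ 2 ≤ M ^ 2 :=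
        pow_le_pow_left₀ (norm_nonneg _) h10 2
      rw [mul_comm]
      refine (mul_le_mul_of_nonneg_right h11 (sq_nonneg _)).trans ?_
      exact le_add_of_nonneg_right (mul_nonneg (sq_nonneg _) (sq_nonneg _))
  exact le_of_mul_le_mul_left h9 hP0

end Pool.Agent.MV5
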