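import Pool.Agent.MV5.StC
import Pool.Agent.MVII.Lo
import Pool.Agent.MVII.Sw

set_option autoImplicit false

/-!
# MV5, module La: local means
-/

namespace Pool.Agent.MV5

open Finset Filter
open Pool.Agent.MVII (cp mn Per)

theorem la_dvd_add {p : ℕ} {a b : ℤ} (h : (p : ℤ) ∣ a - b) : ((p : ℤ) ∣ a) ↔ (p : ℤ) ∣ b := by
  constructor
  · intro h1
    have h2 := dvd_sub h1 h
    rwa [sub_sub_cancel] at h2
  · intro h1
    have h2 := dvd_add h h1
    rwa [sub_add_cancel] at h2

theorem la_cp_congr {p : ℕ} {a b : ℤ} (h : (p : ℤ) ∣ a - b) : cp p a = cp p b := by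
  unfold cp
  simp only [la_dvd_add h]

theorem la_cp_abs {p : ℕ} (hp : p.Prime) (x : ℤ) : |cp p x / ((p : ℝ) - 1)| ≤ 1 := by
  have h1 : (2 : ℝ) ≤ p := by exact_mod_cast hp.two_le
  rw [abs_div, abs_of_nonneg (by linarith : (0 : ℝ) ≤ (p : ℝ) - 1), div_le_one (by linarith)]
  unfold cp
  split_ifs
  · rw [abs_of_nonneg (by linarith)]
  · rw [abs_neg, abs_one]
    linarith

theorem la_cp_one {p : ℕ} (hp : p.Prime) {x : ℤ} (hx : ¬ (p : ℤ) ∣ x) :
    |cp p x / ((p : ℝ) - 1)| = 1 / ((p : ℝ) - 1) := by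
  have h1 : (2 : ℝ) ≤ p := by exact_mod_cast hp.two_le
  rw [abs_div, abs_of_nonneg (by linarith : (0 : ℝ) ≤ (p : ℝ) - 1)]
  unfold cp
  rw [if_neg hx, abs_neg, abs_one]

/-- the mean of a real function supported on the roots -/
theorem la_mean {p : ℕ} (hp : p.Prime) (f : ℤ → ℝ) (B : ℝ)
    (h0 : ∀ y : ℤ, ¬ (p : ℤ) ∣ y ^ 2 - 2 → f y = 0)
    (h1 : ∀ y : ℤ, (p : ℤ) ∣ y ^ 2 - 2 → |f y| ≤ B) (hB : 0 ≤ B) :
    ‖mn p (fun y => ((f y : ℝ) : ℂ))‖ ≤ 2 / p * B := by
  classical
  have hp0 : (0 : ℝ) < p := by exact_mod_cast hp.pos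
  unfold mn
  rw [← Complex.ofReal_sum, norm_div, Complex.norm_natCast, Complex.norm_real, Real.norm_eq_abs,
    div_le_iff₀ hp0]
  have h2 : ∑ y ∈ range p, f (y : ℤ) =
      ∑ y ∈ (range p).filter (fun ν : ℕ => (p : ℤ) ∣ (ν : ℤ) ^ 2 - 2), f (y : ℤ) := by
    rw [Finset.sum_filter]
    refine Finset.sum_congr rfl fun y _ => ?_
    split_ifs with h
    · rfl
    · exact h0 y h
  rw [h2]
  refine (Finset.abs_sum_le_sum_abs _ _).trans ?_
  have h3 := Finset.sum_le_card_nsmul
    ((range p).filter (fun ν : ℕ => (p : ℤ) ∣ (ν : ℤ) ^ 2 - 2)) (fun y : ℕ => |f (y : ℤ)|) B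
    (fun y hy => h1 y (Finset.mem_filter.1 hy).2)
  refine h3.trans ?_
  rw [nsmul_eq_mul]
  have h4 : (((range p).filter (fun ν : ℕ => (p : ℤ) ∣ (ν : ℤ) ^ 2 - 2)).card : ℝ) ≤ 2 := by
    exact_mod_cast Pool.Agent.MVII.sw_roots hp
  calc _ ≤ 2 * B := mul_le_mul_of_nonneg_right h4 hB
    _ = _ := by field_simp

theorem la_root {p : ℕ} (hp : p.Prime) (h2 : p ≠ 2) {y : ℤ} (hy : (p : ℤ) ∣ y ^ 2 - 2) :
    ¬ (p : ℤ) ∣ y := by
  intro h
  have h3 : (p : ℤ) ∣ y ^ 2 := dvd_pow h two_ne_zero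
  have h4 : (p : ℤ) ∣ 2 := by
    have h5 := dvd_sub h3 hy
    rwa [sub_sub_cancel] at h5
  have h5 : p ∣ 2 := by exact_mod_cast h4
  exact h2 ((Nat.prime_dvd_prime_iff_eq hp Nat.prime_two).1 h5)

theorem la_root2 {p : ℕ} (hp : p.Prime) {m n : ℕ} {y : ℤ} (hy : (p : ℤ) ∣ y ^ 2 - 2)
    (hn : ¬ (p : ℤ) ∣ (n : ℤ) ^ 2 - 2 * (m : ℤ) ^ 2) : ¬ (p : ℤ) ∣ (n : ℤ) - m * y := by
  have _ := hp
  intro h
  apply hn
  have h1 : (n : ℤ) ^ 2 - 2 * (m : ℤ) ^ 2 =
      ((n : ℤ) - m * y) * ((n : ℤ) + m * y) + (m : ℤ) ^ 2 * (y ^ 2 - 2) := by ring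
  rw [h1]
  exact dvd_add (Dvd.dvd.mul_right h _) (Dvd.dvd.mul_left hy _)

theorem thm_La : St_La := by
  intro m n p u v w hp
  have hp2 : (2 : ℝ) ≤ p := by exact_mod_cast hp.two_le
  have hp1 : (0 : ℝ) < (p : ℝ) - 1 := by linarith
  have hp0 : (0 : ℝ) < p := by linarith
  have hper : ∀ y : ℤ, lf m n p u v w (y + p) = lf m n p u v w y := by
    intro y
    have e1 : ((p : ℤ) ∣ (y + p) ^ 2 - 2) ↔ (p : ℤ) ∣ y ^ 2 - 2 := by
      refine la_dvd_add ⟨2 * y + p, by ring⟩
    have e2 : cp p ((n : ℤ) - m * (y + p)) = cp p ((n : ℤ) - m * y) :=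
      la_cp_congr ⟨-m, by ring⟩
    have e3 : cp p (y + p) = cp p y := la_cp_congr ⟨1, by ring⟩
    unfold lf
    rw [e2, e3]
    simp only [e1]
  have habs : ∀ y : ℤ, |lf m n p u v w y| ≤ 1 := by
    intro y
    unfold lf
    rw [abs_mul, abs_mul]
    have h1 : |(if u = true → (p : ℤ) ∣ y ^ 2 - 2 then (1 : ℝ) else 0)| ≤ 1 := by
      split_ifs
      · rw [abs_one]
      · rw [abs_zero]
        exact zero_le_one
    have h2 : |(if v = true then cp p ((n : ℤ) - m * y) / ((p : ℝ) - 1) else 1)| ≤ 1 := by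
      split_ifs
      · exact la_cp_abs hp _
      · rw [abs_one]
    have h3 : |(if w = true then cp p y / ((p : ℝ) - 1) else 1)| ≤ 1 := by
      split_ifs
      · exact la_cp_abs hp _
      · rw [abs_one]
    have h4 := mul_le_one₀ h1 (abs_nonneg _) h2
    exact mul_le_one₀ h4 (abs_nonneg _) h3
  have hla : 0 ≤ la m n p u v w := by
    cases u <;> cases v <;> cases w <;> unfold la <;> try split_ifs
    all_goals positivity
  refine ⟨fun y => congrArg (fun z : ℝ => (z : ℂ)) (hper y), habs, hla, fun hm hu => ?_⟩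
  obtain ⟨l1, l2, l3⟩ := Pool.Agent.MVII.thm_Lo p m (n : ℤ) hp hm
  have hscal : ∀ (g : ℤ → ℝ) (c : ℝ), mn p (fun y => ((g y / c : ℝ) : ℂ)) =
      mn p (fun y => ((g y : ℝ) : ℂ)) / (c : ℂ) := by
    intro g c
    unfold mn
    have h1 : ∑ y ∈ range p, ((g (y : ℤ) / c : ℝ) : ℂ) =
        (∑ y ∈ range p, ((g (y : ℤ) : ℝ) : ℂ)) / (c : ℂ) := by
      rw [Finset.sum_div]
      refine Finset.sum_congr rfl fun y _ => ?_
      push_cast
      rfl
    rw [h1]
    ring
  cases u
  · -- no condition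
    have hl : ∀ y : ℤ, lf m n p false v w y =
        (if v = true then cp p ((n : ℤ) - m * y) / ((p : ℝ) - 1) else 1) *
          (if w = true then cp p y / ((p : ℝ) - 1) else 1) := by
      intro y
      unfold lf
      rw [if_pos (fun h => absurd h Bool.false_ne_true), one_mul]
    cases v <;> cases w
    · have e : (fun y : ℤ => ((lf m n p false false false y : ℝ) : ℂ)) = fun _ => 1 := by
        funext y
        rw [hl]
        simp
      rw [e]
      unfold mn la
      rw [Finset.sum_const, Finset.card_range, nsmul_eq_mul, mul_one, div_self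
        (by exact_mod_cast hp0.ne'), norm_one]
    · have e : (fun y : ℤ => ((lf m n p false false true y : ℝ) : ℂ)) =
          fun y => ((cp p y / ((p : ℝ) - 1) : ℝ) : ℂ) := by
        funext y
        rw [hl]
        simp
      rw [e, hscal (fun y => cp p y), l1, zero_div, norm_zero]
      exact le_rfl
    · have e : (fun y : ℤ => ((lf m n p false true false y : ℝ) : ℂ)) =
          fun y => ((cp p ((n : ℤ) - m * y) / ((p : ℝ) - 1) : ℝ) : ℂ) := by
        funext y
        rw [hl]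
        simp
      rw [e, hscal (fun y => cp p ((n : ℤ) - m * y)), l2, zero_div, norm_zero]
      exact le_rfl
    · have e : (fun y : ℤ => ((lf m n p false true true y : ℝ) : ℂ)) =
          fun y => ((cp p ((n : ℤ) - m * y) * cp p y / ((p : ℝ) - 1) ^ 2 : ℝ) : ℂ) := by
        funext y
        rw [hl, if_pos rfl, if_pos rfl]
        congr 1
        field_simp
      rw [e, hscal (fun y => cp p ((n : ℤ) - m * y) * cp p y), l3, norm_div, Complex.norm_real,
        Complex.norm_real, Real.norm_eq_abs, Real.norm_eq_abs, abs_of_nonneg (sq_nonneg ((p : ℝ) - 1))]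
      unfold la cp
      have e2 : ((p : ℤ) ∣ (n : ℤ)) ↔ p ∣ n := Int.natCast_dvd_natCast
      simp only [e2]
      split_ifs
      · rw [abs_of_nonneg hp1.le, sq, ← div_div, div_self hp1.ne']
      · rw [abs_neg, abs_one]
  · -- with the condition
    have h2 : p ≠ 2 := hu rfl
    have h0 : ∀ y : ℤ, ¬ (p : ℤ) ∣ y ^ 2 - 2 → lf m n p true v w y = 0 := by
      intro y hy
      unfold lf
      rw [if_neg (fun h => hy (h rfl)), zero_mul, zero_mul]
    have hl : ∀ y : ℤ, (p : ℤ) ∣ y ^ 2 - 2 → lf m n p true v w y =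
        (if v = true then cp p ((n : ℤ) - m * y) / ((p : ℝ) - 1) else 1) *
          (if w = true then cp p y / ((p : ℝ) - 1) else 1) := by
      intro y hy
      unfold lf
      rw [if_pos (fun _ => hy), one_mul]
    have hv : ∀ y : ℤ, |(if v = true then cp p ((n : ℤ) - m * y) / ((p : ℝ) - 1) else 1)| ≤ 1 := by
      intro y
      split_ifs
      · exact la_cp_abs hp _
      · rw [abs_one]
    cases w
    · cases v
      · have h3 := la_mean hp (fun y => lf m n p true false false y) 1 h0 (fun y _ => by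
          exact habs y) zero_le_one
        refine h3.trans (le_of_eq ?_)
        unfold la
        rw [mul_one]
      · unfold la
        refine la_mean hp (fun y => lf m n p true true false y) _ h0 (fun y hy => ?_) ?_
        · rw [hl y hy, if_pos rfl, if_neg Bool.false_ne_true, mul_one]
          split_ifs with h4
          · exact la_cp_abs hp _
          · exact (la_cp_one hp (la_root2 hp hy h4)).le
        · split_ifs
          · exact zero_le_one
          · positivity
    · have h3 := la_mean hp (fun y => lf m n p true v true y) (1 / ((p : ℝ) - 1)) h0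
        (fun y hy => by
          show |lf m n p true v true y| ≤ _
          rw [hl y hy, if_pos (rfl : true = true), abs_mul, la_cp_one hp (la_root hp h2 hy)]
          calc _ ≤ 1 * (1 / ((p : ℝ) - 1)) := mul_le_mul_of_nonneg_right (hv y) (by positivity)
            _ = _ := one_mul _) (by positivity)
      refine h3.trans (le_of_eq ?_)
      have e : la m n p true v true = 2 / (p * ((p : ℝ) - 1)) := by
        cases v <;> rfl
      rw [e]
      field_simp

end Pool.Agent.MV5
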