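import Pool.Agent.MV5.StA

/-!
MV5, module LD (helper71): large conductors with weights.
-/

set_option autoImplicit false

namespace Pool.Agent.MV5

open Finset Filter
open Pool.Agent.GBQ (ee lam nd Admissible)
open Pool.Agent.MVX (Chr tent Bm Um prm Win GP)
open Pool.Agent.MT (IsWt)

/-- covering by dyadic blocks -/
theorem ld_cover (f : ℕ → ℝ) (hf : ∀ r, 0 ≤ f r) (R₁ R : ℕ) (h1 : 1 ≤ R₁) :
    ∑ r ∈ Ioc R₁ R, f r ≤ ∑ i ∈ (range (Nat.log 2 R + 1)).filter (fun i => R₁ * 2 ^ i ≤ R),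
      ∑ r ∈ Ioc (R₁ * 2 ^ i) (2 * (R₁ * 2 ^ i)), f r := by
  classical
  have hA : ∀ r ∈ Ioc R₁ R, f r ≤
      ∑ i ∈ (range (Nat.log 2 R + 1)).filter (fun i => R₁ * 2 ^ i ≤ R),
        (if r ∈ Ioc (R₁ * 2 ^ i) (2 * (R₁ * 2 ^ i)) then f r else 0) := by
    intro r hr
    rw [mem_Ioc] at hr
    have hq : (r - 1) / R₁ ≠ 0 := by
      rw [Nat.div_ne_zero_iff]
      omega
    have ha : 2 ^ Nat.log 2 ((r - 1) / R₁) ≤ (r - 1) / R₁ := Nat.pow_log_le_self 2 hq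
    have hb : (r - 1) / R₁ < 2 ^ (Nat.log 2 ((r - 1) / R₁) + 1) :=
      Nat.lt_pow_succ_log_self (by norm_num) _
    set i := Nat.log 2 ((r - 1) / R₁) with hi
    have ha' : R₁ * 2 ^ i ≤ r - 1 := by
      have h := (Nat.le_div_iff_mul_le (by omega : 0 < R₁)).1 ha
      rwa [mul_comm] at h
    have hb' : r - 1 < R₁ * 2 ^ (i + 1) := by
      have h := (Nat.div_lt_iff_lt_mul (by omega : 0 < R₁)).1 hb
      rwa [mul_comm] at h
    have hpow : R₁ * 2 ^ (i + 1) = 2 * (R₁ * 2 ^ i) := by ring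
    have hiF : i ∈ (range (Nat.log 2 R + 1)).filter (fun i => R₁ * 2 ^ i ≤ R) := by
      rw [mem_filter, mem_range]
      refine ⟨Nat.lt_succ_of_le (Nat.le_log_of_pow_le (by norm_num) ?_), by omega⟩
      calc 2 ^ i = 1 * 2 ^ i := by ring
        _ ≤ R₁ * 2 ^ i := Nat.mul_le_mul_right _ h1
        _ ≤ R := by omega
    have hmem : r ∈ Ioc (R₁ * 2 ^ i) (2 * (R₁ * 2 ^ i)) := by
      rw [mem_Ioc]
      omega
    calc f r = (if r ∈ Ioc (R₁ * 2 ^ i) (2 * (R₁ * 2 ^ i)) then f r else 0) := by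
          rw [if_pos hmem]
      _ ≤ _ := single_le_sum (f := fun i =>
          (if r ∈ Ioc (R₁ * 2 ^ i) (2 * (R₁ * 2 ^ i)) then f r else 0)) (fun j _ => by
            show (0 : ℝ) ≤ if r ∈ Ioc (R₁ * 2 ^ j) (2 * (R₁ * 2 ^ j)) then f r else 0
            split_ifs
            · exact hf r
            · exact le_rfl) hiF
  calc ∑ r ∈ Ioc R₁ R, f r ≤ ∑ r ∈ Ioc R₁ R,
        ∑ i ∈ (range (Nat.log 2 R + 1)).filter (fun i => R₁ * 2 ^ i ≤ R),
          (if r ∈ Ioc (R₁ * 2 ^ i) (2 * (R₁ * 2 ^ i)) then f r else 0) := sum_le_sum hA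
    _ = ∑ i ∈ (range (Nat.log 2 R + 1)).filter (fun i => R₁ * 2 ^ i ≤ R),
          ∑ r ∈ Ioc R₁ R, (if r ∈ Ioc (R₁ * 2 ^ i) (2 * (R₁ * 2 ^ i)) then f r else 0) :=
        sum_comm
    _ ≤ _ := by
        refine sum_le_sum fun i _ => ?_
        rw [← sum_filter]
        refine sum_le_sum_of_subset_of_nonneg (fun r hr => (mem_filter.1 hr).2)
          fun r _ _ => hf r

/-- the weights -/
theorem ld_weight (r q R' : ℕ) (hq : 1 ≤ q) (hR : 1 ≤ R') (hr : R' < r) :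
    0 ≤ (Nat.gcd r q : ℝ) / (r * Real.sqrt q) ∧
    (Nat.gcd r q : ℝ) / (r * Real.sqrt q) ≤ 1 / Real.sqrt R' ∧
    (Nat.gcd r q : ℝ) / (r * Real.sqrt q) ≤ Real.sqrt q / R' := by
  have hr0 : (0 : ℝ) < r := by exact_mod_cast (by omega : 0 < r)
  have hq0 : (0 : ℝ) < q := by exact_mod_cast hq
  have hR0 : (0 : ℝ) < R' := by exact_mod_cast hR
  have hRr : (R' : ℝ) ≤ r := by exact_mod_cast hr.le
  have hsq : 0 < Real.sqrt q := Real.sqrt_pos.2 hq0
  have hsr : 0 < Real.sqrt r := Real.sqrt_pos.2 hr0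
  have hsR : 0 < Real.sqrt R' := Real.sqrt_pos.2 hR0
  have hg1 : (Nat.gcd r q : ℝ) ≤ q := by exact_mod_cast Nat.gcd_le_right r (by omega)
  have hg2 : (Nat.gcd r q : ℝ) ≤ r := by exact_mod_cast Nat.gcd_le_left q (by omega)
  have hg0 : (0 : ℝ) ≤ Nat.gcd r q := Nat.cast_nonneg _
  have hg3 : (Nat.gcd r q : ℝ) ≤ Real.sqrt r * Real.sqrt q := by
    rw [← Real.sqrt_mul hr0.le]
    refine Real.le_sqrt_of_sq_le ?_
    rw [sq]
    exact mul_le_mul hg2 hg1 hg0 hr0.le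
  refine ⟨by positivity, ?_, ?_⟩
  · rw [div_le_div_iff₀ (by positivity) hsR, one_mul]
    calc (Nat.gcd r q : ℝ) * Real.sqrt R' ≤ (Real.sqrt r * Real.sqrt q) * Real.sqrt r :=
          mul_le_mul hg3 (Real.sqrt_le_sqrt hRr) hsR.le (by positivity)
      _ = (Real.sqrt r * Real.sqrt r) * Real.sqrt q := by ring
      _ = r * Real.sqrt q := by rw [Real.mul_self_sqrt hr0.le]
  · rw [div_le_div_iff₀ (by positivity) hR0]
    calc (Nat.gcd r q : ℝ) * R' ≤ q * r := mul_le_mul hg1 hRr hR0.le hq0.le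
      _ = Real.sqrt q * (r * Real.sqrt q) := by
        rw [mul_left_comm, Real.mul_self_sqrt hq0.le, mul_comm]

/-- the number of blocks -/
theorem ld_blocks (N R R₁ : ℕ) (hN : 3 ≤ N) (hR : R ≤ N) :
    (((range (Nat.log 2 R + 1)).filter (fun i => R₁ * 2 ^ i ≤ R)).card : ℝ) ≤
      3 * Real.log N := by
  have h1 : ((range (Nat.log 2 R + 1)).filter (fun i => R₁ * 2 ^ i ≤ R)).card ≤
      Nat.log 2 N + 1 := by
    refine (card_filter_le _ _).trans ?_
    rw [card_range]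
    exact Nat.succ_le_succ (Nat.log_mono_right hR)
  have hN0 : (0 : ℝ) < N := by exact_mod_cast (by omega : 0 < N)
  have hN3 : (3 : ℝ) ≤ N := by exact_mod_cast hN
  have h2 : (1 : ℝ) ≤ Real.log N := by
    rw [Real.le_log_iff_exp_le hN0]
    have := Real.exp_one_lt_d9
    linarith
  have h3 : ((Nat.log 2 N : ℕ) : ℝ) * Real.log 2 ≤ Real.log N := by
    have h4 : (2 : ℝ) ^ (Nat.log 2 N) ≤ N := by
      exact_mod_cast Nat.pow_log_le_self 2 (by omega : N ≠ 0)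
    have h5 := Real.log_le_log (by positivity) h4
    rwa [Real.log_pow] at h5
  have h6 := Real.log_two_gt_d9
  have h7 : ((Nat.log 2 N : ℕ) : ℝ) ≤ 2 * Real.log N := by
    have h8 : (0 : ℝ) ≤ (Nat.log 2 N : ℕ) := Nat.cast_nonneg _
    nlinarith
  calc (((range (Nat.log 2 R + 1)).filter (fun i => R₁ * 2 ^ i ≤ R)).card : ℝ) ≤
        ((Nat.log 2 N + 1 : ℕ) : ℝ) := by exact_mod_cast h1
    _ = (Nat.log 2 N : ℕ) + 1 := by push_cast; ring
    _ ≤ 3 * Real.log N := by linarith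

theorem thm_Ld (h : St_Lk) : St_Ld := by
  intro η hη
  obtain ⟨C, hC⟩ := h η hη
  refine ⟨3 * C + 1, fun N R₁ R q U β hN hR₁ hR hq hU hUN => ?_⟩
  have hN0 : (0 : ℝ) < N := by exact_mod_cast (by omega : 0 < N)
  have hN3 : (3 : ℝ) ≤ N := by exact_mod_cast hN
  have hL : (1 : ℝ) ≤ Real.log N := by
    rw [Real.le_log_iff_exp_le hN0]
    have := Real.exp_one_lt_d9
    linarith
  have hU0 : (0 : ℝ) < U := by exact_mod_cast hU
  set W : ℝ := (N / Real.sqrt R₁ + Real.sqrt q * (N / Real.sqrt U + R * Real.sqrt N +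
    R ^ 2 * U ^ 2)) with hW
  have hW0 : 0 ≤ W := by positivity
  set A : ℝ := C * (1 + |β| * N) ^ 2 * Real.log N ^ C with hA
  have hA0 : 0 ≤ A := by positivity
  set f : ℕ → ℝ := fun r => ∑ χ ∈ prm r, ((Nat.gcd r q : ℝ) / (r * Real.sqrt q)) *
    ‖Tx η N β ⟨r, χ⟩‖ with hf
  have hf0 : ∀ r, 0 ≤ f r := fun r => sum_nonneg fun χ _ => by positivity
  have hblock : ∀ R' : ℕ, R₁ ≤ R' → R' ≤ R → ∑ r ∈ Ioc R' (2 * R'), f r ≤ A * W := by
    intro R' h1 h2
    have hR'1 : 1 ≤ R' := hR₁.trans h1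
    have hR'0 : (0 : ℝ) < R' := by exact_mod_cast hR'1
    have hR1' : (0 : ℝ) < R₁ := by exact_mod_cast hR₁
    have h1' : (R₁ : ℝ) ≤ R' := by exact_mod_cast h1
    have h2' : (R' : ℝ) ≤ R := by exact_mod_cast h2
    have hsR' : 0 < Real.sqrt R' := Real.sqrt_pos.2 hR'0
    set S : ℝ := ∑ r ∈ Ioc R' (2 * R'), ∑ χ ∈ prm r, ‖Tx η N β ⟨r, χ⟩‖ with hS
    have hS0 : 0 ≤ S := sum_nonneg fun r _ => sum_nonneg fun χ _ => norm_nonneg _
    have hSle : S ≤ A * (N + R' * N / Real.sqrt U + R' ^ 2 * Real.sqrt N + R' ^ 3 * U ^ 2) :=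
      hC N R' U β hN hR'1 hU hUN
    set w : ℝ := min (1 / Real.sqrt R') (Real.sqrt q / R') with hw
    have hw0 : 0 ≤ w := le_min (by positivity) (by positivity)
    have hfS : ∑ r ∈ Ioc R' (2 * R'), f r ≤ w * S := by
      rw [hS, mul_sum]
      refine sum_le_sum fun r hr => ?_
      rw [hf, mul_sum]
      refine sum_le_sum fun χ _ => ?_
      obtain ⟨-, h3, h4⟩ := ld_weight r q R' hq hR'1 (mem_Ioc.1 hr).1
      exact mul_le_mul_of_nonneg_right (le_min h3 h4) (norm_nonneg _)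
    have hwN : w * N ≤ N / Real.sqrt R₁ := by
      calc w * N ≤ 1 / Real.sqrt R' * N := mul_le_mul_of_nonneg_right (min_le_left _ _) hN0.le
        _ = N / Real.sqrt R' := by ring
        _ ≤ N / Real.sqrt R₁ :=
          div_le_div_of_nonneg_left hN0.le (Real.sqrt_pos.2 hR1') (Real.sqrt_le_sqrt h1')
    have hrest : w * (R' * N / Real.sqrt U + R' ^ 2 * Real.sqrt N + R' ^ 3 * U ^ 2) ≤
        Real.sqrt q * (N / Real.sqrt U + R * Real.sqrt N + R ^ 2 * U ^ 2) := by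
      calc w * (R' * N / Real.sqrt U + R' ^ 2 * Real.sqrt N + R' ^ 3 * U ^ 2) ≤
          Real.sqrt q / R' * (R' * N / Real.sqrt U + R' ^ 2 * Real.sqrt N + R' ^ 3 * U ^ 2) :=
            mul_le_mul_of_nonneg_right (min_le_right _ _) (by positivity)
        _ = Real.sqrt q * (N / Real.sqrt U + R' * Real.sqrt N + R' ^ 2 * U ^ 2) := by
            field_simp
        _ ≤ Real.sqrt q * (N / Real.sqrt U + R * Real.sqrt N + R ^ 2 * U ^ 2) := by
            gcongr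
    calc ∑ r ∈ Ioc R' (2 * R'), f r ≤ w * S := hfS
      _ ≤ w * (A * (N + R' * N / Real.sqrt U + R' ^ 2 * Real.sqrt N + R' ^ 3 * U ^ 2)) :=
          mul_le_mul_of_nonneg_left hSle hw0
      _ = A * (w * N + w * (R' * N / Real.sqrt U + R' ^ 2 * Real.sqrt N + R' ^ 3 * U ^ 2)) := by
          ring
      _ ≤ A * W := mul_le_mul_of_nonneg_left (add_le_add hwN hrest) hA0
  have hmain : ∑ r ∈ Ioc R₁ R, f r ≤ (3 * Real.log N) * (A * W) := by
    refine (ld_cover f hf0 R₁ R hR₁).trans ?_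
    calc ∑ i ∈ (range (Nat.log 2 R + 1)).filter (fun i => R₁ * 2 ^ i ≤ R),
          ∑ r ∈ Ioc (R₁ * 2 ^ i) (2 * (R₁ * 2 ^ i)), f r ≤
          ∑ i ∈ (range (Nat.log 2 R + 1)).filter (fun i => R₁ * 2 ^ i ≤ R), A * W := by
          refine sum_le_sum fun i hi => hblock _ ?_ (mem_filter.1 hi).2
          exact Nat.le_mul_of_pos_right _ (by positivity)
      _ = (((range (Nat.log 2 R + 1)).filter (fun i => R₁ * 2 ^ i ≤ R)).card : ℝ) * (A * W) := by
          rw [sum_const, nsmul_eq_mul]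
      _ ≤ (3 * Real.log N) * (A * W) :=
          mul_le_mul_of_nonneg_right (ld_blocks N R R₁ hN hR) (mul_nonneg hA0 hW0)
  refine hmain.trans ?_
  have hlog : Real.log N ^ C * Real.log N ≤ Real.log N ^ (3 * C + 1) := by
    rw [← pow_succ]
    exact pow_le_pow_right₀ hL (by omega)
  have hCc : (3 : ℝ) * C ≤ ((3 * C + 1 : ℕ) : ℝ) := by
    push_cast
    linarith
  calc (3 * Real.log N) * (A * W) = (3 * C) * (1 + |β| * N) ^ 2 *
        (Real.log N ^ C * Real.log N) * W := by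
        rw [hA]
        ring
    _ ≤ ((3 * C + 1 : ℕ) : ℝ) * (1 + |β| * N) ^ 2 * Real.log N ^ (3 * C + 1) * W := by
        gcongr

end Pool.Agent.MV5
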