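import Pool.Agent.MV5.StA
import Pool.Agent.MT.LargeCond
import Pool.Agent.BVX.LargeCond2

set_option autoImplicit false

/-!
# MV5 / Lk: large conductors, with an exponential

`∑_{R < q ≤ 2R} ∑_{χ ∈ prm q} |∑ Λ(n) χ(n) η(n/N) e(β n)|
  ≤ C (1 + |β| N)^2 (log N)^C (N + R N U^{-1/2} + R^2 N^{1/2} + R^3 U^2)` for all `1 ≤ U ≤ N`, `1 ≤ R`.

Proof.  Vaughan with `U = V`, `F(n) = χ(n) (η(n/N) e(β n))`; `St_Ti` for the sums of the first type, dyadic blocks and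
`St_Tt` for the last one.
-/

namespace Pool.Agent.MV5

open Finset Pool.Agent.MT
open Pool.Agent.GBQ (ee lam)
open Pool.Agent.MVX (Chr prm mem_prm)

/-- the twisted weight -/
noncomputable def lkF (η : ℝ → ℝ) (N : ℕ) (β : ℝ) {q : ℕ} (χ : DirichletCharacter ℂ q) (n : ℕ) : ℂ :=
  χ (n : ZMod q) * (((η ((n : ℝ) / N) : ℝ) : ℂ) * ee (β * n))

lemma lk_psi (η : ℝ → ℝ) (N : ℕ) (β : ℝ) {q : ℕ} (χ : DirichletCharacter ℂ q) :
    Tx η N β ⟨q, χ⟩ = ∑ n ∈ Icc 1 N, ((ArithmeticFunction.vonMangoldt n : ℝ) : ℂ) * lkF η N β χ n :=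
  rfl

lemma lk_ee (x : ℝ) : ‖ee x‖ = 1 := by
  unfold ee
  exact Complex.norm_exp_ofReal_mul_I _

lemma lk_F {η : ℝ → ℝ} (hη : IsWt η) (N : ℕ) (β : ℝ) {q : ℕ} (χ : DirichletCharacter ℂ q) (n : ℕ) :
    ‖lkF η N β χ n‖ ≤ 1 := by
  unfold lkF
  rw [norm_mul, norm_mul, lk_ee, mul_one]
  exact mul_le_one₀ (lc_chi χ _) (norm_nonneg _) (lc_eta hη _)

/-- a dyadic block of the last sum in the identity of Vaughan -/
noncomputable def lkB (η : ℝ → ℝ) (N : ℕ) (β : ℝ) (U M : ℕ) {q : ℕ} (χ : DirichletCharacter ℂ q) : ℂ :=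
  ∑ l ∈ Ioc M (2 * M), ∑ k ∈ Icc 1 (N / l), ((ArithmeticFunction.vonMangoldt l : ℝ) : ℂ) *
    (cU U k : ℂ) * (χ ((l * k : ℕ) : ZMod q) * (((η (((l * k : ℕ) : ℝ) / N) : ℝ) : ℂ) *
      ee (β * (l * k : ℕ))))

lemma lk_single {η : ℝ → ℝ} (hη : IsWt η) {D : ℝ} (_hD : 0 < D) {N : ℕ} {β : ℝ}
    {q : ℕ} (χ : DirichletCharacter ℂ q)
    (hI : ∀ m : ℕ, 1 ≤ m →
      ‖∑ k ∈ Icc 1 (N / m), lkF η N β χ (m * k)‖ ≤ D * q ∧
      ‖∑ k ∈ Icc 1 (N / m), ((Real.log k : ℝ) : ℂ) * lkF η N β χ (m * k)‖ ≤ D * q * Real.log N)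
    {U J : ℕ} (hUN : U ≤ N) (hJ : N ≤ U * 2 ^ J) :
    ‖Tx η N β ⟨q, χ⟩‖ ≤ U * Real.log N + U * (D * q * Real.log N) + U * (U * (Real.log N * (D * q))) +
      ∑ i ∈ range J, ‖lkB η N β U (U * 2 ^ i) χ‖ := by
  have hL : 0 ≤ Real.log N := Real.log_natCast_nonneg N
  have hqR : (0 : ℝ) ≤ q := Nat.cast_nonneg q
  rw [lk_psi, vaughan U U N]
  have t0 : ‖∑ n ∈ (Icc 1 N).filter (fun n => n ≤ U),
      ((ArithmeticFunction.vonMangoldt n : ℝ) : ℂ) * lkF η N β χ n‖ ≤ U * Real.log N := by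
    refine (norm_sum_le _ _).trans ?_
    have h1 : ∀ n ∈ (Icc 1 N).filter (fun n => n ≤ U),
        ‖((ArithmeticFunction.vonMangoldt n : ℝ) : ℂ) * lkF η N β χ n‖ ≤ Real.log N := by
      intro n hn
      rw [mem_filter, mem_Icc] at hn
      rw [norm_mul]
      calc _ ≤ Real.log N * 1 := mul_le_mul (lc_Lam hn.1.1 hn.1.2) (lk_F hη N β χ n)
            (norm_nonneg _) hL
        _ = Real.log N := mul_one _
    refine (sum_le_card_nsmul _ _ _ h1).trans ?_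
    rw [nsmul_eq_mul]
    refine mul_le_mul_of_nonneg_right ?_ hL
    have h2 : ((Icc 1 N).filter (fun n => n ≤ U)).card ≤ (Icc 1 U).card := by
      refine card_le_card fun n hn => ?_
      rw [mem_filter, mem_Icc] at hn
      rw [mem_Icc]
      omega
    rw [Nat.card_Icc] at h2
    exact_mod_cast h2.trans (by omega)
  have t1 : ‖∑ m ∈ Icc 1 U, (ArithmeticFunction.moebius m : ℂ) *
      ∑ k ∈ Icc 1 (N / m), ((Real.log k : ℝ) : ℂ) * lkF η N β χ (m * k)‖ ≤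
      U * (D * q * Real.log N) := by
    refine (norm_sum_le _ _).trans ?_
    have h1 : ∀ m ∈ Icc 1 U, ‖(ArithmeticFunction.moebius m : ℂ) *
        ∑ k ∈ Icc 1 (N / m), ((Real.log k : ℝ) : ℂ) * lkF η N β χ (m * k)‖ ≤ D * q * Real.log N := by
      intro m hm
      rw [mem_Icc] at hm
      rw [norm_mul]
      calc _ ≤ 1 * (D * q * Real.log N) :=
            mul_le_mul (lc_mu m) (hI m hm.1).2 (norm_nonneg _) (by norm_num)
        _ = D * q * Real.log N := by ring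
    refine (sum_le_card_nsmul _ _ _ h1).trans ?_
    rw [nsmul_eq_mul, Nat.card_Icc, Nat.add_sub_cancel]
  have t2 : ‖∑ m ∈ Icc 1 U, ∑ l ∈ Icc 1 U, (ArithmeticFunction.moebius m : ℂ) *
      ((ArithmeticFunction.vonMangoldt l : ℝ) : ℂ) *
      ∑ k ∈ Icc 1 (N / (m * l)), lkF η N β χ (m * l * k)‖ ≤ U * (U * (Real.log N * (D * q))) := by
    refine (norm_sum_le _ _).trans ?_
    have h1 : ∀ m ∈ Icc 1 U, ‖∑ l ∈ Icc 1 U, (ArithmeticFunction.moebius m : ℂ) *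
        ((ArithmeticFunction.vonMangoldt l : ℝ) : ℂ) *
        ∑ k ∈ Icc 1 (N / (m * l)), lkF η N β χ (m * l * k)‖ ≤ U * (Real.log N * (D * q)) := by
      intro m hm
      rw [mem_Icc] at hm
      refine (norm_sum_le _ _).trans ?_
      have h2 : ∀ l ∈ Icc 1 U, ‖(ArithmeticFunction.moebius m : ℂ) *
          ((ArithmeticFunction.vonMangoldt l : ℝ) : ℂ) *
          ∑ k ∈ Icc 1 (N / (m * l)), lkF η N β χ (m * l * k)‖ ≤ Real.log N * (D * q) := by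
        intro l hl
        rw [mem_Icc] at hl
        rw [norm_mul, norm_mul]
        calc _ ≤ 1 * Real.log N * (D * q) := by
              refine mul_le_mul ?_ (hI (m * l) (Nat.mul_pos hm.1 hl.1)).1 (norm_nonneg _)
                (by positivity)
              exact mul_le_mul (lc_mu m) (lc_Lam hl.1 (hl.2.trans hUN)) (norm_nonneg _)
                (by norm_num)
          _ = Real.log N * (D * q) := by ring
      refine (sum_le_card_nsmul _ _ _ h2).trans ?_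
      rw [nsmul_eq_mul, Nat.card_Icc, Nat.add_sub_cancel]
    refine (sum_le_card_nsmul _ _ _ h1).trans ?_
    rw [nsmul_eq_mul, Nat.card_Icc, Nat.add_sub_cancel]
  have t3 : ‖∑ l ∈ Ioc U N, ∑ k ∈ Icc 1 (N / l), ((ArithmeticFunction.vonMangoldt l : ℝ) : ℂ) *
      (cU U k : ℂ) * lkF η N β χ (l * k)‖ ≤ ∑ i ∈ range J, ‖lkB η N β U (U * 2 ^ i) χ‖ := by
    have hsub : Ioc U N ⊆ Ioc U (U * 2 ^ J) := Ioc_subset_Ioc_right hJ
    rw [sum_subset hsub, lc_dyadic]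
    · exact norm_sum_le _ _
    · intro l hl hl'
      rw [mem_Ioc] at hl hl'
      have h0 : N / l = 0 := Nat.div_eq_of_lt (by omega)
      rw [h0]
      simp
  calc _ ≤ ‖∑ n ∈ (Icc 1 N).filter (fun n => n ≤ U),
      ((ArithmeticFunction.vonMangoldt n : ℝ) : ℂ) * lkF η N β χ n‖ +
      ‖∑ m ∈ Icc 1 U, (ArithmeticFunction.moebius m : ℂ) *
        ∑ k ∈ Icc 1 (N / m), ((Real.log k : ℝ) : ℂ) * lkF η N β χ (m * k)‖ +
      ‖∑ m ∈ Icc 1 U, ∑ l ∈ Icc 1 U, (ArithmeticFunction.moebius m : ℂ) *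
        ((ArithmeticFunction.vonMangoldt l : ℝ) : ℂ) *
        ∑ k ∈ Icc 1 (N / (m * l)), lkF η N β χ (m * l * k)‖ +
      ‖∑ l ∈ Ioc U N, ∑ k ∈ Icc 1 (N / l), ((ArithmeticFunction.vonMangoldt l : ℝ) : ℂ) *
        (cU U k : ℂ) * lkF η N β χ (l * k)‖ := by
        refine (norm_add_le _ _).trans (add_le_add_left ?_ _)
        refine (norm_sub_le _ _).trans (add_le_add_left ?_ _)
        exact norm_add_le _ _
    _ ≤ _ := by
        refine add_le_add (add_le_add (add_le_add t0 t1) t2) t3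

/-- one dyadic block -/
lemma lk_block {η : ℝ → ℝ} {β : ℝ} {C : ℝ} (hC : 0 < C) {N : ℕ}
    (hII : ∀ (R M : ℕ), 1 ≤ N → 1 ≤ M →
      ∀ (a b : ℕ → ℂ),
      ∑ q ∈ Icc 1 R, ∑ χ ∈ prim q,
        ‖∑ l ∈ Ioc M (2 * M), ∑ k ∈ Icc 1 (N / l), a l * b k *
          (χ ((l * k : ℕ) : ZMod q) * (((η (((l * k : ℕ) : ℝ) / N) : ℝ) : ℂ) *
            ee (β * (l * k : ℕ))))‖ ≤
        C * Real.sqrt (((M : ℝ) + (R : ℝ) ^ 2) * ∑ l ∈ Ioc M (2 * M), ‖a l‖ ^ 2) *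
          Real.sqrt (((N : ℝ) / M + (R : ℝ) ^ 2) * ∑ k ∈ Icc 1 (N / M), ‖b k‖ ^ 2))
    {U M R : ℕ} (hN : 3 ≤ N) (hU : 1 ≤ U) (hUM : U ≤ M)
    (hL : 1 ≤ Real.log N) :
    ∑ q ∈ Icc 1 (2 * R), ∑ χ ∈ prim q, ‖lkB η N β U M χ‖ ≤
      24 * C * (N + R * N / Real.sqrt U + R ^ 2 * Real.sqrt N) * Real.log N ^ 3 := by
  have hM : 1 ≤ M := hU.trans hUM
  have hMR : (0 : ℝ) < M := by exact_mod_cast hM
  have hNR : (0 : ℝ) < N := by exact_mod_cast (by omega : 0 < N)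
  have hUR : (0 : ℝ) < U := by exact_mod_cast (by omega : 0 < U)
  have hR0 : (0 : ℝ) ≤ R := Nat.cast_nonneg R
  set L := Real.log N with hLdef
  rcases Nat.lt_or_ge U (N / M) with hlt | hge
  · have hNM : 1 ≤ N / M := by omega
    have hMN : M ≤ N := by
      by_contra h
      have : N / M = 0 := Nat.div_eq_of_lt (by omega)
      omega
    have hdiv : ((N / M : ℕ) : ℝ) ≤ (N : ℝ) / M := Nat.cast_div_le
    have hUM' : (U : ℝ) ≤ M := by exact_mod_cast hUM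
    have hUN' : (U : ℝ) ≤ (N : ℝ) / M := by
      have : (U : ℝ) ≤ ((N / M : ℕ) : ℝ) := by exact_mod_cast hlt.le
      linarith
    have h1 := hII (2 * R) M (by omega) hM
      (fun l => ((ArithmeticFunction.vonMangoldt l : ℝ) : ℂ)) (fun k => (cU U k : ℂ))
    refine le_trans (le_of_eq ?_) (h1.trans ?_)
    · rfl
    have ha : ∑ l ∈ Ioc M (2 * M), ‖((ArithmeticFunction.vonMangoldt l : ℝ) : ℂ)‖ ^ 2 ≤
        M * (2 * L) ^ 2 := by
      have h2 : ∀ l ∈ Ioc M (2 * M), ‖((ArithmeticFunction.vonMangoldt l : ℝ) : ℂ)‖ ^ 2 ≤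
          (2 * L) ^ 2 := by
        intro l hl
        rw [mem_Ioc] at hl
        refine pow_le_pow_left₀ (norm_nonneg _) ?_ 2
        have h3 := lc_Lam (n := l) (N := N ^ 2) (by omega) (by nlinarith)
        rwa [Nat.cast_pow, Real.log_pow, Nat.cast_ofNat] at h3
      refine (sum_le_card_nsmul _ _ _ h2).trans ?_
      rw [nsmul_eq_mul, Nat.card_Ioc]
      have : 2 * M - M = M := by omega
      rw [this]
    have hb : ∑ k ∈ Icc 1 (N / M), ‖(cU U k : ℂ)‖ ^ 2 ≤ (N : ℝ) / M * (2 * L) ^ 3 := by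
      have h2 : ∑ k ∈ Icc 1 (N / M), ‖(cU U k : ℂ)‖ ^ 2 ≤
          ∑ k ∈ Icc 1 (N / M), (k.divisors.card : ℝ) ^ 2 := by
        refine sum_le_sum fun k _ => ?_
        refine pow_le_pow_left₀ (norm_nonneg _) ?_ 2
        rw [Complex.norm_intCast]
        have := cU_abs_le U k
        exact_mod_cast this
      refine h2.trans ((sum_divisors_sq (N / M) hNM).trans ?_)
      have h3 : Real.log ((N / M : ℕ) : ℝ) ≤ L :=
        Real.log_le_log (by exact_mod_cast hNM) (by exact_mod_cast Nat.div_le_self N M)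
      have h4 : 0 ≤ Real.log ((N / M : ℕ) : ℝ) := Real.log_natCast_nonneg _
      have h5 : (1 + Real.log ((N / M : ℕ) : ℝ)) ^ 3 ≤ (2 * L) ^ 3 :=
        pow_le_pow_left₀ (by linarith) (by linarith) 3
      exact mul_le_mul hdiv h5 (by positivity) (by positivity)
    have hNM0 : (0 : ℝ) < (N : ℝ) / M := by positivity
    have hR2 : ((2 * R : ℕ) : ℝ) ^ 2 = (2 * R : ℝ) ^ 2 := by
      push_cast
      ring
    rw [hR2]
    have hsplit : ∀ x : ℝ, 0 ≤ x → Real.sqrt (x + (2 * R : ℝ) ^ 2) ≤ Real.sqrt x + 2 * R := by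
      intro x hx
      refine Real.sqrt_le_iff.2 ⟨by positivity, ?_⟩
      have h0 := Real.sq_sqrt hx
      have h2 : 0 ≤ Real.sqrt x * R := by positivity
      nlinarith
    have hX : Real.sqrt (((M : ℝ) + (2 * R : ℝ) ^ 2) *
        ∑ l ∈ Ioc M (2 * M), ‖((ArithmeticFunction.vonMangoldt l : ℝ) : ℂ)‖ ^ 2) ≤
        (Real.sqrt M + 2 * R) * (Real.sqrt M * (2 * L)) := by
      rw [Real.sqrt_mul (by positivity)]
      refine mul_le_mul (hsplit M hMR.le) ?_ (Real.sqrt_nonneg _) (by positivity)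
      refine Real.sqrt_le_iff.2 ⟨by positivity, ha.trans (le_of_eq ?_)⟩
      rw [mul_pow (Real.sqrt M), Real.sq_sqrt hMR.le]
    have hY : Real.sqrt (((N : ℝ) / M + (2 * R : ℝ) ^ 2) *
        ∑ k ∈ Icc 1 (N / M), ‖(cU U k : ℂ)‖ ^ 2) ≤
        (Real.sqrt ((N : ℝ) / M) + 2 * R) * (Real.sqrt ((N : ℝ) / M) * (3 * L ^ 2)) := by
      rw [Real.sqrt_mul (by positivity)]
      refine mul_le_mul (hsplit _ hNM0.le) ?_ (Real.sqrt_nonneg _) (by positivity)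
      refine Real.sqrt_le_iff.2 ⟨by positivity, hb.trans ?_⟩
      rw [mul_pow (Real.sqrt ((N : ℝ) / M)), Real.sq_sqrt hNM0.le]
      refine mul_le_mul_of_nonneg_left ?_ hNM0.le
      calc (2 * L) ^ 3 = 8 * L ^ 3 := by ring
        _ ≤ 9 * L ^ 4 := by
            refine mul_le_mul (by norm_num) (pow_le_pow_right₀ hL (by norm_num)) (by positivity)
              (by norm_num)
        _ = (3 * L ^ 2) ^ 2 := by ring
    set s := Real.sqrt M with hs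
    set t := Real.sqrt ((N : ℝ) / M) with ht
    have hs0 : 0 < s := Real.sqrt_pos.2 hMR
    have ht0 : 0 < t := Real.sqrt_pos.2 hNM0
    have hst : s * t = Real.sqrt N := by
      rw [hs, ht, ← Real.sqrt_mul hMR.le]
      congr 1
      field_simp
    have hNN : Real.sqrt N * Real.sqrt N = N := Real.mul_self_sqrt hNR.le
    have hsU : Real.sqrt U ≤ s := Real.sqrt_le_sqrt hUM'
    have htU : Real.sqrt U ≤ t := Real.sqrt_le_sqrt hUN'
    have hU0 : 0 < Real.sqrt U := Real.sqrt_pos.2 hUR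
    have hsle : s * Real.sqrt N ≤ N / Real.sqrt U := by
      rw [le_div_iff₀ hU0]
      calc s * Real.sqrt N * Real.sqrt U ≤ s * Real.sqrt N * t :=
            mul_le_mul_of_nonneg_left htU (by positivity)
        _ = (s * t) * Real.sqrt N := by ring
        _ = N := by rw [hst, hNN]
    have htle : t * Real.sqrt N ≤ N / Real.sqrt U := by
      rw [le_div_iff₀ hU0]
      calc t * Real.sqrt N * Real.sqrt U ≤ t * Real.sqrt N * s :=
            mul_le_mul_of_nonneg_left hsU (by positivity)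
        _ = (s * t) * Real.sqrt N := by ring
        _ = N := by rw [hst, hNN]
    have hL0 : 0 ≤ L := by linarith
    calc _ ≤ C * ((s + 2 * R) * (s * (2 * L))) * ((t + 2 * R) * (t * (3 * L ^ 2))) := by
          refine mul_le_mul (mul_le_mul_of_nonneg_left hX hC.le) hY (Real.sqrt_nonneg _)
            (by positivity)
      _ = 6 * C * L ^ 3 * ((s * t) * (s * t) + 2 * R * (s * (s * t)) + 2 * R * (t * (s * t)) +
            4 * R ^ 2 * (s * t)) := by ring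
      _ = 6 * C * L ^ 3 * (N + 2 * R * (s * Real.sqrt N) + 2 * R * (t * Real.sqrt N) +
            4 * R ^ 2 * Real.sqrt N) := by rw [hst, hNN]
      _ ≤ 6 * C * L ^ 3 * (N + 2 * R * (N / Real.sqrt U) + 2 * R * (N / Real.sqrt U) +
            4 * R ^ 2 * Real.sqrt N) := by
          gcongr
      _ ≤ 24 * C * (N + R * N / Real.sqrt U + R ^ 2 * Real.sqrt N) * L ^ 3 := by
          have h3 : 0 ≤ 6 * C * L ^ 3 * (3 * N) := by positivity
          have h4 : (R : ℝ) * N / Real.sqrt U = R * (N / Real.sqrt U) := by ring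
          rw [h4]
          nlinarith
  · have hz : ∀ (q : ℕ) (χ : DirichletCharacter ℂ q), lkB η N β U M χ = 0 := by
      intro q χ
      unfold lkB
      refine sum_eq_zero fun l hl => sum_eq_zero fun k hk => ?_
      rw [mem_Ioc] at hl
      rw [mem_Icc] at hk
      have h1 : N / l ≤ N / M := Nat.div_le_div_left hl.1.le (by omega)
      rw [cU_eq_zero U k (by omega)]
      simp
    have hL0 : 0 ≤ L := by linarith
    refine le_trans (le_of_eq ?_) (by positivity :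
      (0 : ℝ) ≤ 24 * C * (N + R * N / Real.sqrt U + R ^ 2 * Real.sqrt N) * L ^ 3)
    refine sum_eq_zero fun q _ => sum_eq_zero fun χ _ => ?_
    rw [hz, norm_zero]

/-- for `q ≥ 2` a primitive character is not principal -/
lemma lk_prm {q : ℕ} (hq : 2 ≤ q) : prm q = prim q := by
  ext χ
  rw [mem_prm, mem_prim]
  refine ⟨fun h => ⟨h, fun h1 => ?_⟩, fun h => h.1⟩
  have : NeZero q := ⟨by omega⟩
  have h2 : χ.conductor = q := h
  rw [h1, DirichletCharacter.conductor_one] at h2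
  omega

/-- large conductors -/
theorem thm_Lk (h1 : St_Ti) (h2 : St_Tt) : St_Lk := by
  intro η hη
  obtain ⟨C1, hC1, hI'⟩ := h1 η hη
  obtain ⟨C2, hC2, hII'⟩ := h2 η hη
  obtain ⟨C, hC⟩ := exists_nat_ge (4 + 16 * C1 + 72 * C2)
  refine ⟨C + 4, fun N R U β hN hR hU hUN => ?_⟩
  have hW1 : 1 ≤ 1 + |β| * N := le_add_of_nonneg_right (by positivity)
  set W : ℝ := 1 + |β| * N with hW
  have hW2 : W ≤ W ^ 2 := by nlinarith
  have hW21 : 1 ≤ W ^ 2 := by nlinarith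
  obtain ⟨D1, hD1⟩ : ∃ D : ℝ, D = C1 * W ^ 2 := ⟨_, rfl⟩
  obtain ⟨D2, hD2⟩ : ∃ D : ℝ, D = C2 * W ^ 2 := ⟨_, rfl⟩
  have hD1p : 0 < D1 := by rw [hD1]; positivity
  have hD2p : 0 < D2 := by rw [hD2]; positivity
  have hII : ∀ (R M : ℕ), 1 ≤ N → 1 ≤ M → ∀ (a b : ℕ → ℂ), ∑ q ∈ Icc 1 R, ∑ χ ∈ prim q,
      ‖∑ l ∈ Ioc M (2 * M), ∑ k ∈ Icc 1 (N / l), a l * b k *
        (χ ((l * k : ℕ) : ZMod q) * (((η (((l * k : ℕ) : ℝ) / N) : ℝ) : ℂ) *
          ee (β * (l * k : ℕ))))‖ ≤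
      D2 * Real.sqrt (((M : ℝ) + (R : ℝ) ^ 2) * ∑ l ∈ Ioc M (2 * M), ‖a l‖ ^ 2) *
        Real.sqrt (((N : ℝ) / M + (R : ℝ) ^ 2) * ∑ k ∈ Icc 1 (N / M), ‖b k‖ ^ 2) := by
    intro R' M hN1 hM a b
    rw [hD2]
    exact hII' N R' M β hN1 hM a b
  have hI : ∀ (q : ℕ) [NeZero q] (χ : DirichletCharacter ℂ q), χ ≠ 1 → ∀ m : ℕ, 1 ≤ m →
      ‖∑ k ∈ Icc 1 (N / m), lkF η N β χ (m * k)‖ ≤ D1 * q ∧
      ‖∑ k ∈ Icc 1 (N / m), ((Real.log k : ℝ) : ℂ) * lkF η N β χ (m * k)‖ ≤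
        D1 * q * Real.log N := by
    intro q _ χ hχ m hm
    obtain ⟨g1, g2⟩ := hI' N β (by omega) q χ hχ m hm
    have g3 : C1 * q * (1 + |β| * N) ≤ D1 * q := by
      rw [hD1]
      calc C1 * q * (1 + |β| * N) = C1 * W * q := by rw [hW]; ring
        _ ≤ C1 * W ^ 2 * q := by gcongr
    refine ⟨g1.trans g3, g2.trans ?_⟩
    exact mul_le_mul_of_nonneg_right g3 (Real.log_natCast_nonneg N)
  have hL : 1 ≤ Real.log N := by
    rw [Real.le_log_iff_exp_le (by exact_mod_cast (by omega : 0 < N))]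
    have h1 := Real.exp_one_lt_d9
    have h2 : (3 : ℝ) ≤ N := by exact_mod_cast hN
    linarith
  obtain ⟨J, hJ, hJL⟩ := lc_J N hN hL
  have hJ' : N ≤ U * 2 ^ J := hJ.trans (Nat.le_mul_of_pos_left _ hU)
  set L := Real.log N with hLdef
  have hL0 : 0 ≤ L := by linarith
  have hsubset : Ioc R (2 * R) ⊆ Icc 1 (2 * R) := fun q hq => by
    rw [mem_Ioc] at hq
    rw [mem_Icc]
    omega
  set K : ℝ := U * L + U * (D1 * (2 * R) * L) + U * (U * (L * (D1 * (2 * R)))) with hK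
  have hK0 : 0 ≤ K := by positivity
  set T : ℝ := N + R * N / Real.sqrt U + R ^ 2 * Real.sqrt N with hT
  have hT0 : 0 ≤ T := by positivity
  have step1 : ∑ q ∈ Ioc R (2 * R), ∑ χ ∈ prm q, ‖Tx η N β ⟨q, χ⟩‖ ≤
      ∑ q ∈ Ioc R (2 * R), ∑ χ ∈ prim q, (K + ∑ i ∈ range J, ‖lkB η N β U (U * 2 ^ i) χ‖) := by
    refine sum_le_sum fun q hq => ?_
    rw [mem_Ioc] at hq
    rw [lk_prm (by omega)]
    refine sum_le_sum fun χ hχ => ?_
    have : NeZero q := ⟨by omega⟩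
    have hq2 : (q : ℝ) ≤ 2 * R := by exact_mod_cast hq.2
    refine (lk_single hη hD1p χ (hI q χ ((mem_prim χ).1 hχ).2) hUN hJ').trans ?_
    refine add_le_add_left ?_ _
    rw [hK]
    gcongr
  have step2 : ∑ q ∈ Ioc R (2 * R), ∑ χ ∈ prim q,
      (K + ∑ i ∈ range J, ‖lkB η N β U (U * 2 ^ i) χ‖) ≤
      ∑ q ∈ Icc 1 (2 * R), ∑ χ ∈ prim q, (K + ∑ i ∈ range J, ‖lkB η N β U (U * 2 ^ i) χ‖) :=
    sum_le_sum_of_subset_of_nonneg hsubset fun q _ _ => sum_nonneg fun χ _ => by positivity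
  have step3 : ∑ q ∈ Icc 1 (2 * R), ∑ χ ∈ prim q,
      (K + ∑ i ∈ range J, ‖lkB η N β U (U * 2 ^ i) χ‖) =
      (∑ q ∈ Icc 1 (2 * R), ((prim q).card : ℝ)) * K +
        ∑ i ∈ range J, ∑ q ∈ Icc 1 (2 * R), ∑ χ ∈ prim q, ‖lkB η N β U (U * 2 ^ i) χ‖ := by
    rw [sum_comm (s := range J), sum_mul, ← sum_add_distrib]
    refine sum_congr rfl fun q _ => ?_
    rw [sum_add_distrib, sum_const, nsmul_eq_mul, sum_comm]
  have step4 : (∑ q ∈ Icc 1 (2 * R), ((prim q).card : ℝ)) * K ≤ (4 * (R : ℝ) ^ 2) * K := by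
    refine mul_le_mul_of_nonneg_right ?_ hK0
    have h1 := card_prim_le (2 * R)
    have h2 : (((∑ q ∈ Icc 1 (2 * R), (prim q).card) : ℕ) : ℝ) ≤ (((2 * R) ^ 2 : ℕ) : ℝ) := by
      exact_mod_cast h1
    push_cast at h2
    linarith
  have step5 : ∑ i ∈ range J, ∑ q ∈ Icc 1 (2 * R), ∑ χ ∈ prim q, ‖lkB η N β U (U * 2 ^ i) χ‖ ≤
      (3 * L) * (24 * D2 * T * L ^ 3) := by
    have h1 : ∀ i ∈ range J, ∑ q ∈ Icc 1 (2 * R), ∑ χ ∈ prim q, ‖lkB η N β U (U * 2 ^ i) χ‖ ≤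
        24 * D2 * T * L ^ 3 := fun i _ =>
      lk_block hD2p hII hN hU (Nat.le_mul_of_pos_right _ (by positivity)) hL
    refine (sum_le_card_nsmul _ _ _ h1).trans ?_
    rw [nsmul_eq_mul, card_range]
    exact mul_le_mul_of_nonneg_right hJL (by positivity)
  have hR1 : (1 : ℝ) ≤ R := by exact_mod_cast hR
  have hU1 : (1 : ℝ) ≤ U := by exact_mod_cast hU
  have step6 : (4 * (R : ℝ) ^ 2) * K ≤ (4 + 16 * D1) * (R ^ 3 * U ^ 2) * L := by
    have e : (4 * (R : ℝ) ^ 2) * K =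
        4 * ((R : ℝ) ^ 2 * U) * L + 8 * D1 * ((R : ℝ) ^ 3 * U) * L +
          8 * D1 * ((R : ℝ) ^ 3 * U ^ 2) * L := by
      rw [hK]
      ring
    rw [e]
    have hUU : (U : ℝ) ≤ U ^ 2 := by nlinarith
    have h1 : (R : ℝ) ^ 2 * U ≤ R ^ 3 * U ^ 2 :=
      mul_le_mul (pow_le_pow_right₀ hR1 (by norm_num)) hUU (by positivity) (by positivity)
    have h2 : (R : ℝ) ^ 3 * U ≤ R ^ 3 * U ^ 2 := mul_le_mul_of_nonneg_left hUU (by positivity)
    calc _ ≤ 4 * ((R : ℝ) ^ 3 * U ^ 2) * L + 8 * D1 * ((R : ℝ) ^ 3 * U ^ 2) * L +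
          8 * D1 * ((R : ℝ) ^ 3 * U ^ 2) * L := by
          gcongr
      _ = (4 + 16 * D1) * (R ^ 3 * U ^ 2) * L := by ring
  calc ∑ q ∈ Ioc R (2 * R), ∑ χ ∈ prm q, ‖Tx η N β ⟨q, χ⟩‖ ≤
      (4 + 16 * D1) * (R ^ 3 * U ^ 2) * L + (3 * L) * (24 * D2 * T * L ^ 3) := by
        refine step1.trans (step2.trans ?_)
        rw [step3]
        exact add_le_add (step4.trans step6) step5
    _ ≤ (4 + 16 * D1) * (R ^ 3 * U ^ 2) * L ^ 4 + 72 * D2 * T * L ^ 4 := by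
        have h1 : L ≤ L ^ 4 := by
          calc L = L ^ 1 := (pow_one L).symm
            _ ≤ L ^ 4 := pow_le_pow_right₀ hL (by norm_num)
        have h2 : (4 + 16 * D1) * ((R : ℝ) ^ 3 * U ^ 2) * L ≤
            (4 + 16 * D1) * (R ^ 3 * U ^ 2) * L ^ 4 := by gcongr
        have h3 : (3 * L) * (24 * D2 * T * L ^ 3) = 72 * D2 * T * L ^ 4 := by ring
        linarith
    _ ≤ (4 + 16 * D1 + 72 * D2) * L ^ 4 * (T + R ^ 3 * U ^ 2) := by
        have h1 : 0 ≤ L ^ 4 * T * (4 + 16 * D1) := by positivity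
        have h2 : 0 ≤ L ^ 4 * ((R : ℝ) ^ 3 * U ^ 2) * (72 * D2) := by positivity
        nlinarith
    _ ≤ ((C + 4 : ℕ) : ℝ) * W ^ 2 * L ^ (C + 4) * (T + R ^ 3 * U ^ 2) := by
        have h1 : 4 + 16 * D1 + 72 * D2 ≤ ((C + 4 : ℕ) : ℝ) * W ^ 2 := by
          push_cast
          rw [hD1, hD2]
          nlinarith
        have h2 : L ^ 4 ≤ L ^ (C + 4) := pow_le_pow_right₀ hL (by omega)
        gcongr

end Pool.Agent.MV5
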