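import Pool.Agent.MV5.StA
import Pool.Agent.MVII.Ep
import Pool.Agent.MVII.Bl
import Pool.Agent.MVII.Fj
import Pool.Agent.GBQ.Basic

set_option autoImplicit false

/-!
# MV5 [Ls]: the sum over all characters
-/

namespace Pool.Agent.MV5

open Finset Filter
open Pool.Agent.GBQ (ee lam nd Admissible)
open Pool.Agent.MVX (Chr tent Bm Um prm Win GP)
open Pool.Agent.LIN (PP pz Dens)
open Pool.Agent.MT (IsWt prim)
open Pool.Agent.MVII (TT QQ HH H0 cp cs gp GQ ar PL PM NB BI Bc Md fj rr Per mn wq Sum4 Blk)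

theorem ls_log (c e : ℝ) (k : ℕ) (he : 0 < e) :
    ∀ᶠ X : ℕ in atTop, c * (1 + Real.log (2 * X)) ^ k ≤ (X : ℝ) ^ e := by
  filter_upwards [MVII.ep_large (max c 0) (e / 2) (by positivity),
    MVII.ep_log (e / 2) (by positivity) k, eventually_ge_atTop 1] with X h1 h2 h3
  have hX1 : (1 : ℝ) ≤ X := by exact_mod_cast h3
  have hX0 : (0 : ℝ) < X := by linarith
  have hL : 0 ≤ 1 + Real.log (2 * X) := by
    have : 0 ≤ Real.log (2 * X) := Real.log_nonneg (by linarith)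
    linarith
  calc c * (1 + Real.log (2 * X)) ^ k ≤ max c 0 * (1 + Real.log (2 * X)) ^ k :=
        mul_le_mul_of_nonneg_right (le_max_left _ _) (pow_nonneg hL _)
    _ ≤ (X : ℝ) ^ (e / 2) * (X : ℝ) ^ (e / 2) := mul_le_mul h1 h2 (pow_nonneg hL _)
        (Real.rpow_nonneg hX0.le _)
    _ = (X : ℝ) ^ e := by
        rw [← Real.rpow_add hX0]
        congr 1
        ring

theorem ls_Tx {η : ℝ → ℝ} (hη : IsWt η) (K : ℕ) (β : ℝ) (c : Chr) :
    ‖Tx η K β c‖ ≤ K * Real.log K := by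
  unfold Tx
  refine (norm_sum_le _ _).trans ?_
  have h : ∀ n ∈ Icc 1 K, ‖((lam n : ℝ) : ℂ) *
      (c.2 (n : ZMod c.1) * (((η ((n : ℝ) / K) : ℝ) : ℂ) * ee (β * n)))‖ ≤ Real.log K := by
    intro n hn
    rw [Finset.mem_Icc] at hn
    rw [norm_mul, norm_mul, norm_mul, GBQ.ee_norm, mul_one, Complex.norm_real, Complex.norm_real,
      Real.norm_of_nonneg (GBQ.lam_nonneg n), Real.norm_of_nonneg (hη.nonneg _)]
    have h1 : ‖c.2 (n : ZMod c.1)‖ * η ((n : ℝ) / K) ≤ 1 :=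
      mul_le_one₀ (DirichletCharacter.norm_le_one _ _) (hη.nonneg _) (hη.le_one _)
    have h2 : lam n ≤ Real.log K := (GBQ.lam_le_log n).trans
      (Real.log_le_log (by exact_mod_cast hn.1) (by exact_mod_cast hn.2))
    calc lam n * (‖c.2 (n : ZMod c.1)‖ * η ((n : ℝ) / K)) ≤ lam n * 1 :=
          mul_le_mul_of_nonneg_left h1 (GBQ.lam_nonneg n)
      _ ≤ Real.log K := by rw [mul_one]; exact h2
  refine (Finset.sum_le_sum h).trans ?_
  rw [Finset.sum_const, Nat.card_Icc, nsmul_eq_mul, Nat.add_sub_cancel]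

theorem ls_KK (δ : ℝ) (hδ : 0 < δ) (hδ' : δ ≤ 1 / 10 ^ 6) : ∀ᶠ X : ℕ in atTop, ∀ m : ℕ, 1 ≤ m →
    (m : ℝ) ≤ (X : ℝ) ^ (δ / 1000) → (KK m X : ℝ) ≤ X ∧
      (X : ℝ) ^ (1 - δ / 1000) / 9 ≤ KK m X := by
  filter_upwards [MVII.ep_large 72 (1 - δ / 1000) (by linarith), eventually_ge_atTop 1]
    with X h1 h2 m hm hmX
  have hX1 : (1 : ℝ) ≤ X := by exact_mod_cast h2
  have hX0 : (0 : ℝ) < X := by linarith
  have hm0 : (0 : ℝ) < m := by exact_mod_cast hm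
  refine ⟨by exact_mod_cast Nat.div_le_self _ _, ?_⟩
  have h3 : X < (8 * m) * (X / (8 * m) + 1) := by
    have := Nat.lt_mul_div_succ X (b := 8 * m) (by omega)
    exact this
  have h4 : (X : ℝ) < 8 * m * ((KK m X : ℝ) + 1) := by
    unfold KK
    exact_mod_cast h3
  have h5 : (X : ℝ) ^ (1 - δ / 1000) * m ≤ X := by
    calc (X : ℝ) ^ (1 - δ / 1000) * m ≤ (X : ℝ) ^ (1 - δ / 1000) * (X : ℝ) ^ (δ / 1000) :=
          mul_le_mul_of_nonneg_left hmX (Real.rpow_nonneg hX0.le _)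
      _ = X := by rw [← Real.rpow_add hX0, sub_add_cancel, Real.rpow_one]
  have h6 : (X : ℝ) ^ (1 - δ / 1000) * m < 8 * ((KK m X : ℝ) + 1) * m := by
    calc (X : ℝ) ^ (1 - δ / 1000) * m ≤ X := h5
      _ < 8 * m * ((KK m X : ℝ) + 1) := h4
      _ = _ := by ring
  have h7 := lt_of_mul_lt_mul_right h6 hm0.le
  linarith

theorem ls_floor {x : ℝ} (hx : 1 ≤ x) : 1 ≤ ⌊x⌋₊ ∧ (⌊x⌋₊ : ℝ) ≤ x ∧ x / 2 ≤ ⌊x⌋₊ := by
  have h1 : 1 ≤ ⌊x⌋₊ := Nat.le_floor (by exact_mod_cast hx)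
  have h2 := Nat.lt_floor_add_one x
  have h3 : (1 : ℝ) ≤ ⌊x⌋₊ := by exact_mod_cast h1
  exact ⟨h1, Nat.floor_le (by linarith), by linarith⟩

theorem ls_sqrt {X s Y : ℝ} (hX : 0 < X) (h : X ^ s / 2 ≤ Y) :
    X ^ (s / 2) / 2 ≤ Real.sqrt Y := by
  apply Real.le_sqrt_of_sq_le
  have h1 : (X ^ (s / 2)) ^ 2 = X ^ s := by
    rw [← Real.rpow_natCast, ← Real.rpow_mul hX.le]
    congr 1
    push_cast
    ring
  rw [div_pow, h1]
  have := Real.rpow_pos_of_pos hX s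
  linarith

theorem ls_div {X s Y K : ℝ} (hX : 0 < X) (h : X ^ s / 2 ≤ Y) (hK : K ≤ X) :
    K / Real.sqrt Y ≤ 2 * X ^ (1 - s / 2) := by
  have h1 := ls_sqrt hX h
  have h2 : 0 < X ^ (s / 2) / 2 := by have := Real.rpow_pos_of_pos hX (s / 2); linarith
  calc K / Real.sqrt Y ≤ X / Real.sqrt Y :=
        div_le_div_of_nonneg_right hK (Real.sqrt_nonneg _)
    _ ≤ X / (X ^ (s / 2) / 2) := div_le_div_of_nonneg_left hX.le h2 h1
    _ = 2 * X ^ (1 - s / 2) := by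
        rw [Real.rpow_sub hX, Real.rpow_one]
        field_simp

theorem ls_w (r q : ℕ) (hr : 1 ≤ r) (hq : 1 ≤ q) :
    0 ≤ (Nat.gcd r q : ℝ) / (r * Real.sqrt q) ∧ (Nat.gcd r q : ℝ) / (r * Real.sqrt q) ≤ 1 := by
  have hr0 : (0 : ℝ) < r := by exact_mod_cast hr
  have hq1 : (1 : ℝ) ≤ Real.sqrt q := by
    rw [Real.one_le_sqrt]
    exact_mod_cast hq
  refine ⟨by positivity, ?_⟩
  rw [div_le_one (by positivity)]
  have h1 : (Nat.gcd r q : ℝ) ≤ r := by exact_mod_cast Nat.gcd_le_left q hr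
  nlinarith

theorem ls_big (δ : ℝ) (hδ : 0 < δ) (hδ' : δ ≤ 1 / 10 ^ 6) (C : ℕ) : ∀ᶠ X : ℕ in atTop,
    ∀ (K R₁ R q : ℕ) (β b s : ℝ), 1 ≤ K → (K : ℝ) ≤ X → (R : ℝ) ≤ (X : ℝ) ^ (496 / 1000 : ℝ) →
    (q : ℝ) ≤ (X : ℝ) ^ (30 * δ) → (X : ℝ) ^ s / 2 ≤ R₁ → |β| ≤ (X : ℝ) ^ (-1 + b) → 0 ≤ b →
    2 * b ≤ 26 * δ → 2 * b - s / 2 ≤ -(3 / 8 * δ) →
    C * (1 + |β| * K) ^ 2 * Real.log K ^ C * (K / Real.sqrt R₁ + Real.sqrt q *
      (K / Real.sqrt ⌊(X : ℝ) ^ (1 / 1000 : ℝ)⌋₊ + R * Real.sqrt K +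
        R ^ 2 * ⌊(X : ℝ) ^ (1 / 1000 : ℝ)⌋₊ ^ 2)) ≤ (X : ℝ) ^ (1 - δ / 35) / 2 := by
  filter_upwards [ls_log (48 * C) (δ / 10) C (by positivity), eventually_ge_atTop 1]
    with X hlog hX K R₁ R q β b s hK1 hK hR hq hR₁ hβ hb hb2 hbs
  have hX1 : (1 : ℝ) ≤ X := by exact_mod_cast hX
  have hX0 : (0 : ℝ) < X := by linarith
  have hK1' : (1 : ℝ) ≤ K := by exact_mod_cast hK1
  have hmono : ∀ {a b : ℝ}, a ≤ b → (X : ℝ) ^ a ≤ (X : ℝ) ^ b := fun h =>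
    Real.rpow_le_rpow_of_exponent_le hX1 h
  have hpos : ∀ a : ℝ, 0 < (X : ℝ) ^ a := fun a => Real.rpow_pos_of_pos hX0 a
  set L : ℝ := 1 + Real.log (2 * X) with hL
  have hL0 : 0 ≤ L := by
    have : 0 ≤ Real.log (2 * X) := Real.log_nonneg (by linarith)
    rw [hL]
    linarith
  set U : ℕ := ⌊(X : ℝ) ^ (1 / 1000 : ℝ)⌋₊ with hU
  obtain ⟨hU1, hU2, hU3⟩ := ls_floor (Real.one_le_rpow hX1 (by norm_num : (0 : ℝ) ≤ 1 / 1000))
  -- the factor
  have e1 : (1 + |β| * K) ^ 2 ≤ 4 * (X : ℝ) ^ (2 * b) := by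
    have h1 : |β| * K ≤ (X : ℝ) ^ b := by
      calc |β| * K ≤ (X : ℝ) ^ (-1 + b) * X := mul_le_mul hβ hK (by positivity) (hpos _).le
        _ = (X : ℝ) ^ b := by
          nth_rewrite 2 [← Real.rpow_one (X : ℝ)]
          rw [← Real.rpow_add hX0]
          congr 1
          ring
    have h2 : 1 ≤ (X : ℝ) ^ b := Real.one_le_rpow hX1 hb
    have h3 : (0 : ℝ) ≤ 1 + |β| * K := by positivity
    calc (1 + |β| * K) ^ 2 ≤ (2 * (X : ℝ) ^ b) ^ 2 := pow_le_pow_left₀ h3 (by linarith) 2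
      _ = 4 * (X : ℝ) ^ (2 * b) := by
        rw [mul_pow, ← Real.rpow_natCast ((X : ℝ) ^ b), ← Real.rpow_mul hX0.le]
        push_cast
        norm_num
        congr 1
        ring
  have e2 : Real.log K ^ C ≤ L ^ C := by
    refine pow_le_pow_left₀ (Real.log_nonneg hK1') ?_ C
    have : Real.log K ≤ Real.log (2 * X) := Real.log_le_log (by linarith) (by linarith)
    rw [hL]
    linarith
  have e3 : (K : ℝ) / Real.sqrt R₁ ≤ 2 * (X : ℝ) ^ (1 - s / 2) := ls_div hX0 hR₁ hK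
  have e4 : Real.sqrt q ≤ (X : ℝ) ^ (15 * δ) := by
    refine Real.sqrt_le_iff.2 ⟨(hpos _).le, ?_⟩
    rw [← Real.rpow_natCast, ← Real.rpow_mul hX0.le]
    refine hq.trans (hmono ?_)
    push_cast
    linarith
  have e5 : (K : ℝ) / Real.sqrt U ≤ 2 * (X : ℝ) ^ (1 - 1 / 2000 : ℝ) := by
    refine (ls_div hX0 hU3 hK).trans (mul_le_mul_of_nonneg_left (hmono ?_) (by norm_num))
    norm_num
  have e6 : (R : ℝ) * Real.sqrt K ≤ (X : ℝ) ^ (1 - 1 / 2000 : ℝ) := by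
    calc (R : ℝ) * Real.sqrt K ≤ (X : ℝ) ^ (496 / 1000 : ℝ) * (X : ℝ) ^ (1 / 2 : ℝ) := by
          refine mul_le_mul hR ?_ (Real.sqrt_nonneg _) (hpos _).le
          rw [← Real.sqrt_eq_rpow]
          exact Real.sqrt_le_sqrt hK
      _ ≤ (X : ℝ) ^ (1 - 1 / 2000 : ℝ) := by
          rw [← Real.rpow_add hX0]
          exact hmono (by norm_num)
  have e7 : (R : ℝ) ^ 2 * U ^ 2 ≤ (X : ℝ) ^ (1 - 1 / 2000 : ℝ) := by
    calc (R : ℝ) ^ 2 * U ^ 2 ≤ ((X : ℝ) ^ (496 / 1000 : ℝ)) ^ 2 *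
          ((X : ℝ) ^ (1 / 1000 : ℝ)) ^ 2 := mul_le_mul (pow_le_pow_left₀ (by positivity) hR 2)
          (pow_le_pow_left₀ (by positivity) hU2 2) (by positivity) (by positivity)
      _ ≤ (X : ℝ) ^ (1 - 1 / 2000 : ℝ) := by
          rw [← Real.rpow_natCast, ← Real.rpow_natCast, ← Real.rpow_mul hX0.le,
            ← Real.rpow_mul hX0.le, ← Real.rpow_add hX0]
          exact hmono (by norm_num)
  have e8 : Real.sqrt q * (K / Real.sqrt U + R * Real.sqrt K + R ^ 2 * U ^ 2) ≤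
      4 * (X : ℝ) ^ (1 - 485 * δ) := by
    calc Real.sqrt q * (K / Real.sqrt U + R * Real.sqrt K + R ^ 2 * U ^ 2) ≤
          (X : ℝ) ^ (15 * δ) * (4 * (X : ℝ) ^ (1 - 1 / 2000 : ℝ)) :=
          mul_le_mul e4 (by linarith) (by positivity) (hpos _).le
      _ = 4 * (X : ℝ) ^ (15 * δ + (1 - 1 / 2000)) := by
          rw [Real.rpow_add hX0]
          ring
      _ ≤ 4 * (X : ℝ) ^ (1 - 485 * δ) :=
          mul_le_mul_of_nonneg_left (hmono (by linarith)) (by norm_num)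
  have e9 : (X : ℝ) ^ (2 * b) * (2 * (X : ℝ) ^ (1 - s / 2) + 4 * (X : ℝ) ^ (1 - 485 * δ)) ≤
      6 * (X : ℝ) ^ (1 - 3 / 8 * δ) := by
    have h1 : (X : ℝ) ^ (2 * b) * (X : ℝ) ^ (1 - s / 2) ≤ (X : ℝ) ^ (1 - 3 / 8 * δ) := by
      rw [← Real.rpow_add hX0]
      exact hmono (by linarith)
    have h2 : (X : ℝ) ^ (2 * b) * (X : ℝ) ^ (1 - 485 * δ) ≤ (X : ℝ) ^ (1 - 3 / 8 * δ) := by
      rw [← Real.rpow_add hX0]
      exact hmono (by linarith)
    calc _ = 2 * ((X : ℝ) ^ (2 * b) * (X : ℝ) ^ (1 - s / 2)) +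
          4 * ((X : ℝ) ^ (2 * b) * (X : ℝ) ^ (1 - 485 * δ)) := by ring
      _ ≤ _ := by linarith
  calc C * (1 + |β| * K) ^ 2 * Real.log K ^ C * (K / Real.sqrt R₁ + Real.sqrt q *
      (K / Real.sqrt U + R * Real.sqrt K + R ^ 2 * U ^ 2))
      ≤ C * (4 * (X : ℝ) ^ (2 * b)) * L ^ C *
        (2 * (X : ℝ) ^ (1 - s / 2) + 4 * (X : ℝ) ^ (1 - 485 * δ)) := by
        have h1 : (0 : ℝ) ≤ C := Nat.cast_nonneg C
        have h2 : 0 ≤ Real.log K ^ C := pow_nonneg (Real.log_nonneg hK1') C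
        have h3 : 0 ≤ L ^ C := pow_nonneg hL0 C
        have h4 := hpos (2 * b)
        refine mul_le_mul (mul_le_mul (mul_le_mul_of_nonneg_left e1 h1) e2 h2 (by positivity))
          (add_le_add e3 e8) (by positivity) (by positivity)
    _ = 4 * (C * L ^ C) * ((X : ℝ) ^ (2 * b) *
        (2 * (X : ℝ) ^ (1 - s / 2) + 4 * (X : ℝ) ^ (1 - 485 * δ))) := by ring
    _ ≤ 4 * (C * L ^ C) * (6 * (X : ℝ) ^ (1 - 3 / 8 * δ)) := by
        refine mul_le_mul_of_nonneg_left e9 ?_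
        have h3 : 0 ≤ L ^ C := pow_nonneg hL0 C
        positivity
    _ = (48 * C * L ^ C) * (X : ℝ) ^ (1 - 3 / 8 * δ) / 2 := by ring
    _ ≤ (X : ℝ) ^ (δ / 10) * (X : ℝ) ^ (1 - 3 / 8 * δ) / 2 := by
        have := mul_le_mul_of_nonneg_right hlog (hpos (1 - 3 / 8 * δ)).le
        linarith
    _ ≤ (X : ℝ) ^ (1 - δ / 35) / 2 := by
        rw [← Real.rpow_add hX0]
        have := hmono (a := δ / 10 + (1 - 3 / 8 * δ)) (b := 1 - δ / 35) (by linarith)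
        linarith

/-- part (A) -/
theorem ls_A (δ : ℝ) (hδ : 0 < δ) (hδ' : δ ≤ 1 / 10 ^ 6) : ∀ᶠ X : ℕ in atTop,
    ∀ (K : ℕ) (β : ℝ), 1 ≤ K → (K : ℝ) ≤ X → |β| ≤ (X : ℝ) ^ (-1 + δ / 16) →
    (TT δ X : ℝ) ^ 2 * (K * Real.log K * (2 * Real.pi * (HH δ X * |β|))) ≤
      (X : ℝ) ^ (1 - δ / 35) / 2 := by
  filter_upwards [ls_log (32 * Real.pi) δ 1 (by positivity), eventually_ge_atTop 1]
    with X hlog hX K β hK1 hK hβ
  have hX1 : (1 : ℝ) ≤ X := by exact_mod_cast hX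
  have hX0 : (0 : ℝ) < X := by linarith
  have hK1' : (1 : ℝ) ≤ K := by exact_mod_cast hK1
  have hpi := Real.pi_pos
  have hmono : ∀ {a b : ℝ}, a ≤ b → (X : ℝ) ^ a ≤ (X : ℝ) ^ b := fun h =>
    Real.rpow_le_rpow_of_exponent_le hX1 h
  have hpos : ∀ a : ℝ, 0 < (X : ℝ) ^ a := fun a => Real.rpow_pos_of_pos hX0 a
  set L : ℝ := 1 + Real.log (2 * X) with hL
  have hL0 : 0 ≤ L := by
    have : 0 ≤ Real.log (2 * X) := Real.log_nonneg (by linarith)
    rw [hL]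
    linarith
  have e1 : (TT δ X : ℝ) ^ 2 ≤ (X : ℝ) ^ (2 * δ) := by
    obtain ⟨-, h2, -⟩ := ls_floor (Real.one_le_rpow hX1 hδ.le)
    calc (TT δ X : ℝ) ^ 2 ≤ ((X : ℝ) ^ δ) ^ 2 := pow_le_pow_left₀ (Nat.cast_nonneg _) h2 2
      _ = (X : ℝ) ^ (2 * δ) := by
        rw [← Real.rpow_natCast, ← Real.rpow_mul hX0.le]
        congr 1
        push_cast
        ring
  have e2 : (K : ℝ) * Real.log K ≤ X * L := by
    have : Real.log K ≤ Real.log (2 * X) := Real.log_le_log (by linarith) (by linarith)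
    refine mul_le_mul hK ?_ (Real.log_nonneg hK1') hX0.le
    rw [hL]
    linarith
  have e3 : (HH δ X : ℝ) ≤ 2 * (X : ℝ) ^ (1 - 10 * δ) := by
    have h1 : (HH δ X : ℝ) < (X : ℝ) ^ (1 - 10 * δ) + 1 := Nat.ceil_lt_add_one (hpos _).le
    have h2 : 1 ≤ (X : ℝ) ^ (1 - 10 * δ) := Real.one_le_rpow hX1 (by linarith)
    linarith
  have e4 : (HH δ X : ℝ) * |β| ≤ 2 * (X : ℝ) ^ (-10 * δ + δ / 16) := by
    calc (HH δ X : ℝ) * |β| ≤ 2 * (X : ℝ) ^ (1 - 10 * δ) * (X : ℝ) ^ (-1 + δ / 16) :=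
          mul_le_mul e3 hβ (abs_nonneg _) (by have := hpos (1 - 10 * δ); linarith)
      _ = 2 * (X : ℝ) ^ (-10 * δ + δ / 16) := by
          rw [mul_assoc, ← Real.rpow_add hX0]
          congr 2
          ring
  calc (TT δ X : ℝ) ^ 2 * (K * Real.log K * (2 * Real.pi * (HH δ X * |β|)))
      ≤ (X : ℝ) ^ (2 * δ) * (X * L * (2 * Real.pi * (2 * (X : ℝ) ^ (-10 * δ + δ / 16)))) := by
        have h1 : 0 ≤ Real.log K := Real.log_nonneg hK1'
        have h2 := hpos (2 * δ)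
        refine mul_le_mul e1 (mul_le_mul e2 (mul_le_mul_of_nonneg_left e4 (by positivity))
          (by positivity) (by positivity)) (by positivity) h2.le
    _ = (32 * Real.pi * L ^ 1) * ((X : ℝ) ^ (2 * δ) * (X : ℝ) ^ (1 : ℝ) *
        (X : ℝ) ^ (-10 * δ + δ / 16)) / 8 := by
        rw [Real.rpow_one]
        ring
    _ ≤ (X : ℝ) ^ δ * ((X : ℝ) ^ (2 * δ) * (X : ℝ) ^ (1 : ℝ) *
        (X : ℝ) ^ (-10 * δ + δ / 16)) / 8 := by
        have h0 : 0 ≤ (X : ℝ) ^ (2 * δ) * (X : ℝ) ^ (1 : ℝ) * (X : ℝ) ^ (-10 * δ + δ / 16) := by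
          positivity
        have := mul_le_mul_of_nonneg_right hlog h0
        linarith
    _ ≤ (X : ℝ) ^ (1 - δ / 35) / 2 := by
        rw [← Real.rpow_add hX0, ← Real.rpow_add hX0, ← Real.rpow_add hX0]
        have h1 := hmono (a := δ + (2 * δ + 1 + (-10 * δ + δ / 16))) (b := 1 - δ / 35)
          (by linarith)
        have h2 := hpos (δ + (2 * δ + 1 + (-10 * δ + δ / 16)))
        linarith

/-- part (D) -/
theorem ls_D (δ : ℝ) (hδ : 0 < δ) (C : ℕ) : ∀ᶠ X : ℕ in atTop,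
    ∀ (K R₁ : ℕ) (β t : ℝ), 1 ≤ K → (K : ℝ) ≤ X → 1 ≤ R₁ → (R₁ : ℝ) ≤ X →
    (X : ℝ) ^ (-1 + δ / 16) < |β| → 0 ≤ t → t ≤ (X : ℝ) ^ (δ / 1000) →
    Real.sqrt (t * (1 + Real.log R₁)) * Real.sqrt (C * Real.log K ^ C * (K / |β|)) ≤
      (X : ℝ) ^ (1 - δ / 35) / 2 := by
  filter_upwards [ls_log (4 * C) (δ / 1000) (C + 1) (by positivity), eventually_ge_atTop 1]
    with X hlog hX K R₁ β t hK1 hK hR1 hR hβ ht0 ht
  have hX1 : (1 : ℝ) ≤ X := by exact_mod_cast hX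
  have hX0 : (0 : ℝ) < X := by linarith
  have hK1' : (1 : ℝ) ≤ K := by exact_mod_cast hK1
  have hR1' : (1 : ℝ) ≤ R₁ := by exact_mod_cast hR1
  have hmono : ∀ {a b : ℝ}, a ≤ b → (X : ℝ) ^ a ≤ (X : ℝ) ^ b := fun h =>
    Real.rpow_le_rpow_of_exponent_le hX1 h
  have hpos : ∀ a : ℝ, 0 < (X : ℝ) ^ a := fun a => Real.rpow_pos_of_pos hX0 a
  set L : ℝ := 1 + Real.log (2 * X) with hL
  have hL0 : 0 ≤ L := by
    have : 0 ≤ Real.log (2 * X) := Real.log_nonneg (by linarith)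
    rw [hL]
    linarith
  have hβ0 : 0 < |β| := (hpos _).trans hβ
  have e1 : 1 + Real.log R₁ ≤ L := by
    have : Real.log R₁ ≤ Real.log (2 * X) := Real.log_le_log (by linarith) (by linarith)
    rw [hL]
    linarith
  have e1' : 0 ≤ 1 + Real.log R₁ := by
    have := Real.log_nonneg hR1'
    linarith
  have e2 : Real.log K ^ C ≤ L ^ C := by
    refine pow_le_pow_left₀ (Real.log_nonneg hK1') ?_ C
    have : Real.log K ≤ Real.log (2 * X) := Real.log_le_log (by linarith) (by linarith)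
    rw [hL]
    linarith
  have e3 : (K : ℝ) / |β| ≤ (X : ℝ) ^ (2 - δ / 16) := by
    rw [div_le_iff₀ hβ0]
    calc (K : ℝ) ≤ X := hK
      _ = (X : ℝ) ^ (2 - δ / 16) * (X : ℝ) ^ (-1 + δ / 16) := by
        rw [← Real.rpow_add hX0]
        nth_rewrite 1 [← Real.rpow_one (X : ℝ)]
        congr 1
        ring
      _ ≤ (X : ℝ) ^ (2 - δ / 16) * |β| := mul_le_mul_of_nonneg_left hβ.le (hpos _).le
  rw [← Real.sqrt_mul (mul_nonneg ht0 e1')]
  apply Real.sqrt_le_iff.2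
  refine ⟨by have := hpos (1 - δ / 35); linarith, ?_⟩
  have hlK : 0 ≤ Real.log K ^ C := pow_nonneg (Real.log_nonneg hK1') C
  calc t * (1 + Real.log R₁) * (C * Real.log K ^ C * (K / |β|))
      ≤ (X : ℝ) ^ (δ / 1000) * L * (C * L ^ C * (X : ℝ) ^ (2 - δ / 16)) := by
        have h1 := hpos (δ / 1000)
        refine mul_le_mul (mul_le_mul ht e1 e1' h1.le) (mul_le_mul
          (mul_le_mul_of_nonneg_left e2 (Nat.cast_nonneg _)) e3 (by positivity)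
          (by positivity)) (by positivity) (by positivity)
    _ = (4 * C * L ^ (C + 1)) * ((X : ℝ) ^ (δ / 1000) * (X : ℝ) ^ (2 - δ / 16)) / 4 := by
        rw [pow_succ]
        ring
    _ ≤ (X : ℝ) ^ (δ / 1000) * ((X : ℝ) ^ (δ / 1000) * (X : ℝ) ^ (2 - δ / 16)) / 4 := by
        have h0 : 0 ≤ (X : ℝ) ^ (δ / 1000) * (X : ℝ) ^ (2 - δ / 16) := by positivity
        have := mul_le_mul_of_nonneg_right hlog h0
        linarith
    _ ≤ (X : ℝ) ^ (2 * (1 - δ / 35)) / 4 := by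
        rw [← Real.rpow_add hX0, ← Real.rpow_add hX0]
        have := hmono (a := δ / 1000 + (δ / 1000 + (2 - δ / 16))) (b := 2 * (1 - δ / 35))
          (by linarith)
        linarith
    _ = ((X : ℝ) ^ (1 - δ / 35) / 2) ^ 2 := by
        rw [div_pow, ← Real.rpow_natCast ((X : ℝ) ^ (1 - δ / 35)), ← Real.rpow_mul hX0.le]
        push_cast
        rw [mul_comm (1 - δ / 35) 2]
        norm_num

/-- the sum over two ranges -/
theorem ls_split (f : ℕ → ℝ) (hf : ∀ r, 1 ≤ r → 0 ≤ f r) (R R₁ : ℕ) :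
    ∑ r ∈ Icc 1 R, f r ≤ ∑ r ∈ Icc 1 R₁, f r + ∑ r ∈ Ioc R₁ R, f r := by
  rw [← Finset.sum_union (by
    rw [Finset.disjoint_left]
    intro r h1 h2
    rw [Finset.mem_Icc] at h1
    rw [Finset.mem_Ioc] at h2
    omega)]
  refine Finset.sum_le_sum_of_subset_of_nonneg ?_ ?_
  · intro r hr
    rw [Finset.mem_union, Finset.mem_Icc, Finset.mem_Ioc]
    rw [Finset.mem_Icc] at hr
    omega
  · intro r hr _
    refine hf r ?_
    rw [Finset.mem_union, Finset.mem_Icc, Finset.mem_Ioc] at hr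
    omega

theorem thm_Ls (h1 : St_Ld) (h2 : St_Lw) (h3 : St_Hb) : St_Ls := by
  intro η hη δ hδ hδ'
  obtain ⟨C₁, hC₁⟩ := h1 η hη
  obtain ⟨C₃, hC₃⟩ := h3 η hη
  obtain ⟨K₀, hK₀⟩ := eventually_atTop.1 hC₃
  filter_upwards [ls_KK δ hδ hδ', ls_big δ hδ hδ' C₁, ls_A δ hδ hδ', ls_D δ hδ C₃,
    MVII.ep_div (δ / 1000) (by positivity), eventually_ge_atTop 1,
    MVII.ep_large (9 * (max K₀ 3 : ℕ)) (1 / 1000) (by norm_num),
    MVII.ep_large 9 (δ / 100) (by positivity)]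
    with X eKK ebig eA eD ediv hX eK0 e9 m q R β hm hmX hq hqQ hR hβ
  have hX1 : (1 : ℝ) ≤ X := by exact_mod_cast hX
  have hX0 : (0 : ℝ) < X := by linarith
  have hmono : ∀ {a b : ℝ}, a ≤ b → (X : ℝ) ^ a ≤ (X : ℝ) ^ b := fun h =>
    Real.rpow_le_rpow_of_exponent_le hX1 h
  have hpos : ∀ a : ℝ, 0 < (X : ℝ) ^ a := fun a => Real.rpow_pos_of_pos hX0 a
  obtain ⟨hKX, hKl⟩ := eKK m hm hmX
  set K : ℕ := KK m X with hK
  -- the length
  have hKb : (X : ℝ) ^ (99 / 100 : ℝ) * (max K₀ 3 : ℕ) ≤ K := by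
    have h : (X : ℝ) ^ (99 / 100 : ℝ) * (9 * (max K₀ 3 : ℕ)) ≤ (X : ℝ) ^ (1 - δ / 1000) := by
      calc (X : ℝ) ^ (99 / 100 : ℝ) * (9 * (max K₀ 3 : ℕ)) ≤
            (X : ℝ) ^ (99 / 100 : ℝ) * (X : ℝ) ^ (1 / 1000 : ℝ) :=
            mul_le_mul_of_nonneg_left eK0 (hpos _).le
        _ ≤ _ := by
            rw [← Real.rpow_add hX0]
            exact hmono (by linarith)
    linarith
  have hmax : (3 : ℝ) ≤ ((max K₀ 3 : ℕ) : ℝ) := by exact_mod_cast le_max_right K₀ 3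
  have hX99 : (1 : ℝ) ≤ (X : ℝ) ^ (99 / 100 : ℝ) := Real.one_le_rpow hX1 (by norm_num)
  have hK99 : (X : ℝ) ^ (99 / 100 : ℝ) ≤ K := by
    refine le_trans ?_ hKb
    exact le_mul_of_one_le_right (hpos _).le (by linarith)
  have hKm : ((max K₀ 3 : ℕ) : ℝ) ≤ K := by
    refine le_trans ?_ hKb
    exact le_mul_of_one_le_left (by linarith) hX99
  have hKm' : max K₀ 3 ≤ K := by exact_mod_cast hKm
  have hK3 : 3 ≤ K := (le_max_right K₀ 3).trans hKm'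
  have hKK0 : K₀ ≤ K := (le_max_left K₀ 3).trans hKm'
  have hK1 : 1 ≤ K := by omega
  have hKp : (0 : ℝ) < K := by exact_mod_cast (by omega : 0 < K)
  -- the weights
  set w : ℕ → ℝ := fun r => (Nat.gcd r q : ℝ) / (r * Real.sqrt q) with hw
  set v : ℕ → ℝ := fun r => |1 - (if r ≤ TT δ X then fj (HH δ X) β else 0)| with hv
  have hhh : 1 ≤ HH δ X := Nat.one_le_ceil_iff.2 (hpos _)
  obtain ⟨hf0, hf1, -, hf2⟩ := MVII.thm_Fj (HH δ X) β hhh
  have hv1 : ∀ r, v r ≤ 1 := by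
    intro r
    show |1 - (if r ≤ TT δ X then fj (HH δ X) β else 0)| ≤ 1
    rw [abs_le]
    split_ifs <;> constructor <;> linarith
  have hv0 : ∀ r, 0 ≤ v r := fun r => abs_nonneg _
  have hw0 : ∀ r, 1 ≤ r → 0 ≤ w r ∧ w r ≤ 1 := fun r hr => ls_w r q hr hq
  set f : ℕ → ℝ := fun r => ∑ χ ∈ prm r, w r * (‖Tx η K β ⟨r, χ⟩‖ * v r) with hf
  have hfn : ∀ r, 1 ≤ r → 0 ≤ f r := fun r hr => Finset.sum_nonneg fun χ _ =>
    mul_nonneg (hw0 r hr).1 (mul_nonneg (norm_nonneg _) (hv0 r))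
  have hfw : ∀ r, 1 ≤ r → f r ≤ ∑ χ ∈ prm r, w r * ‖Tx η K β ⟨r, χ⟩‖ := by
    intro r hr
    refine Finset.sum_le_sum fun χ _ => mul_le_mul_of_nonneg_left ?_ (hw0 r hr).1
    exact mul_le_of_le_one_right (norm_nonneg _) (hv1 r)
  have hqX : (q : ℝ) ≤ (X : ℝ) ^ (30 * δ) := by
    have h4 : (q : ℝ) ≤ QQ δ X := by exact_mod_cast hqQ
    exact h4.trans (Nat.floor_le (hpos _).le)
  have hRK : R ≤ K := by
    have : (R : ℝ) ≤ K := hR.trans ((hmono (by norm_num)).trans hK99)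
    exact_mod_cast this
  obtain ⟨hU1, hU2, -⟩ := ls_floor (Real.one_le_rpow hX1 (by norm_num : (0 : ℝ) ≤ 1 / 1000))
  have hUK : ⌊(X : ℝ) ^ (1 / 1000 : ℝ)⌋₊ ≤ K := by
    have : (⌊(X : ℝ) ^ (1 / 1000 : ℝ)⌋₊ : ℝ) ≤ K := hU2.trans ((hmono (by norm_num)).trans hK99)
    exact_mod_cast this
  -- the large conductors
  have hLarge : ∀ (R₁ : ℕ) (b s : ℝ), 1 ≤ R₁ → (X : ℝ) ^ s / 2 ≤ R₁ →
      |β| ≤ (X : ℝ) ^ (-1 + b) → 0 ≤ b → 2 * b ≤ 26 * δ → 2 * b - s / 2 ≤ -(3 / 8 * δ) →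
      ∑ r ∈ Ioc R₁ R, f r ≤ (X : ℝ) ^ (1 - δ / 35) / 2 := by
    intro R₁ b s hR1 hR1s hβb hb hb2 hbs
    calc ∑ r ∈ Ioc R₁ R, f r ≤ ∑ r ∈ Ioc R₁ R, ∑ χ ∈ prm r, w r * ‖Tx η K β ⟨r, χ⟩‖ :=
          Finset.sum_le_sum fun r hr => hfw r (by rw [Finset.mem_Ioc] at hr; omega)
      _ ≤ _ := hC₁ K R₁ R q _ β hK3 hR1 hRK hq hU1 hUK
      _ ≤ _ := ebig K R₁ R q β b s hK1 hKX hR hqX hR1s hβb hb hb2 hbs
  show ∑ r ∈ Icc 1 R, f r ≤ (X : ℝ) ^ (1 - δ / 35)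
  by_cases hβs : |β| ≤ (X : ℝ) ^ (-1 + δ / 16)
  · -- (A), (B)
    obtain ⟨hT1, hT2, hT3⟩ := ls_floor (Real.one_le_rpow hX1 hδ.le)
    refine (ls_split f hfn R (TT δ X)).trans ?_
    have hB := hLarge (TT δ X) (δ / 16) δ hT1 hT3 hβs (by positivity) (by linarith) (by linarith)
    have hA : ∑ r ∈ Icc 1 (TT δ X), f r ≤ (X : ℝ) ^ (1 - δ / 35) / 2 := by
      refine le_trans ?_ (eA K β hK1 hKX hβs)
      set M : ℝ := K * Real.log K * (2 * Real.pi * (HH δ X * |β|)) with hM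
      have hM0 : 0 ≤ M := by
        have : 0 ≤ Real.log K := Real.log_nonneg (by exact_mod_cast hK1)
        have := Real.pi_pos
        positivity
      have h5 : ∀ r ∈ Icc 1 (TT δ X), f r ≤ TT δ X * M := by
        intro r hr
        rw [Finset.mem_Icc] at hr
        have h6 : v r ≤ 2 * Real.pi * (HH δ X * |β|) := by
          show |1 - (if r ≤ TT δ X then fj (HH δ X) β else 0)| ≤ _
          rw [if_pos hr.2, abs_of_nonneg (by linarith)]
          linarith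
        calc f r ≤ ∑ χ ∈ prm r, M := by
              refine Finset.sum_le_sum fun χ _ => ?_
              calc w r * (‖Tx η K β ⟨r, χ⟩‖ * v r) ≤ 1 * (‖Tx η K β ⟨r, χ⟩‖ * v r) :=
                    mul_le_mul_of_nonneg_right (hw0 r hr.1).2
                      (mul_nonneg (norm_nonneg _) (hv0 r))
                _ ≤ M := by
                    rw [one_mul]
                    exact mul_le_mul (ls_Tx hη K β _) h6 (hv0 r)
                      (mul_nonneg hKp.le (Real.log_nonneg (by exact_mod_cast hK1)))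
          _ = (prm r).card * M := by rw [Finset.sum_const, nsmul_eq_mul]
          _ ≤ TT δ X * M := by
              refine mul_le_mul_of_nonneg_right ?_ hM0
              exact_mod_cast (MVII.bl_five r hr.1).trans hr.2
      calc ∑ r ∈ Icc 1 (TT δ X), f r ≤ ∑ r ∈ Icc 1 (TT δ X), (TT δ X * M) :=
            Finset.sum_le_sum h5
        _ = (TT δ X : ℝ) ^ 2 * M := by
            rw [Finset.sum_const, Nat.card_Icc, nsmul_eq_mul, Nat.add_sub_cancel]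
            ring
    linarith
  · -- (C), (D)
    have hβs' := not_le.1 hβs
    have hβ0 : 0 < |β| := (hpos _).trans hβs'
    set R₁ : ℕ := ⌊(X : ℝ) ^ (60 * δ)⌋₊ with hR₁
    obtain ⟨hR1, hR2, hR3⟩ := ls_floor (Real.one_le_rpow hX1 (by positivity : 0 ≤ 60 * δ))
    refine (ls_split f hfn R R₁).trans ?_
    have hC := hLarge R₁ (13 * δ) (60 * δ) hR1 hR3 hβ (by positivity) (by linarith) (by linarith)
    have hD : ∑ r ∈ Icc 1 R₁, f r ≤ (X : ℝ) ^ (1 - δ / 35) / 2 := by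
      have hR1X : (R₁ : ℝ) ≤ X := by
        refine hR2.trans ?_
        nth_rewrite 2 [← Real.rpow_one (X : ℝ)]
        exact hmono (by linarith)
      have hdq : (q.divisors.card : ℝ) ≤ (X : ℝ) ^ (δ / 1000) := by
        refine ediv q hq ?_
        have h7 : (q : ℝ) ≤ X := by
          refine hqX.trans ?_
          nth_rewrite 2 [← Real.rpow_one (X : ℝ)]
          exact hmono (by linarith)
        have h8 : q ≤ X := by exact_mod_cast h7
        exact h8.trans (Nat.le_self_pow (by norm_num) X)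
      refine le_trans ?_ (eD K R₁ β q.divisors.card hK1 hKX hR1 hR1X hβs'
        (Nat.cast_nonneg _) hdq)
      calc ∑ r ∈ Icc 1 R₁, f r ≤ ∑ r ∈ Icc 1 R₁, ∑ χ ∈ prm r, w r * ‖Tx η K β ⟨r, χ⟩‖ :=
            Finset.sum_le_sum fun r hr => hfw r (Finset.mem_Icc.1 hr).1
        _ = ∑ x ∈ (Icc 1 R₁).sigma fun r => prm r, w x.1 * ‖Tx η K β ⟨x.1, x.2⟩‖ := by
            rw [Finset.sum_sigma]
        _ ≤ Real.sqrt (∑ x ∈ (Icc 1 R₁).sigma fun r => prm r, w x.1 ^ 2) *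
            Real.sqrt (∑ x ∈ (Icc 1 R₁).sigma fun r => prm r, ‖Tx η K β ⟨x.1, x.2⟩‖ ^ 2) :=
            Real.sum_mul_le_sqrt_mul_sqrt _ _ _
        _ ≤ _ := by
            refine mul_le_mul (Real.sqrt_le_sqrt ?_) (Real.sqrt_le_sqrt ?_)
              (Real.sqrt_nonneg _) (Real.sqrt_nonneg _)
            · rw [Finset.sum_sigma]
              refine le_trans (Finset.sum_le_sum fun r hr => ?_) (h2 R₁ q hq)
              show ∑ _χ ∈ prm r, w r ^ 2 ≤ (r : ℝ) * w r ^ 2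
              rw [Finset.sum_const, nsmul_eq_mul]
              refine mul_le_mul_of_nonneg_right ?_ (sq_nonneg _)
              exact_mod_cast MVII.bl_five r (Finset.mem_Icc.1 hr).1
            · rw [Finset.sum_sigma]
              refine hK₀ K hKK0 R₁ β ?_ ?_ ?_
              · calc (R₁ : ℝ) ≤ (X : ℝ) ^ (60 * δ) := hR2
                  _ ≤ (X : ℝ) ^ (99 / 100 * (1 / 50) : ℝ) := hmono (by linarith)
                  _ = ((X : ℝ) ^ (99 / 100 : ℝ)) ^ (1 / 50 : ℝ) := by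
                      rw [← Real.rpow_mul hX0.le]
                  _ ≤ (K : ℝ) ^ (1 / 50 : ℝ) :=
                      Real.rpow_le_rpow (hpos _).le hK99 (by norm_num)
              · refine le_trans ?_ hβs'.le
                rw [div_le_iff₀ hKp]
                calc (1 : ℝ) = (X : ℝ) ^ (-1 + δ / 1000) * (X : ℝ) ^ (1 - δ / 1000) := by
                      rw [← Real.rpow_add hX0]
                      have : -1 + δ / 1000 + (1 - δ / 1000) = 0 := by ring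
                      rw [this, Real.rpow_zero]
                  _ ≤ (X : ℝ) ^ (-1 + δ / 1000) * (9 * K) :=
                      mul_le_mul_of_nonneg_left (by linarith) (hpos _).le
                  _ ≤ (X : ℝ) ^ (-1 + δ / 1000) * ((X : ℝ) ^ (δ / 100) * K) :=
                      mul_le_mul_of_nonneg_left
                        (mul_le_mul_of_nonneg_right e9 hKp.le) (hpos _).le
                  _ = (X : ℝ) ^ (-1 + δ / 1000 + δ / 100) * K := by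
                      rw [Real.rpow_add hX0 (-1 + δ / 1000)]
                      ring
                  _ ≤ (X : ℝ) ^ (-1 + δ / 16) * K :=
                      mul_le_mul_of_nonneg_right (hmono (by linarith)) hKp.le
              · calc |β| ≤ (X : ℝ) ^ (-1 + 13 * δ) := hβ
                  _ ≤ (X : ℝ) ^ (-(99 / 100) : ℝ) := hmono (by linarith)
                  _ ≤ (K : ℝ) ^ (-(99 / 100) : ℝ) :=
                      Real.rpow_le_rpow_of_nonpos hKp hKX (by norm_num)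
    linarith

end Pool.Agent.MV5
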