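import Pool.Agent.MV5.StA

set_option autoImplicit false

/-!
# MV5, module LW: mean square of the weights
-/

namespace Pool.Agent.MV5

open Finset

theorem lw_harm (R d : ℕ) (hd : 1 ≤ d) :
    ∑ r ∈ (Icc 1 R).filter (fun r => d ∣ r), 1 / (r : ℝ) ≤ (1 / (d : ℝ)) * (1 + Real.log R) := by
  have hd0 : (0 : ℝ) < d := by exact_mod_cast hd
  have h1 : (Icc 1 R).filter (fun r => d ∣ r) = (Icc 1 (R / d)).image (fun j => d * j) := by
    ext r
    simp only [mem_filter, mem_Icc, mem_image]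
    constructor
    · rintro ⟨⟨h1, h2⟩, j, rfl⟩
      have hj : 1 ≤ j := by
        rcases Nat.eq_zero_or_pos j with h | h
        · simp [h] at h1
        · exact h
      exact ⟨j, ⟨hj, (Nat.le_div_iff_mul_le hd).2 (by rw [mul_comm]; exact h2)⟩, rfl⟩
    · rintro ⟨j, ⟨h1, h2⟩, rfl⟩
      have h3 := (Nat.le_div_iff_mul_le hd).1 h2
      exact ⟨⟨Nat.mul_pos hd h1, by rw [mul_comm]; exact h3⟩, dvd_mul_right _ _⟩
  rw [h1, sum_image fun a _ b _ hab => Nat.eq_of_mul_eq_mul_left hd hab]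
  have h2 : ∑ j ∈ Icc 1 (R / d), 1 / ((d * j : ℕ) : ℝ) =
      (1 / (d : ℝ)) * ∑ j ∈ Icc 1 (R / d), 1 / (j : ℝ) := by
    rw [mul_sum]
    refine sum_congr rfl fun j _ => ?_
    rw [Nat.cast_mul, one_div_mul_one_div]
  rw [h2]
  refine mul_le_mul_of_nonneg_left ?_ (by positivity)
  have h3 : ∑ j ∈ Icc 1 (R / d), 1 / (j : ℝ) ≤ ∑ j ∈ Icc 1 R, 1 / (j : ℝ) := by
    refine sum_le_sum_of_subset_of_nonneg (Icc_subset_Icc_right (Nat.div_le_self _ _)) ?_
    intro j _ _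
    positivity
  refine h3.trans ?_
  have h4 := harmonic_le_one_add_log R
  have h5 : ((harmonic R : ℚ) : ℝ) = ∑ j ∈ Icc 1 R, 1 / (j : ℝ) := by
    rw [harmonic_eq_sum_Icc]
    push_cast
    refine sum_congr rfl fun j _ => ?_
    rw [one_div]
  rw [← h5]
  exact h4

theorem thm_Lw : St_Lw := by
  intro R q hq
  have hq0 : (0 : ℝ) < q := by exact_mod_cast hq
  have hlog : 0 ≤ 1 + Real.log R := by
    have := Real.log_natCast_nonneg R
    linarith
  have h1 : ∀ r ∈ Icc 1 R, (r : ℝ) * ((Nat.gcd r q : ℝ) / (r * Real.sqrt q)) ^ 2 ≤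
      ∑ d ∈ q.divisors, if d ∣ r then (d : ℝ) ^ 2 / q * (1 / (r : ℝ)) else 0 := by
    intro r hr
    have hr0 : (0 : ℝ) < r := by exact_mod_cast (mem_Icc.1 hr).1
    have e1 : (r : ℝ) * ((Nat.gcd r q : ℝ) / (r * Real.sqrt q)) ^ 2 =
        (Nat.gcd r q : ℝ) ^ 2 / q * (1 / (r : ℝ)) := by
      rw [div_pow, mul_pow, Real.sq_sqrt hq0.le]
      field_simp
    rw [e1]
    have h2 : Nat.gcd r q ∈ q.divisors := Nat.mem_divisors.2 ⟨Nat.gcd_dvd_right _ _, by omega⟩
    have h3 := single_le_sum (f := fun d : ℕ =>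
      if d ∣ r then (d : ℝ) ^ 2 / q * (1 / (r : ℝ)) else 0) (s := q.divisors) (fun d _ => by
        split_ifs
        · positivity
        · exact le_rfl) h2
    simp only [if_pos (Nat.gcd_dvd_left r q)] at h3
    exact h3
  refine (sum_le_sum h1).trans ?_
  rw [sum_comm]
  have h4 : ∀ d ∈ q.divisors, ∑ r ∈ Icc 1 R,
      (if d ∣ r then (d : ℝ) ^ 2 / q * (1 / (r : ℝ)) else 0) ≤ 1 + Real.log R := by
    intro d hd
    have hdq := Nat.dvd_of_mem_divisors hd
    have hd1 : 1 ≤ d := Nat.pos_of_mem_divisors hd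
    have hd0 : (0 : ℝ) < d := by exact_mod_cast hd1
    rw [← sum_filter, ← mul_sum]
    have h5 := mul_le_mul_of_nonneg_left (lw_harm R d hd1)
      (show (0 : ℝ) ≤ (d : ℝ) ^ 2 / q by positivity)
    refine h5.trans ?_
    have h6 : (d : ℝ) / q ≤ 1 := by
      rw [div_le_one hq0]
      exact_mod_cast Nat.le_of_dvd hq hdq
    have h7 : (d : ℝ) ^ 2 / q * (1 / (d : ℝ) * (1 + Real.log R)) = d / q * (1 + Real.log R) := by
      field_simp
    rw [h7]
    exact mul_le_of_le_one_left hlog h6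
  refine (sum_le_sum h4).trans ?_
  rw [sum_const, nsmul_eq_mul]

end Pool.Agent.MV5
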