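import Pool.Agent.MV5.StB
import Pool.Agent.MVII.Mt
import Pool.Agent.MVII.Lo
import Pool.Agent.GBQ.Basic

set_option autoImplicit false

/-!
# MV5, module Mk: means of the terms of the model (helper43)
-/

namespace Pool.Agent.MV5

open Finset Filter
open Pool.Agent.GBQ (ee lam nd Admissible)
open Pool.Agent.MVX (Chr tent Bm Um prm Win GP)
open Pool.Agent.LIN (PP pz Dens)
open Pool.Agent.MT (IsWt)
open Pool.Agent.MVII (TT QQ HH H0 cp cs gp GQ ar PL PM NB BI Bc Md fj rr Per mn wq Sum4 Blk)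

/-! ### periods -/

private theorem mk_cp {p L : ℕ} (h : p ∣ L) (y : ℤ) : cp p (y + L) = cp p y := by
  unfold cp
  have h1 : ((p : ℤ) ∣ y + L) ↔ (p : ℤ) ∣ y :=
    (Int.dvd_add_left (Int.natCast_dvd_natCast.2 h))
  simp only [h1]

private theorem mk_cs {k L : ℕ} (h : k ∣ L) (y : ℤ) : cs k (y + L) = cs k y := by
  unfold cs
  exact Finset.prod_congr rfl fun p hp => mk_cp ((Nat.dvd_of_mem_primeFactors hp).trans h) y

private theorem mk_chi {r L : ℕ} (χ : DirichletCharacter ℂ r) (h : r ∣ L) (y : ℤ) :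
    χ ((y + L : ℤ) : ZMod r) = χ (y : ZMod r) := by
  have h1 : ((L : ℤ) : ZMod r) = 0 := by
    rw [Int.cast_natCast]
    exact (ZMod.natCast_eq_zero_iff L r).2 h
  rw [Int.cast_add, h1, add_zero]

private theorem mk_Pd {d q L : ℕ} (ν b : ℤ) (hq1 : 1 ≤ q) (hd : d ∣ L) (hq : q ∣ L) (y : ℤ) :
    Pd d ν q b (y + L) = Pd d ν q b y := by
  unfold Pd
  have h1 : ((d : ℤ) ∣ y + L - ν) ↔ (d : ℤ) ∣ y - ν := by
    have e : y + (L : ℤ) - ν = (y - ν) + L := by ring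
    rw [e]
    exact Int.dvd_add_left (Int.natCast_dvd_natCast.2 hd)
  obtain ⟨c, rfl⟩ := hq
  have hq0 : (q : ℝ) ≠ 0 := by
    have : q ≠ 0 := by omega
    exact_mod_cast this
  have h2 : (b : ℝ) * ((y + ((q * c : ℕ) : ℤ) : ℤ) : ℝ) / q = (b : ℝ) * y / q + ((b * c : ℤ) : ℝ) := by
    push_cast
    field_simp
  simp only [h1]
  rw [h2, Pool.Agent.GBQ.ee_add_int]

/-! ### the first part -/

private theorem mk_first {M d q k r : ℕ} {ν b : ℤ} {χ : DirichletCharacter ℂ r} (hM : 1 ≤ M)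
    (hd : d ∣ M) (hq : q ∣ M) (hk : k ∣ M) (hr : r ∣ M) (hq1 : 1 ≤ q) (hks : Squarefree k)
    (hkr : k.Coprime r) {p : ℕ} (hp : p.Prime) (hpk : p ∣ k) (hpl : ¬ p ∣ Nat.lcm d q) :
    mn M (fun y => (starRingEnd ℂ) (χ (y : ZMod r)) * ((cs k y : ℝ) : ℂ) * Pd d ν q b y) = 0 := by
  obtain ⟨k', rfl⟩ := hpk
  have hpk' : ¬ p ∣ k' := fun h => by
    have h1 : p * p ∣ p * k' := Nat.mul_dvd_mul_left p h
    exact hp.one_lt.ne' (Nat.isUnit_iff.1 (hks p h1))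
  have hk'0 : k' ≠ 0 := fun h => by
    rw [h, mul_zero] at hks
    exact not_squarefree_zero hks
  have hr0 : r ≠ 0 := fun h => by
    rw [h] at hr
    have := Nat.eq_zero_of_zero_dvd hr
    omega
  have hd0 : d ≠ 0 := fun h => by
    rw [h] at hd
    have := Nat.eq_zero_of_zero_dvd hd
    omega
  have hpr : ¬ p ∣ r := fun h => by
    have h1 : p ∣ Nat.gcd (p * k') r := Nat.dvd_gcd (Dvd.intro _ rfl) h
    rw [hkr] at h1
    exact hp.one_lt.ne' (Nat.dvd_one.1 h1)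
  have hcs : ∀ y : ℤ, cs (p * k') y = cs k' y * cp p y := by
    intro y
    unfold cs
    rw [Nat.Coprime.primeFactors_mul ((Nat.Prime.coprime_iff_not_dvd hp).2 hpk'),
      Finset.prod_union (Nat.Coprime.disjoint_primeFactors
        ((Nat.Prime.coprime_iff_not_dvd hp).2 hpk')), Nat.Prime.primeFactors hp,
      Finset.prod_singleton, mul_comm]
  set E : ℕ := r * (k' * Nat.lcm d q) with hE
  have hl0 : Nat.lcm d q ≠ 0 := Nat.lcm_ne_zero hd0 (by omega)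
  have hE1 : 1 ≤ E := Nat.one_le_iff_ne_zero.2 (mul_ne_zero hr0 (mul_ne_zero hk'0 hl0))
  have hcop : E.Coprime p := by
    rw [Nat.coprime_comm, Nat.Prime.coprime_iff_not_dvd hp, hE, hp.dvd_mul, hp.dvd_mul]
    push Not
    exact ⟨hpr, hpk', hpl⟩
  have dr : r ∣ E := Dvd.intro _ rfl
  have dk : k' ∣ E := (Dvd.intro _ rfl : k' ∣ k' * Nat.lcm d q).trans (Dvd.intro_left _ rfl)
  have dl : Nat.lcm d q ∣ E := (Dvd.intro_left _ rfl : Nat.lcm d q ∣ k' * Nat.lcm d q).trans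
    (Dvd.intro_left _ rfl)
  have dd : d ∣ E := (Nat.dvd_lcm_left d q).trans dl
  have dq : q ∣ E := (Nat.dvd_lcm_right d q).trans dl
  have hF : (fun y : ℤ => (starRingEnd ℂ) (χ (y : ZMod r)) * ((cs (p * k') y : ℝ) : ℂ) *
      Pd d ν q b y) = fun y : ℤ => ((starRingEnd ℂ) (χ (y : ZMod r)) * ((cs k' y : ℝ) : ℂ) *
      Pd d ν q b y) * ((cp p y : ℝ) : ℂ) := by
    funext y
    rw [hcs y]
    push_cast
    ring
  have hper1 : Per E (fun y : ℤ => (starRingEnd ℂ) (χ (y : ZMod r)) * ((cs k' y : ℝ) : ℂ) *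
      Pd d ν q b y) := by
    intro y
    show (starRingEnd ℂ) (χ ((y + (E : ℤ) : ℤ) : ZMod r)) * ((cs k' (y + (E : ℤ)) : ℝ) : ℂ) *
      Pd d ν q b (y + (E : ℤ)) = _
    rw [mk_chi χ dr, mk_cs dk, mk_Pd ν b hq1 dd dq]
  have hper2 : Per p (fun y : ℤ => ((cp p y : ℝ) : ℂ)) := by
    intro y
    show ((cp p (y + (p : ℤ)) : ℝ) : ℂ) = _
    rw [mk_cp (dvd_refl p)]
  have hperM : Per M (fun y : ℤ => ((starRingEnd ℂ) (χ (y : ZMod r)) * ((cs k' y : ℝ) : ℂ) *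
      Pd d ν q b y) * ((cp p y : ℝ) : ℂ)) := by
    intro y
    show ((starRingEnd ℂ) (χ ((y + (M : ℤ) : ℤ) : ZMod r)) * ((cs k' (y + (M : ℤ)) : ℝ) : ℂ) *
      Pd d ν q b (y + (M : ℤ))) * ((cp p (y + (M : ℤ)) : ℝ) : ℂ) = _
    rw [mk_chi χ hr, mk_cs ((Dvd.intro_left _ rfl : k' ∣ p * k').trans hk),
      mk_Pd ν b hq1 hd hq, mk_cp ((Dvd.intro _ rfl : p ∣ p * k').trans hk)]
  have hperE : Per (E * p) (fun y : ℤ => ((starRingEnd ℂ) (χ (y : ZMod r)) *
      ((cs k' y : ℝ) : ℂ) * Pd d ν q b y) * ((cp p y : ℝ) : ℂ)) := by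
    intro y
    have e1 : E ∣ E * p := Dvd.intro _ rfl
    show ((starRingEnd ℂ) (χ ((y + ((E * p : ℕ) : ℤ) : ℤ) : ZMod r)) *
      ((cs k' (y + ((E * p : ℕ) : ℤ)) : ℝ) : ℂ) *
      Pd d ν q b (y + ((E * p : ℕ) : ℤ))) * ((cp p (y + ((E * p : ℕ) : ℤ)) : ℝ) : ℂ) = _
    rw [mk_chi χ (dr.trans e1), mk_cs (dk.trans e1), mk_Pd ν b hq1 (dd.trans e1) (dq.trans e1),
      mk_cp (Dvd.intro_left _ rfl : p ∣ E * p)]
  obtain ⟨m1, m2, -, -⟩ := Pool.Agent.MVII.thm_Mt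
  rw [hF, m1 M (E * p) _ hM (Nat.one_le_iff_ne_zero.2 (mul_ne_zero (by omega) hp.ne_zero))
    hperM hperE, m2 E p _ _ hE1 hp.one_le hcop hper1 hper2,
    (Pool.Agent.MVII.thm_Lo p 1 0 hp (fun h => hp.one_lt.ne' (Nat.dvd_one.1 h))).1, mul_zero]

/-! ### the second part -/

/-- the mean of the absolute value of a Ramanujan sum -/
private theorem mk_abs {p : ℕ} (hp : p.Prime) :
    mn p (fun y : ℤ => ((|cp p y| : ℝ) : ℂ)) = ((2 * ((p : ℝ) - 1) / p : ℝ) : ℂ) := by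
  unfold mn
  have hp1 : (1 : ℝ) ≤ p := by exact_mod_cast hp.one_le
  have h1 : ∀ y ∈ range p, (fun y : ℤ => ((|cp p y| : ℝ) : ℂ)) (y : ℤ) =
      (((if y = 0 then (p : ℝ) - 2 else 0) + 1 : ℝ) : ℂ) := by
    intro y hy
    have h2 : ((p : ℤ) ∣ (y : ℤ)) ↔ y = 0 := by
      rw [Int.natCast_dvd_natCast]
      constructor
      · intro h
        exact Nat.eq_zero_of_dvd_of_lt h (Finset.mem_range.1 hy)
      · rintro rfl
        exact dvd_zero p
    show ((|cp p (y : ℤ)| : ℝ) : ℂ) = _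
    unfold cp
    simp only [h2]
    split_ifs
    · rw [abs_of_nonneg (by linarith)]
      congr 1
      ring
    · rw [abs_neg, abs_one]
      norm_num
  rw [Finset.sum_congr rfl h1, ← Complex.ofReal_sum, Finset.sum_add_distrib,
    Finset.sum_ite_eq' (range p) 0, if_pos (Finset.mem_range.2 hp.pos), Finset.sum_const,
    Finset.card_range, nsmul_eq_mul, mul_one]
  push_cast
  congr 1
  ring

/-- the mean of the indicator function of a residue class -/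
private theorem mk_ind {d : ℕ} (hd : 1 ≤ d) (ν : ℤ) :
    mn d (fun y : ℤ => (((if (d : ℤ) ∣ y - ν then 1 else 0) : ℝ) : ℂ)) = ((1 / d : ℝ) : ℂ) := by
  unfold mn
  have hd0 : (d : ℤ) ≠ 0 := by
    have : d ≠ 0 := by omega
    exact_mod_cast this
  have hx0 : 0 ≤ ν % (d : ℤ) := Int.emod_nonneg _ hd0
  have hxl : ν % (d : ℤ) < d := Int.emod_lt_of_pos _ (by omega)
  set x : ℕ := (ν % (d : ℤ)).toNat with hx
  have hxe : (x : ℤ) = ν % (d : ℤ) := Int.toNat_of_nonneg hx0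
  have hxr : x ∈ range d := Finset.mem_range.2 (by omega)
  have h1 : ∀ y ∈ range d, (fun y : ℤ => (((if (d : ℤ) ∣ y - ν then 1 else 0) : ℝ) : ℂ)) (y : ℤ) =
      ((if y = x then (1 : ℝ) else 0 : ℝ) : ℂ) := by
    intro y hy
    have hy' := Finset.mem_range.1 hy
    have h2 : ((d : ℤ) ∣ (y : ℤ) - ν) ↔ y = x := by
      have h3 : ((d : ℤ) ∣ (y : ℤ) - ν) ↔ (y : ℤ) % d = ν % d := by
        rw [Int.emod_eq_emod_iff_emod_sub_eq_zero, ← Int.dvd_iff_emod_eq_zero]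
      rw [h3, ← hxe, Int.emod_eq_of_lt (by omega) (by omega)]
      omega
    show (((if (d : ℤ) ∣ (y : ℤ) - ν then 1 else 0) : ℝ) : ℂ) = _
    simp only [h2]
  rw [Finset.sum_congr rfl h1, ← Complex.ofReal_sum, Finset.sum_ite_eq' (range d) x, if_pos hxr]
  push_cast
  ring

private theorem mk_second {M d q k r : ℕ} {ν b : ℤ} {χ : DirichletCharacter ℂ r} (hM : 1 ≤ M)
    (hd : d ∣ M) (hk : k ∣ M) (hds : Squarefree d) (hd2 : ¬ 2 ∣ d)
    (hdν : (d : ℤ) ∣ ν ^ 2 - 2) :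
    ‖mn M (fun y => (starRingEnd ℂ) (χ (y : ZMod r)) * ((cs k y : ℝ) : ℂ) * Pd d ν q b y)‖ ≤
      2 ^ k.primeFactors.card / d := by
  classical
  obtain ⟨m1, m2, m3, -⟩ := Pool.Agent.MVII.thm_Mt
  set A : Finset ℕ := k.primeFactors.filter (fun p => ¬ p ∣ d) with hA
  have hd1 : 1 ≤ d := Nat.one_le_iff_ne_zero.2 (Squarefree.ne_zero hds)
  have hAp : ∀ p ∈ A, p.Prime := fun p hp =>
    Nat.prime_of_mem_primeFactors (Finset.mem_filter.1 hp).1
  have hAk : ∀ p ∈ A, p ∣ M := fun p hp =>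
    (Nat.dvd_of_mem_primeFactors (Finset.mem_filter.1 hp).1).trans hk
  set G : ℤ → ℝ := fun y => (if (d : ℤ) ∣ y - ν then 1 else 0) * ∏ p ∈ A, |cp p y| with hG
  -- the pointwise bound
  have hpt : ∀ y : ℤ, ‖(starRingEnd ℂ) (χ (y : ZMod r)) * ((cs k y : ℝ) : ℂ) *
      Pd d ν q b y‖ ≤ G y := by
    intro y
    rw [norm_mul, norm_mul, RCLike.norm_conj, Complex.norm_real, Real.norm_eq_abs]
    have h1 : ‖χ (y : ZMod r)‖ ≤ 1 := DirichletCharacter.norm_le_one χ _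
    by_cases hy : (d : ℤ) ∣ y - ν
    · have h2 : ‖Pd d ν q b y‖ = 1 := by
        unfold Pd
        rw [if_pos hy]
        exact Pool.Agent.GBQ.ee_norm _
      have h3 : |cs k y| = ∏ p ∈ A, |cp p y| := by
        unfold cs
        rw [Finset.abs_prod]
        symm
        refine Finset.prod_filter_of_ne fun p hp hne hpd => hne ?_
        have hpp : p.Prime := Nat.prime_of_mem_primeFactors hp
        have h4 : (p : ℤ) ∣ (d : ℤ) := Int.natCast_dvd_natCast.2 hpd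
        have h5 : ¬ (p : ℤ) ∣ y := by
          intro h
          have h6 : (p : ℤ) ∣ ν := by
            have e : ν = y - (y - ν) := by ring
            rw [e]
            exact dvd_sub h (h4.trans hy)
          have h7 : (p : ℤ) ∣ 2 := by
            have e : (2 : ℤ) = ν ^ 2 - (ν ^ 2 - 2) := by ring
            rw [e]
            exact dvd_sub (dvd_pow h6 two_ne_zero) (h4.trans hdν)
          have h8 : p ∣ 2 := by exact_mod_cast h7
          have h9 : p = 2 := (Nat.prime_dvd_prime_iff_eq hpp Nat.prime_two).1 h8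
          rw [h9] at hpd
          exact hd2 hpd
        unfold cp
        rw [if_neg h5, abs_neg, abs_one]
      rw [h2, mul_one, h3]
      show _ ≤ (if (d : ℤ) ∣ y - ν then 1 else 0) * ∏ p ∈ A, |cp p y|
      rw [if_pos hy]
      exact mul_le_mul_of_nonneg_right h1 (Finset.prod_nonneg fun _ _ => abs_nonneg _)
    · have h2 : Pd d ν q b y = 0 := by
        unfold Pd
        rw [if_neg hy]
      rw [h2, norm_zero, mul_zero]
      show 0 ≤ (if (d : ℤ) ∣ y - ν then 1 else 0) * ∏ p ∈ A, |cp p y|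
      rw [if_neg hy, zero_mul]
  -- the mean of the majorant
  set P : ℕ := ∏ p ∈ A, p with hP
  have hP1 : 1 ≤ P := Finset.prod_pos fun p hp => (hAp p hp).pos
  have hcop : d.Coprime P := Nat.Coprime.prod_right fun p hp =>
    ((Nat.Prime.coprime_iff_not_dvd (hAp p hp)).2 (Finset.mem_filter.1 hp).2).symm
  have hind : ∀ L : ℕ, d ∣ L → ∀ y : ℤ, (((if (d : ℤ) ∣ y + L - ν then 1 else 0) : ℝ) : ℂ) =
      (((if (d : ℤ) ∣ y - ν then 1 else 0) : ℝ) : ℂ) := by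
    intro L hL y
    have h1 : ((d : ℤ) ∣ y + L - ν) ↔ (d : ℤ) ∣ y - ν := by
      have e : y + (L : ℤ) - ν = (y - ν) + L := by ring
      rw [e]
      exact Int.dvd_add_left (Int.natCast_dvd_natCast.2 hL)
    simp only [h1]
  have hprd : ∀ L : ℕ, (∀ p ∈ A, p ∣ L) → ∀ y : ℤ, ∏ p ∈ A, ((|cp p (y + L)| : ℝ) : ℂ) =
      ∏ p ∈ A, ((|cp p y| : ℝ) : ℂ) := by
    intro L hL y
    exact Finset.prod_congr rfl fun p hp => by rw [mk_cp (hL p hp)]
  have hGc : (fun y : ℤ => ((G y : ℝ) : ℂ)) = fun y : ℤ =>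
      (((if (d : ℤ) ∣ y - ν then 1 else 0) : ℝ) : ℂ) * ∏ p ∈ A, ((|cp p y| : ℝ) : ℂ) := by
    funext y
    rw [hG]
    push_cast
    rfl
  have hper : ∀ L : ℕ, d ∣ L → (∀ p ∈ A, p ∣ L) → Per L (fun y : ℤ =>
      (((if (d : ℤ) ∣ y - ν then 1 else 0) : ℝ) : ℂ) * ∏ p ∈ A, ((|cp p y| : ℝ) : ℂ)) := by
    intro L h1 h2 y
    show (((if (d : ℤ) ∣ y + L - ν then 1 else 0) : ℝ) : ℂ) *
      ∏ p ∈ A, ((|cp p (y + L)| : ℝ) : ℂ) = _
    rw [hind L h1 y, hprd L h2 y]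
  have hAP : ∀ p ∈ A, p ∣ P := fun p hp => Finset.dvd_prod_of_mem (fun p => p) hp
  have hval : mn M (fun y : ℤ => ((G y : ℝ) : ℂ)) =
      (((1 / d : ℝ) * ∏ p ∈ A, (2 * ((p : ℝ) - 1) / p) : ℝ) : ℂ) := by
    rw [hGc, m1 M (d * P) _ hM (Nat.mul_pos hd1 hP1) (hper M hd hAk)
      (hper (d * P) (Dvd.intro _ rfl) fun p hp => (hAP p hp).trans (Dvd.intro_left _ rfl)),
      m2 d P _ _ hd1 hP1 hcop (fun y => hind d (dvd_refl d) y) (fun y => hprd P hAP y),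
      mk_ind hd1 ν, m3 A (fun p y => ((|cp p y| : ℝ) : ℂ)) hAp (fun p _ y => by
        show ((|cp p (y + (p : ℤ))| : ℝ) : ℂ) = _
        rw [mk_cp (dvd_refl p)]),
      Finset.prod_congr rfl fun p hp => mk_abs (hAp p hp)]
    push_cast
    rfl
  have hval' : (∑ y ∈ range M, G (y : ℤ)) / M =
      (1 / d : ℝ) * ∏ p ∈ A, (2 * ((p : ℝ) - 1) / p) := by
    apply Complex.ofReal_injective
    rw [← hval]
    unfold mn
    push_cast
    rfl
  have hMp : (0 : ℝ) < (M : ℝ) := by exact_mod_cast hM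
  have h1 : ‖mn M (fun y => (starRingEnd ℂ) (χ (y : ZMod r)) * ((cs k y : ℝ) : ℂ) *
      Pd d ν q b y)‖ ≤ (∑ y ∈ range M, G (y : ℤ)) / M := by
    unfold mn
    rw [norm_div, Complex.norm_natCast]
    exact div_le_div_of_nonneg_right ((norm_sum_le _ _).trans
      (Finset.sum_le_sum fun y _ => hpt y)) hMp.le
  refine h1.trans ?_
  rw [hval']
  have h2 : ∏ p ∈ A, (2 * ((p : ℝ) - 1) / p) ≤ 2 ^ k.primeFactors.card := by
    calc ∏ p ∈ A, (2 * ((p : ℝ) - 1) / p) ≤ ∏ _p ∈ A, (2 : ℝ) := by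
          refine Finset.prod_le_prod (fun p hp => ?_) fun p hp => ?_
          · have h3 : (1 : ℝ) ≤ p := by exact_mod_cast (hAp p hp).one_le
            exact div_nonneg (by linarith) (by linarith)
          · have h3 : (0 : ℝ) < p := by exact_mod_cast (hAp p hp).pos
            rw [div_le_iff₀ h3]
            linarith
      _ = 2 ^ A.card := by rw [Finset.prod_const]
      _ ≤ 2 ^ k.primeFactors.card :=
          pow_le_pow_right₀ one_le_two (Finset.card_le_card (Finset.filter_subset _ _))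
  calc (1 / d : ℝ) * ∏ p ∈ A, (2 * ((p : ℝ) - 1) / p) ≤ (1 / d : ℝ) * 2 ^ k.primeFactors.card :=
        mul_le_mul_of_nonneg_left h2 (by positivity)
    _ = 2 ^ k.primeFactors.card / d := by ring

theorem thm_Mk : St_Mk := by
  intro M d q k r ν b χ hM hd hq hk hr hds hd2 hdν hq1 hks hkr
  refine ⟨?_, mk_second hM hd hk hds hd2 hdν⟩
  rintro ⟨p, hp, hpk, hpl⟩
  exact mk_first hM hd hq hk hr hq1 hks hkr hp hpk hpl

end Pool.Agent.MV5
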