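import Mathlib
import Pool.Agent.MV5.StB
import Pool.Agent.MV5.StD
import Pool.Agent.MVII.Mn

set_option autoImplicit false

/-!
# MV5: Mn, the main term from below
-/

namespace Pool.Agent.MV5

open Finset Filter
open Pool.Agent.GBQ (ee lam nd Admissible)
open Pool.Agent.MVX (Chr tent Bm Um prm Win GP)
open Pool.Agent.LIN (PP pz Dens)
open Pool.Agent.MT (IsWt)
open Pool.Agent.MVII (TT QQ HH H0 cp cs gp GQ ar PL PM NB BI Bc Md fj rr Per mn wq Sum4 Blk loc
  SolY SolN)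

theorem mn_windows (f : ℕ → ℝ) (a L : ℕ) (c : ℕ → ℝ) (J : ℕ)
    (h : ∀ i, i < J → c i ≤ ∑ y ∈ Ioc (a + i * L) (a + i * L + L), f y) :
    ∑ i ∈ range J, c i ≤ ∑ y ∈ Ioc a (a + J * L), f y := by
  induction J with
  | zero => simp
  | succ J ih =>
    have h1 := ih fun i hi => h i (by omega)
    have h2 := h J (by omega)
    have h3 : a + (J + 1) * L = a + J * L + L := by ring
    rw [h3, ← Finset.sum_Ioc_consecutive f (Nat.le_add_right a (J * L))
      (Nat.le_add_right (a + J * L) L), Finset.sum_range_succ]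
    linarith

/-- the local mean vanishes near the end -/
theorem mn_BY_zero {η : ℝ → ℝ} (hη : IsWt η) (h K x : ℕ) (c : Chr) (hK : 1 ≤ K)
    (hx : 7 * K + 8 * h ≤ 8 * x) : BY η h K x c = 0 := by
  unfold BY
  rw [mul_eq_zero]
  right
  refine sum_eq_zero fun n hn => ?_
  rw [mem_Icc] at hn
  have hK0 : (0 : ℝ) < K := by exact_mod_cast hK
  by_cases hc : η ((n : ℝ) / K) = 0
  · rw [hc, Complex.ofReal_zero, mul_zero, mul_zero, zero_mul]
  · have h1 := (hη.supp _ hc).2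
    rw [div_lt_iff₀ hK0] at h1
    have h2 : (7 : ℝ) * K + 8 * h ≤ 8 * x := by exact_mod_cast hx
    have h3 : tent h x n = 0 := by
      unfold tent
      refine max_eq_left ?_
      have h4 : (x : ℝ) - n ≤ |(n : ℝ) - x| := by
        rw [abs_sub_comm]
        exact le_abs_self _
      linarith
    rw [h3, Complex.ofReal_zero, mul_zero]

theorem mn_MY_zero (η : ℝ → ℝ) (T Q h K x : ℕ) (hz : ∀ c : Chr, BY η h K x c = 0) :
    MY η T Q h K x = 0 := by
  unfold MY PM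
  refine sum_eq_zero fun r _ => sum_eq_zero fun χ _ => ?_
  rw [hz, zero_mul, zero_mul]

/-- many of the windows are in the middle -/
theorem mn_mid {η : ℝ → ℝ} (hη : IsWt η) (K L J : ℕ) (hL : 1 ≤ L) (hK : 1000 * L ≤ K)
    (hJ : 11 * K + 16 * L ≤ 16 * (J * L)) :
    (K : ℝ) / 3 ≤ (L : ℝ) * ∑ i ∈ range J, η (((K / 16 + i * L : ℕ) : ℝ) / K) := by
  have hK0 : (0 : ℝ) < K := by
    have : 1 ≤ K := by omega
    exact_mod_cast this
  have hL0 : (0 : ℝ) < L := by exact_mod_cast hL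
  set i0 := K / (4 * L) + 1 with hi0
  set i1 := 11 * K / (16 * L) with hi1
  have f1 : K < 4 * L * i0 := Nat.lt_mul_div_succ K (by omega)
  have f2 : (4 * L) * (K / (4 * L)) ≤ K := Nat.mul_div_le _ _
  have f3 : 16 * L * i1 ≤ 11 * K := Nat.mul_div_le _ _
  have f4 : 11 * K < 16 * L * (i1 + 1) := Nat.lt_mul_div_succ _ (by omega)
  have hi1J : i1 < J := by
    have h1 : 16 * L * i1 + 16 * L ≤ 16 * (J * L) := by omega
    have h2 : L * (i1 + 1) ≤ L * J := by
      have e1 : 16 * (L * (i1 + 1)) = 16 * L * i1 + 16 * L := by ring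
      have e2 : 16 * (L * J) = 16 * (J * L) := by ring
      omega
    exact Nat.le_of_mul_le_mul_left h2 (by omega)
  have hsub : Ico i0 (i1 + 1) ⊆ range J := by
    intro i hi
    rw [mem_Ico] at hi
    rw [mem_range]
    omega
  have h1 : ((Ico i0 (i1 + 1)).card : ℝ) ≤ ∑ i ∈ range J, η (((K / 16 + i * L : ℕ) : ℝ) / K) := by
    calc ((Ico i0 (i1 + 1)).card : ℝ) = ∑ i ∈ Ico i0 (i1 + 1), (1 : ℝ) := by
          rw [sum_const, nsmul_eq_mul, mul_one]
      _ ≤ ∑ i ∈ Ico i0 (i1 + 1), η (((K / 16 + i * L : ℕ) : ℝ) / K) := by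
          refine sum_le_sum fun i hi => ?_
          rw [mem_Ico] at hi
          have g1 : K ≤ 4 * (K / 16 + i * L) := by
            have h2 : 4 * L * i0 ≤ 4 * L * i := Nat.mul_le_mul_left _ hi.1
            have h3 : 4 * L * i = 4 * (i * L) := by ring
            omega
          have g2 : 4 * (K / 16 + i * L) ≤ 3 * K := by
            have h2 : 16 * L * i ≤ 16 * L * i1 := Nat.mul_le_mul_left _ (by omega)
            have h3 : 16 * L * i = 16 * (i * L) := by ring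
            omega
          have g1' : (K : ℝ) ≤ 4 * ((K / 16 + i * L : ℕ) : ℝ) := by exact_mod_cast g1
          have g2' : 4 * ((K / 16 + i * L : ℕ) : ℝ) ≤ 3 * K := by exact_mod_cast g2
          refine (hη.one _ ?_ ?_).ge
          · rw [le_div_iff₀ hK0]
            linarith
          · rw [div_le_iff₀ hK0]
            linarith
      _ ≤ _ := sum_le_sum_of_subset_of_nonneg hsub fun i _ _ => hη.nonneg _
  have h2 : (K : ℝ) / 3 ≤ L * ((Ico i0 (i1 + 1)).card : ℝ) := by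
    have g1 : K ≤ 3 * (L * (Ico i0 (i1 + 1)).card) := by
      rw [Nat.card_Ico]
      have e1 : i1 + 1 - i0 = i1 - K / (4 * L) := by omega
      rw [e1, Nat.mul_sub]
      have e2 : 16 * L * (i1 + 1) = 16 * (L * i1) + 16 * L := by ring
      have e3 : (4 * L) * (K / (4 * L)) = 4 * (L * (K / (4 * L))) := by ring
      omega
    have g2 : (K : ℝ) ≤ 3 * (L * ((Ico i0 (i1 + 1)).card : ℝ)) := by exact_mod_cast g1
    linarith
  exact h2.trans (mul_le_mul_of_nonneg_left h1 hL0.le)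

theorem thm_Mn (h1 : St_W1) (h2 : St_Bs) : St_Mn := by
  classical
  intro η hη c₀ δ₀ η₀ C κ δ hc₀ hδ₀ hδ₀' hη₀ hC hκ hκ' hCκ hδ0 hδ1
  have hδ1' : δ ≤ 1 / 1000000 := by
    refine hδ1.trans_eq ?_
    norm_num
  filter_upwards [h1 η hη c₀ δ₀ η₀ C κ δ hc₀ hδ₀ hδ₀' hη₀ hC hκ hκ' hCκ hδ0 hδ1,
    eventually_ge_atTop 2,
    Pool.Agent.MVII.mn_ev (1 - 10 * δ) (1 - δ / 1000) 100000 (by linarith),
    Pool.Agent.MVII.mn_ev 0 (1 - δ / 1000) 100000 (by linarith),
    Pool.Agent.MVII.mn_ev (1 - δ / 150) (1 - 6 / 1000 * δ) 36 (by linarith),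
    Pool.Agent.MVII.mn_ev (-δ) (-(δ / 200)) 12 (by linarith)] with X hW hX2 e2 e3 e4 e5
  intro q₁ χ₁ U l hDat m c cu hm hmX hSv n hBlk hcop hpar
  have hX1 : (1 : ℝ) ≤ X := by
    have : 1 ≤ X := by omega
    exact_mod_cast this
  have hX0 : (0 : ℝ) < X := by linarith
  rw [Real.rpow_zero, mul_one] at e3
  -- parameters
  set T := TT δ X with hT
  set Q := QQ δ X with hQ
  set h := HH δ X with hh
  set L := H0 δ X with hL
  set K := KK m X with hK
  have hp10 : (1 : ℝ) ≤ (X : ℝ) ^ (1 - 10 * δ) := Real.one_le_rpow hX1 (by linarith)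
  have hp20 : (1 : ℝ) ≤ (X : ℝ) ^ (1 - 20 * δ) := Real.one_le_rpow hX1 (by linarith)
  have hh1 : 1 ≤ h := by
    have h4 : (X : ℝ) ^ (1 - 10 * δ) ≤ h := Nat.le_ceil _
    exact_mod_cast hp10.trans h4
  have hh2 : (h : ℝ) ≤ 2 * (X : ℝ) ^ (1 - 10 * δ) := by
    have h4 : (h : ℝ) < (X : ℝ) ^ (1 - 10 * δ) + 1 := Nat.ceil_lt_add_one (by positivity)
    linarith
  have hL1 : 1 ≤ L := Nat.le_floor (by exact_mod_cast hp20)
  have hL2 : (L : ℝ) ≤ (X : ℝ) ^ (1 - 10 * δ) := by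
    have h4 : (L : ℝ) ≤ (X : ℝ) ^ (1 - 20 * δ) := Nat.floor_le (Real.rpow_nonneg hX0.le _)
    exact h4.trans (Real.rpow_le_rpow_of_exponent_le hX1 (by linarith))
  have hm1 : (1 : ℝ) ≤ m := by exact_mod_cast hm
  -- size of `K`
  have hK1 : (X : ℝ) ^ (1 - δ / 1000) < 8 * (K + 1) := by
    have h4 : X < 8 * m * (K + 1) := Nat.lt_mul_div_succ X (by omega)
    have h5 : (X : ℝ) < 8 * m * (K + 1) := by exact_mod_cast h4
    have h6 : (X : ℝ) = (X : ℝ) ^ (1 - δ / 1000) * (X : ℝ) ^ (δ / 1000) := by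
      rw [← Real.rpow_add hX0, show 1 - δ / 1000 + δ / 1000 = 1 by ring, Real.rpow_one]
    have h7 : (0 : ℝ) < (X : ℝ) ^ (δ / 1000) := Real.rpow_pos_of_pos hX0 _
    have h8 : (8 : ℝ) * m * (K + 1) ≤ 8 * (K + 1) * (X : ℝ) ^ (δ / 1000) := by
      have h9 := mul_le_mul_of_nonneg_left hmX (by positivity : (0 : ℝ) ≤ 8 * (K + 1))
      linarith
    have h10 : (X : ℝ) ^ (1 - δ / 1000) * (X : ℝ) ^ (δ / 1000) <
        8 * (K + 1) * (X : ℝ) ^ (δ / 1000) := by
      rw [← h6]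
      exact h5.trans_le h8
    exact lt_of_mul_lt_mul_right h10 h7.le
  set A := (X : ℝ) ^ (1 - δ / 1000) with hA
  have hKA : A / 9 ≤ K := by linarith
  -- natural inequalities
  have hnh : 1000 * h ≤ K := by
    have h5 : (1000 : ℝ) * h ≤ K := by linarith
    exact_mod_cast h5
  have hnL : 1000 * L ≤ K := by
    have h5 : (1000 : ℝ) * L ≤ K := by linarith
    exact_mod_cast h5
  -- the terms
  set f : ℕ → ℝ := fun y => (MY η T Q h K y).re * SD (DD X) (ct q₁ c) y *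
    (Md T Q h (X / 8) X (n - m * y)).re with hf
  have hR2 : R2 η δ X m K (DD X) (ct q₁ c) n = ∑ y ∈ range (K + h), f y := rfl
  rw [hR2]
  -- the windows
  set a := K / 16 with ha
  set J := (K - h - a) / L with hJ
  have hJL : J * L ≤ K - h - a := Nat.div_mul_le_self _ _
  have hJL2 : K - h - a < (J + 1) * L := by
    have h4 := Nat.lt_mul_div_succ (K - h - a) (by omega : 0 < L)
    rw [mul_comm] at h4
    exact h4
  have hJL3 : K - h - a < J * L + L := by
    have h4 : (J + 1) * L = J * L + L := by ring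
    omega
  have hmain : ∑ i ∈ range J, (L : ℝ) * (η (((a + i * L : ℕ) : ℝ) / K) * (X : ℝ) ^ (-(δ / 200)) -
      (X : ℝ) ^ (-δ)) ≤ ∑ y ∈ Ioc a (a + J * L), f y := by
    apply mn_windows f a L _ J
    intro i hi
    have h5 : i * L + L ≤ J * L := by
      have h6 : (i + 1) * L ≤ J * L := Nat.mul_le_mul_right L hi
      have h7 : (i + 1) * L = i * L + L := by ring
      omega
    exact hW q₁ χ₁ U l hDat m c cu hm hmX hSv n hBlk hcop hpar (a + i * L) (by omega)
      (by omega)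
  have hmid := mn_mid hη K L J hL1 hnL (by omega)
  have hp1 : (0 : ℝ) < (X : ℝ) ^ (-(δ / 200)) := Real.rpow_pos_of_pos hX0 _
  have hp2 : (0 : ℝ) < (X : ℝ) ^ (-δ) := Real.rpow_pos_of_pos hX0 _
  have hlow : (X : ℝ) ^ (1 - δ / 150) ≤ ∑ i ∈ range J, (L : ℝ) *
      (η (((a + i * L : ℕ) : ℝ) / K) * (X : ℝ) ^ (-(δ / 200)) - (X : ℝ) ^ (-δ)) := by
    have g1 : ∑ i ∈ range J, (L : ℝ) *
        (η (((a + i * L : ℕ) : ℝ) / K) * (X : ℝ) ^ (-(δ / 200)) - (X : ℝ) ^ (-δ)) =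
        ((L : ℝ) * ∑ i ∈ range J, η (((a + i * L : ℕ) : ℝ) / K)) * (X : ℝ) ^ (-(δ / 200)) -
          ((J * L : ℕ) : ℝ) * (X : ℝ) ^ (-δ) := by
      rw [← Finset.mul_sum, Finset.sum_sub_distrib, ← Finset.sum_mul, Finset.sum_const,
        Finset.card_range, nsmul_eq_mul, Nat.cast_mul]
      ring
    rw [g1]
    have g2 : ((J * L : ℕ) : ℝ) ≤ K := by
      have : J * L ≤ K := by omega
      exact_mod_cast this
    have hKr : (0 : ℝ) ≤ K := Nat.cast_nonneg _
    have g3 : ((J * L : ℕ) : ℝ) * (X : ℝ) ^ (-δ) ≤ K / 12 * (X : ℝ) ^ (-(δ / 200)) := by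
      have g4 := mul_le_mul_of_nonneg_right g2 hp2.le
      have g5 := mul_le_mul_of_nonneg_left e5 hKr
      linarith
    have g4 : (K : ℝ) / 3 * (X : ℝ) ^ (-(δ / 200)) ≤
        ((L : ℝ) * ∑ i ∈ range J, η (((a + i * L : ℕ) : ℝ) / K)) * (X : ℝ) ^ (-(δ / 200)) :=
      mul_le_mul_of_nonneg_right hmid hp1.le
    have g5 : A / 9 * (X : ℝ) ^ (-(δ / 200)) ≤ K * (X : ℝ) ^ (-(δ / 200)) :=
      mul_le_mul_of_nonneg_right hKA hp1.le
    have g6 : A * (X : ℝ) ^ (-(δ / 200)) = (X : ℝ) ^ (1 - 6 / 1000 * δ) := by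
      rw [hA, ← Real.rpow_add hX0]
      congr 1
      ring
    have g7 : A / 9 * (X : ℝ) ^ (-(δ / 200)) = (X : ℝ) ^ (1 - 6 / 1000 * δ) / 9 := by
      rw [← g6]
      ring
    linarith
  refine hlow.trans (hmain.trans (le_of_eq ?_))
  -- the other terms vanish
  refine Finset.sum_subset ?_ ?_
  · intro y hy
    rw [mem_Ioc] at hy
    rw [mem_range]
    omega
  · intro y hy1 hy2
    rw [mem_range] at hy1
    rw [mem_Ioc, not_and_or] at hy2
    have hz : MY η T Q h K y = 0 := by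
      refine mn_MY_zero η T Q h K y fun ch => ?_
      rcases hy2 with hy2 | hy2
      · exact h2.2.2.1 η h K y ch hη (by omega) (by omega)
      · exact mn_BY_zero hη h K y ch (by omega) (by omega)
    show (MY η T Q h K y).re * SD (DD X) (ct q₁ c) y * (Md T Q h (X / 8) X (n - m * y)).re = 0
    rw [hz, Complex.zero_re, zero_mul, zero_mul]

end Pool.Agent.MV5
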