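import Mathlib
import Pool.Agent.MV5.StB
import Pool.Agent.MVII.Gi

set_option autoImplicit false

/-!
# MV5.Oc: orthogonality with primitive characters
-/

namespace Pool.Agent.MV5

open Finset Filter
open Pool.Agent.GBQ (ee lam nd Admissible)
open Pool.Agent.MVX (Chr tent Bm Um prm Win GP)

theorem oc_inv {r : ℕ} (χ : DirichletCharacter ℂ r) (a : ZMod r) (ha : IsUnit a) :
    (starRingEnd ℂ) (χ a) = χ a⁻¹ := by
  rw [← MVII.gi_inv]
  have h1 : χ a * χ a⁻¹ = 1 := by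
    rw [← map_mul, ZMod.mul_inv_of_unit _ ha, map_one]
  have h2 : χ a * χ⁻¹ a = 1 := by
    rw [← MulChar.mul_apply, mul_inv_cancel, MulChar.one_apply ha]
  have h3 : χ a ≠ 0 := left_ne_zero_of_mul_eq_one h1
  exact mul_left_cancel₀ h3 (h2.trans h1.symm)

theorem oc_orth (l : ℕ) [NeZero l] (y n : ℕ) (hy : y.Coprime l) :
    ∑ ψ : DirichletCharacter ℂ l, (starRingEnd ℂ) (ψ (y : ZMod l)) * ψ (n : ZMod l) =
      if (y : ZMod l) = (n : ZMod l) then (l.totient : ℂ) else 0 := by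
  have hyu : IsUnit (y : ZMod l) := (ZMod.isUnit_iff_coprime y l).mpr hy
  rw [← DirichletCharacter.sum_char_inv_mul_char_eq ℂ hyu (n : ZMod l)]
  exact Finset.sum_congr rfl fun ψ _ => by rw [oc_inv ψ _ hyu]

theorem thm_Oc : St_Oc := by
  intro l hl
  have : NeZero l := ⟨by omega⟩
  have hval : ∀ (r : ℕ) (h : r ∣ l) (χ : DirichletCharacter ℂ r) (a : ℕ), a.Coprime l →
      (DirichletCharacter.changeLevel h χ) (a : ZMod l) = χ (a : ZMod r) := by
    intro r h χ a ha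
    have hc2 : IsCoprime ((a : ℕ) : ℤ) (l : ℤ) := Nat.isCoprime_iff_coprime.mpr ha
    have h9 := DirichletCharacter.changeLevel_eq_cast_of_dvd' χ h hc2
    rwa [Int.cast_natCast, Int.cast_natCast] at h9
  have h2 : ∀ y n : ℕ, y.Coprime l → n.Coprime l →
      ∑ r ∈ l.divisors, ∑ χ ∈ prm r, (starRingEnd ℂ) (χ (y : ZMod r)) * χ (n : ZMod r) =
        if (y : ZMod l) = (n : ZMod l) then (l.totient : ℂ) else 0 := by
    intro y n hy hn
    rw [← oc_orth l y n hy, MVII.gi_sum l]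
    refine Finset.sum_congr rfl fun r hr => Finset.sum_congr rfl fun χ _ => ?_
    have hrl : r ∣ l := (Nat.mem_divisors.mp hr).1
    rw [dif_pos hrl, hval r hrl χ y hy, hval r hrl χ n hn]
  refine ⟨?_, h2⟩
  have h3 := h2 1 1 (Nat.coprime_one_left l) (Nat.coprime_one_left l)
  rw [if_pos rfl] at h3
  have h4 : ∑ r ∈ l.divisors, ∑ χ ∈ prm r, (starRingEnd ℂ) (χ ((1 : ℕ) : ZMod r)) *
      χ ((1 : ℕ) : ZMod r) = ((∑ r ∈ l.divisors, (prm r).card : ℕ) : ℂ) := by
    push_cast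
    refine Finset.sum_congr rfl fun r _ => ?_
    rw [Finset.sum_congr rfl (fun χ _ => by rw [map_one, map_one, one_mul])]
    rw [Finset.sum_const, nsmul_eq_mul, mul_one]
  rw [h4] at h3
  exact_mod_cast h3

end Pool.Agent.MV5
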