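import Pool.Agent.MV5.StB
import Pool.Agent.MVII.Ex
import Pool.Agent.MVII.Cr
import Pool.Agent.MVII.Ga
import Pool.Agent.MVII.Mf
import Pool.Agent.MVII.Fj
import Pool.Agent.MVII.Sp
import Pool.Agent.MVII.Kt
import Pool.Agent.MVII.Ep

set_option autoImplicit false

/-!
# MV5, module Of: outside the arcs the model is small
-/

namespace Pool.Agent.MV5

open Finset Filter
open Pool.Agent.GBQ (ee lam nd Admissible)
open Pool.Agent.MVX (Chr tent Bm Um prm Win GP)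
open Pool.Agent.LIN (PP pz Dens)
open Pool.Agent.MT (IsWt)
open Pool.Agent.MVII (TT QQ HH H0 cp cs gp GQ ar PL PM NB BI Bc Md fj rr Per mn wq Sum4 Blk Wc)

theorem of_lam_nonneg (n : ℕ) : 0 ≤ lam n := ArithmeticFunction.vonMangoldt_nonneg

theorem of_lamsum (u v : ℕ) : ∑ n ∈ Ioc u v, lam n ≤ v * Real.log v := by
  have h0 : ∀ n ∈ Ioc u v, lam n ≤ Real.log v := by
    intro n hn
    have hn' := Finset.mem_Ioc.1 hn
    refine (ArithmeticFunction.vonMangoldt_le_log).trans ?_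
    exact Real.log_le_log (by exact_mod_cast (by omega : 0 < n)) (by exact_mod_cast hn'.2)
  have h1 : ∑ n ∈ Ioc u v, lam n ≤ ∑ _n ∈ Ioc u v, Real.log v :=
    Finset.sum_le_sum h0
  rw [Finset.sum_const, Nat.card_Ioc, nsmul_eq_mul] at h1
  refine h1.trans ?_
  refine mul_le_mul_of_nonneg_right ?_ (Real.log_natCast_nonneg v)
  exact_mod_cast Nat.sub_le v u

/-- the sum of the Fejér weights -/
theorem of_fjsum (h3 : MVII.St_Sp) (h4 : MVII.St_Fj) {Q h : ℕ} (hh : 1 ≤ h) (hQ1 : 1 ≤ Q)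
    {ρ : ℝ} (hρ : 0 < ρ) (α : ℝ)
    (hα : ∀ q a : ℕ, 1 ≤ q → q ≤ Q → a ∈ rr q → ρ ≤ nd (α + a / q)) :
    ∑ p ∈ (Icc 1 Q).sigma (fun q => rr q), fj h (α + (p.2 : ℝ) / p.1) ≤
      (Q : ℝ) ^ 6 / (h : ℝ) ^ 2 + 1 / (4 * ((h : ℝ) * ρ) ^ 2) := by
  classical
  obtain ⟨C, hC⟩ : ∃ C : ℝ, C = 1 / (4 * ((h : ℝ) * ρ) ^ 2) := ⟨_, rfl⟩
  obtain ⟨P, hP⟩ : ∃ P : Finset (Σ _ : ℕ, ℕ), P = (Icc 1 Q).sigma (fun q => rr q) := ⟨_, rfl⟩
  have hQ : (1 : ℝ) ≤ Q := by exact_mod_cast hQ1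
  have hh0 : (0 : ℝ) < h := by exact_mod_cast hh
  have hC0 : 0 ≤ C := by rw [hC]; positivity
  have hcard : (P.card : ℝ) ≤ (Q : ℝ) ^ 2 := by
    rw [hP]
    exact MVII.kt_card Q
  have hmem : ∀ p ∈ P, 1 ≤ p.1 ∧ p.1 ≤ Q ∧ p.2 ∈ rr p.1 := by
    intro p hp
    rw [hP] at hp
    obtain ⟨h5, h6⟩ := mem_sigma.mp hp
    exact ⟨(mem_Icc.mp h5).1, (mem_Icc.mp h5).2, h6⟩
  rw [← hP, ← hC]
  have hbd : ∀ p ∈ P, fj h (α + (p.2 : ℝ) / p.1) ≤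
      (Q : ℝ) ^ 4 / (h : ℝ) ^ 2 +
        if nd (α + (p.2 : ℝ) / p.1) < 1 / (2 * (Q : ℝ) ^ 2) then C else 0 := by
    intro p hp
    obtain ⟨hp1, hpQ, ha⟩ := hmem p hp
    have h5 := (h4 h (α + p.2 / p.1) hh)
    split_ifs with hc
    · have h6 := hα p.1 p.2 hp1 hpQ ha
      have h7 : (4 * ((h : ℝ) * ρ) ^ 2) * fj h (α + (p.2 : ℝ) / p.1) ≤ 1 := by
        refine le_trans ?_ h5.2.2.1
        refine mul_le_mul_of_nonneg_right ?_ h5.1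
        refine mul_le_mul_of_nonneg_left ?_ (by norm_num)
        exact pow_le_pow_left₀ (by positivity) (mul_le_mul_of_nonneg_left h6 hh0.le) 2
      have h8 : fj h (α + (p.2 : ℝ) / p.1) ≤ C := by
        rw [hC, le_div_iff₀ (by positivity)]
        linarith
      have h9 : 0 ≤ (Q : ℝ) ^ 4 / (h : ℝ) ^ 2 := by positivity
      linarith
    · rw [add_zero]
      rw [not_lt] at hc
      have h7 : ((h : ℝ) / (Q : ℝ) ^ 2) ^ 2 ≤ 4 * ((h : ℝ) * nd (α + p.2 / p.1)) ^ 2 := by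
        have h8 : (h : ℝ) / (Q : ℝ) ^ 2 ≤ 2 * ((h : ℝ) * nd (α + p.2 / p.1)) := by
          have h9 := mul_le_mul_of_nonneg_left hc (mul_nonneg zero_le_two hh0.le)
          calc (h : ℝ) / (Q : ℝ) ^ 2 = 2 * (h : ℝ) * (1 / (2 * (Q : ℝ) ^ 2)) := by
                field_simp
            _ ≤ 2 * (h : ℝ) * nd (α + p.2 / p.1) := h9
            _ = _ := by ring
        have h10 := pow_le_pow_left₀ (by positivity) h8 2
        rw [mul_pow] at h10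
        norm_num at h10 ⊢
        exact h10
      have h11 : ((h : ℝ) / (Q : ℝ) ^ 2) ^ 2 * fj h (α + p.2 / p.1) ≤ 1 :=
        (mul_le_mul_of_nonneg_right h7 h5.1).trans h5.2.2.1
      rw [le_div_iff₀ (by positivity)]
      have h12 : fj h (α + p.2 / p.1) * (h : ℝ) ^ 2 =
          ((h : ℝ) / (Q : ℝ) ^ 2) ^ 2 * fj h (α + p.2 / p.1) * (Q : ℝ) ^ 4 := by
        have hQ0 : (Q : ℝ) ≠ 0 := by positivity
        field_simp
      rw [h12]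
      calc _ ≤ 1 * (Q : ℝ) ^ 4 := mul_le_mul_of_nonneg_right h11 (by positivity)
        _ = _ := one_mul _
  refine (sum_le_sum hbd).trans ?_
  rw [sum_add_distrib, sum_const, nsmul_eq_mul]
  have hone : ∑ p ∈ P, (if nd (α + p.2 / p.1) < 1 / (2 * (Q : ℝ) ^ 2) then C else 0) ≤ C := by
    rw [← sum_filter, sum_const, nsmul_eq_mul]
    have h5 : (P.filter (fun p => nd (α + p.2 / p.1) < 1 / (2 * (Q : ℝ) ^ 2))).card ≤ 1 := by
      rw [card_le_one]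
      intro p hp p' hp'
      obtain ⟨hp1, hp2⟩ := mem_filter.mp hp
      obtain ⟨hp1', hp2'⟩ := mem_filter.mp hp'
      obtain ⟨hTp, hpQ, ha⟩ := hmem p hp1
      obtain ⟨hTp', hpQ', ha'⟩ := hmem p' hp1'
      by_contra hne
      have h6 : p.1 ≠ p'.1 ∨ p.2 ≠ p'.2 := by
        by_contra hcon
        rw [not_or, not_not, not_not] at hcon
        apply hne
        obtain ⟨q, a⟩ := p
        obtain ⟨q', a'⟩ := p'
        obtain ⟨h7, h8⟩ := hcon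
        simp only at h7 h8
        rw [h7, h8]
      have h9 := h3 Q p.1 p.2 p'.1 p'.2 α hQ1 hTp hpQ hTp' hpQ' ha ha' h6 hp2
      exact absurd hp2' (not_lt.mpr h9)
    have h6 : ((P.filter (fun p => nd (α + p.2 / p.1) < 1 / (2 * (Q : ℝ) ^ 2))).card : ℝ) ≤ 1 := by
      exact_mod_cast h5
    calc _ ≤ 1 * C := mul_le_mul_of_nonneg_right h6 hC0
      _ = C := one_mul C
  have h14 : (P.card : ℝ) * ((Q : ℝ) ^ 4 / (h : ℝ) ^ 2) ≤ (Q : ℝ) ^ 6 / (h : ℝ) ^ 2 := by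
    calc (P.card : ℝ) * ((Q : ℝ) ^ 4 / (h : ℝ) ^ 2)
        ≤ (Q : ℝ) ^ 2 * ((Q : ℝ) ^ 4 / (h : ℝ) ^ 2) :=
          mul_le_mul_of_nonneg_right hcard (by positivity)
      _ = _ := by ring
  exact add_le_add h14 hone

/-- finite form -/
theorem of_fin (h0 : St_Wn) {T Q h u v : ℕ} (hh : 1 ≤ h) (hu : h ≤ u) (huv : u ≤ v)
    (hQ1 : 1 ≤ Q) {ρ : ℝ} (hρ : 0 < ρ) (α : ℝ)
    (hα : ∀ q a : ℕ, 1 ≤ q → q ≤ Q → a ∈ rr q → ρ ≤ nd (α + a / q)) :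
    ‖∑ x ∈ range (v + h), Md T Q h u v x * ee (α * x)‖ ≤
      ((Q : ℝ) ^ 6 / (h : ℝ) ^ 2 + 1 / (4 * ((h : ℝ) * ρ) ^ 2)) *
        ((T : ℝ) ^ 2 * Real.sqrt T * ∑ n ∈ Ioc u v, lam n) := by
  rw [MVII.mf_expand (MVII.thm_Ex (MVII.thm_Cr MVII.thm_Ga))]
  obtain ⟨W, hW⟩ : ∃ W : ℝ, W = (T : ℝ) ^ 2 * Real.sqrt T * ∑ n ∈ Ioc u v, lam n := ⟨_, rfl⟩
  have hW0 : 0 ≤ W := by
    rw [hW]
    exact mul_nonneg (mul_nonneg (by positivity) (Real.sqrt_nonneg _))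
      (sum_nonneg fun n _ => of_lam_nonneg n)
  have h1 : ∑ q ∈ Icc 1 Q, ∑ a ∈ rr q, MVII.mf_G T h u v α q a =
      ∑ p ∈ (Icc 1 Q).sigma (fun q => rr q), MVII.mf_G T h u v α p.1 p.2 := by
    rw [sum_sigma]
  rw [h1, ← hW]
  refine (norm_sum_le _ _).trans ?_
  have h2 : ∀ p ∈ (Icc 1 Q).sigma (fun q => rr q), ‖MVII.mf_G T h u v α p.1 p.2‖ ≤
      fj h (α + (p.2 : ℝ) / p.1) * W := by
    intro p hp
    obtain ⟨h5, h6⟩ := mem_sigma.mp hp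
    rw [hW]
    unfold MVII.mf_G
    exact h0 T h u v p.1 p.2 (α + p.2 / p.1) hh hu huv (mem_Icc.mp h5).1 h6
  refine (sum_le_sum h2).trans ?_
  rw [← sum_mul]
  exact mul_le_mul_of_nonneg_right (of_fjsum MVII.thm_Sp MVII.thm_Fj hh hQ1 hρ α hα) hW0

theorem of_ev {a : ℝ} (ha : a < 1) (C : ℝ) : ∀ᶠ X : ℕ in atTop, C * (X : ℝ) ^ a ≤ X := by
  filter_upwards [MVII.ep_large C (1 - a) (by linarith), eventually_gt_atTop 0] with X hX hX0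
  have h0 : (0 : ℝ) < X := by exact_mod_cast hX0
  have h2 : (X : ℝ) ^ (1 - a) * (X : ℝ) ^ a = X := by
    rw [← Real.rpow_add h0]
    have : 1 - a + a = 1 := by ring
    rw [this, Real.rpow_one]
  calc C * (X : ℝ) ^ a ≤ (X : ℝ) ^ (1 - a) * (X : ℝ) ^ a :=
        mul_le_mul_of_nonneg_right hX (Real.rpow_nonneg h0.le _)
    _ = X := h2

/-- **Of** -/
theorem thm_Of (h0 : St_Wn) : St_Of := by
  intro δ hδ hδ1
  filter_upwards [MVII.ep_log (δ / 4) (by positivity) 1, MVII.ep_large 2 (δ / 4) (by positivity),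
    of_ev (a := 1 - 10 * δ) (by linarith) 16, eventually_ge_atTop 16] with X hlog h2X hX1 hX16
  intro α hα
  have hXr : (16 : ℝ) ≤ X := by exact_mod_cast hX16
  have hX0 : (0 : ℝ) < X := by linarith
  have hX1' : (1 : ℝ) ≤ X := by linarith
  obtain ⟨h, hh⟩ : ∃ h, h = HH δ X := ⟨_, rfl⟩
  obtain ⟨T, hT⟩ : ∃ T, T = TT δ X := ⟨_, rfl⟩
  obtain ⟨Q, hQ⟩ : ∃ Q, Q = QQ δ X := ⟨_, rfl⟩
  rw [← hh, ← hT, ← hQ]
  rw [← hQ] at hα
  have hh1 : 1 ≤ h := by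
    rw [hh]
    unfold HH
    rw [Nat.one_le_ceil_iff]
    positivity
  have hhge : (X : ℝ) ^ (1 - 10 * δ) ≤ h := by
    rw [hh]
    exact Nat.le_ceil _
  have hhX : h ≤ X / 8 := by
    rw [Nat.le_div_iff_mul_le (by norm_num)]
    have h5 : (h : ℝ) < (X : ℝ) ^ (1 - 10 * δ) + 1 := by
      rw [hh]
      exact Nat.ceil_lt_add_one (by positivity)
    have h6 : (h : ℝ) * 8 ≤ X := by
      have h7 : (8 : ℝ) * ((X : ℝ) ^ (1 - 10 * δ) + 1) ≤ X := by linarith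
      linarith
    exact_mod_cast h6
  have hTle : (T : ℝ) ≤ (X : ℝ) ^ δ := by
    rw [hT]
    exact Nat.floor_le (by positivity)
  have hQle : (Q : ℝ) ≤ (X : ℝ) ^ (30 * δ) := by
    rw [hQ]
    exact Nat.floor_le (by positivity)
  have hQ1 : 1 ≤ Q := by
    rw [hQ]
    unfold QQ
    rw [Nat.one_le_floor_iff]
    exact Real.one_le_rpow hX1' (by linarith)
  have hρ : (0 : ℝ) < (X : ℝ) ^ (-1 + 12 * δ) := by positivity
  have hh0 : (0 : ℝ) < h := by exact_mod_cast hh1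
  refine (of_fin h0 hh1 hhX (Nat.div_le_self X 8) hQ1 hρ α hα).trans ?_
  -- the first factor
  have hF1 : (Q : ℝ) ^ 6 / (h : ℝ) ^ 2 ≤ (X : ℝ) ^ (-(4 * δ)) := by
    rw [div_le_iff₀ (by positivity)]
    have h5 : (Q : ℝ) ^ 6 ≤ (X : ℝ) ^ (180 * δ) := by
      have h6 := pow_le_pow_left₀ (Nat.cast_nonneg Q) hQle 6
      rw [← Real.rpow_mul_natCast hX0.le] at h6
      refine h6.trans (le_of_eq ?_)
      congr 1
      push_cast
      ring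
    have h7 : (X : ℝ) ^ (2 - 20 * δ) ≤ (h : ℝ) ^ 2 := by
      have h6 := pow_le_pow_left₀ (by positivity) hhge 2
      rw [← Real.rpow_mul_natCast hX0.le] at h6
      refine (le_of_eq ?_).trans h6
      congr 1
      push_cast
      ring
    calc (Q : ℝ) ^ 6 ≤ (X : ℝ) ^ (180 * δ) := h5
      _ ≤ (X : ℝ) ^ (-(4 * δ) + (2 - 20 * δ)) :=
          Real.rpow_le_rpow_of_exponent_le hX1' (by linarith)
      _ = (X : ℝ) ^ (-(4 * δ)) * (X : ℝ) ^ (2 - 20 * δ) := Real.rpow_add hX0 _ _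
      _ ≤ (X : ℝ) ^ (-(4 * δ)) * (h : ℝ) ^ 2 := mul_le_mul_of_nonneg_left h7 (by positivity)
  have hF2 : 1 / (4 * ((h : ℝ) * (X : ℝ) ^ (-1 + 12 * δ)) ^ 2) ≤ (X : ℝ) ^ (-(4 * δ)) := by
    rw [div_le_iff₀ (by positivity)]
    have h5 : (X : ℝ) ^ (2 * δ) ≤ (h : ℝ) * (X : ℝ) ^ (-1 + 12 * δ) := by
      calc (X : ℝ) ^ (2 * δ) = (X : ℝ) ^ (1 - 10 * δ + (-1 + 12 * δ)) := by
            congr 1
            ring
        _ = (X : ℝ) ^ (1 - 10 * δ) * (X : ℝ) ^ (-1 + 12 * δ) := Real.rpow_add hX0 _ _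
        _ ≤ _ := mul_le_mul_of_nonneg_right hhge hρ.le
    have h6 : (X : ℝ) ^ (4 * δ) ≤ ((h : ℝ) * (X : ℝ) ^ (-1 + 12 * δ)) ^ 2 := by
      have h7 := pow_le_pow_left₀ (by positivity) h5 2
      rw [← Real.rpow_mul_natCast hX0.le] at h7
      refine (le_of_eq ?_).trans h7
      congr 1
      push_cast
      ring
    have h8 : (X : ℝ) ^ (-(4 * δ)) * (X : ℝ) ^ (4 * δ) = 1 := by
      rw [← Real.rpow_add hX0, neg_add_cancel, Real.rpow_zero]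
    have h9 : (X : ℝ) ^ (-(4 * δ)) * (X : ℝ) ^ (4 * δ) ≤
        (X : ℝ) ^ (-(4 * δ)) * ((h : ℝ) * (X : ℝ) ^ (-1 + 12 * δ)) ^ 2 :=
      mul_le_mul_of_nonneg_left h6 (by positivity)
    rw [h8] at h9
    linarith
  -- the second factor
  have hlog0 : 0 ≤ Real.log X := Real.log_natCast_nonneg X
  have hlogX : Real.log X ≤ (X : ℝ) ^ (δ / 4) := by
    rw [pow_one] at hlog
    have h5 : Real.log X ≤ Real.log (2 * X) := Real.log_le_log hX0 (by linarith)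
    linarith
  have hS1 : (T : ℝ) ^ 2 ≤ (X : ℝ) ^ (2 * δ) := by
    have h6 := pow_le_pow_left₀ (Nat.cast_nonneg T) hTle 2
    rw [← Real.rpow_mul_natCast hX0.le] at h6
    refine h6.trans (le_of_eq ?_)
    congr 1
    push_cast
    ring
  have hS2 : Real.sqrt T ≤ (X : ℝ) ^ (δ / 2) := by
    rw [Real.sqrt_le_left (by positivity), ← Real.rpow_mul_natCast hX0.le]
    refine hTle.trans (le_of_eq ?_)
    congr 1
    push_cast
    ring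
  have hL0 : 0 ≤ ∑ n ∈ Ioc (X / 8) X, lam n := sum_nonneg fun n _ => of_lam_nonneg n
  have hS3 : ∑ n ∈ Ioc (X / 8) X, lam n ≤ (X : ℝ) ^ (1 + δ / 4) := by
    refine (of_lamsum (X / 8) X).trans ?_
    rw [Real.rpow_add hX0, Real.rpow_one]
    exact mul_le_mul_of_nonneg_left hlogX hX0.le
  have hS : (T : ℝ) ^ 2 * Real.sqrt T * ∑ n ∈ Ioc (X / 8) X, lam n ≤
      (X : ℝ) ^ (2 * δ) * (X : ℝ) ^ (δ / 2) * (X : ℝ) ^ (1 + δ / 4) :=
    mul_le_mul (mul_le_mul hS1 hS2 (Real.sqrt_nonneg _) (by positivity)) hS3 hL0 (by positivity)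
  have hS0 : 0 ≤ (T : ℝ) ^ 2 * Real.sqrt T * ∑ n ∈ Ioc (X / 8) X, lam n :=
    mul_nonneg (mul_nonneg (by positivity) (Real.sqrt_nonneg _)) hL0
  calc ((Q : ℝ) ^ 6 / (h : ℝ) ^ 2 + 1 / (4 * ((h : ℝ) * (X : ℝ) ^ (-1 + 12 * δ)) ^ 2)) *
        ((T : ℝ) ^ 2 * Real.sqrt T * ∑ n ∈ Ioc (X / 8) X, lam n)
      ≤ ((X : ℝ) ^ (-(4 * δ)) + (X : ℝ) ^ (-(4 * δ))) *
        ((X : ℝ) ^ (2 * δ) * (X : ℝ) ^ (δ / 2) * (X : ℝ) ^ (1 + δ / 4)) :=
        mul_le_mul (add_le_add hF1 hF2) hS hS0 (by positivity)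
    _ = 2 * ((X : ℝ) ^ (-(4 * δ)) * ((X : ℝ) ^ (2 * δ) * (X : ℝ) ^ (δ / 2) *
          (X : ℝ) ^ (1 + δ / 4))) := by ring
    _ ≤ (X : ℝ) ^ (δ / 4) * ((X : ℝ) ^ (-(4 * δ)) * ((X : ℝ) ^ (2 * δ) * (X : ℝ) ^ (δ / 2) *
          (X : ℝ) ^ (1 + δ / 4))) := mul_le_mul_of_nonneg_right h2X (by positivity)
    _ = (X : ℝ) ^ (δ / 4 + (-(4 * δ) + (2 * δ + δ / 2 + (1 + δ / 4)))) := by
        rw [← Real.rpow_add hX0, ← Real.rpow_add hX0, ← Real.rpow_add hX0, ← Real.rpow_add hX0]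
    _ ≤ (X : ℝ) ^ (1 - δ) := Real.rpow_le_rpow_of_exponent_le hX1' (by linarith)

end Pool.Agent.MV5
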