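import Pool.Agent.MV5.StB
import Pool.Agent.MVII.Mt

set_option autoImplicit false

/-!
# MV5, module Om: the complete sum
-/

namespace Pool.Agent.MV5

open Finset Filter
open Pool.Agent.GBQ (ee lam nd Admissible)
open Pool.Agent.MVX (Chr tent Bm Um prm Win GP mem_prm)
open Pool.Agent.LIN (PP pz Dens)
open Pool.Agent.MVII (TT QQ HH H0 cp cs gp GQ ar PL PM NB BI Bc Md fj rr Per mn wq Sum4 Blk)

private theorem om_tot (n : ℕ) (hn : 1 ≤ n) :
    (n : ℂ) / (n.totient : ℂ) = ∏ p ∈ n.primeFactors, (p : ℂ) / ((p : ℂ) - 1) := by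
  have h := Nat.totient_mul_prod_primeFactors n
  have h1 : (n.totient : ℂ) * ∏ p ∈ n.primeFactors, (p : ℂ) =
      n * ∏ p ∈ n.primeFactors, ((p : ℂ) - 1) := by
    have h2 := congrArg (Nat.cast : ℕ → ℂ) h
    rw [Nat.cast_mul, Nat.cast_prod, Nat.cast_mul, Nat.cast_prod] at h2
    rw [h2]
    congr 1
    refine Finset.prod_congr rfl fun p hp => ?_
    rw [Nat.cast_sub (Nat.prime_of_mem_primeFactors hp).one_lt.le, Nat.cast_one]
  have h3 : (n.totient : ℂ) ≠ 0 := by
    exact_mod_cast (Nat.totient_pos.2 hn).ne'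
  have h4 : ∏ p ∈ n.primeFactors, ((p : ℂ) - 1) ≠ 0 := by
    refine Finset.prod_ne_zero_iff.2 fun p hp => ?_
    have h5 : (p : ℂ) ≠ 1 := by
      exact_mod_cast (Nat.prime_of_mem_primeFactors hp).one_lt.ne'
    exact sub_ne_zero.2 h5
  rw [Finset.prod_div_distrib, div_eq_div_iff h3 h4, ← h1, mul_comm]

private theorem om_sqf (S : Finset ℕ) (hS : ∀ p ∈ S, p.Prime) : Squarefree (∏ p ∈ S, p) := by
  refine Finset.squarefree_prod_of_pairwise_isCoprime ?_ fun p hp => (hS p hp).squarefree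
  intro p hp q hq hpq
  exact Nat.coprime_iff_isRelPrime.1 ((Nat.coprime_primes (hS p hp) (hS q hq)).2 hpq)

private theorem om_sum (l r : ℕ) (hl : 1 ≤ l) (g : ℕ → ℂ) :
    ∑ k ∈ l.divisors.filter (fun k => Squarefree k ∧ r.Coprime k),
      (((ArithmeticFunction.moebius k : ℤ) : ℂ) / (k.totient : ℂ)) * ∏ p ∈ k.primeFactors, g p =
    ∏ p ∈ l.primeFactors.filter (fun p => ¬ p ∣ r), (1 - g p / ((p : ℂ) - 1)) := by
  set P := l.primeFactors.filter (fun p => ¬ p ∣ r) with hP
  have hPp : ∀ p ∈ P, p.Prime := fun p hp =>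
    Nat.prime_of_mem_primeFactors (Finset.mem_filter.1 hp).1
  have h1 : ∏ p ∈ P, (1 - g p / ((p : ℂ) - 1)) =
      ∑ S ∈ P.powerset, ∏ p ∈ S, (-(g p / ((p : ℂ) - 1))) := by
    rw [← Finset.prod_one_add]
    refine Finset.prod_congr rfl fun p _ => ?_
    rw [sub_eq_add_neg]
  have hSp : ∀ S ∈ P.powerset, ∀ p ∈ S, p.Prime := fun S hS p hp =>
    hPp p (Finset.mem_powerset.1 hS hp)
  rw [h1]
  refine Finset.sum_bij' (fun k _ => k.primeFactors) (fun S _ => ∏ p ∈ S, p) ?_ ?_ ?_ ?_ ?_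
  · intro k hk
    obtain ⟨h2, h3, h4⟩ := Finset.mem_filter.1 hk
    rw [Finset.mem_powerset]
    intro p hp
    have hpp := Nat.prime_of_mem_primeFactors hp
    have hpk := Nat.dvd_of_mem_primeFactors hp
    rw [hP, Finset.mem_filter, Nat.mem_primeFactors]
    refine ⟨⟨hpp, hpk.trans (Nat.dvd_of_mem_divisors h2), by omega⟩, fun h5 => ?_⟩
    exact Nat.Prime.not_coprime_iff_dvd.2 ⟨p, hpp, h5, hpk⟩ h4
  · intro S hS
    have hp := hSp S hS
    have hsub := Finset.mem_powerset.1 hS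
    refine Finset.mem_filter.2 ⟨Nat.mem_divisors.2 ⟨?_, by omega⟩, om_sqf S hp, ?_⟩
    · refine Finset.prod_primes_dvd l (fun p h => (hp p h).prime) fun p h => ?_
      exact Nat.dvd_of_mem_primeFactors (Finset.mem_filter.1 (hsub h)).1
    · refine Nat.Coprime.prod_right fun p h => ?_
      exact ((Nat.Prime.coprime_iff_not_dvd (hp p h)).2 (Finset.mem_filter.1 (hsub h)).2).symm
  · intro k hk
    exact Nat.prod_primeFactors_of_squarefree (Finset.mem_filter.1 hk).2.1
  · intro S hS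
    exact Nat.primeFactors_prod (hSp S hS)
  · intro k hk
    obtain ⟨h2, h3, h4⟩ := Finset.mem_filter.1 hk
    have hk0 : k ≠ 0 := h3.ne_zero
    have h5 : ((ArithmeticFunction.moebius k : ℤ) : ℂ) = ∏ p ∈ k.primeFactors, (-1 : ℂ) := by
      have h6 := ArithmeticFunction.isMultiplicative_moebius.prod_primeFactors h3
      rw [← h6]
      push_cast
      refine Finset.prod_congr rfl fun p hp => ?_
      rw [ArithmeticFunction.moebius_apply_prime (Nat.prime_of_mem_primeFactors hp)]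
      simp
    have h7 : (k.totient : ℂ) = ∏ p ∈ k.primeFactors, ((p : ℂ) - 1) := by
      have h8 := om_tot k (Nat.pos_of_ne_zero hk0)
      rw [Finset.prod_div_distrib] at h8
      have h9 : ∏ p ∈ k.primeFactors, (p : ℂ) = k := by
        have := congrArg (Nat.cast : ℕ → ℂ) (Nat.prod_primeFactors_of_squarefree h3)
        rwa [Nat.cast_prod] at this
      rw [h9] at h8
      have hkc : (k : ℂ) ≠ 0 := by exact_mod_cast hk0
      have h10 : (k.totient : ℂ) ≠ 0 := by
        exact_mod_cast (Nat.totient_pos.2 (Nat.pos_of_ne_zero hk0)).ne'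
      have h11 : ∏ p ∈ k.primeFactors, ((p : ℂ) - 1) ≠ 0 := by
        refine Finset.prod_ne_zero_iff.2 fun p hp => ?_
        have h5 : (p : ℂ) ≠ 1 := by
          exact_mod_cast (Nat.prime_of_mem_primeFactors hp).one_lt.ne'
        exact sub_ne_zero.2 h5
      rw [div_eq_div_iff h10 h11] at h8
      exact (mul_left_cancel₀ hkc h8).symm
    rw [h5, h7, ← Finset.prod_div_distrib, ← Finset.prod_mul_distrib]
    refine Finset.prod_congr rfl fun p _ => ?_
    ring

private theorem om_fac (p : ℕ) (hp : p.Prime) (y : ℤ) :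
    (1 : ℂ) - ((cp p y : ℝ) : ℂ) / ((p : ℂ) - 1) =
      if (p : ℤ) ∣ y then 0 else (p : ℂ) / ((p : ℂ) - 1) := by
  have h5 : (p : ℂ) - 1 ≠ 0 := by
    have : (p : ℂ) ≠ 1 := by exact_mod_cast hp.one_lt.ne'
    exact sub_ne_zero.2 this
  unfold MVII.cp
  split_ifs
  · push_cast
    field_simp
    ring
  · push_cast
    field_simp
    ring

/-- permutation of the reduced residues -/
private theorem om_perm (l u : ℕ) (hl : 1 ≤ l) (hu : u.Coprime l) (f : ℕ → ℂ) :
    ∑ y ∈ rr l, f ((u * y) % l) = ∑ y ∈ rr l, f y := by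
  have hmaps : ∀ y ∈ rr l, (u * y) % l ∈ rr l := by
    intro y hy
    obtain ⟨h1, h2⟩ := Finset.mem_filter.1 hy
    refine Finset.mem_filter.2 ⟨Finset.mem_range.2 (Nat.mod_lt _ (by omega)), ?_⟩
    have h3 : (u * y).Coprime l := hu.mul_left h2
    exact (Nat.ModEq.gcd_eq (Nat.mod_modEq (u * y) l)).trans h3
  have hinj : Set.InjOn (fun y => (u * y) % l) (rr l : Set ℕ) := by
    intro y hy y' hy' h
    have h1 := Finset.mem_range.1 (Finset.mem_filter.1 (Finset.mem_coe.1 hy)).1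
    have h2 := Finset.mem_range.1 (Finset.mem_filter.1 (Finset.mem_coe.1 hy')).1
    have h3 : u * y ≡ u * y' [MOD l] := h
    have h4 : y ≡ y' [MOD l] := Nat.ModEq.cancel_left_of_coprime hu.symm h3
    exact Nat.ModEq.eq_of_lt_of_lt h4 h1 h2
  refine Finset.sum_nbij (fun y => (u * y) % l) hmaps hinj ?_ fun _ _ => rfl
  exact Finset.surjOn_of_injOn_of_card_le _ hmaps hinj le_rfl

private theorem om_unit {l r : ℕ} (hr : 1 ≤ r) (χ : DirichletCharacter ℂ r)
    (hχ : χ.IsPrimitive) (hrl : ¬ r ∣ l) :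
    ∃ u : ℕ, u.Coprime (Nat.lcm l r) ∧ u ≡ 1 [MOD l] ∧ χ ((u : ℕ) : ZMod r) ≠ 1 := by
  have : NeZero r := ⟨by omega⟩
  have hg : Nat.gcd l r ∣ r := Nat.gcd_dvd_right _ _
  have h1 : ¬ DirichletCharacter.FactorsThrough χ (Nat.gcd l r) := by
    intro h
    have h2 : χ.conductor ∣ Nat.gcd l r := DirichletCharacter.conductor_dvd_of_mem_conductorSet _ h
    rw [(DirichletCharacter.isPrimitive_def χ).1 hχ] at h2
    exact hrl (h2.trans (Nat.gcd_dvd_left _ _))
  rw [DirichletCharacter.factorsThrough_iff_ker_unitsMap hg] at h1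
  obtain ⟨v, hv1, hv2⟩ := SetLike.not_le_iff_exists.1 h1
  rw [MonoidHom.mem_ker] at hv1 hv2
  have hv3 : ((v : ZMod r).val : ℕ) ≡ 1 [MOD Nat.gcd l r] := by
    have h3 := congrArg (Units.val) hv1
    rw [ZMod.unitsMap_val, Units.val_one] at h3
    have h4 : (((v : ZMod r).val : ℕ) : ZMod (Nat.gcd l r)) = ((1 : ℕ) : ZMod (Nat.gcd l r)) := by
      rw [Nat.cast_one, ← h3, ZMod.natCast_val]
    exact (ZMod.natCast_eq_natCast_iff _ _ _).1 h4
  obtain ⟨u, hu1, hu2⟩ := Nat.chineseRemainder' (n := l) (m := r) (a := 1)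
    (b := (v : ZMod r).val) hv3.symm
  have hur : ((u : ℕ) : ZMod r) = (v : ZMod r) := by
    rw [(ZMod.natCast_eq_natCast_iff _ _ _).2 hu2, ZMod.natCast_val, ZMod.cast_id]
  refine ⟨u, ?_, hu1, ?_⟩
  · have h5 : u.Coprime l := by
      have h6 := hu1.gcd_eq
      rw [Nat.gcd_one_left] at h6
      exact h6
    have h7 : u.Coprime r := by
      have h8 : IsUnit ((u : ℕ) : ZMod r) := by
        rw [hur]
        exact v.isUnit
      exact (ZMod.isUnit_iff_coprime _ _).1 h8
    exact Nat.Coprime.coprime_dvd_right (Nat.lcm_dvd_mul l r) (h5.mul_right h7)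
  · intro h6
    rw [hur] at h6
    apply hv2
    ext
    rw [MulChar.coe_toUnitHom, h6, Units.val_one]

theorem thm_Om : St_Om := by
  intro M d q r ν b hM hdM hqM hrM hd hq hr χ hχ
  rw [mem_prm] at hχ
  set l := Nat.lcm d q with hl
  have hl1 : 1 ≤ l := Nat.pos_of_ne_zero (Nat.lcm_ne_zero (by omega) (by omega))
  set l' := Nat.lcm l r with hl'
  have hl'1 : 1 ≤ l' := Nat.pos_of_ne_zero (Nat.lcm_ne_zero (by omega) (by omega))
  have hll' : l ∣ l' := Nat.dvd_lcm_left _ _
  have hrl' : r ∣ l' := Nat.dvd_lcm_right _ _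
  have hdl : d ∣ l := Nat.dvd_lcm_left _ _
  have hql : q ∣ l := Nat.dvd_lcm_right _ _
  have hlM : l ∣ M := Nat.lcm_dvd hdM hqM
  have hl'M : l' ∣ M := Nat.lcm_dvd hlM hrM
  -- the function
  set F : ℤ → ℂ := fun y => ((l' : ℂ) / (l'.totient : ℂ)) *
    (if IsCoprime y (l' : ℤ) then (starRingEnd ℂ) (χ (y : ZMod r)) * Pd d ν q b y else 0) with hF
  -- congruent arguments
  have hPd : ∀ y y' : ℤ, (l : ℤ) ∣ y - y' → Pd d ν q b y = Pd d ν q b y' := by
    intro y y' h
    have h1 : ((d : ℤ) ∣ y - ν) ↔ ((d : ℤ) ∣ y' - ν) := by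
      have h2 : (d : ℤ) ∣ y - y' := (Int.natCast_dvd_natCast.2 hdl).trans h
      constructor
      · intro h3
        have := dvd_sub h3 h2
        have e : y - ν - (y - y') = y' - ν := by ring
        rwa [e] at this
      · intro h3
        have := dvd_add h3 h2
        have e : y' - ν + (y - y') = y - ν := by ring
        rwa [e] at this
    unfold Pd
    by_cases h3 : (d : ℤ) ∣ y - ν
    · rw [if_pos h3, if_pos (h1.1 h3)]
      obtain ⟨t, ht⟩ := (Int.natCast_dvd_natCast.2 hql).trans h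
      have hy : y = y' + q * t := by linarith
      have hq0 : (q : ℝ) ≠ 0 := by
        have : q ≠ 0 := by omega
        exact_mod_cast this
      rw [hy]
      have h4 : (b : ℝ) * ((y' + q * t : ℤ) : ℝ) / q = (b : ℝ) * y' / q + ((b * t : ℤ) : ℝ) := by
        push_cast
        field_simp
      rw [h4]
      unfold GBQ.ee
      have h5 : (((2 * Real.pi * ((b : ℝ) * y' / q + ((b * t : ℤ) : ℝ)) : ℝ) : ℂ) * Complex.I) =
          ((2 * Real.pi * ((b : ℝ) * y' / q) : ℝ) : ℂ) * Complex.I +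
            ((b * t : ℤ) : ℂ) * (2 * Real.pi * Complex.I) := by
        push_cast
        ring
      rw [h5, Complex.exp_add, Complex.exp_int_mul_two_pi_mul_I, mul_one]
    · rw [if_neg h3, if_neg (fun h4 => h3 (h1.2 h4))]
  have hχc : ∀ y y' : ℤ, (r : ℤ) ∣ y - y' → χ (y : ZMod r) = χ (y' : ZMod r) := by
    intro y y' h
    congr 1
    have := (ZMod.intCast_eq_intCast_iff_dvd_sub y' y r).2 h
    exact this.symm
  have hcopc : ∀ y y' : ℤ, (l' : ℤ) ∣ y - y' → (IsCoprime y (l' : ℤ) ↔ IsCoprime y' (l' : ℤ)) := by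
    intro y y' h
    obtain ⟨t, ht⟩ := h
    have hy : y = y' + t * l' := by linarith
    rw [hy]
    exact IsCoprime.add_mul_right_left_iff
  have hFc : ∀ y y' : ℤ, (l' : ℤ) ∣ y - y' → F y = F y' := by
    intro y y' h
    simp only [hF]
    rw [hPd y y' ((Int.natCast_dvd_natCast.2 hll').trans h),
      hχc y y' ((Int.natCast_dvd_natCast.2 hrl').trans h)]
    by_cases h1 : IsCoprime y (l' : ℤ)
    · rw [if_pos h1, if_pos ((hcopc y y' h).1 h1)]
    · rw [if_neg h1, if_neg (fun h2 => h1 ((hcopc y y' h).2 h2))]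
  have hPer : ∀ N : ℕ, l' ∣ N → Per N F := by
    intro N hN y
    refine hFc _ _ ?_
    have e : y + (N : ℤ) - y = N := by ring
    rw [e]
    exact Int.natCast_dvd_natCast.2 hN
  -- the pointwise identity
  have hpt : ∀ y : ℤ, ∑ k ∈ l.divisors.filter (fun k => Squarefree k ∧ r.Coprime k),
      ((r : ℂ) / (r.totient : ℂ)) * (((ArithmeticFunction.moebius k : ℤ) : ℂ) / (k.totient : ℂ)) *
        ((starRingEnd ℂ) (χ (y : ZMod r)) * ((cs k y : ℝ) : ℂ) * Pd d ν q b y) = F y := by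
    intro y
    have h1 : ∑ k ∈ l.divisors.filter (fun k => Squarefree k ∧ r.Coprime k),
        ((r : ℂ) / (r.totient : ℂ)) * (((ArithmeticFunction.moebius k : ℤ) : ℂ) / (k.totient : ℂ)) *
        ((starRingEnd ℂ) (χ (y : ZMod r)) * ((cs k y : ℝ) : ℂ) * Pd d ν q b y) =
        ((r : ℂ) / (r.totient : ℂ)) * ((starRingEnd ℂ) (χ (y : ZMod r)) * Pd d ν q b y) *
          ∏ p ∈ l.primeFactors.filter (fun p => ¬ p ∣ r),
            (1 - ((cp p y : ℝ) : ℂ) / ((p : ℂ) - 1)) := by
      rw [← om_sum l r hl1, Finset.mul_sum]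
      refine Finset.sum_congr rfl fun k _ => ?_
      unfold MVII.cs
      push_cast
      ring
    rw [h1]
    have h2 : ∏ p ∈ l.primeFactors.filter (fun p => ¬ p ∣ r),
        (1 - ((cp p y : ℝ) : ℂ) / ((p : ℂ) - 1)) =
        ∏ p ∈ l.primeFactors.filter (fun p => ¬ p ∣ r),
          (if (p : ℤ) ∣ y then 0 else (p : ℂ) / ((p : ℂ) - 1)) :=
      Finset.prod_congr rfl fun p hp =>
        om_fac p (Nat.prime_of_mem_primeFactors (Finset.mem_filter.1 hp).1) y
    rw [h2]
    simp only [hF]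
    by_cases hc : IsCoprime y (l' : ℤ)
    · rw [if_pos hc]
      have h3 : ∀ p ∈ l.primeFactors.filter (fun p => ¬ p ∣ r), ¬ (p : ℤ) ∣ y := by
        intro p hp h4
        have hpp := Nat.prime_of_mem_primeFactors (Finset.mem_filter.1 hp).1
        have hpl := Nat.dvd_of_mem_primeFactors (Finset.mem_filter.1 hp).1
        have h5 := hc.isUnit_of_dvd' h4 (Int.natCast_dvd_natCast.2 (hpl.trans hll'))
        rw [Int.isUnit_iff] at h5
        have := hpp.one_lt
        omega
      have h4 : ∏ p ∈ l.primeFactors.filter (fun p => ¬ p ∣ r),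
          (if (p : ℤ) ∣ y then 0 else (p : ℂ) / ((p : ℂ) - 1)) =
          ∏ p ∈ l.primeFactors.filter (fun p => ¬ p ∣ r), (p : ℂ) / ((p : ℂ) - 1) :=
        Finset.prod_congr rfl fun p hp => if_neg (h3 p hp)
      have h5 : (l' : ℂ) / (l'.totient : ℂ) = (r : ℂ) / (r.totient : ℂ) *
          ∏ p ∈ l.primeFactors.filter (fun p => ¬ p ∣ r), (p : ℂ) / ((p : ℂ) - 1) := by
        rw [om_tot l' hl'1, om_tot r hr]
        have h6 : l'.primeFactors = r.primeFactors ∪ l.primeFactors.filter (fun p => ¬ p ∣ r) := by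
          ext p
          simp only [Finset.mem_union, Finset.mem_filter, Nat.mem_primeFactors]
          constructor
          · rintro ⟨hp, hpl, -⟩
            by_cases h7 : p ∣ r
            · exact Or.inl ⟨hp, h7, by omega⟩
            · refine Or.inr ⟨⟨hp, ?_, by omega⟩, h7⟩
              have h8 : p ∣ l * r := hpl.trans (Nat.lcm_dvd_mul l r)
              exact (hp.dvd_mul.1 h8).resolve_right h7
          · rintro (⟨hp, h7, -⟩ | ⟨⟨hp, h7, -⟩, -⟩)
            · exact ⟨hp, h7.trans hrl', by omega⟩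
            · exact ⟨hp, h7.trans hll', by omega⟩
        rw [h6, Finset.prod_union]
        rw [Finset.disjoint_left]
        intro p hp hp'
        exact (Finset.mem_filter.1 hp').2 (Nat.dvd_of_mem_primeFactors hp)
      rw [h4, h5]
      ring
    · rw [if_neg hc, mul_zero]
      by_cases hy : χ (y : ZMod r) = 0
      · rw [hy]
        simp
      · have hyr : IsCoprime y (r : ℤ) := (DirichletCharacter.apply_ne_zero_iff χ y).1 hy
        have h3 : ∃ p ∈ l.primeFactors.filter (fun p => ¬ p ∣ r), (p : ℤ) ∣ y := by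
          rw [Int.isCoprime_iff_gcd_eq_one] at hc
          obtain ⟨p, hp, hpg⟩ := Nat.exists_prime_and_dvd hc
          have h4 : (p : ℤ) ∣ y := (Int.natCast_dvd_natCast.2 hpg).trans (Int.gcd_dvd_left _ _)
          have h5 : p ∣ l' := by
            have := (Int.natCast_dvd_natCast.2 hpg).trans (Int.gcd_dvd_right y (l' : ℤ))
            exact Int.natCast_dvd_natCast.1 this
          have h6 : ¬ p ∣ r := by
            intro h7
            have h8 := hyr.isUnit_of_dvd' h4 (Int.natCast_dvd_natCast.2 h7)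
            rw [Int.isUnit_iff] at h8
            have := hp.one_lt
            omega
          have h7 : p ∣ l * r := h5.trans (Nat.lcm_dvd_mul l r)
          exact ⟨p, Finset.mem_filter.2 ⟨Nat.mem_primeFactors.2 ⟨hp,
            (hp.dvd_mul.1 h7).resolve_right h6, by omega⟩, h6⟩, h4⟩
        obtain ⟨p, hp, hpy⟩ := h3
        have h8 : (if (p : ℤ) ∣ y then (0 : ℂ) else (p : ℂ) / ((p : ℂ) - 1)) = 0 := if_pos hpy
        have h9 : ∏ p ∈ l.primeFactors.filter (fun p => ¬ p ∣ r),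
            (if (p : ℤ) ∣ y then (0 : ℂ) else (p : ℂ) / ((p : ℂ) - 1)) = 0 :=
          Finset.prod_eq_zero hp h8
        rw [h9, mul_zero]
  -- the sum of the means
  have hsum : ∑ k ∈ l.divisors.filter (fun k => Squarefree k ∧ r.Coprime k),
      ((r : ℂ) / (r.totient : ℂ)) * (((ArithmeticFunction.moebius k : ℤ) : ℂ) / (k.totient : ℂ)) *
        mn M (fun y => (starRingEnd ℂ) (χ (y : ZMod r)) * ((cs k y : ℝ) : ℂ) * Pd d ν q b y) =
      mn M F := by
    unfold MVII.mn
    simp only [← hpt]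
    rw [Finset.sum_comm, Finset.sum_div]
    refine Finset.sum_congr rfl fun k _ => ?_
    rw [mul_div_assoc', Finset.mul_sum]
  rw [hsum, (MVII.thm_Mt).1 M l' F hM hl'1 (hPer M hl'M) (hPer l' dvd_rfl)]
  -- the mean over the period
  have hmn : mn l' F = ((l'.totient : ℂ))⁻¹ * ∑ y ∈ rr l',
      Pd d ν q b (y : ℤ) * (starRingEnd ℂ) (χ ((y : ℕ) : ZMod r)) := by
    unfold MVII.mn MVII.rr
    simp only [hF]
    rw [← Finset.mul_sum]
    have h1 : ∑ y ∈ range l', (if IsCoprime (y : ℤ) (l' : ℤ) then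
        (starRingEnd ℂ) (χ ((y : ℤ) : ZMod r)) * Pd d ν q b (y : ℤ) else 0) =
        ∑ y ∈ (range l').filter (fun a => a.Coprime l'),
          Pd d ν q b (y : ℤ) * (starRingEnd ℂ) (χ ((y : ℕ) : ZMod r)) := by
      rw [Finset.sum_filter]
      refine Finset.sum_congr rfl fun y _ => ?_
      simp only [Nat.isCoprime_iff_coprime]
      rw [Int.cast_natCast, mul_comm (Pd d ν q b (y : ℤ))]
    rw [h1]
    have h2 : (l' : ℂ) ≠ 0 := by
      have : l' ≠ 0 := by omega
      exact_mod_cast this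
    field_simp
  rw [hmn]
  by_cases hrl : r ∣ l
  · rw [if_pos hrl]
    have h1 : l' = l := by
      rw [hl']
      exact Nat.lcm_eq_left hrl
    rw [h1]
    unfold fh
    rfl
  · rw [if_neg hrl]
    obtain ⟨u, hu1, hu2, hu3⟩ := om_unit hr χ hχ hrl
    set S := ∑ y ∈ rr l', Pd d ν q b (y : ℤ) * (starRingEnd ℂ) (χ ((y : ℕ) : ZMod r)) with hS
    have h1 : S = (starRingEnd ℂ) (χ ((u : ℕ) : ZMod r)) * S := by
      conv_lhs => rw [hS, ← om_perm l' u hl'1 hu1]
      rw [hS, Finset.mul_sum]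
      refine Finset.sum_congr rfl fun y _ => ?_
      have h2 : ((l' : ℤ)) ∣ (((u * y) % l' : ℕ) : ℤ) - ((u * y : ℕ) : ℤ) := by
        exact Nat.modEq_iff_dvd.1 (Nat.mod_modEq (u * y) l').symm
      have h3 : (l : ℤ) ∣ ((u * y : ℕ) : ℤ) - (y : ℤ) := by
        have h4 : (l : ℤ) ∣ (u : ℤ) - 1 := by
          have := (Nat.modEq_iff_dvd.1 hu2.symm)
          push_cast at this
          exact this
        have e : ((u * y : ℕ) : ℤ) - (y : ℤ) = ((u : ℤ) - 1) * y := by
          push_cast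
          ring
        rw [e]
        exact h4.mul_right _
      have h4 : Pd d ν q b (((u * y) % l' : ℕ) : ℤ) = Pd d ν q b (y : ℤ) := by
        rw [hPd _ _ ((Int.natCast_dvd_natCast.2 hll').trans h2), hPd _ _ h3]
      have h5 : χ ((((u * y) % l' : ℕ) : ℕ) : ZMod r) =
          χ ((u : ℕ) : ZMod r) * χ ((y : ℕ) : ZMod r) := by
        have h6 := hχc _ _ ((Int.natCast_dvd_natCast.2 hrl').trans h2)
        rw [Int.cast_natCast, Int.cast_natCast] at h6
        rw [h6, Nat.cast_mul, map_mul]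
      rw [h4, h5, map_mul]
      ring
    have h2 : (1 - (starRingEnd ℂ) (χ ((u : ℕ) : ZMod r))) * S = 0 := by
      linear_combination h1
    rcases mul_eq_zero.1 h2 with h3 | h3
    · exfalso
      apply hu3
      have h4 : (starRingEnd ℂ) (χ ((u : ℕ) : ZMod r)) = 1 := by
        linear_combination -h3
      have h5 := congrArg (starRingEnd ℂ) h4
      rwa [Complex.conj_conj, map_one] at h5
    · rw [h3, mul_zero]

end Pool.Agent.MV5
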