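import Pool.Agent.MV5.StC
import Pool.Agent.MVII.Mt

/-!
# MV5, OR: independence
-/

set_option autoImplicit false

namespace Pool.Agent.MV5

open Finset Filter
open Pool.Agent.GBQ (ee lam nd Admissible)
open Pool.Agent.MVX (Chr tent Bm Um prm Win GP)
open Pool.Agent.LIN (PP pz Dens)
open Pool.Agent.MT (IsWt)
open Pool.Agent.MVII (TT QQ HH H0 cp cs gp GQ ar PL PM NB BI Bc Md fj rr Per mn wq Sum4 Blk loc)

private theorem or_per_dvd {a b : ℕ} (h : a ∣ b) {f : ℤ → ℂ} (hf : Per a f) : Per b f := by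
  obtain ⟨k, rfl⟩ := h
  have key : ∀ (k : ℕ) (y : ℤ), f (y + (a * k : ℕ)) = f y := by
    intro k
    induction k with
    | zero =>
      intro y
      rw [mul_zero, Nat.cast_zero, add_zero]
    | succ k ih =>
      intro y
      have h1 : y + ((a * (k + 1) : ℕ) : ℤ) = (y + (a : ℤ)) + ((a * k : ℕ) : ℤ) := by
        push_cast
        ring
      rw [h1, ih]
      exact hf y
  exact key k

private theorem or_per_prod {E : ℕ} (S : Finset ℕ) (f : ℕ → ℤ → ℂ) (h : ∀ p ∈ S, Per E (f p)) :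
    Per E (fun y => ∏ p ∈ S, f p y) := fun y => prod_congr rfl fun p hp => h p hp y

private theorem or_mn {l : ℕ} (hl : 1 ≤ l) {P : ℤ → ℂ} (hB : ∀ y, ‖P y‖ ≤ 1) : ‖mn l P‖ ≤ 1 := by
  have hlr : (0 : ℝ) < l := by exact_mod_cast hl
  unfold mn
  rw [norm_div, Complex.norm_natCast, div_le_iff₀ hlr]
  refine (norm_sum_le _ _).trans ?_
  calc ∑ y ∈ range l, ‖P (y : ℤ)‖ ≤ ∑ _y ∈ range l, (1 : ℝ) := sum_le_sum fun y _ => hB _
    _ = 1 * l := by rw [sum_const, card_range, nsmul_eq_mul, mul_comm]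

theorem thm_Or : St_Or := by
  classical
  intro M E S f Φ hM hE hEM hS hΦ hΦ1 hf hf1
  obtain ⟨F, hF⟩ : ∃ F : ℤ → ℂ, F = fun y => Φ y * ∏ p ∈ S.filter (fun p => p ∣ E), f p y :=
    ⟨_, rfl⟩
  obtain ⟨G, hG⟩ : ∃ G : ℤ → ℂ, G = fun y => ∏ p ∈ S.filter (fun p => ¬ p ∣ E), f p y :=
    ⟨_, rfl⟩
  have hsp : (fun y => Φ y * ∏ p ∈ S, f p y) = fun y => F y * G y := by
    funext y
    rw [hF, hG]
    show Φ y * ∏ p ∈ S, f p y = Φ y * (∏ p ∈ S.filter (fun p => p ∣ E), f p y) *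
      ∏ p ∈ S.filter (fun p => ¬ p ∣ E), f p y
    rw [← prod_filter_mul_prod_filter_not S (fun p => p ∣ E) (fun p => f p y), mul_assoc]
  have hpr : ∀ p ∈ S.filter (fun p => ¬ p ∣ E), p.Prime := fun p hp =>
    (hS p (mem_filter.mp hp).1).1
  have hFE : ∀ b : ℕ, E ∣ b → Per b F := by
    intro b hb
    refine or_per_dvd hb fun y => ?_
    rw [hF]
    show Φ (y + E) * ∏ p ∈ S.filter (fun p => p ∣ E), f p (y + E) =
      Φ y * ∏ p ∈ S.filter (fun p => p ∣ E), f p y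
    rw [hΦ y]
    congr 1
    exact or_per_prod _ f (fun p hp => or_per_dvd (mem_filter.mp hp).2
      (hf p (mem_filter.mp hp).1)) y
  have hGb : ∀ b : ℕ, (∀ p ∈ S.filter (fun p => ¬ p ∣ E), p ∣ b) → Per b G := by
    intro b hb
    rw [hG]
    exact or_per_prod _ f fun p hp => or_per_dvd (hb p hp) (hf p (mem_filter.mp hp).1)
  have hPA : 1 ≤ ∏ p ∈ S.filter (fun p => ¬ p ∣ E), p :=
    Nat.one_le_iff_ne_zero.mpr (prod_ne_zero_iff.mpr fun p hp => (hpr p hp).ne_zero)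
  have hmul : ∀ b : ℕ, Per b F → Per b G → Per b (fun y => F y * G y) := by
    intro b h1 h2 y
    show F (y + b) * G (y + b) = F y * G y
    rw [h1 y, h2 y]
  have hdv : ∀ p ∈ S.filter (fun p => ¬ p ∣ E), p ∣ ∏ p ∈ S.filter (fun p => ¬ p ∣ E), p :=
    fun p hp => dvd_prod_of_mem (fun p => p) hp
  have h1 : mn M (fun y => F y * G y) =
      mn (E * ∏ p ∈ S.filter (fun p => ¬ p ∣ E), p) (fun y => F y * G y) := by
    refine Pool.Agent.MVII.thm_Mt.1 _ _ _ hM (Nat.mul_pos hE hPA)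
      (hmul _ (hFE M hEM) (hGb M fun p hp => (hS p (mem_filter.mp hp).1).2))
      (hmul _ (hFE _ (dvd_mul_right _ _)) (hGb _ fun p hp => dvd_mul_of_dvd_right (hdv p hp) _))
  have hcop : E.Coprime (∏ p ∈ S.filter (fun p => ¬ p ∣ E), p) :=
    Nat.Coprime.prod_right fun p hp =>
      ((hpr p hp).coprime_iff_not_dvd.mpr (mem_filter.mp hp).2).symm
  rw [hsp, h1, Pool.Agent.MVII.thm_Mt.2.1 E _ F G hE hPA hcop (hFE E dvd_rfl) (hGb _ hdv)]
  have h2 : mn (∏ p ∈ S.filter (fun p => ¬ p ∣ E), p) G =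
      ∏ p ∈ S.filter (fun p => ¬ p ∣ E), mn p (f p) := by
    rw [hG]
    exact Pool.Agent.MVII.thm_Mt.2.2.1 _ f hpr fun p hp => hf p (mem_filter.mp hp).1
  rw [h2, norm_mul, norm_prod]
  have h3 : ‖mn E F‖ ≤ 1 := by
    refine or_mn hE fun y => ?_
    rw [hF]
    show ‖Φ y * ∏ p ∈ S.filter (fun p => p ∣ E), f p y‖ ≤ 1
    rw [norm_mul, norm_prod]
    have h4 : ∏ p ∈ S.filter (fun p => p ∣ E), ‖f p y‖ ≤ 1 :=
      prod_le_one (fun _ _ => norm_nonneg _) fun p hp => hf1 p (mem_filter.mp hp).1 y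
    exact mul_le_one₀ (hΦ1 y) (prod_nonneg fun _ _ => norm_nonneg _) h4
  exact mul_le_of_le_one_left (prod_nonneg fun _ _ => norm_nonneg _) h3

end Pool.Agent.MV5
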