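import Pool.Agent.MV5.StC
import Pool.Agent.MVII.Lc
import Pool.Agent.MVII.Mt

set_option autoImplicit false

/-!
# MV5 / Pe: the part of the exceptional modulus
-/

namespace Pool.Agent.MV5

open Finset Filter
open Pool.Agent.MVII (gp Per mn loc nl)

/-- the local factor -/
private noncomputable def pe_f (m n p : ℕ) (y : ℤ) : ℝ :=
  gp p ((n : ℤ) - m * y) * gp p y * (if p ≠ 2 → ¬ (p : ℤ) ∣ y ^ 2 - 2 then 1 else 0)

private theorem pe_loc (m n p : ℕ) (hp : p.Prime) :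
    mn p (fun y => ((pe_f m n p y : ℝ) : ℂ)) = ((loc (p + 1) m n p : ℝ) : ℂ) := by
  have h1 : ∀ y ∈ range p, pe_f m n p (y : ℤ) =
      if (¬ (p : ℤ) ∣ (y : ℤ) ∧ ¬ (p : ℤ) ∣ (n : ℤ) - m * y ∧
        (p < p + 1 → ¬ (p : ℤ) ∣ (y : ℤ) ^ 2 - 2)) then ((p : ℝ) / (p - 1)) ^ 2 else 0 := by
    intro y _
    rw [pe_f, gp, gp]
    by_cases a1 : (p : ℤ) ∣ (y : ℤ)
    · simp [a1]
    by_cases a2 : (p : ℤ) ∣ (n : ℤ) - m * y
    · simp [a2]
    rw [if_neg a1, if_neg a2]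
    by_cases a3 : (p : ℤ) ∣ (y : ℤ) ^ 2 - 2
    · have a4 : p ≠ 2 := by
        intro h
        subst h
        apply a1
        have h2 : ((2 : ℕ) : ℤ) ∣ (y : ℤ) ^ 2 := by
          have h3 := dvd_add a3 (dvd_refl ((2 : ℕ) : ℤ))
          have e : (y : ℤ) ^ 2 - 2 + ((2 : ℕ) : ℤ) = (y : ℤ) ^ 2 := by
            push_cast
            ring
          rwa [e] at h3
        exact (Nat.prime_iff_prime_int.1 hp).dvd_of_dvd_pow h2
      rw [if_neg (fun h => h a4 a3), if_neg (fun h => h.2.2 (Nat.lt_succ_self p) a3), mul_zero]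
    · rw [if_pos (fun _ => a3), if_pos ⟨a1, a2, fun _ => a3⟩]
      ring
  rw [mn, loc, nl]
  have h2 : ∑ y ∈ range p, ((pe_f m n p (y : ℤ) : ℝ) : ℂ) =
      (((∑ y ∈ range p, pe_f m n p (y : ℤ)) : ℝ) : ℂ) := by
    push_cast
    rfl
  rw [h2, Finset.sum_congr rfl h1, ← Finset.sum_filter, Finset.sum_const, nsmul_eq_mul]
  push_cast
  ring

private theorem pe_per (m n p : ℕ) : Per p (fun y => ((pe_f m n p y : ℝ) : ℂ)) := by
  intro y
  have e1 : ((p : ℤ) ∣ (n : ℤ) - m * (y + p)) ↔ ((p : ℤ) ∣ (n : ℤ) - m * y) := by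
    have e : (n : ℤ) - m * (y + p) = (n : ℤ) - m * y - (m : ℤ) * p := by ring
    rw [e]
    exact dvd_sub_left (Dvd.intro_left _ rfl)
  have e2 : ((p : ℤ) ∣ y + p) ↔ ((p : ℤ) ∣ y) := by
    exact dvd_add_left (dvd_refl _)
  have e3 : ((p : ℤ) ∣ (y + p) ^ 2 - 2) ↔ ((p : ℤ) ∣ y ^ 2 - 2) := by
    have e : (y + p) ^ 2 - 2 = (y ^ 2 - 2) + (2 * y + p) * (p : ℤ) := by ring
    rw [e]
    exact dvd_add_left (Dvd.intro_left _ rfl)
  simp only [pe_f, gp, e1, e2, e3]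

private theorem pe_perm (m n p N : ℕ) (h : p ∣ N) :
    Per N (fun y => ((pe_f m n p y : ℝ) : ℂ)) := by
  obtain ⟨k, rfl⟩ := h
  intro y
  induction k with
  | zero => simp
  | succ k ih =>
    have e : y + ((p * (k + 1) : ℕ) : ℤ) = (y + ((p * k : ℕ) : ℤ)) + (p : ℤ) := by
      push_cast
      ring
    rw [e]
    exact (pe_per m n p _).trans ih

theorem thm_Pe : St_Pe := by
  intro m n q₁ a ℓ hc hodd hq ha hℓ
  obtain ⟨c, -, hLc⟩ := Pool.Agent.MVII.thm_Lc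
  obtain ⟨L1, -, -⟩ := hLc m n hc hodd
  obtain ⟨M1, -, M3, -⟩ := Pool.Agent.MVII.thm_Mt
  have hq0 : (0 : ℝ) < q₁ := by exact_mod_cast hq
  -- the product of the local factors
  have hP : ∀ y : ℤ, exq q₁ y * ∏ p ∈ q₁.primeFactors, (gp p ((n : ℤ) - m * y) * gp p y) =
      ∏ p ∈ q₁.primeFactors, pe_f m n p y := by
    intro y
    have e0 : ∏ p ∈ q₁.primeFactors, pe_f m n p y =
        (∏ p ∈ q₁.primeFactors, (gp p ((n : ℤ) - m * y) * gp p y)) *
          ∏ p ∈ q₁.primeFactors, (if p ≠ 2 → ¬ (p : ℤ) ∣ y ^ 2 - 2 then (1 : ℝ) else 0) := by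
      rw [← Finset.prod_mul_distrib]
      rfl
    have e1 : exq q₁ y =
        ∏ p ∈ q₁.primeFactors, (if p ≠ 2 → ¬ (p : ℤ) ∣ y ^ 2 - 2 then (1 : ℝ) else 0) := by
      rw [exq]
      by_cases h : ∀ p ∈ q₁.primeFactors, p ≠ 2 → ¬ (p : ℤ) ∣ y ^ 2 - 2
      · rw [if_pos h]
        symm
        exact Finset.prod_eq_one fun p hp => if_pos (h p hp)
      · rw [if_neg h]
        push Not at h
        obtain ⟨p, hp, h1, h2⟩ := h
        symm
        exact Finset.prod_eq_zero hp (if_neg fun h3 => h3 h1 h2)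
    rw [e0, e1, mul_comm]
  have hg0 : ∀ p ∈ q₁.primeFactors, ∀ x : ℤ, 0 ≤ gp p x := by
    intro p hp x
    have hp' := Nat.prime_of_mem_primeFactors hp
    have h1 : (2 : ℝ) ≤ p := by exact_mod_cast hp'.two_le
    rw [gp]
    split_ifs
    · exact le_rfl
    · exact div_nonneg (by linarith) (by linarith)
  have hf0 : ∀ y : ℤ, 0 ≤ ∏ p ∈ q₁.primeFactors, pe_f m n p y := by
    intro y
    refine Finset.prod_nonneg fun p hp => ?_
    rw [pe_f]
    refine mul_nonneg (mul_nonneg (hg0 p hp _) (hg0 p hp _)) ?_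
    split_ifs
    · exact zero_le_one
    · exact le_rfl
  -- the mean of the product
  have hmean : mn q₁ (fun y => ∏ p ∈ q₁.primeFactors, ((pe_f m n p y : ℝ) : ℂ)) =
      ((∏ p ∈ q₁.primeFactors, loc (p + 1) m n p : ℝ) : ℂ) := by
    rw [M1 q₁ (∏ p ∈ q₁.primeFactors, p) _ hq
      (Nat.one_le_iff_ne_zero.2 (Finset.prod_ne_zero_iff.2 fun p hp =>
        (Nat.prime_of_mem_primeFactors hp).ne_zero)) ?_ ?_,
      M3 q₁.primeFactors (fun p y => ((pe_f m n p y : ℝ) : ℂ))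
        (fun p hp => Nat.prime_of_mem_primeFactors hp) (fun p _ => pe_per m n p)]
    · push_cast
      exact Finset.prod_congr rfl fun p hp => pe_loc m n p (Nat.prime_of_mem_primeFactors hp)
    · intro y
      exact Finset.prod_congr rfl fun p hp =>
        pe_perm m n p q₁ (Nat.dvd_of_mem_primeFactors hp) y
    · intro y
      exact Finset.prod_congr rfl fun p hp =>
        pe_perm m n p _ (Finset.dvd_prod_of_mem _ hp) y
  have hre : ∀ F : ℤ → ℝ, (mn q₁ (fun y => ((F y : ℝ) : ℂ))).re =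
      (∑ y ∈ range q₁, F (y : ℤ)) / q₁ := by
    intro F
    rw [mn]
    have h2 : ∑ y ∈ range q₁, ((F (y : ℤ) : ℝ) : ℂ) = (((∑ y ∈ range q₁, F (y : ℤ)) : ℝ) : ℂ) := by
      push_cast
      rfl
    rw [h2, ← Complex.ofReal_natCast, ← Complex.ofReal_div, Complex.ofReal_re]
  have hval : (∑ y ∈ range q₁, ∏ p ∈ q₁.primeFactors, pe_f m n p (y : ℤ)) / q₁ =
      ∏ p ∈ q₁.primeFactors, loc (p + 1) m n p := by
    rw [← hre fun y => ∏ p ∈ q₁.primeFactors, pe_f m n p y]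
    have h2 : (fun y : ℤ => (((∏ p ∈ q₁.primeFactors, pe_f m n p y : ℝ)) : ℂ)) =
        fun y => ∏ p ∈ q₁.primeFactors, ((pe_f m n p y : ℝ) : ℂ) := by
      funext y
      push_cast
      rfl
    rw [h2, hmean, Complex.ofReal_re]
  rw [hre fun y => ℓ y * exq q₁ y *
    ∏ p ∈ q₁.primeFactors, (gp p ((n : ℤ) - m * y) * gp p y)]
  have s1 : ∏ p ∈ q₁.primeFactors, (1 - 1 / (p : ℝ)) ^ 8 ≤
      ∏ p ∈ q₁.primeFactors, loc (p + 1) m n p := by
    refine Finset.prod_le_prod (fun p hp => ?_) fun p hp =>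
      L1 (p + 1) p (Nat.prime_of_mem_primeFactors hp)
    have h1 : (2 : ℝ) ≤ p := by exact_mod_cast (Nat.prime_of_mem_primeFactors hp).two_le
    refine pow_nonneg ?_ 8
    rw [sub_nonneg, div_le_one (by linarith)]
    linarith
  refine (mul_le_mul_of_nonneg_left s1 ha).trans ?_
  rw [← hval, ← mul_div_assoc, Finset.mul_sum]
  refine div_le_div_of_nonneg_right (Finset.sum_le_sum fun y _ => ?_) hq0.le
  rw [mul_assoc, hP]
  exact mul_le_mul_of_nonneg_right (hℓ _) (hf0 _)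

end Pool.Agent.MV5
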