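import Mathlib
import Pool.Agent.MV5.StC
import Pool.Agent.MVII.Mt
import Pool.Agent.MVII.Lc
import Pool.Agent.MVII.Pf

set_option autoImplicit false

/-!
# MV5: PF, the mean with the sieve is a product
-/

namespace Pool.Agent.MV5

open Finset Filter
open Pool.Agent.GBQ (ee lam nd Admissible)
open Pool.Agent.MVX (Chr tent Bm Um prm Win GP)
open Pool.Agent.LIN (PP pz Dens)
open Pool.Agent.MT (IsWt)
open Pool.Agent.MVII (TT QQ HH H0 cp cs gp GQ ar PL PM NB BI Bc Md fj rr Per mn wq Sum4 Blk loc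
  pf_mn pf_per pf_cast pf_mt1 pf_mt2 pf_mt3 pf_per_dvd pf_f pf_i pf_wq pf_f_per pf_i_per
  pf_A pf_B pf_mA pf_mB thm_Mt thm_Lc)

/-- the mean of the indicator function -/
theorem pf_mi (p : ℕ) : pf_mn p (pf_i p) = ((RT p).card : ℝ) / p := by
  unfold pf_mn pf_i RT
  rw [Finset.sum_boole]

/-- the mean of the local weight -/
theorem pf_loc (m n p : ℕ) : pf_mn p (pf_f m n p) = loc 0 m n p := by
  rw [pf_mA]
  unfold loc MVII.nl pf_A
  simp only [Nat.not_lt_zero, false_imp_iff, and_true]
  ring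

/-- the two sorts of factors -/
noncomputable def pf_h (P U : Finset ℕ) (m n p : ℕ) (y : ℤ) : ℝ :=
  (if p ∈ P then pf_f m n p y else 1) * (if p ∈ U then pf_i p y else 1)

theorem pf_h_per (P U : Finset ℕ) (m n p : ℕ) : pf_per p (pf_h P U m n p) := by
  intro y
  unfold pf_h
  rw [pf_f_per m n p y, pf_i_per p y]

/-- product over the union -/
theorem pf_union (P U : Finset ℕ) (F G : ℕ → ℝ) :
    ∏ p ∈ P ∪ U, ((if p ∈ P then F p else 1) * (if p ∈ U then G p else 1)) =
      (∏ p ∈ P, F p) * ∏ p ∈ U, G p := by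
  rw [prod_mul_distrib, prod_ite_mem, prod_ite_mem]
  rw [inter_eq_right.mpr subset_union_left, inter_eq_right.mpr subset_union_right]

/-- the divisibility for squarefree `d` -/
theorem pf_dvd {d : ℕ} (hd : Squarefree d) (x : ℤ) :
    (d : ℤ) ∣ x ↔ ∀ p ∈ d.primeFactors, (p : ℤ) ∣ x := by
  constructor
  · intro h p hp
    exact dvd_trans (by exact_mod_cast Nat.dvd_of_mem_primeFactors hp) h
  · intro h
    have h1 : ∏ p ∈ d.primeFactors, p = d := Nat.prod_primeFactors_of_squarefree hd
    have h2 : ∏ p ∈ d.primeFactors, p ∣ x.natAbs := by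
      refine Finset.prod_primes_dvd _ (fun p hp => (Nat.prime_of_mem_primeFactors hp).prime)
        fun p hp => ?_
      exact Int.natCast_dvd.mp (h p hp)
    rw [h1] at h2
    exact Int.natCast_dvd.mpr h2

theorem pf_ind {d : ℕ} (hd : Squarefree d) (y : ℤ) :
    (if (d : ℤ) ∣ y ^ 2 - 2 then (1 : ℝ) else 0) = ∏ p ∈ d.primeFactors, pf_i p y := by
  split_ifs with h
  · refine (prod_eq_one fun p hp => ?_).symm
    rw [pf_i, if_pos ((pf_dvd hd _).mp h p hp)]
  · rw [pf_dvd hd] at h
    push Not at h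
    obtain ⟨p, hp, h1⟩ := h
    refine (prod_eq_zero hp ?_).symm
    rw [pf_i, if_neg h1]

theorem thm_Pf : St_Pf := by
  intro Q D m n q₁ c ℓ hnm hpar hq1 hqQ hc hℓp
  obtain ⟨c0, -, hLc⟩ := thm_Lc
  obtain ⟨-, -, hL3⟩ := hLc m n hnm hpar
  classical
  have hP1 : (pz Q).filter (fun p => p ∣ q₁) = q₁.primeFactors := by
    ext p
    unfold pz
    rw [mem_filter, mem_filter, Nat.mem_primeFactors, mem_range]
    constructor
    · rintro ⟨⟨-, h1⟩, h2⟩
      exact ⟨h1, h2, by omega⟩
    · rintro ⟨h1, h2, -⟩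
      have := Nat.le_of_dvd (by omega) h2
      exact ⟨⟨by omega, h1⟩, h2⟩
  set P₁ := q₁.primeFactors with hP1d
  set P₂ := (pz Q).filter (fun p => ¬ p ∣ q₁) with hP2
  have prz : ∀ p ∈ pz Q, p.Prime := fun p hp => (mem_filter.mp hp).2
  have pr2 : ∀ p ∈ P₂, p.Prime := fun p hp => prz p (mem_filter.mp hp).1
  have pr1 : ∀ p ∈ P₁, p.Prime := fun p hp => Nat.prime_of_mem_primeFactors hp
  -- the factors
  set F₁ : ℤ → ℝ := fun y => ℓ y * exq q₁ y * ∏ p ∈ P₁, (gp p ((n : ℤ) - m * y) * gp p y)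
    with hF1
  set cc : ℕ → ℝ := fun d => if d.Coprime (2 * q₁) then c d else 0 with hcc
  set H : ℕ → ℤ → ℝ := fun d y => ∏ p ∈ P₂ ∪ d.primeFactors, pf_h P₂ d.primeFactors m n p y
    with hH
  have split : ∀ y : ℤ, wq Q m n y = (∏ p ∈ P₁, (gp p ((n : ℤ) - m * y) * gp p y)) *
      ∏ p ∈ P₂, pf_f m n p y := by
    intro y
    rw [pf_wq, ← prod_filter_mul_prod_filter_not (pz Q) (fun p => p ∣ q₁), hP1]
    rfl
  have idA : ∀ y : ℤ, ℓ y * wq Q m n y * (exq q₁ y * S1 D q₁ c y) =
      ∑ d ∈ Icc 1 D, cc d * (F₁ y * H d y) := by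
    intro y
    have e1 : ∀ d ∈ Icc 1 D, cc d * (F₁ y * H d y) =
        (F₁ y * ∏ p ∈ P₂, pf_f m n p y) *
          (if (d : ℤ) ∣ y ^ 2 - 2 ∧ d.Coprime (2 * q₁) then c d else 0) := by
      intro d _
      rw [hcc]
      simp only
      by_cases h1 : d.Coprime (2 * q₁)
      · rw [if_pos h1]
        by_cases h2 : c d = 0
        · rw [h2]
          simp
        · have h3 : H d y = (∏ p ∈ P₂, pf_f m n p y) *
              (if (d : ℤ) ∣ y ^ 2 - 2 then (1 : ℝ) else 0) := by
            rw [pf_ind (hc d h2), hH]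
            exact pf_union _ _ _ _
          rw [h3]
          by_cases h4 : (d : ℤ) ∣ y ^ 2 - 2
          · rw [if_pos h4, if_pos ⟨h4, h1⟩]
            ring
          · rw [if_neg h4, if_neg fun h => h4 h.1]
            ring
      · rw [if_neg h1, if_neg fun h => h1 h.2]
        ring
    rw [sum_congr rfl e1, ← mul_sum, split]
    unfold S1
    rw [hF1]
    ring
  -- periods
  have perF1 : pf_per q₁ F₁ := by
    intro y
    have e1 : ∀ p ∈ P₁, gp p ((n : ℤ) - m * (y + q₁)) * gp p (y + q₁) =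
        gp p ((n : ℤ) - m * y) * gp p y := fun p hp =>
      pf_per_dvd (pf_f_per m n p) (Nat.dvd_of_mem_primeFactors hp) y
    have e2 : exq q₁ (y + q₁) = exq q₁ y := by
      unfold exq
      have e3 : (∀ p ∈ q₁.primeFactors, p ≠ 2 → ¬ (p : ℤ) ∣ (y + (q₁ : ℤ)) ^ 2 - 2) ↔
          ∀ p ∈ q₁.primeFactors, p ≠ 2 → ¬ (p : ℤ) ∣ y ^ 2 - 2 := by
        refine forall_congr' fun p => forall_congr' fun hpq => forall_congr' fun _ => ?_
        have h5 : (y + (q₁ : ℤ)) ^ 2 - 2 = (y ^ 2 - 2) + q₁ * (2 * y + q₁) := by ring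
        have h6 : (p : ℤ) ∣ (q₁ : ℤ) * (2 * y + q₁) :=
          Dvd.dvd.mul_right (by exact_mod_cast Nat.dvd_of_mem_primeFactors hpq) _
        rw [h5, dvd_add_left h6]
      simp only [e3]
    rw [hF1]
    simp only
    rw [hℓp, prod_congr rfl e1, e2]
  have prU : ∀ d : ℕ, ∀ p ∈ P₂ ∪ d.primeFactors, p.Prime := by
    intro d p hp
    rcases mem_union.mp hp with h | h
    · exact pr2 p h
    · exact Nat.prime_of_mem_primeFactors h
  have perH : ∀ d : ℕ, pf_per (∏ p ∈ P₂ ∪ d.primeFactors, p) (H d) := by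
    intro d y
    exact prod_congr rfl fun p hp =>
      pf_per_dvd (pf_h_per P₂ d.primeFactors m n p) (dvd_prod_of_mem (fun p => p) hp) y
  have hM2 : ∀ d : ℕ, 1 ≤ ∏ p ∈ P₂ ∪ d.primeFactors, p := fun d =>
    Nat.one_le_iff_ne_zero.mpr (prod_ne_zero_iff.mpr fun p hp => (prU d p hp).ne_zero)
  -- one divisor
  have key : ∀ d ∈ Icc 1 D, cc d * pf_mn (MF Q D) (fun y => F₁ y * H d y) =
      (pf_mn q₁ F₁ * ∏ p ∈ P₂, loc 0 m n p) *
        (c d * ∏ p ∈ d.primeFactors, gl Q q₁ m n p) := by
    intro d hd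
    rw [mem_Icc] at hd
    by_cases h2 : c d = 0
    · rw [hcc]
      simp only [h2, ite_self]
      ring
    by_cases h1 : d.Coprime (2 * q₁)
    · rw [hcc]
      simp only
      rw [if_pos h1]
      have hnd : ∀ p ∈ d.primeFactors, ¬ p ∣ 2 * q₁ := by
        intro p hp h3
        exact Nat.not_coprime_of_dvd_of_dvd (Nat.prime_of_mem_primeFactors hp).one_lt
          (Nat.dvd_of_mem_primeFactors hp) h3 h1
      have hndq : ∀ p ∈ P₂ ∪ d.primeFactors, ¬ p ∣ q₁ := by
        intro p hp
        rcases mem_union.mp hp with h | h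
        · exact (mem_filter.mp h).2
        · exact fun h3 => hnd p h (Dvd.dvd.mul_left h3 2)
      have cop : q₁.Coprime (∏ p ∈ P₂ ∪ d.primeFactors, p) := by
        refine Nat.Coprime.prod_right fun p hp => ?_
        exact ((Nat.Prime.coprime_iff_not_dvd (prU d p hp)).mpr (hndq p hp)).symm
      have dv : q₁ * (∏ p ∈ P₂ ∪ d.primeFactors, p) ∣ MF Q D := by
        unfold MF
        refine cop.mul_dvd_of_dvd_of_dvd (Nat.dvd_factorial hq1 (by omega)) ?_
        refine Finset.prod_primes_dvd _ (fun p hp => (prU d p hp).prime) fun p hp => ?_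
        refine Nat.dvd_factorial (prU d p hp).pos ?_
        rcases mem_union.mp hp with h | h
        · have h6 := mem_range.mp (mem_filter.mp (mem_filter.mp h).1).1
          omega
        · have h6 := Nat.le_of_dvd (by omega) (Nat.dvd_of_mem_primeFactors h)
          omega
      have p1 : pf_per (q₁ * (∏ p ∈ P₂ ∪ d.primeFactors, p)) (fun y => F₁ y * H d y) := by
        intro y
        simp only
        rw [pf_per_dvd perF1 (dvd_mul_right _ _) y, pf_per_dvd (perH d) (dvd_mul_left _ _) y]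
      have red : pf_mn (MF Q D) (fun y => F₁ y * H d y) =
          pf_mn q₁ F₁ * pf_mn (∏ p ∈ P₂ ∪ d.primeFactors, p) (H d) := by
        rw [← pf_mt2 thm_Mt hq1 (hM2 d) cop perF1 (perH d)]
        exact pf_mt1 thm_Mt (Nat.factorial_pos _) (Nat.mul_pos hq1 (hM2 d))
          (pf_per_dvd p1 dv) p1
      have e2 : ∀ p ∈ P₂ ∪ d.primeFactors, pf_mn p (pf_h P₂ d.primeFactors m n p) =
          (if p ∈ P₂ then loc 0 m n p else 1) *
            (if p ∈ d.primeFactors then gl Q q₁ m n p else 1) := by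
        intro p hp
        have hpp := prU d p hp
        by_cases ha : p ∈ P₂
        · have hpQ : p ≤ Q := by
            have h6 := mem_range.mp (mem_filter.mp (mem_filter.mp ha).1).1
            omega
          by_cases hb : p ∈ d.primeFactors
          · have e3 : pf_h P₂ d.primeFactors m n p = fun y => pf_f m n p y * pf_i p y := by
              funext y
              unfold pf_h
              rw [if_pos ha, if_pos hb]
            rw [e3, if_pos ha, if_pos hb, pf_mB, ← pf_loc, pf_mA]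
            have h5 : (0 : ℝ) < pf_A m n p := Nat.cast_pos.mpr (hL3 p hpp).1
            have e4 : gl Q q₁ m n p = (pf_B m n p : ℝ) / pf_A m n p := by
              unfold gl
              rw [if_neg (hnd p hb), if_pos hpQ]
              rfl
            rw [e4]
            field_simp
          · have e3 : pf_h P₂ d.primeFactors m n p = fun y => pf_f m n p y := by
              funext y
              unfold pf_h
              rw [if_pos ha, if_neg hb, mul_one]
            rw [e3, if_pos ha, if_neg hb, mul_one, ← pf_loc]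
        · have hb : p ∈ d.primeFactors := by
            rcases mem_union.mp hp with h | h
            · exact absurd h ha
            · exact h
          have hpQ : ¬ p ≤ Q := by
            intro h
            refine ha (mem_filter.mpr ⟨?_, hndq p hp⟩)
            exact mem_filter.mpr ⟨mem_range.mpr (by omega), hpp⟩
          have e3 : pf_h P₂ d.primeFactors m n p = fun y => pf_i p y := by
            funext y
            unfold pf_h
            rw [if_neg ha, if_pos hb, one_mul]
          rw [e3, if_neg ha, if_pos hb, one_mul]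
          have e4 : gl Q q₁ m n p = ((RT p).card : ℝ) / p := by
            unfold gl
            rw [if_neg (hnd p hb), if_neg hpQ]
          rw [e4]
          exact pf_mi p
      have e5 : pf_mn (∏ p ∈ P₂ ∪ d.primeFactors, p) (H d) =
          (∏ p ∈ P₂, loc 0 m n p) * ∏ p ∈ d.primeFactors, gl Q q₁ m n p := by
        rw [hH]
        simp only
        rw [pf_mt3 thm_Mt (f := fun p => pf_h P₂ d.primeFactors m n p) (prU d)
          (fun p _ => pf_h_per P₂ d.primeFactors m n p), prod_congr rfl e2]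
        exact pf_union _ _ _ _
      rw [red, e5]
      ring
    · have h3 : ∃ p ∈ d.primeFactors, p ∣ 2 * q₁ := by
        obtain ⟨p, hp, h4, h5⟩ := Nat.Prime.not_coprime_iff_dvd.mp h1
        exact ⟨p, Nat.mem_primeFactors.mpr ⟨hp, h4, by omega⟩, h5⟩
      obtain ⟨p, hp, h4⟩ := h3
      rw [hcc]
      simp only
      rw [if_neg h1, prod_eq_zero hp (by unfold gl; rw [if_pos h4])]
      ring
  -- the end
  have fin : pf_mn (MF Q D) (fun y => ℓ y * wq Q m n y * (exq q₁ y * S1 D q₁ c y)) =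
      pf_mn q₁ F₁ * ((∏ p ∈ P₂, loc 0 m n p) *
        ∑ d ∈ Icc 1 D, c d * ∏ p ∈ d.primeFactors, gl Q q₁ m n p) := by
    have e1 : pf_mn (MF Q D) (fun y => ℓ y * wq Q m n y * (exq q₁ y * S1 D q₁ c y)) =
        ∑ d ∈ Icc 1 D, cc d * pf_mn (MF Q D) (fun y => F₁ y * H d y) := by
      unfold pf_mn
      simp only [idA]
      rw [sum_comm, sum_div]
      refine sum_congr rfl fun d _ => ?_
      rw [← mul_sum, mul_div_assoc]
    rw [e1, sum_congr rfl key, ← mul_sum]
    ring
  have h7 := pf_cast (MF Q D) (fun y => ℓ y * wq Q m n y * (exq q₁ y * S1 D q₁ c y))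
  have h8 := pf_cast q₁ F₁
  rw [h7, fin, Complex.ofReal_mul, ← h8]

end Pool.Agent.MV5
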