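import Pool.Agent.MV5.StC
import Pool.Agent.MVII.Po
import Pool.Agent.MVII.Lc

set_option autoImplicit false

/-!
# MV5: positivity of the completed mean
-/

namespace Pool.Agent.MV5

open Finset Filter
open Pool.Agent.GBQ (ee lam nd Admissible)
open Pool.Agent.MVX (Chr tent Bm Um prm Win GP)
open Pool.Agent.LIN (PP pz Dens)
open Pool.Agent.MT (IsWt)
open Pool.Agent.MVII (TT QQ HH H0 cp cs gp GQ ar PL PM NB BI Bc Md fj rr Per mn wq Sum4 Blk loc)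

theorem po_near {L L' : ℂ} {a a' κ : ℝ} (ha : 0 ≤ a) (ha' : 0 ≤ a') (hκ : 0 < κ)
    (hκ1 : κ ≤ 1 / 1000) (h : ‖L - ((a : ℝ) : ℂ)‖ ≤ 4 * κ * a)
    (h' : ‖L' - ((a' : ℝ) : ℂ)‖ ≤ 4 * κ * a') :
    |(L * L').re - a * a'| ≤ 9 * κ * (a * a') := by
  have e : ((L * L').re - a * a') = (L * L' - ((a * a' : ℝ) : ℂ)).re := by
    rw [Complex.sub_re, Complex.ofReal_re]
  have e2 : L * L' - ((a * a' : ℝ) : ℂ) =
      (L - ((a : ℝ) : ℂ)) * L' + ((a : ℝ) : ℂ) * (L' - ((a' : ℝ) : ℂ)) := by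
    push_cast
    ring
  have hL' : ‖L'‖ ≤ (1 + 4 * κ) * a' := by
    have e3 : L' = ((a' : ℝ) : ℂ) + (L' - ((a' : ℝ) : ℂ)) := by ring
    rw [e3]
    refine (norm_add_le _ _).trans ?_
    rw [Complex.norm_of_nonneg ha']
    linarith
  rw [e]
  refine (Complex.abs_re_le_norm _).trans ?_
  rw [e2]
  refine (norm_add_le _ _).trans ?_
  rw [norm_mul, norm_mul, Complex.norm_of_nonneg ha]
  have h1 : ‖L - ((a : ℝ) : ℂ)‖ * ‖L'‖ ≤ 4 * κ * a * ((1 + 4 * κ) * a') :=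
    mul_le_mul h hL' (norm_nonneg _) (by positivity)
  have h2 : a * ‖L' - ((a' : ℝ) : ℂ)‖ ≤ a * (4 * κ * a') := mul_le_mul_of_nonneg_left h' ha
  have h3 : 0 ≤ a * a' := mul_nonneg ha ha'
  have h4 : κ * κ * (a * a') ≤ 1 / 1000 * κ * (a * a') :=
    mul_le_mul_of_nonneg_right (mul_le_mul_of_nonneg_right hκ1 hκ.le) h3
  have h5 : 0 ≤ κ * (a * a') := mul_nonneg hκ.le h3
  nlinarith

theorem po_close {q₁ : ℕ} (χ₁ : DirichletCharacter ℂ q₁) (a : ZMod q₁) {l v κ : ℝ} (hl : 0 < l)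
    (hl1 : l ≤ 1) (hκ : 0 < κ) (hv : 0 ≤ v) (hv1 : v ≤ 1 - l / 4) (him : (χ₁ a).im = 0) {L : ℂ}
    (h : ‖L - (1 - χ₁ a * ((v : ℝ) : ℂ))‖ ≤ κ * l ^ 3) :
    ‖L - (((1 - (χ₁ a).re * v : ℝ)) : ℂ)‖ ≤ 4 * κ * (1 - (χ₁ a).re * v) := by
  have e : (((1 - (χ₁ a).re * v : ℝ)) : ℂ) = 1 - χ₁ a * ((v : ℝ) : ℂ) := by
    have e1 : χ₁ a = (((χ₁ a).re : ℝ) : ℂ) := by
      apply Complex.ext
      · rw [Complex.ofReal_re]
      · rw [Complex.ofReal_im, him]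
    rw [e1]
    push_cast
    rw [Complex.ofReal_re]
  rw [e]
  refine h.trans ?_
  have h1 := MVII.po_low χ₁ a hv hv1
  have h2 : l ^ 3 ≤ l := by
    have h3 : l ^ 3 ≤ l ^ 1 := pow_le_pow_of_le_one hl.le hl1 (by norm_num)
    rwa [pow_one] at h3
  have h3 : κ * l ^ 3 ≤ κ * l := mul_le_mul_of_nonneg_left h2 hκ.le
  have h4 : κ * (l / 4) ≤ κ * (1 - (χ₁ a).re * v) := mul_le_mul_of_nonneg_left h1 hκ.le
  linarith

theorem po_exq_nonneg (q₁ : ℕ) (y : ℤ) : 0 ≤ exq q₁ y := by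
  unfold exq
  split_ifs
  · exact zero_le_one
  · exact le_rfl

theorem po_sums {K D q₁ : ℕ} {c : ℕ → ℝ} (hq : 1 ≤ q₁) (hK : 1 ≤ K)
    (hD : (q₁ : ℝ) * (K : ℝ) ^ (49 / 100 : ℝ) ≤ D)
    (hc : ∀ d, c d ≠ 0 → (d : ℝ) ≤ (K : ℝ) ^ (49 / 100 : ℝ)) (g : ℕ → ℝ) :
    ∑ d ∈ Icc 1 D, c d * g d = ∑ d ∈ Icc 1 K, c d * g d := by
  have hK1 : (1 : ℝ) ≤ K := by exact_mod_cast hK
  have hr0 : (0 : ℝ) ≤ (K : ℝ) ^ (49 / 100 : ℝ) := Real.rpow_nonneg (by linarith) _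
  have h1 : ∀ N : ℕ, (K : ℝ) ^ (49 / 100 : ℝ) ≤ N →
      ∑ d ∈ Icc 1 ⌊(K : ℝ) ^ (49 / 100 : ℝ)⌋₊, c d * g d = ∑ d ∈ Icc 1 N, c d * g d := by
    intro N hN
    refine sum_subset ?_ ?_
    · refine Icc_subset_Icc_right ?_
      have h2 := (Nat.floor_le hr0).trans hN
      exact_mod_cast h2
    · intro d hd hd'
      have h2 : c d = 0 := by
        by_contra h3
        apply hd'
        rw [mem_Icc] at hd ⊢
        exact ⟨hd.1, Nat.le_floor (hc d h3)⟩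
      rw [h2, zero_mul]
  have h2 : (K : ℝ) ^ (49 / 100 : ℝ) ≤ D := by
    refine le_trans ?_ hD
    have h3 : (1 : ℝ) ≤ q₁ := by exact_mod_cast hq
    exact le_mul_of_one_le_left hr0 h3
  have h3 : (K : ℝ) ^ (49 / 100 : ℝ) ≤ K := by
    have h4 := Real.rpow_le_rpow_of_exponent_le hK1 (by norm_num : (49 / 100 : ℝ) ≤ 1)
    rwa [Real.rpow_one] at h4
  rw [← h1 D h2, ← h1 K h3]

theorem po_one_sub {p : ℕ} (hp : p.Prime) : (0 : ℝ) ≤ 1 - 1 / p := by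
  have h1 : (1 : ℝ) ≤ p := by exact_mod_cast hp.one_lt.le
  rw [sub_nonneg, div_le_one (by linarith)]
  exact h1

theorem thm_Po (h1 : St_Sw) (h2 : St_Pf) (h3 : St_Pe) (h4 : St_Gl) : St_Po := by
  intro c₀ δ₀ η₀ C κ hc0 hC hκ hκ1 hCκ T Q D K m n q₁ l v v' c cu b b' χ₁ hSv hDens hnm hodd
    hq1 hqQ hK hKD him hl hl1 hv hv1 hv' hv1' hL hL'
  obtain ⟨cL, -, hLc⟩ := MVII.thm_Lc
  obtain ⟨hLc1, -, -⟩ := hLc m n hnm hodd
  obtain ⟨-, hSD, hS1⟩ := h1 K D q₁ c₀ δ₀ η₀ C c cu hq1 hK hC.le hSv hKD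
  obtain ⟨A, hA⟩ : ∃ A : ℤ → ℝ, A = fun y =>
      1 - (χ₁ ((((n : ℤ) - m * y : ℤ)) : ZMod q₁)).re * v := ⟨_, rfl⟩
  obtain ⟨A', hA'⟩ : ∃ A' : ℤ → ℝ, A' = fun y =>
      1 - (χ₁ ((y : ℤ) : ZMod q₁)).re * v' := ⟨_, rfl⟩
  have hAl : ∀ y, l / 4 ≤ A y := by
    intro y
    rw [hA]
    exact MVII.po_low χ₁ _ hv hv1
  have hAl' : ∀ y, l / 4 ≤ A' y := by
    intro y
    rw [hA']
    exact MVII.po_low χ₁ _ hv' hv1'
  have hl4 : 0 ≤ l / 4 := by linarith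
  have hA0 : ∀ y, 0 ≤ A y := fun y => hl4.trans (hAl y)
  have hA0' : ∀ y, 0 ≤ A' y := fun y => hl4.trans (hAl' y)
  have hper : ∀ y : ℤ, A (y + q₁) * A' (y + q₁) = A y * A' y := by
    intro y
    have e1 : (((n : ℤ) - m * (y + q₁) : ℤ) : ZMod q₁) = (((n : ℤ) - m * y : ℤ) : ZMod q₁) := by
      push_cast
      rw [ZMod.natCast_self]
      ring
    have e2 : ((y + q₁ : ℤ) : ZMod q₁) = ((y : ℤ) : ZMod q₁) := by
      push_cast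
      rw [ZMod.natCast_self]
      ring
    simp only [hA, hA']
    rw [e1, e2]
  have hlow : ∀ y, (l / 4) ^ 2 ≤ A y * A' y := by
    intro y
    rw [pow_two]
    exact mul_le_mul (hAl y) (hAl' y) hl4 (hA0 y)
  -- the pointwise inequality
  have key : (mn (MF Q D) (fun y => ((1 * (A y * A' y * wq Q m n y * (exq q₁ y * S1 D q₁ c y)) -
      9 * κ * (A y * A' y * wq Q m n y * (exq q₁ y * S1 D q₁ cu y)) : ℝ) : ℂ))).re ≤
      (mn (MF Q D) (fun y => PL b T ((n : ℤ) - m * y) * PL b' T y *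
        ((wq Q m n y * SD D (ct q₁ c) y : ℝ) : ℂ))).re := by
    apply MVII.po_mono
    intro y
    rw [Complex.ofReal_re, Complex.re_mul_ofReal, hSD]
    have h5 : |(PL b T ((n : ℤ) - m * y) * PL b' T y).re - A y * A' y| ≤
        9 * κ * (A y * A' y) := by
      refine po_near (hA0 y) (hA0' y) hκ hκ1 ?_ ?_
      · rw [hA]
        exact po_close χ₁ _ hl hl1 hκ hv hv1 (him _) (hL ((n : ℤ) - m * y))
      · rw [hA']
        exact po_close χ₁ _ hl hl1 hκ hv' hv1' (him _) (hL' y)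
    have h6 : 0 ≤ wq Q m n y * exq q₁ y :=
      mul_nonneg (MVII.po_wq_nonneg Q m n y) (po_exq_nonneg q₁ y)
    have h7 := hS1 y
    have h8 : |((PL b T ((n : ℤ) - m * y) * PL b' T y).re - A y * A' y) * S1 D q₁ c y| ≤
        9 * κ * (A y * A' y) * S1 D q₁ cu y := by
      rw [abs_mul]
      exact mul_le_mul h5 h7 (abs_nonneg _)
        (mul_nonneg (by positivity) (mul_nonneg (hA0 y) (hA0' y)))
    have h9 := mul_le_mul_of_nonneg_right (abs_le.1 h8).1 h6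
    nlinarith [h9]
  rw [MVII.po_comb] at key
  have hPf1 := h2 Q D m n q₁ c (fun y => A y * A' y) hnm hodd hq1 hqQ
    (fun d hd => (hSv.supp d (Or.inl hd)).1) hper
  have hPf2 := h2 Q D m n q₁ cu (fun y => A y * A' y) hnm hodd hq1 hqQ
    (fun d hd => (hSv.supp d (Or.inr hd)).1) hper
  rw [hPf1, hPf2, Complex.re_mul_ofReal, Complex.re_mul_ofReal] at key
  obtain ⟨Aq, hAq⟩ : ∃ Aq : ℝ, Aq = (mn q₁ (fun y => ((A y * A' y * exq q₁ y *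
      ∏ p ∈ q₁.primeFactors, (gp p ((n : ℤ) - m * y) * gp p y) : ℝ) : ℂ))).re := ⟨_, rfl⟩
  have hPe := h3 m n q₁ ((l / 4) ^ 2) (fun y => A y * A' y) hnm hodd hq1 (sq_nonneg _) hlow
  rw [← hAq] at key hPe
  obtain ⟨G, hG⟩ : ∃ G : ℝ, G = ∏ p ∈ (pz Q).filter (fun p => ¬ p ∣ q₁), loc 0 m n p :=
    ⟨_, rfl⟩
  rw [← hG] at key
  obtain ⟨s1, s2⟩ := hSv.main (gl Q q₁ m n) hDens
  rw [← po_sums hq1 hK hKD (fun d hd => (hSv.supp d (Or.inl hd)).2)] at s1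
  rw [← po_sums hq1 hK hKD (fun d hd => (hSv.supp d (Or.inr hd)).2)] at s2
  obtain ⟨sc, hsc⟩ : ∃ sc : ℝ, sc = ∑ d ∈ Icc 1 D, c d * ∏ p ∈ d.primeFactors,
    gl Q q₁ m n p := ⟨_, rfl⟩
  obtain ⟨su, hsu⟩ : ∃ su : ℝ, su = ∑ d ∈ Icc 1 D, cu d * ∏ p ∈ d.primeFactors,
    gl Q q₁ m n p := ⟨_, rfl⟩
  obtain ⟨W, hW⟩ : ∃ W : ℝ, W = ∏ p ∈ pz (zs K), (1 - gl Q q₁ m n p) := ⟨_, rfl⟩
  rw [← hsc, ← hW] at s1
  rw [← hsu, ← hW] at s2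
  rw [← hsc, ← hsu] at key
  have hpz : ∀ N : ℕ, ∀ p ∈ pz N, p.Prime := fun N p hp => (mem_filter.1 hp).2
  have hV : (∏ p ∈ pz (zs K), (1 - 1 / (p : ℝ))) ^ 8 ≤ W := by
    rw [← prod_pow, hW]
    refine prod_le_prod (fun p hp => pow_nonneg (po_one_sub (hpz _ p hp)) 8) fun p hp => ?_
    exact (h4 Q q₁ m n hnm hodd p (hpz _ p hp)).2.2.2
  have hV0 : 0 ≤ (∏ p ∈ pz (zs K), (1 - 1 / (p : ℝ))) ^ 8 :=
    pow_nonneg (prod_nonneg fun p hp => po_one_sub (hpz _ p hp)) 8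
  have hsplit : (∏ p ∈ pz Q, (1 - 1 / (p : ℝ))) ^ 8 =
      (∏ p ∈ q₁.primeFactors, (1 - 1 / (p : ℝ)) ^ 8) *
        ∏ p ∈ (pz Q).filter (fun p => ¬ p ∣ q₁), (1 - 1 / (p : ℝ)) ^ 8 := by
    have e1 : q₁.primeFactors = (pz Q).filter (fun p => p ∣ q₁) := by
      ext p
      rw [Nat.mem_primeFactors, mem_filter]
      unfold pz
      rw [mem_filter, mem_range]
      constructor
      · rintro ⟨hp, hd, h0⟩
        exact ⟨⟨Nat.lt_succ_of_le ((Nat.le_of_dvd (by omega) hd).trans hqQ), hp⟩, hd⟩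
      · rintro ⟨⟨-, hp⟩, hd⟩
        exact ⟨hp, hd, by omega⟩
    rw [← prod_pow, e1, prod_filter_mul_prod_filter_not]
  have hGl : ∏ p ∈ (pz Q).filter (fun p => ¬ p ∣ q₁), (1 - 1 / (p : ℝ)) ^ 8 ≤ G := by
    rw [hG]
    refine prod_le_prod (fun p hp => pow_nonneg (po_one_sub (hpz _ p (mem_filter.1 hp).1)) 8)
      fun p hp => hLc1 0 p (hpz _ p (mem_filter.1 hp).1)
  have hG0 : 0 ≤ ∏ p ∈ (pz Q).filter (fun p => ¬ p ∣ q₁), (1 - 1 / (p : ℝ)) ^ 8 :=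
    prod_nonneg fun p hp => pow_nonneg (po_one_sub (hpz _ p (mem_filter.1 hp).1)) 8
  have hP0 : 0 ≤ ∏ p ∈ q₁.primeFactors, (1 - 1 / (p : ℝ)) ^ 8 :=
    prod_nonneg fun p hp => pow_nonneg (po_one_sub (Nat.prime_of_mem_primeFactors hp)) 8
  have hAG : (l / 4) ^ 2 * (∏ p ∈ pz Q, (1 - 1 / (p : ℝ))) ^ 8 ≤ Aq * G := by
    rw [hsplit, ← mul_assoc]
    exact mul_le_mul hPe hGl hG0 (le_trans (mul_nonneg (sq_nonneg _) hP0) hPe)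
  have hAG0 : 0 ≤ (l / 4) ^ 2 * (∏ p ∈ pz Q, (1 - 1 / (p : ℝ))) ^ 8 :=
    mul_nonneg (sq_nonneg _) (pow_nonneg (prod_nonneg fun p hp => po_one_sub (hpz _ p hp)) 8)
  have hW0 : 0 ≤ W := hV0.trans hV
  have hS : c₀ / 2 * W ≤ sc - 9 * κ * su := by
    have e1 : 9 * κ * su ≤ 9 * κ * (C * W) := mul_le_mul_of_nonneg_left s2 (by positivity)
    have e2 : 18 * C * κ * W ≤ c₀ * W := mul_le_mul_of_nonneg_right hCκ hW0
    nlinarith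
  refine le_trans ?_ key
  have e3 : 1 * (Aq * (G * sc)) - 9 * κ * (Aq * (G * su)) = Aq * G * (sc - 9 * κ * su) := by
    ring
  rw [e3]
  calc c₀ / 2 * (l / 4) ^ 2 * ((∏ p ∈ pz Q, (1 - 1 / (p : ℝ))) ^ 8 *
        (∏ p ∈ pz (zs K), (1 - 1 / (p : ℝ))) ^ 8) =
      (l / 4) ^ 2 * (∏ p ∈ pz Q, (1 - 1 / (p : ℝ))) ^ 8 *
        (c₀ / 2 * (∏ p ∈ pz (zs K), (1 - 1 / (p : ℝ))) ^ 8) := by ring
    _ ≤ Aq * G * (c₀ / 2 * W) :=
        mul_le_mul hAG (mul_le_mul_of_nonneg_left hV (by positivity))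
          (mul_nonneg (by positivity) hV0) (hAG0.trans hAG)
    _ ≤ Aq * G * (sc - 9 * κ * su) := mul_le_mul_of_nonneg_left hS (hAG0.trans hAG)

end Pool.Agent.MV5
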