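import Pool.Agent.MV5.StC
import Pool.Agent.MVII.Ep
import Pool.Agent.GBQ.RhoLow

set_option autoImplicit false

/-!
# MV5, module PR: the Euler product
-/

namespace Pool.Agent.MV5

open Finset Filter
open Pool.Agent.LIN (pz)

theorem pr_one {s : Finset ℕ} (f : ℕ → ℝ) (hf : ∀ p ∈ s, 1 ≤ f p) : 1 ≤ ∏ p ∈ s, f p := by
  calc (1 : ℝ) = ∏ p ∈ s, (1 : ℝ) := by rw [prod_const_one]
    _ ≤ ∏ p ∈ s, f p := prod_le_prod (fun _ _ => zero_le_one) hf

theorem pr_sub {s t : Finset ℕ} (h : s ⊆ t) (f : ℕ → ℝ) (hf : ∀ p ∈ t, 1 ≤ f p) :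
    ∏ p ∈ s, f p ≤ ∏ p ∈ t, f p := by
  classical
  rw [← prod_sdiff h]
  refine le_mul_of_one_le_left (prod_nonneg fun p hp => by linarith [hf p (h hp)]) ?_
  exact pr_one f fun p hp => hf p (sdiff_subset hp)

/-- the local factor at the primes which divide `E` -/
theorem pr_E (m n E p : ℕ) (hp : p.Prime) (a : Bool → Bool → ℝ)
    (haF : a false false = 1) (has : ∀ v w, a v w ≤ Real.sqrt p) (hE : p ∣ E) :
    ls m n E p a ≤ 36 * Real.sqrt p := by
  have hs : 1 ≤ Real.sqrt p := by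
    rw [Real.one_le_sqrt]
    exact_mod_cast hp.one_lt.le
  unfold ls
  simp only [Fintype.sum_bool, if_pos hE, if_true, Bool.false_eq_true, if_false, haF]
  have h1 := has true true
  have h2 := has true false
  have h3 := has false true
  linarith

/-- the local factor at the other primes -/
theorem pr_g (m n E p : ℕ) (hp : p.Prime) (a : Bool → Bool → ℝ)
    (haF : a false false = 1) (has : ∀ v w, a v w ≤ Real.sqrt p) (hE : ¬ p ∣ E) :
    ls m n E p a ≤ Real.exp (16 * (1 / (p : ℝ)) + 100 * (1 / ((p : ℝ) * Real.sqrt p))) *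
      (if p ∣ n ∨ (p : ℤ) ∣ (n : ℤ) ^ 2 - 2 * (m : ℤ) ^ 2 then 64 else 1) := by
  have hp2 : (2 : ℝ) ≤ p := by exact_mod_cast hp.two_le
  set P : ℝ := (p : ℝ) with hP
  set s : ℝ := Real.sqrt P with hs
  have hs0 : 0 ≤ s := Real.sqrt_nonneg _
  have hss : s * s = P := Real.mul_self_sqrt (by linarith)
  have hs43 : 4 / 3 ≤ s := by nlinarith
  have hP1 : 0 < P - 1 := by linarith
  have hP0 : 0 < P := by linarith
  have hs1 : 0 < s := by linarith
  have hD : 0 < P * (P - 1) := mul_pos hP0 hP1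
  -- the general bound
  set t₁ : ℝ := (if p ∣ n then 1 / (P - 1) else 1 / (P - 1) ^ 2) with ht₁
  set t₂ : ℝ := (if (p : ℤ) ∣ (n : ℤ) ^ 2 - 2 * (m : ℤ) ^ 2 then 1 else 1 / (P - 1)) with ht₂
  have ht₁0 : 0 ≤ t₁ := by
    rw [ht₁]
    split_ifs <;> positivity
  have ht₂0 : 0 ≤ t₂ := by
    rw [ht₂]
    split_ifs
    · exact zero_le_one
    · positivity
  have hgen : ls m n E p a ≤ 1 + 16 / P + t₁ * s + 16 / P * t₂ * s + 32 / (P * (P - 1)) * s := by
    have e1 : ls m n E p a = 8 * (2 / (P * (P - 1))) * a true true +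
        8 * (2 / P * t₂) * a true false + (8 * (2 / (P * (P - 1))) * a false true +
        8 * (2 / P) * a false false) + (t₁ * a true true + 0 * a true false +
        (0 * a false true + 1 * a false false)) := by
      unfold ls
      simp only [Fintype.sum_bool, if_neg hE, if_true, Bool.false_eq_true, if_false]
      show 8 * (2 / (P * (P - 1))) * a true true + 8 * (2 / P * t₂) * a true false +
        (8 * (2 / (P * (P - 1))) * a false true + 8 * (2 / P) * a false false) +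
        (1 * t₁ * a true true + 1 * 0 * a true false +
        (1 * 0 * a false true + 1 * 1 * a false false)) = _
      ring
    rw [e1, haF]
    have h1 := has true true
    have h2 := has true false
    have h3 := has false true
    have hx : 0 ≤ 2 / (P * (P - 1)) := by positivity
    have hy : 0 ≤ 2 / P * t₂ := by positivity
    have k1 := mul_le_mul_of_nonneg_left h1 hx
    have k2 := mul_le_mul_of_nonneg_left h2 hy
    have k3 := mul_le_mul_of_nonneg_left h3 hx
    have k4 := mul_le_mul_of_nonneg_left h1 ht₁0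
    have e2 : 32 / (P * (P - 1)) * s = 16 * (2 / (P * (P - 1)) * s) := by ring
    have e3 : 16 / P * t₂ * s = 8 * (2 / P * t₂ * s) := by ring
    have e4 : 16 / P = 8 * (2 / P) := by ring
    rw [e2, e3, e4]
    linarith
  have hx0 : 0 ≤ 16 * (1 / P) + 100 * (1 / (P * s)) := by positivity
  by_cases hb : p ∣ n ∨ (p : ℤ) ∣ (n : ℤ) ^ 2 - 2 * (m : ℤ) ^ 2
  · rw [if_pos hb]
    have h1 : 1 ≤ Real.exp (16 * (1 / P) + 100 * (1 / (P * s))) := Real.one_le_exp hx0
    have h2 : ls m n E p a ≤ 64 := by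
      refine hgen.trans ?_
      have k1 : s / (P - 1) ≤ 3 / 2 := by
        rw [div_le_iff₀ hP1]
        nlinarith
      have k2 : t₁ * s ≤ 3 / 2 := by
        have k3 : t₁ ≤ 1 / (P - 1) := by
          rw [ht₁]
          split_ifs
          · exact le_rfl
          · rw [div_le_div_iff₀ (by positivity) hP1]
            nlinarith
        calc t₁ * s ≤ 1 / (P - 1) * s := mul_le_mul_of_nonneg_right k3 hs0
          _ = s / (P - 1) := by ring
          _ ≤ 3 / 2 := k1
      have k4 : 16 / P ≤ 8 := by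
        rw [div_le_iff₀ hP0]
        linarith
      have k5 : 16 / P * t₂ * s ≤ 12 := by
        have k6 : t₂ ≤ 1 := by
          rw [ht₂]
          split_ifs
          · exact le_rfl
          · rw [div_le_one hP1]
            linarith
        calc 16 / P * t₂ * s ≤ 16 / P * 1 * s := by gcongr
          _ = 16 / s := by
            rw [← hss]
            field_simp
          _ ≤ 12 := by
            rw [div_le_iff₀ hs1]
            linarith
      have k7 : 32 / (P * (P - 1)) * s ≤ 24 := by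
        calc 32 / (P * (P - 1)) * s = 2 * (16 / P) * (s / (P - 1)) := by
              field_simp
              ring
          _ ≤ 2 * 8 * (3 / 2) := by gcongr
          _ = 24 := by norm_num
      linarith
    linarith
  · rw [if_neg hb, mul_one]
    refine le_trans ?_ (Real.add_one_le_exp _)
    refine hgen.trans ?_
    push Not at hb
    have e1 : t₁ = 1 / (P - 1) ^ 2 := if_neg hb.1
    have e2 : t₂ = 1 / (P - 1) := if_neg hb.2
    rw [e1, e2]
    have k1 : 1 / (P - 1) ^ 2 * s ≤ 4 * (1 / (P * s)) := by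
      rw [one_div_mul_eq_div, mul_one_div, div_le_div_iff₀ (by positivity) (by positivity)]
      have : s * (P * s) = P ^ 2 := by
        rw [← hss]
        ring
      rw [this]
      nlinarith
    have k2 : 1 / (P * (P - 1)) * s ≤ 2 * (1 / (P * s)) := by
      rw [one_div_mul_eq_div, mul_one_div, div_le_div_iff₀ (by positivity) (by positivity)]
      have : s * (P * s) = P * P := by
        rw [← hss]
        ring
      rw [this]
      nlinarith
    have k3 : 16 / P * (1 / (P - 1)) * s = 16 * (1 / (P * (P - 1)) * s) := by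
      field_simp
    have k4 : 32 / (P * (P - 1)) * s = 32 * (1 / (P * (P - 1)) * s) := by
      ring
    rw [k3, k4]
    have k5 : 16 / P = 16 * (1 / P) := by ring
    rw [k5]
    linarith

theorem pr_nonneg (m n E p : ℕ) (hp : p.Prime) (a : Bool → Bool → ℝ) (ha : ∀ v w, 0 ≤ a v w) :
    0 ≤ ls m n E p a := by
  have hp1 : (0 : ℝ) < (p : ℝ) - 1 := by
    have : (1 : ℝ) < p := by exact_mod_cast hp.one_lt
    linarith
  unfold ls
  refine sum_nonneg fun u _ => sum_nonneg fun v _ => sum_nonneg fun w _ => ?_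
  refine mul_nonneg (mul_nonneg ?_ ?_) (ha v w)
  · split_ifs <;> norm_num
  · split_ifs
    · exact zero_le_one
    · cases u <;> cases v <;> cases w <;> simp only [la] <;> (try split_ifs) <;> positivity

/-- the product of the square roots of the primes dividing `E` -/
theorem pr_sqrt (E : ℕ) (hE : 1 ≤ E) :
    ∏ p ∈ E.primeFactors, (36 * Real.sqrt p) ≤
      ((4 : ℝ) ^ E.primeFactors.card) ^ 3 * Real.sqrt E := by
  rw [prod_mul_distrib, prod_const]
  have h1 : (36 : ℝ) ^ E.primeFactors.card ≤ ((4 : ℝ) ^ E.primeFactors.card) ^ 3 := by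
    rw [← pow_mul, mul_comm, pow_mul]
    exact pow_le_pow_left₀ (by norm_num) (by norm_num) _
  have h2 : ∏ p ∈ E.primeFactors, Real.sqrt p ≤ Real.sqrt E := by
    refine Real.le_sqrt_of_sq_le ?_
    rw [← prod_pow]
    have h3 : ∏ p ∈ E.primeFactors, Real.sqrt p ^ 2 = ((∏ p ∈ E.primeFactors, p : ℕ) : ℝ) := by
      rw [Nat.cast_prod]
      exact prod_congr rfl fun p _ => Real.sq_sqrt (by positivity)
    rw [h3]
    exact_mod_cast Nat.le_of_dvd hE (Nat.prod_primeFactors_dvd E)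
  exact mul_le_mul h1 h2 (prod_nonneg fun p _ => Real.sqrt_nonneg _) (by positivity)

/-- the sum of `1/p` -/
theorem pr_mert : ∃ c : ℝ, 0 < c ∧ ∀ X Z : ℕ, 1 ≤ X → Z ≤ X →
    Real.exp (∑ p ∈ pz Z, 1 / (p : ℝ)) ≤ c * (1 + Real.log (2 * X)) := by
  obtain ⟨c, hc, h⟩ := Pool.Agent.GBQ.thm_RhoLow
  refine ⟨1 + 1 / c, by positivity, fun X Z hX hZ => ?_⟩
  have hX0 : (1 : ℝ) ≤ X := by exact_mod_cast hX
  have hl : 0 ≤ Real.log (2 * X) := Real.log_nonneg (by linarith)
  rcases lt_or_ge Z 2 with h2 | h2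
  · have h3 : pz Z = ∅ := by
      unfold pz
      rw [filter_eq_empty_iff]
      intro p hp hpp
      rw [mem_range] at hp
      have := hpp.two_le
      omega
    rw [h3, sum_empty, Real.exp_zero]
    have h4 : 0 ≤ 1 / c := by positivity
    nlinarith
  · have h3 := h Z h2
    have hZ0 : (1 : ℝ) < Z := by exact_mod_cast h2
    have hlZ : 0 < Real.log Z := Real.log_pos hZ0
    have h4 : Pool.Agent.GBQ.rho Z ≤ Real.exp (-∑ p ∈ pz Z, 1 / (p : ℝ)) := by
      unfold Pool.Agent.GBQ.rho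
      rw [← sum_neg_distrib, Real.exp_sum]
      refine prod_le_prod (fun p hp => ?_) fun p _ => ?_
      · have hp1 : (1 : ℝ) ≤ p := by
          exact_mod_cast (mem_filter.1 hp).2.one_lt.le
        have : 1 / (p : ℝ) ≤ 1 := by
          rw [div_le_one (by linarith)]
          exact hp1
        linarith
      · have := Real.add_one_le_exp (-(1 / (p : ℝ)))
        linarith
    have h5 : c / Real.log Z ≤ (Real.exp (∑ p ∈ pz Z, 1 / (p : ℝ)))⁻¹ := by
      rw [← Real.exp_neg]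
      exact h3.trans h4
    have h6 : Real.exp (∑ p ∈ pz Z, 1 / (p : ℝ)) ≤ Real.log Z / c := by
      have h7 : 0 < Real.exp (∑ p ∈ pz Z, 1 / (p : ℝ)) := Real.exp_pos _
      rw [le_inv_comm₀ (by positivity) h7, inv_div] at h5
      exact h5
    refine h6.trans ?_
    have h8 : Real.log Z ≤ Real.log (2 * X) := by
      refine Real.log_le_log (by linarith) ?_
      have : (Z : ℝ) ≤ X := by exact_mod_cast hZ
      linarith
    calc Real.log Z / c = 1 / c * Real.log Z := by ring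
      _ ≤ 1 / c * Real.log (2 * X) := by gcongr
      _ ≤ (1 + 1 / c) * (1 + Real.log (2 * X)) := by
        have h9 : 0 ≤ 1 / c := by positivity
        nlinarith

/-- the sum of `p ^ (-3/2)` -/
theorem pr_sum : ∃ C : ℝ, 0 ≤ C ∧ ∀ Z : ℕ,
    ∑ p ∈ pz Z, 1 / ((p : ℝ) * Real.sqrt p) ≤ C := by
  have h1 : Summable fun p : ℕ => 1 / ((p : ℝ) * Real.sqrt p) := by
    have h2 : Summable fun n : ℕ => 1 / (n : ℝ) ^ (3 / 2 : ℝ) :=
      Real.summable_one_div_nat_rpow.2 (by norm_num)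
    refine h2.congr fun p => ?_
    rcases Nat.eq_zero_or_pos p with rfl | hp
    · simp
    · have hp0 : (0 : ℝ) < p := by exact_mod_cast hp
      rw [Real.sqrt_eq_rpow]
      congr 1
      rw [← Real.rpow_one_add' hp0.le (by norm_num)]
      norm_num
  refine ⟨∑' p : ℕ, 1 / ((p : ℝ) * Real.sqrt p), tsum_nonneg fun p => by positivity,
    fun Z => h1.sum_le_tsum _ fun p _ => by positivity⟩

theorem pr_main (ε : ℝ) (hε : 0 < ε) : ∀ᶠ X : ℕ in atTop, ∀ (m n E Z : ℕ), 1 ≤ m → m ≤ X →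
    1 ≤ n → n ≤ X → 1 ≤ E → E ≤ X → Z ≤ X → ∀ a : ℕ → Bool → Bool → ℝ,
    (∀ p, p.Prime → (∀ v w, 0 ≤ a p v w) ∧ a p false false = 1 ∧
      ∀ v w, a p v w ≤ Real.sqrt p) →
    ∏ p ∈ pz Z, ls m n E p (a p) ≤ (X : ℝ) ^ ε * Real.sqrt E := by
  obtain ⟨c, hc, hmert⟩ := pr_mert
  obtain ⟨C, hC, hsum⟩ := pr_sum
  have hcon : ∀ᶠ X : ℕ in atTop, c ^ 16 * Real.exp (100 * C) ≤ (X : ℝ) ^ (ε / 16) :=
    (tendsto_rpow_atTop (show 0 < ε / 16 by positivity)).comp tendsto_natCast_atTop_atTop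
      |>.eventually_ge_atTop _
  filter_upwards [Pool.Agent.MVII.thm_Ep (ε / 16) (by positivity) 16, hcon,
    eventually_ge_atTop 2] with X hEp hcon hX2
  intro m n E Z hm hmX hn hnX hE hEX hZ a ha
  obtain ⟨e1, e2, e3, -, -⟩ := hEp
  have hX1 : (1 : ℝ) ≤ X := by exact_mod_cast (by omega : 1 ≤ X)
  have hX0 : (0 : ℝ) < X := by linarith
  set Y : ℝ := (X : ℝ) ^ (ε / 16) with hY
  have hY1 : 1 ≤ Y := Real.one_le_rpow hX1 (by positivity)
  have hY0 : 0 ≤ Y := by linarith
  -- the number `n² - 2 m²`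
  set N : ℕ := ((n : ℤ) ^ 2 - 2 * (m : ℤ) ^ 2).natAbs with hN
  have hne : (n : ℤ) ^ 2 - 2 * (m : ℤ) ^ 2 ≠ 0 := by
    intro h
    have h1 : ((n : ℤ)) ^ 2 = 2 * (m : ℤ) ^ 2 := by linarith
    have h2 : n ^ 2 = 2 * m ^ 2 := by exact_mod_cast h1
    have h3 : Irrational (Real.sqrt 2) := irrational_sqrt_two
    apply h3
    refine ⟨(n : ℚ) / m, ?_⟩
    have hm0 : (0 : ℝ) < m := by exact_mod_cast hm
    have h4 : ((n : ℝ) / m) ^ 2 = 2 := by
      rw [div_pow, div_eq_iff (by positivity)]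
      exact_mod_cast h2
    push_cast
    rw [← h4, Real.sqrt_sq (by positivity)]
  have hN1 : 1 ≤ N := Int.natAbs_pos.2 hne
  have hNX : N ≤ X ^ 4 := by
    have h1 : |(n : ℤ) ^ 2 - 2 * (m : ℤ) ^ 2| ≤ 2 * (X : ℤ) ^ 2 := by
      have hn' : (n : ℤ) ≤ X := by exact_mod_cast hnX
      have hm' : (m : ℤ) ≤ X := by exact_mod_cast hmX
      have hn2 : (n : ℤ) ^ 2 ≤ (X : ℤ) ^ 2 := pow_le_pow_left₀ (by positivity) hn' 2
      have hm2 : (m : ℤ) ^ 2 ≤ (X : ℤ) ^ 2 := pow_le_pow_left₀ (by positivity) hm' 2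
      rw [abs_le]
      constructor <;> nlinarith [sq_nonneg (n : ℤ), sq_nonneg (m : ℤ)]
    have h2 : (N : ℤ) ≤ 2 * (X : ℤ) ^ 2 := by
      rw [hN, Int.natCast_natAbs]
      exact h1
    have h3 : N ≤ 2 * X ^ 2 := by exact_mod_cast h2
    have h4 : 2 * X ^ 2 ≤ X ^ 4 := by
      have : 2 ≤ X ^ 2 := by nlinarith
      calc 2 * X ^ 2 ≤ X ^ 2 * X ^ 2 := Nat.mul_le_mul_right _ this
        _ = X ^ 4 := by ring
    exact h3.trans h4
  -- the factors
  set f₁ : ℕ → ℝ := fun p => Real.exp (16 * (1 / (p : ℝ)) + 100 * (1 / ((p : ℝ) * Real.sqrt p)))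
    with hf₁
  set f₂ : ℕ → ℝ := fun p => if p ∣ E then 36 * Real.sqrt p else 1 with hf₂
  set f₃ : ℕ → ℝ := fun p => if p ∣ n then 64 else 1 with hf₃
  set f₄ : ℕ → ℝ := fun p => if (p : ℤ) ∣ (n : ℤ) ^ 2 - 2 * (m : ℤ) ^ 2 then 64 else 1 with hf₄
  have hpr : ∀ p ∈ pz Z, p.Prime := fun p hp => (mem_filter.1 hp).2
  have hg₁ : ∀ p, 1 ≤ f₁ p := fun p => Real.one_le_exp (by positivity)
  have hg₂ : ∀ p ∈ pz Z, 1 ≤ f₂ p := fun p hp => by
    have hs : 1 ≤ Real.sqrt p := by
      rw [Real.one_le_sqrt]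
      exact_mod_cast (hpr p hp).one_lt.le
    simp only [hf₂]
    split_ifs <;> linarith
  have hg₃ : ∀ p, 1 ≤ f₃ p := fun p => by
    simp only [hf₃]
    split_ifs <;> norm_num
  have hg₄ : ∀ p, 1 ≤ f₄ p := fun p => by
    simp only [hf₄]
    split_ifs <;> norm_num
  have hloc : ∀ p ∈ pz Z, ls m n E p (a p) ≤ f₁ p * f₂ p * (f₃ p * f₄ p) := by
    intro p hp
    obtain ⟨h1, h2, h3⟩ := ha p (hpr p hp)
    have h34 : 1 ≤ f₃ p * f₄ p := one_le_mul_of_one_le_of_one_le (hg₃ p) (hg₄ p)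
    by_cases hpE : p ∣ E
    · have h4 := pr_E m n E p (hpr p hp) (a p) h2 h3 hpE
      have h5 : f₂ p = 36 * Real.sqrt p := if_pos hpE
      rw [← h5] at h4
      have h6 : f₂ p ≤ f₁ p * f₂ p :=
        le_mul_of_one_le_left (by linarith [hg₂ p hp]) (hg₁ p)
      have h7 : f₁ p * f₂ p ≤ f₁ p * f₂ p * (f₃ p * f₄ p) :=
        le_mul_of_one_le_right (by nlinarith [hg₁ p, hg₂ p hp]) h34
      linarith
    · have h4 := pr_g m n E p (hpr p hp) (a p) h2 h3 hpE
      have h5 : f₂ p = 1 := if_neg hpE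
      rw [h5, mul_one]
      refine h4.trans (mul_le_mul_of_nonneg_left ?_ (by linarith [hg₁ p]))
      by_cases hb : p ∣ n ∨ (p : ℤ) ∣ (n : ℤ) ^ 2 - 2 * (m : ℤ) ^ 2
      · rw [if_pos hb]
        rcases hb with hb | hb
        · have : f₃ p = 64 := if_pos hb
          rw [this]
          nlinarith [hg₄ p]
        · have : f₄ p = 64 := if_pos hb
          rw [this]
          nlinarith [hg₃ p]
      · rw [if_neg hb]
        exact h34
  have h1 : ∏ p ∈ pz Z, ls m n E p (a p) ≤ ∏ p ∈ pz Z, (f₁ p * f₂ p * (f₃ p * f₄ p)) :=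
    prod_le_prod (fun p hp => pr_nonneg m n E p (hpr p hp) (a p) (ha p (hpr p hp)).1) hloc
  rw [prod_mul_distrib, prod_mul_distrib, prod_mul_distrib] at h1
  -- the four products
  have hb₁ : ∏ p ∈ pz Z, f₁ p ≤ Y * Y := by
    simp only [hf₁]
    rw [← Real.exp_sum, sum_add_distrib, ← mul_sum, ← mul_sum, Real.exp_add]
    have k1 : Real.exp (16 * ∑ p ∈ pz Z, 1 / (p : ℝ)) ≤ (c * (1 + Real.log (2 * X))) ^ 16 := by
      have k2 := hmert X Z (by omega) hZ
      have k3 := pow_le_pow_left₀ (Real.exp_pos _).le k2 16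
      rw [← Real.exp_nat_mul] at k3
      exact_mod_cast k3
    have k2 : Real.exp (100 * ∑ p ∈ pz Z, 1 / ((p : ℝ) * Real.sqrt p)) ≤ Real.exp (100 * C) := by
      refine Real.exp_le_exp.2 ?_
      linarith [hsum Z]
    calc Real.exp (16 * ∑ p ∈ pz Z, 1 / (p : ℝ)) *
          Real.exp (100 * ∑ p ∈ pz Z, 1 / ((p : ℝ) * Real.sqrt p))
        ≤ (c * (1 + Real.log (2 * X))) ^ 16 * Real.exp (100 * C) :=
          mul_le_mul k1 k2 (Real.exp_pos _).le (by positivity)
      _ = (c ^ 16 * Real.exp (100 * C)) * (1 + Real.log (2 * X)) ^ 16 := by ring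
      _ ≤ Y * Y := mul_le_mul hcon e2 (by positivity) hY0
  have hb₂ : ∏ p ∈ pz Z, f₂ p ≤ Y ^ 3 * Real.sqrt E := by
    have k1 : ∏ p ∈ pz Z, f₂ p = ∏ p ∈ (pz Z).filter (fun p => p ∣ E), (36 * Real.sqrt p) := by
      simp only [hf₂]
      rw [prod_filter]
    rw [k1]
    refine (pr_sub (t := E.primeFactors) ?_ _ ?_).trans ((pr_sqrt E hE).trans ?_)
    · intro p hp
      obtain ⟨h5, h6⟩ := mem_filter.1 hp
      exact Nat.mem_primeFactors.2 ⟨hpr p h5, h6, by omega⟩
    · intro p hp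
      have hs : 1 ≤ Real.sqrt p := by
        rw [Real.one_le_sqrt]
        exact_mod_cast (Nat.prime_of_mem_primeFactors hp).one_lt.le
      linarith
    · refine mul_le_mul_of_nonneg_right ?_ (Real.sqrt_nonneg _)
      exact pow_le_pow_left₀ (by positivity) (e3 E hE hEX).2 3
  have hb₃ : ∏ p ∈ pz Z, f₃ p ≤ Y ^ 3 := by
    have k1 : ∏ p ∈ pz Z, f₃ p = ∏ p ∈ (pz Z).filter (fun p => p ∣ n), (64 : ℝ) := by
      simp only [hf₃]
      rw [prod_filter]
    rw [k1]
    refine (pr_sub (t := n.primeFactors) ?_ (fun _ => 64) (fun _ _ => by norm_num)).trans ?_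
    · intro p hp
      obtain ⟨h5, h6⟩ := mem_filter.1 hp
      exact Nat.mem_primeFactors.2 ⟨hpr p h5, h6, by omega⟩
    · rw [prod_const]
      have k2 : (64 : ℝ) ^ n.primeFactors.card = ((4 : ℝ) ^ n.primeFactors.card) ^ 3 := by
        rw [← pow_mul, mul_comm, pow_mul]
        norm_num
      rw [k2]
      exact pow_le_pow_left₀ (by positivity) (e3 n hn hnX).2 3
  have hb₄ : ∏ p ∈ pz Z, f₄ p ≤ Y ^ 6 := by
    have k1 : ∏ p ∈ pz Z, f₄ p =
        ∏ p ∈ (pz Z).filter (fun p : ℕ => (p : ℤ) ∣ (n : ℤ) ^ 2 - 2 * (m : ℤ) ^ 2), (64 : ℝ) := by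
      simp only [hf₄]
      rw [prod_filter]
    rw [k1]
    refine (pr_sub (t := N.primeFactors) ?_ (fun _ => 64) (fun _ _ => by norm_num)).trans ?_
    · intro p hp
      obtain ⟨h5, h6⟩ := mem_filter.1 hp
      exact Nat.mem_primeFactors.2 ⟨hpr p h5, Int.natCast_dvd.1 h6, by omega⟩
    · rw [prod_const]
      have k2 : (64 : ℝ) ^ N.primeFactors.card = ((2 : ℝ) ^ N.primeFactors.card) ^ 6 := by
        rw [← pow_mul, mul_comm, pow_mul]
        norm_num
      rw [k2]
      refine pow_le_pow_left₀ (by positivity) ?_ 6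
      refine le_trans ?_ (e1 N hN1 hNX)
      have k3 : 2 ^ N.primeFactors.card ≤ N.divisors.card := by
        have k4 : (N.primeFactors.powerset).card ≤ N.divisors.card := by
          refine card_le_card_of_injOn (fun T => ∏ p ∈ T, p) ?_ ?_
          · intro T hT
            have hT' := mem_powerset.1 hT
            exact Nat.mem_divisors.2 ⟨(prod_dvd_prod_of_subset T N.primeFactors
              (fun p => p) hT').trans (Nat.prod_primeFactors_dvd N), by omega⟩
          · intro T hT T' hT' hTT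
            have hT1 := mem_powerset.1 hT
            have hT2 := mem_powerset.1 hT'
            have k5 := Nat.primeFactors_prod (s := T)
              fun p hp => Nat.prime_of_mem_primeFactors (hT1 hp)
            have k6 := Nat.primeFactors_prod (s := T')
              fun p hp => Nat.prime_of_mem_primeFactors (hT2 hp)
            have k7 : ∏ p ∈ T, p = ∏ p ∈ T', p := hTT
            rw [← k5, ← k6, k7]
        rwa [card_powerset] at k4
      exact_mod_cast k3
  have hn₁ : 0 ≤ ∏ p ∈ pz Z, f₁ p := prod_nonneg fun p _ => by linarith [hg₁ p]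
  have hn₂ : 0 ≤ ∏ p ∈ pz Z, f₂ p := prod_nonneg fun p hp => by linarith [hg₂ p hp]
  have hn₃ : 0 ≤ ∏ p ∈ pz Z, f₃ p := prod_nonneg fun p _ => by linarith [hg₃ p]
  have hn₄ : 0 ≤ ∏ p ∈ pz Z, f₄ p := prod_nonneg fun p _ => by linarith [hg₄ p]
  have hfin : (∏ p ∈ pz Z, f₁ p) * (∏ p ∈ pz Z, f₂ p) *
      ((∏ p ∈ pz Z, f₃ p) * ∏ p ∈ pz Z, f₄ p) ≤
      (Y * Y) * (Y ^ 3 * Real.sqrt E) * (Y ^ 3 * Y ^ 6) := by
    refine mul_le_mul (mul_le_mul hb₁ hb₂ hn₂ (by positivity)) (mul_le_mul hb₃ hb₄ hn₄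
      (by positivity)) (mul_nonneg hn₃ hn₄) (by positivity)
  refine h1.trans (hfin.trans ?_)
  have h9 : (Y * Y) * (Y ^ 3 * Real.sqrt E) * (Y ^ 3 * Y ^ 6) = Y ^ 14 * Real.sqrt E := by ring
  rw [h9]
  refine mul_le_mul_of_nonneg_right ?_ (Real.sqrt_nonneg _)
  calc Y ^ 14 ≤ Y ^ 16 := pow_le_pow_right₀ hY1 (by norm_num)
    _ = (X : ℝ) ^ ε := by
      rw [hY, ← Real.rpow_natCast, ← Real.rpow_mul hX0.le]
      congr 1
      push_cast
      ring

theorem thm_Pr : St_Pr := by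
  intro ε hε
  filter_upwards [pr_main ε hε] with X hX
  intro m n E Z hm hmX hn hnX hE hEX hZ
  have hs : ∀ p : ℕ, p.Prime → 1 ≤ Real.sqrt p := fun p hp => by
    rw [Real.one_le_sqrt]
    exact_mod_cast hp.one_lt.le
  constructor
  · refine hX m n E Z hm hmX hn hnX hE hEX hZ
      (fun p v _ => if v = true then Real.sqrt p else 1) fun p hp => ⟨fun v w => ?_, rfl, fun v w => ?_⟩
    · show (0 : ℝ) ≤ if v = true then Real.sqrt p else 1
      have := hs p hp
      split_ifs <;> linarith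
    · show (if v = true then Real.sqrt p else 1) ≤ Real.sqrt p
      have := hs p hp
      split_ifs <;> linarith
  · refine hX m n E Z hm hmX hn hnX hE hEX hZ
      (fun p _ w => if w = true then Real.sqrt p else 1) fun p hp => ⟨fun v w => ?_, rfl, fun v w => ?_⟩
    · show (0 : ℝ) ≤ if w = true then Real.sqrt p else 1
      have := hs p hp
      split_ifs <;> linarith
    · show (if w = true then Real.sqrt p else 1) ≤ Real.sqrt p
      have := hs p hp
      split_ifs <;> linarith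

end Pool.Agent.MV5
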