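import Pool.Agent.MV5.StB
import Pool.Agent.MVII.Re

set_option autoImplicit false

/-!
# MV5, module Rm: the model is real (helper75)
-/

namespace Pool.Agent.MV5

open Finset Filter
open Pool.Agent.GBQ (ee lam nd Admissible)
open Pool.Agent.MVX (Chr tent Bm Um prm Win GP)
open Pool.Agent.MVII (PM ar)

theorem rm_BY {r : ℕ} [NeZero r] (η : ℝ → ℝ) (h K x : ℕ) (χ : DirichletCharacter ℂ r) :
    (starRingEnd ℂ) (BY η h K x ⟨r, χ⟩) = BY η h K x ⟨r, χ⁻¹⟩ := by
  rw [BY, BY, map_mul, map_inv₀, map_pow, Complex.conj_natCast, map_sum]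
  congr 1
  refine Finset.sum_congr rfl fun n _ => ?_
  rw [map_mul, map_mul, map_mul, Complex.conj_ofReal, Complex.conj_ofReal, Complex.conj_ofReal]
  simp only
  rw [MVII.re_conj]

theorem thm_Rm : St_Rm := by
  intro η T Q h K x
  rw [← Complex.conj_eq_iff_im, MY, PM, map_sum]
  refine Finset.sum_congr rfl fun r hr => ?_
  have hr1 : 1 ≤ r := (Finset.mem_Icc.mp hr).1
  haveI : NeZero r := ⟨by omega⟩
  rw [map_sum]
  refine Finset.sum_bij' (fun χ _ => χ⁻¹) (fun χ _ => χ⁻¹) ?_ ?_ ?_ ?_ ?_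
  · intro χ hχ
    rw [MVX.mem_prm] at hχ ⊢
    exact BVX.isPrimitive_inv χ hχ
  · intro χ hχ
    rw [MVX.mem_prm] at hχ ⊢
    exact BVX.isPrimitive_inv χ hχ
  · intro χ _
    exact inv_inv χ
  · intro χ _
    exact inv_inv χ
  · intro χ _
    rw [map_mul, map_mul, Complex.conj_ofReal, rm_BY, MVII.re_conj]

end Pool.Agent.MV5
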