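import Pool.Agent.MV5.StB

set_option autoImplicit false

/-!
# MV5, module Rt: the roots of `y^2 = 2` (helper75)
-/

namespace Pool.Agent.MV5

open Finset

private theorem rt_mem {d ν : ℕ} : ν ∈ RT d ↔ ν < d ∧ (d : ℤ) ∣ (ν : ℤ) ^ 2 - 2 := by
  unfold RT
  rw [mem_filter, mem_range]

/-- congruent numbers below `d` are equal -/
private theorem rt_eq {d a b : ℕ} (ha : a < d) (hb : b < d) (h : (d : ℤ) ∣ (a : ℤ) - b) :
    a = b := by
  obtain ⟨k, hk⟩ := h
  have hd : (0 : ℤ) < d := by
    have : 0 < d := by omega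
    exact_mod_cast this
  have ha' : (a : ℤ) < d := by exact_mod_cast ha
  have hb' : (b : ℤ) < d := by exact_mod_cast hb
  have ha0 : (0 : ℤ) ≤ a := Int.natCast_nonneg a
  have hb0 : (0 : ℤ) ≤ b := Int.natCast_nonneg b
  have h1 : k < 1 := by
    by_contra hk1
    push Not at hk1
    nlinarith
  have h2 : -1 < k := by
    by_contra hk1
    push Not at hk1
    nlinarith
  have h3 : k = 0 := by omega
  rw [h3, mul_zero] at hk
  omega

private theorem rt_sq {d : ℕ} {a b : ℤ} (h : (d : ℤ) ∣ a - b) (hb : (d : ℤ) ∣ b ^ 2 - 2) :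
    (d : ℤ) ∣ a ^ 2 - 2 := by
  have h1 : a ^ 2 - 2 = (a - b) * (a + b) + (b ^ 2 - 2) := by ring
  rw [h1]
  exact dvd_add (h.mul_right _) hb

/-- at most two roots modulo a prime -/
private theorem rt_prime {p : ℕ} (hp : p.Prime) : (RT p).card ≤ 2 := by
  rcases (RT p).eq_empty_or_nonempty with h | ⟨a, ha⟩
  · rw [h, card_empty]
    exact Nat.zero_le 2
  · have h1 : RT p ⊆ {a, p - a} := by
      intro b hb
      rw [rt_mem] at ha hb
      rw [mem_insert, mem_singleton]
      have h2 : (p : ℤ) ∣ ((b : ℤ) - a) * (b + a) := by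
        have e : ((b : ℤ) - a) * (b + a) = ((b : ℤ) ^ 2 - 2) - ((a : ℤ) ^ 2 - 2) := by ring
        rw [e]
        exact dvd_sub hb.2 ha.2
      rcases (Nat.prime_iff_prime_int.mp hp).dvd_or_dvd h2 with h3 | h3
      · exact Or.inl (rt_eq hb.1 ha.1 h3)
      · by_cases ha0 : a = 0
        · left
          refine rt_eq hb.1 ha.1 ?_
          rw [ha0] at h3 ⊢
          simpa using h3
        · right
          refine rt_eq hb.1 (by omega) ?_
          have e : (b : ℤ) - ((p - a : ℕ) : ℤ) = (b + a) - p := by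
            rw [Nat.cast_sub ha.1.le]
            ring
          rw [e]
          exact dvd_sub h3 dvd_rfl
    exact (card_le_card h1).trans card_le_two

private theorem rt_card (d : ℕ) : Squarefree d → (RT d).card ≤ 2 ^ d.primeFactors.card := by
  induction d using Nat.strong_induction_on with
  | _ d ih =>
    intro hd
    have hd0 : d ≠ 0 := hd.ne_zero
    by_cases hd1 : d = 1
    · subst hd1
      have h1 : RT 1 ⊆ {0} := by
        intro a ha
        rw [rt_mem] at ha
        rw [mem_singleton]
        omega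
      refine (card_le_card h1).trans ?_
      rw [card_singleton]
      exact Nat.one_le_two_pow
    · obtain ⟨p, hp, m, hm⟩ := Nat.exists_prime_and_dvd hd1
      have hm0 : m ≠ 0 := by
        rintro rfl
        exact hd0 (by rw [hm, mul_zero])
      have hmd : m < d := by
        rw [hm]
        exact (Nat.lt_mul_iff_one_lt_left (Nat.pos_of_ne_zero hm0)).2 hp.one_lt
      have hms : Squarefree m := hd.squarefree_of_dvd ⟨p, by rw [hm, mul_comm]⟩
      have hcop : p.Coprime m := by
        rw [hm] at hd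
        exact Nat.coprime_of_squarefree_mul hd
      have hdvd1 : (p : ℤ) ∣ d := by
        rw [hm]
        push_cast
        exact dvd_mul_right _ _
      have hdvd2 : (m : ℤ) ∣ d := by
        rw [hm]
        push_cast
        exact dvd_mul_left _ _
      have hmod : ∀ (a q : ℕ), 0 < q → (q : ℤ) ∣ (d : ℤ) → a ∈ RT d → a % q ∈ RT q := by
        intro a q hq hqd ha
        rw [rt_mem] at ha ⊢
        refine ⟨Nat.mod_lt _ hq, ?_⟩
        refine rt_sq (b := (a : ℤ)) ?_ (hqd.trans ha.2)
        have h1 : (a : ℤ) = q * ((a / q : ℕ) : ℤ) + ((a % q : ℕ) : ℤ) := by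
          exact_mod_cast (Nat.div_add_mod a q).symm
        refine ⟨-((a / q : ℕ) : ℤ), ?_⟩
        linarith
      have h1 : (RT d).card ≤ (RT p ×ˢ RT m).card := by
        refine card_le_card_of_injOn (fun a => (a % p, a % m)) ?_ ?_
        · intro a ha
          exact mem_product.2 ⟨hmod a p hp.pos hdvd1 ha,
            hmod a m (Nat.pos_of_ne_zero hm0) hdvd2 ha⟩
        · intro a ha b hb hab
          have e1 : a % p = b % p := congrArg Prod.fst hab
          have e2 : a % m = b % m := congrArg Prod.snd hab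
          have e3 : a ≡ b [MOD p * m] := (Nat.modEq_and_modEq_iff_modEq_mul hcop).1 ⟨e1, e2⟩
          rw [← hm] at e3
          have ha' := (rt_mem.1 ha).1
          have hb' := (rt_mem.1 hb).1
          exact Nat.ModEq.eq_of_lt_of_lt e3 ha' hb'
      have h2 : d.primeFactors.card = m.primeFactors.card + 1 := by
        rw [hm, hcop.primeFactors_mul, card_union_of_disjoint hcop.disjoint_primeFactors,
          hp.primeFactors, card_singleton, add_comm]
      rw [h2, pow_succ, mul_comm]
      rw [card_product] at h1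
      exact h1.trans (Nat.mul_le_mul (rt_prime hp) (ih m hmd hms))

theorem thm_Rt : St_Rt := by
  refine ⟨rt_card, fun D c y => ?_⟩
  unfold SD
  refine sum_congr rfl fun d hd => ?_
  rw [mem_Icc] at hd
  have hd0 : (0 : ℤ) < d := by
    have : 0 < d := hd.1
    exact_mod_cast this
  by_cases h : (d : ℤ) ∣ y ^ 2 - 2
  · rw [if_pos h]
    have h0 : 0 ≤ y % d := Int.emod_nonneg _ hd0.ne'
    have h1 : ((y % (d : ℤ)).toNat : ℤ) = y % d := Int.toNat_of_nonneg h0
    have h2 : (d : ℤ) ∣ y - ((y % (d : ℤ)).toNat : ℤ) := by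
      rw [h1]
      exact Int.dvd_self_sub_emod
    have h3 : (y % (d : ℤ)).toNat ∈ RT d := by
      rw [rt_mem]
      refine ⟨?_, rt_sq ?_ h⟩
      · have h4 := Int.emod_lt_of_pos y hd0
        rw [← h1] at h4
        exact_mod_cast h4
      · rw [← dvd_neg, neg_sub]
        exact h2
    rw [sum_eq_single_of_mem _ h3, if_pos h2]
    intro ν hν hne
    rw [if_neg]
    intro h4
    apply hne
    refine rt_eq (rt_mem.1 hν).1 (rt_mem.1 h3).1 ?_
    have e : (ν : ℤ) - ((y % (d : ℤ)).toNat : ℤ) =
        (y - ((y % (d : ℤ)).toNat : ℤ)) - (y - ν) := by ring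
    rw [e]
    exact dvd_sub h2 h4
  · rw [if_neg h, sum_eq_zero]
    intro ν hν
    rw [if_neg]
    intro h4
    exact h (rt_sq h4 (rt_mem.1 hν).2)

end Pool.Agent.MV5
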