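import Pool.Agent.MV5.StA

set_option autoImplicit false

/-!
# MV5 / Se: separation of variables with an oscillating factor
-/

namespace Pool.Agent.MV5

open MeasureTheory
open Pool.Agent.GBQ (ee)
open Pool.Agent.MT (IsWt)
open scoped ContDiff FourierTransform SchwartzMap

/-- norm of the Fourier transform -/
private theorem se_norm (f : ℝ → ℂ) (ξ : ℝ) : ‖𝓕 f ξ‖ ≤ ∫ v, ‖f v‖ := by
  rw [Real.fourier_eq']
  refine (norm_integral_le_integral_norm _).trans (le_of_eq ?_)
  refine integral_congr_ae (Filter.Eventually.of_forall fun v => ?_)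
  simp only [norm_smul]
  rw [Complex.norm_exp_ofReal_mul_I, one_mul]

/-- integral of a bounded function with bounded support -/
private theorem se_int {f : ℝ → ℂ} {a b K : ℝ} (hab : a ≤ b)
    (h0 : ∀ u, u ∉ Set.Icc a b → f u = 0) (h1 : ∀ u ∈ Set.Icc a b, ‖f u‖ ≤ K) :
    ∫ v, ‖f v‖ ≤ K * (b - a) := by
  have e1 : ∫ v, (Set.Icc a b).indicator (fun _ => K) v = K * (b - a) := by
    rw [integral_indicator measurableSet_Icc, setIntegral_const, Real.volume_real_Icc_of_le hab,
      smul_eq_mul, mul_comm]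
  rw [← e1]
  refine integral_mono_of_nonneg (Filter.Eventually.of_forall fun v => norm_nonneg _) ?_
    (Filter.Eventually.of_forall fun v => ?_)
  · rw [integrable_indicator_iff measurableSet_Icc]
    exact integrableOn_const (by rw [Real.volume_Icc]; exact ENNReal.ofReal_ne_top)
  · by_cases hv : v ∈ Set.Icc a b
    · simp only [Set.indicator_of_mem hv]
      exact h1 v hv
    · simp only [Set.indicator_of_notMem hv, h0 v hv, norm_zero]
      exact le_rfl

/-- a function and its first two derivatives -/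
private structure SeD (φ φ1 φ2 : ℝ → ℂ) (M : ℝ) : Prop where
  d1 : ∀ u, HasDerivAt φ (φ1 u) u
  d2 : ∀ u, HasDerivAt φ1 (φ2 u) u
  c2 : Continuous φ2
  z0 : ∀ u, u ∉ Set.Icc (Real.log (1 / 8)) (Real.log (7 / 8)) → φ u = 0
  z1 : ∀ u, u ∉ Set.Icc (Real.log (1 / 8)) (Real.log (7 / 8)) → φ1 u = 0
  z2 : ∀ u, u ∉ Set.Icc (Real.log (1 / 8)) (Real.log (7 / 8)) → φ2 u = 0
  b0 : ∀ u, ‖φ u‖ ≤ M
  b1 : ∀ u, ‖φ1 u‖ ≤ M
  b2 : ∀ u, ‖φ2 u‖ ≤ M

private theorem se_data (η : ℝ → ℝ) (hη : IsWt η) : ∃ (φ1 φ2 : ℝ → ℂ) (M : ℝ), 0 < M ∧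
    SeD (fun u => ((η (Real.exp u) : ℝ) : ℂ)) φ1 φ2 M := by
  set φ : ℝ → ℂ := fun u => ((η (Real.exp u) : ℝ) : ℂ) with hφ
  have h1 : ContDiff ℝ ∞ φ :=
    Complex.ofRealCLM.contDiff.comp (hη.smooth.comp Real.contDiff_exp)
  have hz : ∀ u, u ∉ Set.Icc (Real.log (1 / 8)) (Real.log (7 / 8)) → φ u = 0 := by
    intro u hu
    by_contra h3
    have h3' : η (Real.exp u) ≠ 0 := by
      intro h0
      apply h3
      simp [hφ, h0]
    obtain ⟨h4, h5⟩ := hη.supp _ h3'
    exact hu ⟨((Real.log_lt_iff_lt_exp (by norm_num)).2 h4).le,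
      ((Real.lt_log_iff_exp_lt (by norm_num)).2 h5).le⟩
  have hts : tsupport φ ⊆ Set.Icc (Real.log (1 / 8)) (Real.log (7 / 8)) := by
    refine closure_minimal (fun u hu => ?_) isClosed_Icc
    by_contra h3
    exact hu (hz u h3)
  have hts1 : tsupport (deriv φ) ⊆ Set.Icc (Real.log (1 / 8)) (Real.log (7 / 8)) :=
    closure_minimal (support_deriv_subset.trans hts) isClosed_Icc
  have hts2 : tsupport (deriv (deriv φ)) ⊆ Set.Icc (Real.log (1 / 8)) (Real.log (7 / 8)) :=
    closure_minimal (support_deriv_subset.trans hts1) isClosed_Icc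
  have hd1 : ContDiff ℝ ∞ (deriv φ) := by
    have := (contDiff_succ_iff_deriv (n := ∞) (f := φ) (𝕜 := ℝ)).1 (by simpa using h1)
    exact this.2.2
  have hd2 : ContDiff ℝ ∞ (deriv (deriv φ)) := by
    have := (contDiff_succ_iff_deriv (n := ∞) (f := deriv φ) (𝕜 := ℝ)).1 (by simpa using hd1)
    exact this.2.2
  have k0 : HasCompactSupport φ := HasCompactSupport.of_support_subset_isCompact isCompact_Icc
    (subset_closure.trans hts)
  have k1 : HasCompactSupport (deriv φ) :=
    HasCompactSupport.of_support_subset_isCompact isCompact_Icc (subset_closure.trans hts1)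
  have k2 : HasCompactSupport (deriv (deriv φ)) :=
    HasCompactSupport.of_support_subset_isCompact isCompact_Icc (subset_closure.trans hts2)
  obtain ⟨M0, hM0⟩ := k0.exists_bound_of_continuous h1.continuous
  obtain ⟨M1, hM1⟩ := k1.exists_bound_of_continuous hd1.continuous
  obtain ⟨M2, hM2⟩ := k2.exists_bound_of_continuous hd2.continuous
  refine ⟨deriv φ, deriv (deriv φ), max 1 (max M0 (max M1 M2)), by positivity, ?_, ?_,
    hd2.continuous, hz, ?_, ?_, ?_, ?_, ?_⟩
  · intro u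
    exact ((h1.differentiable (by simp)) u).hasDerivAt
  · intro u
    exact ((hd1.differentiable (by simp)) u).hasDerivAt
  · intro u hu
    by_contra h3
    exact hu (hts1 (subset_closure h3))
  · intro u hu
    by_contra h3
    exact hu (hts2 (subset_closure h3))
  · intro u
    exact (hM0 u).trans ((le_max_left _ _).trans (le_max_right _ _))
  · intro u
    exact (hM1 u).trans ((le_max_left _ _).trans ((le_max_right _ _).trans (le_max_right _ _)))
  · intro u
    exact (hM2 u).trans ((le_max_right _ _).trans ((le_max_right _ _).trans (le_max_right _ _)))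

/-- bound for the integral of the Fourier transform -/
private theorem se_four {h h1 h2 : ℝ → ℂ} {A : ℝ} (hi : Integrable h) (hi1 : Integrable h1)
    (hi2 : Integrable h2) (d1 : ∀ u, HasDerivAt h (h1 u) u) (d2 : ∀ u, HasDerivAt h1 (h2 u) u)
    (hA : (∫ v, ‖h v‖) + ∫ v, ‖h2 v‖ ≤ A) (hF : Integrable (𝓕 h)) :
    ∫ ξ, ‖𝓕 h ξ‖ ≤ A * Real.pi := by
  have e1 : deriv h = h1 := funext fun u => (d1 u).deriv
  have e2 : deriv h1 = h2 := funext fun u => (d2 u).deriv
  have f1 := Real.fourier_deriv hi (fun u => (d1 u).differentiableAt) (by rwa [e1])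
  have f2 := Real.fourier_deriv hi1 (fun u => (d2 u).differentiableAt) (by rwa [e2])
  rw [e1] at f1
  rw [e2] at f2
  have hA0 : 0 ≤ A := le_trans (by positivity) hA
  have key : ∀ ξ, ‖𝓕 h ξ‖ ≤ A * (1 + ξ ^ 2)⁻¹ := by
    intro ξ
    have g0 := se_norm h ξ
    have g2 := se_norm h2 ξ
    have g3 : ‖𝓕 h2 ξ‖ = (2 * Real.pi) ^ 2 * ξ ^ 2 * ‖𝓕 h ξ‖ := by
      rw [f2, f1]
      simp only [norm_smul, norm_mul, Complex.norm_real, Complex.norm_I, Complex.norm_ofNat,
        Real.norm_eq_abs, abs_of_pos Real.pi_pos]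
      rw [← sq_abs ξ]
      ring
    rw [← div_eq_mul_inv, le_div_iff₀ (by positivity)]
    have g4 : (1 : ℝ) ≤ (2 * Real.pi) ^ 2 := by nlinarith [Real.pi_gt_three]
    have g5 : ξ ^ 2 * ‖𝓕 h ξ‖ ≤ (2 * Real.pi) ^ 2 * ξ ^ 2 * ‖𝓕 h ξ‖ := by
      have : 0 ≤ ξ ^ 2 * ‖𝓕 h ξ‖ := by positivity
      nlinarith
    nlinarith
  calc ∫ ξ, ‖𝓕 h ξ‖ ≤ ∫ ξ : ℝ, A * (1 + ξ ^ 2)⁻¹ :=
        integral_mono hF.norm (integrable_inv_one_add_sq.const_mul A) key
    _ = A * Real.pi := by rw [integral_const_mul, integral_univ_inv_one_add_sq]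

theorem thm_Se : St_Se := by
  intro η hη
  obtain ⟨φ1, φ2, M, hM, D⟩ := se_data η hη
  refine ⟨1200 * M, by positivity, fun τ => ?_⟩
  set φ : ℝ → ℂ := fun u => ((η (Real.exp u) : ℝ) : ℂ) with hφ
  set c : ℂ := ((2 * Real.pi * τ : ℝ) : ℂ) * Complex.I with hc
  set E : ℝ → ℂ := fun u => ee (τ * Real.exp u) with hE
  have hEn : ∀ u, ‖E u‖ = 1 := fun u => Complex.norm_exp_ofReal_mul_I _
  have hex : ∀ u : ℝ, HasDerivAt (fun u : ℝ => ((Real.exp u : ℝ) : ℂ)) ((Real.exp u : ℝ) : ℂ) u :=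
    fun u => (Real.hasDerivAt_exp u).ofReal_comp
  have hEd : ∀ u, HasDerivAt E (c * ((Real.exp u : ℝ) : ℂ) * E u) u := by
    intro u
    have e1 : E = fun u => Complex.exp (c * ((Real.exp u : ℝ) : ℂ)) := by
      funext u
      simp only [hE, hc, ee]
      congr 1
      push_cast
      ring
    have e2 := ((hex u).const_mul c).cexp
    rw [e1]
    refine e2.congr_deriv ?_
    ring
  have hEc : Continuous E := continuous_iff_continuousAt.2 fun u => (hEd u).continuousAt
  have hxc : Continuous fun u : ℝ => ((Real.exp u : ℝ) : ℂ) :=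
    continuous_iff_continuousAt.2 fun u => (hex u).continuousAt
  have c0 : Continuous φ := continuous_iff_continuousAt.2 fun u => (D.d1 u).continuousAt
  have c1 : Continuous φ1 := continuous_iff_continuousAt.2 fun u => (D.d2 u).continuousAt
  obtain ⟨h, hh⟩ : ∃ h : ℝ → ℂ, h = fun u => φ u * E u := ⟨_, rfl⟩
  obtain ⟨h1, hh1⟩ : ∃ h1 : ℝ → ℂ, h1 = fun u =>
      (φ1 u + φ u * (c * ((Real.exp u : ℝ) : ℂ))) * E u := ⟨_, rfl⟩
  obtain ⟨h2, hh2⟩ : ∃ h2 : ℝ → ℂ, h2 = fun u =>
      (φ2 u + (φ1 u * (c * ((Real.exp u : ℝ) : ℂ)) + φ u * (c * ((Real.exp u : ℝ) : ℂ)))) * E u +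
        (φ1 u + φ u * (c * ((Real.exp u : ℝ) : ℂ))) * (c * ((Real.exp u : ℝ) : ℂ) * E u) :=
    ⟨_, rfl⟩
  have d1 : ∀ u, HasDerivAt h (h1 u) u := by
    intro u
    rw [hh, hh1]
    refine ((D.d1 u).mul (hEd u)).congr_deriv ?_
    ring
  have d2 : ∀ u, HasDerivAt h1 (h2 u) u := by
    intro u
    rw [hh2, hh1]
    exact ((D.d2 u).add ((D.d1 u).mul ((hex u).const_mul c))).mul (hEd u)
  have k : ∀ f : ℝ → ℂ, Continuous f →
      (∀ u, u ∉ Set.Icc (Real.log (1 / 8)) (Real.log (7 / 8)) → f u = 0) → Integrable f := by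
    intro f hf hf0
    refine hf.integrable_of_hasCompactSupport
      (HasCompactSupport.of_support_subset_isCompact
        (isCompact_Icc (a := Real.log (1 / 8)) (b := Real.log (7 / 8))) fun u hu => ?_)
    by_contra h3
    exact hu (hf0 u h3)
  have z0 : ∀ u, u ∉ Set.Icc (Real.log (1 / 8)) (Real.log (7 / 8)) → h u = 0 := by
    intro u hu
    rw [hh]
    simp only [D.z0 u hu, zero_mul]
  have z1 : ∀ u, u ∉ Set.Icc (Real.log (1 / 8)) (Real.log (7 / 8)) → h1 u = 0 := by
    intro u hu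
    rw [hh1]
    simp only [D.z0 u hu, D.z1 u hu, zero_mul, add_zero]
  have z2 : ∀ u, u ∉ Set.Icc (Real.log (1 / 8)) (Real.log (7 / 8)) → h2 u = 0 := by
    intro u hu
    rw [hh2]
    simp only [D.z0 u hu, D.z1 u hu, D.z2 u hu, zero_mul, add_zero]
  have q0 : Continuous h := continuous_iff_continuousAt.2 fun u => (d1 u).continuousAt
  have q1 : Continuous h1 := continuous_iff_continuousAt.2 fun u => (d2 u).continuousAt
  have q2 : Continuous h2 := by
    have := D.c2
    rw [hh2]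
    fun_prop
  have i0 := k h q0 z0
  have i1 := k h1 q1 z1
  have i2 := k h2 q2 z2
  -- integrability of the Fourier transform
  have s1 : ContDiff ℝ ∞ h := by
    have s2 : ContDiff ℝ ∞ φ :=
      Complex.ofRealCLM.contDiff.comp (hη.smooth.comp Real.contDiff_exp)
    have s3 : ContDiff ℝ ∞ E := by
      have e1 : E = fun u => Complex.exp (c * ((Real.exp u : ℝ) : ℂ)) := by
        funext u
        simp only [hE, hc, ee]
        congr 1
        push_cast
        ring
      rw [e1]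
      exact (contDiff_const.mul (Complex.ofRealCLM.contDiff.comp Real.contDiff_exp)).cexp
    rw [hh]
    exact s2.mul s3
  have s4 : HasCompactSupport h :=
    HasCompactSupport.of_support_subset_isCompact
      (isCompact_Icc (a := Real.log (1 / 8)) (b := Real.log (7 / 8))) fun u hu => by
        by_contra h3
        exact hu (z0 u h3)
  set H : 𝓢(ℝ, ℂ) := s4.toSchwartzMap s1 with hH
  have hHc : (H : ℝ → ℂ) = h := rfl
  have hFi : Integrable (𝓕 h) := by
    have := (𝓕 H : 𝓢(ℝ, ℂ)).integrable (μ := volume)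
    rw [SchwartzMap.fourier_coe, hHc] at this
    exact this
  refine ⟨𝓕 h, hFi, ?_, fun x hx => ?_⟩
  · -- the bound
    have l1 : Real.log (1 / 8) ≤ Real.log (7 / 8) := Real.log_le_log (by norm_num) (by norm_num)
    have l2 : Real.log (7 / 8) - Real.log (1 / 8) ≤ 3 := by
      rw [← Real.log_div (by norm_num) (by norm_num)]
      have : Real.log ((7 / 8 : ℝ) / (1 / 8)) ≤ Real.log (Real.exp 3) := by
        refine Real.log_le_log (by norm_num) ?_
        have := Real.add_one_le_exp (3 / 2 : ℝ)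
        have e3 : Real.exp 3 = Real.exp (3 / 2) * Real.exp (3 / 2) := by
          rw [← Real.exp_add]
          norm_num
        have e4 := Real.exp_one_gt_d9
        have e5 : Real.exp 3 = Real.exp 1 * Real.exp 1 * Real.exp 1 := by
          rw [← Real.exp_add, ← Real.exp_add]
          norm_num
        rw [e5]
        nlinarith [mul_pos (Real.exp_pos 1) (Real.exp_pos 1)]
      rwa [Real.log_exp] at this
    have hcn : ‖c‖ ≤ 7 * |τ| := by
      rw [hc, norm_mul, Complex.norm_I, mul_one, Complex.norm_real, Real.norm_eq_abs, abs_mul,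
        abs_mul, abs_of_pos Real.pi_pos, abs_of_pos (by norm_num : (0 : ℝ) < 2)]
      nlinarith [abs_nonneg τ, Real.pi_lt_d2]
    have hexn : ∀ u ∈ Set.Icc (Real.log (1 / 8)) (Real.log (7 / 8)),
        ‖((Real.exp u : ℝ) : ℂ)‖ ≤ 1 := by
      intro u hu
      rw [Complex.norm_real, Real.norm_eq_abs, abs_of_pos (Real.exp_pos u)]
      rw [Real.exp_le_one_iff]
      exact hu.2.trans (Real.log_nonpos (by norm_num) (by norm_num))
    have b0 : ∫ v, ‖h v‖ ≤ M * (Real.log (7 / 8) - Real.log (1 / 8)) := by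
      refine se_int l1 z0 fun u hu => ?_
      rw [hh]
      simp only [norm_mul, hEn, mul_one]
      exact D.b0 u
    have b2 : ∫ v, ‖h2 v‖ ≤ (98 * M * (1 + |τ|) ^ 2) *
        (Real.log (7 / 8) - Real.log (1 / 8)) := by
      refine se_int l1 z2 fun u hu => ?_
      have t1 : ‖c * ((Real.exp u : ℝ) : ℂ)‖ ≤ 7 * |τ| := by
        rw [norm_mul]
        have := hexn u hu
        have h3 : 0 ≤ ‖c‖ := norm_nonneg _
        nlinarith [norm_nonneg (((Real.exp u : ℝ) : ℂ))]
      set w : ℂ := c * ((Real.exp u : ℝ) : ℂ) with hw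
      have t2 : ∀ z : ℂ, ‖z‖ ≤ M → ‖z * w‖ ≤ M * (7 * |τ|) := by
        intro z hz
        rw [norm_mul]
        exact mul_le_mul hz t1 (norm_nonneg _) hM.le
      rw [hh2]
      simp only
      rw [← hw]
      have t3 : ‖(φ2 u + (φ1 u * w + φ u * w)) * E u‖ ≤ M + (M * (7 * |τ|) + M * (7 * |τ|)) := by
        rw [norm_mul, hEn, mul_one]
        exact (norm_add_le _ _).trans (add_le_add (D.b2 u) ((norm_add_le _ _).trans
          (add_le_add (t2 _ (D.b1 u)) (t2 _ (D.b0 u)))))
      have t4 : ‖(φ1 u + φ u * w) * (w * E u)‖ ≤ (M + M * (7 * |τ|)) * (7 * |τ|) := by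
        rw [norm_mul, norm_mul, hEn, mul_one]
        exact mul_le_mul ((norm_add_le _ _).trans (add_le_add (D.b1 u) (t2 _ (D.b0 u)))) t1
          (norm_nonneg _) (by positivity)
      refine (norm_add_le _ _).trans ((add_le_add t3 t4).trans ?_)
      have t5 : 0 ≤ M * |τ| := by positivity
      have t6 : 0 ≤ M * |τ| ^ 2 := by positivity
      nlinarith
    have hA : (∫ v, ‖h v‖) + ∫ v, ‖h2 v‖ ≤ 297 * M * (1 + |τ|) ^ 2 := by
      have t5 : 0 ≤ |τ| := abs_nonneg τ
      have t6 : 1 ≤ (1 + |τ|) ^ 2 := by nlinarith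
      have t7 : M ≤ M * (1 + |τ|) ^ 2 := le_mul_of_one_le_right hM.le t6
      have t8 : M * (Real.log (7 / 8) - Real.log (1 / 8)) ≤ M * 3 :=
        mul_le_mul_of_nonneg_left l2 hM.le
      have t9 : (98 * M * (1 + |τ|) ^ 2) * (Real.log (7 / 8) - Real.log (1 / 8)) ≤
          (98 * M * (1 + |τ|) ^ 2) * 3 := mul_le_mul_of_nonneg_left l2 (by positivity)
      nlinarith
    refine (se_four i0 i1 i2 d1 d2 hA hFi).trans ?_
    have t1 : 0 ≤ M * (1 + |τ|) ^ 2 := by positivity
    nlinarith [Real.pi_lt_d2]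
  · have hinv := i0.fourierInv_fourier_eq hFi (v := Real.log x) s1.continuous.continuousAt
    have e1 : h (Real.log x) = ((η x : ℝ) : ℂ) * ee (τ * x) := by
      rw [hh]
      simp only [hφ, hE, Real.exp_log hx]
    rw [← e1, ← hinv, Real.fourierInv_eq']
    refine integral_congr_ae (Filter.Eventually.of_forall fun ξ => ?_)
    simp only [smul_eq_mul]
    congr 3
    simp [mul_comm]

end Pool.Agent.MV5
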