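import Pool.Agent.MV5.StC
import Pool.Agent.LIN.Sv5
import Pool.Agent.LIN.Asm
import Pool.Agent.LIN.Cv
import Pool.Agent.LIN.Det

set_option autoImplicit false

/-!
# MV5: the weighted sieve with five prime factors for general densities, with a majorant
-/

namespace Pool.Agent.MV5

open Finset Filter
open Pool.Agent.LIN

theorem sg_log {K : ℕ} (hK : 1 ≤ K) (hL : 10000 ≤ Real.log K) :
    Real.log (Real.log (⌊(K : ℝ) ^ (432 / 1000 : ℝ)⌋₊ : ℝ) /
      Real.log (⌊(K : ℝ) ^ (12 / 100 : ℝ)⌋₊ : ℝ)) ≤ Real.log 3 + 202 / 1000 := by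
  obtain ⟨hz1, hz2, hz3⟩ := sv5_floor (K := K) hK (a := 12 / 100) (by norm_num)
  obtain ⟨hy1, hy2, hy3⟩ := sv5_floor (K := K) hK (a := 432 / 1000) (by norm_num)
  have h1 : 0 < Real.log (⌊(K : ℝ) ^ (12 / 100 : ℝ)⌋₊ : ℝ) := by linarith
  have h2 : 0 < Real.log (⌊(K : ℝ) ^ (432 / 1000 : ℝ)⌋₊ : ℝ) := by linarith
  have h4 : Real.log (Real.log (⌊(K : ℝ) ^ (432 / 1000 : ℝ)⌋₊ : ℝ) /
      Real.log (⌊(K : ℝ) ^ (12 / 100 : ℝ)⌋₊ : ℝ)) ≤ Real.log (3 * (1202 / 1000)) := by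
    apply Real.log_le_log (by positivity)
    rw [div_le_iff₀ h1]
    linarith
  rw [Real.log_mul (by norm_num) (by norm_num)] at h4
  have h5 := Real.log_le_sub_one_of_pos (show (0 : ℝ) < 1202 / 1000 by norm_num)
  linarith

theorem sg_dens {g : ℕ → ℝ} {w z y : ℕ} {η η' : ℝ} (h : Dens g w y η) (hz : z ≤ y)
    (hη : η ≤ η') : Dens g w z η' where
  nonneg := h.nonneg
  le_three := h.le_three
  le_four := h.le_four
  mert u v hu huv hv := (h.mert u v hu huv (hv.trans hz)).trans hη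

theorem thm_Sg : St_Sg := by
  obtain ⟨A₀, hA₀, hSV⟩ := sve
  set ε : ℝ := min (A₀ / 200) (1 / 100) with hεdef
  have hε : 0 < ε := lt_min (by positivity) (by norm_num)
  have hε1 : ε ≤ A₀ / 200 := min_le_left _ _
  have hε2 : ε ≤ 1 / 100 := min_le_right _ _
  obtain ⟨δ₀, hδ₀, hδ⟩ := hSV ε hε
  set δ : ℝ := min δ₀ (1 / 20) with hδdef
  have hδ1 : 0 < δ := lt_min hδ₀ (by norm_num)
  have hδ2 : δ ≤ 1 / 20 := min_le_right _ _
  obtain ⟨η, X₀, hη, hX⟩ := hδ δ hδ1 (min_le_left _ _)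
  set η₀ : ℝ := min η (1 / 1000) with hη₀def
  have hη₀ : 0 < η₀ := lt_min hη (by norm_num)
  have hη₀1 : η₀ ≤ η := min_le_left _ _
  have hη₀2 : η₀ ≤ 1 / 1000 := min_le_right _ _
  obtain ⟨K₁, hK₁⟩ := sv5_num δ 1 0 hδ1 hδ2 one_pos le_rfl
  have hlog : ∀ᶠ K : ℕ in atTop, 10000 ≤ Real.log K :=
    (Real.tendsto_log_atTop.comp tendsto_natCast_atTop_atTop).eventually_ge_atTop _
  refine ⟨A₀ / 100, δ, η₀, 9 + 2 * A₀, by positivity, hδ1, hδ2, hη₀, by positivity, ?_⟩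
  filter_upwards [hlog, eventually_ge_atTop (max X₀ K₁)] with K hLK hK
  obtain ⟨hK2, hw3, hwz, hzK, hzy, -, hyK, hDy, -⟩ := hK₁ K ((le_max_right _ _).trans hK)
  have hlogzy := sg_log (K := K) (by omega) hLK
  set w := ⌊(K : ℝ) ^ δ⌋₊ with hwdef
  set zs' := ⌊(K : ℝ) ^ (12 / 100 : ℝ)⌋₊ with hzsdef
  set y := ⌊(K : ℝ) ^ (432 / 1000 : ℝ)⌋₊ with hydef
  have hzsK' : zs K = zs' := rfl
  have hysK' : ys K = y := rfl
  have hK1 : (1 : ℝ) ≤ K := by exact_mod_cast (by omega : 1 ≤ K)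
  have hK0 : (0 : ℝ) < K := by linarith
  have hzs3 : 3 ≤ zs' := hw3.trans hwz
  have hzs1 : (1 : ℝ) < zs' := by exact_mod_cast (by omega : 1 < zs')
  have hzs0 : (0 : ℝ) < zs' := by linarith
  have hy3 : 3 ≤ y := hzs3.trans hzy
  have hy0 : (0 : ℝ) < y := by exact_mod_cast (by omega : 0 < y)
  have hy1 : (1 : ℝ) < y := by exact_mod_cast (by omega : 1 < y)
  obtain ⟨hup, hlow⟩ := hX K w zs' ((le_max_left _ _).trans hK) rfl hwz hzK
  set D : ℝ := (zs' : ℝ) ^ 4 with hD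
  have hD0 : 0 < D := by positivity
  have hzsK : (zs' : ℝ) ≤ (K : ℝ) ^ (12 / 100 : ℝ) := Nat.floor_le (by positivity)
  have hDK : D ≤ (K : ℝ) ^ (48 / 100 : ℝ) := by
    calc D ≤ ((K : ℝ) ^ (12 / 100 : ℝ)) ^ 4 := pow_le_pow_left₀ hzs0.le hzsK 4
      _ = (K : ℝ) ^ (48 / 100 : ℝ) := by
          rw [← Real.rpow_natCast, ← Real.rpow_mul hK0.le]
          norm_num
  have hKr : ∀ a : ℝ, a ≤ 1 → (K : ℝ) ^ a ≤ K := fun a ha => by
    calc (K : ℝ) ^ a ≤ (K : ℝ) ^ (1 : ℝ) := Real.rpow_le_rpow_of_exponent_le hK1 ha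
      _ = K := Real.rpow_one _
  have hDK' : D ≤ K := hDK.trans (hKr _ (by norm_num))
  set N : ℝ := D * (K : ℝ) ^ ε with hN
  have hN0 : 0 ≤ N := by positivity
  have hN49 : N ≤ (K : ℝ) ^ (49 / 100 : ℝ) := by
    calc N ≤ (K : ℝ) ^ (48 / 100 : ℝ) * (K : ℝ) ^ (1 / 100 : ℝ) := by
          refine mul_le_mul hDK (Real.rpow_le_rpow_of_exponent_le hK1 hε2) (by positivity)
            (by positivity)
      _ = (K : ℝ) ^ (49 / 100 : ℝ) := by
          rw [← Real.rpow_add hK0]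
          norm_num
  have hNK : N ≤ K := hN49.trans (hKr _ (by norm_num))
  have hlz : 0 < Real.log zs' := Real.log_pos hzs1
  have hly : 0 < Real.log y := Real.log_pos hy1
  have hlD : Real.log D = 4 * Real.log zs' := by
    rw [hD, Real.log_pow]
    norm_num
  -- lower weights
  obtain ⟨cm, hcm, hcmS, hcmM⟩ := hlow D (by
    rw [hD]
    exact pow_le_pow_right₀ hzs1.le (by norm_num)) le_rfl hDK'
  -- upper weights for `z ^ 3`
  have hD3 : (zs' : ℝ) ^ 3 ≤ D := by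
    rw [hD]
    exact pow_le_pow_right₀ hzs1.le (by norm_num)
  obtain ⟨u, hu, huS, huM⟩ := hup ((zs' : ℝ) ^ 3) (by
    rw [← pow_mul]
    calc (zs' : ℝ) = (zs' : ℝ) ^ 1 := (pow_one _).symm
      _ ≤ (zs' : ℝ) ^ (3 * 8) := pow_le_pow_right₀ hzs1.le (by norm_num)) le_rfl
    (one_lt_pow₀ hzs1 (by norm_num)) (hD3.trans hDK')
  have huN : (zs' : ℝ) ^ 3 * (K : ℝ) ^ ε ≤ N := mul_le_mul_of_nonneg_right hD3 (by positivity)
  -- upper weights
  set P := (Ioc zs' y).filter Nat.Prime with hP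
  have hPmem : ∀ p ∈ P, p.Prime ∧ zs' < p ∧ p ≤ y := by
    intro p hp
    rw [hP, mem_filter, mem_Ioc] at hp
    exact ⟨hp.2, hp.1⟩
  have hDp : ∀ p ∈ P, (K : ℝ) ^ (4 / 100 : ℝ) ≤ D / p := by
    intro p hp
    obtain ⟨hp1, -, hp3⟩ := hPmem p hp
    refine hDy.trans (div_le_div_of_nonneg_left hD0.le (by exact_mod_cast hp1.pos) ?_)
    exact_mod_cast hp3
  have hK4 : 1 < (K : ℝ) ^ (4 / 100 : ℝ) := by
    apply Real.one_lt_rpow _ (by norm_num)
    exact_mod_cast (by omega : 1 < K)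
  have hupP : ∀ p ∈ P, ∃ c : ℕ → ℝ, IsWgt c zs' (N / p) ∧
      (∀ S ⊆ pz zs', (if S = ∅ then (1 : ℝ) else 0) ≤ ∑ T ∈ S.powerset, c (∏ q ∈ T, q)) ∧
      ∀ g : ℕ → ℝ, Dens g w zs' η → mainT c g zs' ≤
        (∏ p ∈ pz zs', (1 - g p)) * (A₀ * Real.log zs' / Real.log (D / p) + ε) := by
    intro p hp
    obtain ⟨hp1, hp2, hp3⟩ := hPmem p hp
    have hp0 : (0 : ℝ) < p := by exact_mod_cast hp1.pos
    have hpz : (zs' : ℝ) ≤ p := by exact_mod_cast hp2.le
    have e1 : (zs' : ℝ) ≤ (D / p) ^ 8 := by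
      calc (zs' : ℝ) ≤ (K : ℝ) ^ (12 / 100 : ℝ) := hzsK
        _ ≤ (K : ℝ) ^ (32 / 100 : ℝ) := Real.rpow_le_rpow_of_exponent_le hK1 (by norm_num)
        _ = ((K : ℝ) ^ (4 / 100 : ℝ)) ^ 8 := by
            rw [← Real.rpow_natCast, ← Real.rpow_mul hK0.le]
            norm_num
        _ ≤ (D / p) ^ 8 := pow_le_pow_left₀ (by positivity) (hDp p hp) 8
    have e2 : D / p ≤ (zs' : ℝ) ^ 3 := by
      rw [div_le_iff₀ hp0, hD]
      calc (zs' : ℝ) ^ 4 = (zs' : ℝ) ^ 3 * zs' := by ring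
        _ ≤ (zs' : ℝ) ^ 3 * p := mul_le_mul_of_nonneg_left hpz (by positivity)
    have e3 : 1 < D / p := lt_of_lt_of_le hK4 (hDp p hp)
    have e4 : D / p ≤ K := (div_le_self hD0.le (by exact_mod_cast hp1.one_le)).trans hDK'
    obtain ⟨c, hc1, hc2, hc3⟩ := hup (D / p) e1 e2 e3 e4
    refine ⟨c, ?_, hc2, hc3⟩
    have e5 : N / p = D / p * (K : ℝ) ^ ε := by
      rw [hN]
      ring
    rw [e5]
    exact hc1
  choose! cp hcp using hupP
  set b : ℕ → ℝ := fun p => 25 / 34 * (1 - Real.log p / Real.log y) with hb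
  have hlogp : ∀ p ∈ P, 0 ≤ Real.log p ∧ Real.log p ≤ Real.log y := by
    intro p hp
    obtain ⟨hp1, -, hp3⟩ := hPmem p hp
    have hp0 : (0 : ℝ) < p := by exact_mod_cast hp1.pos
    exact ⟨Real.log_nonneg (by exact_mod_cast hp1.one_le),
      Real.log_le_log hp0 (by exact_mod_cast hp3)⟩
  have hbb : ∀ p ∈ P, 0 ≤ b p ∧ b p ≤ 1 := by
    intro p hp
    obtain ⟨e1, e2⟩ := hlogp p hp
    have e3 : Real.log p / Real.log y ≤ 1 := (div_le_one hly).2 e2
    have e4 : 0 ≤ Real.log p / Real.log y := div_nonneg e1 hly.le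
    simp only [hb]
    constructor <;> linarith
  have H : Sv5H cm cp P b zs' N := ⟨hcm, fun p hp => (hcp p hp).1,
    fun p hp => ⟨(hPmem p hp).1, (hPmem p hp).2.1⟩, hbb⟩
  have hdiv : ∀ n : ℕ, 1 ≤ n → ∑ d ∈ n.divisors, sv5_c cm cp P b d =
      ∑ T ∈ ((pz zs').filter (fun p => p ∣ n)).powerset, cm (∏ p ∈ T, p) -
      ∑ p ∈ P.filter (fun p => p ∣ n), b p *
        ∑ T ∈ ((pz zs').filter (fun p => p ∣ n)).powerset, cp p (∏ q ∈ T, q) :=
    fun n hn => sv5_div thm_Cv2 H hn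
  have hbA : ∀ n : ℕ, ∑ p ∈ P.filter (fun p => p ∣ n),
        b p * (if (pz zs').filter (fun p => p ∣ n) = ∅ then (1 : ℝ) else 0) ≤
      ∑ p ∈ P.filter (fun p => p ∣ n), b p *
        ∑ T ∈ ((pz zs').filter (fun p => p ∣ n)).powerset, cp p (∏ q ∈ T, q) := by
    intro n
    refine sum_le_sum fun p hp => ?_
    have hp' := (mem_filter.1 hp).1
    exact mul_le_mul_of_nonneg_left ((hcp p hp').2.1 _ (filter_subset _ _)) (hbb p hp').1
  have hb0 : ∀ n : ℕ, 0 ≤ ∑ p ∈ P.filter (fun p => p ∣ n), b p *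
        (if (pz zs').filter (fun p => p ∣ n) = ∅ then (1 : ℝ) else 0) := by
    intro n
    refine sum_nonneg fun p hp => mul_nonneg (hbb p (mem_filter.1 hp).1).1 ?_
    split_ifs <;> norm_num
  -- the main term
  have hmain : ∀ g : ℕ → ℝ, Dens g w y η₀ → 0 < ∏ p ∈ pz zs', (1 - g p) ∧
      A₀ / 100 * ∏ p ∈ pz zs', (1 - g p) ≤
        ∑ d ∈ Icc 1 K, sv5_c cm cp P b d * ∏ q ∈ d.primeFactors, g q := by
    intro g hg
    have hgz : Dens g w zs' η := sg_dens hg hzy hη₀1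
    have hV : 0 < ∏ p ∈ pz zs', (1 - g p) := by
      refine prod_pos fun p hp => ?_
      have := hg.le_three p (mem_filter.1 hp).2
      linarith
    refine ⟨hV, ?_⟩
    rw [sv5_mainT thm_Cv2 H hN0 hNK g, mul_comm]
    have hlyz : Real.log y ≤ 4 * Real.log zs' := by
      rw [← hlD]
      refine Real.log_le_log hy0 ?_
      have := hK4.le.trans hDy
      rwa [one_le_div hy0] at this
    refine sv5_ineq (S := Real.log 3 + 203 / 1000) (lz := Real.log zs') (ly := Real.log y)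
      (z := zs') (y := y) hA₀ hε hε1 hV hlz hly
      hlyz (fun p hp => (hPmem p hp).2) (fun p hp => hg.nonneg p (hPmem p hp).1)
      (fun p hp => (hlogp p hp).2) ?_ (fun p hp => (hlogp p hp).1) (fun p hp => rfl) ?_ ?_ ?_
      le_rfl
    · intro p hp
      have hp0 : (0 : ℝ) < p := by exact_mod_cast (hPmem p hp).1.pos
      rw [← hlD]
      refine Real.log_lt_log hp0 ?_
      have := lt_of_lt_of_le hK4 (hDp p hp)
      rwa [one_lt_div hp0] at this
    · have e2 := hcmM g hgz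
      rw [hlD] at e2
      have e3 : 4 * Real.log zs' / Real.log zs' - 1 = 3 := by
        field_simp
        norm_num
      have e4 : Real.log zs' / (4 * Real.log zs') = 1 / 4 := by
        field_simp
      rw [e3, e4] at e2
      exact e2
    · intro p hp
      have e2 := (hcp p hp).2.2 g hgz
      have hp0 : (0 : ℝ) < p := by exact_mod_cast (hPmem p hp).1.pos
      rw [Real.log_div hD0.ne' hp0.ne', hlD] at e2
      exact e2
    · have e3 := (abs_le.1 (hg.mert zs' y hwz hzy le_rfl)).2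
      linarith
  have hcu2 : ∀ M : ℕ, N ≤ M → ∀ g : ℕ → ℝ, ∑ d ∈ Icc 1 M, u d * ∏ q ∈ d.primeFactors, g q =
      mainT u g zs' := fun M hM g =>
    (thm_Cv2 u zs' _ hu).1 M (huN.trans hM) (fun T => ∏ q ∈ T, g q)
  refine ⟨sv5_c cm cp P b, fun d => 2 * u d - sv5_c cm cp P b d, ?_, ?_, ?_, ?_, ?_⟩
  · -- support
    intro d hd
    have hcase : sv5_c cm cp P b d ≠ 0 ∨ u d ≠ 0 := by
      rcases hd with hd | hd
      · exact Or.inl hd
      · by_contra hcon
        push Not at hcon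
        apply hd
        rw [hcon.1, hcon.2]
        norm_num
    rcases hcase with hd | hd
    · obtain ⟨e1, e2⟩ := sv5_supp H d hd
      exact ⟨e1, e2.trans hN49⟩
    · obtain ⟨e1, -, e2⟩ := hu.supp d hd
      exact ⟨e1, (e2.trans huN).trans hN49⟩
  · -- size
    intro d
    have hp1 : (1 : ℝ) ≤ 8 ^ d.primeFactors.card := one_le_pow₀ (by norm_num)
    have hu3 := hu.bound d
    have hc3 : |sv5_c cm cp P b d| ≤ 3 * 8 ^ d.primeFactors.card := by
      rcases Nat.eq_zero_or_pos d with rfl | hd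
      · have h0 : sv5_c cm cp P b 0 = 0 := by
          by_contra hcon
          exact (sv5_supp H 0 hcon).1.ne_zero rfl
        rw [h0, abs_zero]
        positivity
      · exact sv5_bound H d hd.ne'
    have hA0' : 0 ≤ 2 * A₀ * 8 ^ d.primeFactors.card := by positivity
    refine ⟨?_, ?_⟩
    · nlinarith
    · have e1 : |2 * u d - sv5_c cm cp P b d| ≤ 2 * |u d| + |sv5_c cm cp P b d| := by
        refine (abs_sub _ _).trans ?_
        rw [abs_mul, abs_two]
      show |2 * u d - sv5_c cm cp P b d| ≤ _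
      nlinarith
  · -- the majorant
    intro n hn
    rw [sum_sub_distrib, ← mul_sum, (thm_Cv2 u zs' _ hu).2 n hn]
    have e1 := huS ((pz zs').filter (fun p => p ∣ n)) (filter_subset _ _)
    have e2 := hcmS ((pz zs').filter (fun p => p ∣ n)) (filter_subset _ _)
    have e3 := hbA n
    have e4 := hb0 n
    have e5 := hdiv n hn
    have e6 : (0 : ℝ) ≤ if (pz zs').filter (fun p => p ∣ n) = ∅ then (1 : ℝ) else 0 := by
      split_ifs <;> norm_num
    rw [abs_le]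
    constructor <;> linarith
  · -- detection
    intro n hn hnK hnsq hpos
    rw [hdiv n hn] at hpos
    have e2 := hcmS ((pz zs').filter (fun p => p ∣ n)) (filter_subset _ _)
    have e3 := hbA n
    set Sn := (pz zs').filter (fun p => p ∣ n) with hSn
    by_cases hSe : Sn = ∅
    · rw [if_pos hSe] at e2
      simp only [if_pos hSe, mul_one] at e3
      have e5 : ∑ p ∈ P.filter (fun p => p ∣ n), b p < 1 := by linarith
      simp only [hb] at e5
      rw [← mul_sum] at e5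
      have hsmall : ∀ p : ℕ, p.Prime → p ∣ n → zs' < p := by
        intro p hp1 hp2
        by_contra hcon
        push Not at hcon
        have : p ∈ Sn := mem_filter.2 ⟨mem_filter.2 ⟨mem_range.2 (by omega), hp1⟩, hp2⟩
        rw [hSe] at this
        exact notMem_empty _ this
      have e6 : n.primeFactors.filter (fun p => p ≤ y) = P.filter (fun p => p ∣ n) := by
        ext p
        simp only [mem_filter, hP, mem_Ioc, Nat.mem_primeFactors]
        constructor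
        · rintro ⟨⟨hp1, hp2, hp3⟩, hp4⟩
          exact ⟨⟨⟨hsmall p hp1 hp2, hp4⟩, hp1⟩, hp2⟩
        · rintro ⟨⟨⟨hp1, hp2⟩, hp3⟩, hp4⟩
          exact ⟨⟨hp3, hp4, by omega⟩, hp2⟩
      refine thm_Det K y n hK2 (by omega) hyK hn hnK ?_ ?_
      · intro p hp hpy hpn
        have hpd : p ∣ n := (dvd_pow_self p two_ne_zero).trans hpn
        exact hnsq p hp (hsmall p hp hpd) hpy hpn
      · rw [e6]
        linarith
    · rw [if_neg hSe] at e2
      simp only [if_neg hSe, mul_zero, sum_const_zero] at e3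
      exfalso
      linarith
  · -- main terms
    intro g hg
    obtain ⟨hV, h1⟩ := hmain g hg
    refine ⟨h1, ?_⟩
    have hgz : Dens g w zs' η := sg_dens hg hzy hη₀1
    simp only [sub_mul, mul_assoc]
    rw [sum_sub_distrib, ← mul_sum, hcu2 K hNK g]
    have e1 := huM g hgz
    have e2 : A₀ * Real.log zs' / Real.log ((zs' : ℝ) ^ 3) = A₀ / 3 := by
      rw [Real.log_pow]
      push_cast
      field_simp
    rw [e2] at e1
    have e3 : 0 ≤ A₀ / 100 * ∏ p ∈ pz zs', (1 - g p) := by positivity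
    show 2 * mainT u g zs' - ∑ d ∈ Icc 1 K, sv5_c cm cp P b d * ∏ q ∈ d.primeFactors, g q ≤
      (9 + 2 * A₀) * ∏ p ∈ pz zs', (1 - g p)
    have e4 : (∏ p ∈ pz zs', (1 - g p)) * (A₀ / 3 + ε) ≤
        (∏ p ∈ pz zs', (1 - g p)) * (A₀ / 3 + A₀ / 200) :=
      mul_le_mul_of_nonneg_left (by linarith) hV.le
    nlinarith

end Pool.Agent.MV5
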