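import Pool.Agent.MV5.StA
import Pool.Agent.GBQ.Bridge

set_option autoImplicit false

/-!
# MV5 / T0: smooth sums with a small frequency

Partial summation with the bound for geometric sums and the total variation of `k ↦ η(mk/N)`,
`k ↦ (log k) η(mk/N)` on `[1, N/m]` (at most `C` and `C log N`), as in MT/TypeI.lean.
-/

namespace Pool.Agent.MV5

open Finset Filter
open Pool.Agent.GBQ (ee lam nd gm)
open Pool.Agent.MT (IsWt)

private theorem t0_abel_id (f : ℕ → ℂ) (g : ℕ → ℝ) (K : ℕ) (hK : 1 ≤ K) :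
    ∑ k ∈ Icc 1 K, f k * ((g k : ℝ) : ℂ) = (∑ k ∈ Icc 1 K, f k) * ((g K : ℝ) : ℂ) -
      ∑ k ∈ Ico 1 K, (∑ j ∈ Icc 1 k, f j) * (((g (k + 1) - g k : ℝ)) : ℂ) := by
  induction K, hK using Nat.le_induction with
  | base => simp
  | succ K hK ih =>
    rw [sum_Icc_succ_top (by omega), sum_Icc_succ_top (by omega), sum_Ico_succ_top hK, ih]
    push_cast
    ring

private theorem t0_abel (f : ℕ → ℂ) (g : ℕ → ℝ) (B : ℝ) (hB : ∀ K, ‖∑ k ∈ Icc 1 K, f k‖ ≤ B)
    (K : ℕ) (hK : 1 ≤ K) :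
    ‖∑ k ∈ Icc 1 K, f k * ((g k : ℝ) : ℂ)‖ ≤
      B * (|g K| + ∑ k ∈ Ico 1 K, |g (k + 1) - g k|) := by
  rw [t0_abel_id f g K hK]
  have hB0 : 0 ≤ B := (norm_nonneg _).trans (hB 0)
  calc _ ≤ ‖(∑ k ∈ Icc 1 K, f k) * ((g K : ℝ) : ℂ)‖ +
        ‖∑ k ∈ Ico 1 K, (∑ j ∈ Icc 1 k, f j) * (((g (k + 1) - g k : ℝ)) : ℂ)‖ := norm_sub_le _ _
    _ ≤ B * |g K| + ∑ k ∈ Ico 1 K, B * |g (k + 1) - g k| := by
        apply add_le_add
        · rw [norm_mul, Complex.norm_real, Real.norm_eq_abs]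
          exact mul_le_mul_of_nonneg_right (hB K) (abs_nonneg _)
        · refine (norm_sum_le _ _).trans (sum_le_sum fun k _ => ?_)
          rw [norm_mul, Complex.norm_real, Real.norm_eq_abs]
          exact mul_le_mul_of_nonneg_right (hB k) (abs_nonneg _)
    _ = _ := by rw [mul_add, mul_sum]

private theorem t0_lip (η : ℝ → ℝ) (hη : IsWt η) :
    ∃ L : ℝ, 0 ≤ L ∧ ∀ x y, |η x - η y| ≤ L * |x - y| := by
  have hc : HasCompactSupport η := by
    refine HasCompactSupport.intro (isCompact_Icc (a := (1 / 8 : ℝ)) (b := 7 / 8)) ?_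
    intro x hx
    by_contra h
    obtain ⟨h1, h2⟩ := hη.supp x h
    exact hx ⟨h1.le, h2.le⟩
  obtain ⟨L, hL⟩ := hη.smooth.lipschitzWith_of_hasCompactSupport hc (by simp)
  refine ⟨L, L.2, fun x y => ?_⟩
  have := hL.dist_le_mul x y
  rwa [Real.dist_eq, Real.dist_eq] at this

private theorem t0_nd (θ : ℝ) (h : |θ| ≤ 1 / 2) : |θ| ≤ nd θ := by
  unfold nd
  by_cases h0 : round θ = 0
  · rw [h0, Int.cast_zero, sub_zero]
  · have h1 : (1 : ℝ) ≤ |((round θ : ℤ) : ℝ)| := by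
      rw [← Int.cast_abs]
      exact_mod_cast Int.one_le_abs h0
    have h2 := abs_sub_abs_le_abs_sub ((round θ : ℤ) : ℝ) θ
    rw [abs_sub_comm] at h2
    linarith

private theorem t0_geo (θ : ℝ) (h0 : θ ≠ 0) (h : |θ| ≤ 1 / 2) (J : ℕ) :
    ‖∑ k ∈ Icc 1 J, ee (θ * k)‖ ≤ 1 / (2 * |θ|) := by
  have h1 := GBQ.thm_Geo 0 J θ (Nat.zero_le J)
  have h2 : Ioc 0 J = Icc 1 J := by
    ext x
    simp only [mem_Ioc, mem_Icc]
    omega
  rw [h2] at h1
  refine h1.trans ?_
  have h3 : 0 < |θ| := abs_pos.2 h0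
  have h4 := t0_nd θ h
  unfold gm
  rw [if_neg (by
    intro h5
    rw [h5] at h4
    linarith)]
  refine (min_le_right _ _).trans ?_
  exact one_div_le_one_div_of_le (by linarith) (by linarith)

theorem thm_T0 : St_T0 := by
  intro η hη
  obtain ⟨L, hL0, hL⟩ := t0_lip η hη
  refine ⟨L + 2, by linarith, fun N m β hN hm hβ hβm => ?_⟩
  have hN0 : (0 : ℝ) < N := by positivity
  have hm0 : (0 : ℝ) < m := by exact_mod_cast hm
  have hβ0 : 0 < |β| := abs_pos.2 hβ
  have hlogN : 0 ≤ Real.log N := Real.log_natCast_nonneg N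
  have hb : 0 < |β| * m := mul_pos hβ0 hm0
  set K := N / m with hK
  rcases Nat.eq_zero_or_pos K with h0 | hKpos
  · rw [h0]
    simp only [show Icc 1 0 = (∅ : Finset ℕ) from rfl, sum_empty, norm_zero]
    exact ⟨by positivity, by positivity⟩
  have hKm : (K : ℝ) * m ≤ N := by
    have := Nat.div_mul_le_self N m
    exact_mod_cast this
  have hKN : (K : ℝ) ≤ N := by
    have := Nat.div_le_self N m
    exact_mod_cast this
  set B : ℝ := 1 / (|β| * m) with hB
  have hB0 : 0 < B := one_div_pos.2 hb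
  have hS : ∀ J : ℕ, ‖∑ k ∈ Icc 1 J, ee (β * (m * k : ℕ))‖ ≤ B := by
    intro J
    have h1 := t0_geo (β * m) (mul_ne_zero hβ hm0.ne') (by
      rw [abs_mul, abs_of_pos hm0]
      exact hβm) J
    have h2 : ∑ k ∈ Icc 1 J, ee (β * (m * k : ℕ)) = ∑ k ∈ Icc 1 J, ee (β * m * k) := by
      refine sum_congr rfl fun k _ => ?_
      congr 1
      push_cast
      ring
    rw [h2]
    refine h1.trans ?_
    rw [abs_mul, abs_of_pos hm0, hB]
    exact one_div_le_one_div_of_le hb (by linarith)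
  set g : ℕ → ℝ := fun k => η (((m * k : ℕ) : ℝ) / N) with hg
  have hg0 : ∀ k, 0 ≤ g k := fun k => hη.nonneg _
  have hg1 : ∀ k, g k ≤ 1 := fun k => hη.le_one _
  have hgd : ∀ k, |g (k + 1) - g k| ≤ L * (m / N) := by
    intro k
    refine (hL _ _).trans (mul_le_mul_of_nonneg_left ?_ hL0)
    have : ((m * (k + 1) : ℕ) : ℝ) / N - ((m * k : ℕ) : ℝ) / N = m / N := by
      push_cast; ring
    rw [this, abs_of_nonneg (by positivity)]
  have hcard : ∑ _k ∈ Ico 1 K, L * ((m : ℝ) / N) ≤ L := by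
    rw [sum_const, Nat.card_Ico, nsmul_eq_mul]
    have h1 : ((K - 1 : ℕ) : ℝ) ≤ K := by exact_mod_cast Nat.sub_le K 1
    have h2 : ((K - 1 : ℕ) : ℝ) * (m / N) ≤ 1 := by
      rw [← mul_div_assoc, div_le_one hN0]
      exact (mul_le_mul_of_nonneg_right h1 hm0.le).trans hKm
    calc ((K - 1 : ℕ) : ℝ) * (L * (m / N)) = L * (((K - 1 : ℕ) : ℝ) * (m / N)) := by ring
      _ ≤ L * 1 := mul_le_mul_of_nonneg_left h2 hL0
      _ = L := mul_one L
  constructor
  · have h1 := t0_abel (fun k => ee (β * (m * k : ℕ))) g B hS K hKpos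
    have h0 : ∑ k ∈ Icc 1 K, ((η (((m * k : ℕ) : ℝ) / N) : ℝ) : ℂ) * ee (β * (m * k : ℕ)) =
        ∑ k ∈ Icc 1 K, ee (β * (m * k : ℕ)) * ((g k : ℝ) : ℂ) := by
      refine sum_congr rfl fun k _ => ?_
      rw [hg, mul_comm]
    rw [h0]
    refine h1.trans ?_
    have h2 : ∑ k ∈ Ico 1 K, |g (k + 1) - g k| ≤ L := (sum_le_sum fun k _ => hgd k).trans hcard
    have h3 : |g K| ≤ 1 := by rw [abs_of_nonneg (hg0 K)]; exact hg1 K
    have h4 : (L + 2) / (|β| * m) = B * (L + 2) := by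
      rw [hB]
      ring
    rw [h4]
    exact mul_le_mul_of_nonneg_left (by linarith) hB0.le
  · have h1 := t0_abel (fun k => ee (β * (m * k : ℕ))) (fun k => Real.log k * g k) B hS K hKpos
    have h0 : ∑ k ∈ Icc 1 K, ((Real.log k : ℝ) : ℂ) *
        (((η (((m * k : ℕ) : ℝ) / N) : ℝ) : ℂ) * ee (β * (m * k : ℕ))) =
        ∑ k ∈ Icc 1 K, ee (β * (m * k : ℕ)) * (((Real.log k * g k : ℝ)) : ℂ) := by
      refine sum_congr rfl fun k _ => ?_
      rw [hg]
      push_cast
      ring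
    rw [h0]
    refine h1.trans ?_
    have hlogK : Real.log K ≤ Real.log N :=
      Real.log_le_log (by exact_mod_cast hKpos) hKN
    have hlogK0 : 0 ≤ Real.log K := Real.log_natCast_nonneg K
    have h3 : |Real.log K * g K| ≤ Real.log N := by
      rw [abs_of_nonneg (mul_nonneg hlogK0 (hg0 K))]
      calc Real.log K * g K ≤ Real.log K * 1 := mul_le_mul_of_nonneg_left (hg1 K) hlogK0
        _ ≤ Real.log N := by linarith
    have htel : ∑ k ∈ Ico 1 K, (Real.log ((k + 1 : ℕ) : ℝ) - Real.log (k : ℝ)) = Real.log K := by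
      rw [sum_Ico_sub (fun k : ℕ => Real.log (k : ℝ)) hKpos]
      simp
    have h4 : ∑ k ∈ Ico 1 K, |Real.log ((k + 1 : ℕ) : ℝ) * g (k + 1) - Real.log k * g k| ≤
        Real.log N + L * Real.log N := by
      have h5 : ∀ k ∈ Ico 1 K, |Real.log ((k + 1 : ℕ) : ℝ) * g (k + 1) - Real.log k * g k| ≤
          (Real.log ((k + 1 : ℕ) : ℝ) - Real.log (k : ℝ)) + Real.log N * (L * (m / N)) := by
        intro k hk
        rw [mem_Ico] at hk
        have hk0 : (0 : ℝ) < k := by exact_mod_cast hk.1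
        have hk1 : (k : ℝ) ≤ ((k + 1 : ℕ) : ℝ) := by push_cast; linarith
        have hl : Real.log (k : ℝ) ≤ Real.log ((k + 1 : ℕ) : ℝ) := Real.log_le_log hk0 hk1
        have hkK : (k : ℝ) ≤ N := by
          have : (k : ℝ) ≤ K := by exact_mod_cast hk.2.le
          exact this.trans hKN
        have hlk : Real.log (k : ℝ) ≤ Real.log N := Real.log_le_log hk0 hkK
        have hlk0 : 0 ≤ Real.log (k : ℝ) := Real.log_natCast_nonneg k
        have e : Real.log ((k + 1 : ℕ) : ℝ) * g (k + 1) - Real.log k * g k =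
            (Real.log ((k + 1 : ℕ) : ℝ) - Real.log k) * g (k + 1) +
              Real.log k * (g (k + 1) - g k) := by ring
        rw [e]
        refine (abs_add_le _ _).trans (add_le_add ?_ ?_)
        · rw [abs_of_nonneg (mul_nonneg (by linarith) (hg0 _))]
          calc _ ≤ (Real.log ((k + 1 : ℕ) : ℝ) - Real.log k) * 1 :=
                mul_le_mul_of_nonneg_left (hg1 _) (by linarith)
            _ = _ := mul_one _
        · rw [abs_mul, abs_of_nonneg hlk0]
          exact mul_le_mul hlk (hgd k) (abs_nonneg _) hlogN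
      refine (sum_le_sum h5).trans ?_
      rw [sum_add_distrib, htel, ← mul_sum]
      have h6 := mul_le_mul_of_nonneg_left hcard hlogN
      linarith
    have h7 : (L + 2) * Real.log N / (|β| * m) =
        B * (Real.log N + (Real.log N + L * Real.log N)) := by
      rw [hB]
      ring
    rw [h7]
    apply mul_le_mul_of_nonneg_left _ hB0.le
    exact add_le_add h3 h4

end Pool.Agent.MV5
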