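import Mathlib
import Pool.Agent.MV5.Defs

set_option autoImplicit false

/-!
# MV5: statements, first part (exponential sums with characters)
-/

namespace Pool.Agent.MV5

open Finset Filter
open Pool.Agent.GBQ (ee lam nd Admissible)
open Pool.Agent.MVX (Chr tent Bm Um prm Win GP)
open Pool.Agent.LIN (PP pz Dens)
open Pool.Agent.MT (IsWt prim)
open Pool.Agent.MVII (TT QQ HH H0 cp cs gp GQ ar PL PM NB BI Bc Md fj rr Per mn wq Sum4 Blk)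

/-- SE.  Separation of variables with an oscillating factor.

Proof.  As `typeII_sep` in BVX/TypeII2.lean, with `h(u) = η(e^u) e(τ e^u)` (smooth, support in
`[log(1/8), log(7/8)]`) and `g = 𝓕 h`.  For the integral: `(1 + 4 π^2 ξ^2) (𝓕 h)(ξ) = 𝓕 (h - h'')(ξ)`, so
`|g(ξ)| ≤ ‖h - h''‖_1 / (1 + 4 π^2 ξ^2)`, and `|h| ≤ 1`, `|h''| ≤ C (1 + |τ|)^2` (the derivatives of `η` are bounded) on an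
interval of bounded length. -/
def St_Se : Prop := ∀ η : ℝ → ℝ, IsWt η → ∃ C : ℝ, 0 < C ∧ ∀ τ : ℝ, ∃ g : ℝ → ℂ,
  MeasureTheory.Integrable g ∧ ∫ ξ, ‖g ξ‖ ≤ C * (1 + |τ|) ^ 2 ∧
  ∀ x : ℝ, 0 < x → ((η x : ℝ) : ℂ) * ee (τ * x) =
    ∫ ξ : ℝ, Complex.exp (((2 * Real.pi * (ξ * Real.log x) : ℝ) : ℂ) * Complex.I) * g ξ

/-- TI.  Sums of a nonprincipal character with the smooth weight and an exponential.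

Proof.  Copy `typeI` in MT/TypeI.lean: the function `k ↦ η(m k/N) e(β m k)` has differences
`≤ (L + 2 π |β| N) m/N` (`|e(β m (k+1)) - e(β m k)| ≤ 2 π |β| m`), so the total variation over `k ≤ N/m` is
`≤ L + 2 π |β| N ≤ C (1 + |β| N)` (the partial summation now with a complex valued function). -/
def St_Ti : Prop := ∀ η : ℝ → ℝ, IsWt η → ∃ C : ℝ, 0 < C ∧ ∀ (N : ℕ) (β : ℝ), 2 ≤ N →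
  ∀ (q : ℕ) [NeZero q] (χ : DirichletCharacter ℂ q), χ ≠ 1 → ∀ m : ℕ, 1 ≤ m →
  ‖∑ k ∈ Icc 1 (N / m), χ ((m * k : ℕ) : ZMod q) * (((η (((m * k : ℕ) : ℝ) / N) : ℝ) : ℂ) *
      ee (β * (m * k : ℕ)))‖ ≤ C * q * (1 + |β| * N) ∧
  ‖∑ k ∈ Icc 1 (N / m), ((Real.log k : ℝ) : ℂ) * (χ ((m * k : ℕ) : ZMod q) *
      (((η (((m * k : ℕ) : ℝ) / N) : ℝ) : ℂ) * ee (β * (m * k : ℕ))))‖ ≤
    C * q * (1 + |β| * N) * Real.log N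

/-- T0.  The same without character, small `β`.

Proof.  `‖∑_{k ≤ t} e(β m k)‖ ≤ 1/(2 nd(β m)) = 1/(2 |β| m)` (`GBQ.St_Geo`, proved as `GBQ.thm_Geo`; `|β| m ≤ 1/2`), then partial
summation with the real functions `η(m k/N)`, `η(m k/N) log k` of total variation `≤ C`, `≤ C log N` exactly as in MT/TypeI.lean. -/
def St_T0 : Prop := ∀ η : ℝ → ℝ, IsWt η → ∃ C : ℝ, 0 < C ∧ ∀ (N m : ℕ) (β : ℝ), 2 ≤ N → 1 ≤ m →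
  β ≠ 0 → |β| * m ≤ 1 / 2 →
  ‖∑ k ∈ Icc 1 (N / m), ((η (((m * k : ℕ) : ℝ) / N) : ℝ) : ℂ) * ee (β * (m * k : ℕ))‖ ≤
    C / (|β| * m) ∧
  ‖∑ k ∈ Icc 1 (N / m), ((Real.log k : ℝ) : ℂ) * (((η (((m * k : ℕ) : ℝ) / N) : ℝ) : ℂ) *
      ee (β * (m * k : ℕ)))‖ ≤ C * Real.log N / (|β| * m)

/-- TT.  Bilinear sums.

Proof.  Copy `typeII2` in BVX/TypeII2.lean with SE for `τ = β N` in place of `typeII_sep` (`x = l k/N`, `τ x = β l k`). -/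
def St_Tt : Prop := ∀ η : ℝ → ℝ, IsWt η → ∃ C : ℝ, 0 < C ∧ ∀ (N R M : ℕ) (β : ℝ), 1 ≤ N → 1 ≤ M →
  ∀ (a b : ℕ → ℂ), ∑ q ∈ Icc 1 R, ∑ χ ∈ prim q,
      ‖∑ l ∈ Ioc M (2 * M), ∑ k ∈ Icc 1 (N / l), a l * b k *
        (χ ((l * k : ℕ) : ZMod q) * (((η (((l * k : ℕ) : ℝ) / N) : ℝ) : ℂ) *
          ee (β * (l * k : ℕ))))‖ ≤
      C * (1 + |β| * N) ^ 2 *
        Real.sqrt (((M : ℝ) + (R : ℝ) ^ 2) * ∑ l ∈ Ioc M (2 * M), ‖a l‖ ^ 2) *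
        Real.sqrt (((N : ℝ) / M + (R : ℝ) ^ 2) * ∑ k ∈ Icc 1 (N / M), ‖b k‖ ^ 2)

/-- LK.  Large conductors.

Proof.  Copy MT/LargeCond.lean (`lc_single`, the identity of Vaughan `MT.vaughan` with `U = V`) and `large_cond2` in
BVX/LargeCond2.lean, with `F(n) = χ(n) (η(n/N) e(β n))`: TI in place of `typeI`, TT in place of `typeII2`
(`1 + |β| N ≤ (1 + |β| N)^2`).  For `q ≥ 2` a primitive character is not principal: `prm q = prim q`. -/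
def St_Lk : Prop := ∀ η : ℝ → ℝ, IsWt η → ∃ C : ℕ, ∀ (N R U : ℕ) (β : ℝ), 3 ≤ N → 1 ≤ R → 1 ≤ U →
  U ≤ N → ∑ q ∈ Ioc R (2 * R), ∑ χ ∈ prm q, ‖Tx η N β ⟨q, χ⟩‖ ≤
    C * (1 + |β| * N) ^ 2 * Real.log N ^ C *
      (N + R * N / Real.sqrt U + R ^ 2 * Real.sqrt N + R ^ 3 * U ^ 2)

/-- HT.  Bilinear sums in mean square, with the exponential kept.

Proof.  Separate `η(l k/N)` only (SE with `τ = 0`, or `typeII_sep`): the sum is `∫ g(ξ) N^{-i..} S_χ(ξ) dξ`,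
`S_χ(ξ) = ∑_l a'_l χ(l) ∑_{k ≤ N/M} b'_k χ(k) e(β l k)`, `|a'| = |a|`, `|b'| = |b|` (for `k > N/l` the weight is `0`).
`‖∫ g S‖^2 ≤ (∫ |g|) ∫ |g| |S|^2`, and by Cauchy `|S_χ|^2 ≤ (∑ |a_l|^2) ∑_l |∑_k b'_k χ(k) e(β l k)|^2`.
For fixed `l`, `q`: `BVX.one_mod` (for `q ≥ 2`, `prm q = prim q`; trivial for `q = 1`):
`∑_χ |.|^2 ≤ ∑_{(c, q) = 1} |∑_k b'_k e(k (c/q + β l))|^2`.  The points `c/q + β l` (`q ≤ R`, `c` reduced modulo `q`, `M < l ≤ 2M`) are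
`|β|`-spaced: for the same fraction `|β| |l - l'| ≤ 1/2`; for different ones `dd ≥ 1/R^2 - |β| M ≥ 1/(2 R^2) ≥ |β|`
(`BVX.farey_spacing`).  `BVX.add_ls` with `δ = |β| ≤ 1`: `≤ 16 (N/M + 1/|β|) ∑ |b_k|^2`. -/
def St_Ht : Prop := ∀ η : ℝ → ℝ, IsWt η → ∃ C : ℝ, 0 < C ∧ ∀ (N R M : ℕ) (β : ℝ), 1 ≤ N → 1 ≤ R →
  1 ≤ M → β ≠ 0 → |β| * M ≤ 1 / (2 * (R : ℝ) ^ 2) → ∀ (a b : ℕ → ℂ),
  ∑ q ∈ Icc 1 R, ∑ χ ∈ prm q,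
      ‖∑ l ∈ Ioc M (2 * M), ∑ k ∈ Icc 1 (N / l), a l * b k *
        (χ ((l * k : ℕ) : ZMod q) * (((η (((l * k : ℕ) : ℝ) / N) : ℝ) : ℂ) *
          ee (β * (l * k : ℕ))))‖ ^ 2 ≤
    C * ((N : ℝ) / M + 1 / |β|) * (∑ l ∈ Ioc M (2 * M), ‖a l‖ ^ 2) *
      ∑ k ∈ Icc 1 (N / M), ‖b k‖ ^ 2

/-- HB.  Small conductors, `β` away from `0`, mean square.

Proof.  `MT.vaughan` with `U = V = ⌊K^{1/5}⌋₊`, `F(n) = χ(n) (η(n/K) e(β n))`; `L = log K`.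
(1) `n ≤ V`: `≤ 2 V L`.
(2) the two sums over `m ≤ U` and over `m ≤ U`, `l ≤ V`, `χ ≠ 1` (`r ≥ 2`): by TI `≤ C U V L^2 R (1 + |β| K) ≤ K^{0.45}`
(`R ≤ K^{1/50}`, `|β| K ≤ K^{1/100}`); mean square `≤ R^2 K^{0.9} ≤ K^{1.9} ≤ K/|β|`.
(3) the same for `r = 1`: by T0 (`|β| m l ≤ K^{-99/100} K^{2/5} ≤ 1/2`) `≤ ∑_{m, l} Λ(l) C L/(|β| m l) ≤ C L^4/|β|`; square
`≤ C L^8/β^2 ≤ C L^8 K/|β|` (`1/|β| ≤ K`).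
(4) the last sum: dyadic blocks `M = V 2^i`, `i < J ≤ 3 L`; a block with `K/M ≤ U` vanishes (`MT.cU_eq_zero`), so `M ≤ K/U ≤ 2 K^{4/5}` and
`|β| M ≤ 2 K^{-19/100} ≤ 1/(2 R^2)`.  HT with `a = Λ`, `b = cU U` (`MT.cU_abs_le`, `MT.sum_divisors_sq`; see `lc2_block`):
`≤ C (K/M + 1/|β|) (M L^2) (K/M) L^3 ≤ 2 C L^5 K/|β|` (`K/M ≤ 2 K^{4/5} ≤ 2/|β|`).  Cauchy over the `J` blocks. -/
def St_Hb : Prop := ∀ η : ℝ → ℝ, IsWt η → ∃ C : ℕ, ∀ᶠ K : ℕ in atTop, ∀ (R : ℕ) (β : ℝ),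
  (R : ℝ) ≤ (K : ℝ) ^ (1 / 50 : ℝ) → 1 / (K : ℝ) ≤ |β| → |β| ≤ (K : ℝ) ^ (-(99 / 100 : ℝ)) →
  ∑ r ∈ Icc 1 R, ∑ χ ∈ prm r, ‖Tx η K β ⟨r, χ⟩‖ ^ 2 ≤ C * Real.log K ^ C * (K / |β|)

/-- LD.  Large conductors with weights.

Proof.  `w_r = (r, q)/(r √q)` satisfies `w_r ≤ 1/√r` (`(r,q)^2 ≤ r q`) and `w_r ≤ √q/r` (`(r,q) ≤ q`).  Cover `(R₁, R]` by the blocks
`(R₁ 2^i, R₁ 2^{i+1}]` with `R₁ 2^i ≤ R`, at most `3 log N` of them (`R ≤ N`); in the block `R' = R₁ 2^i`: LK, the term `N` with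
`w ≤ 1/√R' ≤ 1/√R₁`, the other terms with `w ≤ √q/R'`. -/
def St_Ld : Prop := ∀ η : ℝ → ℝ, IsWt η → ∃ C : ℕ, ∀ (N R₁ R q U : ℕ) (β : ℝ), 3 ≤ N → 1 ≤ R₁ →
  R ≤ N → 1 ≤ q → 1 ≤ U → U ≤ N →
  ∑ r ∈ Ioc R₁ R, ∑ χ ∈ prm r, ((Nat.gcd r q : ℝ) / (r * Real.sqrt q)) * ‖Tx η N β ⟨r, χ⟩‖ ≤
    C * (1 + |β| * N) ^ 2 * Real.log N ^ C *
      (N / Real.sqrt R₁ + Real.sqrt q * (N / Real.sqrt U + R * Real.sqrt N + R ^ 2 * U ^ 2))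

/-- LW.  Mean square of the weights.

Proof.  `(1/q) ∑_{r ≤ R} (r,q)^2/r ≤ (1/q) ∑_{g ∣ q} g^2 ∑_{r ≤ R, g ∣ r} 1/r ≤ ∑_{g ∣ q} (g/q) (1 + log R)`. -/
def St_Lw : Prop := ∀ R q : ℕ, 1 ≤ q →
  ∑ r ∈ Icc 1 R, (r : ℝ) * ((Nat.gcd r q : ℝ) / (r * Real.sqrt q)) ^ 2 ≤
    q.divisors.card * (1 + Real.log R)

/-- LS.  The sum over all characters, `K = X/(8m)`.

Proof.  `T = TT δ X`, `Q = QQ δ X`, `h = HH δ X`, `ε = δ/10^4`; `X^{1-δ/1000}/9 ≤ K ≤ X`; `0 ≤ fj ≤ 1` (`MVII.St_Fj`, proved as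
`MVII.thm_Fj`), `w_r = (r,q)/(r √q) ≤ 1`, `#prm r ≤ r`, `‖Tx‖ ≤ K log K` (`|η| ≤ 1`, `Λ ≤ log`).
(A) `|β| ≤ X^{-1+δ/16}`, `r ≤ T`: `|1 - fj| ≤ 2 π h |β| ≤ X^{-9δ}` (`MVII.St_Fj`): total `≤ T^2 X^{1+ε-9δ}`.
(B) `|β| ≤ X^{-1+δ/16}`, `r > T`: LD with `R₁ = T` (`≥ X^δ/2`), `U = ⌊X^{1/1000}⌋₊`: `(1+|β|K)^2 ≤ 4 X^{δ/8}`,
`K/√T ≤ 2 X^{1-δ/2}`, `√q ≤ X^{15δ}`, `K/√U ≤ 2 X^{1-1/2000}`, `R √K ≤ X^{0.996}`, `R^2 U^2 ≤ X^{0.992+0.002}`: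
total `≤ X^{1-δ/2+δ/8+2ε}`.
(C) `|β| > X^{-1+δ/16}`, `r > R₁ = ⌊X^{60δ}⌋₊`: LD; `(1+|β|K)^2 ≤ 4 X^{26δ}`: total `≤ X^{26δ+ε} (2 X^{1-30δ} + X^{15δ} (X^{1-1/2000} + ...))
≤ X^{1-3δ}` (`δ ≤ 10^{-6}`).
(D) `|β| > X^{-1+δ/16}`, `r ≤ R₁`: `|1 - ..| ≤ 1`, Cauchy, LW (`τ(q) ≤ q ^ .. ≤ X^ε`: `MVII.St_Ep`, proved as `MVII.thm_Ep`), `#prm r ≤ r`
and HB for `K` (`R₁ ≤ K^{1/50}`; `1/K ≤ 9 X^{-1+δ/1000} ≤ |β|`, `|β| ≤ X^{-1+13δ} ≤ K^{-99/100}`):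
`≤ X^ε (K/|β|)^{1/2} ≤ X^{1-δ/32+ε}`. -/
def St_Ls : Prop := ∀ η : ℝ → ℝ, IsWt η → ∀ δ : ℝ, 0 < δ → δ ≤ 1 / 10 ^ 6 → ∀ᶠ X : ℕ in atTop,
  ∀ (m q R : ℕ) (β : ℝ), 1 ≤ m → (m : ℝ) ≤ (X : ℝ) ^ (δ / 1000) → 1 ≤ q → q ≤ QQ δ X →
  (R : ℝ) ≤ (X : ℝ) ^ (496 / 1000 : ℝ) → |β| ≤ (X : ℝ) ^ (-1 + 13 * δ) →
  ∑ r ∈ Icc 1 R, ∑ χ ∈ prm r, ((Nat.gcd r q : ℝ) / (r * Real.sqrt q)) *
    (‖Tx η (KK m X) β ⟨r, χ⟩‖ * |1 - (if r ≤ TT δ X then fj (HH δ X) β else 0)|) ≤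
    (X : ℝ) ^ (1 - δ / 35)

end Pool.Agent.MV5
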