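import Mathlib
import Pool.Agent.MV5.StA
import Pool.Agent.MT.LDeriv
import Pool.Agent.GBQ.Basic

set_option autoImplicit false

/-!
# MV5.Ti: sums of a nonprincipal character with the smooth weight and an exponential

Summation by parts as in MT/TypeI.lean, with a complex valued function.
-/

namespace Pool.Agent.MV5

open Finset Filter
open Pool.Agent.GBQ (ee lam nd Admissible)
open Pool.Agent.MT (IsWt prim)

private theorem ti_ee (x y : ℝ) : ‖ee x - ee y‖ ≤ 2 * Real.pi * |x - y| := by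
  have h1 : ee x - ee y = (ee (x - y) - 1) * ee y := by
    have : ee x = ee (x - y) * ee y := by rw [← GBQ.ee_add, sub_add_cancel]
    rw [this]; ring
  rw [h1, norm_mul, GBQ.ee_norm, mul_one]
  have h2 : ee (x - y) = Complex.exp (Complex.I * ((2 * Real.pi * (x - y) : ℝ) : ℂ)) := by
    unfold GBQ.ee
    rw [mul_comm]
  rw [h2]
  refine Real.norm_exp_I_mul_ofReal_sub_one_le.trans ?_
  rw [Real.norm_eq_abs, abs_mul, abs_of_pos (by positivity)]

private theorem ti_abel_id (f : ℕ → ℂ) (g : ℕ → ℂ) (K : ℕ) (hK : 1 ≤ K) :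
    ∑ k ∈ Icc 1 K, f k * g k = (∑ k ∈ Icc 1 K, f k) * g K -
      ∑ k ∈ Ico 1 K, (∑ j ∈ Icc 1 k, f j) * (g (k + 1) - g k) := by
  induction K, hK using Nat.le_induction with
  | base => simp
  | succ K hK ih =>
    rw [sum_Icc_succ_top (by omega), sum_Icc_succ_top (by omega), sum_Ico_succ_top hK, ih]
    ring

private theorem ti_abel (f : ℕ → ℂ) (g : ℕ → ℂ) (B : ℝ) (hB : ∀ K, ‖∑ k ∈ Icc 1 K, f k‖ ≤ B)
    (K : ℕ) (hK : 1 ≤ K) :
    ‖∑ k ∈ Icc 1 K, f k * g k‖ ≤
      B * (‖g K‖ + ∑ k ∈ Ico 1 K, ‖g (k + 1) - g k‖) := by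
  rw [ti_abel_id f g K hK]
  have hB0 : 0 ≤ B := (norm_nonneg _).trans (hB 0)
  calc _ ≤ ‖(∑ k ∈ Icc 1 K, f k) * g K‖ +
        ‖∑ k ∈ Ico 1 K, (∑ j ∈ Icc 1 k, f j) * (g (k + 1) - g k)‖ := norm_sub_le _ _
    _ ≤ B * ‖g K‖ + ∑ k ∈ Ico 1 K, B * ‖g (k + 1) - g k‖ := by
        apply add_le_add
        · rw [norm_mul]
          exact mul_le_mul_of_nonneg_right (hB K) (norm_nonneg _)
        · refine (norm_sum_le _ _).trans (sum_le_sum fun k _ => ?_)
          rw [norm_mul]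
          exact mul_le_mul_of_nonneg_right (hB k) (norm_nonneg _)
    _ = _ := by rw [mul_add, mul_sum]

private theorem ti_lip (η : ℝ → ℝ) (hη : IsWt η) :
    ∃ L : ℝ, 0 ≤ L ∧ ∀ x y, |η x - η y| ≤ L * |x - y| := by
  have hc : HasCompactSupport η := by
    refine HasCompactSupport.intro (isCompact_Icc (a := (1 / 8 : ℝ)) (b := 7 / 8)) ?_
    intro x hx
    by_contra h
    obtain ⟨h1, h2⟩ := hη.supp x h
    exact hx ⟨h1.le, h2.le⟩
  obtain ⟨L, hL⟩ := hη.smooth.lipschitzWith_of_hasCompactSupport hc (by simp)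
  refine ⟨L, L.2, fun x y => ?_⟩
  have := hL.dist_le_mul x y
  rwa [Real.dist_eq, Real.dist_eq] at this

theorem thm_Ti : St_Ti := by
  intro η hη
  obtain ⟨L, hL0, hL⟩ := ti_lip η hη
  have hpi := Real.pi_pos
  refine ⟨L + 2 + 2 * Real.pi, by linarith, fun N β hN q _ χ hχ m hm => ?_⟩
  have hN0 : (0 : ℝ) < N := by positivity
  have hm0 : (0 : ℝ) < m := by exact_mod_cast hm
  have hq0 : (0 : ℝ) ≤ q := Nat.cast_nonneg q
  have hlogN : 0 ≤ Real.log N := Real.log_natCast_nonneg N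
  have hβ : 0 ≤ |β| * N := by positivity
  set K := N / m with hK
  rcases Nat.eq_zero_or_pos K with h0 | hKpos
  · rw [h0]
    simp only [show Icc 1 0 = (∅ : Finset ℕ) from rfl, sum_empty, norm_zero]
    exact ⟨by positivity, by positivity⟩
  have hKm : (K : ℝ) * m ≤ N := by
    have := Nat.div_mul_le_self N m
    exact_mod_cast this
  have hKN : (K : ℝ) ≤ N := by
    have := Nat.div_le_self N m
    exact_mod_cast this
  have hS : ∀ J : ℕ, ‖∑ k ∈ Icc 1 J, χ ((m * k : ℕ) : ZMod q)‖ ≤ (q : ℝ) := by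
    intro J
    have h1 : ∑ k ∈ Icc 1 J, χ ((m * k : ℕ) : ZMod q) =
        χ (m : ZMod q) * ∑ k ∈ Icc 1 J, χ ((k : ℕ) : ZMod q) := by
      rw [mul_sum]
      refine sum_congr rfl fun k _ => ?_
      rw [Nat.cast_mul, map_mul]
    have := MT.char_sum_le χ hχ 0 J
    have h2 : Ioc 0 J = Icc 1 J := by
      ext x; simp only [mem_Ioc, mem_Icc]; omega
    rw [h2] at this
    rw [h1, norm_mul]
    calc _ ≤ 1 * (q : ℝ) := mul_le_mul (DirichletCharacter.norm_le_one χ _) this (norm_nonneg _)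
          zero_le_one
      _ = q := one_mul _
  obtain ⟨g, hg⟩ : ∃ g : ℕ → ℂ, g = fun k =>
      ((η (((m * k : ℕ) : ℝ) / N) : ℝ) : ℂ) * ee (β * (m * k : ℕ)) := ⟨_, rfl⟩
  have hg1 : ∀ k, ‖g k‖ ≤ 1 := by
    intro k
    rw [hg]
    simp only
    rw [norm_mul, GBQ.ee_norm, mul_one, Complex.norm_real, Real.norm_eq_abs,
      abs_of_nonneg (hη.nonneg _)]
    exact hη.le_one _
  set D : ℝ := L + 2 * Real.pi * (|β| * N) with hD
  have hD0 : 0 ≤ D := by positivity
  have hgd : ∀ k, ‖g (k + 1) - g k‖ ≤ D * (m / N) := by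
    intro k
    have e1 : g (k + 1) - g k =
        (((η (((m * (k + 1) : ℕ) : ℝ) / N) - η (((m * k : ℕ) : ℝ) / N) : ℝ)) : ℂ) *
          ee (β * (m * (k + 1) : ℕ)) + ((η (((m * k : ℕ) : ℝ) / N) : ℝ) : ℂ) *
          (ee (β * (m * (k + 1) : ℕ)) - ee (β * (m * k : ℕ))) := by
      rw [hg]
      simp only
      push_cast
      ring
    rw [e1]
    refine (norm_add_le _ _).trans ?_
    have h1 : ((m * (k + 1) : ℕ) : ℝ) / N - ((m * k : ℕ) : ℝ) / N = m / N := by
      push_cast; ring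
    have h2 : β * (m * (k + 1) : ℕ) - β * (m * k : ℕ) = β * m := by
      push_cast; ring
    have h3 := hL (((m * (k + 1) : ℕ) : ℝ) / N) (((m * k : ℕ) : ℝ) / N)
    have h4 := ti_ee (β * (m * (k + 1) : ℕ)) (β * (m * k : ℕ))
    rw [h1, abs_of_nonneg (by positivity : (0 : ℝ) ≤ m / N)] at h3
    rw [h2, abs_mul, abs_of_pos hm0] at h4
    rw [norm_mul, norm_mul, GBQ.ee_norm, mul_one, Complex.norm_real, Real.norm_eq_abs,
      Complex.norm_real, Real.norm_eq_abs, abs_of_nonneg (hη.nonneg (((m * k : ℕ) : ℝ) / N))]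
    have h5 : η (((m * k : ℕ) : ℝ) / N) *
        ‖ee (β * (m * (k + 1) : ℕ)) - ee (β * (m * k : ℕ))‖ ≤ 1 * (2 * Real.pi * (|β| * m)) :=
      mul_le_mul (hη.le_one _) h4 (norm_nonneg _) zero_le_one
    have h6 : D * (m / N) = L * (m / N) + 1 * (2 * Real.pi * (|β| * m)) := by
      rw [hD]
      field_simp
    rw [h6]
    exact add_le_add h3 h5
  have hcard : ∑ _k ∈ Ico 1 K, D * ((m : ℝ) / N) ≤ D := by
    rw [sum_const, Nat.card_Ico, nsmul_eq_mul]
    have h1 : ((K - 1 : ℕ) : ℝ) ≤ K := by exact_mod_cast Nat.sub_le K 1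
    have h2 : ((K - 1 : ℕ) : ℝ) * (m / N) ≤ 1 := by
      rw [← mul_div_assoc, div_le_one hN0]
      exact (mul_le_mul_of_nonneg_right h1 hm0.le).trans hKm
    calc ((K - 1 : ℕ) : ℝ) * (D * (m / N)) = D * (((K - 1 : ℕ) : ℝ) * (m / N)) := by ring
      _ ≤ D * 1 := mul_le_mul_of_nonneg_left h2 hD0
      _ = D := mul_one D
  have hC : 2 + D ≤ (L + 2 + 2 * Real.pi) * (1 + |β| * N) := by
    rw [hD]
    nlinarith [mul_nonneg hL0 hβ, mul_nonneg hpi.le hβ]
  constructor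
  · have h0 : ∑ k ∈ Icc 1 K, χ ((m * k : ℕ) : ZMod q) *
        (((η (((m * k : ℕ) : ℝ) / N) : ℝ) : ℂ) * ee (β * (m * k : ℕ))) =
        ∑ k ∈ Icc 1 K, χ ((m * k : ℕ) : ZMod q) * g k := by
      rw [hg]
    rw [h0]
    refine (ti_abel (fun k => χ ((m * k : ℕ) : ZMod q)) g q hS K hKpos).trans ?_
    have h2 : ∑ k ∈ Ico 1 K, ‖g (k + 1) - g k‖ ≤ D := (sum_le_sum fun k _ => hgd k).trans hcard
    have h3 : ‖g K‖ ≤ 1 := hg1 K
    have h4 : (L + 2 + 2 * Real.pi) * q * (1 + |β| * N) =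
        q * ((L + 2 + 2 * Real.pi) * (1 + |β| * N)) := by ring
    rw [h4]
    exact mul_le_mul_of_nonneg_left (by linarith) hq0
  · have h1 := ti_abel (fun k => χ ((m * k : ℕ) : ZMod q)) (fun k => ((Real.log k : ℝ) : ℂ) * g k)
      q hS K hKpos
    have h0 : ∑ k ∈ Icc 1 K, ((Real.log k : ℝ) : ℂ) * (χ ((m * k : ℕ) : ZMod q) *
        (((η (((m * k : ℕ) : ℝ) / N) : ℝ) : ℂ) * ee (β * (m * k : ℕ)))) =
        ∑ k ∈ Icc 1 K, χ ((m * k : ℕ) : ZMod q) * (((Real.log k : ℝ) : ℂ) * g k) := by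
      rw [hg]
      exact sum_congr rfl fun k _ => by ring
    rw [h0]
    refine h1.trans ?_
    have hlogK : Real.log K ≤ Real.log N :=
      Real.log_le_log (by exact_mod_cast hKpos) hKN
    have hlogK0 : 0 ≤ Real.log K := Real.log_natCast_nonneg K
    have h3 : ‖((Real.log K : ℝ) : ℂ) * g K‖ ≤ Real.log N := by
      rw [norm_mul, Complex.norm_real, Real.norm_eq_abs, abs_of_nonneg hlogK0]
      calc Real.log K * ‖g K‖ ≤ Real.log K * 1 := mul_le_mul_of_nonneg_left (hg1 K) hlogK0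
        _ ≤ Real.log N := by linarith
    have htel : ∑ k ∈ Ico 1 K, (Real.log ((k + 1 : ℕ) : ℝ) - Real.log (k : ℝ)) = Real.log K := by
      rw [sum_Ico_sub (fun k : ℕ => Real.log (k : ℝ)) hKpos]
      simp
    have h4 : ∑ k ∈ Ico 1 K, ‖((Real.log ((k + 1 : ℕ) : ℝ) : ℝ) : ℂ) * g (k + 1) -
        ((Real.log (k : ℝ) : ℝ) : ℂ) * g k‖ ≤ Real.log N + D * Real.log N := by
      have h5 : ∀ k ∈ Ico 1 K, ‖((Real.log ((k + 1 : ℕ) : ℝ) : ℝ) : ℂ) * g (k + 1) -
          ((Real.log (k : ℝ) : ℝ) : ℂ) * g k‖ ≤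
          (Real.log ((k + 1 : ℕ) : ℝ) - Real.log (k : ℝ)) + Real.log N * (D * (m / N)) := by
        intro k hk
        rw [mem_Ico] at hk
        have hk0 : (0 : ℝ) < k := by exact_mod_cast hk.1
        have hk1 : (k : ℝ) ≤ ((k + 1 : ℕ) : ℝ) := by push_cast; linarith
        have hl : Real.log (k : ℝ) ≤ Real.log ((k + 1 : ℕ) : ℝ) := Real.log_le_log hk0 hk1
        have hkK : (k : ℝ) ≤ N := by
          have : (k : ℝ) ≤ K := by exact_mod_cast hk.2.le
          exact this.trans hKN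
        have hlk : Real.log (k : ℝ) ≤ Real.log N := Real.log_le_log hk0 hkK
        have hlk0 : 0 ≤ Real.log (k : ℝ) := Real.log_natCast_nonneg k
        have e : ((Real.log ((k + 1 : ℕ) : ℝ) : ℝ) : ℂ) * g (k + 1) -
            ((Real.log (k : ℝ) : ℝ) : ℂ) * g k =
            ((Real.log ((k + 1 : ℕ) : ℝ) - Real.log k : ℝ) : ℂ) * g (k + 1) +
              ((Real.log k : ℝ) : ℂ) * (g (k + 1) - g k) := by
          push_cast
          ring
        rw [e]
        refine (norm_add_le _ _).trans (add_le_add ?_ ?_)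
        · rw [norm_mul, Complex.norm_real, Real.norm_eq_abs, abs_of_nonneg (by linarith)]
          calc _ ≤ (Real.log ((k + 1 : ℕ) : ℝ) - Real.log k) * 1 :=
                mul_le_mul_of_nonneg_left (hg1 _) (by linarith)
            _ = _ := mul_one _
        · rw [norm_mul, Complex.norm_real, Real.norm_eq_abs, abs_of_nonneg hlk0]
          exact mul_le_mul hlk (hgd k) (norm_nonneg _) hlogN
      refine (sum_le_sum h5).trans ?_
      rw [sum_add_distrib, htel, ← mul_sum]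
      have h6 := mul_le_mul_of_nonneg_left hcard hlogN
      linarith
    have h7 : (L + 2 + 2 * Real.pi) * q * (1 + |β| * N) * Real.log N =
        q * ((L + 2 + 2 * Real.pi) * (1 + |β| * N) * Real.log N) := by ring
    rw [h7]
    apply mul_le_mul_of_nonneg_left _ hq0
    have h8 := mul_le_mul_of_nonneg_right hC hlogN
    have h9 : (2 + D) * Real.log N = Real.log N + (Real.log N + D * Real.log N) := by ring
    rw [h9] at h8
    exact (add_le_add h3 h4).trans h8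

end Pool.Agent.MV5
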