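import Pool.Agent.MV5.StC

set_option autoImplicit false

/-!
# MV5, module TR: sums over triples of subsets are products
-/

namespace Pool.Agent.MV5

open Finset

theorem tr_one (P : Finset ℕ) (G : ℕ → Bool → ℝ) :
    ∑ U ∈ P.powerset, ∏ p ∈ P, G p (decide (p ∈ U)) = ∏ p ∈ P, ∑ u : Bool, G p u := by
  classical
  have h1 : ∀ p ∈ P, ∑ u : Bool, G p u = G p true + G p false := fun p _ => by
    rw [Fintype.sum_bool]
  rw [Finset.prod_congr rfl h1, Finset.prod_add]
  refine Finset.sum_congr rfl fun U hU => ?_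
  rw [Finset.mem_powerset] at hU
  rw [← Finset.prod_sdiff hU, mul_comm]
  congr 1
  · refine Finset.prod_congr rfl fun p hp => ?_
    rw [decide_eq_true hp]
  · refine Finset.prod_congr rfl fun p hp => ?_
    rw [decide_eq_false (Finset.mem_sdiff.1 hp).2]

theorem thm_Tr : St_Tr := by
  intro P F
  have h1 : ∀ U V : Finset ℕ, ∑ W ∈ P.powerset,
      ∏ p ∈ P, F p (decide (p ∈ U)) (decide (p ∈ V)) (decide (p ∈ W)) =
      ∏ p ∈ P, ∑ w : Bool, F p (decide (p ∈ U)) (decide (p ∈ V)) w := fun U V =>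
    tr_one P fun p w => F p (decide (p ∈ U)) (decide (p ∈ V)) w
  have h2 : ∀ U : Finset ℕ, ∑ V ∈ P.powerset,
      ∏ p ∈ P, ∑ w : Bool, F p (decide (p ∈ U)) (decide (p ∈ V)) w =
      ∏ p ∈ P, ∑ v : Bool, ∑ w : Bool, F p (decide (p ∈ U)) v w := fun U =>
    tr_one P fun p v => ∑ w : Bool, F p (decide (p ∈ U)) v w
  have h3 := tr_one P fun p u => ∑ v : Bool, ∑ w : Bool, F p u v w
  rw [← h3]
  refine Finset.sum_congr rfl fun U _ => ?_
  rw [← h2 U]
  refine Finset.sum_congr rfl fun V _ => ?_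
  exact h1 U V

end Pool.Agent.MV5
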