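import Mathlib
import Pool.Agent.MV5.StB
import Pool.Agent.MV5.StD
import Pool.Agent.MVII.Bl
import Pool.Agent.MVII.Ep
import Pool.Agent.MVII.Re
import Pool.Agent.MVII.W0
import Pool.Agent.MVII.Mn

set_option autoImplicit false

/-!
# MV5: W0, in a short interval the local means can be taken constant
-/

namespace Pool.Agent.MV5

open Finset Filter
open Pool.Agent.GBQ (ee lam nd Admissible)
open Pool.Agent.MVX (Chr tent Bm Um prm Win GP)
open Pool.Agent.LIN (PP pz Dens)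
open Pool.Agent.MT (IsWt)
open Pool.Agent.MVII (TT QQ HH H0 cp cs gp GQ ar PL PM NB BI Bc Md fj rr Per mn wq Sum4 Blk loc
  SolY SolN)

theorem w0_smul (z : ℂ) (b : Chr → ℂ) (T Q : ℕ) (x : ℤ) :
    PM (fun c => z * b c) T Q x = z * PM b T Q x := by
  unfold PM
  rw [Finset.mul_sum]
  refine Finset.sum_congr rfl fun r _ => ?_
  rw [Finset.mul_sum]
  refine Finset.sum_congr rfl fun χ _ => ?_
  ring

theorem w0_NBsmul (z : ℝ) (hz0 : 0 ≤ z) (hz : z ≤ 1) (b : Chr → ℂ) (T : ℕ) (M : ℝ)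
    (hM : NB b T ≤ M) : NB (fun c => (z : ℂ) * b c) T ≤ M := by
  refine le_trans ?_ hM
  unfold NB
  refine Finset.sum_le_sum fun r _ => Finset.sum_le_sum fun χ _ => ?_
  rw [norm_mul, Complex.norm_real, Real.norm_of_nonneg hz0]
  exact mul_le_of_le_one_left (norm_nonneg _) hz

/-- the numbers -/
theorem w0_num (δ C₁ : ℝ) (X : ℕ) (T m L h K : ℝ) (hδ : 0 < δ) (hC₁ : 0 < C₁) (hX : 2 ≤ X)
    (hT0 : 0 ≤ T) (hm0 : 0 ≤ m) (hL0 : 0 ≤ L) (hK : 0 < K)
    (hh : (X : ℝ) ^ (1 - 10 * δ) ≤ h) (hh2 : h ≤ 2 * (X : ℝ) ^ (1 - 10 * δ))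
    (hT : T ≤ (X : ℝ) ^ δ) (hm : m ≤ (X : ℝ) ^ (δ / 1000)) (hL : L ≤ (X : ℝ) ^ (1 - 20 * δ))
    (hKX : (X : ℝ) ^ (1 - δ / 1000) ≤ 9 * K)
    (hlog : Real.log (2 * X) ≤ (X : ℝ) ^ (δ / 10))
    (hbig : 8 * (28 * C₁ + 4) * (X : ℝ) ^ (-(7 * δ)) ≤ (X : ℝ) ^ (-(6 * δ))) :
    2 * (4 * (X : ℝ) ^ (δ / 10)) * (T ^ 2 * (C₁ * ((h + L) / K + L / h) * Real.log (2 * X) +
      4 * (m * L) * Real.log (2 * X) / h) * (X : ℝ) ^ (δ / 10)) * (X : ℝ) ^ (δ / 10) ≤
      (X : ℝ) ^ (-(6 * δ)) := by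
  have hX2 : (2 : ℝ) ≤ X := by exact_mod_cast hX
  have hX0 : (0 : ℝ) < X := by linarith
  have hX1 : (1 : ℝ) ≤ X := by linarith
  have hl0 : 0 ≤ Real.log (2 * X) := Real.log_nonneg (by linarith)
  have hhp : 0 < (X : ℝ) ^ (1 - 10 * δ) := Real.rpow_pos_of_pos hX0 _
  have hh0 : 0 < h := lt_of_lt_of_le hhp hh
  have hE0 : 0 ≤ (X : ℝ) ^ (δ / 10) := Real.rpow_nonneg hX0.le _
  -- the quotients
  have hLh : L / h ≤ (X : ℝ) ^ (-(10 * δ)) := by
    rw [div_le_iff₀ hh0]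
    calc L ≤ (X : ℝ) ^ (1 - 20 * δ) := hL
      _ = (X : ℝ) ^ (-(10 * δ)) * (X : ℝ) ^ (1 - 10 * δ) := by
        rw [← Real.rpow_add hX0]; congr 1; ring
      _ ≤ _ := mul_le_mul_of_nonneg_left hh (Real.rpow_nonneg hX0.le _)
  set G := (X : ℝ) ^ (-(999 / 100 * δ)) with hG
  have hG0 : 0 ≤ G := Real.rpow_nonneg hX0.le _
  have hLh' : L / h ≤ G :=
    hLh.trans (Real.rpow_le_rpow_of_exponent_le hX1 (by linarith))
  have hmLh : m * L / h ≤ G := by
    rw [mul_div_assoc]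
    calc m * (L / h) ≤ (X : ℝ) ^ (δ / 1000) * (X : ℝ) ^ (-(10 * δ)) :=
          mul_le_mul hm hLh (by positivity) (Real.rpow_nonneg hX0.le _)
      _ = (X : ℝ) ^ (δ / 1000 + -(10 * δ)) := (Real.rpow_add hX0 _ _).symm
      _ ≤ G := Real.rpow_le_rpow_of_exponent_le hX1 (by linarith)
  have hLX : L ≤ (X : ℝ) ^ (1 - 10 * δ) :=
    hL.trans (Real.rpow_le_rpow_of_exponent_le hX1 (by linarith))
  have hhK : (h + L) / K ≤ 27 * G := by
    rw [div_le_iff₀ hK]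
    have h1 : (X : ℝ) ^ (1 - 10 * δ) ≤ G * (X : ℝ) ^ (1 - δ / 1000) := by
      rw [hG, ← Real.rpow_add hX0]
      exact Real.rpow_le_rpow_of_exponent_le hX1 (by linarith)
    have h2 := mul_le_mul_of_nonneg_left hKX hG0
    linarith
  have hT2 : T ^ 2 ≤ (X : ℝ) ^ (2 * δ) := by
    calc T ^ 2 ≤ ((X : ℝ) ^ δ) ^ 2 := pow_le_pow_left₀ hT0 hT 2
      _ = _ := by rw [← Real.rpow_natCast, ← Real.rpow_mul hX0.le]; congr 1; push_cast; ring
  have hM : C₁ * ((h + L) / K + L / h) * Real.log (2 * X) + 4 * (m * L) * Real.log (2 * X) / h ≤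
      (28 * C₁ + 4) * G * (X : ℝ) ^ (δ / 10) := by
    have e1 : C₁ * ((h + L) / K + L / h) * Real.log (2 * X) ≤
        C₁ * (28 * G) * (X : ℝ) ^ (δ / 10) := by
      refine mul_le_mul (mul_le_mul_of_nonneg_left (by linarith) hC₁.le) hlog hl0 (by positivity)
    have e2 : 4 * (m * L) * Real.log (2 * X) / h = 4 * (m * L / h) * Real.log (2 * X) := by
      ring
    have e3 : 4 * (m * L / h) * Real.log (2 * X) ≤ 4 * G * (X : ℝ) ^ (δ / 10) :=
      mul_le_mul (by linarith) hlog hl0 (by positivity)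
    rw [e2]
    calc _ ≤ C₁ * (28 * G) * (X : ℝ) ^ (δ / 10) + 4 * G * (X : ℝ) ^ (δ / 10) := add_le_add e1 e3
      _ = _ := by ring
  have hM0 : 0 ≤ C₁ * ((h + L) / K + L / h) * Real.log (2 * X) +
      4 * (m * L) * Real.log (2 * X) / h := by positivity
  calc 2 * (4 * (X : ℝ) ^ (δ / 10)) * (T ^ 2 * (C₁ * ((h + L) / K + L / h) * Real.log (2 * X) +
        4 * (m * L) * Real.log (2 * X) / h) * (X : ℝ) ^ (δ / 10)) * (X : ℝ) ^ (δ / 10)
      ≤ 2 * (4 * (X : ℝ) ^ (δ / 10)) * ((X : ℝ) ^ (2 * δ) *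
          ((28 * C₁ + 4) * G * (X : ℝ) ^ (δ / 10)) * (X : ℝ) ^ (δ / 10)) *
            (X : ℝ) ^ (δ / 10) := by
        refine mul_le_mul_of_nonneg_right ?_ hE0
        refine mul_le_mul_of_nonneg_left ?_ (by positivity)
        refine mul_le_mul_of_nonneg_right ?_ hE0
        exact mul_le_mul hT2 hM hM0 (Real.rpow_nonneg hX0.le _)
    _ = 8 * (28 * C₁ + 4) * ((X : ℝ) ^ (2 * δ) * G * ((X : ℝ) ^ (δ / 10)) ^ 4) := by ring
    _ = 8 * (28 * C₁ + 4) * (X : ℝ) ^ (2 * δ + -(999 / 100 * δ) + δ / 10 * 4) := by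
        have e2 : ((X : ℝ) ^ (δ / 10)) ^ 4 = (X : ℝ) ^ (δ / 10 * 4) := by
          rw [← Real.rpow_natCast, ← Real.rpow_mul hX0.le]
          norm_num
        rw [e2, hG, ← Real.rpow_add hX0, ← Real.rpow_add hX0]
    _ ≤ 8 * (28 * C₁ + 4) * (X : ℝ) ^ (-(7 * δ)) := by
        refine mul_le_mul_of_nonneg_left ?_ (by positivity)
        exact Real.rpow_le_rpow_of_exponent_le hX1 (by linarith)
    _ ≤ _ := hbig

theorem thm_W0 (h1 : St_Rm) (h2 : St_Bs) (h3 : St_Sb) : St_W0 := by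
  obtain ⟨-, hBL2, -, hBL4, hBL5⟩ := Pool.Agent.MVII.thm_Bl
  obtain ⟨-, -, -, -, hBs5⟩ := h2
  intro η hη C δ hδ hδ1
  have hδ1' : δ ≤ 1 / 1000000 := by
    refine hδ1.trans_eq ?_
    norm_num
  obtain ⟨C₁, hC₁, hB5⟩ := hBs5 η hη
  filter_upwards [Pool.Agent.MVII.thm_Ep (δ / 10) (by positivity) 1,
    Pool.Agent.MVII.w0_ev δ hδ (by linarith), h3 C (δ / 10) (by positivity),
    Pool.Agent.MVII.mn_ev (1 - 10 * δ) (1 - δ / 1000) 100000 (by linarith),
    Pool.Agent.MVII.mn_ev 0 (1 - δ / 1000) 100000 (by linarith),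
    Pool.Agent.MVII.mn_ev (-(7 * δ)) (-(6 * δ)) (8 * (28 * C₁ + 4)) (by linarith)]
    with X hEP hX hSb e2 e3 hbig
  obtain ⟨-, hlog, -, har, -⟩ := hEP
  obtain ⟨hX32, hh1, hhX, hTX, hQX, hmX⟩ := hX
  intro hSum m c hm1 hm hc n hBlk t ht1 ht2
  rw [Real.rpow_zero, mul_one] at e3
  rw [pow_one] at hlog
  have hXr : (32 : ℝ) ≤ X := by exact_mod_cast hX32
  have hX0 : (0 : ℝ) < X := by linarith
  have hX1 : (1 : ℝ) ≤ X := by linarith
  have hmX' := hmX m (hm.trans (Real.rpow_le_rpow_of_exponent_le hX1 (by linarith)))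
  obtain ⟨T, hT⟩ : ∃ T, T = TT δ X := ⟨_, rfl⟩
  obtain ⟨Q, hQ⟩ : ∃ Q, Q = QQ δ X := ⟨_, rfl⟩
  obtain ⟨h, hh⟩ : ∃ h, h = HH δ X := ⟨_, rfl⟩
  obtain ⟨L, hL⟩ : ∃ L, L = H0 δ X := ⟨_, rfl⟩
  obtain ⟨K, hK⟩ : ∃ K, K = KK m X := ⟨_, rfl⟩
  unfold Sum4 at hSum
  rw [← hT, ← hh] at hSum
  rw [← hT] at hTX
  rw [← hQ] at hQX
  rw [← hh] at hh1 hhX
  rw [← hK] at ht1
  rw [← hK, ← hh, ← hL] at ht2
  rw [← hT, ← hQ, ← hh, ← hL, ← hK]
  have hp10 : (1 : ℝ) ≤ (X : ℝ) ^ (1 - 10 * δ) := Real.one_le_rpow hX1 (by linarith)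
  have hh2 : (h : ℝ) ≤ 2 * (X : ℝ) ^ (1 - 10 * δ) := by
    have h4 : (h : ℝ) < (X : ℝ) ^ (1 - 10 * δ) + 1 := by
      rw [hh]
      exact Nat.ceil_lt_add_one (by positivity)
    linarith
  have hm1' : (1 : ℝ) ≤ m := by exact_mod_cast hm1
  -- size of `K`
  have hK1 : (X : ℝ) ^ (1 - δ / 1000) < 8 * (K + 1) := by
    have h4 : X < 8 * m * (K + 1) := by
      rw [hK]
      exact Nat.lt_mul_div_succ X (by omega)
    have h5 : (X : ℝ) < 8 * m * (K + 1) := by exact_mod_cast h4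
    have h6 : (X : ℝ) = (X : ℝ) ^ (1 - δ / 1000) * (X : ℝ) ^ (δ / 1000) := by
      rw [← Real.rpow_add hX0, show 1 - δ / 1000 + δ / 1000 = 1 by ring, Real.rpow_one]
    have h7 : (0 : ℝ) < (X : ℝ) ^ (δ / 1000) := Real.rpow_pos_of_pos hX0 _
    have h8 : (8 : ℝ) * m * (K + 1) ≤ 8 * (K + 1) * (X : ℝ) ^ (δ / 1000) := by
      have h9 := mul_le_mul_of_nonneg_left hm (by positivity : (0 : ℝ) ≤ 8 * (K + 1))
      linarith
    have h10 : (X : ℝ) ^ (1 - δ / 1000) * (X : ℝ) ^ (δ / 1000) <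
        8 * (K + 1) * (X : ℝ) ^ (δ / 1000) := by
      rw [← h6]
      exact h5.trans_le h8
    exact lt_of_mul_lt_mul_right h10 h7.le
  have hKA : (X : ℝ) ^ (1 - δ / 1000) ≤ 9 * K := by linarith
  have hK0 : (0 : ℝ) < K := by
    have : 0 < (X : ℝ) ^ (1 - δ / 1000) := Real.rpow_pos_of_pos hX0 _
    linarith
  have hnh : 1000 * h ≤ K := by
    have h5 : (1000 : ℝ) * h ≤ K := by linarith
    exact_mod_cast h5
  have hmK : m * K ≤ X / 8 := by
    rw [Nat.le_div_iff_mul_le (by norm_num)]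
    have h4 := Nat.div_mul_le_self X (8 * m)
    have h5 : K = X / (8 * m) := hK
    rw [← h5] at h4
    linarith
  have hKX : K ≤ X := by rw [hK]; exact Nat.div_le_self _ _
  obtain ⟨hB1, hB2⟩ := hBlk
  set E : ℝ := (X : ℝ) ^ (δ / 10) with hE
  have hE0 : 0 ≤ E := by positivity
  have hlog0 : 0 ≤ Real.log (2 * X) := Real.log_nonneg (by linarith)
  have hh0 : (0 : ℝ) < h := by exact_mod_cast hh1
  have hL0 : (0 : ℝ) ≤ L := Nat.cast_nonneg _
  set M : ℝ := C₁ * (((h : ℝ) + L) / K + L / h) * Real.log (2 * X) +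
    4 * ((m : ℝ) * L) * Real.log (2 * X) / h with hM
  have hM0 : 0 ≤ M := by positivity
  set a : ℝ := 4 * E with ha
  set b : ℝ := ((T : ℝ) ^ 2 * M) * E with hb
  have ha0 : 0 ≤ a := by positivity
  have hb0 : 0 ≤ b := by positivity
  set z : ℝ := η ((t : ℝ) / K) with hz
  have hz0 : 0 ≤ z := hη.nonneg _
  have hz1 : z ≤ 1 := hη.le_one _
  -- one value of `y`
  have key : ∀ y ∈ Ioc t (t + L),
      ‖MY η T Q h K y * PM (Bc h (n - m * y)) T Q ((n : ℤ) - m * (y : ℤ)) *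
        ((SD (DD X) c (y : ℤ) : ℝ) : ℂ) -
      PM (fun c => (z : ℂ) * Bc h t c) T Q (y : ℤ) *
        PM (Bc h (n - m * t)) T Q ((n : ℤ) - m * (y : ℤ)) *
        ((SD (DD X) c (y : ℤ) : ℝ) : ℂ)‖ ≤ 2 * a * b * E ∧
      (MY η T Q h K y).re * SD (DD X) c y * (Md T Q h (X / 8) X (n - m * y)).re =
        (MY η T Q h K y * PM (Bc h (n - m * y)) T Q ((n : ℤ) - m * (y : ℤ)) *
        ((SD (DD X) c (y : ℤ) : ℝ) : ℂ)).re := by
    intro y hy
    rw [Finset.mem_Ioc] at hy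
    obtain ⟨hy1, hy2⟩ := hy
    have hyK : y + h ≤ K := by omega
    have hmy : m * y ≤ X / 8 := (Nat.mul_le_mul_left m (by omega)).trans hmK
    have hmt : m * t ≤ m * y := Nat.mul_le_mul_left m hy1.le
    have hx1 : X / 8 + h ≤ n - m * y := by omega
    have hx2 : n - m * y + h ≤ X + 1 := by omega
    have hx3 : ((n - m * y : ℕ) : ℤ) = n - m * (y : ℤ) := by
      rw [Nat.cast_sub (by omega)]
      push_cast
      ring
    have hMd2 : Md T Q h (X / 8) X (n - m * y) =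
        PM (Bc h (n - m * y)) T Q (n - m * (y : ℤ)) := by
      unfold Md
      rw [hx3]
      congr 1
      funext ch
      exact hBL2 h (X / 8) X (n - m * y) ch hh1 hx1 hx2
    have hr1 := h1 η T Q h K y
    have hr2 := Pool.Agent.MVII.thm_Re T Q h (X / 8) X (n - m * y)
    rw [hMd2] at hr2
    constructor
    · have hary : ∀ r ∈ Icc 1 T, |ar Q r (y : ℤ)| ≤ E := by
        intro r hr
        rw [Finset.mem_Icc] at hr
        refine har Q r (y : ℤ) hQX hr.1 (hr.2.trans hTX) (by omega) ?_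
        rw [abs_of_nonneg (by omega)]
        omega
      have harx : ∀ r ∈ Icc 1 T, |ar Q r (n - m * (y : ℤ))| ≤ E := by
        intro r hr
        rw [Finset.mem_Icc] at hr
        rw [← hx3]
        refine har Q r _ hQX hr.1 (hr.2.trans hTX) (by omega) ?_
        rw [abs_of_nonneg (by omega)]
        omega
      have hNx : NB (Bc h (n - m * y)) T ≤ 4 := hSum _ (by omega) (by omega)
      have hNt : NB (Bc h t) T ≤ 4 := hSum t (by omega) (by omega)
      have hS : |SD (DD X) c (y : ℤ)| ≤ E := by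
        refine hSb c _ (y : ℤ) hc ?_
        rw [abs_of_nonneg (by omega)]
        omega
      have hyt : |((y : ℕ) : ℝ) - (t : ℕ)| ≤ L := by
        have e1 : (t : ℝ) ≤ y := by exact_mod_cast hy1.le
        have e2 : (y : ℝ) ≤ t + L := by exact_mod_cast hy2
        rw [abs_of_nonneg (by linarith)]
        linarith
      have hxt : |((n - m * y : ℕ) : ℝ) - ((n - m * t : ℕ) : ℝ)| ≤ m * L := by
        rw [Nat.cast_sub (by omega), Nat.cast_sub (by omega)]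
        push_cast
        have e3 : (n : ℝ) - m * y - (n - m * t) = -(m * ((y : ℝ) - t)) := by ring
        rw [e3, abs_neg, abs_mul, abs_of_nonneg (by linarith : (0 : ℝ) ≤ m)]
        exact mul_le_mul_of_nonneg_left hyt (by linarith)
      have hM1 : 0 ≤ C₁ * (((h : ℝ) + L) / K + L / h) * Real.log (2 * X) := by positivity
      have hM2 : 0 ≤ 4 * ((m : ℝ) * L) * Real.log (2 * X) / h := by positivity
      refine Pool.Agent.MVII.w0_term _ _ _ _ _ a b E ?_ ?_ ?_ ?_ hS ha0 hb0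
      · refine (Pool.Agent.MVII.w0_pm _ T Q _ E harx).trans ?_
        rw [ha]
        exact mul_le_mul_of_nonneg_right hNx hE0
      · refine (Pool.Agent.MVII.w0_pm _ T Q _ E hary).trans ?_
        rw [ha]
        exact mul_le_mul_of_nonneg_right (w0_NBsmul z hz0 hz1 _ T 4 hNt) hE0
      · rw [Pool.Agent.MVII.w0_sub]
        refine (Pool.Agent.MVII.w0_pm _ T Q _ E harx).trans ?_
        rw [hb]
        refine mul_le_mul_of_nonneg_right ?_ hE0
        refine Pool.Agent.MVII.w0_nb hBL5 _ T _ hM0 fun ch => ?_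
        refine (hBL4 X h _ _ ch hh1 (by omega) (by omega) (by omega)).trans ?_
        refine le_trans ?_ (le_add_of_nonneg_left hM1)
        refine div_le_div_of_nonneg_right ?_ hh0.le
        refine mul_le_mul_of_nonneg_right ?_ hlog0
        exact mul_le_mul_of_nonneg_left hxt (by norm_num)
      · unfold MY
        rw [Pool.Agent.MVII.w0_sub]
        refine (Pool.Agent.MVII.w0_pm _ T Q _ E hary).trans ?_
        rw [hb]
        refine mul_le_mul_of_nonneg_right ?_ hE0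
        refine Pool.Agent.MVII.w0_nb hBL5 _ T _ hM0 fun ch => ?_
        refine (hB5 X h K y t ch hh1 (by omega) hKX (by omega) (by omega)).trans ?_
        refine le_trans ?_ (le_add_of_nonneg_right hM2)
        refine mul_le_mul_of_nonneg_right ?_ hlog0
        refine mul_le_mul_of_nonneg_left ?_ hC₁.le
        exact add_le_add (div_le_div_of_nonneg_right (by linarith) hK0.le)
          (div_le_div_of_nonneg_right hyt hh0.le)
    · rw [hMd2, Complex.mul_re, Complex.mul_re, Complex.ofReal_re, Complex.ofReal_im,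
        hr1, hr2]
      ring
  have hfin : |∑ y ∈ Ioc t (t + L),
      (MY η T Q h K y).re * SD (DD X) c y * (Md T Q h (X / 8) X (n - m * y)).re -
      z * (∑ y ∈ Ioc t (t + L), PM (Bc h (n - m * t)) T Q ((n : ℤ) - m * (y : ℤ)) *
      PM (Bc h t) T Q (y : ℤ) * ((SD (DD X) c (y : ℤ) : ℝ) : ℂ)).re| ≤ L * (2 * a * b * E) := by
    have hsc : z * (∑ y ∈ Ioc t (t + L), PM (Bc h (n - m * t)) T Q ((n : ℤ) - m * (y : ℤ)) *
        PM (Bc h t) T Q (y : ℤ) * ((SD (DD X) c (y : ℤ) : ℝ) : ℂ)).re =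
        (∑ y ∈ Ioc t (t + L), PM (fun c => (z : ℂ) * Bc h t c) T Q (y : ℤ) *
          PM (Bc h (n - m * t)) T Q ((n : ℤ) - m * (y : ℤ)) *
          ((SD (DD X) c (y : ℤ) : ℝ) : ℂ)).re := by
      rw [← Complex.re_ofReal_mul, Finset.mul_sum]
      congr 1
      refine Finset.sum_congr rfl fun y _ => ?_
      rw [w0_smul]
      ring
    rw [hsc, Finset.sum_congr rfl fun y hy => (key y hy).2, ← Complex.re_sum, ← Complex.sub_re,
      ← Finset.sum_sub_distrib]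
    refine (Complex.abs_re_le_norm _).trans ?_
    refine (norm_sum_le _ _).trans ?_
    refine (Finset.sum_le_sum fun y hy => (key y hy).1).trans ?_
    rw [Finset.sum_const, Nat.card_Ioc, nsmul_eq_mul, Nat.add_sub_cancel_left]
  refine hfin.trans ?_
  refine mul_le_mul_of_nonneg_left ?_ (Nat.cast_nonneg _)
  refine w0_num δ C₁ X T m L h K hδ hC₁ (by omega) (Nat.cast_nonneg _) (Nat.cast_nonneg _)
    (Nat.cast_nonneg _) hK0 ?_ hh2 ?_ hm ?_ hKA (by linarith) hbig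
  · rw [hh]; exact Nat.le_ceil _
  · rw [hT]; exact Nat.floor_le (by positivity)
  · rw [hL]; exact Nat.floor_le (by positivity)

end Pool.Agent.MV5
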