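import Mathlib
import Pool.Agent.MV5.StC
import Pool.Agent.MV5.StD
import Pool.Agent.MVII.W1
import Pool.Agent.MVII.Bl
import Pool.Agent.MVII.Ep
import Pool.Agent.GBQ.RhoLow

set_option autoImplicit false

/-!
# MV5: W1, the sum over one short interval (helper36)
-/

namespace Pool.Agent.MV5

open Finset Filter
open Pool.Agent.GBQ (ee lam nd Admissible)
open Pool.Agent.MVX (Chr tent Bm Um prm Win GP)
open Pool.Agent.LIN (PP pz Dens)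
open Pool.Agent.MT (IsWt)
open Pool.Agent.MVII (TT QQ HH H0 cp cs gp GQ ar PL PM NB BI Bc Md fj rr Per mn wq Sum4 Blk loc
  SolY SolN w1_ge w1_pw w1_Bc w1_par)

/-- The final inequality. -/
private theorem w1_fin5 {S e p x6 e2 e3 L : ℝ} {Sg M1 M2 : ℂ} (hL : 0 ≤ L) (he0 : 0 ≤ e)
    (he1 : e ≤ 1) (h1 : |S - e * Sg.re| ≤ L * x6) (h2 : ‖Sg - (L : ℂ) * M1‖ ≤ e2)
    (h3 : ‖M1 - M2‖ ≤ e3) (h4 : p ≤ M2.re) :
    L * (e * p - e3 - x6) - e2 ≤ S := by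
  have a1 := neg_le_of_abs_le h1
  have a2 : -(e2) ≤ (Sg - (L : ℂ) * M1).re := by
    have := (Complex.abs_re_le_norm (Sg - (L : ℂ) * M1)).trans h2
    exact neg_le_of_abs_le this
  have a3 : -(e3) ≤ (M1 - M2).re := by
    have := (Complex.abs_re_le_norm (M1 - M2)).trans h3
    exact neg_le_of_abs_le this
  rw [Complex.sub_re, Complex.re_ofReal_mul] at a2
  rw [Complex.sub_re] at a3
  have e20 : 0 ≤ e2 := (norm_nonneg _).trans h2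
  have e30 : 0 ≤ e3 := (norm_nonneg _).trans h3
  have a4 : L * (p - e3) ≤ L * M1.re := mul_le_mul_of_nonneg_left (by linarith) hL
  have a5 : e * (L * (p - e3) - e2) ≤ e * Sg.re := mul_le_mul_of_nonneg_left (by linarith) he0
  have a6 : e * e2 ≤ e2 := mul_le_of_le_one_left e20 he1
  have a7 : e * (L * e3) ≤ L * e3 := mul_le_of_le_one_left (mul_nonneg hL e30) he1
  have a8 : e * (L * (p - e3) - e2) = L * (e * p) - e * (L * e3) - e * e2 := by ring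
  have a9 : L * (e * p - e3 - x6) - e2 = L * (e * p) - L * e3 - L * x6 - e2 := by ring
  rw [a9]
  rw [a8] at a5
  linarith

/-- comparison of the exponents -/
private theorem w1_end5 {x δ ε S L p e e2 e3 : ℝ} (hx1 : 1 ≤ x) (hδ : 0 < δ) (hε : ε = δ / 2000)
    (hK : 4 ≤ x ^ ε) (hL : 0 ≤ L) (he0 : 0 ≤ e) (hp : x ^ (-(6 * ε)) ≤ p)
    (he2 : e2 ≤ L * x ^ (-(2 * δ))) (he3 : e3 ≤ x ^ (-(13 * δ)))
    (hS : L * (e * p - e3 - x ^ (-(6 * δ))) - e2 ≤ S) :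
    L * (e * x ^ (-(δ / 200)) - x ^ (-δ)) ≤ S := by
  have hx0 : 0 < x := by linarith
  have ppos : ∀ a : ℝ, 0 < x ^ a := fun a => Real.rpow_pos_of_pos hx0 a
  have k1 : x ^ (-(6 * δ)) ≤ x ^ (-(2 * δ)) :=
    Real.rpow_le_rpow_of_exponent_le hx1 (by linarith)
  have k2 : x ^ (-(13 * δ)) ≤ x ^ (-(2 * δ)) :=
    Real.rpow_le_rpow_of_exponent_le hx1 (by linarith)
  have k3 : x ^ (-(δ / 200)) ≤ p :=
    (Real.rpow_le_rpow_of_exponent_le hx1 (by rw [hε]; linarith)).trans hp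
  have k4 : 4 * x ^ (-(2 * δ)) ≤ x ^ (-δ) := by
    calc 4 * x ^ (-(2 * δ)) ≤ x ^ ε * x ^ (-(2 * δ)) :=
          mul_le_mul_of_nonneg_right hK (ppos _).le
      _ = x ^ (ε + -(2 * δ)) := (Real.rpow_add hx0 _ _).symm
      _ ≤ x ^ (-δ) := Real.rpow_le_rpow_of_exponent_le hx1 (by rw [hε]; linarith)
  have k5 : e * x ^ (-(δ / 200)) ≤ e * p := mul_le_mul_of_nonneg_left k3 he0
  have k6 := ppos (-(2 * δ))
  have k7 : L * (e * x ^ (-(δ / 200)) - x ^ (-δ)) ≤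
      L * (e * p - e3 - x ^ (-(6 * δ)) - x ^ (-(2 * δ))) :=
    mul_le_mul_of_nonneg_left (by linarith) hL
  have k8 : L * (e * p - e3 - x ^ (-(6 * δ)) - x ^ (-(2 * δ))) =
      L * (e * p - e3 - x ^ (-(6 * δ))) - L * x ^ (-(2 * δ)) := by ring
  linarith

/-- bound of the error of WI -/
private theorem w1_g25 {x δ ε B T Q D Sc L : ℝ} (hx1 : 1 ≤ x) (hδ' : δ ≤ 1 / 10 ^ 6) (hδ : 0 < δ)
    (hε : ε = δ / 2000) (hB : B ^ 2 ≤ x ^ ε) (hK : 4 ≤ x ^ ε) (hT0 : 0 ≤ T)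
    (hT : T ≤ x ^ δ) (hQ0 : 0 ≤ Q) (hQ : Q ≤ x ^ (30 * δ)) (hD0 : 0 ≤ D)
    (hD : D ≤ x ^ (491 / 1000 : ℝ)) (hSc0 : 0 ≤ Sc) (hSc : Sc ≤ D * x ^ (3 * ε))
    (hL : x ^ (1 - 20 * δ) / 2 ≤ L) :
    2 * B ^ 2 * T ^ 6 * Q ^ 4 * D * Sc ≤ L * x ^ (-(2 * δ)) := by
  have hx0 : 0 < x := by linarith
  have ppos : ∀ a : ℝ, 0 < x ^ a := fun a => Real.rpow_pos_of_pos hx0 a
  have padd : ∀ a b : ℝ, x ^ a * x ^ b = x ^ (a + b) := fun a b => (Real.rpow_add hx0 a b).symm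
  have s1 : T ^ 6 ≤ x ^ (6 * δ) := by
    calc T ^ 6 ≤ (x ^ δ) ^ 6 := pow_le_pow_left₀ hT0 hT 6
      _ = x ^ (6 * δ) := by rw [w1_pw hx0]; congr 1; push_cast; ring
  have s2 : Q ^ 4 ≤ x ^ (120 * δ) := by
    calc Q ^ 4 ≤ (x ^ (30 * δ)) ^ 4 := pow_le_pow_left₀ hQ0 hQ 4
      _ = x ^ (120 * δ) := by rw [w1_pw hx0]; congr 1; push_cast; ring
  have s3 : Sc ≤ x ^ (491 / 1000 + 3 * ε) := by
    rw [← padd]
    exact hSc.trans (mul_le_mul_of_nonneg_right hD (ppos _).le)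
  have s0 : 2 * B ^ 2 ≤ x ^ ε / 2 * x ^ ε :=
    mul_le_mul (by linarith) hB (sq_nonneg B) (by linarith)
  have p0 := (ppos ε).le
  have t1 : 2 * B ^ 2 * T ^ 6 ≤ x ^ ε / 2 * x ^ ε * x ^ (6 * δ) :=
    mul_le_mul s0 s1 (pow_nonneg hT0 6) (by positivity)
  have t2 : 2 * B ^ 2 * T ^ 6 * Q ^ 4 ≤ x ^ ε / 2 * x ^ ε * x ^ (6 * δ) * x ^ (120 * δ) :=
    mul_le_mul t1 s2 (pow_nonneg hQ0 4) (by positivity)
  have t3 : 2 * B ^ 2 * T ^ 6 * Q ^ 4 * D ≤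
      x ^ ε / 2 * x ^ ε * x ^ (6 * δ) * x ^ (120 * δ) * x ^ (491 / 1000 : ℝ) :=
    mul_le_mul t2 hD hD0 (by positivity)
  have t3' : 2 * B ^ 2 * T ^ 6 * Q ^ 4 * D * Sc ≤
      x ^ ε / 2 * x ^ ε * x ^ (6 * δ) * x ^ (120 * δ) * x ^ (491 / 1000 : ℝ) *
        x ^ (491 / 1000 + 3 * ε) :=
    mul_le_mul t3 s3 hSc0 (by positivity)
  have t4 : x ^ ε / 2 * x ^ ε * x ^ (6 * δ) * x ^ (120 * δ) * x ^ (491 / 1000 : ℝ) *
        x ^ (491 / 1000 + 3 * ε) =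
      x ^ (ε + ε + 6 * δ + 120 * δ + 491 / 1000 + (491 / 1000 + 3 * ε)) / 2 := by
    rw [show x ^ ε / 2 * x ^ ε * x ^ (6 * δ) * x ^ (120 * δ) * x ^ (491 / 1000 : ℝ) *
        x ^ (491 / 1000 + 3 * ε) =
      (x ^ ε * x ^ ε * x ^ (6 * δ) * x ^ (120 * δ) * x ^ (491 / 1000 : ℝ) *
        x ^ (491 / 1000 + 3 * ε)) / 2 by ring]
    rw [padd, padd, padd, padd, padd]
  have t5 : x ^ (ε + ε + 6 * δ + 120 * δ + 491 / 1000 + (491 / 1000 + 3 * ε)) ≤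
      x ^ (1 - 20 * δ + -(2 * δ)) :=
    Real.rpow_le_rpow_of_exponent_le hx1 (by rw [hε]; linarith)
  have t6 : x ^ (1 - 20 * δ) / 2 * x ^ (-(2 * δ)) ≤ L * x ^ (-(2 * δ)) :=
    mul_le_mul_of_nonneg_right hL (ppos _).le
  have t7 : x ^ (1 - 20 * δ) / 2 * x ^ (-(2 * δ)) = x ^ (1 - 20 * δ + -(2 * δ)) / 2 := by
    rw [← padd]; ring
  rw [t4] at t3'
  rw [t7] at t6
  linarith

/-- bound of the main term -/
private theorem w1_g45 {x ε c₀ c l g R1 R2 : ℝ} (hx1 : 1 ≤ x) (hc₀ : 0 < c₀) (hc : 0 < c)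
    (hKc : 32 / (c₀ * c ^ 16) ≤ x ^ ε) (hl : x ^ (-(2 * ε)) ≤ l) (hg : 0 < g)
    (hg16 : g ^ 16 ≤ x ^ ε) (h1 : c / g ≤ R1) (h2 : c / g ≤ R2) :
    x ^ (-(6 * ε)) ≤ c₀ / 2 * (l / 4) ^ 2 * (R1 ^ 8 * R2 ^ 8) := by
  have hx0 : 0 < x := by linarith
  have ppos : ∀ a : ℝ, 0 < x ^ a := fun a => Real.rpow_pos_of_pos hx0 a
  have padd : ∀ a b : ℝ, x ^ a * x ^ b = x ^ (a + b) := fun a b => (Real.rpow_add hx0 a b).symm
  have hcg : 0 ≤ c / g := by positivity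
  have hP : (c / g) ^ 16 ≤ R1 ^ 8 * R2 ^ 8 := by
    calc (c / g) ^ 16 = (c / g) ^ 8 * (c / g) ^ 8 := by ring
      _ ≤ R1 ^ 8 * R2 ^ 8 :=
        mul_le_mul (pow_le_pow_left₀ hcg h1 8) (pow_le_pow_left₀ hcg h2 8) (by positivity)
          (pow_nonneg (hcg.trans h1) 8)
  have e2 : x ^ (-(4 * ε)) ≤ l ^ 2 := by
    have : x ^ (-(4 * ε)) = (x ^ (-(2 * ε))) ^ 2 := by
      rw [w1_pw hx0]; congr 1; push_cast; ring
    rw [this]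
    exact pow_le_pow_left₀ (ppos _).le hl 2
  have e3 : 32 / c₀ * x ^ (-(2 * ε)) ≤ (c / g) ^ 16 := by
    rw [div_pow, le_div_iff₀ (by positivity)]
    have e4 : 32 / c₀ ≤ x ^ ε * c ^ 16 := by
      rw [div_le_iff₀ (by positivity)] at hKc
      rw [div_le_iff₀ hc₀]
      linarith
    have e5 : 32 / c₀ * x ^ (-(2 * ε)) ≤ x ^ ε * c ^ 16 * x ^ (-(2 * ε)) :=
      mul_le_mul_of_nonneg_right e4 (ppos _).le
    have e6 : 32 / c₀ * x ^ (-(2 * ε)) * g ^ 16 ≤ x ^ ε * c ^ 16 * x ^ (-(2 * ε)) * x ^ ε :=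
      mul_le_mul e5 hg16 (by positivity)
        (by have := ppos ε; have := ppos (-(2 * ε)); positivity)
    refine e6.trans (le_of_eq ?_)
    rw [show x ^ ε * c ^ 16 * x ^ (-(2 * ε)) * x ^ ε = c ^ 16 * (x ^ ε * x ^ (-(2 * ε)) * x ^ ε) by
      ring]
    rw [padd, padd, show ε + -(2 * ε) + ε = 0 by ring, Real.rpow_zero, mul_one]
  have e7 := e3.trans hP
  have e8 : x ^ (-(4 * ε)) * (32 / c₀ * x ^ (-(2 * ε))) ≤ l ^ 2 * (R1 ^ 8 * R2 ^ 8) :=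
    mul_le_mul e2 e7 (by have := ppos (-(2 * ε)); positivity) (sq_nonneg l)
  have e9 : x ^ (-(4 * ε)) * (32 / c₀ * x ^ (-(2 * ε))) = 32 / c₀ * x ^ (-(6 * ε)) := by
    rw [show -(6 * ε) = -(4 * ε) + -(2 * ε) by ring, ← padd]; ring
  have e10 : c₀ / 2 * (l / 4) ^ 2 * (R1 ^ 8 * R2 ^ 8) =
      c₀ / 32 * (l ^ 2 * (R1 ^ 8 * R2 ^ 8)) := by ring
  have e11 : x ^ (-(6 * ε)) = c₀ / 32 * (32 / c₀ * x ^ (-(6 * ε))) := by
    field_simp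
  rw [e10, e11]
  rw [e9] at e8
  exact mul_le_mul_of_nonneg_left e8 (by positivity)

/-- sizes of `K` and `D` -/
private theorem w1_KD {δ : ℝ} {X m : ℕ} (hδ : 0 < δ) (hδ' : δ ≤ 1 / 10 ^ 6) (hX : 1 ≤ X)
    (hK : 4 ≤ (X : ℝ) ^ (δ / 2000)) (hm1 : 1 ≤ m) (hm : (m : ℝ) ≤ (X : ℝ) ^ (δ / 1000)) :
    (X : ℝ) ^ (1 / 2 : ℝ) ≤ KK m X ∧ HH δ X ≤ KK m X / 16 ∧ KK m X ≤ X ∧ 2 ≤ zs (KK m X) ∧
      zs (KK m X) ≤ X ∧ (DD X : ℝ) ≤ (X : ℝ) ^ (491 / 1000 : ℝ) ∧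
      ∀ q : ℕ, (q : ℝ) ≤ (X : ℝ) ^ δ → (q : ℝ) * (KK m X : ℝ) ^ (49 / 100 : ℝ) ≤ DD X := by
  have hx1 : (1 : ℝ) ≤ X := by exact_mod_cast hX
  have hx0 : (0 : ℝ) < X := by linarith
  have ppos : ∀ a : ℝ, 0 < (X : ℝ) ^ a := fun a => Real.rpow_pos_of_pos hx0 a
  have padd : ∀ a b : ℝ, (X : ℝ) ^ a * (X : ℝ) ^ b = (X : ℝ) ^ (a + b) :=
    fun a b => (Real.rpow_add hx0 a b).symm
  have hmono : ∀ {a b : ℝ}, a ≤ b → (X : ℝ) ^ a ≤ (X : ℝ) ^ b := fun h =>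
    Real.rpow_le_rpow_of_exponent_le hx1 h
  -- `X ^ a * 4 ^ 10 ≤ X ^ b` if `a + 10 δ / 2000 ≤ b`
  have hbig : ∀ {a b : ℝ}, a + 10 * (δ / 2000) ≤ b → 1000000 * (X : ℝ) ^ a ≤ (X : ℝ) ^ b := by
    intro a b hab
    have h1 : (4 : ℝ) ^ 10 ≤ ((X : ℝ) ^ (δ / 2000)) ^ 10 := pow_le_pow_left₀ (by norm_num) hK 10
    have h2 : ((X : ℝ) ^ (δ / 2000)) ^ 10 = (X : ℝ) ^ (10 * (δ / 2000)) := by
      rw [w1_pw hx0]; congr 1; push_cast; ring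
    have h3 : (1000000 : ℝ) ≤ 4 ^ 10 := by norm_num
    calc 1000000 * (X : ℝ) ^ a ≤ (X : ℝ) ^ (10 * (δ / 2000)) * (X : ℝ) ^ a :=
          mul_le_mul_of_nonneg_right (by rw [← h2]; linarith) (ppos _).le
      _ = (X : ℝ) ^ (a + 10 * (δ / 2000)) := by rw [padd]; congr 1; ring
      _ ≤ (X : ℝ) ^ b := hmono hab
  have hmr : (1 : ℝ) ≤ m := by exact_mod_cast hm1
  -- lower bound for `K`
  have hKlow : (X : ℝ) ^ (1 - δ / 1000) / 8 - 1 ≤ KK m X := by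
    have h1 : (X : ℝ) / (8 * m) < (KK m X : ℝ) + 1 := by
      rw [KK]
      have h2 := Nat.lt_floor_add_one ((X : ℝ) / ((8 * m : ℕ) : ℝ))
      rw [Nat.floor_div_eq_div] at h2
      push_cast at h2 ⊢
      exact h2
    have h3 : (X : ℝ) ^ (1 - δ / 1000) / 8 ≤ (X : ℝ) / (8 * m) := by
      rw [div_le_div_iff₀ (by norm_num) (by positivity)]
      have h4 : (X : ℝ) ^ (1 - δ / 1000) * m ≤ X := by
        calc (X : ℝ) ^ (1 - δ / 1000) * m ≤ (X : ℝ) ^ (1 - δ / 1000) * (X : ℝ) ^ (δ / 1000) :=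
              mul_le_mul_of_nonneg_left hm (ppos _).le
          _ = X := by rw [padd, show 1 - δ / 1000 + δ / 1000 = (1 : ℝ) by ring, Real.rpow_one]
      linarith
    linarith
  have hKX : KK m X ≤ X := Nat.div_le_self _ _
  have hKhalf : (X : ℝ) ^ (1 / 2 : ℝ) ≤ KK m X := by
    have h1 := hbig (a := 1 / 2) (b := 1 - δ / 1000) (by linarith)
    have h2 : 1 ≤ (X : ℝ) ^ (1 / 2 : ℝ) := Real.one_le_rpow hx1 (by norm_num)
    linarith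
  refine ⟨hKhalf, ?_, hKX, ?_, ?_, Nat.floor_le (ppos _).le, ?_⟩
  · rw [Nat.le_div_iff_mul_le (by norm_num)]
    have h1 := hbig (a := 1 - 10 * δ) (b := 1 - δ / 1000) (by linarith)
    have h2 : 1 ≤ (X : ℝ) ^ (1 - 10 * δ) := Real.one_le_rpow hx1 (by linarith)
    have h3 : (HH δ X : ℝ) < (X : ℝ) ^ (1 - 10 * δ) + 1 := Nat.ceil_lt_add_one (ppos _).le
    have h4 : ((HH δ X * 16 : ℕ) : ℝ) ≤ KK m X := by
      push_cast
      linarith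
    exact_mod_cast h4
  · refine Nat.le_floor ?_
    have h1 : (X : ℝ) ^ (6 / 100 : ℝ) ≤ (KK m X : ℝ) ^ (12 / 100 : ℝ) := by
      have h2 : (X : ℝ) ^ (6 / 100 : ℝ) = ((X : ℝ) ^ (1 / 2 : ℝ)) ^ (12 / 100 : ℝ) := by
        rw [← Real.rpow_mul hx0.le]; norm_num
      rw [h2]
      exact Real.rpow_le_rpow (ppos _).le hKhalf (by norm_num)
    have h3 := hbig (a := 0) (b := 6 / 100) (by linarith)
    rw [Real.rpow_zero] at h3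
    push_cast
    linarith
  · refine le_trans ?_ hKX
    have h1 : (1 : ℝ) ≤ KK m X := (Real.one_le_rpow hx1 (by norm_num)).trans hKhalf
    have h2 : (zs (KK m X) : ℝ) ≤ KK m X := by
      calc (zs (KK m X) : ℝ) ≤ (KK m X : ℝ) ^ (12 / 100 : ℝ) := Nat.floor_le (by positivity)
        _ ≤ (KK m X : ℝ) ^ (1 : ℝ) := Real.rpow_le_rpow_of_exponent_le h1 (by norm_num)
        _ = KK m X := Real.rpow_one _
    exact_mod_cast h2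
  · intro q hq
    have h1 : (KK m X : ℝ) ^ (49 / 100 : ℝ) ≤ (X : ℝ) ^ (49 / 100 : ℝ) :=
      Real.rpow_le_rpow (Nat.cast_nonneg _) (by exact_mod_cast hKX) (by norm_num)
    have h2 : (q : ℝ) * (KK m X : ℝ) ^ (49 / 100 : ℝ) ≤ (X : ℝ) ^ (δ + 49 / 100) := by
      rw [← padd]
      exact mul_le_mul hq h1 (by positivity) (ppos _).le
    have h3 := hbig (a := δ + 49 / 100) (b := 491 / 1000) (by linarith)
    have h4 : (X : ℝ) ^ (491 / 1000 : ℝ) < (DD X : ℝ) + 1 := Nat.lt_floor_add_one _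
    have h5 : 1 ≤ (X : ℝ) ^ (δ + 49 / 100) := Real.one_le_rpow hx1 (by linarith)
    linarith

/-- elementary facts on `t`, `n` -/
private theorem w1_nat5 {X m n t h L : ℕ} (hm1 : 1 ≤ m) (hh1 : 1 ≤ h) (hBlk : Blk X m n)
    (hhK : h ≤ KK m X / 16) (ht1 : KK m X / 16 ≤ t) (ht2 : t + L + h ≤ KK m X) :
    h ≤ n - m * t ∧ n - m * t ≤ X ∧ h ≤ t ∧ t ≤ X ∧ 1 ≤ n ∧ n ≤ X ∧ m ≤ X := by
  obtain ⟨hB1, hB2⟩ := hBlk
  have htK : t ≤ X / (8 * m) := by rw [KK] at ht2; omega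
  have hhK : h ≤ X / (8 * m) := by rw [KK] at ht2; omega
  have hht : h ≤ t := le_trans ‹h ≤ KK m X / 16› ht1
  have hm0 : 0 < 8 * m := by omega
  have htm : t * (8 * m) ≤ X := (Nat.le_div_iff_mul_le hm0).1 htK
  have hhm : h * (8 * m) ≤ X := (Nat.le_div_iff_mul_le hm0).1 hhK
  have h8m : 8 * m ≤ X := le_trans (Nat.le_mul_of_pos_left _ hh1) hhm
  have h8h : 8 * h ≤ X := by
    have h1 : h * 8 ≤ h * (8 * m) := Nat.mul_le_mul_left h (by omega)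
    omega
  have hmt : 8 * (m * t) ≤ X := by
    have : t * (8 * m) = 8 * (m * t) := by ring
    omega
  have htX : t ≤ X := by
    have : t ≤ t * (8 * m) := Nat.le_mul_of_pos_right _ hm0
    omega
  obtain ⟨s, hs⟩ : ∃ s, s = m * t := ⟨_, rfl⟩
  rw [← hs] at hmt ⊢
  refine ⟨by omega, by omega, hht, htX, by omega, by omega, by omega⟩

/-- see `St_W1` -/
theorem thm_W1 (h0 : St_W0) (h1 : St_Sw) (h2 : St_Wi) (h3 : St_Cp) (h4 : St_Po) (h5 : St_Dn) :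
    St_W1 := by
  intro η hη c₀ δ₀ η₀ C κ δ hc₀ hδ₀ hδ₀' hη₀ hC hκ hκ' h18 hδ hδ'
  obtain ⟨cr, hcr, hrho⟩ := Pool.Agent.GBQ.thm_RhoLow
  have hε0 : 0 < δ / 2000 := by positivity
  filter_upwards [h0 η hη C δ hδ hδ', h3 C δ hδ hδ', h5 δ₀ η₀ hδ₀ hδ₀' hη₀,
    Pool.Agent.MVII.thm_Ep (δ / 2000) hε0 16, w1_ge hε0 4, w1_ge hε0 C,
    w1_ge hε0 (32 / (c₀ * cr ^ 16)), eventually_ge_atTop 2] with X hW0 hCp hDn hEp hK4 hKC hKc hX2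
  intro q₁ χ₁ U l hDat m c cu hm1 hm2 hSv n hBlk hcop hpar t ht1 ht2
  have hX1 : 1 ≤ X := by omega
  have hx1 : (1 : ℝ) ≤ X := by exact_mod_cast hX1
  have hx0 : (0 : ℝ) < X := by linarith
  obtain ⟨-, hEp2, hEp3, -⟩ := hEp
  obtain ⟨p1, p2, p3, p4, p5, p6, p7⟩ := w1_par hδ (by norm_num at hδ' ⊢; linarith) hX1 hK4
  obtain ⟨k1, k2, k3, k4, k5, k6, k7⟩ := w1_KD hδ hδ' hX1 hK4 hm1 hm2
  obtain ⟨hs1, hs2, ht0, htX, hn1, hnX, hmX⟩ := w1_nat5 hm1 p7 hBlk k2 ht1 ht2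
  obtain ⟨hq1, hq2⟩ := hDat.cond
  have hqx : (q₁ : ℝ) ≤ (X : ℝ) ^ δ := le_trans (by exact_mod_cast hq2) p1
  have hqD := k7 q₁ hqx
  have hqX : q₁ ≤ X := by
    have h6 : (q₁ : ℝ) ≤ X := by
      refine hqx.trans ?_
      calc (X : ℝ) ^ δ ≤ (X : ℝ) ^ (1 : ℝ) :=
            Real.rpow_le_rpow_of_exponent_le hx1 (by norm_num at hδ' ⊢; linarith)
        _ = X := Real.rpow_one _
    exact_mod_cast h6
  have hK1 : 1 ≤ KK m X := by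
    have h6 : (1 : ℝ) ≤ KK m X := (Real.one_le_rpow hx1 (by norm_num)).trans k1
    exact_mod_cast h6
  obtain ⟨s1, s2, s3⟩ := h1 (KK m X) (DD X) q₁ c₀ δ₀ η₀ C c cu hq1 hK1 hC.le hSv hqD
  have hlog0 : 0 ≤ Real.log (2 * X) := Real.log_nonneg (by linarith)
  -- the four facts
  have f1 := hW0 hDat.sum m (ct q₁ c) hm1 hm2 s1 n hBlk t ht1 ht2
  have f2 := h2 (TT δ X) (QQ δ X) (DD X) m n t (H0 δ X) (Real.log (2 * X)) (ct q₁ c)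
    (Bc (HH δ X) (n - m * t)) (Bc (HH δ X) t) p5 p6 hlog0
    (w1_Bc Pool.Agent.MVII.thm_Bl p7 hs1 hs2) (w1_Bc Pool.Agent.MVII.thm_Bl p7 ht0 htX)
  have f3 := hCp m n (ct q₁ c) (Bc (HH δ X) (n - m * t)) (Bc (HH δ X) t) hm1 hm2 hn1 hnX s1
    (hDat.sum _ hs1 hs2) (hDat.sum t ht0 htX)
  obtain ⟨u1, u2⟩ := hDat.U_bd _ hs1 hs2
  obtain ⟨u3, u4⟩ := hDat.U_bd t ht0 htX
  have hl0 : 0 < l := lt_of_lt_of_le (Real.rpow_pos_of_pos hx0 _) hDat.low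
  have hDens := hDn (KK m X) (QQ δ X) q₁ m n k1 hm1 hmX hn1 hnX hq1 hqX hcop hpar
  have f4 := h4 c₀ δ₀ η₀ C κ hc₀ hC hκ hκ' h18 (TT δ X) (QQ δ X) (DD X) (KK m X) m n q₁ l
    (U (n - m * t)) (U t) c cu (Bc (HH δ X) (n - m * t)) (Bc (HH δ X) t) χ₁ hSv hDens hcop hpar
    hq1 (hq2.trans p6) hK1 hqD hDat.real hl0 hDat.one u1 u2 u3 u4
    (hDat.main _ hs1 hs2) (hDat.main t ht0 htX)
  -- the sizes
  have hQ2 : 2 ≤ QQ δ X := by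
    have h6 : (2 : ℝ) ≤ QQ δ X := by
      have h7 : (X : ℝ) ^ (δ / 2000) ≤ (X : ℝ) ^ (30 * δ) :=
        Real.rpow_le_rpow_of_exponent_le hx1 (by linarith)
      linarith
    exact_mod_cast h6
  have hQX : (QQ δ X : ℝ) ≤ 2 * X := by
    have e1 : (X : ℝ) ^ (30 * δ) ≤ (X : ℝ) ^ (1 : ℝ) :=
      Real.rpow_le_rpow_of_exponent_le hx1 (by norm_num at hδ' ⊢; linarith)
    rw [Real.rpow_one] at e1
    linarith
  set g : ℝ := 1 + Real.log (2 * X) with hg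
  have hg0 : 0 < g := by linarith
  have hrg : ∀ z : ℕ, 2 ≤ z → (z : ℝ) ≤ 2 * X → cr / g ≤ ∏ p ∈ pz z, (1 - 1 / (p : ℝ)) := by
    intro z hz hzX
    have hlz : 0 < Real.log z := Real.log_pos (by exact_mod_cast (by omega : 1 < z))
    have hlz' : Real.log z ≤ g := by
      have := Real.log_le_log (by exact_mod_cast (by omega : 0 < z)) hzX
      linarith
    exact (div_le_div_of_nonneg_left hcr.le hlz hlz').trans (hrho z hz)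
  have r1 := hrg (QQ δ X) hQ2 hQX
  have r2 := hrg (zs (KK m X)) k4 (by
    have : (zs (KK m X) : ℝ) ≤ X := by exact_mod_cast k5
    linarith)
  have g4 := w1_g45 (ε := δ / 2000) hx1 hc₀ hcr hKc (by
    refine le_trans (Real.rpow_le_rpow_of_exponent_le hx1 ?_) hDat.low
    have : κ * δ ≤ 1 / 1000 * δ := mul_le_mul_of_nonneg_right hκ' hδ.le
    linarith) hg0 hEp2 r1 r2
  have hB2 : Real.log (2 * X) ^ 2 ≤ (X : ℝ) ^ (δ / 2000) := by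
    calc Real.log (2 * X) ^ 2 ≤ g ^ 2 := pow_le_pow_left₀ hlog0 (by linarith) 2
      _ ≤ g ^ 16 := pow_le_pow_right₀ (by linarith) (by norm_num)
      _ ≤ (X : ℝ) ^ (δ / 2000) := hEp2
  have hDX : DD X ≤ X := by
    have h6 : (DD X : ℝ) ≤ X := by
      refine k6.trans ?_
      calc (X : ℝ) ^ (491 / 1000 : ℝ) ≤ (X : ℝ) ^ (1 : ℝ) :=
            Real.rpow_le_rpow_of_exponent_le hx1 (by norm_num)
        _ = X := Real.rpow_one _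
    exact_mod_cast h6
  have hSc : ∑ d ∈ Icc 1 (DD X), |ct q₁ c d| ≤ DD X * (X : ℝ) ^ (3 * (δ / 2000)) := by
    have h6 : ∀ d ∈ Icc 1 (DD X), |ct q₁ c d| ≤ (X : ℝ) ^ (3 * (δ / 2000)) := by
      intro d hd
      rw [mem_Icc] at hd
      have h7 := (hEp3 d hd.1 (hd.2.trans hDX)).2
      have h8 : (8 : ℝ) ^ d.primeFactors.card ≤ ((X : ℝ) ^ (δ / 2000)) ^ 2 := by
        calc (8 : ℝ) ^ d.primeFactors.card ≤ (4 ^ 2) ^ d.primeFactors.card :=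
              pow_le_pow_left₀ (by norm_num) (by norm_num) _
          _ = (4 ^ d.primeFactors.card) ^ 2 := by rw [← pow_mul, ← pow_mul, mul_comm]
          _ ≤ ((X : ℝ) ^ (δ / 2000)) ^ 2 := pow_le_pow_left₀ (by positivity) h7 2
      calc |ct q₁ c d| ≤ C * 8 ^ d.primeFactors.card := s1.bound d
        _ ≤ (X : ℝ) ^ (δ / 2000) * ((X : ℝ) ^ (δ / 2000)) ^ 2 :=
          mul_le_mul hKC h8 (by positivity) (by positivity)
        _ = (X : ℝ) ^ (3 * (δ / 2000)) := by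
          rw [← pow_succ', w1_pw hx0]; congr 1; push_cast; ring
    calc ∑ d ∈ Icc 1 (DD X), |ct q₁ c d| ≤ ∑ d ∈ Icc 1 (DD X), (X : ℝ) ^ (3 * (δ / 2000)) :=
          sum_le_sum h6
      _ = DD X * (X : ℝ) ^ (3 * (δ / 2000)) := by
          rw [sum_const, Nat.card_Icc, nsmul_eq_mul, Nat.add_sub_cancel]
  have g2 := w1_g25 (ε := δ / 2000) hx1 hδ' hδ rfl hB2 hK4 (Nat.cast_nonneg _) p1
    (Nat.cast_nonneg _) p2 (Nat.cast_nonneg _) k6 (sum_nonneg fun d _ => abs_nonneg _) hSc p4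
  -- conclusion
  exact w1_end5 hx1 hδ rfl hK4 (Nat.cast_nonneg _) (hη.nonneg _) g4 g2 le_rfl
    (w1_fin5 (Nat.cast_nonneg _) (hη.nonneg _) (hη.le_one _) f1 f2 f3 f4)

end Pool.Agent.MV5
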