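import Pool.Agent.MV5.StC
import Pool.Agent.MVII.Wi
import Pool.Agent.MVII.Mt
import Pool.Agent.MVII.Bl

set_option autoImplicit false

/-!
# MV5: WI, sums over short intervals

helper79.
-/

namespace Pool.Agent.MV5

open Finset Filter
open Pool.Agent.GBQ (ee lam nd Admissible)
open Pool.Agent.MVX (Chr tent Bm Um prm Win GP)
open Pool.Agent.LIN (PP pz Dens)
open Pool.Agent.MVII (TT QQ HH H0 cp cs gp GQ ar PL PM NB BI Bc Md fj rr Per mn wq Sum4 Blk loc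
  wi_E wi_t wi_PM wi_base wi_t_per wi_per_lin wi_per_mul2 wi_per_dvd wi_t_le thm_Mt thm_Bl)

theorem wi_sumw {ι : Type*} (t L M : ℕ) (s : Finset ι) (f : ι → ℤ → ℂ) (e : ι → ℝ)
    (h : ∀ j ∈ s, wi_E t L M (f j) ≤ e j) :
    wi_E t L M (fun y => ∑ j ∈ s, f j y) ≤ ∑ j ∈ s, e j := by
  have h1 : ∑ y ∈ Ioc t (t + L), (∑ j ∈ s, f j (y : ℤ)) -
      (L : ℂ) * mn M (fun y => ∑ j ∈ s, f j y) =
      ∑ j ∈ s, (∑ y ∈ Ioc t (t + L), f j (y : ℤ) - (L : ℂ) * mn M (f j)) := by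
    rw [sum_sub_distrib, sum_comm]
    congr 1
    unfold mn
    rw [sum_comm, sum_div, mul_sum]
  unfold wi_E
  rw [h1]
  exact (norm_sum_le _ _).trans (sum_le_sum h)

/-- one summand of the sieve weight -/
noncomputable def wi_u (c : ℕ → ℝ) (d : ℕ) (y : ℤ) : ℂ :=
  ((if (d : ℤ) ∣ y ^ 2 - 2 then c d else 0 : ℝ) : ℂ)

theorem wi_u_le (c : ℕ → ℝ) (d : ℕ) (y : ℤ) : ‖wi_u c d y‖ ≤ |c d| := by
  unfold wi_u
  rw [Complex.norm_real, Real.norm_eq_abs]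
  split_ifs
  · exact le_rfl
  · rw [abs_zero]
    exact abs_nonneg _

theorem wi_u_per (c : ℕ → ℝ) (d : ℕ) : Per d (wi_u c d) := by
  intro y
  unfold wi_u
  have h : (d : ℤ) ∣ (y + (d : ℤ)) ^ 2 - 2 ↔ (d : ℤ) ∣ y ^ 2 - 2 := by
    have h1 : (y + (d : ℤ)) ^ 2 - 2 = (y ^ 2 - 2) + (d : ℤ) * (2 * y + d) := by ring
    rw [h1, dvd_add_left (dvd_mul_right _ _)]
  simp only [h]

theorem wi_SD (D : ℕ) (c : ℕ → ℝ) (y : ℤ) :
    ((SD D c y : ℝ) : ℂ) = ∑ d ∈ Icc 1 D, wi_u c d y := by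
  unfold SD wi_u
  rw [← Complex.ofReal_sum]

/-- WI. -/
theorem thm_Wi : St_Wi := by
  intro T Q D m n t L B c b b' hT hTQ hB hb hb'
  have hM : 1 ≤ MF Q D := Nat.factorial_pos _
  obtain ⟨M, hMe⟩ : ∃ M, M = MF Q D := ⟨_, rfl⟩
  rw [← hMe] at hM ⊢
  set e : ℕ → ℝ := fun d => 2 * ((Q : ℝ) ^ 2 * D) * ((B * T) * ((B * T) * |c d|)) with he
  have he0 : ∀ d, 0 ≤ e d := fun d => by positivity
  have key : ∀ (x x' : Chr) (k k' d : ℕ), 1 ≤ x.1 → x.1 ≤ T → 1 ≤ k → x.1 * k ≤ Q →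
      1 ≤ x'.1 → x'.1 ≤ T → 1 ≤ k' → x'.1 * k' ≤ Q → d ∈ Icc 1 D →
      wi_E t L M (fun y => wi_t b' x' k' y *
        (wi_t b x k (n - m * y) * wi_u c d y)) ≤ e d := by
    intro x x' k k' d hc hcT hk hkQ hc' hcT' hk' hkQ' hd
    obtain ⟨hd1, hdD⟩ := mem_Icc.mp hd
    have p1 := wi_t_per b' x' k'
    have p2 := wi_per_lin (wi_t_per b x k) (n : ℤ) (m : ℤ)
    have p3 := wi_u_per c d
    have hck : 1 ≤ x.1 * k := Nat.mul_pos hc hk
    have hck' : 1 ≤ x'.1 * k' := Nat.mul_pos hc' hk'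
    have hf : ∀ j : ℕ, 1 ≤ j → j ≤ Q + D → j ∣ M := fun j h1 h2 =>
      hMe ▸ Nat.dvd_factorial h1 h2
    refine wi_base thm_Mt t L M ((x'.1 * k') * ((x.1 * k) * d)) _
      ((B * T) * ((B * T) * |c d|)) ((Q : ℝ) ^ 2 * D) (Nat.mul_pos hck' (Nat.mul_pos hck hd1))
      hM ?_ ?_ ?_ ?_
    · exact wi_per_mul2 (wi_per_dvd p1 (dvd_mul_right _ _))
        (wi_per_mul2 (wi_per_dvd p2 ((dvd_mul_right _ _).mul_left _))
          (wi_per_dvd p3 ((dvd_mul_left _ _).mul_left _)))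
    · exact wi_per_mul2 (wi_per_dvd p1 (hf _ hck' (hkQ'.trans (Nat.le_add_right _ _))))
        (wi_per_mul2 (wi_per_dvd p2 (hf _ hck (hkQ.trans (Nat.le_add_right _ _))))
          (wi_per_dvd p3 (hf _ hd1 (hdD.trans (Nat.le_add_left _ _)))))
    · intro y
      have n1 := wi_t_le hb' hc' hcT' hk' y
      have n2 := wi_t_le hb hc hcT hk (n - m * y)
      have n3 := wi_u_le c d y
      rw [norm_mul, norm_mul]
      have hBT : 0 ≤ B * T := by positivity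
      exact mul_le_mul n1 (mul_le_mul n2 n3 (norm_nonneg _) hBT) (by positivity) hBT
    · push_cast
      have a1 : (x'.1 : ℝ) * k' ≤ Q := by exact_mod_cast hkQ'
      have a2 : (x.1 : ℝ) * k ≤ Q := by exact_mod_cast hkQ
      have a3 : (d : ℝ) ≤ D := by exact_mod_cast hdD
      calc (x'.1 : ℝ) * k' * ((x.1 : ℝ) * k * d) ≤ Q * (Q * D) := by
            refine mul_le_mul a1 (mul_le_mul a2 a3 ?_ ?_) ?_ ?_ <;> positivity
        _ = (Q : ℝ) ^ 2 * D := by ring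
  have step1 : ∀ (x : Chr) (k : ℕ), 1 ≤ x.1 → x.1 ≤ T → 1 ≤ k → x.1 * k ≤ Q →
      wi_E t L M (fun y => wi_t b x k (n - m * y) *
        (PM b' T Q y * ((SD D c y : ℝ) : ℂ))) ≤ T * (T * (Q * ∑ d ∈ Icc 1 D, e d)) := by
    intro x k hc hcT hk hkQ
    have e1 : (fun y : ℤ => wi_t b x k (n - m * y) * (PM b' T Q y * ((SD D c y : ℝ) : ℂ))) =
        fun y : ℤ => PM b' T Q y * (wi_t b x k (n - m * y) * ((SD D c y : ℝ) : ℂ)) := by
      funext y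
      ring
    rw [e1]
    refine wi_PM thm_Bl b' T Q t L M
      (fun y => wi_t b x k (n - m * y) * ((SD D c y : ℝ) : ℂ)) (fun y => y)
      (∑ d ∈ Icc 1 D, e d) (sum_nonneg fun d _ => he0 d) fun x' k' hc' hcT' hk' hkQ' => ?_
    have e2 : (fun y : ℤ => wi_t b' x' k' y *
        (wi_t b x k (n - m * y) * ((SD D c y : ℝ) : ℂ))) =
        fun y : ℤ => ∑ d ∈ Icc 1 D, wi_t b' x' k' y *
          (wi_t b x k (n - m * y) * wi_u c d y) := by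
      funext y
      rw [wi_SD, mul_sum, mul_sum]
    rw [e2]
    exact wi_sumw t L M _ _ e fun d hd =>
      key x x' k k' d hc hcT hk hkQ hc' hcT' hk' hkQ' hd
  have step2 := wi_PM thm_Bl b T Q t L M
    (fun y => PM b' T Q y * ((SD D c y : ℝ) : ℂ)) (fun y => (n : ℤ) - m * y)
    (T * (T * (Q * ∑ d ∈ Icc 1 D, e d)))
    (by have := sum_nonneg (s := Icc 1 D) fun d _ => he0 d; positivity) step1
  have e3 : (fun y : ℤ => PM b T Q ((n : ℤ) - m * y) * (PM b' T Q y * ((SD D c y : ℝ) : ℂ))) =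
      fun y : ℤ => PM b T Q (n - m * y) * PM b' T Q y * ((SD D c y : ℝ) : ℂ) := by
    funext y
    ring
  rw [e3] at step2
  refine step2.trans (le_of_eq ?_)
  have e4 : ∑ d ∈ Icc 1 D, e d =
      2 * ((Q : ℝ) ^ 2 * D) * ((B * T) * ((B * T) * ∑ d ∈ Icc 1 D, |c d|)) := by
    rw [mul_sum, mul_sum, mul_sum]
  rw [e4]
  ring

end Pool.Agent.MV5
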