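import Pool.Agent.MV5.StB
import Pool.Agent.MVII.Bf
import Pool.Agent.MVII.Ga
import Pool.Agent.MVII.Bl
import Pool.Agent.MVII.Wc

set_option autoImplicit false

/-!
# MV5, module Wn: another bound for the components of the model
-/

namespace Pool.Agent.MV5

open Finset Filter
open Pool.Agent.GBQ (ee lam nd Admissible)
open Pool.Agent.MVX (Chr tent Bm Um prm Win GP)
open Pool.Agent.LIN (PP pz Dens)
open Pool.Agent.MT (IsWt)
open Pool.Agent.MVII (TT QQ HH H0 cp cs gp GQ ar PL PM NB BI Bc Md fj rr Per mn wq Sum4 Blk Wc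
  ud wc_B wc_mem_ud wc_mu wc_term wc_trans wc_fj_nonneg wc_ee_norm wc_lam_nonneg thm_Bf thm_Ga
  thm_Bl gs)

theorem wn_B (T q a n : ℕ) (hq : 1 ≤ q) : ‖wc_B T q a n‖ ≤ (T : ℝ) ^ 2 * Real.sqrt T := by
  unfold wc_B
  have hφ : (1 : ℝ) ≤ (q.totient : ℝ) := by
    exact_mod_cast Nat.totient_pos.mpr hq
  have hcard : ((ud T q).card : ℝ) ≤ T := by
    have h3 : ud T q ⊆ Icc 1 T := fun r hr => by
      have := wc_mem_ud hr
      exact Finset.mem_Icc.mpr ⟨this.1, this.2.1⟩
    have h5 := Finset.card_le_card h3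
    rw [Nat.card_Icc, Nat.add_sub_cancel] at h5
    exact_mod_cast h5
  calc ‖∑ r ∈ ud T q, ((ArithmeticFunction.moebius (q / r) : ℂ) / (q.totient : ℂ)) *
        ∑ χ ∈ prm r, ((r : ℂ) / gs ⟨r, χ⟩) * (starRingEnd ℂ) (χ ((q / r : ℕ) : ZMod r)) *
          χ (a : ZMod r) * χ (n : ZMod r)‖
      ≤ ∑ r ∈ ud T q, (T : ℝ) * Real.sqrt T := by
        refine (norm_sum_le _ _).trans (Finset.sum_le_sum fun r hr => ?_)
        have hr' := wc_mem_ud hr
        have hrT : (r : ℝ) ≤ T := by exact_mod_cast hr'.2.1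
        rw [norm_mul]
        have h6 : ‖∑ χ ∈ prm r, ((r : ℂ) / gs ⟨r, χ⟩) *
            (starRingEnd ℂ) (χ ((q / r : ℕ) : ZMod r)) * χ (a : ZMod r) * χ (n : ZMod r)‖ ≤
            (T : ℝ) * Real.sqrt T := by
          calc _ ≤ ∑ χ ∈ prm r, Real.sqrt T := by
                refine (norm_sum_le _ _).trans (Finset.sum_le_sum fun χ hχ => ?_)
                rw [norm_mul]
                have h7 := wc_term thm_Ga hr'.1 hχ (q / r) a
                have h8 : ‖χ (n : ZMod r)‖ ≤ 1 := χ.norm_le_one _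
                calc _ ≤ Real.sqrt r * 1 := mul_le_mul h7 h8 (norm_nonneg _) (Real.sqrt_nonneg _)
                  _ ≤ Real.sqrt T := by rw [mul_one]; exact Real.sqrt_le_sqrt hrT
            _ = ((prm r).card : ℝ) * Real.sqrt T := by rw [Finset.sum_const, nsmul_eq_mul]
            _ ≤ (T : ℝ) * Real.sqrt T := by
                refine mul_le_mul_of_nonneg_right ?_ (Real.sqrt_nonneg _)
                refine le_trans ?_ hrT
                exact_mod_cast thm_Bl.2.2.2.2 r hr'.1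
        calc _ ≤ 1 * ((T : ℝ) * Real.sqrt T) := by
              refine mul_le_mul ((wc_mu _ _).trans ?_) h6 (norm_nonneg _) zero_le_one
              rw [div_le_one (by linarith)]
              exact hφ
          _ = (T : ℝ) * Real.sqrt T := one_mul _
    _ = ((ud T q).card : ℝ) * ((T : ℝ) * Real.sqrt T) := by rw [Finset.sum_const, nsmul_eq_mul]
    _ ≤ (T : ℝ) * ((T : ℝ) * Real.sqrt T) :=
        mul_le_mul_of_nonneg_right hcard (mul_nonneg (Nat.cast_nonneg _) (Real.sqrt_nonneg _))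
    _ = (T : ℝ) ^ 2 * Real.sqrt T := by ring

theorem thm_Wn : St_Wn := by
  intro T h u v q a γ hh hu hv hq _
  rw [wc_trans thm_Bf T h u v q a γ hh hu hv, norm_mul, Complex.norm_real,
    Real.norm_of_nonneg (wc_fj_nonneg h γ)]
  refine mul_le_mul_of_nonneg_left ?_ (wc_fj_nonneg h γ)
  rw [Finset.mul_sum]
  refine (norm_sum_le _ _).trans (Finset.sum_le_sum fun n _ => ?_)
  rw [norm_mul, norm_mul, wc_ee_norm, mul_one, Complex.norm_real,
    Real.norm_of_nonneg (wc_lam_nonneg n), mul_comm]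
  exact mul_le_mul_of_nonneg_right (wn_B T q a n hq) (wc_lam_nonneg n)

end Pool.Agent.MV5
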