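import Pool.Agent.MV5.StB
import Pool.Agent.MVII.Ep

set_option autoImplicit false

/-!
# MV5, module Wt: the weight of a conductor
-/

namespace Pool.Agent.MV5

open Finset Filter

private theorem wt_harm (D : ℕ) : ∑ j ∈ Icc 1 D, (1 : ℝ) / j ≤ 1 + Real.log D := by
  have h := harmonic_le_one_add_log D
  have h2 : ((harmonic D : ℚ) : ℝ) = ∑ j ∈ Icc 1 D, (1 : ℝ) / j := by
    rw [harmonic_eq_sum_Icc]
    push_cast
    simp [one_div]
  rw [← h2]
  exact h

private theorem wt_mult (D s : ℕ) (hs : 1 ≤ s) :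
    ∑ k ∈ Icc 1 D, (if s ∣ k then (1 : ℝ) / k else 0) ≤ (1 / s) * (1 + Real.log D) := by
  rw [← Finset.sum_filter]
  have h1 : ∑ k ∈ (Icc 1 D).filter (fun k => s ∣ k), (1 : ℝ) / k =
      ∑ j ∈ ((Icc 1 D).filter (fun k => s ∣ k)).image (fun k => k / s), (1 : ℝ) / s * (1 / j) := by
    rw [Finset.sum_image]
    · refine Finset.sum_congr rfl fun k hk => ?_
      obtain ⟨hk1, j, rfl⟩ := Finset.mem_filter.1 hk
      rw [Nat.mul_div_cancel_left _ hs]
      push_cast
      rw [one_div_mul_one_div]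
    · intro a ha b hb hab
      have h3 := Nat.mul_div_cancel' (Finset.mem_filter.1 (Finset.mem_coe.1 ha)).2
      have h4 := Nat.mul_div_cancel' (Finset.mem_filter.1 (Finset.mem_coe.1 hb)).2
      have h5 : a / s = b / s := hab
      rw [← h3, ← h4, h5]
  rw [h1, ← Finset.mul_sum]
  refine mul_le_mul_of_nonneg_left ?_ (by positivity)
  refine le_trans (Finset.sum_le_sum_of_subset_of_nonneg ?_ fun j _ _ => by positivity)
    (wt_harm D)
  intro j hj
  obtain ⟨k, hk, rfl⟩ := Finset.mem_image.1 hj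
  obtain ⟨hk1, hk2⟩ := Finset.mem_filter.1 hk
  obtain ⟨hk3, hk4⟩ := Finset.mem_Icc.1 hk1
  exact Finset.mem_Icc.2 ⟨Nat.div_pos (Nat.le_of_dvd (by omega) hk2) hs,
    (Nat.div_le_self k s).trans hk4⟩

private theorem wt_gcd (D q : ℕ) (hq : 1 ≤ q) (F : ℕ → ℝ) (hF : ∀ k, 0 ≤ F k) :
    ∑ d ∈ Icc 1 D, F (d / Nat.gcd d q) ≤ (q.divisors.card : ℝ) * ∑ k ∈ Icc 1 D, F k := by
  have hmaps : ∀ d ∈ Icc 1 D, Nat.gcd d q ∈ q.divisors := fun d _ =>
    Nat.mem_divisors.2 ⟨Nat.gcd_dvd_right _ _, by omega⟩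
  rw [← Finset.sum_fiberwise_of_maps_to hmaps]
  have h1 : ∀ g ∈ q.divisors, ∑ d ∈ (Icc 1 D).filter (fun d => Nat.gcd d q = g),
      F (d / Nat.gcd d q) ≤ ∑ k ∈ Icc 1 D, F k := by
    intro g hg
    have hg0 : 0 < g := Nat.pos_of_mem_divisors hg
    have h2 : ∑ d ∈ (Icc 1 D).filter (fun d => Nat.gcd d q = g), F (d / Nat.gcd d q) =
        ∑ k ∈ ((Icc 1 D).filter (fun d => Nat.gcd d q = g)).image (fun d => d / g), F k := by
      rw [Finset.sum_image]
      · refine Finset.sum_congr rfl fun d hd => ?_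
        rw [(Finset.mem_filter.1 hd).2]
      · intro a ha b hb hab
        have e1 := (Finset.mem_filter.1 (Finset.mem_coe.1 ha)).2
        have e2 := (Finset.mem_filter.1 (Finset.mem_coe.1 hb)).2
        have h3 := Nat.mul_div_cancel' (e1 ▸ Nat.gcd_dvd_left a q)
        have h4 := Nat.mul_div_cancel' (e2 ▸ Nat.gcd_dvd_left b q)
        have h5 : a / g = b / g := hab
        rw [← h3, ← h4, h5]
    rw [h2]
    refine Finset.sum_le_sum_of_subset_of_nonneg ?_ fun k _ _ => hF k
    intro j hj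
    obtain ⟨k, hk, rfl⟩ := Finset.mem_image.1 hj
    obtain ⟨hk1, hk2⟩ := Finset.mem_filter.1 hk
    obtain ⟨hk3, hk4⟩ := Finset.mem_Icc.1 hk1
    have hk5 : g ∣ k := hk2 ▸ Nat.gcd_dvd_left k q
    exact Finset.mem_Icc.2 ⟨Nat.div_pos (Nat.le_of_dvd (by omega) hk5) hg0,
      (Nat.div_le_self k g).trans hk4⟩
  refine (Finset.sum_le_sum h1).trans ?_
  rw [Finset.sum_const, nsmul_eq_mul]

theorem thm_Wt (h : St_Rt) : St_Wt := by
  intro C ε hε
  have he : 0 < ε / 7 := by linarith
  filter_upwards [MVII.thm_Ep (ε / 7) he 1, MVII.ep_large C (ε / 7) he,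
    eventually_ge_atTop 1] with X hX hC hX1
  intro c D q r hc hDX hq hqX hr
  obtain ⟨e1, e2, e3, -, -⟩ := hX
  have hX0 : (0 : ℝ) < X := by exact_mod_cast hX1
  have hXε : (X : ℝ) ^ ε = ((X : ℝ) ^ (ε / 7)) ^ 7 := by
    rw [← Real.rpow_natCast, ← Real.rpow_mul hX0.le]
    congr 1
    push_cast
    ring
  rw [hXε]
  set A : ℝ := (X : ℝ) ^ (ε / 7) with hA
  have hA0 : 0 < A := Real.rpow_pos_of_pos hX0 _
  have hg0 : 0 < Nat.gcd r q := Nat.gcd_pos_of_pos_left _ hr
  obtain ⟨s, hs⟩ : Nat.gcd r q ∣ r := Nat.gcd_dvd_left r q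
  obtain ⟨q', hq'⟩ : Nat.gcd r q ∣ q := Nat.gcd_dvd_right r q
  set g := Nat.gcd r q with hg
  have hs1 : 1 ≤ s := by
    rcases Nat.eq_zero_or_pos s with h1 | h1
    · rw [h1] at hs
      omega
    · exact h1
  have hcop : Nat.Coprime s q' := by
    have h1 := Nat.coprime_div_gcd_div_gcd (m := r) (n := q) hg0
    rw [← hg] at h1
    have h2 : r / g = s := by
      conv_lhs => rw [hs]
      exact Nat.mul_div_cancel_left _ hg0
    have h3 : q / g = q' := by
      conv_lhs => rw [hq']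
      exact Nat.mul_div_cancel_left _ hg0
    rwa [h2, h3] at h1
  have hq0 : (0 : ℝ) < q := by exact_mod_cast hq
  have hsq : 0 < Real.sqrt q := Real.sqrt_pos.2 hq0
  have hterm : ∀ d ∈ Icc 1 D, |c d| * ((RT d).card : ℝ) *
      (if r ∣ Nat.lcm d q then Real.sqrt q / (Nat.lcm d q).totient else 0) ≤
      A ^ 5 / Real.sqrt q *
        (if s ∣ d / Nat.gcd d q then 1 / ((d / Nat.gcd d q : ℕ) : ℝ) else 0) := by
    intro d hd
    obtain ⟨hd1, hdD⟩ := Finset.mem_Icc.1 hd
    have hR : 0 ≤ A ^ 5 / Real.sqrt q *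
        (if s ∣ d / Nat.gcd d q then 1 / ((d / Nat.gcd d q : ℕ) : ℝ) else 0) := by
      refine mul_nonneg (by positivity) ?_
      split_ifs
      · positivity
      · exact le_rfl
    by_cases hcd : c d = 0
    · rw [hcd, abs_zero, zero_mul, zero_mul]
      exact hR
    by_cases hrl : r ∣ Nat.lcm d q
    swap
    · rw [if_neg hrl, mul_zero]
      exact hR
    obtain ⟨hsf, -, -⟩ := hc.supp d hcd
    have hG0 : 0 < Nat.gcd d q := Nat.gcd_pos_of_pos_left _ hd1
    obtain ⟨d', hd'⟩ : Nat.gcd d q ∣ d := Nat.gcd_dvd_left d q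
    have hdd : d / Nat.gcd d q = d' := by
      conv_lhs => rw [hd']
      rw [← hd']
      exact Nat.div_eq_of_eq_mul_right hG0 hd'
    have hd'1 : 1 ≤ d' := by
      rcases Nat.eq_zero_or_pos d' with h1 | h1
      · rw [h1, mul_zero] at hd'
        omega
      · exact h1
    have hd'X : d' ≤ X := by
      have : d' ∣ d := Dvd.intro_left _ hd'.symm
      exact ((Nat.le_of_dvd hd1 this).trans hdD).trans hDX
    have hl : Nat.lcm d q = d' * q := by
      have h1 := Nat.gcd_mul_lcm d q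
      have h2 : Nat.gcd d q * Nat.lcm d q = Nat.gcd d q * (d' * q) := by
        rw [h1]
        conv_lhs => rw [hd']
        ring
      exact Nat.eq_of_mul_eq_mul_left hG0 h2
    have hco : Nat.Coprime d' q := by
      have h1 : Nat.Coprime (Nat.gcd d q) d' := by
        have h2 : Squarefree (Nat.gcd d q * d') := hd' ▸ hsf
        exact (Nat.squarefree_mul_iff.1 h2).1
      have h2 : Nat.gcd d' q ∣ Nat.gcd d q :=
        Nat.dvd_gcd ((Nat.gcd_dvd_left d' q).trans (Dvd.intro_left _ hd'.symm))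
          (Nat.gcd_dvd_right d' q)
      exact Nat.eq_one_of_dvd_coprimes h1 h2 (Nat.gcd_dvd_left d' q)
    have hsd : s ∣ d' := by
      have h1 : g * s ∣ g * (d' * q') := by
        rw [← hs]
        have h2 : g * (d' * q') = d' * (g * q') := by ring
        rw [h2, ← hq', ← hl]
        exact hrl
      exact hcop.dvd_of_dvd_mul_right (Nat.dvd_of_mul_dvd_mul_left hg0 h1)
    rw [hdd, if_pos hrl, if_pos hsd, hl, Nat.totient_mul hco]
    have hd'0 : (0 : ℝ) < d' := by exact_mod_cast hd'1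
    have hφd : (0 : ℝ) < d'.totient := by exact_mod_cast Nat.totient_pos.2 hd'1
    have hφq : (0 : ℝ) < q.totient := by exact_mod_cast Nat.totient_pos.2 hq
    have h3 := (e3 d' hd'1 hd'X).1
    have h4 := (e3 q hq hqX).1
    have h5 := (e3 d hd1 (hdD.trans hDX)).2
    have h6 : |c d| ≤ A * 8 ^ d.primeFactors.card :=
      (hc.bound d).trans (mul_le_mul_of_nonneg_right hC (by positivity))
    have h7 : ((RT d).card : ℝ) ≤ 2 ^ d.primeFactors.card := by exact_mod_cast h.1 d hsf
    have h8 : |c d| * ((RT d).card : ℝ) ≤ A ^ 3 := by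
      have h9 : |c d| * ((RT d).card : ℝ) ≤
          (A * 8 ^ d.primeFactors.card) * 2 ^ d.primeFactors.card :=
        mul_le_mul h6 h7 (Nat.cast_nonneg _) (by positivity)
      have h10 : (A * 8 ^ d.primeFactors.card) * (2 : ℝ) ^ d.primeFactors.card =
          A * ((4 : ℝ) ^ d.primeFactors.card) ^ 2 := by
        rw [mul_assoc, ← mul_pow, ← pow_mul, mul_comm d.primeFactors.card 2, pow_mul]
        norm_num
      have h11 : ((4 : ℝ) ^ d.primeFactors.card) ^ 2 ≤ A ^ 2 := by
        gcongr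
      calc _ ≤ _ := h9
        _ = A * ((4 : ℝ) ^ d.primeFactors.card) ^ 2 := h10
        _ ≤ A * A ^ 2 := by gcongr
        _ = A ^ 3 := by ring
    have h9 : Real.sqrt q / ((d'.totient * q.totient : ℕ) : ℝ) ≤
        A ^ 2 / (Real.sqrt q * d') := by
      push_cast
      rw [div_le_div_iff₀ (by positivity) (by positivity)]
      calc Real.sqrt q * (Real.sqrt q * d') = (Real.sqrt q * Real.sqrt q) * d' := by ring
        _ = q * d' := by rw [Real.mul_self_sqrt hq0.le]
        _ ≤ (q.totient * A) * (d'.totient * A) := mul_le_mul h4 h3 hd'0.le (by positivity)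
        _ = A ^ 2 * (d'.totient * q.totient) := by ring
    calc |c d| * ((RT d).card : ℝ) * (Real.sqrt q / ((d'.totient * q.totient : ℕ) : ℝ))
        ≤ A ^ 3 * (A ^ 2 / (Real.sqrt q * d')) :=
          mul_le_mul h8 h9 (by positivity) (by positivity)
      _ = A ^ 5 / Real.sqrt q * (1 / d') := by
        field_simp
  refine (Finset.sum_le_sum hterm).trans ?_
  rw [← Finset.mul_sum]
  have h1 := wt_gcd D q hq (fun k => if s ∣ k then (1 : ℝ) / k else 0) (by
    intro k
    show (0 : ℝ) ≤ if s ∣ k then (1 : ℝ) / k else 0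
    split_ifs
    · positivity
    · exact le_rfl)
  have h2 := wt_mult D s hs1
  have h3 : (q.divisors.card : ℝ) ≤ A := e1 q hq (hqX.trans (Nat.le_self_pow (by norm_num) X))
  have h4 : 1 + Real.log D ≤ A := by
    rw [pow_one] at e2
    refine le_trans ?_ e2
    rcases Nat.eq_zero_or_pos D with h5 | h5
    · rw [h5]
      have h6 : 0 ≤ Real.log (2 * X) := by
        apply Real.log_nonneg
        have : (1 : ℝ) ≤ X := by exact_mod_cast hX1
        linarith
      simp only [Nat.cast_zero, Real.log_zero]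
      linarith
    · have h6 : (D : ℝ) ≤ 2 * X := by
        have h7 : (D : ℝ) ≤ X := by exact_mod_cast hDX
        linarith
      have h7 := Real.log_le_log (by exact_mod_cast h5) h6
      linarith
  have hs0 : (0 : ℝ) < s := by exact_mod_cast hs1
  have hr0 : (0 : ℝ) < r := by exact_mod_cast hr
  have hgR : (0 : ℝ) < g := by exact_mod_cast hg0
  have h5 : ∑ d ∈ Icc 1 D, (if s ∣ d / Nat.gcd d q then 1 / ((d / Nat.gcd d q : ℕ) : ℝ) else 0) ≤
      A * ((1 / s) * A) := by
    refine h1.trans ?_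
    have h6 : ∑ k ∈ Icc 1 D, (if s ∣ k then (1 : ℝ) / k else 0) ≤ (1 / s) * A :=
      h2.trans (mul_le_mul_of_nonneg_left h4 (by positivity))
    refine (mul_le_mul_of_nonneg_left h6 (Nat.cast_nonneg _)).trans ?_
    exact mul_le_mul_of_nonneg_right h3 (by positivity)
  refine (mul_le_mul_of_nonneg_left h5 (by positivity)).trans (le_of_eq ?_)
  have h6 : (r : ℝ) = g * s := by exact_mod_cast hs
  rw [h6]
  field_simp

end Pool.Agent.MV5
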