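import Pool.Agent.MV5.Glue
import Pool.Agent.MV5.Se
import Pool.Agent.MV5.Ti
import Pool.Agent.MV5.T0
import Pool.Agent.MV5.Tt
import Pool.Agent.MV5.Lk
import Pool.Agent.MV5.Ht
import Pool.Agent.MV5.Hb
import Pool.Agent.MV5.Ld
import Pool.Agent.MV5.Lw
import Pool.Agent.MV5.Ls
import Pool.Agent.MV5.Rm
import Pool.Agent.MV5.Fe
import Pool.Agent.MV5.Bs
import Pool.Agent.MV5.Ab
import Pool.Agent.MV5.Rt
import Pool.Agent.MV5.Sb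
import Pool.Agent.MV5.Oc
import Pool.Agent.MV5.Fb
import Pool.Agent.MV5.Ap
import Pool.Agent.MV5.Mk
import Pool.Agent.MV5.Om
import Pool.Agent.MV5.Bp
import Pool.Agent.MV5.Al
import Pool.Agent.MV5.Am
import Pool.Agent.MV5.Wt
import Pool.Agent.MV5.Ar
import Pool.Agent.MV5.Wn
import Pool.Agent.MV5.Of
import Pool.Agent.MV5.L2
import Pool.Agent.MV5.E1
import Pool.Agent.MV5.E2
import Pool.Agent.MV5.Sg
import Pool.Agent.MV5.Sw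
import Pool.Agent.MV5.Or
import Pool.Agent.MV5.La
import Pool.Agent.MV5.Tr
import Pool.Agent.MV5.Pr
import Pool.Agent.MV5.Cq
import Pool.Agent.MV5.Cp
import Pool.Agent.MV5.Wi
import Pool.Agent.MV5.Gl
import Pool.Agent.MV5.Dn
import Pool.Agent.MV5.Pf
import Pool.Agent.MV5.Pe
import Pool.Agent.MV5.Po
import Pool.Agent.MV5.Gd
import Pool.Agent.MV5.W0
import Pool.Agent.MV5.W1
import Pool.Agent.MV5.Mn
import Pool.Agent.MV5.Up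
import Pool.Agent.MV5.Bk
import Pool.Agent.MV5.Fi
import Pool.Agent.MT.Wt
import Pool.Agent.GBR.Asm

set_option autoImplicit false

/-! Assembly: power saving in the exceptional set with five prime factors. -/

namespace Pool.Agent.MV5

open Finset Filter
open Pool.Agent.MVX (GP)
open Pool.Agent.GBQ (Admissible)
open Pool.Agent.MVII (SolN)

theorem asm_Ls : St_Ls :=
  thm_Ls (thm_Ld (thm_Lk thm_Ti (thm_Tt thm_Se))) thm_Lw (thm_Hb thm_Ti thm_T0 (thm_Ht thm_Se))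

theorem asm_Ar : St_Ar :=
  thm_Ar (thm_Al thm_Rt (thm_Ap thm_Oc thm_Fb))
    (thm_Am thm_Rt (thm_Bp thm_Ab thm_Mk thm_Om) thm_Fe thm_Bs) thm_Fb (thm_Wt thm_Rt)

theorem asm_E2 : St_E2 := thm_E2 thm_Rm thm_Bs thm_Sb (thm_Of thm_Wn) thm_L2

theorem asm_W1 : St_W1 :=
  thm_W1 (thm_W0 thm_Rm thm_Bs thm_Sb) thm_Sw thm_Wi
    (thm_Cp (thm_Cq thm_Or thm_La thm_Tr thm_Pr)) (thm_Po thm_Sw thm_Pf thm_Pe thm_Gl)
    (thm_Dn thm_Gl)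

theorem asm_Bk : St_Bk := thm_Bk (thm_Mn asm_W1 thm_Bs) (thm_Up thm_Sw thm_Sb) thm_Sw

theorem final5 (gp : GP) : ∃ C : ℕ, ∀ ε : ℝ, 0 < ε → ∃ (δ : ℝ) (N₀ : ℕ), 0 < δ ∧ ∀ N ≥ N₀,
    ∀ m : ℕ, ∀ F : Finset ℕ, (∀ n ∈ F, n ≤ N ∧ Admissible m n ∧
      (SolN 5 m n = ∅ ∨ (12 * m ≤ n ∧ ((SolN 5 m n).card : ℝ) < (n : ℝ) ^ (1 - ε)))) →
    (F.card : ℝ) ≤ (N : ℝ) ^ (1 - δ) ∧ (m : ℝ) * F.card ≤ N * Real.log N ^ C :=
  glue asm_Ls asm_Ar (thm_E1 thm_Sb) asm_E2 thm_Sg thm_Gd asm_Bk thm_Fi MT.exists_wt GBR.fin gp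

end Pool.Agent.MV5
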