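import Mathlib
import Pool.Agent.MV5.StA
import Pool.Agent.MV5.StB
import Pool.Agent.MV5.StC
import Pool.Agent.MV5.StD

set_option autoImplicit false

/-! The final steps of the assembly. -/

namespace Pool.Agent.MV5

open Finset Filter
open Pool.Agent.MT (IsWt)
open Pool.Agent.MVX (GP)
open Pool.Agent.GBQ (Admissible)
open Pool.Agent.MVII (SolN)

theorem glue (hLs : St_Ls) (hAr : St_Ar) (hE1 : St_E1) (hE2 : St_E2) (hSg : St_Sg) (hGd : St_Gd)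
    (hBk : St_Bk) (hFi : St_Fi) (hw : ∃ η : ℝ → ℝ, IsWt η)
    (hFin : ∃ c : ℝ, 0 < c ∧ AAN.FinH c 3 EVN.Phi) (gp : GP) :
    ∃ C : ℕ, ∀ ε : ℝ, 0 < ε → ∃ (δ : ℝ) (N₀ : ℕ), 0 < δ ∧ ∀ N ≥ N₀, ∀ m : ℕ, ∀ F : Finset ℕ,
    (∀ n ∈ F, n ≤ N ∧ Admissible m n ∧
      (SolN 5 m n = ∅ ∨ (12 * m ≤ n ∧ ((SolN 5 m n).card : ℝ) < (n : ℝ) ^ (1 - ε)))) →
    (F.card : ℝ) ≤ (N : ℝ) ^ (1 - δ) ∧ (m : ℝ) * F.card ≤ N * Real.log N ^ C := by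
  obtain ⟨η, hη⟩ := hw
  obtain ⟨c₀, δ₀, η₀, C, h1, h2, h3, h4, h5, h6⟩ := hSg
  refine hFi (fun ε hε => ?_) hFin
  set κ : ℝ := min (1 / 1000) (c₀ / (18 * C)) with hκ
  have hκ0 : 0 < κ := lt_min (by norm_num) (by positivity)
  have hκ1 : κ ≤ 1 / 1000 := min_le_left _ _
  have hκ2 : 18 * C * κ ≤ c₀ := by
    have := min_le_right (1 / 1000 : ℝ) (c₀ / (18 * C))
    rw [← hκ, le_div_iff₀ (by positivity)] at this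
    linarith
  obtain ⟨δ, hδ0, hδ1, hδ2, hD⟩ := hGd gp κ ε hκ0 (hκ1.trans (by norm_num)) hε
  refine ⟨δ, hδ0, hδ1, hBk η hη c₀ δ₀ η₀ C κ δ ε h1 h2 h3 h4 h5 hκ0 hκ1 hκ2 hδ0 hδ1 hδ2 h6 hD ?_⟩
  have hLs' : LsH η δ := hLs η hη δ hδ0 hδ1
  have hAr' : ArH η C δ := hAr η hη C δ hδ0 hδ1 hLs'
  filter_upwards [hE1 η hη C δ hδ0 hδ1, hE2 η hη C δ hδ0 hδ1 hAr'] with X e1 e2
  intro hS m c hm hm2 hc F hF
  exact ⟨e1 hS m c hm hm2 hc F hF, e2 hS m c hm hm2 hc F hF⟩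

end Pool.Agent.MV5
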