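import Pool.Agent.MV5.StB
import Pool.Agent.MVII.Ep

set_option autoImplicit false

/-!
# MV5 [Sb]: the size of the sieve weight
-/

namespace Pool.Agent.MV5

open Finset Filter

theorem thm_Sb : St_Sb := by
  intro C ε hε
  filter_upwards [MVII.ep_div (ε / 8) (by positivity), MVII.ep_large C (ε / 2) (by positivity),
    eventually_ge_atTop 3] with X h1 h2 h3
  intro c D y hc hy
  have hX0 : (0 : ℝ) < X := by exact_mod_cast (by omega : 0 < X)
  have hC : 0 ≤ C := by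
    have h4 := (abs_nonneg _).trans (hc.bound 1)
    simpa using h4
  have hy2 : y ^ 2 - 2 ≠ 0 := by
    intro h
    have h4 : |y| ^ 2 = 2 := by rw [sq_abs]; linarith
    rcases le_or_gt |y| 1 with h5 | h5
    · nlinarith [abs_nonneg y]
    · have h6 : (2 : ℤ) ≤ |y| := h5
      nlinarith
  obtain ⟨n, hn⟩ : ∃ n : ℕ, n = (y ^ 2 - 2).natAbs := ⟨_, rfl⟩
  have hn1 : 1 ≤ n := by
    rw [hn]
    exact Int.natAbs_pos.2 hy2
  have hnX : n ≤ X ^ 4 := by
    have h4 : ((n : ℕ) : ℤ) = |y ^ 2 - 2| := by rw [hn, Int.natCast_natAbs]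
    have h5 : |y ^ 2 - 2| ≤ (X : ℤ) ^ 4 := by
      have h6 : y ^ 2 ≤ (2 * (X : ℤ)) ^ 2 := by
        rw [← sq_abs]
        exact pow_le_pow_left₀ (abs_nonneg _) hy 2
      have h7 : (3 : ℤ) ≤ X := by exact_mod_cast h3
      have h8 : (9 : ℤ) ≤ (X : ℤ) ^ 2 := by nlinarith
      rw [abs_le]
      constructor
      · nlinarith [sq_nonneg y, sq_nonneg ((X : ℤ) ^ 2)]
      · nlinarith
    have h6 : ((n : ℕ) : ℤ) ≤ ((X ^ 4 : ℕ) : ℤ) := by
      rw [h4]
      push_cast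
      exact h5
    exact_mod_cast h6
  have hτ := h1 n hn1 hnX
  have hω := MVII.ep_omega n hn1
  have hτ0 : (0 : ℝ) ≤ n.divisors.card := Nat.cast_nonneg _
  have h8 : (8 : ℝ) ^ n.primeFactors.card ≤ (n.divisors.card : ℝ) ^ 3 := by
    calc (8 : ℝ) ^ n.primeFactors.card = ((2 : ℝ) ^ n.primeFactors.card) ^ 3 := by
          rw [← pow_mul, mul_comm, pow_mul]
          norm_num
      _ ≤ (n.divisors.card : ℝ) ^ 3 := pow_le_pow_left₀ (by positivity) hω 3
  have hbd : ∀ d ∈ n.divisors, |c d| ≤ C * (n.divisors.card : ℝ) ^ 3 := by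
    intro d hd
    refine (hc.bound d).trans (mul_le_mul_of_nonneg_left ?_ hC)
    refine le_trans ?_ h8
    refine pow_le_pow_right₀ (by norm_num) (card_le_card ?_)
    rw [Nat.mem_divisors] at hd
    exact Nat.primeFactors_mono hd.1 hd.2
  have hsub : (Icc 1 D).filter (fun d : ℕ => (d : ℤ) ∣ y ^ 2 - 2) ⊆ n.divisors := by
    intro d hd
    rw [mem_filter] at hd
    rw [Nat.mem_divisors, hn]
    exact ⟨Int.natCast_dvd.1 hd.2, by rw [← hn]; omega⟩
  calc |SD D c y| ≤ ∑ d ∈ (Icc 1 D).filter (fun d : ℕ => (d : ℤ) ∣ y ^ 2 - 2), |c d| := by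
        rw [SD, ← sum_filter]
        exact abs_sum_le_sum_abs _ _
    _ ≤ ∑ d ∈ n.divisors, |c d| := sum_le_sum_of_subset_of_nonneg hsub fun _ _ _ => abs_nonneg _
    _ ≤ ∑ d ∈ n.divisors, C * (n.divisors.card : ℝ) ^ 3 := sum_le_sum hbd
    _ = C * (n.divisors.card : ℝ) ^ 4 := by
        rw [sum_const, nsmul_eq_mul]
        ring
    _ ≤ (X : ℝ) ^ (ε / 2) * ((X : ℝ) ^ (ε / 8)) ^ 4 :=
        mul_le_mul h2 (pow_le_pow_left₀ hτ0 hτ 4) (by positivity) (by positivity)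
    _ = (X : ℝ) ^ ε := by
        rw [← Real.rpow_natCast ((X : ℝ) ^ (ε / 8)) 4, ← Real.rpow_mul hX0.le, ← Real.rpow_add hX0]
        congr 1
        push_cast
        ring

end Pool.Agent.MV5
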