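import Pool.Agent.MV5.StC

set_option autoImplicit false

/-!
# MV5, module SW: the sieve weight with the exceptional modulus
-/

namespace Pool.Agent.MV5

open Finset

theorem sw_ne (y : ℤ) : y ^ 2 - 2 ≠ 0 := by
  intro h
  have h1 : y ^ 2 = 2 := by linarith
  have h2 : |y| < 2 := by
    by_contra h3
    push Not at h3
    have h4 : (2 : ℤ) ^ 2 ≤ |y| ^ 2 := pow_le_pow_left₀ (by norm_num) h3 2
    rw [sq_abs] at h4
    omega
  have h3 : y ≤ 1 := by have := le_abs_self y; omega
  have h4 : -1 ≤ y := by have := neg_abs_le y; omega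
  interval_cases y <;> omega

/-- a set of primes -/
theorem sw_prod {T : Finset ℕ} (hT : ∀ p ∈ T, p.Prime) :
    Squarefree (∏ p ∈ T, p) ∧ (∏ p ∈ T, p).primeFactors = T ∧ ∏ p ∈ T, p ≠ 0 := by
  have h1 : (∏ p ∈ T, p).primeFactors = T := Nat.primeFactors_prod hT
  refine ⟨?_, h1, prod_ne_zero_iff.2 fun p hp => (hT p hp).ne_zero⟩
  refine Finset.squarefree_prod_of_pairwise_isCoprime ?_ fun p hp => (hT p hp).squarefree
  intro p hp q hq hpq
  exact Nat.coprime_iff_isRelPrime.1 ((Nat.coprime_primes (hT p hp) (hT q hq)).2 hpq)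

/-- sums over the divisors of functions which live on squarefree numbers -/
theorem sw_pow {n : ℕ} (hn : n ≠ 0) (c : ℕ → ℝ) (hc : ∀ d, c d ≠ 0 → Squarefree d) :
    ∑ d ∈ n.divisors, c d = ∑ T ∈ n.primeFactors.powerset, c (∏ p ∈ T, p) := by
  classical
  rw [← sum_filter_of_ne (p := fun d => Squarefree d) fun d _ h => hc d h]
  refine sum_bij' (fun d _ => d.primeFactors) (fun T _ => ∏ p ∈ T, p) ?_ ?_ ?_ ?_ ?_
  · intro d hd
    rw [mem_filter, Nat.mem_divisors] at hd
    exact mem_powerset.2 (Nat.primeFactors_mono hd.1.1 hn)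
  · intro T hT
    rw [mem_powerset] at hT
    have hp : ∀ p ∈ T, p.Prime := fun p hp => Nat.prime_of_mem_primeFactors (hT hp)
    rw [mem_filter, Nat.mem_divisors]
    refine ⟨⟨?_, hn⟩, (sw_prod hp).1⟩
    exact (prod_dvd_prod_of_subset T n.primeFactors (fun p => p) hT).trans
      (Nat.prod_primeFactors_dvd n)
  · intro d hd
    rw [mem_filter] at hd
    exact Nat.prod_primeFactors_of_squarefree hd.2
  · intro T hT
    rw [mem_powerset] at hT
    exact (sw_prod fun p hp => Nat.prime_of_mem_primeFactors (hT hp)).2.1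
  · intro d hd
    rw [mem_filter] at hd
    rw [Nat.prod_primeFactors_of_squarefree hd.2]

theorem sw_Icc {D n : ℕ} (hn : n ≠ 0) (c : ℕ → ℝ) (hc : ∀ d, c d ≠ 0 → d ≤ D) :
    ∑ d ∈ Icc 1 D, (if d ∣ n then c d else 0) = ∑ d ∈ n.divisors, c d := by
  rw [← sum_filter]
  refine sum_subset ?_ ?_
  · intro d hd
    rw [mem_filter] at hd
    exact Nat.mem_divisors.2 ⟨hd.2, hn⟩
  · intro d hd hd2
    by_contra h
    apply hd2
    rw [mem_filter, mem_Icc]
    exact ⟨⟨Nat.pos_of_mem_divisors hd, hc d h⟩, Nat.dvd_of_mem_divisors hd⟩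

theorem sw_SD {D : ℕ} (c : ℕ → ℝ) (hc : ∀ d, c d ≠ 0 → Squarefree d ∧ d ≤ D) (y : ℤ) :
    SD D c y = ∑ T ∈ (y ^ 2 - 2).natAbs.primeFactors.powerset, c (∏ p ∈ T, p) := by
  have hn : (y ^ 2 - 2).natAbs ≠ 0 := Int.natAbs_ne_zero.2 (sw_ne y)
  rw [← sw_pow hn c fun d hd => (hc d hd).1, ← sw_Icc hn c fun d hd => (hc d hd).2]
  unfold SD
  refine sum_congr rfl fun d _ => ?_
  exact if_congr Int.natCast_dvd rfl rfl

/-- the primes of the part prime to `2 q₁` -/
def sw_B (q₁ : ℕ) (y : ℤ) : Finset ℕ :=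
  (y ^ 2 - 2).natAbs.primeFactors.filter fun p => ¬ p ∣ 2 * q₁

theorem sw_S1 {D q₁ : ℕ} (c : ℕ → ℝ) (hc : ∀ d, c d ≠ 0 → Squarefree d ∧ d ≤ D) (y : ℤ) :
    S1 D q₁ c y = ∑ T ∈ (sw_B q₁ y).powerset, c (∏ p ∈ T, p) := by
  classical
  set c' : ℕ → ℝ := fun d => if d.Coprime (2 * q₁) then c d else 0 with hc'
  have h1 : ∀ d, c' d ≠ 0 → Squarefree d ∧ d ≤ D := by
    intro d hd
    apply hc
    intro h
    apply hd
    simp [hc', h]
  have h2 : S1 D q₁ c y = SD D c' y := by
    unfold S1 SD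
    refine sum_congr rfl fun d _ => ?_
    simp only [hc']
    by_cases h3 : (d : ℤ) ∣ y ^ 2 - 2 <;> by_cases h4 : d.Coprime (2 * q₁) <;> simp [h3, h4]
  rw [h2, sw_SD c' h1]
  symm
  refine (sum_congr rfl fun T hT => ?_).trans (sum_subset (f := fun T => c' (∏ p ∈ T, p)) ?_ ?_)
  · rw [mem_powerset] at hT
    have h5 : (∏ p ∈ T, p).Coprime (2 * q₁) := by
      refine Nat.Coprime.prod_left fun p hp => ?_
      have h6 := mem_filter.1 (hT hp)
      exact (Nat.Prime.coprime_iff_not_dvd (Nat.prime_of_mem_primeFactors h6.1)).2 h6.2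
    simp only [hc', if_pos h5]
  · exact powerset_mono.2 (filter_subset _ _)
  · intro T hT hT2
    rw [mem_powerset] at hT hT2
    simp only [hc']
    rw [if_neg]
    intro h5
    apply hT2
    intro p hp
    refine mem_filter.2 ⟨hT hp, fun h6 => ?_⟩
    have h7 : p.Prime := Nat.prime_of_mem_primeFactors (hT hp)
    have h8 : p ∣ ∏ p ∈ T, p := dvd_prod_of_mem _ hp
    exact Nat.not_coprime_of_dvd_of_dvd h7.one_lt h8 h6 h5

/-- subsets of a union -/
theorem sw_union (a : ℕ → Prop) [DecidablePred a] (A B : Finset ℕ) (hA : ∀ p ∈ A, a p)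
    (hB : ∀ p ∈ B, ¬ a p) (F G : Finset ℕ → ℝ) :
    ∑ T ∈ (A ∪ B).powerset, F (T.filter a) * G (T.filter fun p => ¬ a p) =
      (∑ T ∈ A.powerset, F T) * ∑ T ∈ B.powerset, G T := by
  classical
  rw [sum_mul_sum, ← sum_product']
  refine sum_bij' (fun T _ => (T.filter a, T.filter fun p => ¬ a p)) (fun t _ => t.1 ∪ t.2)
    ?_ ?_ ?_ ?_ ?_
  · intro T hT
    rw [mem_powerset] at hT
    rw [mem_product, mem_powerset, mem_powerset]
    constructor
    · intro p hp
      obtain ⟨h1, h2⟩ := mem_filter.1 hp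
      rcases mem_union.1 (hT h1) with h3 | h3
      · exact h3
      · exact absurd h2 (hB p h3)
    · intro p hp
      obtain ⟨h1, h2⟩ := mem_filter.1 hp
      rcases mem_union.1 (hT h1) with h3 | h3
      · exact absurd (hA p h3) h2
      · exact h3
  · intro t ht
    rw [mem_product, mem_powerset, mem_powerset] at ht
    exact mem_powerset.2 (union_subset_union ht.1 ht.2)
  · intro T hT
    exact filter_union_filter_not_eq a T
  · intro t ht
    rw [mem_product, mem_powerset, mem_powerset] at ht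
    have h1 : (t.1 ∪ t.2).filter a = t.1 := by
      ext p
      simp only [mem_filter, mem_union]
      constructor
      · rintro ⟨h1 | h1, h2⟩
        · exact h1
        · exact absurd h2 (hB p (ht.2 h1))
      · intro h1
        exact ⟨Or.inl h1, hA p (ht.1 h1)⟩
    have h2 : (t.1 ∪ t.2).filter (fun p => ¬ a p) = t.2 := by
      ext p
      simp only [mem_filter, mem_union]
      constructor
      · rintro ⟨h1 | h1, h2⟩
        · exact absurd (hA p (ht.1 h1)) h2
        · exact h1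
      · intro h1
        exact ⟨Or.inr h1, hB p (ht.2 h1)⟩
    exact Prod.ext h1 h2
  · intro T hT
    rfl

theorem sw_neg (A : Finset ℕ) :
    ∑ T ∈ A.powerset, (-1 : ℝ) ^ T.card = if A = ∅ then 1 else 0 := by
  classical
  have h1 := Finset.sum_powerset_neg_one_pow_card (x := A)
  have h2 : ((∑ T ∈ A.powerset, (-1 : ℤ) ^ T.card : ℤ) : ℝ) =
      ((if A = ∅ then 1 else 0 : ℤ) : ℝ) := by
    rw [h1]
  push_cast at h2
  exact h2

theorem thm_Sw : St_Sw := by
  classical
  intro K D q₁ c₀ δ₀ η₀ C c cu hq hK hC hS hD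
  have hq0 : (1 : ℝ) ≤ q₁ := by exact_mod_cast hq
  have hKp : (0 : ℝ) ≤ (K : ℝ) ^ (49 / 100 : ℝ) := by positivity
  have hKD : (K : ℝ) ^ (49 / 100 : ℝ) ≤ D := by
    have := mul_le_mul_of_nonneg_right hq0 hKp
    linarith
  have hsc : ∀ d, c d ≠ 0 → Squarefree d ∧ d ≤ D := fun d hd => by
    obtain ⟨h1, h2⟩ := hS.supp d (Or.inl hd)
    exact ⟨h1, by exact_mod_cast h2.trans hKD⟩
  have hscu : ∀ d, cu d ≠ 0 → Squarefree d ∧ d ≤ D := fun d hd => by
    obtain ⟨h1, h2⟩ := hS.supp d (Or.inr hd)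
    exact ⟨h1, by exact_mod_cast h2.trans hKD⟩
  -- the first part
  have hI : IsC D C (ct q₁ c) := by
    constructor
    · intro d hd
      unfold ct at hd
      split_ifs at hd with h
      · refine ⟨h.1, h.2, ?_⟩
        have h1 : c (∏ p ∈ d.primeFactors.filter (fun p => ¬ p ∣ q₁), p) ≠ 0 :=
          right_ne_zero_of_mul hd
        have h2 := (hS.supp _ (Or.inl h1)).2
        have h3 : d = (∏ p ∈ d.primeFactors.filter (fun p => p ∣ q₁), p) *
            ∏ p ∈ d.primeFactors.filter (fun p => ¬ p ∣ q₁), p := by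
          rw [prod_filter_mul_prod_filter_not]
          exact (Nat.prod_primeFactors_of_squarefree h.1).symm
        have h4 : (∏ p ∈ d.primeFactors.filter (fun p => p ∣ q₁), p) ∣ q₁ := by
          refine Finset.prod_primes_dvd q₁ (fun p hp => ?_) fun p hp => (mem_filter.1 hp).2
          exact (Nat.prime_of_mem_primeFactors (mem_filter.1 hp).1).prime
        have h5 : ((∏ p ∈ d.primeFactors.filter (fun p => p ∣ q₁), p : ℕ) : ℝ) ≤ q₁ := by
          exact_mod_cast Nat.le_of_dvd hq h4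
        have h6 : (d : ℝ) ≤ D := by
          rw [h3, Nat.cast_mul]
          exact (mul_le_mul h5 h2 (by positivity) (by positivity)).trans hD
        exact_mod_cast h6
      · exact absurd rfl hd
    · intro d
      unfold ct
      split_ifs with h
      · rw [abs_mul, abs_pow, abs_neg, abs_one, one_pow, one_mul]
        refine (hS.bound _).1.trans ?_
        refine mul_le_mul_of_nonneg_left ?_ hC
        refine pow_le_pow_right₀ (by norm_num) ?_
        rw [(sw_prod (T := d.primeFactors.filter (fun p => ¬ p ∣ q₁)) fun p hp =>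
          Nat.prime_of_mem_primeFactors (mem_filter.1 hp).1).2.1]
        exact card_filter_le _ _
      · rw [abs_zero]
        positivity
  refine ⟨hI, fun y => ?_, fun y => ?_⟩
  · rw [sw_SD (ct q₁ c) (fun d hd => ⟨(hI.supp d hd).1, (hI.supp d hd).2.2⟩) y, sw_S1 c hsc y]
    set n := (y ^ 2 - 2).natAbs with hn
    set A : Finset ℕ := n.primeFactors.filter fun p => p ≠ 2 ∧ p ∣ q₁ with hA
    have hex : exq q₁ y = ∑ T ∈ A.powerset, (-1 : ℝ) ^ T.card := by
      rw [sw_neg]
      unfold exq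
      refine if_congr ?_ rfl rfl
      rw [hA, filter_eq_empty_iff]
      constructor
      · rintro h p hp ⟨h2, h3⟩
        have hp' := Nat.prime_of_mem_primeFactors hp
        refine h p (Nat.mem_primeFactors.2 ⟨hp', h3, by omega⟩) h2 ?_
        exact Int.natCast_dvd.2 (Nat.dvd_of_mem_primeFactors hp)
      · intro h p hp h2 h3
        refine h (Nat.mem_primeFactors.2 ⟨Nat.prime_of_mem_primeFactors hp, ?_, ?_⟩)
          ⟨h2, Nat.dvd_of_mem_primeFactors hp⟩
        · exact Int.natCast_dvd.1 h3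
        · exact Int.natAbs_ne_zero.2 (sw_ne y)
    have hBq : ∀ p ∈ sw_B q₁ y, ¬ p ∣ q₁ := fun p hp h =>
      (mem_filter.1 hp).2 (h.mul_left 2)
    have hAq : ∀ p ∈ A, p ∣ q₁ := fun p hp => (mem_filter.1 hp).2.2
    rw [hex, ← sw_union (fun p => p ∣ q₁) A (sw_B q₁ y) hAq hBq (fun T => (-1 : ℝ) ^ T.card)
      (fun T => c (∏ p ∈ T, p))]
    symm
    refine (sum_congr rfl fun T hT => ?_).trans
      (sum_subset (f := fun T => ct q₁ c (∏ p ∈ T, p)) ?_ ?_)
    · rw [mem_powerset] at hT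
      have hTp : ∀ p ∈ T, p.Prime := fun p hp => by
        rcases mem_union.1 (hT hp) with h | h
        · exact Nat.prime_of_mem_primeFactors (mem_filter.1 h).1
        · exact Nat.prime_of_mem_primeFactors (mem_filter.1 h).1
      obtain ⟨h1, h2, h3⟩ := sw_prod hTp
      have h4 : ¬ 2 ∣ ∏ p ∈ T, p := by
        intro h5
        have h6 : 2 ∈ T := by
          rw [← h2]
          exact Nat.mem_primeFactors.2 ⟨Nat.prime_two, h5, h3⟩
        rcases mem_union.1 (hT h6) with h | h
        · exact (mem_filter.1 h).2.1 rfl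
        · exact (mem_filter.1 h).2 (dvd_mul_right 2 q₁)
      unfold ct
      rw [if_pos ⟨h1, h4⟩, h2]
    · refine powerset_mono.2 (union_subset (filter_subset _ _) (filter_subset _ _))
    · intro T hT hT2
      rw [mem_powerset] at hT hT2
      have hTp : ∀ p ∈ T, p.Prime := fun p hp => Nat.prime_of_mem_primeFactors (hT hp)
      unfold ct
      rw [if_neg]
      rintro ⟨-, h4⟩
      apply hT2
      intro p hp
      have hp2 : p ≠ 2 := by
        rintro rfl
        exact h4 (dvd_prod_of_mem _ hp)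
      by_cases hpq : p ∣ q₁
      · exact mem_union_left _ (mem_filter.2 ⟨hT hp, hp2, hpq⟩)
      · refine mem_union_right _ (mem_filter.2 ⟨hT hp, fun h => ?_⟩)
        rcases (hTp p hp).dvd_mul.1 h with h | h
        · exact hp2 ((Nat.prime_dvd_prime_iff_eq (hTp p hp) Nat.prime_two).1 h)
        · exact hpq h
  · rw [sw_S1 c hsc y, sw_S1 cu hscu y]
    have hBp : ∀ p ∈ sw_B q₁ y, p.Prime := fun p hp =>
      Nat.prime_of_mem_primeFactors (mem_filter.1 hp).1
    obtain ⟨h1, h2, h3⟩ := sw_prod hBp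
    have h4 := sw_pow h3 c fun d hd => (hsc d hd).1
    have h5 := sw_pow h3 cu fun d hd => (hscu d hd).1
    rw [h2] at h4 h5
    rw [← h4, ← h5]
    exact hS.abs_le _ (Nat.one_le_iff_ne_zero.2 h3)

end Pool.Agent.MV5
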