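import Mathlib
import Pool.Agent.GBQ.Basic
import Pool.Agent.GBQ.Bad
import Pool.Agent.MVII.Ep
import Pool.Agent.MV5.StB
import Pool.Agent.MV5.StC
import Pool.Agent.MV5.StD

set_option autoImplicit false

/-!
# MV5: UP, the sum is bounded by the number of solutions
-/

namespace Pool.Agent.MV5

open Finset Filter
open Pool.Agent.GBQ (ee lam nd Admissible)
open Pool.Agent.LIN (PP pz Dens)
open Pool.Agent.MT (IsWt)
open Pool.Agent.MVII (Blk SolY SolN)

/-! ### counting -/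

/-- the exceptional `y`, prime powers -/
theorem up_card {m n K : ℕ} (hm : 1 ≤ m) (hn : 1 ≤ n) (hK : m * K < n) :
    ((((Icc 1 K).filter
      (fun y => y ∈ GBQ.badPP n ∨ n - m * y ∈ GBQ.badPP n)).card : ℕ) : ℝ) ≤
      6 * (Real.sqrt n * Real.log n) := by
  classical
  have hpp := GBQ.bad_card_pp hn
  have h1 : ((Icc 1 K).filter
      (fun y => y ∈ GBQ.badPP n ∨ n - m * y ∈ GBQ.badPP n)).card ≤
      (GBQ.badPP n).card + (GBQ.badPP n).card := by
    rw [filter_or]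
    refine (card_union_le _ _).trans (Nat.add_le_add ?_ ?_)
    · exact card_le_card fun y hy => (mem_filter.1 hy).2
    · apply card_le_card_of_injOn (fun y => n - m * y)
      · intro y hy
        exact (mem_filter.1 hy).2
      · intro a ha b hb hab
        rw [mem_coe, mem_filter, mem_Icc] at ha hb
        simp only at hab
        have ha2 : m * a ≤ m * K := Nat.mul_le_mul_left m ha.1.2
        have hb2 : m * b ≤ m * K := Nat.mul_le_mul_left m hb.1.2
        have h : m * a = m * b := by omega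
        exact Nat.eq_of_mul_eq_mul_left (by omega) h
  have h2 : ((((Icc 1 K).filter
      (fun y => y ∈ GBQ.badPP n ∨ n - m * y ∈ GBQ.badPP n)).card : ℕ) : ℝ) ≤
      (GBQ.badPP n).card + (GBQ.badPP n).card := by exact_mod_cast h1
  linarith

/-- numbers in one residue class -/
theorem up_class (K q : ℕ) (S : Finset ℕ) (hS : S ⊆ Icc 1 K)
    (h : ∀ a ∈ S, ∀ b ∈ S, (q : ℤ) ∣ (a : ℤ) - b) : S.card ≤ K / q + 1 := by
  rw [← card_range (K / q + 1)]
  apply card_le_card_of_injOn (fun y => y / q)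
  · intro y hy
    have h1 := (mem_Icc.mp (hS hy)).2
    have h2 := Nat.div_le_div_right (c := q) h1
    simp only [coe_range, Set.mem_Iio]
    omega
  · intro a ha b hb hab
    simp only at hab
    have h1 : a % q = b % q := (Nat.modEq_iff_dvd.mpr (h b hb a ha) : a ≡ b [MOD q])
    rw [← Nat.div_add_mod a q, ← Nat.div_add_mod b q, hab, h1]

/-- two roots modulo the square of an odd prime -/
theorem up_two {p : ℕ} (hp : p.Prime) (h2 : p ≠ 2) {a b : ℤ} (ha : (p : ℤ) ^ 2 ∣ a ^ 2 - 2)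
    (hb : (p : ℤ) ^ 2 ∣ b ^ 2 - 2) : (p : ℤ) ^ 2 ∣ a - b ∨ (p : ℤ) ^ 2 ∣ a + b := by
  have h1 : (p : ℤ) ^ 2 ∣ (a - b) * (a + b) := by
    have h3 := dvd_sub ha hb
    have h4 : a ^ 2 - 2 - (b ^ 2 - 2) = (a - b) * (a + b) := by ring
    rwa [h4] at h3
  have hpp : Prime (p : ℤ) := Nat.prime_iff_prime_int.mp hp
  have hpd : (p : ℤ) ∣ (p : ℤ) ^ 2 := dvd_pow_self _ (by norm_num)
  have two : ∀ z : ℤ, (p : ℤ) ∣ 2 * z → (p : ℤ) ∣ z := by
    intro z hz
    rcases hpp.dvd_or_dvd hz with h | h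
    · exfalso
      have h5 : p ∣ 2 := by exact_mod_cast h
      exact h2 ((Nat.prime_dvd_prime_iff_eq hp Nat.prime_two).mp h5)
    · exact h
  have hnot : ¬ ((p : ℤ) ∣ a - b ∧ (p : ℤ) ∣ a + b) := by
    rintro ⟨h5, h6⟩
    have h7 : (p : ℤ) ∣ a := by
      apply two
      have h8 := dvd_add h5 h6
      have h9 : a - b + (a + b) = 2 * a := by ring
      rwa [h9] at h8
    have h8 : (p : ℤ) ∣ 2 * 1 := by
      have h9 : (p : ℤ) ∣ a ^ 2 := dvd_pow h7 (by norm_num)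
      have h10 := dvd_sub h9 (dvd_trans hpd ha)
      have h11 : a ^ 2 - (a ^ 2 - 2) = 2 * 1 := by ring
      rwa [h11] at h10
    have h9 := two 1 h8
    exact hpp.not_isUnit (isUnit_of_dvd_one h9)
  by_cases h5 : (p : ℤ) ∣ a - b
  · left
    have h6 : ¬ (p : ℤ) ∣ a + b := fun h => hnot ⟨h5, h⟩
    have h7 : IsCoprime ((p : ℤ) ^ 2) (a + b) :=
      IsCoprime.pow_left ((Prime.coprime_iff_not_dvd hpp).mpr h6)
    exact h7.dvd_of_dvd_mul_right h1
  · right
    have h7 : IsCoprime ((p : ℤ) ^ 2) (a - b) :=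
      IsCoprime.pow_left ((Prime.coprime_iff_not_dvd hpp).mpr h5)
    exact h7.dvd_of_dvd_mul_left h1

/-- the square of one prime -/
theorem up_one {p : ℕ} (hp : p.Prime) (h2 : p ≠ 2) (K : ℕ) :
    ((Icc 1 K).filter (fun y : ℕ => (p : ℤ) ^ 2 ∣ (y : ℤ) ^ 2 - 2)).card ≤
      2 * (K / p ^ 2 + 1) := by
  classical
  rcases ((Icc 1 K).filter (fun y : ℕ => (p : ℤ) ^ 2 ∣ (y : ℤ) ^ 2 - 2)).eq_empty_or_nonempty
    with h0 | ⟨b, hb⟩
  · rw [h0]
    simp
  set S := (Icc 1 K).filter (fun y : ℕ => (p : ℤ) ^ 2 ∣ (y : ℤ) ^ 2 - 2) with hS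
  have hb2 := (mem_filter.mp hb).2
  have h1 : S ⊆ S.filter (fun y : ℕ => (p : ℤ) ^ 2 ∣ (y : ℤ) - b) ∪
      S.filter (fun y : ℕ => (p : ℤ) ^ 2 ∣ (y : ℤ) + b) := by
    intro y hy
    rw [mem_union]
    rcases up_two hp h2 (mem_filter.mp hy).2 hb2 with h | h
    · exact Or.inl (mem_filter.mpr ⟨hy, h⟩)
    · exact Or.inr (mem_filter.mpr ⟨hy, h⟩)
  have h3 : (S.filter (fun y : ℕ => (p : ℤ) ^ 2 ∣ (y : ℤ) - b)).card ≤ K / p ^ 2 + 1 := by
    refine up_class K (p ^ 2) _ ((filter_subset _ _).trans (filter_subset _ _)) ?_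
    intro x hx y hy
    have h4 := dvd_sub (mem_filter.mp hx).2 (mem_filter.mp hy).2
    have h5 : (x : ℤ) - b - (y - b) = x - y := by ring
    rw [h5] at h4
    exact_mod_cast h4
  have h4 : (S.filter (fun y : ℕ => (p : ℤ) ^ 2 ∣ (y : ℤ) + b)).card ≤ K / p ^ 2 + 1 := by
    refine up_class K (p ^ 2) _ ((filter_subset _ _).trans (filter_subset _ _)) ?_
    intro x hx y hy
    have h4 := dvd_sub (mem_filter.mp hx).2 (mem_filter.mp hy).2
    have h5 : (x : ℤ) + b - (y + b) = x - y := by ring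
    rw [h5] at h4
    exact_mod_cast h4
  have h5 := card_le_card h1
  have h6 := h5.trans (card_union_le _ _)
  omega

open scoped Classical in
/-- the `y` with a square -/
noncomputable def up_E (K z w : ℕ) : Finset ℕ := (Icc 1 K).filter
  (fun y : ℕ => ∃ p : ℕ, p.Prime ∧ z < p ∧ p ≤ w ∧ (p : ℤ) ^ 2 ∣ (y : ℤ) ^ 2 - 2)

theorem up_E_card {K z w : ℕ} (hz : 2 ≤ z) :
    ((up_E K z w).card : ℝ) ≤ 2 * K / z + 2 * w := by
  classical
  rcases lt_or_ge w z with hwz | hzw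
  · have h0 : up_E K z w = ∅ := by
      unfold up_E
      rw [filter_eq_empty_iff]
      rintro y - ⟨p, -, h1, h2, -⟩
      omega
    rw [h0]
    simp only [card_empty, Nat.cast_zero]
    positivity
  have h1 : up_E K z w ⊆ ((Ioc z w).filter Nat.Prime).biUnion
      (fun p => (Icc 1 K).filter (fun y : ℕ => (p : ℤ) ^ 2 ∣ (y : ℤ) ^ 2 - 2)) := by
    intro y hy
    obtain ⟨hy1, p, hp, hzp, hpw, hd⟩ := mem_filter.mp hy
    rw [mem_biUnion]
    exact ⟨p, mem_filter.mpr ⟨mem_Ioc.mpr ⟨hzp, hpw⟩, hp⟩, mem_filter.mpr ⟨hy1, hd⟩⟩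
  have h2 : (up_E K z w).card ≤ ∑ p ∈ (Ioc z w).filter Nat.Prime, 2 * (K / p ^ 2 + 1) := by
    refine (card_le_card h1).trans (card_biUnion_le.trans (sum_le_sum fun p hp => ?_))
    obtain ⟨h3, h4⟩ := mem_filter.mp hp
    rw [mem_Ioc] at h3
    exact up_one h4 (by omega) K
  have h3 : ∑ p ∈ (Ioc z w).filter Nat.Prime, 2 * (K / p ^ 2 + 1) ≤
      ∑ p ∈ Ioc z w, 2 * (K / p ^ 2 + 1) :=
    sum_le_sum_of_subset_of_nonneg (filter_subset _ _) fun _ _ _ => Nat.zero_le _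
  have h4 : ((∑ p ∈ Ioc z w, 2 * (K / p ^ 2 + 1) : ℕ) : ℝ) ≤
      2 * K * (∑ p ∈ Ioc z w, ((p : ℝ) ^ 2)⁻¹) + 2 * w := by
    push_cast
    have h5 : ∀ p ∈ Ioc z w, 2 * (((K / p ^ 2 : ℕ) : ℝ) + 1) ≤ 2 * K * ((p : ℝ) ^ 2)⁻¹ + 2 := by
      intro p _
      have h6 : ((K / p ^ 2 : ℕ) : ℝ) ≤ (K : ℝ) / ((p ^ 2 : ℕ) : ℝ) := Nat.cast_div_le
      push_cast at h6
      rw [div_eq_mul_inv] at h6
      linarith
    refine (sum_le_sum h5).trans ?_
    rw [sum_add_distrib, ← mul_sum, sum_const, nsmul_eq_mul, Nat.card_Ioc]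
    have h6 : ((w - z : ℕ) : ℝ) ≤ w := by exact_mod_cast Nat.sub_le w z
    linarith
  have h5 := sum_Ioc_inv_sq_le_sub (α := ℝ) (k := z) (n := w) (by omega) hzw
  have h6 : (0 : ℝ) ≤ (w : ℝ)⁻¹ := by positivity
  have h7 : 2 * (K : ℝ) * (∑ p ∈ Ioc z w, ((p : ℝ) ^ 2)⁻¹) ≤ 2 * K / z := by
    rw [div_eq_mul_inv]
    exact mul_le_mul_of_nonneg_left (by linarith) (by positivity)
  have h8 : ((up_E K z w).card : ℝ) ≤ ((∑ p ∈ Ioc z w, 2 * (K / p ^ 2 + 1) : ℕ) : ℝ) := by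
    exact_mod_cast h2.trans h3
  linarith

/-- the number of `y` with a square, at the limits of the sieve -/
theorem up_E_le {K : ℕ} (hK : 512 ≤ K) :
    2 ≤ zs K ∧ ((up_E K (zs K) (ys K)).card : ℝ) ≤ 6 * (K : ℝ) ^ (88 / 100 : ℝ) := by
  have hKr : (512 : ℝ) ≤ K := by exact_mod_cast hK
  have hK0 : (0 : ℝ) < K := by linarith
  have hK1 : (1 : ℝ) ≤ K := by linarith
  have h1 : (2 : ℝ) ≤ (K : ℝ) ^ (12 / 100 : ℝ) := by
    calc (2 : ℝ) = (2 : ℝ) ^ (1 : ℝ) := (Real.rpow_one 2).symm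
      _ ≤ (2 : ℝ) ^ (9 * (12 / 100) : ℝ) :=
        Real.rpow_le_rpow_of_exponent_le (by norm_num) (by norm_num)
      _ = ((2 : ℝ) ^ (9 : ℝ)) ^ (12 / 100 : ℝ) := Real.rpow_mul (by norm_num) _ _
      _ ≤ (K : ℝ) ^ (12 / 100 : ℝ) := by
        refine Real.rpow_le_rpow (by positivity) ?_ (by norm_num)
        have h2 : (2 : ℝ) ^ (9 : ℝ) = 512 := by
          have h3 : (9 : ℝ) = ((9 : ℕ) : ℝ) := by norm_num
          rw [h3, Real.rpow_natCast]
          norm_num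
        rw [h2]
        exact hKr
  have hz : 2 ≤ zs K := by
    unfold zs
    rw [Nat.le_floor_iff (by positivity)]
    exact_mod_cast h1
  refine ⟨hz, (up_E_card hz).trans ?_⟩
  have h2 : (K : ℝ) ^ (12 / 100 : ℝ) / 2 ≤ zs K := by
    have h3 := Nat.lt_floor_add_one ((K : ℝ) ^ (12 / 100 : ℝ))
    have h4 : (K : ℝ) ^ (12 / 100 : ℝ) < zs K + 1 := h3
    linarith
  have h3 : 2 * (K : ℝ) / zs K ≤ 4 * (K : ℝ) ^ (88 / 100 : ℝ) := by
    have h4 : (0 : ℝ) < (K : ℝ) ^ (12 / 100 : ℝ) / 2 := by positivity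
    calc 2 * (K : ℝ) / zs K ≤ 2 * (K : ℝ) / ((K : ℝ) ^ (12 / 100 : ℝ) / 2) := by gcongr
      _ = 4 * ((K : ℝ) / (K : ℝ) ^ (12 / 100 : ℝ)) := by
        field_simp
        ring
      _ = 4 * (K : ℝ) ^ (88 / 100 : ℝ) := by
        congr 1
        have h5 : (88 / 100 : ℝ) = 1 - 12 / 100 := by norm_num
        rw [h5, Real.rpow_sub hK0, Real.rpow_one]
  have h4 : (ys K : ℝ) ≤ (K : ℝ) ^ (88 / 100 : ℝ) := by
    refine (Nat.floor_le (by positivity)).trans ?_
    exact Real.rpow_le_rpow_of_exponent_le hK1 (by norm_num)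
  linarith

/-! ### the sieve -/

/-- the sum over the divisors -/
theorem up_det {K D q₁ : ℕ} {c₀ δ₀ η₀ C : ℝ} {c cu : ℕ → ℝ}
    (hq₁ : 1 ≤ q₁) (hD : (K : ℝ) ^ (49 / 100 : ℝ) ≤ D) (hs : IsSv K c₀ δ₀ η₀ C c cu) {y : ℕ} (hy : y.Prime)
    (hy3 : 3 ≤ y) (hyK : y ≤ K) (hE : y ∉ up_E K (zs K) (ys K))
    (hq : exq q₁ y * S1 D q₁ c y > 0) :
    ArithmeticFunction.cardFactors (y ^ 2 - 2) ≤ 5 := by
  classical
  have hy9 : 9 ≤ y ^ 2 := by nlinarith
  have hcast : ((y ^ 2 - 2 : ℕ) : ℤ) = (y : ℤ) ^ 2 - 2 := by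
    rw [Nat.cast_sub (by omega)]
    push_cast
    rfl
  have hodd : ¬ 2 ∣ y ^ 2 - 2 := by
    intro h
    have h1 : 2 ∣ y ^ 2 := by omega
    have h2 := Nat.prime_two.dvd_of_dvd_pow h1
    have h3 := (Nat.prime_dvd_prime_iff_eq Nat.prime_two hy).mp h2
    omega
  have hx : ∀ p ∈ q₁.primeFactors, p ≠ 2 → ¬ (p : ℤ) ∣ (y : ℤ) ^ 2 - 2 := by
    by_contra h
    have h1 : exq q₁ (y : ℤ) = 0 := by
      unfold exq
      rw [if_neg h]
    rw [h1, zero_mul] at hq
    exact lt_irrefl _ hq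
  have h1 : exq q₁ (y : ℤ) = 1 := by
    unfold exq
    rw [if_pos hx]
  rw [h1, one_mul] at hq
  have h2 : S1 D q₁ c y = ∑ d ∈ (y ^ 2 - 2).divisors, c d := by
    unfold S1
    rw [← sum_filter]
    apply sum_subset
    · intro d hd
      obtain ⟨-, hd2, -⟩ := mem_filter.mp hd
      rw [← hcast] at hd2
      exact Nat.mem_divisors.mpr ⟨by exact_mod_cast hd2, by omega⟩
    · intro d hd hn
      by_contra hc
      apply hn
      have hdd := Nat.dvd_of_mem_divisors hd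
      obtain ⟨h3, h4⟩ := hs.supp d (Or.inl hc)
      have h5 : d ≤ D := by exact_mod_cast h4.trans hD
      have h6 : 1 ≤ d := Nat.pos_of_mem_divisors hd
      have h7 : (d : ℤ) ∣ (y : ℤ) ^ 2 - 2 := by
        rw [← hcast]
        exact_mod_cast hdd
      refine mem_filter.mpr ⟨mem_Icc.mpr ⟨h6, h5⟩, h7, ?_⟩
      refine Nat.Coprime.mul_right ?_ ?_
      · rw [Nat.coprime_comm, Nat.Prime.coprime_iff_not_dvd Nat.prime_two]
        exact fun h => hodd (h.trans hdd)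
      · by_contra hcop
        obtain ⟨p, hp, hp1, hp2⟩ := Nat.Prime.not_coprime_iff_dvd.mp hcop
        rcases eq_or_ne p 2 with h8 | h8
        · rw [h8] at hp1
          exact hodd (hp1.trans hdd)
        · by_cases hq0 : q₁ = 0
          · exact absurd hq0 (by omega)
          exact hx p (Nat.mem_primeFactors.mpr ⟨hp, hp2, hq0⟩) h8
            (dvd_trans (by exact_mod_cast hp1) h7)
  rw [h2] at hq
  have hle : y ^ 2 - 2 ≤ K ^ 2 := by
    have := Nat.pow_le_pow_left hyK 2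
    omega
  refine (hs.det (y ^ 2 - 2) (by omega) hle ?_ hq).2
  intro p hp hp1 hp2 hp3
  apply hE
  unfold up_E
  refine mem_filter.mpr ⟨mem_Icc.mpr ⟨by omega, hyK⟩, p, hp, hp1, hp2, ?_⟩
  rw [← hcast]
  exact_mod_cast hp3

/-- UP from SW and SB. -/
theorem thm_Up (h1 : St_Sw) (h2 : St_Sb) : St_Up := by
  classical
  intro η hη c₀ δ₀ η₀ C ε hC hε
  obtain ⟨θ, hθ⟩ : ∃ θ : ℝ, θ = min (1 / 1000) (ε / 2) := ⟨_, rfl⟩
  have hθ0 : 0 < θ := by
    rw [hθ]
    exact lt_min (by norm_num) (by linarith)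
  have hθ1 : θ ≤ 1 / 1000 := by
    rw [hθ]
    exact min_le_left _ _
  have hθ2 : θ ≤ ε / 2 := by
    rw [hθ]
    exact min_le_right _ _
  have ev1 := MVII.thm_Ep θ hθ0 4
  have ev2 : ∀ᶠ X : ℕ in atTop, 1000 ≤ X := eventually_ge_atTop 1000
  have ev3 := h2 C θ hθ0
  have ev4 : ∀ᶠ X : ℕ in atTop, (4096 : ℝ) ≤ (X : ℝ) ^ (9 / 10 : ℝ) :=
    ((tendsto_rpow_atTop (by norm_num : (0 : ℝ) < 9 / 10)).comp
      tendsto_natCast_atTop_atTop).eventually_ge_atTop 4096
  filter_upwards [ev1, ev2, ev3, ev4] with X hX hX2 hSD hX4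
  intro m q₁ c cu hm hmX hq₁ hqD hs n hn
  obtain ⟨_, hlog, _, _, _⟩ := hX
  obtain ⟨hn1, hn2⟩ := hn
  have hX0 : (0 : ℝ) < X := by exact_mod_cast (by omega : 0 < X)
  have hX1 : (1 : ℝ) ≤ X := by exact_mod_cast (by omega : 1 ≤ X)
  -- the size of `m`
  have hm4 : 4096 * m ≤ X := by
    have e1 : (4096 : ℝ) * m ≤ X := by
      calc (4096 : ℝ) * m ≤ (X : ℝ) ^ (9 / 10 : ℝ) * (X : ℝ) ^ (1 / 10 : ℝ) := by gcongr
        _ = X := by
          rw [← Real.rpow_add hX0]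
          norm_num
    exact_mod_cast e1
  obtain ⟨K, hK⟩ : ∃ K : ℕ, K = KK m X := ⟨_, rfl⟩
  rw [← hK] at hqD hs ⊢
  have hK' : K = X / (8 * m) := hK
  have hK512 : 512 ≤ K := by
    rw [hK', Nat.le_div_iff_mul_le (by omega)]
    omega
  have hKX : 8 * (m * K) ≤ X := by
    have := Nat.div_mul_le_self X (8 * m)
    calc 8 * (m * K) = X / (8 * m) * (8 * m) := by rw [hK']; ring
      _ ≤ X := this
  have hnlow : 3 * X ≤ 8 * n := by omega
  have hnX : n ≤ X := by omega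
  have hmK : m * K < n := by omega
  have hKn : K ≤ m * K := Nat.le_mul_of_pos_left K (by omega)
  have hKX' : K ≤ X := by omega
  have hlX : 0 ≤ Real.log X := Real.log_nonneg hX1
  have hK0 : (0 : ℝ) < K := by exact_mod_cast (by omega : 0 < K)
  obtain ⟨hIC, hSid, -⟩ := h1 K (DD X) q₁ c₀ δ₀ η₀ C c cu hq₁ (by omega) hC.le hs hqD
  have hD : (K : ℝ) ^ (49 / 100 : ℝ) ≤ DD X := by
    refine le_trans ?_ hqD
    have e1 : (1 : ℝ) ≤ q₁ := by exact_mod_cast hq₁
    exact le_mul_of_one_le_left (Real.rpow_nonneg hK0.le _) e1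
  set B : ℝ := Real.log X * (X : ℝ) ^ θ * Real.log X with hB
  have hP0 : 0 ≤ (X : ℝ) ^ θ := Real.rpow_nonneg hX0.le _
  have hB0 : 0 ≤ B := by positivity
  set E : Finset ℕ := (Icc 1 K).filter
    (fun y => y ∈ GBQ.badPP n ∨ n - m * y ∈ GBQ.badPP n) with hE
  have hEc := up_card hm (by omega : 1 ≤ n) hmK
  rw [← hE] at hEc
  obtain ⟨-, hE2⟩ := up_E_le hK512
  set E' : Finset ℕ := up_E K (zs K) (ys K) with hE'
  have hterm : ∀ y ∈ Icc 1 K, lam y * η ((y : ℝ) / K) * SD (DD X) (ct q₁ c) y *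
      lam (n - m * y) ≤ if y ∈ (E ∪ E') ∪ SolY 5 m n then B else 0 := by
    intro y hy
    have hy' := mem_Icc.1 hy
    have hmy : m * y ≤ m * K := Nat.mul_le_mul_left m hy'.2
    have hyX : y ≤ X := by omega
    have b1 := GBQ.lam_nonneg y
    have b2 := GBQ.lam_nonneg (n - m * y)
    have b3 := hη.nonneg ((y : ℝ) / K)
    have b4 := hη.le_one ((y : ℝ) / K)
    split_ifs with hyE
    · -- trivial bound
      have a1 : lam y ≤ Real.log X := by
        refine (GBQ.lam_le_log y).trans ?_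
        exact Real.log_le_log (by exact_mod_cast (by omega : 0 < y)) (by exact_mod_cast hyX)
      have a2 : lam (n - m * y) ≤ Real.log X := by
        refine (GBQ.lam_le_log _).trans ?_
        rcases Nat.eq_zero_or_pos (n - m * y) with h0 | h0
        · rw [h0]; simpa using hlX
        · exact Real.log_le_log (by exact_mod_cast h0) (by exact_mod_cast (by omega))
      have a3 : SD (DD X) (ct q₁ c) y ≤ (X : ℝ) ^ θ := by
        refine (le_abs_self _).trans (hSD (ct q₁ c) (DD X) (y : ℤ) hIC ?_)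
        rw [abs_of_nonneg (by positivity)]
        exact_mod_cast (by omega : y ≤ 2 * X)
      have a4 : lam y * η ((y : ℝ) / K) ≤ Real.log X :=
        (mul_le_of_le_one_right b1 b4).trans a1
      have a5 : 0 ≤ lam y * η ((y : ℝ) / K) := mul_nonneg b1 b3
      rw [hB]
      refine mul_le_mul ?_ a2 b2 (by positivity)
      calc lam y * η ((y : ℝ) / K) * SD (DD X) (ct q₁ c) y
          ≤ lam y * η ((y : ℝ) / K) * (X : ℝ) ^ θ := mul_le_mul_of_nonneg_left a3 a5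
        _ ≤ _ := mul_le_mul_of_nonneg_right a4 hP0
    · by_cases c1 : lam y = 0
      · rw [c1]
        simp
      by_cases c2 : lam (n - m * y) = 0
      · rw [c2, mul_zero]
      by_cases c3 : η ((y : ℝ) / K) = 0
      · rw [c3]
        simp
      have hyp : y.Prime := by
        by_contra hnp
        apply hyE
        refine mem_union_left _ (mem_union_left _ ?_)
        rw [hE, mem_filter]
        refine ⟨hy, Or.inl ?_⟩
        rw [GBQ.badPP, mem_filter, mem_Ioc]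
        exact ⟨⟨by omega, by omega⟩, hnp, c1⟩
      have hnp : (n - m * y).Prime := by
        by_contra hnp
        apply hyE
        refine mem_union_left _ (mem_union_left _ ?_)
        rw [hE, mem_filter]
        refine ⟨hy, Or.inr ?_⟩
        rw [GBQ.badPP, mem_filter, mem_Ioc]
        exact ⟨⟨by omega, by omega⟩, hnp, c2⟩
      have hy3 : 3 ≤ y := by
        have e1 := (hη.supp _ c3).1
        rw [lt_div_iff₀ hK0] at e1
        have e2 : (512 : ℝ) ≤ K := by exact_mod_cast hK512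
        have e3 : (3 : ℝ) ≤ y := by linarith
        exact_mod_cast e3
      have hS0 : SD (DD X) (ct q₁ c) y ≤ 0 := by
        by_contra hpos
        push Not at hpos
        rw [hSid] at hpos
        have hyE' : y ∉ up_E K (zs K) (ys K) := fun h =>
          hyE (mem_union_left _ (mem_union_right _ h))
        have hfac := up_det hq₁ hD hs hyp hy3 hy'.2 hyE' hpos
        apply hyE
        refine mem_union_right _ ?_
        unfold MVII.SolY
        rw [mem_filter, mem_range]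
        have hyn : y ≤ m * y := Nat.le_mul_of_pos_left y (by omega)
        exact ⟨by omega, hyp, by omega, hnp, hfac⟩
      exact mul_nonpos_of_nonpos_of_nonneg
        (mul_nonpos_of_nonneg_of_nonpos (mul_nonneg b1 b3) hS0) b2
  have hsum : R0 η m K (DD X) (ct q₁ c) n ≤
      (E.card + E'.card) * B + (SolY 5 m n).card * B := by
    unfold R0
    refine (sum_le_sum hterm).trans ?_
    rw [← sum_filter, sum_const, nsmul_eq_mul, ← add_mul]
    refine mul_le_mul_of_nonneg_right ?_ hB0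
    have h3 : ((Icc 1 K).filter (fun y => y ∈ (E ∪ E') ∪ SolY 5 m n)).card ≤
        (E.card + E'.card) + (SolY 5 m n).card := by
      refine (card_le_card fun y hy => (mem_filter.1 hy).2).trans ((card_union_le _ _).trans ?_)
      exact Nat.add_le_add_right (card_union_le _ _) _
    exact_mod_cast h3
  refine hsum.trans ?_
  set M : ℝ := 1 + Real.log (2 * X) with hM
  have hlog2 : Real.log X ≤ Real.log (2 * X) := Real.log_le_log hX0 (by linarith)
  have hM6 : 6 ≤ M := by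
    have h5 : (5 : ℝ) ≤ Real.log (2 * X) := by
      rw [Real.le_log_iff_exp_le (by positivity)]
      have e1 : Real.exp 5 = Real.exp 1 ^ 5 := by
        rw [← Real.exp_nat_mul]
        norm_num
      rw [e1]
      have e2 := Real.exp_one_lt_d9
      have e3 : Real.exp 1 ^ 5 ≤ (2.7182818286 : ℝ) ^ 5 :=
        pow_le_pow_left₀ (Real.exp_pos 1).le e2.le 5
      have e4 : (1000 : ℝ) ≤ X := by exact_mod_cast hX2
      have e5 : (2.7182818286 : ℝ) ^ 5 ≤ 2000 := by norm_num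
      linarith
    linarith
  have hM1 : 1 ≤ M := by linarith
  have hM0 : 0 ≤ M := by linarith
  have hLM : Real.log X ≤ M := by linarith
  have hln : Real.log n ≤ M := by
    refine le_trans ?_ hLM
    exact Real.log_le_log (by exact_mod_cast (by omega : 0 < n)) (by exact_mod_cast hnX)
  have hln0 : 0 ≤ Real.log n := Real.log_natCast_nonneg n
  have hsq : Real.sqrt n ≤ (X : ℝ) ^ (88 / 100 : ℝ) := by
    calc Real.sqrt n ≤ Real.sqrt X := Real.sqrt_le_sqrt (by exact_mod_cast hnX)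
      _ = (X : ℝ) ^ (1 / 2 : ℝ) := Real.sqrt_eq_rpow _
      _ ≤ _ := Real.rpow_le_rpow_of_exponent_le hX1 (by norm_num)
  have hsq0 : 0 ≤ Real.sqrt n := Real.sqrt_nonneg _
  have hXh0 : 0 ≤ (X : ℝ) ^ (88 / 100 : ℝ) := Real.rpow_nonneg hX0.le _
  have hM2 : M ^ 2 ≤ (X : ℝ) ^ θ := (pow_le_pow_right₀ hM1 (by norm_num)).trans hlog
  have c5 : (6 : ℝ) ≤ (X : ℝ) ^ θ := by
    refine hM6.trans (le_trans ?_ hM2)
    calc M = M ^ 1 := (pow_one M).symm
      _ ≤ M ^ 2 := pow_le_pow_right₀ hM1 (by norm_num)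
  have c1 : (E.card : ℝ) ≤ (X : ℝ) ^ θ * (X : ℝ) ^ (88 / 100 : ℝ) := by
    refine hEc.trans ?_
    calc 6 * (Real.sqrt n * Real.log n) ≤ M * ((X : ℝ) ^ (88 / 100 : ℝ) * M) := by
          apply mul_le_mul hM6 _ (by positivity) hM0
          exact mul_le_mul hsq hln hln0 hXh0
      _ = M ^ 2 * (X : ℝ) ^ (88 / 100 : ℝ) := by ring
      _ ≤ _ := mul_le_mul_of_nonneg_right hM2 hXh0
  have c1' : (E'.card : ℝ) ≤ (X : ℝ) ^ θ * (X : ℝ) ^ (88 / 100 : ℝ) := by
    refine hE2.trans ?_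
    have e1 : (K : ℝ) ^ (88 / 100 : ℝ) ≤ (X : ℝ) ^ (88 / 100 : ℝ) :=
      Real.rpow_le_rpow hK0.le (by exact_mod_cast hKX') (by norm_num)
    have e3 : 0 ≤ (K : ℝ) ^ (88 / 100 : ℝ) := by positivity
    exact mul_le_mul c5 e1 e3 hP0
  have c3 : B ≤ (X : ℝ) ^ θ * (X : ℝ) ^ θ := by
    calc B ≤ M * (X : ℝ) ^ θ * M := by
          rw [hB]
          apply mul_le_mul _ hLM hlX (by positivity)
          exact mul_le_mul_of_nonneg_right hLM hP0
      _ = (X : ℝ) ^ θ * M ^ 2 := by ring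
      _ ≤ _ := mul_le_mul_of_nonneg_left hM2 hP0
  have c4 : B ≤ (X : ℝ) ^ ε := by
    refine c3.trans ?_
    rw [← Real.rpow_add hX0]
    exact Real.rpow_le_rpow_of_exponent_le hX1 (by linarith)
  refine add_le_add ?_ (mul_le_mul_of_nonneg_left c4 (Nat.cast_nonneg _))
  calc ((E.card : ℝ) + E'.card) * B ≤
        (2 * ((X : ℝ) ^ θ * (X : ℝ) ^ (88 / 100 : ℝ))) * ((X : ℝ) ^ θ * (X : ℝ) ^ θ) :=
        mul_le_mul (by linarith) c3 hB0 (by positivity)
    _ ≤ ((X : ℝ) ^ θ * ((X : ℝ) ^ θ * (X : ℝ) ^ (88 / 100 : ℝ))) *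
          ((X : ℝ) ^ θ * (X : ℝ) ^ θ) :=
        mul_le_mul_of_nonneg_right (mul_le_mul_of_nonneg_right (by linarith) (by positivity))
          (by positivity)
    _ = (X : ℝ) ^ ((θ + (θ + 88 / 100)) + (θ + θ) : ℝ) := by
        rw [Real.rpow_add hX0, Real.rpow_add hX0, Real.rpow_add hX0, Real.rpow_add hX0]
    _ ≤ (X : ℝ) ^ (9 / 10 : ℝ) := Real.rpow_le_rpow_of_exponent_le hX1 (by linarith)

end Pool.Agent.MV5
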